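import Mathlib

/-!
# An abstract local theorem

A group acts on a set, and there is a symmetric relation on the set (two points lie in a common
face). Patches of radius `r` are compared by elements of the group. If the number of classes of
patches of radius `R` is small compared with `R`, then for some `r < R` all isomorphisms of
patches of radius `r` are isomorphisms of patches of all radii.
-/

namespace Pool.Agent.H83.Sail.Local

variable {Γ X : Type*} [Group Γ] [MulAction Γ X]

/-- `g` maps the patch of radius `r` at `x` onto the patch of radius `r` at `g x`. -/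
def PIso (Adj : X → X → Prop) : ℕ → X → Γ → Prop
  | 0, _, _ => True
  | r + 1, x, g => (∀ w, Adj x w ↔ Adj (g • x) (g • w)) ∧ ∀ u, Adj x u → PIso Adj r u g

variable {Adj : X → X → Prop}

theorem PIso.comp {r : ℕ} {x : X} {g h : Γ} (hg : PIso Adj r x g) (hh : PIso Adj r (g • x) h) :
    PIso Adj r x (h * g) := by
  induction r generalizing x with
  | zero => trivial
  | succ r ih =>
    refine ⟨fun w => ?_, fun u hu => ?_⟩
    · rw [mul_smul, mul_smul, hg.1 w, hh.1 (g • w)]
    · exact ih (hg.2 u hu) (hh.2 (g • u) ((hg.1 u).mp hu))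

theorem PIso.inv {r : ℕ} {x : X} {g : Γ} (hg : PIso Adj r x g) : PIso Adj r (g • x) g⁻¹ := by
  induction r generalizing x with
  | zero => trivial
  | succ r ih =>
    have h1 : ∀ w, Adj (g • x) w ↔ Adj (g⁻¹ • g • x) (g⁻¹ • w) := by
      intro w
      rw [inv_smul_smul, hg.1 (g⁻¹ • w), smul_inv_smul]
    refine ⟨h1, fun u hu => ?_⟩
    have h2 : Adj x (g⁻¹ • u) := by
      have h3 := (h1 u).mp hu
      rwa [inv_smul_smul] at h3
    have h3 := ih (hg.2 _ h2)
    rwa [smul_inv_smul] at h3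

theorem PIso.one (r : ℕ) (x : X) : PIso Adj r x (1 : Γ) := by
  induction r generalizing x with
  | zero => trivial
  | succ r ih => exact ⟨fun w => by rw [one_smul, one_smul], fun u _ => ih u⟩

theorem PIso.mono_succ {r : ℕ} {x : X} {g : Γ} (hg : PIso Adj (r + 1) x g) : PIso Adj r x g := by
  induction r generalizing x with
  | zero => trivial
  | succ r ih => exact ⟨hg.1, fun u hu => ih (hg.2 u hu)⟩

theorem PIso.mono {r s : ℕ} (hrs : r ≤ s) {x : X} {g : Γ} (hg : PIso Adj s x g) :
    PIso Adj r x g := by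
  induction s, hrs using Nat.le_induction with
  | base => exact hg
  | succ s _ ih => exact ih hg.mono_succ

/-- The stabiliser of a point and its patch. -/
def Stab (Γ : Type*) [Group Γ] [MulAction Γ X] (Adj : X → X → Prop) (r : ℕ) (x : X) :
    Subgroup Γ where
  carrier := {g | g • x = x ∧ PIso Adj r x g}
  one_mem' := ⟨one_smul _ _, PIso.one r x⟩
  mul_mem' := by
    rintro g h ⟨hg1, hg2⟩ ⟨hh1, hh2⟩
    refine ⟨by rw [mul_smul, hh1, hg1], hh2.comp ?_⟩
    rw [hh1]
    exact hg2
  inv_mem' := by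
    rintro g ⟨hg1, hg2⟩
    refine ⟨by rw [inv_smul_eq_iff, hg1], ?_⟩
    have h1 := hg2.inv
    rwa [hg1] at h1

theorem mem_stab {r : ℕ} {x : X} {g : Γ} :
    g ∈ Stab Γ Adj r x ↔ g • x = x ∧ PIso Adj r x g := Iff.rfl

theorem stab_anti {r s : ℕ} (hrs : r ≤ s) (x : X) : Stab Γ Adj s x ≤ Stab Γ Adj r x :=
  fun _ hg => ⟨hg.1, hg.2.mono hrs⟩

/-- The points that belong to some face. -/
def Node (Adj : X → X → Prop) : Type _ := {x : X // Adj x x}

/-- Equivalence of pointed patches. -/
def Rel (Γ : Type*) [Group Γ] [MulAction Γ X] (Adj : X → X → Prop) (r : ℕ) (x y : X) : Prop :=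
  ∃ g : Γ, g • x = y ∧ PIso Adj r x g

theorem Rel.symm {r : ℕ} {x y : X} (h : Rel Γ Adj r x y) : Rel Γ Adj r y x := by
  obtain ⟨g, rfl, hg⟩ := h
  exact ⟨g⁻¹, inv_smul_smul _ _, hg.inv⟩

theorem Rel.trans {r : ℕ} {x y z : X} (h1 : Rel Γ Adj r x y) (h2 : Rel Γ Adj r y z) :
    Rel Γ Adj r x z := by
  obtain ⟨g, rfl, hg⟩ := h1
  obtain ⟨h, rfl, hh⟩ := h2
  exact ⟨h * g, mul_smul _ _ _, hg.comp hh⟩

/-- The setoid of patches of radius `r`. -/
def patchSetoid (Γ : Type*) [Group Γ] [MulAction Γ X] (Adj : X → X → Prop) (r : ℕ) :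
    Setoid (Node Adj) where
  r x y := Rel Γ Adj r x.1 y.1
  iseqv := ⟨fun x => ⟨1, one_smul _ _, PIso.one r x.1⟩, fun h => h.symm, fun h1 h2 => h1.trans h2⟩

/-- The classes of patches of radius `r`. -/
def Q (Γ : Type*) [Group Γ] [MulAction Γ X] (Adj : X → X → Prop) (r : ℕ) : Type _ :=
  Quotient (patchSetoid Γ Adj r)

/-- The class of a point. -/
def cls (Γ : Type*) [Group Γ] [MulAction Γ X] (Adj : X → X → Prop) (r : ℕ) (x : Node Adj) :
    Q Γ Adj r := Quotient.mk (patchSetoid Γ Adj r) x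

theorem cls_eq {r : ℕ} {x y : Node Adj} :
    cls Γ Adj r x = cls Γ Adj r y ↔ Rel Γ Adj r x.1 y.1 := Quotient.eq

theorem cls_surj {r : ℕ} (q : Q Γ Adj r) : ∃ x, cls Γ Adj r x = q := Quotient.exists_rep q

/-- A representative of a class. -/
noncomputable def rep {r : ℕ} (q : Q Γ Adj r) : Node Adj := Quotient.out q

theorem cls_rep {r : ℕ} (q : Q Γ Adj r) : cls Γ Adj r (rep q) = q := Quotient.out_eq q

/-- The class of smaller radius. -/
noncomputable def down (r : ℕ) (q : Q Γ Adj (r + 1)) : Q Γ Adj r := cls Γ Adj r (rep q)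

theorem down_cls (r : ℕ) (x : Node Adj) : down r (cls Γ Adj (r + 1) x) = cls Γ Adj r x := by
  rw [down, cls_eq]
  have h1 : cls Γ Adj (r + 1) (rep (cls Γ Adj (r + 1) x)) = cls Γ Adj (r + 1) x := cls_rep _
  rw [cls_eq] at h1
  obtain ⟨g, hg1, hg2⟩ := h1
  exact ⟨g, hg1, hg2.mono_succ⟩

/-- Conjugate stabilisers have the same order. -/
theorem card_stab_eq {r : ℕ} {x y : X} (h : Rel Γ Adj r x y) :
    Nat.card (Stab Γ Adj r x) = Nat.card (Stab Γ Adj r y) := by
  obtain ⟨g, rfl, hg⟩ := h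
  have key : ∀ (x : X) (g : Γ), PIso Adj r x g → ∀ h ∈ Stab Γ Adj r x,
      g * h * g⁻¹ ∈ Stab Γ Adj r (g • x) := by
    intro x g hg h hh
    refine ⟨?_, ?_⟩
    · rw [mul_smul, mul_smul, inv_smul_smul, hh.1]
    · have h1 : PIso Adj r (g • x) g⁻¹ := hg.inv
      have h2 : PIso Adj r (g⁻¹ • g • x) (g * h) := by
        rw [inv_smul_smul]
        refine hh.2.comp ?_
        rw [hh.1]
        exact hg
      exact h1.comp h2
  refine Nat.card_congr ⟨fun h => ⟨g * h.1 * g⁻¹, key x g hg h.1 h.2⟩,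
    fun h => ⟨g⁻¹ * h.1 * g, ?_⟩, fun h => ?_, fun h => ?_⟩
  · have h1 := key (g • x) g⁻¹ hg.inv h.1 h.2
    rwa [inv_smul_smul, inv_inv] at h1
  · apply Subtype.ext
    simp only
    group
  · apply Subtype.ext
    simp only
    group

/-- The weight of a class. -/
noncomputable def wt (b r : ℕ) (q : Q Γ Adj r) : ℕ :=
  1 + (b - Nat.log 2 (Nat.card (Stab Γ Adj r (rep q).1)))

theorem wt_cls (b r : ℕ) (x : Node Adj) :
    wt b r (cls Γ Adj r x) = 1 + (b - Nat.log 2 (Nat.card (Stab Γ Adj r x.1))) := by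
  have h1 : cls Γ Adj r (rep (cls Γ Adj r x)) = cls Γ Adj r x := cls_rep _
  rw [cls_eq] at h1
  rw [wt, card_stab_eq h1]

/-- All isomorphisms of patches of radius `r` are isomorphisms of patches of radius `r + 1`. -/
def Stable (Γ : Type*) [Group Γ] [MulAction Γ X] (Adj : X → X → Prop) (r : ℕ) : Prop :=
  ∀ (x : Node Adj) (g : Γ), Adj (g • x.1) (g • x.1) → PIso Adj r x.1 g → PIso Adj (r + 1) x.1 g

theorem finite_stab {r : ℕ} (hr : 1 ≤ r) (x : X) [Finite (Stab Γ Adj 1 x)] :
    Finite (Stab Γ Adj r x) := by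
  have h1 : ((Stab Γ Adj 1 x : Subgroup Γ) : Set Γ).Finite := Set.toFinite _
  exact (h1.subset (stab_anti hr x)).to_subtype

theorem card_stab_le {r s : ℕ} (hr : 1 ≤ r) (hrs : r ≤ s) (x : X) [Finite (Stab Γ Adj 1 x)] :
    Nat.card (Stab Γ Adj s x) ≤ Nat.card (Stab Γ Adj r x) := by
  have h1 := finite_stab (Γ := Γ) (Adj := Adj) hr x
  exact Nat.card_le_card_of_injective (Subgroup.inclusion (stab_anti hrs x))
    (Subgroup.inclusion_injective _)

theorem wt_mono (b r : ℕ) (hr : 1 ≤ r) (x : Node Adj) [Finite (Stab Γ Adj 1 x.1)] :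
    wt b r (cls Γ Adj r x) ≤ wt b (r + 1) (cls Γ Adj (r + 1) x) := by
  rw [wt_cls, wt_cls]
  have h1 := Nat.log_mono_right (b := 2)
    (card_stab_le (Γ := Γ) (Adj := Adj) hr (Nat.le_succ r) x.1)
  have h2 : Nat.succ r = r + 1 := rfl
  rw [h2] at h1
  omega

theorem phi_step (b r : ℕ) (hr : 1 ≤ r) [Fintype (Q Γ Adj r)] [Fintype (Q Γ Adj (r + 1))]
    (hstab : ∀ x : Node Adj, Finite (Stab Γ Adj 1 x.1))
    (hb : ∀ x : Node Adj, Nat.log 2 (Nat.card (Stab Γ Adj 1 x.1)) ≤ b)
    (hns : ¬ Stable Γ Adj r) :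
    ∑ q : Q Γ Adj r, wt b r q + 1 ≤ ∑ q : Q Γ Adj (r + 1), wt b (r + 1) q := by
  classical
  have hfib : ∑ q : Q Γ Adj (r + 1), wt b (r + 1) q =
      ∑ q : Q Γ Adj r, ∑ q' ∈ Finset.univ.filter (fun q' => down r q' = q), wt b (r + 1) q' :=
    (Finset.sum_fiberwise Finset.univ (down r) _).symm
  have hmem : ∀ x : Node Adj, cls Γ Adj (r + 1) x ∈
      Finset.univ.filter (fun q' => down r q' = cls Γ Adj r x) := fun x =>
    Finset.mem_filter.mpr ⟨Finset.mem_univ _, down_cls r x⟩
  have hle : ∀ q ∈ (Finset.univ : Finset (Q Γ Adj r)), wt b r q ≤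
      ∑ q' ∈ Finset.univ.filter (fun q' => down r q' = q), wt b (r + 1) q' := by
    intro q _
    obtain ⟨x, rfl⟩ := cls_surj q
    have := hstab x
    exact (wt_mono b r hr x).trans
      (Finset.single_le_sum (f := fun q' => wt b (r + 1) q') (fun _ _ => Nat.zero_le _) (hmem x))
  have hlt : ∃ q ∈ (Finset.univ : Finset (Q Γ Adj r)), wt b r q <
      ∑ q' ∈ Finset.univ.filter (fun q' => down r q' = q), wt b (r + 1) q' := by
    unfold Stable at hns
    push Not at hns
    obtain ⟨x, g, hgx, hg, hng⟩ := hns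
    have := hstab x
    set y : Node Adj := ⟨g • x.1, hgx⟩ with hy
    have hxy : cls Γ Adj r x = cls Γ Adj r y := cls_eq.mpr ⟨g, rfl, hg⟩
    refine ⟨cls Γ Adj r x, Finset.mem_univ _, ?_⟩
    by_cases hne : cls Γ Adj (r + 1) x = cls Γ Adj (r + 1) y
    · obtain ⟨h, hh1, hh2⟩ := cls_eq.mp hne
      have hkr : g⁻¹ * h ∈ Stab Γ Adj r x.1 := by
        refine ⟨?_, ?_⟩
        · rw [mul_smul, hh1, hy]
          exact inv_smul_smul _ _
        · refine hh2.mono_succ.comp ?_
          rw [hh1, hy]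
          exact hg.inv
      have hks : g⁻¹ * h ∉ Stab Γ Adj (r + 1) x.1 := by
        intro hk
        have hk' := (Stab Γ Adj (r + 1) x.1).inv_mem hk
        apply hng
        have h1 : PIso Adj (r + 1) x.1 (h * (g⁻¹ * h)⁻¹) := by
          refine hk'.2.comp ?_
          rw [hk'.1]
          exact hh2
        have h2 : h * (g⁻¹ * h)⁻¹ = g := by group
        rwa [h2] at h1
      have hfin := finite_stab (Γ := Γ) (Adj := Adj) hr x.1
      have hfin' := finite_stab (Γ := Γ) (Adj := Adj) (Nat.le_succ_of_le hr) x.1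
      have hlt2 : 2 * Nat.card (Stab Γ Adj (r + 1) x.1) ≤ Nat.card (Stab Γ Adj r x.1) := by
        have hdvd : Nat.card (Stab Γ Adj (r + 1) x.1) ∣ Nat.card (Stab Γ Adj r x.1) :=
          Subgroup.card_dvd_of_le (stab_anti (Nat.le_succ r) x.1)
        obtain ⟨e, he⟩ := hdvd
        have hne1 : e ≠ 1 := by
          rintro rfl
          rw [mul_one] at he
          have h3 : Stab Γ Adj (r + 1) x.1 = Stab Γ Adj r x.1 :=
            Subgroup.eq_of_le_of_card_ge (stab_anti (Nat.le_succ r) x.1) (le_of_eq he)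
          rw [h3] at hks
          exact hks hkr
        have hne0 : e ≠ 0 := by
          rintro rfl
          rw [mul_zero] at he
          exact Nat.card_pos.ne' he
        rw [he]
        have : 2 ≤ e := by omega
        nlinarith [Nat.zero_le (Nat.card (Stab Γ Adj (r + 1) x.1))]
      have hlog : Nat.log 2 (Nat.card (Stab Γ Adj (r + 1) x.1)) + 1 ≤
          Nat.log 2 (Nat.card (Stab Γ Adj r x.1)) := by
        rw [← Nat.log_mul_base (by norm_num) Nat.card_pos.ne']
        refine Nat.log_mono_right ?_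
        rw [mul_comm]
        exact hlt2
      have hbx : Nat.log 2 (Nat.card (Stab Γ Adj r x.1)) ≤ b :=
        (Nat.log_mono_right (card_stab_le le_rfl hr x.1)).trans (hb x)
      have h4 : wt b r (cls Γ Adj r x) < wt b (r + 1) (cls Γ Adj (r + 1) x) := by
        rw [wt_cls, wt_cls]
        omega
      exact h4.trans_le (Finset.single_le_sum (f := fun q' => wt b (r + 1) q')
        (fun _ _ => Nat.zero_le _) (hmem x))
    · have h1 : ({cls Γ Adj (r + 1) x, cls Γ Adj (r + 1) y} : Finset _) ⊆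
          Finset.univ.filter (fun q' => down r q' = cls Γ Adj r x) := by
        intro q hq
        rcases Finset.mem_insert.mp hq with h | h
        · rw [h]
          exact hmem x
        · rw [Finset.mem_singleton.mp h, hxy]
          exact hmem y
      have h2 := Finset.sum_le_sum_of_subset (f := fun q' => wt b (r + 1) q') h1
      rw [Finset.sum_pair hne] at h2
      have h3 := wt_mono (Γ := Γ) b r hr x
      have h4 : 1 ≤ wt b (r + 1) (cls Γ Adj (r + 1) y) := by
        rw [wt]
        omega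
      omega
  rw [hfib]
  exact Finset.sum_lt_sum hle hlt

theorem finite_down (r : ℕ) [Finite (Q Γ Adj (r + 1))] : Finite (Q Γ Adj r) := by
  refine Finite.of_surjective (down r) (fun q => ?_)
  obtain ⟨x, rfl⟩ := cls_surj q
  exact ⟨_, down_cls r x⟩

theorem finite_le {r R : ℕ} (hrR : r ≤ R) (h : Finite (Q Γ Adj R)) : Finite (Q Γ Adj r) := by
  induction R, hrR using Nat.le_induction with
  | base => exact h
  | succ R _ ih => exact ih (finite_down R)

/-- The counting lemma: few classes of large patches imply stability at some radius. -/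
theorem exists_stable (b R m : ℕ) (hR : m * (1 + b) < R) (hne : Nonempty (Node Adj))
    (hfin : Finite (Q Γ Adj R)) (hcard : Nat.card (Q Γ Adj R) ≤ m)
    (hstab : ∀ x : Node Adj, Finite (Stab Γ Adj 1 x.1))
    (hb : ∀ x : Node Adj, Nat.log 2 (Nat.card (Stab Γ Adj 1 x.1)) ≤ b) :
    ∃ r, 1 ≤ r ∧ r < R ∧ Stable Γ Adj r := by
  classical
  by_contra hcon
  push Not at hcon
  have hF : ∀ r, r ≤ R → Finite (Q Γ Adj r) := fun r hr => finite_le hr hfin
  have key : ∀ r, 1 ≤ r → ∀ hr : r ≤ R, ∀ inst : Fintype (Q Γ Adj r),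
      r ≤ ∑ q : Q Γ Adj r, wt b r q := by
    intro r hr1
    induction r, hr1 using Nat.le_induction with
    | base =>
      intro hr inst
      obtain ⟨x⟩ := hne
      have h1 : 1 ≤ wt b 1 (cls Γ Adj 1 x) := by
        rw [wt]
        omega
      exact h1.trans (Finset.single_le_sum (f := fun q => wt b 1 q) (fun _ _ => Nat.zero_le _)
        (Finset.mem_univ _))
    | succ r hr1 ih =>
      intro hr inst
      have hf := hF r (by omega)
      have inst' : Fintype (Q Γ Adj r) := Fintype.ofFinite _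
      have h1 := ih (by omega) inst'
      have h2 := phi_step b r hr1 hstab hb (hcon r hr1 (by omega))
      omega
  have inst : Fintype (Q Γ Adj R) := Fintype.ofFinite _
  have h1 := key R (by omega) le_rfl inst
  have h2 : ∑ q : Q Γ Adj R, wt b R q ≤ ∑ _q : Q Γ Adj R, (1 + b) := by
    refine Finset.sum_le_sum (fun q _ => ?_)
    rw [wt]
    omega
  rw [Finset.sum_const, Finset.card_univ, smul_eq_mul, ← Nat.card_eq_fintype_card] at h2
  have h3 : Nat.card (Q Γ Adj R) * (1 + b) ≤ m * (1 + b) := Nat.mul_le_mul_right _ hcard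
  omega

/-- Under stability an isomorphism of patches extends along chains of faces. -/
theorem Stable.extend {r : ℕ} (hst : Stable Γ Adj r) (hr : 1 ≤ r)
    (hleft : ∀ x y, Adj x y → Adj x x) {x y : X} {g : Γ} (hg : PIso Adj r x g) (hxy : Relation.ReflTransGen Adj x y) :
    PIso Adj r y g := by
  induction hxy with
  | refl => exact hg
  | tail h1 h2 ih =>
    rename_i u v
    have hu : Adj u u := hleft _ _ h2
    obtain ⟨s, rfl⟩ : ∃ s, r = s + 1 := ⟨r - 1, by omega⟩
    have hgu : Adj (g • u) (g • u) := (ih.1 u).mp hu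
    exact (hst ⟨u, hu⟩ g hgu ih).2 v h2

end Pool.Agent.H83.Sail.Local
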