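import Mathlib

/-!
# Finite groups of integer matrices

Reduction modulo three is injective on a finite group of invertible integer matrices, so its
order is at most `3 ^ (n ^ 2)`.
-/

namespace Pool.Agent.H83.Sail

variable {ι : Type*} [Fintype ι] [DecidableEq ι]

theorem one_add_pow_expand (Y : Matrix ι ι ℤ) (p : ℕ) :
    ∃ K : Matrix ι ι ℤ, (1 + Y) ^ p = 1 + (p : ℤ) • Y + K * Y ^ 2 := by
  induction p with
  | zero => exact ⟨0, by simp⟩
  | succ p ih =>
    obtain ⟨K, hK⟩ := ih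
    refine ⟨K + (p : ℤ) • 1 + K * Y, ?_⟩
    rw [pow_succ, hK]
    push_cast
    rw [add_smul, one_smul]
    noncomm_ring

theorem three_step (N : Matrix ι ι ℤ) (k p : ℕ) (hp : p.Prime)
    (h : (1 + (3 : ℤ) ^ (k + 1) • N) ^ p = 1) : ∃ N' : Matrix ι ι ℤ, N = (3 : ℤ) • N' := by
  set a : ℤ := 3 ^ k with ha
  have ha0 : a ≠ 0 := pow_ne_zero _ (by norm_num)
  have h3 : (3 : ℤ) ^ (k + 1) = 3 * a := by
    rw [pow_succ, ha, mul_comm]
  rw [h3] at h
  rcases eq_or_ne p 3 with rfl | hp3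
  · refine ⟨-(a • N ^ 2 + a ^ 2 • N ^ 3), ?_⟩
    have h4 : (1 + (3 * a) • N) ^ 3 =
        1 + (9 * a) • (N + (3 * a) • N ^ 2 + (3 * a ^ 2) • N ^ 3) := by
      have h5 : (1 + (3 * a) • N) ^ 3 =
          1 + (3 : ℤ) • ((3 * a) • N) + (3 : ℤ) • ((3 * a) • N) ^ 2 + ((3 * a) • N) ^ 3 := by
        generalize (3 * a) • N = Y
        noncomm_ring
      rw [h5, smul_pow, smul_pow]
      simp only [smul_add, smul_smul]
      have e1 : (3 : ℤ) * (3 * a) = 9 * a := by ring
      have e2 : (3 : ℤ) * (3 * a) ^ 2 = 9 * a * (3 * a) := by ring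
      have e3 : (3 * a) ^ 3 = 9 * a * (3 * a ^ 2) := by ring
      rw [e1, e2, e3]
      abel
    rw [h4] at h
    have h6 : (9 * a) • (N + (3 * a) • N ^ 2 + (3 * a ^ 2) • N ^ 3) = 0 := by
      have h7 := congrArg (fun M => M - 1) h
      simpa using h7
    rcases smul_eq_zero.mp h6 with h7 | h7
    · exact absurd h7 (mul_ne_zero (by norm_num) ha0)
    · have h8 : N = -((3 * a) • N ^ 2 + (3 * a ^ 2) • N ^ 3) := by
        rw [eq_neg_iff_add_eq_zero, ← add_assoc]
        exact h7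
      rw [smul_neg, smul_add, smul_smul, smul_smul]
      exact h8
  · obtain ⟨K, hK⟩ := one_add_pow_expand ((3 * a) • N) p
    rw [hK] at h
    have h6 : (3 * a) • ((p : ℤ) • N + (3 * a) • (K * N ^ 2)) = 0 := by
      have h7 := congrArg (fun M => M - 1) h
      simp only [sub_self] at h7
      rw [← h7, smul_pow, mul_smul_comm, smul_add, smul_smul, smul_smul, smul_smul, pow_two (3 * a),
        mul_comm (p : ℤ) (3 * a)]
      abel
    rcases smul_eq_zero.mp h6 with h7 | h7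
    · exact absurd h7 (mul_ne_zero (by norm_num) ha0)
    · have hcop : IsCoprime (p : ℤ) 3 := by
        have h8 : Nat.Coprime p 3 := (Nat.coprime_primes hp Nat.prime_three).mpr hp3
        exact_mod_cast Nat.isCoprime_iff_coprime.mpr h8
      obtain ⟨u, v, huv⟩ := hcop
      refine ⟨v • N - (u * a) • (K * N ^ 2), ?_⟩
      have h8 : (p : ℤ) • N = -((3 * a) • (K * N ^ 2)) := eq_neg_iff_add_eq_zero.mpr h7
      calc N = (u * p + v * 3) • N := by rw [huv, one_smul]
        _ = u • ((p : ℤ) • N) + (v * 3) • N := by rw [add_smul, smul_smul]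
        _ = (3 : ℤ) • (v • N - (u * a) • (K * N ^ 2)) := by
          rw [h8, smul_neg, smul_smul, smul_sub, smul_smul, smul_smul]
          have e1 : u * (3 * a) = 3 * (u * a) := by ring
          have e2 : v * 3 = 3 * v := by ring
          rw [e1, e2]
          abel

theorem eq_one_of_prime (g N : Matrix ι ι ℤ) (p : ℕ) (hp : p.Prime) (h : g ^ p = 1)
    (hg : g = 1 + (3 : ℤ) • N) : g = 1 := by
  have hall : ∀ k : ℕ, ∃ N' : Matrix ι ι ℤ, g = 1 + (3 : ℤ) ^ (k + 1) • N' := by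
    intro k
    induction k with
    | zero => exact ⟨N, by rw [zero_add, pow_one, hg]⟩
    | succ k ih =>
      obtain ⟨N', hN'⟩ := ih
      obtain ⟨N'', hN''⟩ := three_step N' k p hp (by rw [← hN', h])
      refine ⟨N'', ?_⟩
      rw [hN', hN'', smul_smul, ← pow_succ]
  ext i j
  by_contra hne
  set e : ℤ := g i j - (1 : Matrix ι ι ℤ) i j with he
  have he0 : e ≠ 0 := sub_ne_zero.mpr hne
  obtain ⟨N', hN'⟩ := hall e.natAbs
  have hdvd : (3 : ℤ) ^ (e.natAbs + 1) ∣ e := by
    refine ⟨N' i j, ?_⟩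
    rw [he]
    conv_lhs => rw [hN']
    rw [Matrix.add_apply, Matrix.smul_apply, smul_eq_mul, add_sub_cancel_left]
  refine he0 (Int.eq_zero_of_abs_lt_dvd hdvd ?_)
  rw [Int.abs_eq_natAbs]
  have h1 : e.natAbs < 3 ^ (e.natAbs + 1) :=
    (Nat.lt_pow_self (by norm_num : 1 < 3)).trans (Nat.pow_lt_pow_right (by norm_num)
      (Nat.lt_succ_self _))
  exact_mod_cast h1

theorem eq_one_of_pow (m : ℕ) : ∀ (g N : Matrix ι ι ℤ), 0 < m → g ^ m = 1 →
    g = 1 + (3 : ℤ) • N → g = 1 := by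
  induction m using Nat.strong_induction_on with
  | _ m ih =>
    intro g N hm h hg
    rcases eq_or_ne m 1 with rfl | hm1
    · rw [pow_one] at h
      exact h
    obtain ⟨p, hp, q, hq⟩ := Nat.exists_prime_and_dvd hm1
    have hq0 : 0 < q := by
      rcases Nat.eq_zero_or_pos q with h0 | h0
      · rw [h0, mul_zero] at hq
        omega
      · exact h0
    have hqm : q < m := by
      have := hp.two_le
      nlinarith
    obtain ⟨K, hK⟩ := one_add_pow_expand ((3 : ℤ) • N) q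
    have hgq : g ^ q = 1 + (3 : ℤ) • ((q : ℤ) • N + (3 : ℤ) • (K * N ^ 2)) := by
      rw [hg, hK, smul_pow, mul_smul_comm, smul_add, smul_smul, smul_smul, smul_smul,
        mul_comm (q : ℤ) 3, add_assoc]
      norm_num
    have h1 : g ^ q = 1 := by
      refine eq_one_of_prime (g ^ q) _ p hp ?_ hgq
      rw [← pow_mul, mul_comm, ← hq, h]
    exact ih q hqm g N hq0 h1 hg

/-- A finite group of invertible integer matrices has order at most `3 ^ (n ^ 2)`. -/
theorem card_le_of_finite (H : Subgroup (Matrix ι ι ℤ)ˣ) [Finite H] :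
    Nat.card H ≤ 3 ^ (Fintype.card ι * Fintype.card ι) := by
  set φ : H → (ι → ι → ZMod 3) := fun g i j =>
    ((((g : (Matrix ι ι ℤ)ˣ) : Matrix ι ι ℤ) i j : ℤ) : ZMod 3) with hφ
  have hinj : Function.Injective φ := by
    intro g h hgh
    have hcast : (((g : (Matrix ι ι ℤ)ˣ) : Matrix ι ι ℤ).map (Int.castRingHom (ZMod 3))) =
        (((h : (Matrix ι ι ℤ)ˣ) : Matrix ι ι ℤ).map (Int.castRingHom (ZMod 3))) := by
      ext i j
      exact congrFun (congrFun hgh i) j
    -- the quotient of the two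
    set q : H := g⁻¹ * h with hq
    have hqcast : (((q : (Matrix ι ι ℤ)ˣ) : Matrix ι ι ℤ).map (Int.castRingHom (ZMod 3))) =
        1 := by
      have h1 : ((q : (Matrix ι ι ℤ)ˣ) : Matrix ι ι ℤ) =
          ((g⁻¹ : H) : (Matrix ι ι ℤ)ˣ).val * ((h : (Matrix ι ι ℤ)ˣ) : Matrix ι ι ℤ) := by
        rw [hq, Subgroup.coe_mul, Units.val_mul]
      have h2 : ((g⁻¹ : H) : (Matrix ι ι ℤ)ˣ).val * ((g : (Matrix ι ι ℤ)ˣ) : Matrix ι ι ℤ) =
          1 := by
        rw [← Units.val_mul, ← Subgroup.coe_mul, inv_mul_cancel, Subgroup.coe_one,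
          Units.val_one]
      rw [h1, Matrix.map_mul, ← hcast, ← Matrix.map_mul, h2]
      ext i j
      rw [Matrix.map_apply, Matrix.one_apply, Matrix.one_apply]
      split_ifs <;> simp
    have hdiv : ∀ i j, ∃ n : ℤ, ((q : (Matrix ι ι ℤ)ˣ) : Matrix ι ι ℤ) i j -
        (1 : Matrix ι ι ℤ) i j = 3 * n := by
      intro i j
      have h1 := congrFun (congrFun hqcast i) j
      have h2 : ((((q : (Matrix ι ι ℤ)ˣ) : Matrix ι ι ℤ) i j - (1 : Matrix ι ι ℤ) i j : ℤ) :
          ZMod 3) = 0 := by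
        rw [Int.cast_sub, sub_eq_zero]
        rw [Matrix.map_apply] at h1
        rw [show (((((q : (Matrix ι ι ℤ)ˣ) : Matrix ι ι ℤ) i j : ℤ)) : ZMod 3) =
          (1 : Matrix ι ι (ZMod 3)) i j from h1, Matrix.one_apply, Matrix.one_apply]
        split_ifs <;> simp
      have h3 := (ZMod.intCast_zmod_eq_zero_iff_dvd _ 3).mp h2
      exact h3
    choose n hn using hdiv
    have hqN : ((q : (Matrix ι ι ℤ)ˣ) : Matrix ι ι ℤ) = 1 + (3 : ℤ) • Matrix.of n := by
      ext i j
      rw [Matrix.add_apply, Matrix.smul_apply, Matrix.of_apply, smul_eq_mul, ← hn i j]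
      ring
    have hfin : IsOfFinOrder q := isOfFinOrder_of_finite q
    obtain ⟨m, hm, hqm⟩ := isOfFinOrder_iff_pow_eq_one.mp hfin
    have hqm' : ((q : (Matrix ι ι ℤ)ˣ) : Matrix ι ι ℤ) ^ m = 1 := by
      rw [← Units.val_pow_eq_pow_val, ← Subgroup.coe_pow, hqm, Subgroup.coe_one, Units.val_one]
    have h1 := eq_one_of_pow m _ _ hm hqm' hqN
    have h2 : q = 1 := by
      apply Subtype.ext
      apply Units.ext
      rw [h1, Subgroup.coe_one, Units.val_one]
    rw [hq, inv_mul_eq_one] at h2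
    exact h2
  have h1 := Nat.card_le_card_of_injective φ hinj
  rw [Nat.card_eq_fintype_card (α := ι → ι → ZMod 3), Fintype.card_fun, Fintype.card_fun,
    ZMod.card, ← pow_mul] at h1
  exact h1

theorem log_card_le (H : Subgroup (Matrix ι ι ℤ)ˣ) [Finite H] :
    Nat.log 2 (Nat.card H) ≤ 2 * (Fintype.card ι * Fintype.card ι) := by
  have h1 := card_le_of_finite H
  have h2 : Nat.card H ≤ 2 ^ (2 * (Fintype.card ι * Fintype.card ι)) := by
    rw [pow_mul]
    exact h1.trans (Nat.pow_le_pow_left (by norm_num) _)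
  calc Nat.log 2 (Nat.card H) ≤ Nat.log 2 (2 ^ (2 * (Fintype.card ι * Fintype.card ι))) :=
        Nat.log_mono_right h2
    _ = _ := Nat.log_pow (by norm_num) _

end Pool.Agent.H83.Sail
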