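import Mathlib

namespace Pool.Agent.H83.Sail

open Module MeasureTheory Finset

variable {ι : Type*} [Fintype ι] [DecidableEq ι]

/-- Minkowski's theorem for `n` linear forms, with strict inequalities. -/
theorem minkowski_box (L : Matrix ι ι ℝ) (hL : L.det ≠ 0) (ε : ι → ℝ) (hε : ∀ i, 0 < ε i)
    (hprod : |L.det| < ∏ i, ε i) :
    ∃ z : ι → ℤ, z ≠ 0 ∧ ∀ i, |L.mulVec (fun j => (z j : ℝ)) i| < ε i := by
  set b := Pi.basisFun ℝ ι with hb
  have h_fund := ZSpan.isAddFundamentalDomain' b (volume : Measure (ι → ℝ))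
  have hcount : Countable (Submodule.span ℤ (Set.range b)).toAddSubgroup := by
    change Countable (Submodule.span ℤ (Set.range b))
    infer_instance
  set s : Set (ι → ℝ) := (Matrix.toLin' L) ⁻¹' (Set.pi Set.univ (fun i => Set.Ioo (-ε i) (ε i)))
    with hs
  have hmem : ∀ x, x ∈ s ↔ ∀ i, |L.mulVec x i| < ε i := by
    intro x
    rw [hs, Set.mem_preimage, Set.mem_univ_pi]
    refine forall_congr' (fun i => ?_)
    rw [Set.mem_Ioo, abs_lt, Matrix.toLin'_apply]
  have hsymm : ∀ x ∈ s, -x ∈ s := by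
    intro x hx
    rw [hmem] at hx ⊢
    intro i
    rw [Matrix.mulVec_neg, Pi.neg_apply, abs_neg]
    exact hx i
  have hconv : Convex ℝ s := by
    refine Convex.linear_preimage ?_ _
    exact convex_pi (fun i _ => convex_Ioo _ _)
  have hdet : LinearMap.det (Matrix.toLin' L) = L.det := LinearMap.det_toLin' L
  have hvol : volume (ZSpan.fundamentalDomain b) * 2 ^ finrank ℝ (ι → ℝ) < volume s := by
    have h1 : volume (ZSpan.fundamentalDomain b) = 1 := by
      rw [ZSpan.volume_fundamentalDomain]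
      have h2 : (Matrix.of b) = (1 : Matrix ι ι ℝ) := by
        ext i j
        rw [hb, Matrix.of_apply, Pi.basisFun_apply, Matrix.one_apply, Pi.single_apply]
        by_cases h : i = j
        · rw [if_pos h, if_pos h.symm]
        · rw [if_neg h, if_neg (fun h' => h h'.symm)]
      rw [h2, Matrix.det_one, abs_one, ENNReal.ofReal_one]
    rw [h1, one_mul, hs, Measure.addHaar_preimage_linearMap _ (by rw [hdet]; exact hL), hdet,
      Real.volume_pi_Ioo, Module.finrank_fintype_fun_eq_card]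
    have h2 : ∀ i, ENNReal.ofReal (ε i - -ε i) = 2 * ENNReal.ofReal (ε i) := by
      intro i
      rw [sub_neg_eq_add, ← two_mul, ENNReal.ofReal_mul (by norm_num)]
      norm_num
    simp_rw [h2]
    rw [Finset.prod_mul_distrib, Finset.prod_const, Finset.card_univ,
      ← ENNReal.ofReal_prod_of_nonneg (fun i _ => (hε i).le), mul_left_comm,
      ← ENNReal.ofReal_mul (abs_nonneg _)]
    have h3 : 1 < |L.det⁻¹| * ∏ i, ε i := by
      rw [abs_inv]
      have h4 : 0 < |L.det| := abs_pos.mpr hL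
      rw [← div_eq_inv_mul, one_lt_div h4]
      exact hprod
    have h4 : 1 < ENNReal.ofReal (|L.det⁻¹| * ∏ i, ε i) := by
      rw [← ENNReal.ofReal_one]
      exact (ENNReal.ofReal_lt_ofReal_iff (by linarith)).mpr h3
    calc (2 : ENNReal) ^ Fintype.card ι = 2 ^ Fintype.card ι * 1 := (mul_one _).symm
      _ < 2 ^ Fintype.card ι * ENNReal.ofReal (|L.det⁻¹| * ∏ i, ε i) :=
        ENNReal.mul_lt_mul_right (by positivity) (by finiteness) h4
  obtain ⟨⟨x, hx⟩, hne, hxs⟩ := exists_ne_zero_mem_lattice_of_measure_mul_two_pow_lt_measure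
    h_fund hsymm hconv hvol
  obtain ⟨z, hz⟩ := (Submodule.mem_span_range_iff_exists_fun ℤ).mp hx
  have hxz : x = fun j => (z j : ℝ) := by
    rw [← hz]
    funext j
    rw [Finset.sum_apply]
    simp [hb, Pi.single_apply]
  refine ⟨z, ?_, ?_⟩
  · rintro rfl
    apply hne
    rw [Subtype.ext_iff]
    change x = 0
    rw [hxz]
    funext j
    simp
  · have h5 : x ∈ s := hxs
    rw [hmem, hxz] at h5
    exact h5

omit [DecidableEq ι] in
theorem mulVec_int_sum {κ : Type*} [Fintype κ] (L : Matrix ι ι ℝ) (z : κ → ι → ℤ) (i : ι) :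
    L.mulVec (fun k => (((∑ j, z j) k : ℤ) : ℝ)) i =
      ∑ j, L.mulVec (fun k => ((z j k : ℤ) : ℝ)) i := by
  have h1 : (fun k => (((∑ j, z j) k : ℤ) : ℝ)) = ∑ j, (fun k => ((z j k : ℤ) : ℝ)) := by
    funext k
    rw [Finset.sum_apply, Finset.sum_apply, Int.cast_sum]
  rw [h1, Matrix.mulVec_sum, Finset.sum_apply]

omit [DecidableEq ι] in
theorem mulVec_int_neg (L : Matrix ι ι ℝ) (z : ι → ℤ) (i : ι) :
    L.mulVec (fun k => (((-z) k : ℤ) : ℝ)) i = -L.mulVec (fun k => ((z k : ℤ) : ℝ)) i := by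
  have h1 : (fun k => (((-z) k : ℤ) : ℝ)) = -(fun k => ((z k : ℤ) : ℝ)) := by
    funext k
    rw [Pi.neg_apply, Pi.neg_apply, Int.cast_neg]
  rw [h1, Matrix.mulVec_neg, Pi.neg_apply]

omit [DecidableEq ι] in
/-- In a box of volume `D`, a short vector has all its coordinates comparable to the sides. -/
theorem lower_coord (L : Matrix ι ι ℝ) (c : ℝ)
    (hmin : ∀ z : ι → ℤ, z ≠ 0 → c ≤ |∏ i, L.mulVec (fun j => (z j : ℝ)) i|)
    (ε : ι → ℝ) (hε : ∀ i, 0 < ε i) (z : ι → ℤ) (hz : z ≠ 0)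
    (hlt : ∀ i, |L.mulVec (fun j => (z j : ℝ)) i| < ε i) (j : ι) :
    c / (∏ i, ε i) * ε j ≤ |L.mulVec (fun j => (z j : ℝ)) j| := by
  classical
  have h1 := hmin z hz
  rw [Finset.abs_prod, ← Finset.mul_prod_erase _ _ (Finset.mem_univ j)] at h1
  have h2 : ∏ i ∈ Finset.univ.erase j, |L.mulVec (fun j => (z j : ℝ)) i| ≤
      ∏ i ∈ Finset.univ.erase j, ε i :=
    Finset.prod_le_prod (fun i _ => abs_nonneg _) (fun i _ => (hlt i).le)
  have h3 := h1.trans (mul_le_mul_of_nonneg_left h2 (abs_nonneg _))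
  have h4 : 0 < ∏ i, ε i := Finset.prod_pos (fun i _ => hε i)
  have h5 : ∏ i, ε i = ε j * ∏ i ∈ Finset.univ.erase j, ε i :=
    (Finset.mul_prod_erase _ _ (Finset.mem_univ j)).symm
  rw [div_mul_eq_mul_div, div_le_iff₀ h4, h5]
  have h6 := mul_le_mul_of_nonneg_right h3 (hε j).le
  linarith

/-- A cone with positive norm minimum: every large box at the apex has an interior point. -/
theorem box_point [Nonempty ι] (L : Matrix ι ι ℝ) (hL : L.det ≠ 0) (c : ℝ) (hc : 0 < c)
    (hmin : ∀ z : ι → ℤ, z ≠ 0 → c ≤ |∏ i, L.mulVec (fun j => (z j : ℝ)) i|) :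
    ∃ M : ℝ, ∀ s : ι → ℝ, (∀ i, 0 < s i) → M ≤ ∏ i, s i →
      ∃ w : ι → ℤ, ∀ i, 0 < L.mulVec (fun j => (w j : ℝ)) i ∧
        L.mulVec (fun j => (w j : ℝ)) i < s i := by
  set n : ℕ := Fintype.card ι with hn
  have hn1 : 1 ≤ n := Fintype.card_pos
  have hn1' : (1 : ℝ) ≤ n := by exact_mod_cast hn1
  set D : ℝ := |L.det| + 1 with hD
  have hD0 : 0 < D := by positivity
  set κ : ℝ := c / D with hκ
  have hκ0 : 0 < κ := by positivity
  set θ : ℝ := min κ 1 / (4 * n) with hθ
  have hmin0 : 0 < min κ 1 := lt_min hκ0 one_pos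
  have hθ0 : 0 < θ := by positivity
  have hθn : θ * n = min κ 1 / 4 := by
    rw [hθ]; field_simp
  set M : ℝ := 2 * D / θ ^ (n - 1) with hM
  have hM0 : 0 < M := by positivity
  -- first the boxes of volume exactly `M`
  have key : ∀ s : ι → ℝ, (∀ i, 0 < s i) → ∏ i, s i = M →
      ∃ w : ι → ℤ, ∀ i, 0 < L.mulVec (fun j => (w j : ℝ)) i ∧
        L.mulVec (fun j => (w j : ℝ)) i < s i := by
    intro s hs hsM
    have hz : ∀ j, ∃ z : ι → ℤ, κ * (s j / 2) ≤ L.mulVec (fun k => (z k : ℝ)) j ∧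
        L.mulVec (fun k => (z k : ℝ)) j < s j / 2 ∧
        ∀ i, i ≠ j → |L.mulVec (fun k => (z k : ℝ)) i| < θ * s i := by
      intro j
      set ε : ι → ℝ := fun i => Function.update (fun _ => θ) j (1 / 2) i * s i with hε
      have hεj : ε j = s j / 2 := by
        rw [hε]
        simp only [Function.update_self]
        ring
      have hεi : ∀ i, i ≠ j → ε i = θ * s i := by
        intro i hi
        rw [hε]
        simp only [Function.update_of_ne hi]
      have hε0 : ∀ i, 0 < ε i := by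
        intro i
        by_cases h : i = j
        · rw [h, hεj]; exact half_pos (hs j)
        · rw [hεi i h]; exact mul_pos hθ0 (hs i)
      have hprod : ∏ i, ε i = D := by
        rw [hε, Finset.prod_mul_distrib, Finset.prod_update_of_mem (Finset.mem_univ j),
          Finset.prod_const, Finset.card_sdiff_of_subset (Finset.subset_univ _),
          Finset.card_singleton, Finset.card_univ, ← hn, hsM, hM]
        field_simp
      obtain ⟨z, hz0, hzlt⟩ := minkowski_box L hL ε hε0 (by rw [hprod, hD]; linarith)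
      have hlow := lower_coord L c hmin ε hε0 z hz0 hzlt j
      rw [hprod, hεj] at hlow
      have hup := hzlt j
      rw [hεj] at hup
      rcases le_total 0 (L.mulVec (fun k => (z k : ℝ)) j) with h | h
      · rw [abs_of_nonneg h] at hlow hup
        refine ⟨z, hlow, hup, fun i hi => ?_⟩
        rw [← hεi i hi]
        exact hzlt i
      · rw [abs_of_nonpos h] at hlow hup
        refine ⟨-z, ?_, ?_, fun i hi => ?_⟩
        · rw [mulVec_int_neg]; exact hlow
        · rw [mulVec_int_neg]; exact hup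
        · rw [mulVec_int_neg, abs_neg, ← hεi i hi]
          exact hzlt i
    choose z hz1 hz2 hz3 using hz
    refine ⟨∑ j, z j, fun i => ?_⟩
    rw [mulVec_int_sum, ← Finset.add_sum_erase _ _ (Finset.mem_univ i)]
    have h1 : |∑ j ∈ Finset.univ.erase i, L.mulVec (fun k => ((z j k : ℤ) : ℝ)) i| ≤
        (n - 1 : ℝ) * (θ * s i) := by
      calc |∑ j ∈ Finset.univ.erase i, L.mulVec (fun k => ((z j k : ℤ) : ℝ)) i|
          ≤ ∑ j ∈ Finset.univ.erase i, |L.mulVec (fun k => ((z j k : ℤ) : ℝ)) i| :=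
            Finset.abs_sum_le_sum_abs _ _
        _ ≤ ∑ j ∈ Finset.univ.erase i, θ * s i :=
            Finset.sum_le_sum (fun j hj => (hz3 j i (Finset.ne_of_mem_erase hj).symm).le)
        _ = (n - 1 : ℝ) * (θ * s i) := by
            rw [Finset.sum_const, Finset.card_erase_of_mem (Finset.mem_univ i), Finset.card_univ,
              nsmul_eq_mul, ← hn, Nat.cast_sub hn1, Nat.cast_one]
    have h2 : (n - 1 : ℝ) * (θ * s i) < min κ 1 / 4 * s i := by
      rw [← hθn]
      have h3 : 0 < θ * s i := mul_pos hθ0 (hs i)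
      linarith
    have h3 := hz1 i
    have h4 := hz2 i
    have h5 := abs_le.mp h1
    have h6 : min κ 1 * s i ≤ κ * s i := mul_le_mul_of_nonneg_right (min_le_left _ _) (hs i).le
    have h7 : min κ 1 * s i ≤ 1 * s i := mul_le_mul_of_nonneg_right (min_le_right _ _) (hs i).le
    have h8 := hs i
    have h9 : 0 < min κ 1 * s i := mul_pos hmin0 (hs i)
    constructor <;> linarith
  refine ⟨M, fun s hs hsM => ?_⟩
  obtain ⟨i0⟩ := (inferInstance : Nonempty ι)
  have hS0 : 0 < ∏ i, s i := Finset.prod_pos (fun i _ => hs i)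
  set q : ℝ := M / ∏ i, s i with hq
  have hq0 : 0 < q := div_pos hM0 hS0
  have hq1 : q ≤ 1 := (div_le_one hS0).mpr hsM
  have hs1 : ∀ i, 0 < Function.update (fun _ => (1 : ℝ)) i0 q i * s i := by
    intro i
    by_cases h : i = i0
    · rw [h, Function.update_self]
      exact mul_pos hq0 (hs i0)
    · rw [Function.update_of_ne h, one_mul]
      exact hs i
  have hs2 : ∏ i, Function.update (fun _ => (1 : ℝ)) i0 q i * s i = M := by
    rw [Finset.prod_mul_distrib, Finset.prod_update_of_mem (Finset.mem_univ i0),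
      Finset.prod_const_one, mul_one, hq]
    field_simp
  obtain ⟨w, hw⟩ := key _ hs1 hs2
  refine ⟨w, fun i => ⟨(hw i).1, (hw i).2.trans_le ?_⟩⟩
  by_cases h : i = i0
  · rw [h, Function.update_self]
    nlinarith [hs i0]
  · rw [Function.update_of_ne h, one_mul]

/-- The vertices of the sail of a cone with positive norm minimum have bounded norms. -/
theorem vertex_bound [Nonempty ι] (L : Matrix ι ι ℝ) (hL : L.det ≠ 0) (c : ℝ) (hc : 0 < c)
    (hmin : ∀ z : ι → ℤ, z ≠ 0 → c ≤ |∏ i, L.mulVec (fun j => (z j : ℝ)) i|) :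
    ∃ M : ℝ, ∀ v : ι → ℤ, (fun j => (v j : ℝ)) ∈ (convexHull ℝ {x : ι → ℝ |
      (∀ i, 0 ≤ L.mulVec x i) ∧ x ≠ 0 ∧ ∃ z : ι → ℤ, x = fun i => (z i : ℝ)}).extremePoints ℝ →
      |∏ i, L.mulVec (fun j => (v j : ℝ)) i| ≤ M := by
  obtain ⟨M, hM⟩ := box_point L hL c hc hmin
  refine ⟨M, fun v hv => ?_⟩
  obtain ⟨hC, h0, -⟩ := extremePoints_convexHull_subset hv
  have hv0 : v ≠ 0 := by
    rintro rfl
    apply h0
    funext j
    simp
  have hpos : ∀ i, 0 < L.mulVec (fun j => (v j : ℝ)) i := by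
    intro i
    refine lt_of_le_of_ne (hC i) (fun h => ?_)
    have h1 := hmin v hv0
    rw [Finset.prod_eq_zero (Finset.mem_univ i) h.symm, abs_zero] at h1
    linarith
  rw [abs_of_pos (Finset.prod_pos (fun i _ => hpos i))]
  by_contra hcon
  push Not at hcon
  obtain ⟨w, hw⟩ := hM _ hpos hcon.le
  obtain ⟨i0⟩ := (inferInstance : Nonempty ι)
  have hne0 : ∀ x : ι → ℝ, 0 < L.mulVec x i0 → x ≠ 0 := by
    rintro x hx rfl
    rw [Matrix.mulVec_zero, Pi.zero_apply] at hx
    exact lt_irrefl _ hx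
  have hwS : (fun j => (w j : ℝ)) ∈ {x : ι → ℝ |
      (∀ i, 0 ≤ L.mulVec x i) ∧ x ≠ 0 ∧ ∃ z : ι → ℤ, x = fun i => (z i : ℝ)} :=
    ⟨fun i => (hw i).1.le, hne0 _ (hw i0).1, w, rfl⟩
  have hval : ∀ i, L.mulVec ((2 : ℝ) • (fun j => (v j : ℝ)) - fun j => (w j : ℝ)) i =
      2 * L.mulVec (fun j => (v j : ℝ)) i - L.mulVec (fun j => (w j : ℝ)) i := by
    intro i
    rw [Matrix.mulVec_sub, Matrix.mulVec_smul]
    rfl
  have hw2S : ((2 : ℝ) • (fun j => (v j : ℝ)) - fun j => (w j : ℝ)) ∈ {x : ι → ℝ |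
      (∀ i, 0 ≤ L.mulVec x i) ∧ x ≠ 0 ∧ ∃ z : ι → ℤ, x = fun i => (z i : ℝ)} := by
    refine ⟨fun i => ?_, hne0 _ ?_, fun j => 2 * v j - w j, ?_⟩
    · rw [hval]
      linarith [hpos i, (hw i).2]
    · rw [hval]
      linarith [hpos i0, (hw i0).2]
    · funext j
      simp
  have h1 := (mem_extremePoints.mp hv).2 _ (subset_convexHull ℝ _ hwS) _
    (subset_convexHull ℝ _ hw2S) ⟨1 / 2, 1 / 2, by norm_num, by norm_num, by norm_num, by
      rw [smul_sub, smul_smul]
      norm_num⟩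
  have h2 := (hw i0).2
  have h3 : (fun j => (w j : ℝ)) = fun j => (v j : ℝ) := h1.1
  rw [h3] at h2
  exact lt_irrefl _ h2

end Pool.Agent.H83.Sail
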