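import Mathlib
import Pool.Agent.H83.Sail.Box

namespace Pool.Agent.H83.Sail

open Module

variable {ι : Type*} [Fintype ι] [DecidableEq ι]

/-- The nonzero integer points of the cone. -/
def pts (L : Matrix ι ι ℝ) : Set (ι → ℝ) :=
  {x : ι → ℝ | (∀ i, 0 ≤ L.mulVec x i) ∧ x ≠ 0 ∧ ∃ z : ι → ℤ, x = fun i => (z i : ℝ)}

/-- Integer points in a box are finite in number. -/
theorem finite_box (L : Matrix ι ι ℝ) (hL : L.det ≠ 0) (r : ι → ℝ) :
    {z : ι → ℤ | ∀ i, |L.mulVec (fun j => (z j : ℝ)) i| ≤ r i}.Finite := by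
  have hunit : IsUnit L.det := isUnit_iff_ne_zero.mpr hL
  set B : ι → ℝ := fun j => ∑ i, |L⁻¹ j i| * |r i| with hB
  refine (Set.finite_Icc (fun j => -⌈B j⌉) (fun j => ⌈B j⌉)).subset ?_
  intro z hz
  have h1 : ∀ j, |(z j : ℝ)| ≤ B j := by
    intro j
    have h2 : (fun j => (z j : ℝ)) = L⁻¹.mulVec (L.mulVec (fun j => (z j : ℝ))) := by
      rw [Matrix.mulVec_mulVec, Matrix.nonsing_inv_mul L hunit, Matrix.one_mulVec]
    have h3 := congrFun h2 j
    beta_reduce at h3
    rw [h3, Matrix.mulVec, dotProduct]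
    refine (Finset.abs_sum_le_sum_abs _ _).trans (Finset.sum_le_sum (fun i _ => ?_))
    rw [abs_mul]
    exact mul_le_mul_of_nonneg_left ((hz i).trans (le_abs_self _)) (abs_nonneg _)
  constructor
  · intro j
    have h2 := (abs_le.mp (h1 j)).1
    have h3 := Int.le_ceil (B j)
    have h4 : (-(⌈B j⌉ : ℝ)) ≤ (z j : ℝ) := by linarith
    beta_reduce
    exact_mod_cast h4
  · intro j
    have h2 := (abs_le.mp (h1 j)).2
    have h3 := Int.le_ceil (B j)
    have h4 : (z j : ℝ) ≤ (⌈B j⌉ : ℝ) := by linarith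
    beta_reduce
    exact_mod_cast h4

/-- Frames of integer vectors adapted to a box of volume one. -/
theorem frame [Nonempty ι] (L : Matrix ι ι ℝ) (hL : L.det ≠ 0) (c : ℝ) (hc : 0 < c)
    (hmin : ∀ z : ι → ℤ, z ≠ 0 → c ≤ |∏ i, L.mulVec (fun j => (z j : ℝ)) i|) :
    ∃ R : ℝ, 0 < R ∧ ∀ s : ι → ℝ, (∀ i, 0 < s i) → ∏ i, s i = 1 →
      ∃ W : Matrix ι ι ℤ, W.det ≠ 0 ∧
        ∀ i j, |(L * W.map (Int.cast : ℤ → ℝ)) i j| ≤ R * s i := by
  set n : ℕ := Fintype.card ι with hn
  have hn1 : 1 ≤ n := Fintype.card_pos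
  have hn1' : (1 : ℝ) ≤ n := by exact_mod_cast hn1
  set D : ℝ := |L.det| + 1 with hD
  have hD0 : 0 < D := by positivity
  set θ : ℝ := min 1 (c / n) with hθ
  have hθ0 : 0 < θ := lt_min one_pos (by positivity)
  have hθ1 : θ ≤ 1 := min_le_left _ _
  have hθn : θ * n ≤ c := by
    have h1 : θ ≤ c / n := min_le_right _ _
    rwa [le_div_iff₀ (by positivity)] at h1
  set Θ : ℝ := D / θ ^ (n - 1) with hΘ
  have hΘ0 : 0 < Θ := by positivity
  refine ⟨max θ Θ, lt_max_of_lt_left hθ0, fun s hs hs1 => ?_⟩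
  have hz : ∀ j, ∃ z : ι → ℤ, c * s j ≤ |L.mulVec (fun k => (z k : ℝ)) j| ∧
      |L.mulVec (fun k => (z k : ℝ)) j| < Θ * s j ∧
      ∀ i, i ≠ j → |L.mulVec (fun k => (z k : ℝ)) i| < θ * s i := by
    intro j
    set ε : ι → ℝ := fun i => Function.update (fun _ => θ) j Θ i * s i with hε
    have hεj : ε j = Θ * s j := by
      rw [hε]
      simp only [Function.update_self]
    have hεi : ∀ i, i ≠ j → ε i = θ * s i := by
      intro i hi
      rw [hε]
      simp only [Function.update_of_ne hi]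
    have hε0 : ∀ i, 0 < ε i := by
      intro i
      by_cases h : i = j
      · rw [h, hεj]; exact mul_pos hΘ0 (hs j)
      · rw [hεi i h]; exact mul_pos hθ0 (hs i)
    have hprod : ∏ i, ε i = D := by
      rw [hε, Finset.prod_mul_distrib, Finset.prod_update_of_mem (Finset.mem_univ j),
        Finset.prod_const, Finset.card_sdiff_of_subset (Finset.subset_univ _),
        Finset.card_singleton, Finset.card_univ, ← hn, hs1, hΘ]
      field_simp
    obtain ⟨z, hz0, hzlt⟩ := minkowski_box L hL ε hε0 (by rw [hprod, hD]; linarith)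
    have hlow := lower_coord L c hmin ε hε0 z hz0 hzlt j
    rw [hprod, hεj] at hlow
    have hup := hzlt j
    rw [hεj] at hup
    refine ⟨z, le_trans ?_ hlow, hup, fun i hi => ?_⟩
    · have h1 : c / D * (Θ * s j) = c / θ ^ (n - 1) * s j := by
        rw [hΘ]
        field_simp
      rw [h1]
      refine mul_le_mul_of_nonneg_right ?_ (hs j).le
      rw [le_div_iff₀ (by positivity)]
      have h2 : θ ^ (n - 1) ≤ 1 := pow_le_one₀ hθ0.le hθ1
      nlinarith
    · rw [← hεi i hi]
      exact hzlt i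
  choose z hz1 hz2 hz3 using hz
  set W : Matrix ι ι ℤ := Matrix.of fun k j => z j k with hW
  have hLW : ∀ i j, (L * W.map (Int.cast : ℤ → ℝ)) i j = L.mulVec (fun k => (z j k : ℝ)) i := by
    intro i j
    rw [Matrix.mul_apply, Matrix.mulVec, dotProduct]
    rfl
  refine ⟨W, ?_, fun i j => ?_⟩
  · intro h0
    set N : Matrix ι ι ℝ := Matrix.diagonal (fun i => (s i)⁻¹) * (L * W.map (Int.cast : ℤ → ℝ))
      with hN
    have hNdet : N.det = 0 := by
      have h1 : (W.map (Int.cast : ℤ → ℝ)).det = ((W.det : ℤ) : ℝ) :=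
        ((Int.castRingHom ℝ).map_det W).symm
      rw [hN, Matrix.det_mul, Matrix.det_mul, h1, h0, Int.cast_zero, mul_zero, mul_zero]
    refine det_ne_zero_of_sum_row_lt_diag (A := N) (fun i => ?_) hNdet
    have hval : ∀ j, ‖N i j‖ = |L.mulVec (fun k => (z j k : ℝ)) i| / s i := by
      intro j
      rw [hN, Matrix.diagonal_mul, hLW, Real.norm_eq_abs, abs_mul, abs_inv, abs_of_pos (hs i),
        inv_mul_eq_div]
    rw [hval]
    have h1 : ∑ j ∈ Finset.univ.erase i, ‖N i j‖ ≤ ∑ j ∈ Finset.univ.erase i, θ := by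
      refine Finset.sum_le_sum (fun j hj => ?_)
      rw [hval, div_le_iff₀ (hs i)]
      exact (hz3 j i (Finset.ne_of_mem_erase hj).symm).le
    rw [Finset.sum_const, Finset.card_erase_of_mem (Finset.mem_univ i), Finset.card_univ,
      nsmul_eq_mul, ← hn, Nat.cast_sub hn1, Nat.cast_one] at h1
    have h2 : c ≤ |L.mulVec (fun k => (z i k : ℝ)) i| / s i := by
      rw [le_div_iff₀ (hs i)]
      exact hz1 i
    have h3 : ((n : ℝ) - 1) * θ < c := by nlinarith
    linarith
  · rw [hLW]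
    by_cases h : i = j
    · subst h
      exact (hz2 i).le.trans (mul_le_mul_of_nonneg_right (le_max_right _ _) (hs i).le)
    · exact (hz3 j i h).le.trans (mul_le_mul_of_nonneg_right (le_max_left _ _) (hs i).le)

omit [Fintype ι] [DecidableEq ι] in
/-- A linear function with finite sublevel sets on `S` is small at some vertex. -/
theorem exists_vertex_le [Finite ι] (S : Set (ι → ℝ)) (l : (ι → ℝ) →ₗ[ℝ] ℝ) (w : ι → ℝ) (hw : w ∈ S)
    (hfin : {x | x ∈ S ∧ l x ≤ l w}.Finite) :
    ∃ v ∈ (convexHull ℝ S).extremePoints ℝ, v ∈ S ∧ l v ≤ l w := by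
  obtain ⟨z, hz, hzmin⟩ := Set.exists_min_image {x | x ∈ S ∧ l x ≤ l w} l hfin
    ⟨w, hw, le_rfl⟩
  set m : ℝ := l z with hm
  have hmin : ∀ x ∈ S, m ≤ l x := by
    intro x hx
    by_cases h : l x ≤ l w
    · exact hzmin x ⟨hx, h⟩
    · exact hz.2.trans (not_le.mp h).le
  set T : Set (ι → ℝ) := {x | x ∈ S ∧ l x = m} with hT
  have hTfin : T.Finite := hfin.subset (fun x hx => ⟨hx.1, hx.2.trans_le hz.2⟩)
  have hTl : ∀ x ∈ convexHull ℝ T, l x = m := by
    have h1 : convexHull ℝ T ⊆ {x | l x = m} := by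
      refine convexHull_min (fun x hx => hx.2) ?_
      have : {x : ι → ℝ | l x = m} = l ⁻¹' {m} := rfl
      rw [this]
      exact (convex_singleton m).linear_preimage l
    exact h1
  have hcov : convexHull ℝ S ⊆ {x | m < l x} ∪ convexHull ℝ T := by
    refine convexHull_min ?_ ?_
    · intro x hx
      rcases (hmin x hx).lt_or_eq with h | h
      · exact Or.inl h
      · exact Or.inr (subset_convexHull ℝ T ⟨hx, h.symm⟩)
    · intro x hx y hy a b ha hb hab
      have hge : ∀ x ∈ {x | m < l x} ∪ convexHull ℝ T, m ≤ l x := by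
        rintro x (hx | hx)
        · exact (show m < l x from hx).le
        · exact (hTl x hx).ge
      rcases ha.eq_or_lt with ha0 | ha0
      · rw [← ha0, zero_add] at hab
        rw [← ha0, hab, zero_smul, one_smul, zero_add]
        exact hy
      rcases hb.eq_or_lt with hb0 | hb0
      · rw [← hb0, add_zero] at hab
        rw [← hb0, hab, zero_smul, one_smul, add_zero]
        exact hx
      rcases hx with hx' | hx'
      · left
        have h1 : m < l x := hx'
        have h2 := hge y hy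
        change m < l (a • x + b • y)
        rw [map_add, map_smul, map_smul, smul_eq_mul, smul_eq_mul]
        have h3 : m = a * m + b * m := by rw [← add_mul, hab, one_mul]
        nlinarith
      · rcases hy with hy' | hy'
        · left
          have h1 : m < l y := hy'
          have h2 := hTl x hx'
          change m < l (a • x + b • y)
          rw [map_add, map_smul, map_smul, smul_eq_mul, smul_eq_mul]
          have h3 : m = a * m + b * m := by rw [← add_mul, hab, one_mul]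
          nlinarith
        · right
          exact convex_convexHull ℝ T hx' hy' ha hb hab
  have hge : ∀ x ∈ convexHull ℝ S, m ≤ l x := by
    intro x hx
    rcases hcov hx with h | h
    · exact (h : m < l x).le
    · exact (hTl x h).ge
  obtain ⟨v, hv⟩ := (hTfin.isCompact_convexHull (𝕜 := ℝ)).extremePoints_nonempty
    (convexHull_nonempty_iff.mpr ⟨z, hz.1, rfl⟩)
  have hvT : v ∈ T := extremePoints_convexHull_subset hv
  refine ⟨v, ?_, hvT.1, hvT.2.trans_le hz.2⟩
  rw [mem_extremePoints] at hv ⊢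
  refine ⟨subset_convexHull ℝ S hvT.1, fun x hx y hy hxy => ?_⟩
  have hxy' := hxy
  obtain ⟨a, b, ha, hb, hab, hv'⟩ := hxy'
  have hlv : a * l x + b * l y = m := by
    rw [← hvT.2, ← hv', map_add, map_smul, map_smul, smul_eq_mul, smul_eq_mul]
  have h1 := hge x hx
  have h2 := hge y hy
  have h3 : m = a * m + b * m := by rw [← add_mul, hab, one_mul]
  have hlx : l x = m := by nlinarith
  have hly : l y = m := by nlinarith
  have hxT : x ∈ convexHull ℝ T := by
    rcases hcov hx with h | h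
    · exact absurd hlx (h : m < l x).ne'
    · exact h
  have hyT : y ∈ convexHull ℝ T := by
    rcases hcov hy with h | h
    · exact absurd hly (h : m < l y).ne'
    · exact h
  exact hv.2 x hxT y hyT hxy

/-- Vertices of the sail near every direction. -/
theorem near_vertex [Nonempty ι] (L : Matrix ι ι ℝ) (hL : L.det ≠ 0) (c : ℝ) (hc : 0 < c)
    (hmin : ∀ z : ι → ℤ, z ≠ 0 → c ≤ |∏ i, L.mulVec (fun j => (z j : ℝ)) i|) :
    ∃ κ R : ℝ, 0 < κ ∧ 0 < R ∧ ∀ s : ι → ℝ, (∀ i, 0 < s i) → ∏ i, s i = 1 →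
      ∃ v : ι → ℤ, (fun j => (v j : ℝ)) ∈ (convexHull ℝ (pts L)).extremePoints ℝ ∧
        ∀ i, κ * s i ≤ L.mulVec (fun j => (v j : ℝ)) i ∧
          L.mulVec (fun j => (v j : ℝ)) i ≤ R * s i := by
  obtain ⟨M, hM⟩ := box_point L hL c hc hmin
  set n : ℕ := Fintype.card ι with hn
  have hn1 : 1 ≤ n := Fintype.card_pos
  have hn1' : (1 : ℝ) ≤ n := by exact_mod_cast hn1
  set q : ℝ := max 1 M with hq
  have hq1 : 1 ≤ q := le_max_left _ _
  have hq0 : 0 < q := by linarith
  set R : ℝ := n * q with hR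
  have hR0 : 0 < R := by positivity
  refine ⟨c / R ^ (n - 1), R, by positivity, hR0, fun s hs hs1 => ?_⟩
  obtain ⟨w, hw⟩ := hM (fun i => q * s i) (fun i => mul_pos hq0 (hs i)) (by
    rw [Finset.prod_mul_distrib, hs1, mul_one, Finset.prod_const, Finset.card_univ, ← hn]
    exact (le_max_right 1 M).trans (le_self_pow₀ hq1 (by omega)))
  set l : (ι → ℝ) →ₗ[ℝ] ℝ := ∑ i, (s i)⁻¹ • (LinearMap.proj i ∘ₗ Matrix.toLin' L) with hl
  have hlval : ∀ x, l x = ∑ i, (s i)⁻¹ * L.mulVec x i := by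
    intro x
    rw [hl]
    simp [Matrix.toLin'_apply]
  have hwne : (fun j => (w j : ℝ)) ≠ 0 := by
    intro h0
    obtain ⟨i0⟩ := (inferInstance : Nonempty ι)
    have h1 := (hw i0).1
    rw [h0, Matrix.mulVec_zero, Pi.zero_apply] at h1
    exact lt_irrefl _ h1
  have hwS : (fun j => (w j : ℝ)) ∈ pts L := ⟨fun i => (hw i).1.le, hwne, w, rfl⟩
  have hlw : l (fun j => (w j : ℝ)) ≤ R := by
    rw [hlval]
    calc ∑ i, (s i)⁻¹ * L.mulVec (fun j => (w j : ℝ)) i ≤ ∑ _i : ι, q := by
          refine Finset.sum_le_sum (fun i _ => ?_)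
          rw [inv_mul_le_iff₀ (hs i), mul_comm]
          exact (hw i).2.le
      _ = R := by rw [Finset.sum_const, Finset.card_univ, nsmul_eq_mul, hR]
  have hcoord : ∀ x ∈ pts L, ∀ i, L.mulVec x i ≤ l x * s i := by
    intro x hx i
    have h1 : (s i)⁻¹ * L.mulVec x i ≤ l x := by
      rw [hlval]
      exact Finset.single_le_sum (f := fun i => (s i)⁻¹ * L.mulVec x i)
        (fun j _ => mul_nonneg (inv_pos.mpr (hs j)).le (hx.1 j)) (Finset.mem_univ i)
    rwa [inv_mul_le_iff₀ (hs i), mul_comm] at h1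
  have hfin : {x | x ∈ pts L ∧ l x ≤ l (fun j => (w j : ℝ))}.Finite := by
    refine ((finite_box L hL (fun i => R * s i)).image (fun z : ι → ℤ => fun j => (z j : ℝ))).subset
      ?_
    rintro x ⟨hx, hxl⟩
    obtain ⟨z, rfl⟩ := hx.2.2
    refine ⟨z, fun i => ?_, rfl⟩
    rw [abs_of_nonneg (hx.1 i)]
    exact (hcoord _ hx i).trans (mul_le_mul_of_nonneg_right (hxl.trans hlw) (hs i).le)
  obtain ⟨v, hvext, hvS, hvl⟩ := exists_vertex_le (pts L) l _ hwS hfin
  obtain ⟨z, rfl⟩ := hvS.2.2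
  have hz0 : z ≠ 0 := by
    rintro rfl
    apply hvS.2.1
    funext j
    simp
  have hup : ∀ i, L.mulVec (fun j => (z j : ℝ)) i ≤ R * s i := fun i =>
    (hcoord _ hvS i).trans (mul_le_mul_of_nonneg_right (hvl.trans hlw) (hs i).le)
  refine ⟨z, hvext, fun i => ⟨?_, hup i⟩⟩
  have h1 := hmin z hz0
  rw [Finset.abs_prod, ← Finset.mul_prod_erase _ _ (Finset.mem_univ i)] at h1
  have h2 : ∏ j ∈ Finset.univ.erase i, |L.mulVec (fun j => (z j : ℝ)) j| ≤
      ∏ j ∈ Finset.univ.erase i, (R * s j) := by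
    refine Finset.prod_le_prod (fun j _ => abs_nonneg _) (fun j _ => ?_)
    rw [abs_of_nonneg (hvS.1 j)]
    exact hup j
  have h3 : s i * ∏ j ∈ Finset.univ.erase i, (R * s j) = R ^ (n - 1) := by
    rw [Finset.prod_mul_distrib, Finset.prod_const, Finset.card_erase_of_mem (Finset.mem_univ i),
      Finset.card_univ, ← hn, mul_left_comm, Finset.mul_prod_erase _ _ (Finset.mem_univ i), hs1,
      mul_one]
  rw [abs_of_nonneg (hvS.1 i)] at h1
  have h4 : c ≤ L.mulVec (fun j => (z j : ℝ)) i * ∏ j ∈ Finset.univ.erase i, (R * s j) :=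
    h1.trans (mul_le_mul_of_nonneg_left h2 (hvS.1 i))
  rw [div_mul_eq_mul_div, div_le_iff₀ (by positivity)]
  calc c * s i ≤ (L.mulVec (fun j => (z j : ℝ)) i * ∏ j ∈ Finset.univ.erase i, (R * s j)) * s i :=
        mul_le_mul_of_nonneg_right h4 (hs i).le
    _ = L.mulVec (fun j => (z j : ℝ)) i * R ^ (n - 1) := by rw [← h3]; ring

end Pool.Agent.H83.Sail
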