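import Mathlib

namespace Pool.Agent.H83.Sail

theorem prod_expand {κ : Type*} [DecidableEq κ] (s : Finset κ) (g : κ → ℝ) (m : ℝ)
    (hm0 : 0 ≤ m) (hm1 : m ≤ 1) (hg : ∀ i ∈ s, |g i| ≤ m) :
    |∏ i ∈ s, (1 + g i) - 1| ≤ (2 ^ s.card - 1) * m ∧
      |∏ i ∈ s, (1 + g i) - 1 - ∑ i ∈ s, g i| ≤ 2 ^ s.card * m ^ 2 := by
  induction s using Finset.induction_on with
  | empty => simp [sq_nonneg]
  | insert a s ha ih =>
    obtain ⟨h1, h2⟩ := ih (fun i hi => hg i (Finset.mem_insert_of_mem hi))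
    have h3 := hg a (Finset.mem_insert_self a s)
    rw [Finset.prod_insert ha, Finset.sum_insert ha, Finset.card_insert_of_notMem ha, pow_succ]
    set P : ℝ := ∏ i ∈ s, (1 + g i) with hP
    set q : ℝ := 2 ^ s.card with hq
    have hq1 : 1 ≤ q := one_le_pow₀ (by norm_num)
    have h4 : |g a * (P - 1)| ≤ m * ((q - 1) * m) := by
      rw [abs_mul]
      exact mul_le_mul h3 h1 (abs_nonneg _) hm0
    have h5 : m * ((q - 1) * m) ≤ (q - 1) * m := by
      have : 0 ≤ (q - 1) * m := mul_nonneg (by linarith) hm0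
      nlinarith
    have h6 : m * ((q - 1) * m) ≤ q * m ^ 2 := by nlinarith [sq_nonneg m]
    constructor
    · have h7 : (1 + g a) * P - 1 = (P - 1) + g a + g a * (P - 1) := by ring
      rw [h7]
      refine (abs_add_three _ _ _).trans ?_
      linarith
    · have h7 : (1 + g a) * P - 1 - (g a + ∑ i ∈ s, g i) =
          (P - 1 - ∑ i ∈ s, g i) + g a * (P - 1) := by ring
      rw [h7]
      refine (abs_add_le _ _).trans ?_
      linarith

/-- The directions used to detect the off-diagonal entries. -/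
noncomputable def dir {ι : Type*} [DecidableEq ι] (X : ℝ) (p q i : ι) : ℝ :=
  (if i = q then X else 1) * (if i = p then X⁻¹ else 1)

theorem dir_pos {ι : Type*} [DecidableEq ι] {X : ℝ} (hX : 0 < X) (p q i : ι) :
    0 < dir X p q i := by
  unfold dir
  split_ifs <;> positivity

theorem dir_prod {ι : Type*} [DecidableEq ι] [Fintype ι] {X : ℝ} (hX : 0 < X) (p q : ι) :
    ∏ i, dir X p q i = 1 := by
  unfold dir
  rw [Finset.prod_mul_distrib, Finset.prod_ite_eq', Finset.prod_ite_eq',
    if_pos (Finset.mem_univ _), if_pos (Finset.mem_univ _), mul_inv_cancel₀ hX.ne']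

theorem dir_same {ι : Type*} [DecidableEq ι] {X : ℝ} (hX : 0 < X) (p i : ι) :
    dir X p p i = 1 := by
  unfold dir
  by_cases h : i = p
  · rw [if_pos h, if_pos h, mul_inv_cancel₀ hX.ne']
  · rw [if_neg h, if_neg h, mul_one]

theorem dir_le {ι : Type*} [DecidableEq ι] {X : ℝ} (hX : 1 ≤ X) (p q j : ι) :
    dir X p q j ≤ X := by
  have h0 : 0 < X := by linarith
  have h1 : X⁻¹ ≤ 1 := inv_le_one_of_one_le₀ hX
  unfold dir
  split_ifs
  · nlinarith
  · linarith
  · linarith
  · linarith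

theorem dir_ge {ι : Type*} [DecidableEq ι] {X : ℝ} (hX : 1 ≤ X) (p q j : ι) :
    X⁻¹ ≤ dir X p q j := by
  have h0 : 0 < X := by linarith
  have h1 : X⁻¹ ≤ 1 := inv_le_one_of_one_le₀ hX
  have h2 : 0 < X⁻¹ := inv_pos.mpr h0
  unfold dir
  split_ifs
  · nlinarith
  · linarith
  · linarith
  · linarith

theorem dir_le_one {ι : Type*} [DecidableEq ι] {X : ℝ} (hX : 1 ≤ X) {p q j : ι} (h : j ≠ q) :
    dir X p q j ≤ 1 := by
  have h0 : 0 < X := by linarith
  have h1 : X⁻¹ ≤ 1 := inv_le_one_of_one_le₀ hX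
  unfold dir
  rw [if_neg h]
  split_ifs <;> linarith

theorem dir_ge_one {ι : Type*} [DecidableEq ι] {X : ℝ} (hX : 1 ≤ X) {p q j : ι} (h : j ≠ p) :
    1 ≤ dir X p q j := by
  unfold dir
  rw [if_neg h]
  split_ifs <;> linarith

/-- Local rigidity: a small change of the forms that keeps the norms of points in all the
directions is diagonal. -/
theorem rigid {ι : Type*} [Fintype ι] [DecidableEq ι] [Nonempty ι] (κ R : ℝ) (hκ : 0 < κ)
    (hR : κ ≤ R) : ∃ X ε : ℝ, 1 ≤ X ∧ 0 < ε ∧ ε ≤ 1 / 2 ∧ ∀ (y : ι → ι → ι → ℝ)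
      (_ : ∀ p q i, κ * dir X p q i ≤ y p q i ∧ y p q i ≤ R * dir X p q i)
      (E : Matrix ι ι ℝ) (_ : ∀ i j, |E i j| ≤ ε)
      (_ : ∀ p q, ∏ i, ((1 + E).mulVec (y p q)) i = ∏ i, y p q i),
      ∀ i j, i ≠ j → E i j = 0 := by
  have hR0 : 0 < R := by linarith
  set n : ℝ := (Fintype.card ι : ℝ) with hn
  have hn1 : 1 ≤ n := by
    rw [hn]
    have : 1 ≤ Fintype.card ι := Fintype.card_pos
    exact_mod_cast this
  set r : ℝ := R / κ with hr
  have hr1 : 1 ≤ r := (one_le_div hκ).mpr hR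
  set X : ℝ := 3 * n ^ 2 * r ^ 2 with hX
  have hn2 : 1 ≤ n ^ 2 := one_le_pow₀ hn1
  have hr2 : 1 ≤ r ^ 2 := one_le_pow₀ hr1
  have hX1 : 1 ≤ X := by
    rw [hX]
    nlinarith
  have hX0 : 0 < X := by linarith
  set C : ℝ := 2 ^ (Fintype.card ι + 1) * (n * r * X ^ 2) ^ 2 with hC
  have hnrX : 1 ≤ n * r * X ^ 2 := by
    have h1 : 1 ≤ n * r := one_le_mul_of_one_le_of_one_le hn1 hr1
    exact one_le_mul_of_one_le_of_one_le h1 (one_le_pow₀ hX1)
  have hC1 : n * r * X ^ 2 ≤ C := by
    rw [hC]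
    have h1 : (1 : ℝ) ≤ 2 ^ (Fintype.card ι + 1) := one_le_pow₀ (by norm_num)
    nlinarith
  have hC0 : 0 < C := by linarith
  refine ⟨X, 1 / (4 * C), hX1, by positivity, ?_, ?_⟩
  · rw [div_le_div_iff₀ (by positivity) (by norm_num)]
    linarith
  intro y hy E hE hN
  have hεq : 1 / (4 * C) ≤ 1 / 2 := by
    rw [div_le_div_iff₀ (by positivity) (by norm_num)]
    linarith
  by_contra hcon
  push Not at hcon
  obtain ⟨i1, j1, hij1, hE1⟩ := hcon
  have hdiag : ∀ i, 1 / 2 ≤ 1 + E i i := by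
    intro i
    have h1 := (abs_le.mp (hE i i)).1
    linarith
  set F : ι → ι → ℝ := fun i j => E i j / (1 + E i i) with hF
  have hFle : ∀ i j, |F i j| ≤ 2 * (1 / (4 * C)) := by
    intro i j
    rw [hF]
    simp only
    have h1 : 0 < 1 + E i i := by linarith [hdiag i]
    rw [abs_div, abs_of_pos h1, div_le_iff₀ h1]
    have h2 := hE i j
    have h3 := hdiag i
    have h4 : (0 : ℝ) < 1 / (4 * C) := by positivity
    nlinarith
  obtain ⟨⟨p, q⟩, hpq, hmax⟩ := Finset.exists_max_image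
    ((Finset.univ : Finset (ι × ι)).filter (fun x => x.1 ≠ x.2)) (fun x => |F x.1 x.2|)
    ⟨(i1, j1), Finset.mem_filter.mpr ⟨Finset.mem_univ _, hij1⟩⟩
  have hpq' : p ≠ q := (Finset.mem_filter.mp hpq).2
  have hmax' : ∀ i j, i ≠ j → |F i j| ≤ |F p q| := fun i j hij =>
    hmax (i, j) (Finset.mem_filter.mpr ⟨Finset.mem_univ _, hij⟩)
  set f : ℝ := |F p q| with hf
  have hf0 : 0 < f := by
    refine lt_of_lt_of_le ?_ (hmax' i1 j1 hij1)
    rw [abs_pos, hF]
    simp only
    exact div_ne_zero hE1 (by linarith [hdiag i1])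
  have hfle : f ≤ 2 * (1 / (4 * C)) := hFle p q
  have hCf : C * f ≤ 1 / 2 := by
    have h1 : C * f ≤ C * (2 * (1 / (4 * C))) := mul_le_mul_of_nonneg_left hfle hC0.le
    have h2 : C * (2 * (1 / (4 * C))) = 1 / 2 := by field_simp; norm_num
    linarith
  -- positivity of the points
  have hypos : ∀ a b i, 0 < y a b i := fun a b i =>
    lt_of_lt_of_le (mul_pos hκ (dir_pos hX0 a b i)) (hy a b i).1
  set h : ι → ι → ι × ι → ℝ := fun a b x => if x.1 = x.2 then 0 else
    F x.1 x.2 * (y a b x.2 / y a b x.1) with hh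
  set g : ι → ι → ι → ℝ := fun a b i => ∑ j, h a b (i, j) with hg
  have hratio : ∀ a b i j, y a b j / y a b i ≤ r * (dir X a b j / dir X a b i) := by
    intro a b i j
    rw [div_le_iff₀ (hypos a b i)]
    have h1 := (hy a b j).2
    have h2 := (hy a b i).1
    have h3 := dir_pos hX0 a b i
    have h4 := dir_pos hX0 a b j
    calc y a b j ≤ R * dir X a b j := h1
      _ = r * (dir X a b j / dir X a b i) * (κ * dir X a b i) := by
          rw [hr]
          field_simp
      _ ≤ r * (dir X a b j / dir X a b i) * y a b i := by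
          refine mul_le_mul_of_nonneg_left h2 (by positivity)
  have hmul : ∀ a b i, ((1 + E).mulVec (y a b)) i = (1 + E i i) * y a b i * (1 + g a b i) := by
    intro a b i
    have h1 : 1 + E i i ≠ 0 := by linarith [hdiag i]
    have h2 := (hypos a b i).ne'
    rw [Matrix.add_mulVec, Matrix.one_mulVec, Pi.add_apply, Matrix.mulVec, dotProduct,
      ← Finset.add_sum_erase _ _ (Finset.mem_univ i)]
    have h3 : g a b i = ∑ j ∈ Finset.univ.erase i, E i j * y a b j / ((1 + E i i) * y a b i) := by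
      rw [hg]
      simp only
      rw [← Finset.add_sum_erase _ _ (Finset.mem_univ i)]
      have h4 : h a b (i, i) = 0 := by rw [hh]; simp
      rw [h4, zero_add]
      refine Finset.sum_congr rfl (fun j hj => ?_)
      rw [hh]
      simp only
      rw [if_neg (Finset.ne_of_mem_erase hj).symm, hF]
      field_simp
    rw [h3, ← Finset.sum_div]
    field_simp
    ring
  have hG : ∀ a b, ∏ i, (1 + g a b i) = (∏ i, (1 + E i i))⁻¹ := by
    intro a b
    have h1 := hN a b
    simp_rw [hmul] at h1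
    rw [Finset.prod_mul_distrib, Finset.prod_mul_distrib] at h1
    have h2 : ∏ i, y a b i ≠ 0 := Finset.prod_ne_zero_iff.mpr (fun i _ => (hypos a b i).ne')
    have h3 : ∏ i, (1 + E i i) ≠ 0 :=
      Finset.prod_ne_zero_iff.mpr (fun i _ => by linarith [hdiag i])
    field_simp
    have h4 : (∏ i, y a b i) * ((∏ i, (1 + E i i)) * ∏ i, (1 + g a b i)) =
        (∏ i, y a b i) * 1 := by
      rw [mul_one]
      linarith
    have h5 := mul_left_cancel₀ h2 h4
    linarith
  have hdle : ∀ a b i j : ι, dir X a b j / dir X a b i ≤ X ^ 2 := by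
    intro a b i j
    rw [div_le_iff₀ (dir_pos hX0 a b i)]
    have h1 := dir_le hX1 a b j
    have h2 := dir_ge hX1 a b i
    have h3 : X ^ 2 * X⁻¹ = X := by field_simp
    nlinarith [mul_le_mul_of_nonneg_left h2 (sq_nonneg X)]
  have hhle : ∀ a b x, |h a b x| ≤ f * (r * X ^ 2) := by
    intro a b x
    rw [hh]
    simp only
    split_ifs with h1
    · rw [abs_zero]; positivity
    · rw [abs_mul, abs_of_pos (div_pos (hypos _ _ _) (hypos _ _ _))]
      refine mul_le_mul (hmax' _ _ h1) ?_ (div_pos (hypos _ _ _) (hypos _ _ _)).le hf0.le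
      exact (hratio a b x.1 x.2).trans
        (mul_le_mul_of_nonneg_left (hdle a b x.1 x.2) (by positivity))
  set m : ℝ := n * r * X ^ 2 * f with hm
  have hm0 : 0 ≤ m := by positivity
  have hm1 : m ≤ 1 := by
    have h1 : n * r * X ^ 2 * f ≤ C * f := mul_le_mul_of_nonneg_right hC1 hf0.le
    linarith
  have hgle : ∀ a b i, |g a b i| ≤ m := by
    intro a b i
    rw [hg]
    simp only
    refine (Finset.abs_sum_le_sum_abs _ _).trans ?_
    calc ∑ j, |h a b (i, j)| ≤ ∑ _j : ι, f * (r * X ^ 2) :=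
          Finset.sum_le_sum (fun j _ => hhle a b (i, j))
      _ = m := by
          rw [Finset.sum_const, Finset.card_univ, nsmul_eq_mul, hm, hn]
          ring
  have hexp : ∀ a b, |(∏ i, (1 + E i i))⁻¹ - 1 - ∑ i, g a b i| ≤ 2 ^ Fintype.card ι * m ^ 2 := by
    intro a b
    have h1 := (prod_expand Finset.univ (g a b) m hm0 hm1 (fun i _ => hgle a b i)).2
    rwa [hG, Finset.card_univ] at h1
  have hdiff : |∑ i, g p q i - ∑ i, g p p i| ≤ C * f ^ 2 := by
    have h1 := hexp p q
    have h2 := hexp p p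
    have h3 : ∑ i, g p q i - ∑ i, g p p i = ((∏ i, (1 + E i i))⁻¹ - 1 - ∑ i, g p p i) -
        ((∏ i, (1 + E i i))⁻¹ - 1 - ∑ i, g p q i) := by ring
    rw [h3]
    refine (abs_sub _ _).trans ?_
    have h4 : C * f ^ 2 = 2 * (2 ^ Fintype.card ι * m ^ 2) := by
      rw [hC, hm, pow_succ]
      ring
    linarith
  have hsum : ∀ a b, ∑ i, g a b i = ∑ x : ι × ι, h a b x := by
    intro a b
    rw [Fintype.sum_prod_type]
  -- lower bound in the direction of the largest entry
  have hlow : f * (X ^ 2 / r) - n ^ 2 * (f * (r * X)) ≤ |∑ i, g p q i| := by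
    rw [hsum, ← Finset.add_sum_erase _ _ (Finset.mem_univ (p, q))]
    have h1 : f * (X ^ 2 / r) ≤ |h p q (p, q)| := by
      rw [hh]
      simp only
      rw [if_neg hpq', abs_mul, abs_of_pos (div_pos (hypos _ _ _) (hypos _ _ _))]
      refine mul_le_mul_of_nonneg_left ?_ (abs_nonneg _)
      rw [le_div_iff₀ (hypos _ _ _)]
      have h2 := (hy p q p).2
      have h3 := (hy p q q).1
      have h4 : dir X p q p = X⁻¹ := by
        unfold dir
        rw [if_neg hpq', if_pos rfl, one_mul]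
      have h5 : dir X p q q = X := by
        unfold dir
        rw [if_pos rfl, if_neg hpq'.symm, mul_one]
      rw [h4] at h2
      rw [h5] at h3
      calc X ^ 2 / r * y p q p ≤ X ^ 2 / r * (R * X⁻¹) :=
            mul_le_mul_of_nonneg_left h2 (by positivity)
        _ = κ * X := by
            rw [hr]
            field_simp
        _ ≤ y p q q := h3
    have h2 : |∑ x ∈ Finset.univ.erase (p, q), h p q x| ≤ n ^ 2 * (f * (r * X)) := by
      refine (Finset.abs_sum_le_sum_abs _ _).trans ?_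
      have h3 : ∀ x ∈ (Finset.univ : Finset (ι × ι)).erase (p, q), |h p q x| ≤ f * (r * X) := by
        intro x hx
        rw [hh]
        simp only
        split_ifs with h4
        · rw [abs_zero]; positivity
        · rw [abs_mul, abs_of_pos (div_pos (hypos _ _ _) (hypos _ _ _))]
          refine mul_le_mul (hmax' _ _ h4) ?_ (div_pos (hypos _ _ _) (hypos _ _ _)).le hf0.le
          refine (hratio p q x.1 x.2).trans (mul_le_mul_of_nonneg_left ?_ (by positivity))
          rw [div_le_iff₀ (dir_pos hX0 _ _ _)]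
          by_cases h5 : x.1 = p
          · have h6 : x.2 ≠ q := by
              intro h6
              exact Finset.ne_of_mem_erase hx (Prod.ext h5 h6)
            have h7 := dir_le_one hX1 (p := p) h6
            have h8 := dir_ge hX1 p q x.1
            have h9 : X * X⁻¹ = 1 := mul_inv_cancel₀ hX0.ne'
            nlinarith
          · have h7 := dir_ge_one hX1 (q := q) h5
            have h8 := dir_le hX1 p q x.2
            nlinarith
      refine (Finset.sum_le_sum h3).trans ?_
      rw [Finset.sum_const, nsmul_eq_mul]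
      refine mul_le_mul_of_nonneg_right ?_ (by positivity)
      have h4 := Finset.card_le_univ ((Finset.univ : Finset (ι × ι)).erase (p, q))
      rw [Fintype.card_prod] at h4
      rw [hn, sq]
      exact_mod_cast h4
    have h3 := abs_add_le (h p q (p, q) + ∑ x ∈ Finset.univ.erase (p, q), h p q x)
      (-(∑ x ∈ Finset.univ.erase (p, q), h p q x))
    rw [add_neg_cancel_right, abs_neg] at h3
    linarith
  have hup : |∑ i, g p p i| ≤ n ^ 2 * (f * r) := by
    rw [hsum]
    refine (Finset.abs_sum_le_sum_abs _ _).trans ?_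
    have h3 : ∀ x ∈ (Finset.univ : Finset (ι × ι)), |h p p x| ≤ f * r := by
      intro x _
      rw [hh]
      simp only
      split_ifs with h4
      · rw [abs_zero]; positivity
      · rw [abs_mul, abs_of_pos (div_pos (hypos _ _ _) (hypos _ _ _))]
        refine mul_le_mul (hmax' _ _ h4) ?_ (div_pos (hypos _ _ _) (hypos _ _ _)).le hf0.le
        have h5 := hratio p p x.1 x.2
        rwa [dir_same hX0, dir_same hX0, div_one, mul_one] at h5
    refine (Finset.sum_le_sum h3).trans ?_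
    rw [Finset.sum_const, nsmul_eq_mul, Finset.card_univ, Fintype.card_prod, Nat.cast_mul, hn, sq]
  have hfin : f * (X ^ 2 / r - n ^ 2 * (r * X) - n ^ 2 * r) ≤ C * f ^ 2 := by
    have h1 : |∑ i, g p q i| ≤ |∑ i, g p q i - ∑ i, g p p i| + |∑ i, g p p i| := by
      have h2 := abs_add_le (∑ i, g p q i - ∑ i, g p p i) (∑ i, g p p i)
      rwa [sub_add_cancel] at h2
    have h3 : f * (X ^ 2 / r - n ^ 2 * (r * X) - n ^ 2 * r) =
        f * (X ^ 2 / r) - n ^ 2 * (f * (r * X)) - n ^ 2 * (f * r) := by ring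
    rw [h3]
    linarith
  have hbr : 1 ≤ X ^ 2 / r - n ^ 2 * (r * X) - n ^ 2 * r := by
    have h1 : X ^ 2 / r = 9 * n ^ 4 * r ^ 3 := by
      rw [hX]
      field_simp
      ring
    have h2 : n ^ 2 * (r * X) = 3 * n ^ 4 * r ^ 3 := by
      rw [hX]
      ring
    rw [h1, h2]
    have h3 : n ^ 2 * r ≤ n ^ 4 * r ^ 3 := by
      have h4 : 1 ≤ n ^ 2 * r ^ 2 := one_le_mul_of_one_le_of_one_le hn2 hr2
      have h5 : 0 ≤ n ^ 2 * r := by positivity
      nlinarith
    have h4 : 1 ≤ n ^ 4 * r ^ 3 :=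
      one_le_mul_of_one_le_of_one_le (one_le_pow₀ hn1) (one_le_pow₀ hr1)
    linarith
  have h1 : f * 1 ≤ f * (X ^ 2 / r - n ^ 2 * (r * X) - n ^ 2 * r) :=
    mul_le_mul_of_nonneg_left hbr hf0.le
  have h2 : C * f ^ 2 = (C * f) * f := by ring
  nlinarith

end Pool.Agent.H83.Sail
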