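import Mathlib
import Pool.Agent.H83.Sail.Frame
import Pool.Agent.H83.Sail.Rigid

namespace Pool.Agent.H83.Sail

open Module Filter Topology

/-- A bounded real sequence converges along an ultrafilter. -/
theorem ultra_lim (U : Ultrafilter ℕ) (f : ℕ → ℝ) (a b : ℝ) (h : ∀ k, a ≤ f k ∧ f k ≤ b) :
    ∃ x, (a ≤ x ∧ x ≤ b) ∧ Tendsto f (U : Filter ℕ) (𝓝 x) := by
  have h1 : (Set.Icc a b) ∈ U.map f := by
    rw [Ultrafilter.mem_map]
    refine Filter.mem_of_superset Filter.univ_mem (fun k _ => h k)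
  obtain ⟨x, hx, hx'⟩ := (isCompact_Icc (a := a) (b := b)).ultrafilter_le_nhds' (U.map f) h1
  exact ⟨x, hx, hx'⟩

/-- A convergent sequence of integers is eventually constant. -/
theorem int_const (F : Filter ℕ) [F.NeBot] (f : ℕ → ℤ) (x : ℝ)
    (h : Tendsto (fun k => (f k : ℝ)) F (𝓝 x)) : ∃ m : ℤ, ∀ᶠ k in F, f k = m := by
  have h1 : ∀ᶠ k in F, |(f k : ℝ) - x| < 1 / 2 := by
    have h2 := (Metric.tendsto_nhds.mp h) (1 / 2) (by norm_num)
    simpa only [Real.dist_eq] using h2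
  obtain ⟨k0, hk0⟩ := h1.exists
  refine ⟨f k0, ?_⟩
  filter_upwards [h1] with k hk
  have h2 : |(f k : ℝ) - (f k0 : ℝ)| < 1 := by
    have h3 : (f k : ℝ) - (f k0 : ℝ) = ((f k : ℝ) - x) - ((f k0 : ℝ) - x) := by ring
    rw [h3]
    refine (abs_sub _ _).trans_lt ?_
    linarith
  have h3 : |f k - f k0| < 1 := by
    have h4 : (((|f k - f k0| : ℤ)) : ℝ) < 1 := by
      push_cast
      exact h2
    exact_mod_cast h4
  have h4 := Int.abs_lt_one_iff.mp h3
  omega

/-- A convergent sequence with values in a finite set is eventually constant. -/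
theorem fin_const (F : Filter ℕ) (f : ℕ → ℝ) (x : ℝ) (V : Set ℝ) (hV : V.Finite)
    (hf : ∀ k, f k ∈ V) (h : Tendsto f F (𝓝 x)) : ∀ᶠ k in F, f k = x := by
  have h1 : (V \ {x})ᶜ ∈ 𝓝 x :=
    (hV.subset Set.sdiff_subset).isClosed.isOpen_compl.mem_nhds (fun h => h.2 rfl)
  filter_upwards [h h1] with k hk
  by_contra hne
  exact hk ⟨hf k, hne⟩

variable {ι : Type*} [Fintype ι] [DecidableEq ι]

omit [Fintype ι] [DecidableEq ι] in
theorem mat_tendsto {F : Filter ℕ} (A : ℕ → Matrix ι ι ℝ) (Ao : Matrix ι ι ℝ)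
    (h : ∀ i j, Tendsto (fun k => A k i j) F (𝓝 (Ao i j))) : Tendsto A F (𝓝 Ao) :=
  tendsto_pi_nhds.mpr (fun i => tendsto_pi_nhds.mpr (fun j => h i j))

omit [Fintype ι] [DecidableEq ι] in
theorem mat_tendsto' {F : Filter ℕ} (A : ℕ → Matrix ι ι ℝ) (Ao : Matrix ι ι ℝ)
    (h : Tendsto A F (𝓝 Ao)) (i j : ι) : Tendsto (fun k => A k i j) F (𝓝 (Ao i j)) :=
  tendsto_pi_nhds.mp (tendsto_pi_nhds.mp h i) j

omit [DecidableEq ι] in
theorem mv_tendsto {F : Filter ℕ} (A : ℕ → Matrix ι ι ℝ) (Ao : Matrix ι ι ℝ)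
    (h : Tendsto A F (𝓝 Ao)) (y : ℕ → ι → ℝ) (yo : ι → ℝ) (hy : Tendsto y F (𝓝 yo)) :
    Tendsto (fun k => (A k).mulVec (y k)) F (𝓝 (Ao.mulVec yo)) := by
  refine tendsto_pi_nhds.mpr (fun i => ?_)
  simp only [Matrix.mulVec, dotProduct]
  exact tendsto_finsetSum _ (fun j _ => (mat_tendsto' A Ao h i j).mul (tendsto_pi_nhds.mp hy j))

theorem adj_tendsto {F : Filter ℕ} (A : ℕ → Matrix ι ι ℝ) (Ao : Matrix ι ι ℝ)
    (h : Tendsto A F (𝓝 Ao)) : Tendsto (fun k => (A k).adjugate) F (𝓝 Ao.adjugate) := by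
  have hcont : Continuous (fun x : Matrix ι ι ℝ => x.adjugate) :=
    Continuous.matrix_adjugate continuous_id
  exact (hcont.tendsto Ao).comp h

theorem det_tendsto {F : Filter ℕ} (A : ℕ → Matrix ι ι ℝ) (Ao : Matrix ι ι ℝ)
    (h : Tendsto A F (𝓝 Ao)) : Tendsto (fun k => (A k).det) F (𝓝 Ao.det) :=
  ((continuous_id.matrix_det).tendsto Ao).comp h

omit [DecidableEq ι] in
theorem mulVec_tendsto {F : Filter ℕ} (A : ℕ → Matrix ι ι ℝ) (Ao : Matrix ι ι ℝ)
    (h : Tendsto A F (𝓝 Ao)) (w : ι → ℝ) :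
    Tendsto (fun k => (A k).mulVec w) F (𝓝 (Ao.mulVec w)) := by
  have hcont : Continuous (fun x : Matrix ι ι ℝ => x.mulVec w) :=
    Continuous.matrix_mulVec continuous_id continuous_const
  exact (hcont.tendsto Ao).comp h

theorem sub_one_tendsto {F : Filter ℕ} (A : ℕ → Matrix ι ι ℝ) (Ao : Matrix ι ι ℝ)
    (h : Tendsto A F (𝓝 Ao)) (hu : IsUnit Ao.det) :
    Tendsto (fun k => A k * Ao⁻¹ - 1) F (𝓝 0) := by
  have hcont : Continuous (fun x : Matrix ι ι ℝ => x * Ao⁻¹ - 1) :=
    (Continuous.matrix_mul continuous_id continuous_const).sub continuous_const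
  have h1 := (hcont.tendsto Ao).comp h
  rw [Matrix.mul_nonsing_inv Ao hu, sub_self] at h1
  exact h1

/-- The adjugates of scaled frames. -/
theorem adj_frame (S L : Matrix ι ι ℝ) (hS : S.det = 1) (W : Matrix ι ι ℤ) (v : ι → ℤ) :
    (S * (L * W.map (Int.cast : ℤ → ℝ))).adjugate.mulVec
      ((S * L).mulVec (fun j => (v j : ℝ))) =
      L.det • (fun j => ((W.adjugate.mulVec v j : ℤ) : ℝ)) := by
  have h1 : (S * (L * W.map (Int.cast : ℤ → ℝ))).adjugate =
      (W.map (Int.cast : ℤ → ℝ)).adjugate * ((S * L).adjugate) := by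
    rw [← Matrix.mul_assoc, Matrix.adjugate_mul_distrib]
  have h2 : (W.map (Int.cast : ℤ → ℝ)).adjugate = (W.adjugate).map (Int.cast : ℤ → ℝ) :=
    ((Int.castRingHom ℝ).map_adjugate W).symm
  rw [h1, Matrix.mulVec_mulVec, Matrix.mul_assoc, Matrix.adjugate_mul, Matrix.det_mul, hS,
    one_mul, Matrix.mul_smul, Matrix.mul_one, Matrix.smul_mulVec, h2]
  congr 1
  funext i
  simp only [Matrix.mulVec, dotProduct, Matrix.map_apply, Int.cast_sum, Int.cast_mul]

/-- Points with finitely many norms in the windows around a sequence of directions: a rational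
matrix with all the forms as eigenforms and distinct eigenvalues. -/
theorem fin_norm_gen [Nonempty ι] (L : Matrix ι ι ℝ) (hL : L.det ≠ 0) (c : ℝ) (hc : 0 < c)
    (hmin : ∀ z : ι → ℤ, z ≠ 0 → c ≤ |∏ i, L.mulVec (fun j => (z j : ℝ)) i|)
    (s : ℕ → ι → ℝ) (hs0 : ∀ k i, 0 < s k i) (hs1 : ∀ k, ∏ i, s k i = 1)
    (hsd : ∀ i j, i ≠ j → Tendsto (fun k => |Real.log (s k i / s k j)|) atTop atTop)
    (κ R : ℝ) (hκ : 0 < κ) (hκR : κ ≤ R)
    (hnear : ∀ X : ℝ, 1 ≤ X → ∃ V : Set ℝ, V.Finite ∧ ∀ (k : ℕ) (p q : ι), ∃ v : ι → ℤ,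
      ∏ i, L.mulVec (fun j => (v j : ℝ)) i ∈ V ∧
      ∀ i, κ * (s k i * dir X p q i) ≤ L.mulVec (fun j => (v j : ℝ)) i ∧
        L.mulVec (fun j => (v j : ℝ)) i ≤ R * (s k i * dir X p q i)) :
    ∃ (B : Matrix ι ι ℚ) (μ : ι → ℝ), Function.Injective μ ∧
      L * B.map (Rat.cast : ℚ → ℝ) = Matrix.diagonal μ * L := by
  obtain ⟨R0, hR0, hframe⟩ := frame L hL c hc hmin
  obtain ⟨X, ε, hX1, hε0, hε2, hrigid⟩ := rigid (ι := ι) κ R hκ hκR
  obtain ⟨V, hV, hvX⟩ := hnear X hX1
  have hX0 : 0 < X := by linarith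
  choose W hWdet hWle using fun k => hframe (s k) (hs0 k) (hs1 k)
  choose v hvV hvle using hvX
  set S : ℕ → Matrix ι ι ℝ := fun k => Matrix.diagonal (fun i => (s k i)⁻¹) with hS
  have hSdet : ∀ k, (S k).det = 1 := by
    intro k
    rw [hS]
    simp only
    rw [Matrix.det_diagonal, Finset.prod_inv_distrib, hs1, inv_one]
  set Lk : ℕ → Matrix ι ι ℝ := fun k => S k * (L * (W k).map (Int.cast : ℤ → ℝ)) with hLk
  set y : ℕ → ι → ι → ι → ℝ := fun k p q => (S k * L).mulVec (fun j => (v k p q j : ℝ)) with hy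
  have hyval : ∀ k p q i, y k p q i = (s k i)⁻¹ * L.mulVec (fun j => (v k p q j : ℝ)) i := by
    intro k p q i
    rw [hy]
    simp only
    rw [← Matrix.mulVec_mulVec, hS]
    simp only
    rw [Matrix.mulVec_diagonal]
  have hWR : ∀ k, ((W k).map (Int.cast : ℤ → ℝ)).det = ((W k).det : ℝ) := fun k =>
    ((Int.castRingHom ℝ).map_det (W k)).symm
  have hLkdet : ∀ k, (Lk k).det = L.det * ((W k).det : ℝ) := by
    intro k
    rw [hLk]
    simp only
    rw [Matrix.det_mul, Matrix.det_mul, hSdet, one_mul, hWR]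
  -- bounds
  have hLkle : ∀ k i j, -R0 ≤ Lk k i j ∧ Lk k i j ≤ R0 := by
    intro k i j
    rw [← abs_le, hLk]
    simp only
    rw [hS]
    simp only
    rw [Matrix.diagonal_mul, abs_mul, abs_inv, abs_of_pos (hs0 k i), inv_mul_le_iff₀ (hs0 k i),
      mul_comm]
    exact hWle k i j
  have hyle : ∀ k p q i, κ * dir X p q i ≤ y k p q i ∧ y k p q i ≤ R * dir X p q i := by
    intro k p q i
    have h1 := hvle k p q i
    rw [hyval]
    constructor
    · rw [le_inv_mul_iff₀ (hs0 k i)]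
      calc s k i * (κ * dir X p q i) = κ * (s k i * dir X p q i) := by ring
        _ ≤ _ := h1.1
    · rw [inv_mul_le_iff₀ (hs0 k i)]
      calc L.mulVec (fun j => (v k p q j : ℝ)) i ≤ R * (s k i * dir X p q i) := h1.2
        _ = s k i * (R * dir X p q i) := by ring
  -- limits along an ultrafilter
  set U : Ultrafilter ℕ := hyperfilter ℕ with hU
  have hUle : (U : Filter ℕ) ≤ atTop := by
    rw [hU, ← Nat.cofinite_eq_atTop]
    exact hyperfilter_le_cofinite
  have hlimL := fun i j => ultra_lim U (fun k => Lk k i j) (-R0) R0 (fun k => hLkle k i j)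
  choose Li hLi1 hLi2 using hlimL
  set Lo : Matrix ι ι ℝ := Matrix.of Li with hLo
  have hLtend : Tendsto Lk (U : Filter ℕ) (𝓝 Lo) := mat_tendsto Lk Lo hLi2
  have hlimy := fun p q i => ultra_lim U (fun k => y k p q i) (κ * dir X p q i)
    (R * dir X p q i) (fun k => hyle k p q i)
  choose yo hyo1 hyo2 using hlimy
  have hytend : ∀ p q, Tendsto (fun k => y k p q) (U : Filter ℕ) (𝓝 (yo p q)) := by
    intro p q
    rw [tendsto_pi_nhds]
    exact fun i => hyo2 p q i
  have hdettend : Tendsto (fun k => (Lk k).det) (U : Filter ℕ) (𝓝 Lo.det) :=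
    det_tendsto Lk Lo hLtend
  have hLodet : Lo.det ≠ 0 := by
    have h1 : ∀ k, |L.det| ≤ |(Lk k).det| := by
      intro k
      rw [hLkdet, abs_mul]
      have h2 : (1 : ℝ) ≤ |((W k).det : ℝ)| := by
        have h3 : (1 : ℤ) ≤ |(W k).det| := Int.one_le_abs (hWdet k)
        exact_mod_cast h3
      nlinarith [abs_nonneg L.det]
    have h2 : |L.det| ≤ |Lo.det| := ge_of_tendsto' hdettend.abs h1
    have h3 : 0 < |L.det| := abs_pos.mpr hL
    exact abs_pos.mp (h3.trans_le h2)
  -- the determinants and the coordinates of the vertices are eventually constant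
  obtain ⟨D, hD⟩ := int_const (U : Filter ℕ) (fun k => (W k).det) (Lo.det / L.det) (by
    refine (hdettend.div_const L.det).congr (fun k => ?_)
    rw [hLkdet, mul_div_cancel_left₀ _ hL])
  have hadj : ∀ k p q, (Lk k).adjugate.mulVec (y k p q) =
      L.det • (fun j => (((W k).adjugate.mulVec (v k p q) j : ℤ) : ℝ)) :=
    fun k p q => adj_frame (S k) L (hSdet k) (W k) (v k p q)
  have hHex : ∀ p q j, ∃ m : ℤ, ∀ᶠ k in (U : Filter ℕ),
      (W k).adjugate.mulVec (v k p q) j = m := by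
    intro p q j
    refine int_const (U : Filter ℕ) (fun k => (W k).adjugate.mulVec (v k p q) j)
      ((L.det)⁻¹ * (Lo.adjugate.mulVec (yo p q)) j) ?_
    have h1 : Tendsto (fun k => (Lk k).adjugate.mulVec (y k p q)) (U : Filter ℕ)
        (𝓝 (Lo.adjugate.mulVec (yo p q))) :=
      mv_tendsto (fun k => (Lk k).adjugate) Lo.adjugate (adj_tendsto Lk Lo hLtend)
        (fun k => y k p q) (yo p q) (hytend p q)
    have h2 := ((tendsto_pi_nhds.mp h1 j).const_mul (L.det)⁻¹)
    refine h2.congr (fun k => ?_)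
    rw [hadj, Pi.smul_apply, smul_eq_mul, inv_mul_cancel_left₀ hL]
  choose H hH using hHex
  have hHall : ∀ᶠ k in (U : Filter ℕ), ∀ p q, (W k).adjugate.mulVec (v k p q) = H p q := by
    have h1 : ∀ᶠ k in (U : Filter ℕ), ∀ p q j, (W k).adjugate.mulVec (v k p q) j = H p q j :=
      eventually_all.mpr (fun p => eventually_all.mpr (fun q => eventually_all.mpr
        (fun j => hH p q j)))
    filter_upwards [h1] with k hk p q
    funext j
    exact hk p q j
  have hD0 : (D : ℝ) ≠ 0 := by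
    obtain ⟨k, hk⟩ := hD.exists
    rw [← hk]
    exact Int.cast_ne_zero.mpr (hWdet k)
  have hLH : ∀ᶠ k in (U : Filter ℕ), ∀ p q,
      (Lk k).mulVec (fun j => (H p q j : ℝ)) = (D : ℝ) • y k p q := by
    filter_upwards [hD, hHall] with k hk1 hk2 p q
    have h1 := congrArg (fun w => (Lk k).mulVec w) (hadj k p q)
    beta_reduce at h1
    rw [Matrix.mulVec_mulVec, Matrix.mul_adjugate, Matrix.smul_mulVec, Matrix.one_mulVec,
      Matrix.mulVec_smul, hLkdet, hk1, hk2, mul_smul] at h1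
    exact (smul_right_injective _ hL h1).symm
  have hLoH : ∀ p q, Lo.mulVec (fun j => (H p q j : ℝ)) = (D : ℝ) • yo p q := by
    intro p q
    have h1 : Tendsto (fun k => (Lk k).mulVec (fun j => (H p q j : ℝ))) (U : Filter ℕ)
        (𝓝 (Lo.mulVec (fun j => (H p q j : ℝ)))) :=
      mulVec_tendsto Lk Lo hLtend (fun j => (H p q j : ℝ))
    have h2 : Tendsto (fun k => (D : ℝ) • y k p q) (U : Filter ℕ) (𝓝 ((D : ℝ) • yo p q)) :=
      (hytend p q).const_smul _
    refine tendsto_nhds_unique (h1.congr' ?_) h2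
    filter_upwards [hLH] with k hk
    exact hk p q
  -- the norms
  have hnorm : ∀ᶠ k in (U : Filter ℕ), ∀ p q, ∏ i, y k p q i = ∏ i, yo p q i := by
    refine eventually_all.mpr (fun p => eventually_all.mpr (fun q => ?_))
    refine fin_const (U : Filter ℕ) (fun k => ∏ i, y k p q i) _ V hV (fun k => ?_)
      (tendsto_finsetProd _ (fun i _ => hyo2 p q i))
    have h1 : ∏ i, y k p q i = ∏ i, L.mulVec (fun j => (v k p q j : ℝ)) i := by
      simp_rw [hyval]
      rw [Finset.prod_mul_distrib, Finset.prod_inv_distrib, hs1, inv_one, one_mul]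
    rw [h1]
    exact hvV k p q
  -- the comparison matrices
  have hunito : IsUnit Lo.det := isUnit_iff_ne_zero.mpr hLodet
  set E : ℕ → Matrix ι ι ℝ := fun k => Lk k * Lo⁻¹ - 1 with hE
  have hE1 : ∀ k, 1 + E k = Lk k * Lo⁻¹ := by
    intro k
    rw [hE]
    simp only
    rw [add_sub_cancel]
  have hEtend : Tendsto E (U : Filter ℕ) (𝓝 0) := sub_one_tendsto Lk Lo hLtend hunito
  have hEsmall : ∀ η : ℝ, 0 < η → ∀ᶠ k in (U : Filter ℕ), ∀ i j, |E k i j| ≤ η := by
    intro η hη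
    refine eventually_all.mpr (fun i => eventually_all.mpr (fun j => ?_))
    have h1 := mat_tendsto' E 0 hEtend i j
    rw [Matrix.zero_apply] at h1
    have h2 := (Metric.tendsto_nhds.mp h1) η hη
    filter_upwards [h2] with k hk
    rw [Real.dist_eq, sub_zero] at hk
    exact hk.le
  have hdiag : ∀ᶠ k in (U : Filter ℕ), ∀ i j, i ≠ j → E k i j = 0 := by
    filter_upwards [hEsmall ε hε0, hnorm, hLH] with k hk1 hk2 hk3
    refine hrigid yo hyo1 (E k) hk1 (fun p q => ?_)
    rw [← hk2 p q]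
    have h1 : (D : ℝ) • (1 + E k).mulVec (yo p q) = (D : ℝ) • y k p q := by
      rw [← hk3 p q, ← Matrix.mulVec_smul, ← hLoH p q, Matrix.mulVec_mulVec, hE1,
        Matrix.mul_assoc, Matrix.nonsing_inv_mul Lo hunito, Matrix.mul_one]
    have h2 := smul_right_injective _ hD0 h1
    rw [h2]
  -- two good indices
  obtain ⟨k, hkd, hks⟩ := (hdiag.and (hEsmall (1 / 10) (by norm_num))).exists
  have hfar : ∀ᶠ l in atTop, ∀ i j, i ≠ j →
      |Real.log (s k i / s k j)| + 1 ≤ |Real.log (s l i / s l j)| := by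
    refine eventually_all.mpr (fun i => eventually_all.mpr (fun j => ?_))
    by_cases h : i = j
    · exact Filter.Eventually.of_forall (fun l hne => absurd h hne)
    · filter_upwards [(hsd i j h).eventually_ge_atTop (|Real.log (s k i / s k j)| + 1)] with l hl _
      exact hl
  obtain ⟨l, ⟨hld, hls⟩, hkl⟩ := ((hdiag.and (hEsmall (1 / 10) (by norm_num))).and
    (hUle hfar)).exists
  have hform : ∀ m, (∀ i j, i ≠ j → E m i j = 0) →
      L * (W m).map (Int.cast : ℤ → ℝ) =
        Matrix.diagonal (fun i => s m i * (1 + E m i i)) * Lo := by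
    intro m hm
    have h1 : Lk m = (1 + E m) * Lo := by
      rw [hE1, Matrix.mul_assoc, Matrix.nonsing_inv_mul Lo hunito, Matrix.mul_one]
    have h2 : (1 + E m) = Matrix.diagonal (fun i => 1 + E m i i) := by
      ext i j
      by_cases h : i = j
      · subst h
        rw [Matrix.diagonal_apply_eq, Matrix.add_apply, Matrix.one_apply_eq]
      · rw [Matrix.diagonal_apply_ne _ h, Matrix.add_apply, Matrix.one_apply_ne h, hm i j h,
          add_zero]
    have h3 : Matrix.diagonal (s m) * Lk m = L * (W m).map (Int.cast : ℤ → ℝ) := by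
      rw [hLk]
      simp only
      rw [← Matrix.mul_assoc, hS]
      simp only
      rw [Matrix.diagonal_mul_diagonal]
      have h4 : (fun i => s m i * (s m i)⁻¹) = fun _ => (1 : ℝ) := by
        funext i
        exact mul_inv_cancel₀ (hs0 m i).ne'
      rw [h4, Matrix.diagonal_one, Matrix.one_mul]
    rw [← h3, h1, h2, ← Matrix.mul_assoc, Matrix.diagonal_mul_diagonal]
  have hk1 := hform k hkd
  have hl1 := hform l hld
  set dk : ι → ℝ := fun i => 1 + E k i i with hdk
  set dl : ι → ℝ := fun i => 1 + E l i i with hdl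
  have hdk1 : ∀ i, 9 / 10 ≤ dk i ∧ dk i ≤ 11 / 10 := by
    intro i
    have h1 := abs_le.mp (hks i i)
    rw [hdk]
    simp only
    constructor <;> linarith
  have hdl1 : ∀ i, 9 / 10 ≤ dl i ∧ dl i ≤ 11 / 10 := by
    intro i
    have h1 := abs_le.mp (hls i i)
    rw [hdl]
    simp only
    constructor <;> linarith
  have hdl0 : ∀ i, 0 < dl i := fun i => by linarith [(hdl1 i).1]
  have hdk0 : ∀ i, 0 < dk i := fun i => by linarith [(hdk1 i).1]
  set μ : ι → ℝ := fun i => (s k i * dk i) / (s l i * dl i) with hμ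
  have hμk : Matrix.diagonal (fun i => s k i * dk i) =
      Matrix.diagonal μ * Matrix.diagonal (fun i => s l i * dl i) := by
    rw [Matrix.diagonal_mul_diagonal]
    congr 1
    funext i
    rw [hμ]
    simp only
    rw [div_mul_cancel₀ _ (mul_pos (hs0 l i) (hdl0 i)).ne']
  have hWW : L * (W k).map (Int.cast : ℤ → ℝ) =
      Matrix.diagonal μ * (L * (W l).map (Int.cast : ℤ → ℝ)) := by
    rw [hk1, hl1, ← Matrix.mul_assoc, hμk]
  refine ⟨(((W l).det : ℤ) : ℚ)⁻¹ • ((W k * (W l).adjugate).map (Int.cast : ℤ → ℚ)), μ, ?_, ?_⟩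
  · -- distinct eigenvalues
    have key : ∀ i j, 2 * (s k i * s l j) ≤ s k j * s l i → μ i ≠ μ j := by
      intro i j hij heq
      have h1 : s k j * dk j * (s l i * dl i) = s k i * dk i * (s l j * dl j) := by
        rw [hμ] at heq
        simp only at heq
        rw [div_eq_div_iff (mul_pos (hs0 l i) (hdl0 i)).ne' (mul_pos (hs0 l j) (hdl0 j)).ne']
          at heq
        linarith
      have h0 : 0 < s k i * s l j := mul_pos (hs0 k i) (hs0 l j)
      have h6 : (9 / 10 : ℝ) * (9 / 10) ≤ dk j * dl i :=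
        mul_le_mul (hdk1 j).1 (hdl1 i).1 (by norm_num) (hdk0 j).le
      have h7 : dk i * dl j ≤ (11 / 10 : ℝ) * (11 / 10) :=
        mul_le_mul (hdk1 i).2 (hdl1 j).2 (hdl0 j).le (by norm_num)
      have h8 : (2 * (s k i * s l j)) * ((9 / 10 : ℝ) * (9 / 10)) ≤
          (s k j * s l i) * (dk j * dl i) :=
        mul_le_mul hij h6 (by norm_num) ((mul_pos two_pos h0).le.trans hij)
      have h9 : (s k i * s l j) * (dk i * dl j) ≤
          (s k i * s l j) * ((11 / 10 : ℝ) * (11 / 10)) :=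
        mul_le_mul_of_nonneg_left h7 h0.le
      nlinarith
    have hlog : ∀ i j, Real.log (s k i / s k j) + 1 ≤ Real.log (s l i / s l j) →
        2 * (s k i * s l j) ≤ s k j * s l i := by
      intro i j h
      have hk0 : 0 < s k i / s k j := div_pos (hs0 k i) (hs0 k j)
      have hl0 : 0 < s l i / s l j := div_pos (hs0 l i) (hs0 l j)
      have h1 : s k i / s k j * Real.exp 1 ≤ s l i / s l j := by
        rw [← Real.exp_log hk0, ← Real.exp_add, ← Real.exp_log hl0]
        exact Real.exp_le_exp.mpr h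
      have h2 : (2 : ℝ) ≤ Real.exp 1 := by
        have := Real.add_one_le_exp (1 : ℝ)
        linarith
      have h3 : s k i / s k j * 2 ≤ s l i / s l j :=
        (mul_le_mul_of_nonneg_left h2 hk0.le).trans h1
      rw [div_mul_eq_mul_div, div_le_div_iff₀ (hs0 k j) (hs0 l j)] at h3
      linarith
    intro i j heq
    by_contra hne
    have h1 := hkl i j hne
    rcases le_abs.mp h1 with h2 | h2
    · refine key i j (hlog i j ?_) heq
      linarith [le_abs_self (Real.log (s k i / s k j))]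
    · refine key j i (hlog j i ?_) heq.symm
      have h3 : ∀ m, Real.log (s m j / s m i) = - Real.log (s m i / s m j) := by
        intro m
        rw [← Real.log_inv, inv_div]
      rw [h3, h3]
      linarith [neg_abs_le (Real.log (s k i / s k j))]
  · have h1 : ((((W l).det : ℤ) : ℚ)⁻¹ • ((W k * (W l).adjugate).map (Int.cast : ℤ → ℚ))).map
        (Rat.cast : ℚ → ℝ) = (((W l).det : ℝ))⁻¹ • ((W k).map (Int.cast : ℤ → ℝ) *
          ((W l).map (Int.cast : ℤ → ℝ)).adjugate) := by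
      have h2 : ((W l).map (Int.cast : ℤ → ℝ)).adjugate =
          ((W l).adjugate).map (Int.cast : ℤ → ℝ) :=
        ((Int.castRingHom ℝ).map_adjugate (W l)).symm
      have h3 : (W k * (W l).adjugate).map (Int.cast : ℤ → ℝ) =
          (W k).map (Int.cast : ℤ → ℝ) * ((W l).adjugate).map (Int.cast : ℤ → ℝ) :=
        Matrix.map_mul (f := Int.castRingHom ℝ)
      rw [h2, ← h3]
      ext i j
      simp only [Matrix.map_apply, Matrix.smul_apply, smul_eq_mul, Rat.cast_mul, Rat.cast_inv,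
        Rat.cast_intCast]
    have h4 : (((W l).det : ℝ)) ≠ 0 := Int.cast_ne_zero.mpr (hWdet l)
    rw [h1, Matrix.mul_smul, ← Matrix.mul_assoc, hWW, Matrix.mul_assoc, Matrix.mul_assoc,
      Matrix.mul_adjugate, hWR, Matrix.mul_smul, Matrix.mul_one, Matrix.mul_smul, smul_smul,
      inv_mul_cancel₀ h4, one_smul]

/-- Finitely many norms on the vertices of the sail along a sequence of windows: a rational
matrix with all the forms as eigenforms and distinct eigenvalues. -/
theorem fin_norm [Nonempty ι] (L : Matrix ι ι ℝ) (hL : L.det ≠ 0) (c : ℝ) (hc : 0 < c)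
    (hmin : ∀ z : ι → ℤ, z ≠ 0 → c ≤ |∏ i, L.mulVec (fun j => (z j : ℝ)) i|)
    (s : ℕ → ι → ℝ) (hs0 : ∀ k i, 0 < s k i) (hs1 : ∀ k, ∏ i, s k i = 1)
    (hsd : ∀ i j, i ≠ j → Tendsto (fun k => |Real.log (s k i / s k j)|) atTop atTop)
    (hfin : ∀ K : ℝ, {x : ℝ | ∃ v : ι → ℤ,
      (fun j => (v j : ℝ)) ∈ (convexHull ℝ (pts L)).extremePoints ℝ ∧
      (∃ k : ℕ, ∀ i, L.mulVec (fun j => (v j : ℝ)) i ≤ K * s k i) ∧
      x = ∏ i, L.mulVec (fun j => (v j : ℝ)) i}.Finite) :
    ∃ (B : Matrix ι ι ℚ) (μ : ι → ℝ), Function.Injective μ ∧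
      L * B.map (Rat.cast : ℚ → ℝ) = Matrix.diagonal μ * L := by
  obtain ⟨κ, R, hκ, hR, hnear⟩ := near_vertex L hL c hc hmin
  have hκR : κ ≤ R := by
    obtain ⟨v, -, hv⟩ := hnear (fun _ => 1) (fun _ => one_pos) Finset.prod_const_one
    obtain ⟨i0⟩ := (inferInstance : Nonempty ι)
    have h1 := hv i0
    rw [mul_one, mul_one] at h1
    exact h1.1.trans h1.2
  refine fin_norm_gen L hL c hc hmin s hs0 hs1 hsd κ R hκ hκR (fun X hX1 => ?_)
  have hX0 : 0 < X := by linarith
  refine ⟨_, hfin (R * X), fun k p q => ?_⟩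
  obtain ⟨v, hvext, hvle⟩ := hnear (fun i => s k i * dir X p q i)
    (fun i => mul_pos (hs0 k i) (dir_pos hX0 p q i))
    (by rw [Finset.prod_mul_distrib, hs1, dir_prod hX0, mul_one])
  refine ⟨v, ⟨v, hvext, ⟨k, fun i => ?_⟩, rfl⟩, hvle⟩
  refine (hvle i).2.trans ?_
  rw [mul_comm (s k i), ← mul_assoc]
  exact mul_le_mul_of_nonneg_right (mul_le_mul_of_nonneg_left (dir_le hX1 p q i) hR.le)
    (hs0 k i).le

end Pool.Agent.H83.Sail
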