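import Mathlib

namespace Pool.Agent.H83.Sail

open Module Filter Topology

variable {E : Type*} [NormedAddCommGroup E] [NormedSpace ℝ E] [FiniteDimensional ℝ E]

/-- Small elements of a closed subgroup of a finite-dimensional real space lie on lines
contained in the subgroup. -/
theorem closed_small (H : AddSubgroup E) (hH : IsClosed (H : Set E)) :
    ∃ r : ℝ, 0 < r ∧ ∀ x ∈ H, ‖x‖ < r → ∀ s : ℝ, s • x ∈ H := by
  set W : Submodule ℝ E :=
    { carrier := {x | ∀ s : ℝ, s • x ∈ H}
      add_mem' := by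
        intro x y hx hy s
        rw [smul_add]
        exact H.add_mem (hx s) (hy s)
      zero_mem' := by
        intro s
        rw [smul_zero]
        exact H.zero_mem
      smul_mem' := by
        intro c x hx s
        rw [smul_smul]
        exact hx (s * c) } with hW
  have hWmem : ∀ x, x ∈ W ↔ ∀ s : ℝ, s • x ∈ H := fun x => Iff.rfl
  have hWH : ∀ x ∈ W, x ∈ H := by
    intro x hx
    have := hx 1
    rwa [one_smul] at this
  obtain ⟨p, hp⟩ := W.subtype.exists_leftInverse_of_injective (by simp)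
  have hpW : ∀ x : W, p (x : E) = x := fun x => by
    have := LinearMap.congr_fun hp x
    simpa using this
  have hpc : Continuous p := p.continuous_of_finiteDimensional
  by_contra hcon
  push Not at hcon
  have h1 : ∀ k : ℕ, ∃ x ∈ H, ‖x‖ < 1 / ((k : ℝ) + 1) ∧ x ∉ W := by
    intro k
    obtain ⟨x, hx, hxr, s, hs⟩ := hcon (1 / ((k : ℝ) + 1)) (by positivity)
    exact ⟨x, hx, hxr, fun h => hs (h s)⟩
  choose x hxH hxs hxW using h1
  have hx0 : Tendsto x atTop (𝓝 0) := by
    rw [tendsto_zero_iff_norm_tendsto_zero]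
    exact squeeze_zero (fun k => norm_nonneg _) (fun k => (hxs k).le)
      tendsto_one_div_add_atTop_nhds_zero_nat
  set y : ℕ → E := fun k => x k - (p (x k) : E) with hy
  have hyH : ∀ k, y k ∈ H := fun k => H.sub_mem (hxH k) (hWH _ (p (x k)).2)
  have hyne : ∀ k, y k ≠ 0 := by
    intro k h
    rw [hy, sub_eq_zero] at h
    exact hxW k (h ▸ (p (x k)).2)
  have hpy : ∀ k, p (y k) = 0 := by
    intro k
    rw [hy]
    simp only
    rw [map_sub, hpW, sub_self]
  have hy0 : Tendsto y atTop (𝓝 0) := by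
    have h2 : Tendsto (fun k => (p (x k) : E)) atTop (𝓝 ((p 0 : W) : E)) :=
      (continuous_subtype_val.comp hpc).continuousAt.tendsto.comp hx0
    rw [map_zero] at h2
    have h3 := hx0.sub h2
    simpa using h3
  set z : ℕ → E := fun k => (‖y k‖)⁻¹ • y k with hz
  have hyn : ∀ k, 0 < ‖y k‖ := fun k => norm_pos_iff.mpr (hyne k)
  have hz1 : ∀ k, ‖z k‖ = 1 := by
    intro k
    rw [hz]
    simp only
    rw [norm_smul, norm_inv, norm_norm, inv_mul_cancel₀ (hyn k).ne']
  have hsph : ∀ k, z k ∈ Metric.sphere (0 : E) 1 := by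
    intro k
    rw [mem_sphere_zero_iff_norm]
    exact hz1 k
  have : ProperSpace E := FiniteDimensional.proper_real E
  obtain ⟨a, ha, ψ, hψ, hlim⟩ := (isCompact_sphere (0 : E) 1).tendsto_subseq hsph
  have hpa : p a = 0 := by
    have h2 : Tendsto (fun k => p (z (ψ k))) atTop (𝓝 (p a)) :=
      hpc.continuousAt.tendsto.comp hlim
    have h3 : ∀ k, p (z (ψ k)) = 0 := by
      intro k
      rw [hz]
      simp only
      rw [map_smul, hpy, smul_zero]
    simp_rw [h3] at h2
    exact tendsto_nhds_unique h2 tendsto_const_nhds |>.symm ▸ rfl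
  have haW : a ∈ W := by
    rw [hWmem]
    intro s
    have h2 : Tendsto (fun k => (⌊s / ‖y (ψ k)‖⌋ : ℤ) • y (ψ k)) atTop (𝓝 (s • a)) := by
      have h3 : Tendsto (fun k => s • z (ψ k)) atTop (𝓝 (s • a)) := hlim.const_smul s
      have h4 : Tendsto (fun k => (⌊s / ‖y (ψ k)‖⌋ : ℤ) • y (ψ k) - s • z (ψ k)) atTop (𝓝 0) := by
        rw [tendsto_zero_iff_norm_tendsto_zero]
        have h5 : Tendsto (fun k => ‖y (ψ k)‖) atTop (𝓝 0) := by
          have := (hy0.comp hψ.tendsto_atTop).norm
          simpa using this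
        refine squeeze_zero (fun k => norm_nonneg _) (fun k => ?_) h5
        have h6 : (⌊s / ‖y (ψ k)‖⌋ : ℤ) • y (ψ k) - s • z (ψ k) =
            ((⌊s / ‖y (ψ k)‖⌋ : ℝ) - s / ‖y (ψ k)‖) • y (ψ k) := by
          rw [hz]
          simp only
          rw [sub_smul, smul_smul, div_eq_mul_inv, Int.cast_smul_eq_zsmul]
        rw [h6, norm_smul]
        have h7 : ‖(⌊s / ‖y (ψ k)‖⌋ : ℝ) - s / ‖y (ψ k)‖‖ ≤ 1 := by
          rw [Real.norm_eq_abs, abs_le]
          constructor
          · linarith [Int.lt_floor_add_one (s / ‖y (ψ k)‖)]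
          · linarith [Int.floor_le (s / ‖y (ψ k)‖)]
        calc _ ≤ 1 * ‖y (ψ k)‖ := mul_le_mul_of_nonneg_right h7 (norm_nonneg _)
          _ = _ := one_mul _
      have h8 := h4.add h3
      simpa using h8
    exact hH.mem_of_tendsto h2 (Eventually.of_forall (fun k => H.zsmul_mem (hyH _) _))
  have h2 := hpW ⟨a, haW⟩
  simp only at h2
  rw [hpa] at h2
  have h3 : a = 0 := by
    have := congrArg Subtype.val h2
    simpa using this.symm
  rw [h3] at ha
  simp at ha

end Pool.Agent.H83.Sail
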