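import Mathlib

namespace Pool.Agent.H83.Sail

open NumberField Module

variable {K : Type*} [Field K] [NumberField K] {ι : Type*} [Fintype ι]

/-- The integral span of a rational basis. -/
def Lat (b : Basis ι ℚ K) : Submodule ℤ K := Submodule.span ℤ (Set.range b)

theorem lat_clear (b : Basis ι ℚ K) (y : K) : ∃ D : ℕ, 0 < D ∧ (D : K) * y ∈ Lat b := by
  classical
  obtain ⟨r, hr⟩ : ∃ r : ι → ℚ, y = ∑ i, r i • b i :=
    ⟨fun i => b.repr y i, (b.sum_repr y).symm⟩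
  subst hr
  refine ⟨∏ i, (r i).den, Finset.prod_pos (fun i _ => (r i).pos), ?_⟩
  have h1 : ((∏ i, (r i).den : ℕ) : K) * (∑ i, r i • b i) =
      ∑ i, ((∏ j ∈ Finset.univ.erase i, (r j).den : ℕ) : ℤ) • ((r i).num • b i) := by
    rw [Finset.mul_sum]
    refine Finset.sum_congr rfl (fun i _ => ?_)
    rw [← Finset.mul_prod_erase Finset.univ (fun j => (r j).den) (Finset.mem_univ i)]
    rw [Algebra.smul_def, zsmul_eq_mul, zsmul_eq_mul]
    have h2 : ((r i).den : K) * algebraMap ℚ K (r i) = ((r i).num : K) := by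
      have h3 : ((r i).den : ℚ) * (r i) = (r i).num := by
        rw [mul_comm]; exact Rat.mul_den_eq_num _
      have h4 := congrArg (algebraMap ℚ K) h3
      rw [map_mul, map_natCast, map_intCast] at h4
      exact h4
    push_cast
    rw [← h2]
    ring
  rw [h1]
  refine Submodule.sum_mem _ (fun i _ => Submodule.smul_mem _ _ (Submodule.smul_mem _ _
    (Submodule.subset_span ⟨i, rfl⟩)))

theorem lat_clear_all (b : Basis ι ℚ K) : ∃ D : ℕ, 0 < D ∧
    ∀ x : 𝓞 K, ∀ y ∈ Lat b, (D : K) * ((x : K) * y) ∈ Lat b := by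
  classical
  choose f hf0 hf using lat_clear b
  set ξ := RingOfIntegers.basis K with hξ
  set D : ℕ := ∏ p : (Module.Free.ChooseBasisIndex ℤ (𝓞 K)) × ι, f ((ξ p.1 : K) * b p.2) with hD
  have key : ∀ p : (Module.Free.ChooseBasisIndex ℤ (𝓞 K)) × ι,
      (D : K) * ((ξ p.1 : K) * b p.2) ∈ Lat b := by
    intro p
    obtain ⟨c, hc⟩ : f ((ξ p.1 : K) * b p.2) ∣ D := Finset.dvd_prod_of_mem _ (Finset.mem_univ p)
    have h1 := Submodule.smul_mem (Lat b) (c : ℤ) (hf ((ξ p.1 : K) * b p.2))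
    have h2 : ((c : ℤ) • ((f ((ξ p.1 : K) * b p.2) : K) * ((ξ p.1 : K) * b p.2))) =
        (D : K) * ((ξ p.1 : K) * b p.2) := by
      rw [hc, zsmul_eq_mul]
      push_cast
      ring
    rw [h2] at h1
    exact h1
  refine ⟨D, Finset.prod_pos (fun p _ => hf0 _), fun x y hy => ?_⟩
  refine Submodule.span_induction (p := fun y _ => (D : K) * ((x : K) * y) ∈ Lat b)
    ?_ ?_ ?_ ?_ hy
  · rintro _ ⟨j, rfl⟩
    have h1 : (x : K) = ∑ i, ((ξ.repr x i : ℤ) : K) * (ξ i : K) := by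
      have h0 := congrArg (algebraMap (𝓞 K) K) (ξ.sum_repr x)
      rw [map_sum] at h0
      refine h0.symm.trans (Finset.sum_congr rfl (fun i _ => ?_))
      rw [zsmul_eq_mul, map_mul, map_intCast]
    rw [h1, Finset.sum_mul, Finset.mul_sum]
    refine Submodule.sum_mem _ (fun i _ => ?_)
    have h2 := Submodule.smul_mem (Lat b) (ξ.repr x i) (key (i, j))
    rw [zsmul_eq_mul] at h2
    have h3 : (D : K) * (((ξ.repr x i : ℤ) : K) * (ξ i : K) * b j) =
      ((ξ.repr x i : ℤ) : K) * ((D : K) * ((ξ i : K) * b j)) := by ring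
    rw [h3]
    exact h2
  · simp
  · intro y z _ _ h1 h2
    have : (D : K) * ((x : K) * (y + z)) = (D : K) * ((x : K) * y) + (D : K) * ((x : K) * z) := by
      ring
    rw [this]
    exact Submodule.add_mem _ h1 h2
  · intro a y _ h1
    have : (D : K) * ((x : K) * (a • y)) = a • ((D : K) * ((x : K) * y)) := by
      rw [zsmul_eq_mul, zsmul_eq_mul]; ring
    rw [this]
    exact Submodule.smul_mem _ _ h1

/-- Units of the multiplier ring of the lattice. -/
def Stab (b : Basis ι ℚ K) : Subgroup (𝓞 K)ˣ where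
  carrier := {u | (∀ x ∈ Lat b, (u : K) * x ∈ Lat b) ∧
    (∀ x ∈ Lat b, ((u⁻¹ : (𝓞 K)ˣ) : K) * x ∈ Lat b)}
  one_mem' := by
    constructor
    · intro x hx; simpa using hx
    · intro x hx; simpa using hx
  mul_mem' := by
    rintro u v ⟨hu, hu'⟩ ⟨hv, hv'⟩
    constructor
    · intro x hx
      rw [Units.coe_mul, mul_assoc]
      exact hu _ (hv _ hx)
    · intro x hx
      rw [mul_inv_rev, Units.coe_mul, mul_assoc]
      exact hv' _ (hu' _ hx)
  inv_mem' := by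
    rintro u ⟨hu, hu'⟩
    refine ⟨hu', ?_⟩
    intro x hx
    rw [inv_inv]
    exact hu _ hx

omit [Fintype ι] in
theorem mem_stab_iff (b : Basis ι ℚ K) (u : (𝓞 K)ˣ) : u ∈ Stab b ↔
    (∀ x ∈ Lat b, (u : K) * x ∈ Lat b) ∧ (∀ x ∈ Lat b, ((u⁻¹ : (𝓞 K)ˣ) : K) * x ∈ Lat b) :=
  Iff.rfl

/-- A fixed power of every unit lies in the stabiliser. -/
theorem exists_pow_mem_stab (b : Basis ι ℚ K) : ∃ m : ℕ, 0 < m ∧
    ∀ u : (𝓞 K)ˣ, u ^ m ∈ Stab b := by
  classical
  obtain ⟨D, hD0, hD⟩ := lat_clear_all b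
  set I : Ideal (𝓞 K) := Ideal.span {(D : 𝓞 K)} with hI
  have hDne : (D : 𝓞 K) ≠ 0 := by exact_mod_cast hD0.ne'
  have hIne : I ≠ ⊥ := by
    rw [hI, Ne, Ideal.span_singleton_eq_bot]
    exact hDne
  have : Finite (𝓞 K ⧸ I) := Ideal.finiteQuotientOfFreeOfNeBot I hIne
  have : Fintype (𝓞 K ⧸ I) := Fintype.ofFinite _
  obtain ⟨m, hm0, hm⟩ : ∃ m : ℕ, 0 < m ∧ ∀ z : (𝓞 K ⧸ I)ˣ, z ^ m = 1 :=
    ⟨_, Fintype.card_pos, fun z => pow_card_eq_one⟩
  have key : ∀ u : (𝓞 K)ˣ, ∀ x ∈ Lat b, ((u ^ m : (𝓞 K)ˣ) : K) * x ∈ Lat b := by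
    intro u x hx
    have h1 := congrArg Units.val (hm (Units.map (Ideal.Quotient.mk I).toMonoidHom u))
    rw [Units.val_pow_eq_pow_val, Units.val_one, Units.coe_map] at h1
    have h3 : (Ideal.Quotient.mk I) ((u : 𝓞 K) ^ m) = (Ideal.Quotient.mk I) 1 := by
      rw [map_pow, map_one]
      exact h1
    rw [Ideal.Quotient.mk_eq_mk_iff_sub_mem, hI, Ideal.mem_span_singleton] at h3
    obtain ⟨y, hy⟩ := h3
    have h4 : ((u ^ m : (𝓞 K)ˣ) : K) = 1 + (D : K) * (y : K) := by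
      have h5 := congrArg (algebraMap (𝓞 K) K) hy
      rw [map_sub, map_mul, map_one, map_natCast, map_pow] at h5
      rw [Units.coe_pow]
      linear_combination h5
    rw [h4]
    have h6 : (1 + (D : K) * (y : K)) * x = x + (D : K) * ((y : K) * x) := by ring
    rw [h6]
    exact Submodule.add_mem _ hx (hD y x hx)
  refine ⟨m, hm0, fun u => ?_⟩
  rw [mem_stab_iff]
  refine ⟨key u, ?_⟩
  have := key u⁻¹
  simpa only [inv_pow] using this

end Pool.Agent.H83.Sail
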