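import Mathlib

namespace Pool.Agent.H83.Sail

open NumberField NumberField.InfinitePlace NumberField.Units
open NumberField.Units.dirichletUnitTheorem
open Module Filter Topology

variable (K : Type*) [Field K] [NumberField K]

/-- Cocompactness of the logarithmic unit lattice. -/
theorem exists_unit_near : ∃ C : ℝ, ∀ t : InfinitePlace K → ℝ,
    (∑ w, (mult w : ℝ) * t w = 0) →
      ∃ u : (𝓞 K)ˣ, ∀ w : InfinitePlace K, |Real.log (w (u : K)) - t w| ≤ C := by
  classical
  set b := (Module.Free.chooseBasis ℤ (unitLattice K)).ofZLatticeBasis ℝ (unitLattice K) with hb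
  set C0 : ℝ := ∑ i, ‖b i‖ with hC0
  have hC0n : 0 ≤ C0 := Finset.sum_nonneg (fun i _ => norm_nonneg _)
  refine ⟨(Fintype.card (InfinitePlace K)) * C0 + C0, fun t ht => ?_⟩
  set T : logSpace K := fun w => (mult w.val : ℝ) * t w.val with hT
  have hspan : Submodule.span ℤ (Set.range b) = unitLattice K :=
    Basis.ofZLatticeBasis_span ℝ (unitLattice K) (Module.Free.chooseBasis ℤ (unitLattice K))
  have hfl : (ZSpan.floor b T : logSpace K) ∈ unitLattice K :=
    hspan.le (ZSpan.floor b T).2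
  obtain ⟨u, -, hu⟩ := hfl
  have hfr : ‖T - (ZSpan.floor b T : logSpace K)‖ ≤ C0 := ZSpan.norm_fract_le b T
  have hmult : ∀ w : InfinitePlace K, (1 : ℝ) ≤ mult w := fun w => by
    have := (mult_pos (w := w))
    exact_mod_cast this
  have h1 : ∀ w : {w : InfinitePlace K // w ≠ w₀},
      |(mult w.val : ℝ) * (Real.log (w.val ((u.toMul : (𝓞 K)ˣ) : K)) - t w.val)| ≤ C0 := by
    intro w
    have h2 := norm_le_pi_norm (T - (ZSpan.floor b T : logSpace K)) w
    have h3 := h2.trans hfr
    rw [Pi.sub_apply, ← hu, Real.norm_eq_abs, abs_sub_comm] at h3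
    have h4 : ((logEmbedding K).toIntLinearMap u) w =
      (mult w.val : ℝ) * Real.log (w.val ((u.toMul : (𝓞 K)ˣ) : K)) := rfl
    rw [h4] at h3
    rw [mul_sub]
    exact h3
  refine ⟨u.toMul, fun w => ?_⟩
  by_cases hw : w = w₀
  · have hs := sum_mult_mul_log (u.toMul : (𝓞 K)ˣ)
    have h5 : ∑ w : InfinitePlace K, (mult w : ℝ) *
        (Real.log (w ((u.toMul : (𝓞 K)ˣ) : K)) - t w) = 0 := by
      simp_rw [mul_sub]
      rw [Finset.sum_sub_distrib, hs, ht, sub_zero]
    rw [Fintype.sum_eq_add_sum_subtype_ne _ w₀, add_eq_zero_iff_eq_neg] at h5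
    have h6 : |(mult (w₀ : InfinitePlace K) : ℝ) *
        (Real.log ((w₀ : InfinitePlace K) ((u.toMul : (𝓞 K)ˣ) : K)) - t w₀)| ≤
        (Fintype.card (InfinitePlace K)) * C0 := by
      rw [h5, abs_neg]
      refine (Finset.abs_sum_le_sum_abs _ _).trans ?_
      refine (Finset.sum_le_sum (fun w _ => h1 w)).trans ?_
      rw [Finset.sum_const, nsmul_eq_mul]
      refine mul_le_mul_of_nonneg_right ?_ hC0n
      exact_mod_cast Fintype.card_subtype_le _
    subst hw
    rw [abs_mul] at h6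
    have h7 : (1 : ℝ) ≤ |(mult (w₀ : InfinitePlace K) : ℝ)| := (hmult _).trans (le_abs_self _)
    have h8 := mul_le_mul_of_nonneg_right h7
      (abs_nonneg (Real.log ((w₀ : InfinitePlace K) ((u.toMul : (𝓞 K)ˣ) : K)) - t w₀))
    linarith
  · have h6 := h1 ⟨w, hw⟩
    rw [abs_mul] at h6
    have h7 : (1 : ℝ) ≤ |(mult w : ℝ)| := (hmult _).trans (le_abs_self _)
    have h8 := mul_le_mul_of_nonneg_right h7
      (abs_nonneg (Real.log (w ((u.toMul : (𝓞 K)ˣ) : K)) - t w))
    have h9 : 0 ≤ (Fintype.card (InfinitePlace K) : ℝ) * C0 := by positivity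
    simp only at h6
    linarith

end Pool.Agent.H83.Sail
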