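import Mathlib
import Pool.Agent.H83.Sail.Units
import Pool.Agent.H83.Sail.Mult

namespace Pool.Agent.H83.Sail

open NumberField NumberField.InfinitePlace NumberField.ComplexEmbedding
open Module Filter Topology

variable {K : Type*} [Field K] [NumberField K] {ι : Type*} [Fintype ι]

theorem sum_emb_eq (d : (K →+* ℂ) → ℝ) (hconj : ∀ φ, d (conjugate φ) = d φ) :
    ∑ φ, d φ = ∑ w : InfinitePlace K, (mult w : ℝ) * d w.embedding := by
  classical
  rw [← Finset.sum_fiberwise Finset.univ (fun φ : K →+* ℂ => InfinitePlace.mk φ)]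
  refine Finset.sum_congr rfl (fun w _ => ?_)
  have h1 : ∀ φ ∈ Finset.univ.filter (fun φ : K →+* ℂ => InfinitePlace.mk φ = w),
      d φ = d w.embedding := by
    intro φ hφ
    have h2 : InfinitePlace.mk φ = w := (Finset.mem_filter.mp hφ).2
    have h3 : InfinitePlace.mk φ = InfinitePlace.mk w.embedding := by
      rw [mk_embedding]; exact h2
    rcases mk_eq_iff.mp h3 with h | h
    · rw [h]
    · rw [← h, hconj]
  rw [Finset.sum_congr rfl h1, Finset.sum_const, card_filter_mk_eq, nsmul_eq_mul]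

omit [NumberField K] in
theorem emb_inv (u : (𝓞 K)ˣ) (φ : K →+* ℂ) : φ ((u⁻¹ : (𝓞 K)ˣ) : K) = (φ (u : K))⁻¹ := by
  refine eq_inv_of_mul_eq_one_left ?_
  rw [← map_mul, ← Units.coe_mul, inv_mul_cancel, Units.coe_one, map_one]

/-- Units of the multiplier ring close to a prescribed ray of the logarithmic space, with
arguments close to zero. -/
theorem exists_ray (b : Basis ι ℚ K) (d : (K →+* ℂ) → ℝ)
    (hconj : ∀ φ, d (conjugate φ) = d φ) (hsum : ∑ φ, d φ = 0) :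
    ∃ (u : ℕ → (𝓞 K)ˣ) (T : ℕ → ℕ), (∀ k, u k ∈ Stab b) ∧ Tendsto T atTop atTop ∧
      ∀ φ : K →+* ℂ, Tendsto (fun k => φ (u k : K) * ((Real.exp (-((T k : ℝ) * d φ)) : ℝ) : ℂ))
        atTop (𝓝 1) := by
  classical
  obtain ⟨C, hC⟩ := exists_unit_near K
  obtain ⟨m, hm0, hm⟩ := exists_pow_mem_stab b
  have hm0' : (0 : ℝ) < m := by exact_mod_cast hm0
  have hN : ∀ N : ℕ, ∃ u : (𝓞 K)ˣ, ∀ w : InfinitePlace K,
      |Real.log (w (u : K)) - (N : ℝ) / m * d w.embedding| ≤ C := by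
    intro N
    refine hC (fun w => (N : ℝ) / m * d w.embedding) ?_
    have h1 : ∑ w : InfinitePlace K, (mult w : ℝ) * ((N : ℝ) / m * d w.embedding) =
        (N : ℝ) / m * ∑ w : InfinitePlace K, (mult w : ℝ) * d w.embedding := by
      rw [Finset.mul_sum]
      refine Finset.sum_congr rfl (fun w _ => by ring)
    rw [h1, ← sum_emb_eq d hconj, hsum, mul_zero]
  choose u0 hu0 using hN
  set v : ℕ → (𝓞 K)ˣ := fun N => u0 N ^ m with hv
  have hvlog : ∀ (N : ℕ) (φ : K →+* ℂ), |Real.log ‖φ (v N : K)‖ - (N : ℝ) * d φ| ≤ m * C := by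
    intro N φ
    have h1 := hu0 N (InfinitePlace.mk φ)
    have h2 : d (InfinitePlace.mk φ).embedding = d φ := by
      rcases embedding_mk_eq φ with h | h
      · rw [h]
      · rw [h, hconj]
    rw [h2, InfinitePlace.apply] at h1
    have h3 : Real.log ‖φ (v N : K)‖ = m * Real.log ‖φ (u0 N : K)‖ := by
      rw [hv]
      simp only
      rw [Units.coe_pow, map_pow, norm_pow, Real.log_pow]
    rw [h3]
    have h4 : (m : ℝ) * Real.log ‖φ (u0 N : K)‖ - (N : ℝ) * d φ =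
        m * (Real.log ‖φ (u0 N : K)‖ - (N : ℝ) / m * d φ) := by
      field_simp
    rw [h4, abs_mul, abs_of_pos hm0']
    exact mul_le_mul_of_nonneg_left h1 hm0'.le
  have hne : ∀ (u : (𝓞 K)ˣ) (φ : K →+* ℂ), φ (u : K) ≠ 0 := by
    intro u φ
    rw [Ne, map_eq_zero]
    exact Units.coe_ne_zero u
  set z : ℕ → (K →+* ℂ) → ℂ := fun N φ =>
    φ (v N : K) * ((Real.exp (-((N : ℝ) * d φ)) : ℝ) : ℂ) with hz
  have hznorm : ∀ (N : ℕ) (φ : K →+* ℂ), Real.log ‖z N φ‖ = Real.log ‖φ (v N : K)‖ - (N : ℝ) * d φ := by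
    intro N φ
    rw [hz]
    simp only
    rw [norm_mul, Complex.norm_real, Real.norm_eq_abs, abs_of_pos (Real.exp_pos _),
      Real.log_mul (norm_ne_zero_iff.mpr (hne _ _)) (Real.exp_pos _).ne', Real.log_exp]
    ring
  have hzne : ∀ N φ, z N φ ≠ 0 := by
    intro N φ
    refine mul_ne_zero (hne _ _) ?_
    exact_mod_cast (Real.exp_pos _).ne'
  have hzpos : ∀ N φ, 0 < ‖z N φ‖ := fun N φ => norm_pos_iff.mpr (hzne N φ)
  have hzup : ∀ N φ, ‖z N φ‖ ≤ Real.exp (m * C) := by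
    intro N φ
    rw [← Real.log_le_iff_le_exp (hzpos N φ), hznorm]
    exact (abs_le.mp (hvlog N φ)).2
  have hzlow : ∀ N φ, Real.exp (-(m * C)) ≤ ‖z N φ‖ := by
    intro N φ
    rw [← Real.le_log_iff_exp_le (hzpos N φ), hznorm]
    exact (abs_le.mp (hvlog N φ)).1
  have hball : ∀ N, z N ∈ Metric.closedBall (0 : (K →+* ℂ) → ℂ) (Real.exp (m * C)) := by
    intro N
    rw [mem_closedBall_zero_iff]
    exact (pi_norm_le_iff_of_nonneg (Real.exp_pos _).le).mpr (hzup N)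
  obtain ⟨a, -, ψ, hψ, hlim⟩ := (isCompact_closedBall (0 : (K →+* ℂ) → ℂ)
    (Real.exp (m * C))).tendsto_subseq hball
  have hlim' : ∀ φ, Tendsto (fun k => z (ψ k) φ) atTop (𝓝 (a φ)) := fun φ =>
    (tendsto_pi_nhds.mp hlim) φ
  have hane : ∀ φ, a φ ≠ 0 := by
    intro φ
    have h1 : Real.exp (-(m * C)) ≤ ‖a φ‖ :=
      ge_of_tendsto' (hlim' φ).norm (fun k => hzlow _ _)
    exact norm_pos_iff.mp ((Real.exp_pos _).trans_le h1)
  have hσ : Tendsto (fun k => ψ k + k) atTop atTop :=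
    tendsto_atTop_mono (fun k => Nat.le_add_left k (ψ k)) tendsto_id
  have hψge : ∀ k, k ≤ ψ k := hψ.id_le
  refine ⟨fun k => v (ψ (ψ k + k)) * (v (ψ k))⁻¹, fun k => ψ (ψ k + k) - ψ k, ?_, ?_, ?_⟩
  · intro k
    exact (Stab b).mul_mem (hm _) ((Stab b).inv_mem (hm _))
  · refine tendsto_atTop_mono (fun k => ?_) tendsto_id
    have := hψge (ψ k + k)
    simp only [id]
    omega
  · intro φ
    have h1 : Tendsto (fun k => z (ψ (ψ k + k)) φ) atTop (𝓝 (a φ)) := (hlim' φ).comp hσ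
    have h2 : Tendsto (fun k => z (ψ (ψ k + k)) φ / z (ψ k) φ) atTop (𝓝 (a φ / a φ)) :=
      h1.div (hlim' φ) (hane φ)
    rw [div_self (hane φ)] at h2
    refine h2.congr (fun k => ?_)
    have hle : ψ k ≤ ψ (ψ k + k) := hψ.monotone (Nat.le_add_left k (ψ k))
    simp only [hz]
    rw [Units.coe_mul, map_mul, emb_inv, Nat.cast_sub hle]
    have h3 : Real.exp (-(((ψ (ψ k + k) : ℝ) - (ψ k : ℝ)) * d φ)) =
        Real.exp (-((ψ (ψ k + k) : ℝ) * d φ)) / Real.exp (-((ψ k : ℝ) * d φ)) := by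
      rw [← Real.exp_sub]; ring_nf
    rw [h3]
    have h4 : ((Real.exp (-((ψ k : ℝ) * d φ)) : ℝ) : ℂ) ≠ 0 := by
      exact_mod_cast (Real.exp_pos _).ne'
    have h5 := hne (v (ψ k)) φ
    rw [Complex.ofReal_div]
    field_simp

end Pool.Agent.H83.Sail
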