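import Mathlib
import Pool.Agent.H83.Sail.Ray

namespace Pool.Agent.H83.Sail

open NumberField NumberField.InfinitePlace NumberField.ComplexEmbedding
open Module Filter Topology

variable {K : Type*} [Field K] [NumberField K] {ι : Type*} [Fintype ι]

/-- Linear independence of the embeddings on a rational basis. -/
theorem emb_indep (b : Basis ι ℚ K) (q : (K →+* ℂ) → ℂ) (h : ∀ j, ∑ φ, q φ * φ (b j) = 0) :
    q = 0 := by
  classical
  have h1 : ∀ x : K, ∑ φ, q φ * φ x = 0 := by
    intro x
    rw [← b.sum_repr x]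
    simp_rw [map_sum, Finset.mul_sum]
    rw [Finset.sum_comm]
    refine Finset.sum_eq_zero (fun j _ => ?_)
    have h2 : ∀ φ : K →+* ℂ, q φ * φ (b.repr x j • b j) = ((b.repr x j : ℚ) : ℂ) *
        (q φ * φ (b j)) := by
      intro φ
      rw [Algebra.smul_def, map_mul, eq_ratCast, map_ratCast]
      ring
    simp_rw [h2]
    rw [← Finset.mul_sum, h j, mul_zero]
  have h2 : LinearIndependent ℂ (fun φ : K →+* ℂ => ((φ : K →* ℂ) : K → ℂ)) :=
    (linearIndependent_monoidHom K ℂ).comp (fun φ : K →+* ℂ => (φ : K →* ℂ))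
      (fun φ ψ h => by
        ext x
        exact DFunLike.congr_fun h x)
  have h3 := Fintype.linearIndependent_iff.mp h2 q (by
    ext x
    rw [Finset.sum_apply, Pi.zero_apply, ← h1 x]
    rfl)
  funext φ
  exact h3 φ

/-- Every complex vector of values on the basis comes from a combination of embeddings. -/
theorem emb_exists (b : Basis ι ℚ K) (a : ι → ℂ) : ∃ q : (K →+* ℂ) → ℂ,
    ∀ j, ∑ φ, q φ * φ (b j) = a j := by
  classical
  set f : ((K →+* ℂ) → ℂ) →ₗ[ℂ] (ι → ℂ) :=
    { toFun := fun q j => ∑ φ, q φ * φ (b j)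
      map_add' := by
        intro q r
        funext j
        simp only [Pi.add_apply, add_mul, Finset.sum_add_distrib]
      map_smul' := by
        intro c q
        funext j
        simp only [Pi.smul_apply, smul_eq_mul, RingHom.id_apply, Finset.mul_sum, mul_assoc] }
    with hf
  have hinj : Function.Injective f := by
    rw [injective_iff_map_eq_zero]
    intro q hq
    exact emb_indep b q (fun j => congrFun hq j)
  have hcard : Fintype.card ι = Fintype.card (K →+* ℂ) := by
    rw [NumberField.Embeddings.card K ℂ, Module.finrank_eq_card_basis b]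
  have hdim : finrank ℂ ((K →+* ℂ) → ℂ) = finrank ℂ (ι → ℂ) := by
    rw [Module.finrank_fintype_fun_eq_card, Module.finrank_fintype_fun_eq_card, hcard]
  obtain ⟨q, hq⟩ := (LinearMap.injective_iff_surjective_of_finrank_eq_finrank hdim).mp hinj a
  exact ⟨q, fun j => congrFun hq j⟩

theorem prod_emb_unit (u : (𝓞 K)ˣ) : ∏ φ : K →+* ℂ, ‖φ (u : K)‖ = 1 := by
  have hpos : ∀ φ : K →+* ℂ, 0 < ‖φ (u : K)‖ := by
    intro φ
    rw [norm_pos_iff, Ne, map_eq_zero]
    exact Units.coe_ne_zero u
  have h1 := sum_emb_eq (fun φ : K →+* ℂ => Real.log ‖φ (u : K)‖) (by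
    intro φ
    rw [conjugate_coe_eq, Complex.norm_conj])
  have h2 : ∑ w : InfinitePlace K, (mult w : ℝ) * Real.log ‖w.embedding (u : K)‖ = 0 := by
    have := Units.sum_mult_mul_log u
    simpa only [norm_embedding_eq] using this
  rw [h2, ← Real.log_prod (fun φ _ => (hpos φ).ne')] at h1
  exact Real.eq_one_of_pos_of_log_eq_zero (Finset.prod_pos (fun φ _ => hpos φ)) h1

open scoped IntermediateField in
theorem inj_of_primitive {x : K} (h : ℚ⟮x⟯ = ⊤) (φ ψ : K →+* ℂ) (hx : φ x = ψ x) : φ = ψ := by
  have h1 := (Field.primitive_element_iff_algHom_eq_of_eval ℚ ℂ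
    (fun x => IsAlgClosed.splits _) x φ.toRatAlgHom).mp h ψ.toRatAlgHom (by simpa using hx)
  ext y
  have h2 := AlgHom.congr_fun h1 y
  simpa using h2

open scoped IntermediateField in
/-- Prime degree: an element with two distinct conjugates is primitive. -/
theorem primitive_of_prime (hp : (finrank ℚ K).Prime) {x : K} {φ ψ : K →+* ℂ}
    (hx : φ x ≠ ψ x) : ℚ⟮x⟯ = ⊤ := by
  have := IntermediateField.isSimpleOrder_of_finrank_prime ℚ K hp
  rcases eq_bot_or_eq_top ℚ⟮x⟯ with h | h
  · exfalso
    rw [IntermediateField.adjoin_simple_eq_bot_iff, IntermediateField.mem_bot] at h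
    obtain ⟨q, rfl⟩ := h
    exact hx (by rw [eq_ratCast, map_ratCast, map_ratCast])
  · exact h

open scoped IntermediateField in
/-- One large real conjugate, the others small: primitive. -/
theorem primitive_of_real {u : (𝓞 K)ˣ} {θ : K →+* ℂ} (hθ : conjugate θ = θ)
    (hu : ∀ φ : K →+* ℂ, φ ≠ θ → ‖φ (u : K)‖ < 1) : ℚ⟮(u : K)⟯ = ⊤ := by
  refine NumberField.is_primitive_element_of_infinitePlace_lt (x := (u : 𝓞 K))
    (w := InfinitePlace.mk θ) (by simp) ?_ (Or.inl ?_)
  · intro w' hw'
    have h1 : w'.embedding ≠ θ := by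
      intro h
      apply hw'
      rw [← h, mk_embedding]
    rw [← norm_embedding_eq]
    exact hu _ h1
  · rw [InfinitePlace.isReal_iff, embedding_mk_eq_of_isReal (ComplexEmbedding.isReal_iff.mpr hθ)]
    exact ComplexEmbedding.isReal_iff.mpr hθ

end Pool.Agent.H83.Sail
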