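import Mathlib
import Pool.Agent.H83.Sail.Embed

namespace Pool.Agent.H83.Sail

open NumberField NumberField.InfinitePlace NumberField.ComplexEmbedding
open Module Filter Topology

variable {K : Type*} [Field K] [NumberField K] {ι : Type*} [Fintype ι]

omit [NumberField K] in
theorem limit_term (p a : ℂ) (φ : K →+* ℂ) (d e : ℝ) (hle : p ≠ 0 → d ≤ e)
    (u : ℕ → (𝓞 K)ˣ) (T : ℕ → ℕ) (hT : Tendsto T atTop atTop)
    (hu : Tendsto (fun k => φ (u k : K) * ((Real.exp (-((T k : ℝ) * d)) : ℝ) : ℂ)) atTop (𝓝 1)) :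
    Tendsto (fun k => ((Real.exp (-((T k : ℝ) * e)) : ℝ) : ℂ) * (p * (φ (u k : K) * a)))
      atTop (𝓝 ((if d = e then p else 0) * a)) := by
  have hT' : Tendsto (fun k => (T k : ℝ)) atTop atTop := tendsto_natCast_atTop_atTop.comp hT
  have hrw : ∀ k, ((Real.exp (-((T k : ℝ) * e)) : ℝ) : ℂ) * (p * (φ (u k : K) * a)) =
      p * a * (φ (u k : K) * ((Real.exp (-((T k : ℝ) * d)) : ℝ) : ℂ)) *
        ((Real.exp ((T k : ℝ) * (d - e)) : ℝ) : ℂ) := by
    intro k
    have h1 : Real.exp (-((T k : ℝ) * e)) =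
        Real.exp (-((T k : ℝ) * d)) * Real.exp ((T k : ℝ) * (d - e)) := by
      rw [← Real.exp_add]; ring_nf
    rw [h1, Complex.ofReal_mul]
    ring
  simp_rw [hrw]
  by_cases hp : p = 0
  · subst hp
    simp
  have hde := hle hp
  rcases eq_or_lt_of_le hde with h | h
  · rw [if_pos h]
    have h2 : Tendsto (fun k => ((Real.exp ((T k : ℝ) * (d - e)) : ℝ) : ℂ)) atTop (𝓝 1) := by
      rw [h]
      simp
    have h3 := (hu.const_mul (p * a)).mul h2
    simpa using h3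
  · rw [if_neg h.ne]
    have h2 : Tendsto (fun k => ((Real.exp ((T k : ℝ) * (d - e)) : ℝ) : ℂ)) atTop (𝓝 0) := by
      have h4 : Tendsto (fun k => (T k : ℝ) * (d - e)) atTop atBot :=
        hT'.atTop_mul_const_of_neg (by linarith)
      have h5 := Real.tendsto_exp_atBot.comp h4
      have h6 := (Complex.continuous_ofReal.tendsto 0).comp h5
      rw [Complex.ofReal_zero] at h6
      exact h6
    have h3 := (hu.const_mul (p * a)).mul h2
    simpa using h3

/-- Passing to the limit along a ray of units: the leading forms satisfy the same lower bound. -/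
theorem limit_forms (b : Basis ι ℚ K) (P : ι → (K →+* ℂ) → ℂ) (d : (K →+* ℂ) → ℝ)
    (hconj : ∀ φ, d (conjugate φ) = d φ) (hsum : ∑ φ, d φ = 0) (e : ι → ℝ)
    (he : ∑ i, e i = 0) (hle : ∀ i φ, P i φ ≠ 0 → d φ ≤ e i) (c : ℝ)
    (hN : ∀ α ∈ Lat b, α ≠ 0 → c ≤ ∏ i, ‖∑ φ, P i φ * φ α‖)
    (hR : ∀ i, ∀ α ∈ Lat b, (∑ φ, P i φ * φ α).im = 0) :
    (∀ α ∈ Lat b, α ≠ 0 → c ≤ ∏ i, ‖∑ φ, (if d φ = e i then P i φ else 0) * φ α‖) ∧
    (∀ i, ∀ α ∈ Lat b, (∑ φ, (if d φ = e i then P i φ else 0) * φ α).im = 0) := by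
  classical
  obtain ⟨u, T, hus, hT, hu⟩ := exists_ray b d hconj hsum
  have hlim : ∀ i (α : K), Tendsto (fun k => ((Real.exp (-((T k : ℝ) * e i)) : ℝ) : ℂ) *
      ∑ φ, P i φ * φ ((u k : K) * α)) atTop
      (𝓝 (∑ φ, (if d φ = e i then P i φ else 0) * φ α)) := by
    intro i α
    simp_rw [Finset.mul_sum, map_mul]
    exact tendsto_finsetSum _ (fun φ _ => limit_term (P i φ) (φ α) φ (d φ) (e i) (hle i φ)
      u T hT (hu φ))
  refine ⟨?_, ?_⟩
  · intro α hα hα0
    have h1 : Tendsto (fun k => ∏ i, ‖((Real.exp (-((T k : ℝ) * e i)) : ℝ) : ℂ) *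
      ∑ φ, P i φ * φ ((u k : K) * α)‖) atTop
      (𝓝 (∏ i, ‖∑ φ, (if d φ = e i then P i φ else 0) * φ α‖)) :=
      tendsto_finsetProd _ (fun i _ => (hlim i α).norm)
    refine ge_of_tendsto' h1 (fun k => ?_)
    simp_rw [norm_mul, Complex.norm_real, Real.norm_eq_abs, abs_of_pos (Real.exp_pos _)]
    rw [Finset.prod_mul_distrib, ← Real.exp_sum, Finset.sum_neg_distrib, ← Finset.mul_sum, he,
      mul_zero, neg_zero, Real.exp_zero, one_mul]
    exact hN _ ((hus k).1 α hα) (mul_ne_zero (Units.coe_ne_zero _) hα0)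
  · intro i α hα
    have h1 := (Complex.continuous_im.tendsto _).comp (hlim i α)
    have h2 : ∀ k, (Complex.im ∘ fun k => ((Real.exp (-((T k : ℝ) * e i)) : ℝ) : ℂ) *
      ∑ φ, P i φ * φ ((u k : K) * α)) k = 0 := by
      intro k
      simp only [Function.comp]
      rw [Complex.im_ofReal_mul, hR i _ ((hus k).1 α hα), mul_zero]
    exact tendsto_nhds_unique h1 (by rw [funext h2]; exact tendsto_const_nhds)

end Pool.Agent.H83.Sail
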