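import Mathlib

namespace Pool.Agent.H83.Sail

open Finset

variable {ι : Type*} [Fintype ι]

/-- If `a . x > 0 > b . x` has a real solution, it has an integral one. -/
theorem exists_int_of_real (a b x : ι → ℝ) (hax : 0 < ∑ j, a j * x j) (hbx : ∑ j, b j * x j < 0) :
    ∃ v : ι → ℤ, 0 < ∑ j, a j * v j ∧ ∑ j, b j * v j < 0 := by
  obtain ⟨N, hN⟩ := exists_nat_gt (max ((∑ j, |a j|) / ∑ j, a j * x j)
    ((∑ j, |b j|) / -(∑ j, b j * x j)))
  have hN1 := (le_max_left _ _).trans_lt hN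
  have hN2 := (le_max_right _ _).trans_lt hN
  rw [div_lt_iff₀ hax] at hN1
  rw [div_lt_iff₀ (by linarith)] at hN2
  have key : ∀ c : ι → ℝ, |∑ j, c j * (⌊(N : ℝ) * x j⌋ : ℝ) - N * ∑ j, c j * x j| ≤
      ∑ j, |c j| := by
    intro c
    rw [Finset.mul_sum, ← Finset.sum_sub_distrib]
    refine (Finset.abs_sum_le_sum_abs _ _).trans (Finset.sum_le_sum (fun j _ => ?_))
    have h1 : c j * (⌊(N : ℝ) * x j⌋ : ℝ) - N * (c j * x j) =
        c j * ((⌊(N : ℝ) * x j⌋ : ℝ) - N * x j) := by ring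
    rw [h1, abs_mul]
    have h2 : |(⌊(N : ℝ) * x j⌋ : ℝ) - N * x j| ≤ 1 := by
      rw [abs_le]
      constructor
      · linarith [Int.lt_floor_add_one ((N : ℝ) * x j)]
      · linarith [Int.floor_le ((N : ℝ) * x j)]
    calc _ ≤ |c j| * 1 := mul_le_mul_of_nonneg_left h2 (abs_nonneg _)
      _ = _ := mul_one _
  refine ⟨fun j => ⌊(N : ℝ) * x j⌋, ?_, ?_⟩
  · have := (abs_le.mp (key a)).1
    linarith
  · have := (abs_le.mp (key b)).2
    linarith

/-- Two linear forms that never have opposite signs at integer points are proportional. -/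
theorem prop_of_sign (a b : ι → ℝ) (ha : a ≠ 0)
    (h : ∀ v : ι → ℤ, 0 < ∑ j, a j * v j → 0 ≤ ∑ j, b j * v j) :
    ∃ χ : ℝ, 0 ≤ χ ∧ ∀ j, b j = χ * a j := by
  have hr : ∀ x : ι → ℝ, 0 < ∑ j, a j * x j → 0 ≤ ∑ j, b j * x j := by
    intro x hx
    by_contra hb
    push Not at hb
    obtain ⟨v, hv1, hv2⟩ := exists_int_of_real a b x hx hb
    exact absurd (h v hv1) (not_le.mpr hv2)
  have haa : 0 < ∑ j, a j * a j := by
    obtain ⟨j0, hj0⟩ := Function.ne_iff.mp ha
    have : a j0 ≠ 0 := hj0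
    exact Finset.sum_pos' (fun j _ => mul_self_nonneg _) ⟨j0, Finset.mem_univ _,
      mul_self_pos.mpr this⟩
  have hker : ∀ x : ι → ℝ, ∑ j, a j * x j = 0 → ∑ j, b j * x j = 0 := by
    intro x hx
    have h1 : ∀ t : ℝ, 0 ≤ ∑ j, b j * a j + t * ∑ j, b j * x j := by
      intro t
      have h2 := hr (fun j => a j + t * x j) (by
        have : ∑ j, a j * (a j + t * x j) = ∑ j, a j * a j + t * ∑ j, a j * x j := by
          rw [Finset.mul_sum, ← Finset.sum_add_distrib]
          refine Finset.sum_congr rfl (fun j _ => by ring)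
        rw [this, hx, mul_zero, add_zero]
        exact haa)
      have h3 : ∑ j, b j * (a j + t * x j) = ∑ j, b j * a j + t * ∑ j, b j * x j := by
        rw [Finset.mul_sum, ← Finset.sum_add_distrib]
        refine Finset.sum_congr rfl (fun j _ => by ring)
      rwa [h3] at h2
    by_contra hne
    have h2 := h1 (-(∑ j, b j * a j + 1) / ∑ j, b j * x j)
    rw [div_mul_cancel₀ _ hne] at h2
    linarith
  refine ⟨(∑ j, b j * a j) / ∑ j, a j * a j, div_nonneg (hr a haa) haa.le, fun i => ?_⟩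
  classical
  have h1 := hker (fun j => (if j = i then 1 else 0) - (a i / ∑ j, a j * a j) * a j) (by
    simp_rw [mul_sub, Finset.sum_sub_distrib]
    have h2 : ∑ j, a j * ((a i / ∑ j, a j * a j) * a j) =
        (a i / ∑ j, a j * a j) * ∑ j, a j * a j := by
      rw [Finset.mul_sum]
      refine Finset.sum_congr rfl (fun j _ => by ring)
    rw [h2, div_mul_cancel₀ _ haa.ne']
    simp)
  simp_rw [mul_sub, Finset.sum_sub_distrib] at h1
  have h2 : ∑ j, b j * ((a i / ∑ j, a j * a j) * a j) =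
      (a i / ∑ j, a j * a j) * ∑ j, b j * a j := by
    rw [Finset.mul_sum]
    refine Finset.sum_congr rfl (fun j _ => by ring)
  rw [h2] at h1
  simp only [mul_ite, mul_one, mul_zero, Finset.sum_ite_eq', Finset.mem_univ, if_true] at h1
  have h3 : b i = (a i / ∑ j, a j * a j) * ∑ j, b j * a j := by linarith
  rw [h3]
  ring

end Pool.Agent.H83.Sail
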