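import Mathlib
import Pool.Agent.H83.Sail.Closed
import Pool.Agent.H83.Sail.Sign
import Pool.Agent.H83.Sail.Limit

namespace Pool.Agent.H83.Sail

open NumberField NumberField.InfinitePlace NumberField.ComplexEmbedding
open Module Filter Topology

variable {K : Type*} [Field K] [NumberField K] {ι : Type*} [Fintype ι]

/-- Logarithms of units of the multiplier ring, up to the scaling by `exp (x d)`. -/
def LogGroup (b : Basis ι ℚ K) (d : (K →+* ℂ) → ℝ) : AddSubgroup ((K →+* ℂ) → ℂ) where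
  carrier := {X | ∃ g ∈ Stab b, ∃ x : ℝ, ∀ φ : K →+* ℂ,
    Complex.exp (X φ) = φ (g : K) * ((Real.exp (x * d φ) : ℝ) : ℂ)}
  zero_mem' := ⟨1, (Stab b).one_mem, 0, fun φ => by simp⟩
  add_mem' := by
    rintro X Y ⟨g, hg, x, hX⟩ ⟨h, hh, y, hY⟩
    refine ⟨g * h, (Stab b).mul_mem hg hh, x + y, fun φ => ?_⟩
    rw [Pi.add_apply, Complex.exp_add, hX, hY, Units.coe_mul, map_mul, add_mul, Real.exp_add,
      Complex.ofReal_mul]
    ring
  neg_mem' := by
    rintro X ⟨g, hg, x, hX⟩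
    refine ⟨g⁻¹, (Stab b).inv_mem hg, -x, fun φ => ?_⟩
    rw [Pi.neg_apply, Complex.exp_neg, hX, emb_inv, neg_mul, Real.exp_neg, Complex.ofReal_inv,
      mul_inv]

omit [Fintype ι] in
theorem logGroup_sum (d : (K →+* ℂ) → ℝ) (Q : ι → (K →+* ℂ) → ℂ) (e : ι → ℝ)
    (hQd : ∀ i φ, Q i φ ≠ 0 → d φ = e i) {X : (K →+* ℂ) → ℂ} {g : (𝓞 K)ˣ} {x : ℝ}
    (hX : ∀ φ : K →+* ℂ, Complex.exp (X φ) = φ (g : K) * ((Real.exp (x * d φ) : ℝ) : ℂ))
    (i : ι) (α : K) : ∑ φ, Q i φ * Complex.exp (X φ) * φ α =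
      ((Real.exp (x * e i) : ℝ) : ℂ) * ∑ φ, Q i φ * φ ((g : K) * α) := by
  rw [Finset.mul_sum]
  refine Finset.sum_congr rfl (fun φ _ => ?_)
  by_cases h : Q i φ = 0
  · rw [h]; ring
  · rw [hX φ, hQd i φ h, map_mul]; ring

theorem logGroup_closure (b : Basis ι ℚ K) (d : (K →+* ℂ) → ℝ) (Q : ι → (K →+* ℂ) → ℂ)
    (e : ι → ℝ) (he : ∑ i, e i = 0) (hQd : ∀ i φ, Q i φ ≠ 0 → d φ = e i) (c : ℝ)
    (hN : ∀ α ∈ Lat b, α ≠ 0 → c ≤ ∏ i, ‖∑ φ, Q i φ * φ α‖)
    (hR : ∀ i, ∀ α ∈ Lat b, (∑ φ, Q i φ * φ α).im = 0)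
    (X : (K →+* ℂ) → ℂ) (hX : X ∈ (LogGroup b d).topologicalClosure) :
    (∀ α ∈ Lat b, α ≠ 0 → c ≤ ∏ i, ‖∑ φ, Q i φ * Complex.exp (X φ) * φ α‖) ∧
    (∀ i, ∀ α ∈ Lat b, (∑ φ, Q i φ * Complex.exp (X φ) * φ α).im = 0) := by
  have hX' : X ∈ closure (LogGroup b d : Set ((K →+* ℂ) → ℂ)) := hX
  refine ⟨fun α hα hα0 => ?_, fun i α hα => ?_⟩
  · have hcl : IsClosed {X : (K →+* ℂ) → ℂ |
        c ≤ ∏ i, ‖∑ φ, Q i φ * Complex.exp (X φ) * φ α‖} := by
      refine isClosed_le continuous_const ?_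
      fun_prop
    refine closure_minimal ?_ hcl hX'
    rintro Y ⟨g, hg, x, hY⟩
    change c ≤ ∏ i, ‖∑ φ, Q i φ * Complex.exp (Y φ) * φ α‖
    simp_rw [logGroup_sum d Q e hQd hY, norm_mul, Complex.norm_real, Real.norm_eq_abs,
      abs_of_pos (Real.exp_pos _)]
    rw [Finset.prod_mul_distrib, ← Real.exp_sum, ← Finset.mul_sum, he,
      mul_zero, Real.exp_zero, one_mul]
    exact hN _ (hg.1 α hα) (mul_ne_zero (Units.coe_ne_zero _) hα0)
  · have hcl : IsClosed {X : (K →+* ℂ) → ℂ |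
        (∑ φ, Q i φ * Complex.exp (X φ) * φ α).im = 0} := by
      refine isClosed_eq ?_ continuous_const
      refine Complex.continuous_im.comp ?_
      fun_prop
    refine closure_minimal ?_ hcl hX'
    rintro Y ⟨g, hg, x, hY⟩
    change (∑ φ, Q i φ * Complex.exp (Y φ) * φ α).im = 0
    rw [logGroup_sum d Q e hQd hY, Complex.im_ofReal_mul, hR i _ (hg.1 α hα), mul_zero]

theorem lat_int (b : Basis ι ℚ K) (v : ι → ℤ) : ∑ j, v j • b j ∈ Lat b :=
  Submodule.sum_mem _ (fun j _ => Submodule.smul_mem _ _ (Submodule.subset_span ⟨j, rfl⟩))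

theorem sum_int (b : Basis ι ℚ K) (q : (K →+* ℂ) → ℂ) (v : ι → ℤ) :
    ∑ φ, q φ * φ (∑ j, v j • b j) = ∑ j, (v j : ℂ) * ∑ φ, q φ * φ (b j) := by
  simp_rw [map_sum, Finset.mul_sum]
  rw [Finset.sum_comm]
  refine Finset.sum_congr rfl (fun j _ => Finset.sum_congr rfl (fun φ _ => ?_))
  rw [zsmul_eq_mul, map_mul, map_intCast]
  ring

theorem sum_int_re (b : Basis ι ℚ K) (q : (K →+* ℂ) → ℂ) (v : ι → ℤ) :
    (∑ φ, q φ * φ (∑ j, v j • b j)).re = ∑ j, (∑ φ, q φ * φ (b j)).re * v j := by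
  rw [sum_int, Complex.re_sum]
  refine Finset.sum_congr rfl (fun j _ => ?_)
  have : ((v j : ℂ)) = (((v j : ℤ) : ℝ) : ℂ) := by push_cast; rfl
  rw [this, Complex.re_ofReal_mul, mul_comm]

/-- Along a line in the closed logarithm group each row functional stays proportional to
itself. -/
theorem line_prop [Nonempty ι] (b : Basis ι ℚ K) (d : (K →+* ℂ) → ℝ) (Q : ι → (K →+* ℂ) → ℂ)
    (e : ι → ℝ) (he : ∑ i, e i = 0) (hQd : ∀ i φ, Q i φ ≠ 0 → d φ = e i) (c : ℝ) (hc : 0 < c)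
    (hN : ∀ α ∈ Lat b, α ≠ 0 → c ≤ ∏ i, ‖∑ φ, Q i φ * φ α‖)
    (hR : ∀ i, ∀ α ∈ Lat b, (∑ φ, Q i φ * φ α).im = 0)
    (X : (K →+* ℂ) → ℂ) (hX : ∀ s : ℝ, s • X ∈ (LogGroup b d).topologicalClosure) (i : ι) :
    ∃ χ : ℝ, ∀ φ, Q i φ ≠ 0 → Complex.exp (X φ) = χ := by
  classical
  have hcl := fun s : ℝ => logGroup_closure b d Q e he hQd c hN hR (s • X) (hX s)
  have h1X := hcl 1
  rw [one_smul] at h1X
  have hbL : ∀ j, b j ∈ Lat b := fun j => Submodule.subset_span ⟨j, rfl⟩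
  have hrow : ∀ (q : (K →+* ℂ) → ℂ), (∀ α ∈ Lat b, (∑ φ, q φ * φ α).im = 0) →
      (∀ j, (∑ φ, q φ * φ (b j)).re = 0) → q = 0 := by
    intro q hq1 hq2
    refine emb_indep b q (fun j => ?_)
    exact Complex.ext (hq2 j) (hq1 _ (hbL j))
  have ha : (fun j => (∑ φ, Q i φ * φ (b j)).re) ≠ 0 := by
    intro h0
    have h1 : Q i = 0 := hrow (Q i) (hR i) (fun j => congrFun h0 j)
    obtain ⟨j0⟩ := ‹Nonempty ι›
    have h2 := hN (b j0) (hbL j0) (b.ne_zero j0)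
    rw [Finset.prod_eq_zero (Finset.mem_univ i)] at h2
    · linarith
    · rw [h1]; simp
  obtain ⟨χ, -, hχ⟩ := prop_of_sign (fun j => (∑ φ, Q i φ * φ (b j)).re)
    (fun j => (∑ φ, Q i φ * Complex.exp (X φ) * φ (b j)).re) ha (by
      intro v hv
      by_contra hneg
      push Not at hneg
      set α : K := ∑ j, v j • b j with hα
      have hαL : α ∈ Lat b := lat_int b v
      have hα0 : α ≠ 0 := by
        intro h0
        have h1 := sum_int_re b (Q i) v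
        rw [← hα, h0] at h1
        simp only [map_zero, mul_zero, Finset.sum_const_zero, Complex.zero_re] at h1
        linarith
      set f : ℝ → ℝ := fun s => (∑ φ, Q i φ * Complex.exp (s • X φ) * φ α).re with hf
      have hfc : Continuous f := by
        refine Complex.continuous_re.comp ?_
        fun_prop
      have hf0 : 0 < f 0 := by
        have h1 : f 0 = ∑ j, (∑ φ, Q i φ * φ (b j)).re * v j := by
          rw [← sum_int_re b (Q i) v, hf]
          simp only [zero_smul, Complex.exp_zero, mul_one]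
          rfl
        rw [h1]; exact hv
      have hf1 : f 1 < 0 := by
        have h1 : f 1 = ∑ j, (∑ φ, Q i φ * Complex.exp (X φ) * φ (b j)).re * v j := by
          rw [← sum_int_re b (fun φ => Q i φ * Complex.exp (X φ)) v, hf]
          simp only [one_smul]
          rfl
        rw [h1]; exact hneg
      obtain ⟨s, -, hs⟩ := intermediate_value_Icc' (zero_le_one) hfc.continuousOn
        (⟨hf1.le, hf0.le⟩ : (0 : ℝ) ∈ Set.Icc (f 1) (f 0))
      have h2 := (hcl s).1 α hαL hα0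
      have h3 := (hcl s).2 i α hαL
      rw [Finset.prod_eq_zero (Finset.mem_univ i)] at h2
      · linarith
      · rw [norm_eq_zero]
        exact Complex.ext hs h3)
  refine ⟨χ, fun φ hφ => ?_⟩
  have h4 : (fun φ => Q i φ * Complex.exp (X φ) - χ * Q i φ) = 0 := by
    refine emb_indep b _ (fun j => ?_)
    have h5 : ∑ φ, (Q i φ * Complex.exp (X φ) - χ * Q i φ) * φ (b j) =
        ∑ φ, Q i φ * Complex.exp (X φ) * φ (b j) - χ * ∑ φ, Q i φ * φ (b j) := by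
      rw [Finset.mul_sum, ← Finset.sum_sub_distrib]
      refine Finset.sum_congr rfl (fun φ _ => by ring)
    rw [h5]
    have h6 := h1X.2 i (b j) (hbL j)
    have h7 := hR i (b j) (hbL j)
    have h8 := hχ j
    refine Complex.ext ?_ ?_
    · rw [Complex.sub_re, Complex.re_ofReal_mul, h8, sub_self, Complex.zero_re]
    · rw [Complex.sub_im, Complex.im_ofReal_mul, h6, h7, mul_zero, sub_self, Complex.zero_im]
  have h5 := congrFun h4 φ
  simp only [Pi.zero_apply] at h5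
  have h6 : Q i φ * (Complex.exp (X φ) - χ) = 0 := by linear_combination h5
  rcases mul_eq_zero.mp h6 with h | h
  · exact absurd h hφ
  · exact sub_eq_zero.mp h

/-- Part 1: along a ray of units, eventually each row of the leading matrix is supported on
embeddings with one common real value of the unit. -/
theorem block [Nonempty ι] (b : Basis ι ℚ K) (d : (K →+* ℂ) → ℝ) (Q : ι → (K →+* ℂ) → ℂ)
    (e : ι → ℝ) (he : ∑ i, e i = 0) (hQd : ∀ i φ, Q i φ ≠ 0 → d φ = e i) (c : ℝ) (hc : 0 < c)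
    (hN : ∀ α ∈ Lat b, α ≠ 0 → c ≤ ∏ i, ‖∑ φ, Q i φ * φ α‖)
    (hR : ∀ i, ∀ α ∈ Lat b, (∑ φ, Q i φ * φ α).im = 0)
    (u : ℕ → (𝓞 K)ˣ) (T : ℕ → ℕ) (hus : ∀ k, u k ∈ Stab b)
    (hu : ∀ φ : K →+* ℂ, Tendsto (fun k => φ (u k : K) *
      ((Real.exp (-((T k : ℝ) * d φ)) : ℝ) : ℂ)) atTop (𝓝 1)) :
    ∀ᶠ k in atTop, ∀ i, ∃ r : ℝ, ∀ φ, Q i φ ≠ 0 → φ (u k : K) = r := by
  obtain ⟨r, hr, hsmall⟩ := closed_small (LogGroup b d).topologicalClosure
    (AddSubgroup.isClosed_topologicalClosure _)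
  set X : ℕ → (K →+* ℂ) → ℂ := fun k φ =>
    Complex.log (φ (u k : K) * ((Real.exp (-((T k : ℝ) * d φ)) : ℝ) : ℂ)) with hX
  have hX0 : Tendsto X atTop (𝓝 0) := by
    rw [tendsto_pi_nhds]
    intro φ
    have h1 : ContinuousAt Complex.log 1 := continuousAt_clog (by simp)
    have h2 := h1.tendsto.comp (hu φ)
    rw [Complex.log_one] at h2
    exact h2
  have hev : ∀ᶠ k in atTop, ‖X k‖ < r := by
    have h1 := hX0.norm
    rw [norm_zero] at h1
    exact h1.eventually_lt_const hr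
  filter_upwards [hev] with k hk i
  have hne : ∀ φ : K →+* ℂ, φ (u k : K) * ((Real.exp (-((T k : ℝ) * d φ)) : ℝ) : ℂ) ≠ 0 := by
    intro φ
    refine mul_ne_zero ?_ (by exact_mod_cast (Real.exp_pos _).ne')
    rw [Ne, map_eq_zero]
    exact Units.coe_ne_zero _
  have hexp : ∀ φ : K →+* ℂ, Complex.exp (X k φ) =
      φ (u k : K) * ((Real.exp (-((T k : ℝ) * d φ)) : ℝ) : ℂ) := fun φ => Complex.exp_log (hne φ)
  have hmem : X k ∈ (LogGroup b d).topologicalClosure := by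
    refine AddSubgroup.le_topologicalClosure _ ⟨u k, hus k, -(T k : ℝ), fun φ => ?_⟩
    rw [hexp φ, neg_mul]
  obtain ⟨χ, hχ⟩ := line_prop b d Q e he hQd c hc hN hR (X k) (hsmall _ hmem hk) i
  refine ⟨χ * Real.exp ((T k : ℝ) * e i), fun φ hφ => ?_⟩
  have h1 := hχ φ hφ
  rw [hexp φ, hQd i φ hφ] at h1
  have h2 : ((Real.exp (-((T k : ℝ) * e i)) : ℝ) : ℂ) * ((Real.exp ((T k : ℝ) * e i) : ℝ) : ℂ) =
      1 := by
    rw [← Complex.ofReal_mul, ← Real.exp_add, neg_add_cancel, Real.exp_zero, Complex.ofReal_one]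
  rw [Complex.ofReal_mul, ← h1, mul_assoc, h2, mul_one]

end Pool.Agent.H83.Sail
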