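import Mathlib
import Pool.Agent.H83.Sail.Sign
import Pool.Agent.H83.Sail.Limit

namespace Pool.Agent.H83.Sail

open NumberField NumberField.InfinitePlace NumberField.ComplexEmbedding
open Module Filter Topology

variable {K : Type*} [Field K] [NumberField K] {ι : Type*} [Fintype ι]

omit [NumberField K] in
theorem real_val (hreal : ∀ φ : K →+* ℂ, conjugate φ = φ) (φ : K →+* ℂ) (x : K) :
    ((φ x).re : ℂ) = φ x := by
  have h1 := conjugate_coe_eq φ x
  rw [hreal φ] at h1
  exact Complex.conj_eq_iff_re.mp h1.symm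

open scoped Classical in
/-- Part 2: in a totally real field of degree at least three, a form with two nonzero terms in
one row cannot be bounded from below. -/
theorem two_terms (b : Basis ι ℚ K) (hreal : ∀ φ : K →+* ℂ, conjugate φ = φ)
    (φ0 ψ θ : K →+* ℂ) (h0 : θ ≠ φ0) (h1 : θ ≠ ψ) (h01 : ψ ≠ φ0) (A B : ℝ) (hA : A ≠ 0)
    (hB : B ≠ 0) (C : (K →+* ℂ) → ℝ) (hC : ∀ φ, 0 ≤ C φ) (c : ℝ) (hc : 0 < c)
    (hN : ∀ α ∈ Lat b, α ≠ 0 → c ≤ ‖(A : ℂ) * φ0 α + (B : ℂ) * ψ α‖ *
      ∏ φ ∈ Finset.univ.erase φ0, (C φ * ‖φ α‖)) : False := by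
  -- a lattice point with the two terms of opposite signs
  obtain ⟨v, hv1, hv2⟩ : ∃ v : ι → ℤ, 0 < ∑ j, (A * (φ0 (b j)).re) * v j ∧
      ∑ j, (B * (ψ (b j)).re) * v j < 0 := by
    by_contra hcon
    push Not at hcon
    have ha : (fun j => A * (φ0 (b j)).re) ≠ 0 := by
      intro hz
      have h2 : (fun φ => if φ = φ0 then (1 : ℂ) else 0) = 0 := by
        refine emb_indep b _ (fun j => ?_)
        simp only [ite_mul, one_mul, zero_mul, Finset.sum_ite_eq', Finset.mem_univ, if_true]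
        rw [← real_val hreal φ0 (b j)]
        have h3 := congrFun hz j
        simp only [Pi.zero_apply, mul_eq_zero, hA, false_or] at h3
        rw [h3, Complex.ofReal_zero]
      have h3 := congrFun h2 φ0
      simp at h3
    obtain ⟨χ, -, hχ⟩ := prop_of_sign (fun j => A * (φ0 (b j)).re)
      (fun j => B * (ψ (b j)).re) ha hcon
    have h2 : (fun φ => if φ = ψ then (B : ℂ) else if φ = φ0 then -((χ * A : ℝ) : ℂ) else 0) = 0 := by
      refine emb_indep b _ (fun j => ?_)
      have h3 : ∀ φ : K →+* ℂ, (if φ = ψ then (B : ℂ) else if φ = φ0 then -((χ * A : ℝ) : ℂ) else 0)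
          * φ (b j) = (if φ = ψ then (B : ℂ) * φ (b j) else 0) +
            (if φ = φ0 then -((χ * A : ℝ) : ℂ) * φ (b j) else 0) := by
        intro φ
        by_cases h4 : φ = ψ
        · subst h4; simp [h01]
        · simp [h4]
      simp_rw [h3]
      rw [Finset.sum_add_distrib, Finset.sum_ite_eq', Finset.sum_ite_eq',
        if_pos (Finset.mem_univ _), if_pos (Finset.mem_univ _), ← real_val hreal φ0 (b j),
        ← real_val hreal ψ (b j), ← Complex.ofReal_neg, ← Complex.ofReal_mul,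
        ← Complex.ofReal_mul, ← Complex.ofReal_add, ← Complex.ofReal_zero]
      congr 1
      have h5 := hχ j
      linear_combination h5
    have h3 := congrFun h2 ψ
    simp [hB] at h3
  set α : K := ∑ j, v j • b j with hα
  have hαL : α ∈ Lat b := Submodule.sum_mem _ (fun j _ => Submodule.smul_mem _ _
    (Submodule.subset_span ⟨j, rfl⟩))
  have hval : ∀ φ : K →+* ℂ, (φ α).re = ∑ j, (φ (b j)).re * v j := by
    intro φ
    rw [hα, map_sum, Complex.re_sum]
    refine Finset.sum_congr rfl (fun j _ => ?_)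
    rw [zsmul_eq_mul, map_mul, map_intCast]
    have : ((v j : ℂ)) = (((v j : ℤ) : ℝ) : ℂ) := by push_cast; rfl
    rw [this, Complex.re_ofReal_mul, mul_comm]
  set x : ℝ := A * (φ0 α).re with hx
  set y : ℝ := -(B * (ψ α).re) with hy
  have hx0 : 0 < x := by
    rw [hx, hval, Finset.mul_sum]
    simpa only [mul_assoc] using hv1
  have hy0 : 0 < y := by
    rw [hy, hval, Finset.mul_sum, neg_pos]
    simpa only [mul_assoc] using hv2
  have hα0 : α ≠ 0 := by
    intro h
    rw [hx, h, map_zero, Complex.zero_re, mul_zero] at hx0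
    exact lt_irrefl _ hx0
  set D : ℝ := ∏ φ ∈ Finset.univ.erase φ0, (C φ * ‖φ α‖) with hD
  have hD0 : 0 ≤ D := Finset.prod_nonneg (fun φ _ => mul_nonneg (hC φ) (norm_nonneg _))
  have hne : ∀ (u : (𝓞 K)ˣ) (φ : K →+* ℂ), φ (u : K) ≠ 0 := by
    intro u φ
    rw [Ne, map_eq_zero]
    exact Units.coe_ne_zero u
  -- the ratio of the two conjugates of a unit
  set ρ : (𝓞 K)ˣ → ℝ := fun g => (ψ (g : K)).re / (φ0 (g : K)).re with hρ
  have hrene : ∀ (u : (𝓞 K)ˣ) (φ : K →+* ℂ), (φ (u : K)).re ≠ 0 := by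
    intro u φ h
    apply hne u φ
    rw [← real_val hreal φ, h, Complex.ofReal_zero]
  have hkey : ∀ g ∈ Stab b, c ≤ |x - ρ g * y| * D := by
    intro g hg
    have h2 := hN _ (hg.1 α hαL) (mul_ne_zero (Units.coe_ne_zero g) hα0)
    have h3 : (A : ℂ) * φ0 ((g : K) * α) + (B : ℂ) * ψ ((g : K) * α) =
        ((φ0 (g : K)).re : ℂ) * ((x - ρ g * y : ℝ) : ℂ) := by
      rw [map_mul, map_mul, ← real_val hreal φ0 α, ← real_val hreal φ0 (g : K),
        ← real_val hreal ψ α, ← real_val hreal ψ (g : K)]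
      rw [Complex.ofReal_re, ← Complex.ofReal_mul, ← Complex.ofReal_mul, ← Complex.ofReal_mul,
        ← Complex.ofReal_mul, ← Complex.ofReal_add, ← Complex.ofReal_mul]
      congr 1
      rw [hx, hy, hρ]
      have h4 := hrene g φ0
      field_simp
      ring
    rw [h3, norm_mul, Complex.norm_real, Complex.norm_real, Real.norm_eq_abs,
      Real.norm_eq_abs] at h2
    have h5 : ∏ φ ∈ Finset.univ.erase φ0, (C φ * ‖φ ((g : K) * α)‖) =
        (∏ φ ∈ Finset.univ.erase φ0, ‖φ (g : K)‖) * D := by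
      rw [hD, ← Finset.prod_mul_distrib]
      refine Finset.prod_congr rfl (fun φ _ => ?_)
      rw [map_mul, norm_mul]; ring
    have h6 : ‖φ0 (g : K)‖ * ∏ φ ∈ Finset.univ.erase φ0, ‖φ (g : K)‖ = 1 := by
      rw [Finset.mul_prod_erase Finset.univ (fun φ : K →+* ℂ => ‖φ (g : K)‖) (Finset.mem_univ φ0)]
      exact prod_emb_unit g
    have h7 : ‖φ0 (g : K)‖ = |(φ0 (g : K)).re| := by
      conv_lhs => rw [← real_val hreal φ0 (g : K)]
      rw [Complex.norm_real, Real.norm_eq_abs]
    rw [h5] at h2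
    calc c ≤ _ := h2
      _ = (‖φ0 (g : K)‖ * ∏ φ ∈ Finset.univ.erase φ0, ‖φ (g : K)‖) *
          (|x - ρ g * y| * D) := by rw [h7]; ring
      _ = |x - ρ g * y| * D := by rw [h6, one_mul]
  -- units with ratio close to one
  set n : ℝ := ((Fintype.card (K →+* ℂ) : ℕ) : ℝ) with hn
  set d : (K →+* ℂ) → ℝ := fun φ => if φ = θ then n - 1 else -1 with hd
  have hsum : ∑ φ, d φ = 0 := by
    have h2 : ∀ φ, d φ = (if φ = θ then n else 0) - 1 := by
      intro φ
      rw [hd]
      by_cases h : φ = θ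
      · simp [h]
      · simp [h]
    simp_rw [h2]
    rw [Finset.sum_sub_distrib, Finset.sum_ite_eq', if_pos (Finset.mem_univ _), Finset.sum_const,
      Finset.card_univ, nsmul_eq_mul, mul_one, sub_self]
  obtain ⟨u, T, hus, hT, hu⟩ := exists_ray b d (fun φ => by rw [hreal φ]) hsum
  have hu0 := hu φ0
  have hu1 := hu ψ
  have hd0 : d φ0 = -1 := by rw [hd]; simp [h0.symm]
  have hd1 : d ψ = -1 := by rw [hd]; simp [h1.symm]
  have hratio : Tendsto (fun k => ρ (u k)) atTop (𝓝 1) := by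
    have h2 := hu1.div hu0 one_ne_zero
    rw [div_one] at h2
    have h3 := (Complex.continuous_re.tendsto _).comp h2
    rw [Complex.one_re] at h3
    refine h3.congr (fun k => ?_)
    simp only [Function.comp, Pi.div_apply]
    rw [hd0, hd1, hρ]
    simp only
    rw [mul_div_mul_right]
    · conv_lhs => rw [← real_val hreal φ0, ← real_val hreal ψ, ← Complex.ofReal_div,
        Complex.ofReal_re]
    · exact_mod_cast (Real.exp_pos _).ne'
  have hne1 : ∀ᶠ k in atTop, ρ (u k) ≠ 1 := by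
    have h2 : ∀ φ : K →+* ℂ, φ ≠ θ → ∀ᶠ k in atTop, ‖φ (u k : K)‖ < 1 := by
      intro φ hφ
      have h3 : d φ = -1 := by rw [hd]; simp [hφ]
      have h4 := (hu φ).norm
      rw [norm_one] at h4
      have h5 := h4.eventually_lt_const (by norm_num : (1 : ℝ) < 2)
      have h6 := hT.eventually_ge_atTop 1
      filter_upwards [h5, h6] with k hk hk1
      rw [h3, norm_mul, Complex.norm_real, Real.norm_eq_abs, abs_of_pos (Real.exp_pos _)] at hk
      have h7 : (2 : ℝ) ≤ Real.exp (-((T k : ℝ) * -1)) := by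
        have h8 : (1 : ℝ) ≤ (T k : ℝ) := by exact_mod_cast hk1
        have h9 := Real.add_one_le_exp (-((T k : ℝ) * -1))
        linarith
      nlinarith [norm_nonneg (φ (u k : K))]
    have h3 : ∀ᶠ k in atTop, ∀ φ : K →+* ℂ, φ ≠ θ → ‖φ (u k : K)‖ < 1 := by
      rw [eventually_all]
      intro φ
      by_cases hφ : φ = θ
      · exact Eventually.of_forall (fun k h => absurd hφ h)
      · filter_upwards [h2 φ hφ] with k hk _ using hk
    filter_upwards [h3] with k hk h4
    have h5 := primitive_of_real (hreal θ) hk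
    have h6 : ψ (u k : K) = φ0 (u k : K) := by
      rw [← real_val hreal ψ, ← real_val hreal φ0]
      rw [hρ] at h4
      simp only at h4
      rw [div_eq_one_iff_eq (hrene _ _)] at h4
      rw [h4]
    exact h01 (inj_of_primitive h5 _ _ h6)
  have hpos : ∀ᶠ k in atTop, 0 < ρ (u k) := hratio.eventually_const_lt (by norm_num)
  -- powers of the ratio approximate the target
  have hfin : ∀ᶠ k in atTop, c ≤ x * (max (ρ (u k)) (ρ (u k))⁻¹ - 1) * D := by
    have hρpow : ∀ (g : (𝓞 K)ˣ) (m : ℤ), ρ (g ^ m) = ρ g ^ m := by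
      intro g m
      rw [hρ]
      simp only
      have h2 : ∀ φ : K →+* ℂ, (φ ((g ^ m : (𝓞 K)ˣ) : K)).re = (φ (g : K)).re ^ m := by
        intro φ
        have h3 : (((φ (g : K)).re ^ m : ℝ) : ℂ) = φ ((g ^ m : (𝓞 K)ˣ) : K) := by
          rw [Units.coe_zpow, map_zpow₀, Complex.ofReal_zpow, real_val hreal φ]
        rw [← h3, Complex.ofReal_re]
      rw [h2, h2, div_zpow]
    filter_upwards [hne1, hpos] with k hk1 hk0
    have hmain : ∀ g ∈ Stab b, 1 < ρ g → c ≤ x * (ρ g - 1) * D := by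
      intro g hg hg1
      obtain ⟨m, hm1, hm2⟩ := exists_mem_Ico_zpow (div_pos hx0 hy0) hg1
      have h2 := hkey (g ^ m) ((Stab b).zpow_mem hg m)
      rw [hρpow] at h2
      have h3 : 0 ≤ x - ρ g ^ m * y := by
        rw [le_div_iff₀ hy0] at hm1
        linarith
      rw [abs_of_nonneg h3] at h2
      refine h2.trans (mul_le_mul_of_nonneg_right ?_ hD0)
      rw [zpow_add_one₀ (by linarith), div_lt_iff₀ hy0] at hm2
      rw [le_div_iff₀ hy0] at hm1
      nlinarith
    rcases lt_or_gt_of_ne hk1 with h | h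
    · have h2 : 1 < (ρ (u k))⁻¹ := (one_lt_inv₀ hk0).mpr h
      rw [max_eq_right (h.le.trans h2.le)]
      have h3 := hmain (u k ^ (-1 : ℤ)) ((Stab b).zpow_mem (hus k) _) (by
        rw [hρpow, zpow_neg_one]; exact h2)
      rwa [hρpow, zpow_neg_one] at h3
    · have h2 : (ρ (u k))⁻¹ ≤ ρ (u k) := ((inv_lt_one₀ hk0).mpr h).le.trans h.le
      rw [max_eq_left h2]
      exact hmain (u k) (hus k) h
  have hlim : Tendsto (fun k => x * (max (ρ (u k)) (ρ (u k))⁻¹ - 1) * D) atTop (𝓝 0) := by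
    have h2 := hratio.max (hratio.inv₀ one_ne_zero)
    rw [inv_one, max_self] at h2
    have h3 := ((h2.sub_const 1).const_mul x).mul_const D
    simpa using h3
  have := ge_of_tendsto hlim hfin
  linarith

end Pool.Agent.H83.Sail
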