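import Mathlib
import Pool.Agent.H83.Sail.Embed

namespace Pool.Agent.H83.Sail

open NumberField NumberField.InfinitePlace NumberField.ComplexEmbedding
open Module Filter Topology

variable {K : Type*} [Field K] [NumberField K]

open scoped Classical in
/-- The number of extensions of an embedding of a subfield. -/
theorem fibre_card (F : IntermediateField ℚ K) (ψ : F →+* ℂ) :
    (Finset.univ.filter (fun φ : K →+* ℂ => φ.comp (algebraMap F K) = ψ)).card = finrank F K := by
  let _ : Algebra F ℂ := ψ.toAlgebra
  have h1 : Fintype.card (K →ₐ[F] ℂ) = finrank F K := AlgHom.card F K ℂ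
  rw [← h1, ← Fintype.card_subtype]
  refine Fintype.card_congr ?_
  exact
    { toFun := fun φ => { φ.1 with commutes' := fun x => RingHom.congr_fun φ.2 x }
      invFun := fun f => ⟨f.toRingHom, by
        ext x
        exact f.commutes x⟩
      left_inv := fun φ => rfl
      right_inv := fun f => rfl }

open scoped Classical in
open scoped IntermediateField in
/-- An element whose conjugates separate a set of embeddings of size prime to the degree from
its complement is primitive. -/
theorem primitive_of_coprime (Φ : Finset (K →+* ℂ)) (hco : Φ.card.Coprime (finrank ℚ K)) {x : K}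
    (hx : ∀ φ ∈ Φ, ∀ ψ, ψ ∉ Φ → φ x ≠ ψ x) : ℚ⟮x⟯ = ⊤ := by
  set F := ℚ⟮x⟯ with hF
  have h1 : finrank F K ∣ finrank ℚ K := ⟨finrank ℚ F, by
    rw [mul_comm]; exact (Module.finrank_mul_finrank ℚ F K).symm⟩
  have h2 : finrank F K ∣ Φ.card := by
    have h3 : Φ.card = ∑ ψ : F →+* ℂ, (Φ.filter (fun φ => φ.comp (algebraMap F K) = ψ)).card :=
      Finset.card_eq_sum_card_fiberwise (fun _ _ => Finset.mem_univ _)
    rw [h3]
    refine Finset.dvd_sum (fun ψ _ => ?_)
    by_cases h4 : ∃ φ0 ∈ Φ, φ0.comp (algebraMap F K) = ψ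
    · obtain ⟨φ0, hφ0, hψ⟩ := h4
      have h5 : Φ.filter (fun φ => φ.comp (algebraMap F K) = ψ) =
          Finset.univ.filter (fun φ : K →+* ℂ => φ.comp (algebraMap F K) = ψ) := by
        ext φ
        simp only [Finset.mem_filter, Finset.mem_univ, true_and, and_iff_right_iff_imp]
        intro h6
        by_contra h7
        refine hx φ0 hφ0 φ h7 ?_
        have h8 : φ0.comp (algebraMap F K) = φ.comp (algebraMap F K) := by rw [hψ, h6]
        have h9 := RingHom.congr_fun h8 (IntermediateField.AdjoinSimple.gen ℚ x)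
        simpa using h9
      rw [h5, fibre_card]
    · have h5 : Φ.filter (fun φ => φ.comp (algebraMap F K) = ψ) = ∅ := by
        rw [Finset.filter_eq_empty_iff]
        intro φ hφ h6
        exact h4 ⟨φ, hφ, h6⟩
      rw [h5]
      simp
  have h3 : finrank F K = 1 := Nat.dvd_one.mp (hco ▸ Nat.dvd_gcd h2 h1)
  exact IntermediateField.finrank_eq_one_iff_eq_top.mp h3

end Pool.Agent.H83.Sail
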