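import Mathlib
import Pool.Agent.H83.Sail.Block
import Pool.Agent.H83.Sail.Dense
import Pool.Agent.H83.Sail.Fibre

namespace Pool.Agent.H83.Sail

open NumberField NumberField.InfinitePlace NumberField.ComplexEmbedding
open Module Filter Topology

variable {K : Type*} [Field K] [NumberField K] {ι : Type*} [Fintype ι]

/-- Leibniz formula: a nonsingular matrix has a nonvanishing generalised diagonal. -/
theorem exists_match [DecidableEq ι] {κ : Type*} (ρ : ι ≃ κ) (P : ι → κ → ℂ)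
    (hdet : Matrix.det (Matrix.of fun i j => P i (ρ j)) ≠ 0) : ∃ π : ι ≃ κ, ∀ i, P i (π i) ≠ 0 := by
  rw [Matrix.det_apply] at hdet
  obtain ⟨σ, -, hσ⟩ := Finset.exists_ne_zero_of_sum_ne_zero hdet
  have h1 : ∏ i, Matrix.of (fun i j => P i (ρ j)) (σ i) i ≠ 0 := by
    intro h0
    rw [h0, smul_zero] at hσ
    exact hσ rfl
  rw [Finset.prod_ne_zero_iff] at h1
  refine ⟨σ.symm.trans ρ, fun i => ?_⟩
  have h2 := h1 (σ.symm i) (Finset.mem_univ _)
  rw [Equiv.apply_symm_apply] at h2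
  exact h2

/-- The ray direction that is large on `Φ` and small elsewhere. -/
theorem two_level_sum {κ : Type*} [Fintype κ] [DecidableEq κ] (Φ : Finset κ) :
    ∑ φ, (if φ ∈ Φ then ((Fintype.card κ : ℕ) : ℝ) - (Φ.card : ℝ) else -(Φ.card : ℝ)) = 0 := by
  have h1 : ∀ φ : κ, (if φ ∈ Φ then ((Fintype.card κ : ℕ) : ℝ) - (Φ.card : ℝ)
      else -(Φ.card : ℝ)) = (if φ ∈ Φ then ((Fintype.card κ : ℕ) : ℝ) else 0) - Φ.card := by
    intro φ
    by_cases h : φ ∈ Φ
    · simp [h]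
    · simp [h]
  simp_rw [h1]
  rw [Finset.sum_sub_distrib, Finset.sum_const, Finset.card_univ, Finset.sum_ite_mem,
    Finset.univ_inter, Finset.sum_const, nsmul_eq_mul, nsmul_eq_mul]
  ring

/-- Units near the ray separate `Φ` from its complement. -/
theorem ray_separates (Φ : Finset (K →+* ℂ)) (d : (K →+* ℂ) → ℝ)
    (hd1 : ∀ φ ∈ Φ, 1 ≤ d φ) (hd2 : ∀ φ, φ ∉ Φ → d φ ≤ -1)
    (u : ℕ → (𝓞 K)ˣ) (T : ℕ → ℕ) (hT : Tendsto T atTop atTop)
    (hu : ∀ φ : K →+* ℂ, Tendsto (fun k => φ (u k : K) *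
      ((Real.exp (-((T k : ℝ) * d φ)) : ℝ) : ℂ)) atTop (𝓝 1)) :
    ∀ᶠ k in atTop, ∀ φ ∈ Φ, ∀ ψ, ψ ∉ Φ → φ (u k : K) ≠ ψ (u k : K) := by
  have hlarge : ∀ᶠ k in atTop, ∀ φ ∈ Φ, 1 < ‖φ (u k : K)‖ := by
    rw [eventually_all_finset]
    intro φ hφ
    have h4 := (hu φ).norm
    rw [norm_one] at h4
    have h5 := h4.eventually_const_lt (by norm_num : (1 / 2 : ℝ) < 1)
    have h6 := hT.eventually_ge_atTop 1
    filter_upwards [h5, h6] with k hk hk1
    rw [norm_mul, Complex.norm_real, Real.norm_eq_abs, abs_of_pos (Real.exp_pos _)] at hk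
    have h7 : (2 : ℝ) ≤ Real.exp ((T k : ℝ) * d φ) := by
      have h8 : (1 : ℝ) ≤ (T k : ℝ) := by exact_mod_cast hk1
      have h9 := Real.add_one_le_exp ((T k : ℝ) * d φ)
      have h10 := hd1 φ hφ
      nlinarith
    rw [Real.exp_neg] at hk
    have h8 : (0 : ℝ) < Real.exp ((T k : ℝ) * d φ) := Real.exp_pos _
    rw [← div_eq_mul_inv, lt_div_iff₀ h8] at hk
    linarith
  have hsmall : ∀ᶠ k in atTop, ∀ φ, φ ∉ Φ → ‖φ (u k : K)‖ < 1 := by
    rw [eventually_all]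
    intro φ
    by_cases hφ : φ ∈ Φ
    · exact Eventually.of_forall (fun k h => absurd hφ h)
    have h4 := (hu φ).norm
    rw [norm_one] at h4
    have h5 := h4.eventually_lt_const (by norm_num : (1 : ℝ) < 2)
    have h6 := hT.eventually_ge_atTop 1
    filter_upwards [h5, h6] with k hk hk1 _
    rw [norm_mul, Complex.norm_real, Real.norm_eq_abs, abs_of_pos (Real.exp_pos _)] at hk
    have h7 : (2 : ℝ) ≤ Real.exp (-((T k : ℝ) * d φ)) := by
      have h8 : (1 : ℝ) ≤ (T k : ℝ) := by exact_mod_cast hk1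
      have h9 := Real.add_one_le_exp (-((T k : ℝ) * d φ))
      have h10 := hd2 φ hφ
      nlinarith
    nlinarith [norm_nonneg (φ (u k : K))]
  filter_upwards [hlarge, hsmall] with k hk1 hk2 φ hφ ψ hψ heq
  have h1 := hk1 φ hφ
  have h2 := hk2 ψ hψ
  rw [heq] at h1
  linarith

open scoped Classical in
open scoped IntermediateField in
/-- First step: the leading matrix is monomial and the field is totally real. -/
theorem core_one [Nonempty ι] (b : Basis ι ℚ K) (P : ι → (K →+* ℂ) → ℂ) (c : ℝ) (hc : 0 < c)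
    (hN : ∀ α ∈ Lat b, α ≠ 0 → c ≤ ∏ i, ‖∑ φ, P i φ * φ α‖)
    (hR : ∀ i, ∀ α ∈ Lat b, (∑ φ, P i φ * φ α).im = 0)
    (π : ι ≃ (K →+* ℂ)) (hπ : ∀ i, P i (π i) ≠ 0)
    (I : Finset ι) (Φ : Finset (K →+* ℂ)) (hΦc : ∀ φ, conjugate φ ∈ Φ ↔ φ ∈ Φ)
    (hcard : Φ.card = I.card) (hI0 : I.Nonempty) (hI1 : I.card < Fintype.card ι)
    (hπI : ∀ i, π i ∈ Φ ↔ i ∈ I)
    (hz : ∀ i, i ∉ I → ∀ φ ∈ Φ, P i φ = 0)
    (hprim : ∀ x : K, (∀ φ ∈ Φ, ∀ ψ, ψ ∉ Φ → φ x ≠ ψ x) → ℚ⟮x⟯ = ⊤) :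
    (∀ φ : K →+* ℂ, conjugate φ = φ) ∧
      (∀ i φ, P i φ ≠ 0 → φ ≠ π i → i ∈ I ∧ φ ∉ Φ) ∧
      ∃ u ∈ Stab b, ℚ⟮(u : K)⟯ = ⊤ ∧ ∀ φ : K →+* ℂ, 0 < (φ (u : K)).re := by
  have hn : Fintype.card (K →+* ℂ) = Fintype.card ι := (Fintype.card_congr π).symm
  have hΦ0 : Φ.Nonempty := by
    rw [← Finset.card_pos, hcard]; exact Finset.card_pos.mpr hI0
  have hk1 : (1 : ℝ) ≤ (Φ.card : ℝ) := by
    have := Finset.card_pos.mpr hΦ0
    exact_mod_cast this
  have hk2 : (Φ.card : ℝ) + 1 ≤ ((Fintype.card (K →+* ℂ) : ℕ) : ℝ) := by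
    rw [hn, hcard]
    exact_mod_cast hI1
  set d : (K →+* ℂ) → ℝ := fun φ => if φ ∈ Φ then
    ((Fintype.card (K →+* ℂ) : ℕ) : ℝ) - (Φ.card : ℝ) else -(Φ.card : ℝ) with hd
  have hsum : ∑ φ, d φ = 0 := two_level_sum Φ
  have hconj : ∀ φ, d (conjugate φ) = d φ := by
    intro φ
    simp only [hd, hΦc]
  set e : ι → ℝ := fun i => d (π i) with he
  have hesum : ∑ i, e i = 0 := by
    rw [← hsum]
    exact Equiv.sum_comp π d
  have hdin : ∀ φ ∈ Φ, d φ = ((Fintype.card (K →+* ℂ) : ℕ) : ℝ) - (Φ.card : ℝ) := by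
    intro φ h; rw [hd]; simp [h]
  have hdout : ∀ φ, φ ∉ Φ → d φ = -(Φ.card : ℝ) := by
    intro φ h; rw [hd]; simp [h]
  have hle : ∀ i φ, P i φ ≠ 0 → d φ ≤ e i := by
    intro i φ hP
    by_cases hi : i ∈ I
    · rw [he]
      simp only
      rw [hdin _ ((hπI i).mpr hi)]
      by_cases hφ : φ ∈ Φ
      · rw [hdin _ hφ]
      · rw [hdout _ hφ]; linarith
    · have hφ : φ ∉ Φ := fun h => hP (hz i hi φ h)
      rw [he]
      simp only
      rw [hdout _ (fun h => hi ((hπI i).mp h)), hdout _ hφ]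
  obtain ⟨hQN, hQR⟩ := limit_forms b P d hconj hsum e hesum hle c hN hR
  obtain ⟨u, T, hus, hT, hu⟩ := exists_ray b d hconj hsum
  have hblock := block b d (fun i φ => if d φ = e i then P i φ else 0) e hesum
    (fun i φ h => by
      by_contra h1
      exact h (if_neg h1)) c hc hQN hQR u T hus hu
  have hsep := ray_separates Φ d
    (fun φ h => by rw [hdin φ h]; linarith) (fun φ h => by rw [hdout φ h]; linarith) u T hT hu
  have hinj : ∀ᶠ k in atTop, ℚ⟮(u k : K)⟯ = ⊤ := by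
    filter_upwards [hsep] with k hk using hprim _ hk
  have hpos : ∀ᶠ k in atTop, ∀ φ : K →+* ℂ, 0 < (φ (u k : K) *
      ((Real.exp (-((T k : ℝ) * d φ)) : ℝ) : ℂ)).re := by
    rw [eventually_all]
    intro φ
    have h1 := (Complex.continuous_re.tendsto _).comp (hu φ)
    rw [Complex.one_re] at h1
    exact h1.eventually_const_lt (by norm_num)
  obtain ⟨k, hk1, hkp, hk3⟩ := (hblock.and (hinj.and hpos)).exists
  have hk2 : ∀ φ ψ : K →+* ℂ, φ (u k : K) = ψ (u k : K) → φ = ψ :=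
    fun φ ψ h => inj_of_primitive hkp φ ψ h
  have hQπ : ∀ i, (if d (π i) = e i then P i (π i) else 0) ≠ 0 := by
    intro i
    rw [if_pos rfl]
    exact hπ i
  have hsupp : ∀ i φ, (if d φ = e i then P i φ else 0) ≠ 0 → φ = π i := by
    intro i φ h
    obtain ⟨r, hr⟩ := hk1 i
    exact hk2 _ _ ((hr φ h).trans (hr _ (hQπ i)).symm)
  refine ⟨?_, ?_, u k, hus k, hkp, ?_⟩
  · intro φ
    obtain ⟨i, rfl⟩ := π.surjective φ
    obtain ⟨r, hr⟩ := hk1 i
    apply hk2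
    rw [conjugate_coe_eq, hr _ (hQπ i), Complex.conj_ofReal]
  · intro i φ hP hφ
    have h1 : d φ ≠ e i := by
      intro h1
      exact hφ (hsupp i φ (by rw [if_pos h1]; exact hP))
    have hi : i ∈ I := by
      by_contra hi
      have hφ : φ ∉ Φ := fun h => hP (hz i hi φ h)
      apply h1
      rw [he]
      simp only
      rw [hdout _ (fun h => hi ((hπI i).mp h)), hdout _ hφ]
    refine ⟨hi, fun hφ2 => h1 ?_⟩
    rw [he]
    simp only
    rw [hdin _ ((hπI i).mpr hi), hdin _ hφ2]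
  · intro φ
    have h1 := hk3 φ
    rw [mul_comm, Complex.re_ofReal_mul] at h1
    exact (mul_pos_iff_of_pos_left (Real.exp_pos _)).mp h1

/-- The second direction, level `x` at `φ0` and `ψ`, one more on the rest of `Φ`, one less on
the rest of the complement. -/
theorem three_level_sum {κ : Type*} [Fintype κ] [DecidableEq κ] (Φ : Finset κ) (φ0 ψ : κ)
    (h0 : φ0 ∈ Φ) (h1 : ψ ∉ Φ) (x : ℝ)
    (hx : ((Fintype.card κ : ℕ) : ℝ) * x = ((Fintype.card κ : ℕ) : ℝ) - 2 * (Φ.card : ℝ)) :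
    ∑ φ, (if φ = φ0 ∨ φ = ψ then x else if φ ∈ Φ then x + 1 else x - 1) = 0 := by
  have h2 : ∀ φ : κ, (if φ = φ0 ∨ φ = ψ then x else if φ ∈ Φ then x + 1 else x - 1) =
      (x - 1) + (if φ ∈ Φ then (2 : ℝ) else 0) - (if φ = φ0 then (1 : ℝ) else 0) +
        (if φ = ψ then (1 : ℝ) else 0) := by
    intro φ
    by_cases ha : φ = φ0
    · subst ha
      have hb : φ ≠ ψ := fun h => h1 (h ▸ h0)
      simp only [true_or, if_true, h0, hb, if_false]
      ring
    · by_cases hb : φ = ψ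
      · subst hb
        simp only [or_true, if_true, h1, ha, if_false]
        ring
      · by_cases hc : φ ∈ Φ
        · simp only [ha, hb, hc, or_self, if_false, if_true]; ring
        · simp only [ha, hb, hc, or_self, if_false]; ring
  simp_rw [h2]
  rw [Finset.sum_add_distrib, Finset.sum_sub_distrib, Finset.sum_add_distrib, Finset.sum_const,
    Finset.card_univ, Finset.sum_ite_mem, Finset.univ_inter, Finset.sum_const,
    Finset.sum_ite_eq', Finset.sum_ite_eq', if_pos (Finset.mem_univ _),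
    if_pos (Finset.mem_univ _), nsmul_eq_mul, nsmul_eq_mul]
  linarith

/-- In a totally real field the coefficients of a real form are real. -/
theorem coeff_real (b : Basis ι ℚ K) (hreal : ∀ φ : K →+* ℂ, conjugate φ = φ)
    (q : (K →+* ℂ) → ℂ) (hq : ∀ j, (∑ φ, q φ * φ (b j)).im = 0) (φ : K →+* ℂ) :
    (((q φ).re : ℝ) : ℂ) = q φ := by
  have h1 : (fun φ => (starRingEnd ℂ) (q φ) - q φ) = 0 := by
    refine emb_indep b _ (fun j => ?_)
    simp_rw [sub_mul]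
    rw [Finset.sum_sub_distrib, sub_eq_zero]
    have h2 : ∑ φ : K →+* ℂ, (starRingEnd ℂ) (q φ) * φ (b j) =
        (starRingEnd ℂ) (∑ φ, q φ * φ (b j)) := by
      rw [map_sum]
      refine Finset.sum_congr rfl (fun φ _ => ?_)
      rw [map_mul, ← real_val hreal φ (b j), Complex.conj_ofReal]
    rw [h2]
    exact Complex.conj_eq_iff_im.mpr (hq j)
  have h2 := congrFun h1 φ
  simp only [Pi.zero_apply, sub_eq_zero] at h2
  exact Complex.conj_eq_iff_re.mp h2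

open scoped Classical in
/-- Second step: the matrix itself is monomial. -/
theorem core_two [Nonempty ι] (b : Basis ι ℚ K) (hn3 : 3 ≤ Fintype.card ι)
    (P : ι → (K →+* ℂ) → ℂ) (c : ℝ) (hc : 0 < c)
    (hN : ∀ α ∈ Lat b, α ≠ 0 → c ≤ ∏ i, ‖∑ φ, P i φ * φ α‖)
    (hR : ∀ i, ∀ α ∈ Lat b, (∑ φ, P i φ * φ α).im = 0)
    (π : ι ≃ (K →+* ℂ)) (hπ : ∀ i, P i (π i) ≠ 0)
    (I : Finset ι) (Φ : Finset (K →+* ℂ))
    (hπI : ∀ i, π i ∈ Φ ↔ i ∈ I) (hreal : ∀ φ : K →+* ℂ, conjugate φ = φ)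
    (hP1 : ∀ i φ, P i φ ≠ 0 → φ ≠ π i → i ∈ I ∧ φ ∉ Φ) (i : ι) (φ : K →+* ℂ)
    (hP : P i φ ≠ 0) : φ = π i := by
  by_contra hne
  rename' i => i0, φ => ψ
  obtain ⟨hi0, hψ⟩ := hP1 i0 ψ hP hne
  have hn : Fintype.card (K →+* ℂ) = Fintype.card ι := (Fintype.card_congr π).symm
  have hn0 : (0 : ℝ) < ((Fintype.card (K →+* ℂ) : ℕ) : ℝ) := by
    rw [hn]
    have : 0 < Fintype.card ι := by omega
    exact_mod_cast this
  set φ0 := π i0 with hφ0
  have hφ0Φ : φ0 ∈ Φ := (hπI i0).mpr hi0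
  obtain ⟨x, hx⟩ : ∃ x : ℝ, ((Fintype.card (K →+* ℂ) : ℕ) : ℝ) * x =
      ((Fintype.card (K →+* ℂ) : ℕ) : ℝ) - 2 * (Φ.card : ℝ) :=
    ⟨(((Fintype.card (K →+* ℂ) : ℕ) : ℝ) - 2 * (Φ.card : ℝ)) /
      ((Fintype.card (K →+* ℂ) : ℕ) : ℝ), by field_simp⟩
  set d : (K →+* ℂ) → ℝ := fun φ => if φ = φ0 ∨ φ = ψ then x else if φ ∈ Φ then x + 1
    else x - 1 with hd
  have hsum : ∑ φ, d φ = 0 := three_level_sum Φ φ0 ψ hφ0Φ hψ x hx
  set e : ι → ℝ := fun i => d (π i) with he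
  have hesum : ∑ i, e i = 0 := by
    rw [← hsum]
    exact Equiv.sum_comp π d
  have hd0 : d φ0 = x := by rw [hd]; simp
  have hdψ : d ψ = x := by rw [hd]; simp
  have hdin : ∀ φ ∈ Φ, φ ≠ φ0 → d φ = x + 1 := by
    intro φ h h1
    have h2 : φ ≠ ψ := fun h3 => hψ (h3 ▸ h)
    rw [hd]; simp [h, h1, h2]
  have hdout : ∀ φ, φ ∉ Φ → φ ≠ ψ → d φ = x - 1 := by
    intro φ h h1
    have h2 : φ ≠ φ0 := fun h3 => h (h3 ▸ hφ0Φ)
    rw [hd]; simp [h, h1, h2]
  have hle : ∀ i φ, P i φ ≠ 0 → d φ ≤ e i := by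
    intro i φ hPi
    by_cases h : φ = π i
    · rw [h]
    obtain ⟨hi, hφ⟩ := hP1 i φ hPi h
    have h1 : d φ ≤ x := by
      by_cases h2 : φ = ψ
      · rw [h2, hdψ]
      · rw [hdout φ hφ h2]; linarith
    have h2 : x ≤ e i := by
      rw [he]
      simp only
      by_cases h3 : π i = φ0
      · rw [h3, hd0]
      · rw [hdin _ ((hπI i).mpr hi) h3]; linarith
    exact h1.trans h2
  obtain ⟨hQN, hQR⟩ := limit_forms b P d (fun φ => by rw [hreal φ]) hsum e hesum hle c hN hR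
  -- the surviving entries
  have hsurv : ∀ i φ, φ ≠ π i → (i = i0 → φ ≠ ψ) → (if d φ = e i then P i φ else 0) = 0 := by
    intro i φ h1 h2
    by_contra h3
    have h4 : d φ = e i := by
      by_contra h5
      exact h3 (if_neg h5)
    rw [if_pos h4] at h3
    obtain ⟨hi, hφ⟩ := hP1 i φ h3 h1
    have h5 : x ≤ e i := by
      rw [he]
      simp only
      by_cases h3 : π i = φ0
      · rw [h3, hd0]
      · rw [hdin _ ((hπI i).mpr hi) h3]; linarith
    have h6 : φ = ψ := by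
      by_contra h6
      rw [hdout φ hφ h6] at h4
      linarith
    have h7 : i = i0 := by
      by_contra h7
      have h8 : π i ≠ φ0 := fun h9 => h7 (π.injective h9)
      have h9 : e i = x + 1 := hdin _ ((hπI i).mpr hi) h8
      rw [h6, hdψ, h9] at h4
      linarith
    exact h2 h7 h6
  -- the surviving forms
  have hrow : ∀ i, i ≠ i0 → ∀ α : K, ∑ φ, (if d φ = e i then P i φ else 0) * φ α =
      P i (π i) * (π i) α := by
    intro i hi α
    rw [Finset.sum_eq_single (π i)]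
    · rw [if_pos rfl]
    · intro φ _ hφ
      rw [hsurv i φ hφ (fun h => absurd h hi), zero_mul]
    · intro h; exact absurd (Finset.mem_univ _) h
  have hrow0 : ∀ α : K, ∑ φ, (if d φ = e i0 then P i0 φ else 0) * φ α =
      P i0 φ0 * φ0 α + P i0 ψ * ψ α := by
    intro α
    rw [← Finset.sum_subset (Finset.subset_univ ({φ0, ψ} : Finset (K →+* ℂ)))]
    · rw [Finset.sum_pair (Ne.symm hne)]
      rw [if_pos rfl, if_pos]
      rw [hdψ]
      exact hd0.symm
    · intro φ _ hφ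
      rw [Finset.mem_insert, Finset.mem_singleton, not_or] at hφ
      rw [hsurv i0 φ hφ.1 (fun _ => hφ.2), zero_mul]
  have hbL : ∀ j, b j ∈ Lat b := fun j => Submodule.subset_span ⟨j, rfl⟩
  have hre := coeff_real b hreal (P i0) (fun j => hR i0 (b j) (hbL j))
  obtain ⟨θ, hθ0, hθ1⟩ : ∃ θ : K →+* ℂ, θ ≠ φ0 ∧ θ ≠ ψ := by
    by_contra hcon
    push Not at hcon
    have h1 : (Finset.univ : Finset (K →+* ℂ)) ⊆ {φ0, ψ} := by
      intro θ _
      rw [Finset.mem_insert, Finset.mem_singleton]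
      by_cases h : θ = φ0
      · exact Or.inl h
      · exact Or.inr (hcon θ h)
    have h2 := Finset.card_le_card h1
    have h3 : ({φ0, ψ} : Finset (K →+* ℂ)).card ≤ 2 := Finset.card_le_two
    rw [Finset.card_univ, hn] at h2
    omega
  refine two_terms b hreal φ0 ψ θ hθ0 hθ1 hne (P i0 φ0).re (P i0 ψ).re ?_ ?_
    (fun φ => ‖P (π.symm φ) φ‖) (fun φ => norm_nonneg _) c hc ?_
  · intro h
    apply hπ i0
    rw [← hre (π i0), ← hφ0, h, Complex.ofReal_zero]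
  · intro h
    apply hP
    rw [← hre ψ, h, Complex.ofReal_zero]
  · intro α hα hα0
    have h1 := hQN α hα hα0
    rw [← Finset.mul_prod_erase Finset.univ _ (Finset.mem_univ i0), hrow0] at h1
    rw [hre φ0, hre ψ]
    have h2 : ∏ i ∈ Finset.univ.erase i0, ‖∑ φ, (if d φ = e i then P i φ else 0) * φ α‖ =
        ∏ φ ∈ Finset.univ.erase φ0, (‖P (π.symm φ) φ‖ * ‖φ α‖) := by
      refine Finset.prod_bij (fun i _ => π i) ?_ ?_ ?_ ?_
      · intro i hi
        rw [Finset.mem_erase] at hi ⊢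
        exact ⟨fun h => hi.1 (π.injective h), Finset.mem_univ _⟩
      · intro i _ j _ h
        exact π.injective h
      · intro φ hφ
        refine ⟨π.symm φ, ?_, π.apply_symm_apply φ⟩
        rw [Finset.mem_erase] at hφ ⊢
        refine ⟨fun h => hφ.1 ?_, Finset.mem_univ _⟩
        rw [← π.apply_symm_apply φ, h]
      · intro i hi
        rw [hrow i (Finset.ne_of_mem_erase hi), norm_mul, Equiv.symm_apply_apply]
    rw [h2] at h1
    exact h1

end Pool.Agent.H83.Sail
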