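import Mathlib
import Pool.Agent.H83.Sail.Core

namespace Pool.Agent.H83.Sail

open NumberField NumberField.InfinitePlace NumberField.ComplexEmbedding
open Module Filter Topology Polynomial

open scoped IntermediateField in
/-- A rational matrix with irreducible characteristic polynomial makes the rational vectors a
one-dimensional space over a number field. -/
theorem exists_field {ι : Type*} [Fintype ι] [DecidableEq ι] [Nonempty ι] (B : Matrix ι ι ℚ)
    (hB : Irreducible B.charpoly) :
    ∃ (K : Type) (_ : Field K) (_ : NumberField K) (f : K →ₐ[ℚ] Matrix ι ι ℚ)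
      (b : Basis ι ℚ K) (β : K), f β = B ∧ ℚ⟮β⟯ = ⊤ ∧
      ∀ x j, x * b j = ∑ i, f x i j • b i := by
  have hfact : Fact (Irreducible B.charpoly) := ⟨hB⟩
  have hp0 : B.charpoly ≠ 0 := hB.ne_zero
  set K := AdjoinRoot B.charpoly with hK
  set pb := AdjoinRoot.powerBasis hp0 with hpb
  have hfin : FiniteDimensional ℚ K := pb.finite
  have hNF : NumberField K := { to_charZero := inferInstance, to_finiteDimensional := hfin }
  have hker : ∀ a ∈ (Ideal.span {B.charpoly} : Ideal ℚ[X]), (aeval B : ℚ[X] →ₐ[ℚ] _) a = 0 := by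
    intro a ha
    rw [Ideal.mem_span_singleton] at ha
    obtain ⟨q, rfl⟩ := ha
    rw [map_mul, Matrix.aeval_self_charpoly, zero_mul]
  let f : K →ₐ[ℚ] Matrix ι ι ℚ := Ideal.Quotient.liftₐ _ (aeval B : ℚ[X] →ₐ[ℚ] _) hker
  have hfroot : f (AdjoinRoot.root B.charpoly) = B := by
    change (aeval B : ℚ[X] →ₐ[ℚ] _) X = B
    rw [aeval_X]
  obtain ⟨j0⟩ := ‹Nonempty ι›
  set v : ι → ℚ := Pi.single j0 1 with hv
  have hv0 : v ≠ 0 := by
    intro h
    have := congrFun h j0
    simp [hv] at this
  let F : K →ₗ[ℚ] (ι → ℚ) :=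
    { toFun := fun x => (f x).mulVec v
      map_add' := by
        intro x y
        rw [map_add, Matrix.add_mulVec]
      map_smul' := by
        intro c x
        rw [map_smul, Matrix.smul_mulVec, RingHom.id_apply] }
  have hFmul : ∀ x y, F (x * y) = (f x).mulVec (F y) := by
    intro x y
    change (f (x * y)).mulVec v = (f x).mulVec ((f y).mulVec v)
    rw [map_mul, Matrix.mulVec_mulVec]
  have hinj : Function.Injective F := by
    rw [injective_iff_map_eq_zero]
    intro x hx
    by_contra hx0
    apply hv0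
    have h1 : F (x⁻¹ * x) = v := by
      rw [inv_mul_cancel₀ hx0]
      change (f 1).mulVec v = v
      rw [map_one, Matrix.one_mulVec]
    rw [← h1, hFmul, hx, Matrix.mulVec_zero]
  have hrank : finrank ℚ K = finrank ℚ (ι → ℚ) := by
    rw [pb.finrank, Module.finrank_fintype_fun_eq_card, ← Matrix.charpoly_natDegree_eq_dim B]
    exact AdjoinRoot.powerBasis_dim hp0
  let E := F.linearEquivOfInjective hinj hrank
  have hE : ∀ x, E x = F x := fun x => rfl
  refine ⟨K, inferInstance, hNF, f, (Pi.basisFun ℚ ι).map E.symm, AdjoinRoot.root B.charpoly,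
    hfroot, ?_, ?_⟩
  · have h1 := pb.adjoin_gen_eq_top
    rw [AdjoinRoot.powerBasis_gen] at h1
    rw [eq_top_iff]
    intro x _
    have h2 := (congrArg (fun S => x ∈ S) h1).mpr Algebra.mem_top
    exact IntermediateField.algebra_adjoin_le_adjoin ℚ {AdjoinRoot.root B.charpoly} h2
  · intro x j
    apply E.injective
    rw [hE, hFmul, map_sum]
    have h1 : ∀ i, E (((Pi.basisFun ℚ ι).map E.symm) i) = Pi.single i 1 := by
      intro i
      rw [Basis.map_apply, LinearEquiv.apply_symm_apply, Pi.basisFun_apply]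
    simp_rw [map_smul, h1]
    rw [← hE, h1]
    ext i
    rw [Matrix.mulVec_single, Finset.sum_apply]
    simp [Pi.single_apply]

end Pool.Agent.H83.Sail
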