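import Mathlib
import Pool.Agent.H83.Sail.Cyc

namespace Pool.Agent.H83.Sail

open NumberField NumberField.InfinitePlace NumberField.ComplexEmbedding
open Module Filter Topology Polynomial

/-- A space stable under a diagonal matrix with distinct entries contains the coordinate vectors
of all coordinates that do not vanish on it. -/
theorem coord_mem {κ J : Type*} [Fintype κ] [DecidableEq κ] (R : J → κ → ℂ)
    (D : κ → ℂ) (hD : Function.Injective D)
    (hst : ∀ j, (fun φ => D φ * R j φ) ∈ Submodule.span ℂ (Set.range R)) (φ0 : κ)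
    (hT : ∃ j, R j φ0 ≠ 0) : (Pi.single φ0 1 : κ → ℂ) ∈ Submodule.span ℂ (Set.range R) := by
  set V := Submodule.span ℂ (Set.range R) with hV
  have h1 : ∀ v ∈ V, (fun φ => D φ * v φ) ∈ V := by
    intro v hv
    refine Submodule.span_induction (p := fun v _ => (fun φ => D φ * v φ) ∈ V) ?_ ?_ ?_ ?_ hv
    · rintro _ ⟨j, rfl⟩
      exact hst j
    · simp only [Pi.zero_apply, mul_zero]
      exact V.zero_mem
    · intro x y _ _ hx hy
      have h2 : (fun φ => D φ * (x + y) φ) = (fun φ => D φ * x φ) + (fun φ => D φ * y φ) := by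
        funext φ
        simp only [Pi.add_apply]
        ring
      rw [h2]
      exact V.add_mem hx hy
    · intro a x _ hx
      have h2 : (fun φ => D φ * (a • x) φ) = a • (fun φ => D φ * x φ) := by
        funext φ
        simp only [Pi.smul_apply, smul_eq_mul]
        ring
      rw [h2]
      exact V.smul_mem a hx
  have h2 : ∀ (S : Finset κ) (v : κ → ℂ), v ∈ V → (fun φ => (∏ ψ ∈ S, (D φ - D ψ)) * v φ) ∈ V := by
    intro S
    induction S using Finset.induction_on with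
    | empty =>
      intro v hv
      simpa using hv
    | insert a S ha ih =>
      intro v hv
      have h3 := ih v hv
      have h4 := V.sub_mem (h1 _ h3) (V.smul_mem (D a) h3)
      have h5 : (fun φ => (∏ ψ ∈ insert a S, (D φ - D ψ)) * v φ) =
          (fun φ => D φ * ((∏ ψ ∈ S, (D φ - D ψ)) * v φ)) -
            D a • (fun φ => (∏ ψ ∈ S, (D φ - D ψ)) * v φ) := by
        funext φ
        rw [Finset.prod_insert ha]
        simp only [Pi.sub_apply, Pi.smul_apply, smul_eq_mul]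
        ring
      rw [h5]
      exact h4
  obtain ⟨j, hj⟩ := hT
  have h4 := h2 (Finset.univ.erase φ0) (R j) (Submodule.subset_span ⟨j, rfl⟩)
  set c : ℂ := (∏ ψ ∈ Finset.univ.erase φ0, (D φ0 - D ψ)) * R j φ0 with hc
  have hc0 : c ≠ 0 := by
    refine mul_ne_zero (Finset.prod_ne_zero_iff.mpr (fun ψ hψ => ?_)) hj
    rw [sub_ne_zero]
    exact fun h => Finset.ne_of_mem_erase hψ (hD h).symm
  have h5 : (Pi.single φ0 1 : κ → ℂ) =
      c⁻¹ • (fun φ => (∏ ψ ∈ Finset.univ.erase φ0, (D φ - D ψ)) * R j φ) := by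
    funext φ
    simp only [Pi.smul_apply, smul_eq_mul]
    by_cases h : φ = φ0
    · subst h
      rw [Pi.single_eq_same, ← hc, inv_mul_cancel₀ hc0]
    · rw [Pi.single_eq_of_ne h, Finset.prod_eq_zero (i := φ), zero_mul, mul_zero]
      · exact Finset.mem_erase.mpr ⟨h, Finset.mem_univ _⟩
      · exact sub_self _
  rw [h5]
  exact V.smul_mem _ h4

theorem coord_count {κ J : Type*} [Fintype κ] [DecidableEq κ] [Fintype J] (R : J → κ → ℂ)
    (T : Finset κ) (h3 : ∀ φ0 ∈ T, (Pi.single φ0 1 : κ → ℂ) ∈ Submodule.span ℂ (Set.range R)) :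
    T.card ≤ Fintype.card J := by
  have h4 : LinearIndependent ℂ (fun φ : T => (Pi.single φ.1 1 : κ → ℂ)) := by
    have h5 := (Pi.basisFun ℂ κ).linearIndependent.comp (fun φ : T => φ.1)
      Subtype.val_injective
    have h6 : (fun φ : T => (Pi.single φ.1 1 : κ → ℂ)) =
        (⇑(Pi.basisFun ℂ κ) ∘ fun φ : T => φ.1) := by
      funext φ
      rw [Function.comp, Pi.basisFun_apply]
    rw [h6]
    exact h5
  have h5 := finrank_span_eq_card h4
  have h6 : Submodule.span ℂ (Set.range (fun φ : T => (Pi.single φ.1 1 : κ → ℂ))) ≤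
      Submodule.span ℂ (Set.range R) := by
    rw [Submodule.span_le]
    rintro _ ⟨φ, rfl⟩
    exact h3 φ.1 φ.2
  have h7 := Submodule.finrank_mono h6
  rw [h5, Fintype.card_coe] at h7
  exact h7.trans (finrank_range_le_card R)

section rows

variable {K : Type*} [Field K] [NumberField K] {ι : Type*} [Fintype ι]

/-- Rows of a real matrix composed with the matrix of a multiplication. -/
theorem row_mul (b : Basis ι ℚ K) (f : K → Matrix ι ι ℚ)
    (hf : ∀ x j, x * b j = ∑ i, f x i j • b i) (L : Matrix ι ι ℝ) (P : ι → (K →+* ℂ) → ℂ)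
    (hP : ∀ i j, ∑ φ, P i φ * φ (b j) = (L i j : ℂ)) (x : K) (i k : ι) :
    (((L * (f x).map (Rat.cast : ℚ → ℝ)) i k : ℝ) : ℂ) = ∑ φ, P i φ * φ x * φ (b k) := by
  rw [Matrix.mul_apply, Complex.ofReal_sum]
  have h1 : ∀ j, (((L i j * ((f x).map (Rat.cast : ℚ → ℝ)) j k : ℝ)) : ℂ) =
      ∑ φ, P i φ * φ (b j) * ((f x j k : ℚ) : ℂ) := by
    intro j
    rw [Complex.ofReal_mul, ← hP, Finset.sum_mul, Matrix.map_apply, Complex.ofReal_ratCast]
  simp_rw [h1]
  rw [Finset.sum_comm]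
  refine Finset.sum_congr rfl (fun φ _ => ?_)
  rw [mul_assoc (P i φ), ← map_mul, hf x k, map_sum, Finset.mul_sum]
  refine Finset.sum_congr rfl (fun j _ => ?_)
  rw [Algebra.smul_def, map_mul, eq_ratCast, map_ratCast]
  ring

/-- The values of the forms at integer points. -/
theorem row_int (b : Basis ι ℚ K) (L : Matrix ι ι ℝ) (P : ι → (K →+* ℂ) → ℂ)
    (hP : ∀ i j, ∑ φ, P i φ * φ (b j) = (L i j : ℂ)) (v : ι → ℤ) (i : ι) :
    ∑ φ, P i φ * φ (∑ j, v j • b j) = (((L.mulVec (fun j => (v j : ℝ))) i : ℝ) : ℂ) := by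
  rw [sum_int]
  simp_rw [hP]
  rw [Matrix.mulVec, dotProduct, Complex.ofReal_sum]
  refine Finset.sum_congr rfl (fun j _ => ?_)
  rw [Complex.ofReal_mul, mul_comm]
  congr 1

theorem lat_exists (b : Basis ι ℚ K) {α : K} (hα : α ∈ Lat b) :
    ∃ v : ι → ℤ, ∑ j, v j • b j = α :=
  (Submodule.mem_span_range_iff_exists_fun ℤ).mp hα

/-- The coefficients of a real form are compatible with complex conjugation. -/
theorem conj_coeff (b : Basis ι ℚ K) (q : (K →+* ℂ) → ℂ) (a : ι → ℝ)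
    (hq : ∀ j, ∑ φ, q φ * φ (b j) = (a j : ℂ)) (φ : K →+* ℂ) :
    q (conjugate φ) = (starRingEnd ℂ) (q φ) := by
  have h1 : (fun φ => (starRingEnd ℂ) (q (conjugate φ)) - q φ) = 0 := by
    refine emb_indep b _ (fun j => ?_)
    simp_rw [sub_mul]
    rw [Finset.sum_sub_distrib, hq j, sub_eq_zero]
    have h2 : ∑ φ : K →+* ℂ, (starRingEnd ℂ) (q (conjugate φ)) * φ (b j) =
        (starRingEnd ℂ) (∑ φ : K →+* ℂ, q (conjugate φ) * (conjugate φ) (b j)) := by
      rw [map_sum]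
      refine Finset.sum_congr rfl (fun φ _ => ?_)
      rw [map_mul, conjugate_coe_eq, Complex.conj_conj]
    have h3 : ∑ φ : K →+* ℂ, q (conjugate φ) * (conjugate φ) (b j) =
        ∑ φ : K →+* ℂ, q φ * φ (b j) :=
      Equiv.sum_comp (Function.Involutive.toPerm _ (involutive_conjugate K))
        (fun φ : K →+* ℂ => q φ * φ (b j))
    rw [h2, h3, hq j, Complex.conj_ofReal]
  have h2 := congrFun h1 (conjugate φ)
  simp only [Pi.zero_apply, sub_eq_zero] at h2
  rw [← h2, involutive_conjugate K φ]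

/-- The rows of a face span the coordinate vectors of the embeddings they involve. -/
theorem face_span [DecidableEq ι] [DecidableEq (K →+* ℂ)] (b : Basis ι ℚ K)
    (f : K → Matrix ι ι ℚ)
    (hf : ∀ x j, x * b j = ∑ i, f x i j • b i) (L : Matrix ι ι ℝ) (hL : L.det ≠ 0)
    (P : ι → (K →+* ℂ) → ℂ) (hP : ∀ i j, ∑ φ, P i φ * φ (b j) = (L i j : ℂ)) (β : K)
    (hβ : ∀ φ ψ : K →+* ℂ, φ β = ψ β → φ = ψ) (I : Finset ι)
    (hE : ∀ x : ι → ℝ, (∀ i, i ∉ I → L.mulVec x i = 0) →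
      ∀ i, i ∉ I → L.mulVec (((f β).map (Rat.cast : ℚ → ℝ)).mulVec x) i = 0)
    (φ0 : K →+* ℂ) (hT : ∃ i, i ∉ I ∧ P i φ0 ≠ 0) :
    (Pi.single φ0 1 : (K →+* ℂ) → ℂ) ∈
      Submodule.span ℂ (Set.range (fun k : {k // k ∈ Iᶜ} => P k.1)) := by
  set M : Matrix ι ι ℝ := L * (f β).map (Rat.cast : ℚ → ℝ) * L⁻¹ with hM
  have hunit : IsUnit L.det := isUnit_iff_ne_zero.mpr hL
  have hML : M * L = L * (f β).map (Rat.cast : ℚ → ℝ) := by
    rw [hM, Matrix.mul_assoc, Matrix.nonsing_inv_mul L hunit, Matrix.mul_one]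
  have hM0 : ∀ i, i ∉ I → ∀ k ∈ I, M i k = 0 := by
    intro i hi k hk
    have h1 := hE (L⁻¹.mulVec (Pi.single k 1)) (by
      intro i' hi'
      rw [Matrix.mulVec_mulVec, Matrix.mul_nonsing_inv L hunit, Matrix.one_mulVec,
        Pi.single_eq_of_ne]
      exact fun h => hi' (h ▸ hk)) i hi
    rw [Matrix.mulVec_mulVec, Matrix.mulVec_mulVec, ← hM,
      Matrix.mulVec_single_one] at h1
    exact h1
  have hrel : ∀ i, i ∉ I → ∀ φ : K →+* ℂ, φ β * P i φ =
      ∑ k ∈ Iᶜ, ((M i k : ℝ) : ℂ) * P k φ := by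
    intro i hi
    have h1 : (fun φ : K →+* ℂ => P i φ * φ β - ∑ k ∈ Iᶜ, ((M i k : ℝ) : ℂ) * P k φ) = 0 := by
      refine emb_indep b _ (fun j => ?_)
      simp_rw [sub_mul]
      rw [Finset.sum_sub_distrib, sub_eq_zero, ← row_mul b f hf L P hP β i j, ← hML,
        Matrix.mul_apply, Complex.ofReal_sum]
      simp_rw [Finset.sum_mul]
      rw [Finset.sum_comm]
      rw [← Finset.sum_subset (Finset.subset_univ Iᶜ)]
      · refine Finset.sum_congr rfl (fun k _ => ?_)
        rw [Complex.ofReal_mul, ← hP, Finset.mul_sum]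
        refine Finset.sum_congr rfl (fun φ _ => by ring)
      · intro k _ hk
        rw [Finset.mem_compl, not_not] at hk
        rw [hM0 i hi k hk, zero_mul, Complex.ofReal_zero]
    intro φ
    have h2 := congrFun h1 φ
    simp only [Pi.zero_apply, sub_eq_zero] at h2
    rw [mul_comm, h2]
  refine coord_mem (fun (k : {k // k ∈ Iᶜ}) => P k.1) (fun φ : K →+* ℂ => φ β)
    (fun φ ψ h => hβ φ ψ h) ?_ φ0 ?_
  · rintro ⟨i, hi⟩
    have hi' : i ∉ I := Finset.mem_compl.mp hi
    have h2 : (fun φ : K →+* ℂ => φ β * P i φ) =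
        ∑ k : {k // k ∈ Iᶜ}, ((M i k.1 : ℝ) : ℂ) • (P k.1) := by
      funext φ
      rw [hrel i hi' φ, Finset.sum_apply]
      simp only [Pi.smul_apply, smul_eq_mul]
      exact (Finset.sum_coe_sort Iᶜ (fun k => ((M i k : ℝ) : ℂ) * P k φ)).symm
    rw [h2]
    exact Submodule.sum_mem _ (fun k _ => Submodule.smul_mem _ _ (Submodule.subset_span ⟨k, rfl⟩))
  · obtain ⟨i, hi, hPi⟩ := hT
    exact ⟨⟨i, Finset.mem_compl.mpr hi⟩, hPi⟩

/-- Real vectors of the face are killed by the embeddings outside `Φ`. -/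
theorem face_vanish [DecidableEq ι] [DecidableEq (K →+* ℂ)] (b : Basis ι ℚ K)
    (L : Matrix ι ι ℝ) (P : ι → (K →+* ℂ) → ℂ)
    (hP : ∀ i j, ∑ φ, P i φ * φ (b j) = (L i j : ℂ)) (I : Finset ι) (φ0 : K →+* ℂ)
    (hspan : (Pi.single φ0 1 : (K →+* ℂ) → ℂ) ∈
      Submodule.span ℂ (Set.range (fun k : {k // k ∈ Iᶜ} => P k.1)))
    (x : ι → ℝ) (hx : ∀ i, i ∉ I → L.mulVec x i = 0) :
    ∑ j, φ0 (b j) * (x j : ℂ) = 0 := by
  have key : ∀ v ∈ Submodule.span ℂ (Set.range (fun k : {k // k ∈ Iᶜ} => P k.1)),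
      ∑ φ, v φ * ∑ j, φ (b j) * (x j : ℂ) = 0 := by
    intro v hv
    refine Submodule.span_induction
      (p := fun v _ => ∑ φ, v φ * ∑ j, φ (b j) * (x j : ℂ) = 0) ?_ ?_ ?_ ?_ hv
    · rintro _ ⟨k, rfl⟩
      have h1 : ∑ φ, P k.1 φ * ∑ j, φ (b j) * (x j : ℂ) =
          ((L.mulVec x k.1 : ℝ) : ℂ) := by
        rw [Matrix.mulVec, dotProduct, Complex.ofReal_sum]
        simp_rw [Finset.mul_sum]
        rw [Finset.sum_comm]
        refine Finset.sum_congr rfl (fun j _ => ?_)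
        rw [Complex.ofReal_mul, ← hP, Finset.sum_mul]
        refine Finset.sum_congr rfl (fun φ _ => by ring)
      rw [h1, hx k.1 (Finset.mem_compl.mp k.2), Complex.ofReal_zero]
    · simp
    · intro v w _ _ hv hw
      simp only [Pi.add_apply, add_mul, Finset.sum_add_distrib, hv, hw, add_zero]
    · intro a v _ hv
      simp only [Pi.smul_apply, smul_eq_mul, mul_assoc]
      rw [← Finset.mul_sum, hv, mul_zero]
  have h1 := key _ hspan
  rw [Finset.sum_eq_single φ0] at h1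
  · rwa [Pi.single_eq_same, one_mul] at h1
  · intro φ _ hφ
    rw [Pi.single_eq_of_ne hφ, zero_mul]
  · intro h; exact absurd (Finset.mem_univ _) h

end rows

end Pool.Agent.H83.Sail
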