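import Mathlib

namespace Pool.Agent.H83.Sail

open Module Filter Topology

/-- Dirichlet's box principle for `m` real linear forms in `r` integer variables. -/
theorem pigeon (m r : ℕ) (hr : 0 < r) (F : Fin m → Fin r → ℝ) : ∃ A : ℝ, 0 < A ∧
    ∀ t : ℕ, 0 < t → ∃ y : Fin r → ℤ, y ≠ 0 ∧ (∀ j, |(y j : ℝ)| ≤ (t : ℝ) ^ m) ∧
      ∀ l, |∑ j, F l j * y j| * (t : ℝ) ^ r ≤ A * (t : ℝ) ^ m := by
  classical
  set A0 : ℝ := ∑ l, ∑ j, |F l j| with hA0
  have hA0nn : 0 ≤ A0 := Finset.sum_nonneg (fun l _ => Finset.sum_nonneg (fun j _ => abs_nonneg _))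
  refine ⟨2 * A0 + 1, by linarith, fun t ht => ?_⟩
  set N : ℕ := t ^ m with hN
  set Q : ℕ := t ^ r with hQ
  have hN1 : 1 ≤ N := Nat.one_le_pow _ _ ht
  have hQ1 : 1 ≤ Q := Nat.one_le_pow _ _ ht
  have hN1' : (1 : ℝ) ≤ N := by exact_mod_cast hN1
  have hQ1' : (1 : ℝ) ≤ Q := by exact_mod_cast hQ1
  set W : ℝ := 2 * A0 * N + 1 with hW
  have hW0 : 0 < W := by positivity
  have hbound : ∀ (y : Fin r → Fin (N + 1)) (l : Fin m), |∑ j, F l j * ((y j : ℕ) : ℝ)| ≤ A0 * N := by
    intro y l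
    calc |∑ j, F l j * ((y j : ℕ) : ℝ)| ≤ ∑ j, |F l j * ((y j : ℕ) : ℝ)| :=
          Finset.abs_sum_le_sum_abs _ _
      _ ≤ ∑ j, |F l j| * N := by
          refine Finset.sum_le_sum (fun j _ => ?_)
          rw [abs_mul]
          refine mul_le_mul_of_nonneg_left ?_ (abs_nonneg _)
          rw [abs_of_nonneg (Nat.cast_nonneg _)]
          have := (y j).2
          exact_mod_cast Nat.lt_succ_iff.mp this
      _ = (∑ j, |F l j|) * N := (Finset.sum_mul _ _ _).symm
      _ ≤ A0 * N := by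
          refine mul_le_mul_of_nonneg_right ?_ (Nat.cast_nonneg _)
          exact Finset.single_le_sum (f := fun l => ∑ j, |F l j|)
            (fun l _ => Finset.sum_nonneg (fun j _ => abs_nonneg _)) (Finset.mem_univ l)
  have hval0 : ∀ (y : Fin r → Fin (N + 1)) (l : Fin m),
      0 ≤ (∑ j, F l j * ((y j : ℕ) : ℝ) + A0 * N) * Q / W := by
    intro y l
    have h1 := (abs_le.mp (hbound y l)).1
    have : 0 ≤ ∑ j, F l j * ((y j : ℕ) : ℝ) + A0 * N := by linarith
    positivity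
  set cell : (Fin r → Fin (N + 1)) → (Fin m → Fin Q) := fun y l =>
    ⟨⌊(∑ j, F l j * ((y j : ℕ) : ℝ) + A0 * N) * Q / W⌋₊, by
      rw [Nat.floor_lt (hval0 y l), div_lt_iff₀ hW0]
      have h1 := (abs_le.mp (hbound y l)).2
      have h2 : ∑ j, F l j * ((y j : ℕ) : ℝ) + A0 * N < W := by rw [hW]; linarith
      have h3 : (0 : ℝ) < Q := by linarith
      rw [mul_comm]
      exact mul_lt_mul_of_pos_left h2 h3⟩ with hcell
  have hcard : Fintype.card (Fin m → Fin Q) < Fintype.card (Fin r → Fin (N + 1)) := by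
    rw [Fintype.card_fun, Fintype.card_fun, Fintype.card_fin, Fintype.card_fin, Fintype.card_fin,
      Fintype.card_fin, hQ, hN, ← pow_mul, mul_comm r m, pow_mul]
    exact Nat.pow_lt_pow_left (Nat.lt_succ_self _) hr.ne'
  obtain ⟨y, y', hne, heq⟩ := Fintype.exists_ne_map_eq_of_card_lt cell hcard
  refine ⟨fun j => ((y j : ℕ) : ℤ) - ((y' j : ℕ) : ℤ), ?_, ?_, ?_⟩
  · intro h0
    apply hne
    funext j
    have h1 := congrFun h0 j
    simp only [Pi.zero_apply] at h1
    apply Fin.ext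
    omega
  · intro j
    have h1 := (y j).2
    have h2 := (y' j).2
    have h3 : |((y j : ℕ) : ℤ) - ((y' j : ℕ) : ℤ)| ≤ (N : ℤ) := by
      rw [abs_le]
      constructor <;> omega
    have h4 : |((((y j : ℕ) : ℤ) - ((y' j : ℕ) : ℤ) : ℤ) : ℝ)| ≤ ((N : ℤ) : ℝ) := by
      rw [← Int.cast_abs]
      exact_mod_cast h3
    have h5 : ((N : ℤ) : ℝ) = (t : ℝ) ^ m := by
      rw [Int.cast_natCast, hN]
      push_cast
      rfl
    rw [← h5]
    exact h4
  · intro l
    have h1 := congrArg (fun g => ((g l : Fin Q) : ℕ)) heq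
    simp only [hcell] at h1
    set a := (∑ j, F l j * ((y j : ℕ) : ℝ) + A0 * N) * Q / W with ha
    set a' := (∑ j, F l j * ((y' j : ℕ) : ℝ) + A0 * N) * Q / W with ha'
    have h2 : |a - a'| < 1 := by
      have h3 := Nat.floor_le (hval0 y l)
      have h4 := Nat.lt_floor_add_one a
      have h5 := Nat.floor_le (hval0 y' l)
      have h6 := Nat.lt_floor_add_one a'
      rw [← ha] at h3
      rw [← ha'] at h5
      rw [h1] at h3 h4
      rw [abs_lt]
      constructor <;> linarith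
    have h3 : ∑ j, F l j * ((((y j : ℕ) : ℤ) - ((y' j : ℕ) : ℤ) : ℤ) : ℝ) =
        ∑ j, F l j * ((y j : ℕ) : ℝ) - ∑ j, F l j * ((y' j : ℕ) : ℝ) := by
      rw [← Finset.sum_sub_distrib]
      refine Finset.sum_congr rfl (fun j _ => ?_)
      push_cast
      ring
    rw [h3]
    have h4 : a - a' = (∑ j, F l j * ((y j : ℕ) : ℝ) - ∑ j, F l j * ((y' j : ℕ) : ℝ)) * Q / W := by
      rw [ha, ha']; ring
    rw [h4, abs_div, abs_mul, abs_of_pos hW0, abs_of_pos (by linarith : (0 : ℝ) < Q),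
      div_lt_one hW0] at h2
    have h5 : W ≤ (2 * A0 + 1) * N := by rw [hW]; nlinarith
    have h6 : ((Q : ℕ) : ℝ) = (t : ℝ) ^ r := by rw [hQ]; push_cast; rfl
    have h7 : ((N : ℕ) : ℝ) = (t : ℝ) ^ m := by rw [hN]; push_cast; rfl
    rw [← h6, ← h7]
    linarith

/-- Semistability, exponent form: lattice points near the kernel of `m` forms inside a rational
subspace of dimension `r` violate a norm bound unless `r |Iᶜ| ≤ m n`. -/
theorem ss_exponent {ι : Type*} [Fintype ι] [DecidableEq ι] (L : Matrix ι ι ℝ) (c : ℝ) (hc : 0 < c)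
    (hmin : ∀ z : ι → ℤ, z ≠ 0 → c ≤ |∏ i, L.mulVec (fun j => (z j : ℝ)) i|) (I : Finset ι)
    (r : ℕ) (hr : 0 < r) (G : Fin r → ι → ℤ)
    (hG : ∀ y : Fin r → ℤ, (∀ i, ∑ l, y l * G l i = 0) → y = 0) (m : ℕ)
    (F : Fin m → Fin r → ℝ) (cf : ι → Fin m → ℝ)
    (hF : ∀ i, i ∉ I → ∀ l, L.mulVec (fun j => (G l j : ℝ)) i = ∑ a, cf i a * F a l) :
    r * Iᶜ.card ≤ m * Fintype.card ι := by
  by_contra hcon
  push Not at hcon
  obtain ⟨A, hA0, hA⟩ := pigeon m r hr F
  -- a uniform constant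
  set C : ℝ := 1 + (∑ i, ∑ a, |cf i a|) * A + ∑ i, ∑ l, |L.mulVec (fun j => (G l j : ℝ)) i| with hC
  have hs1 : 0 ≤ ∑ i, ∑ a, |cf i a| :=
    Finset.sum_nonneg (fun l _ => Finset.sum_nonneg (fun j _ => abs_nonneg _))
  have hs2 : 0 ≤ ∑ i, ∑ l, |L.mulVec (fun j => (G l j : ℝ)) i| :=
    Finset.sum_nonneg (fun l _ => Finset.sum_nonneg (fun j _ => abs_nonneg _))
  have hC1 : 1 ≤ C := by
    rw [hC]
    have : 0 ≤ (∑ i, ∑ a, |cf i a|) * A := mul_nonneg hs1 hA0.le
    linarith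
  have key : ∀ t : ℕ, 0 < t → c * (t : ℝ) ≤ C ^ Fintype.card ι := by
    intro t ht
    have ht0 : (0 : ℝ) < t := by exact_mod_cast ht
    have ht1 : (1 : ℝ) ≤ t := by exact_mod_cast ht
    obtain ⟨y, hy0, hy1, hy2⟩ := hA t ht
    set z : ι → ℤ := fun i => ∑ l, y l * G l i with hz
    have hz0 : z ≠ 0 := fun h => hy0 (hG y (fun i => congrFun h i))
    have hLz : ∀ i, L.mulVec (fun j => (z j : ℝ)) i =
        ∑ l, (y l : ℝ) * L.mulVec (fun j => (G l j : ℝ)) i := by
      intro i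
      simp only [Matrix.mulVec, dotProduct, hz]
      push_cast
      simp_rw [Finset.mul_sum]
      rw [Finset.sum_comm]
      refine Finset.sum_congr rfl (fun l _ => Finset.sum_congr rfl (fun j _ => by ring))
    have hbig : ∀ i, |L.mulVec (fun j => (z j : ℝ)) i| ≤ C * (t : ℝ) ^ m := by
      intro i
      rw [hLz]
      calc |∑ l, (y l : ℝ) * L.mulVec (fun j => (G l j : ℝ)) i|
          ≤ ∑ l, |(y l : ℝ) * L.mulVec (fun j => (G l j : ℝ)) i| := Finset.abs_sum_le_sum_abs _ _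
        _ ≤ ∑ l, (t : ℝ) ^ m * |L.mulVec (fun j => (G l j : ℝ)) i| := by
            refine Finset.sum_le_sum (fun l _ => ?_)
            rw [abs_mul]
            exact mul_le_mul_of_nonneg_right (hy1 l) (abs_nonneg _)
        _ = (t : ℝ) ^ m * ∑ l, |L.mulVec (fun j => (G l j : ℝ)) i| := (Finset.mul_sum _ _ _).symm
        _ ≤ (t : ℝ) ^ m * C := by
            refine mul_le_mul_of_nonneg_left ?_ (by positivity)
            have h1 := Finset.single_le_sum
              (f := fun i => ∑ l, |L.mulVec (fun j => (G l j : ℝ)) i|)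
              (fun l _ => Finset.sum_nonneg (fun j _ => abs_nonneg _)) (Finset.mem_univ i)
            have h2 : 0 ≤ (∑ i, ∑ a, |cf i a|) * A := mul_nonneg hs1 hA0.le
            rw [hC]
            linarith
        _ = C * (t : ℝ) ^ m := mul_comm _ _
    have hsmall : ∀ i, i ∉ I → |L.mulVec (fun j => (z j : ℝ)) i| * (t : ℝ) ^ r ≤
        C * (t : ℝ) ^ m := by
      intro i hi
      have h1 : L.mulVec (fun j => (z j : ℝ)) i = ∑ a, cf i a * ∑ l, F a l * y l := by
        rw [hLz]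
        simp_rw [hF i hi, Finset.mul_sum]
        rw [Finset.sum_comm]
        refine Finset.sum_congr rfl (fun a _ => Finset.sum_congr rfl (fun l _ => by ring))
      rw [h1]
      calc |∑ a, cf i a * ∑ l, F a l * (y l : ℝ)| * (t : ℝ) ^ r
          ≤ (∑ a, |cf i a * ∑ l, F a l * (y l : ℝ)|) * (t : ℝ) ^ r :=
            mul_le_mul_of_nonneg_right (Finset.abs_sum_le_sum_abs _ _) (by positivity)
        _ = ∑ a, |cf i a| * (|∑ l, F a l * (y l : ℝ)| * (t : ℝ) ^ r) := by
            rw [Finset.sum_mul]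
            refine Finset.sum_congr rfl (fun a _ => ?_)
            rw [abs_mul]; ring
        _ ≤ ∑ a, |cf i a| * (A * (t : ℝ) ^ m) := by
            refine Finset.sum_le_sum (fun a _ => mul_le_mul_of_nonneg_left (hy2 a) (abs_nonneg _))
        _ = (∑ a, |cf i a|) * A * (t : ℝ) ^ m := by rw [← Finset.sum_mul]; ring
        _ ≤ C * (t : ℝ) ^ m := by
            refine mul_le_mul_of_nonneg_right ?_ (by positivity)
            have h2 := Finset.single_le_sum
              (f := fun i => ∑ a, |cf i a|)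
              (fun l _ => Finset.sum_nonneg (fun j _ => abs_nonneg _)) (Finset.mem_univ i)
            have h3 := mul_le_mul_of_nonneg_right h2 hA0.le
            rw [hC]
            linarith
    have hprod : |∏ i, L.mulVec (fun j => (z j : ℝ)) i| * ((t : ℝ) ^ r) ^ Iᶜ.card ≤
        (C * (t : ℝ) ^ m) ^ Fintype.card ι := by
      rw [Finset.abs_prod, ← Finset.prod_mul_prod_compl I, mul_assoc, ← Finset.prod_const,
        ← Finset.prod_mul_distrib, ← Finset.card_univ, ← Finset.prod_const,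
        ← Finset.prod_mul_prod_compl I (fun _ => C * (t : ℝ) ^ m)]
      refine mul_le_mul ?_ ?_ ?_ ?_
      · exact Finset.prod_le_prod (fun i _ => abs_nonneg _) (fun i _ => hbig i)
      · exact Finset.prod_le_prod (fun i _ => by positivity)
          (fun i hi => hsmall i (Finset.mem_compl.mp hi))
      · exact Finset.prod_nonneg (fun i _ => by positivity)
      · exact Finset.prod_nonneg (fun i _ => by positivity)
    have h1 := hmin z hz0
    have h2 : c * ((t : ℝ) ^ r) ^ Iᶜ.card ≤ (C * (t : ℝ) ^ m) ^ Fintype.card ι :=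
      (mul_le_mul_of_nonneg_right h1 (by positivity)).trans hprod
    rw [mul_pow, ← pow_mul, ← pow_mul] at h2
    have h3 : (t : ℝ) ^ (m * Fintype.card ι) * (t : ℝ) ≤ (t : ℝ) ^ (r * Iᶜ.card) := by
      rw [← pow_succ]
      exact pow_le_pow_right₀ ht1 hcon
    have h4 : 0 < (t : ℝ) ^ (m * Fintype.card ι) := by positivity
    have h5 : (c * (t : ℝ)) * (t : ℝ) ^ (m * Fintype.card ι) ≤
        C ^ Fintype.card ι * (t : ℝ) ^ (m * Fintype.card ι) := by
      calc (c * (t : ℝ)) * (t : ℝ) ^ (m * Fintype.card ι)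
          = c * ((t : ℝ) ^ (m * Fintype.card ι) * (t : ℝ)) := by ring
        _ ≤ c * (t : ℝ) ^ (r * Iᶜ.card) := mul_le_mul_of_nonneg_left h3 hc.le
        _ ≤ _ := h2
    exact le_of_mul_le_mul_right h5 h4
  obtain ⟨t, ht⟩ := exists_nat_gt (C ^ Fintype.card ι / c)
  rw [div_lt_iff₀ hc] at ht
  have h1 := key (t + 1) (Nat.succ_pos _)
  push_cast at h1
  nlinarith

end Pool.Agent.H83.Sail
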