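import Mathlib
import Pool.Agent.H83.Sail.Pigeon

namespace Pool.Agent.H83.Sail

open Module Filter Topology

variable {ι : Type*} [Fintype ι] [DecidableEq ι]

/-- The common kernel of the forms outside `I`. -/
def face (L : Matrix ι ι ℝ) (I : Finset ι) : Submodule ℝ (ι → ℝ) where
  carrier := {x | ∀ i, i ∉ I → L.mulVec x i = 0}
  add_mem' := by
    intro x y hx hy i hi
    rw [Matrix.mulVec_add, Pi.add_apply, hx i hi, hy i hi, add_zero]
  zero_mem' := by
    intro i _
    rw [Matrix.mulVec_zero, Pi.zero_apply]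
  smul_mem' := by
    intro a x hx i hi
    rw [Matrix.mulVec_smul, Pi.smul_apply, hx i hi, smul_zero]

omit [DecidableEq ι] in
theorem mem_face (L : Matrix ι ι ℝ) (I : Finset ι) (x : ι → ℝ) :
    x ∈ face L I ↔ ∀ i, i ∉ I → L.mulVec x i = 0 := Iff.rfl

theorem face_finrank (L : Matrix ι ι ℝ) (hL : L.det ≠ 0) (I : Finset ι) :
    I.card ≤ finrank ℝ (face L I) := by
  have hunit : IsUnit L.det := isUnit_iff_ne_zero.mpr hL
  let v : I → face L I := fun k => ⟨L⁻¹.mulVec (Pi.single k.1 1), by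
    intro i hi
    rw [Matrix.mulVec_mulVec, Matrix.mul_nonsing_inv L hunit, Matrix.one_mulVec,
      Pi.single_eq_of_ne]
    exact fun h => hi (h ▸ k.2)⟩
  have hv : LinearIndependent ℝ v := by
    rw [Fintype.linearIndependent_iff]
    intro g hg k
    have h1 := congrArg (fun w : face L I => L.mulVec w.1 k.1) hg
    simp only [AddSubmonoidClass.coe_finsetSum, Submodule.coe_smul, ZeroMemClass.coe_zero,
      Matrix.mulVec_zero, Pi.zero_apply] at h1
    rw [Matrix.mulVec_sum, Finset.sum_apply] at h1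
    simp_rw [Matrix.mulVec_smul, Pi.smul_apply] at h1
    rw [Finset.sum_eq_single k] at h1
    · have h2 : L.mulVec (v k).1 k.1 = 1 := by
        change L.mulVec (L⁻¹.mulVec (Pi.single k.1 1)) k.1 = 1
        rw [Matrix.mulVec_mulVec, Matrix.mul_nonsing_inv L hunit, Matrix.one_mulVec,
          Pi.single_eq_same]
      rw [h2] at h1
      simpa using h1
    · intro l _ hl
      have h2 : L.mulVec (v l).1 k.1 = 0 := by
        change L.mulVec (L⁻¹.mulVec (Pi.single l.1 1)) k.1 = 0
        rw [Matrix.mulVec_mulVec, Matrix.mul_nonsing_inv L hunit, Matrix.one_mulVec,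
          Pi.single_eq_of_ne]
        exact fun h => hl (Subtype.ext h.symm)
      rw [h2, smul_zero]
    · intro h; exact absurd (Finset.mem_univ _) h
  have h1 := hv.fintype_card_le_finrank
  rwa [Fintype.card_coe] at h1

/-- Integral generators of the column space. -/
theorem int_factor (D : Matrix ι ι ℚ) : ∃ (G : Fin D.rank → ι → ℤ) (h : Fin D.rank → ι → ℚ),
    (∀ i j, D i j = ∑ l, (G l i : ℚ) * h l j) ∧
    ∀ y : Fin D.rank → ℤ, (∀ i, ∑ l, y l * G l i = 0) → y = 0 := by
  set R := LinearMap.range D.mulVecLin with hR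
  have hbR : Basis (Fin D.rank) ℚ R := Module.finBasis ℚ R
  obtain ⟨q, hq⟩ := IsLocalization.exist_integer_multiples_of_finite (nonZeroDivisors ℤ)
    (fun p : Fin D.rank × ι => (hbR p.1 : ι → ℚ) p.2)
  have hq0 : ((q : ℤ) : ℚ) ≠ 0 := by
    have := nonZeroDivisors.ne_zero q.2
    exact_mod_cast this
  choose G' hG' using hq
  have hG : ∀ l i, ((G' (l, i) : ℤ) : ℚ) = (q : ℤ) * (hbR l : ι → ℚ) i := by
    intro l i
    have h1 := hG' (l, i)
    rw [← zsmul_eq_mul]
    exact h1
  have hcol : ∀ j, D.mulVecLin (Pi.single j 1) ∈ R := fun j => ⟨_, rfl⟩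
  refine ⟨fun l i => G' (l, i), fun l j => hbR.repr ⟨_, hcol j⟩ l / (q : ℤ), ?_, ?_⟩
  · intro i j
    have h1 := congrArg (fun w : R => (w : ι → ℚ) i) (hbR.sum_repr ⟨_, hcol j⟩)
    simp only [AddSubmonoidClass.coe_finsetSum, Submodule.coe_smul, Finset.sum_apply,
      Pi.smul_apply, smul_eq_mul] at h1
    have h2 : D.mulVecLin (Pi.single j 1) i = D i j := by
      rw [Matrix.mulVecLin_apply, Matrix.mulVec_single_one]
      rfl
    rw [h2] at h1
    rw [← h1]
    refine Finset.sum_congr rfl (fun l _ => ?_)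
    rw [hG]
    field_simp
  · intro y hy
    have h1 : ∑ l, ((y l : ℚ) * (q : ℤ)) • hbR l = 0 := by
      apply Subtype.ext
      funext i
      simp only [AddSubmonoidClass.coe_finsetSum, Submodule.coe_smul, Finset.sum_apply,
        Pi.smul_apply, smul_eq_mul, ZeroMemClass.coe_zero, Pi.zero_apply]
      have h2 := congrArg (Int.cast : ℤ → ℚ) (hy i)
      push_cast at h2
      rw [← h2]
      refine Finset.sum_congr rfl (fun l _ => ?_)
      rw [hG]
      ring
    funext l
    have h2 := Fintype.linearIndependent_iff.mp hbR.linearIndependent _ h1 l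
    have h3 := (mul_eq_zero.mp h2).resolve_right hq0
    rw [Pi.zero_apply]
    exact_mod_cast h3

/-- Semistability: a rational subspace meets the face in at most its share. -/
theorem ss_rank (L : Matrix ι ι ℝ) (c : ℝ) (hc : 0 < c)
    (hmin : ∀ z : ι → ℤ, z ≠ 0 → c ≤ |∏ i, L.mulVec (fun j => (z j : ℝ)) i|) (I : Finset ι)
    (D : Matrix ι ι ℚ) :
    Fintype.card ι * finrank ℝ (face L I ⊓ LinearMap.range
      (D.map (Rat.cast : ℚ → ℝ)).mulVecLin : Submodule ℝ (ι → ℝ)) ≤ I.card * D.rank := by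
  obtain ⟨G, h, hGh, hG⟩ := int_factor D
  set Gm : Matrix ι (Fin D.rank) ℝ := Matrix.of fun i l => (G l i : ℝ) with hGm
  have hDG : D.map (Rat.cast : ℚ → ℝ) = Gm * (Matrix.of fun l j => (h l j : ℝ)) := by
    ext i j
    rw [Matrix.map_apply, hGh, Matrix.mul_apply]
    push_cast
    rfl
  rcases Nat.eq_zero_or_pos D.rank with h0 | hpos
  · have h1 : D.map (Rat.cast : ℚ → ℝ) = 0 := by
      ext i j
      rw [Matrix.map_apply, hGh]
      have : IsEmpty (Fin D.rank) := by rw [h0]; infer_instance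
      rw [Finset.univ_eq_empty, Finset.sum_empty]
      simp
    rw [h1, Matrix.mulVecLin_zero, LinearMap.range_zero, inf_bot_eq, finrank_bot]
    simp
  let pr : (ι → ℝ) →ₗ[ℝ] ({i // i ∉ I} → ℝ) :=
    LinearMap.funLeft ℝ ℝ (fun i : {i // i ∉ I} => i.1)
  set Ψ : (Fin D.rank → ℝ) →ₗ[ℝ] ({i // i ∉ I} → ℝ) :=
    pr ∘ₗ L.mulVecLin ∘ₗ Gm.mulVecLin with hΨ
  have hΨa : ∀ y i, Ψ y i = L.mulVec (Gm.mulVec y) i.1 := fun y i => rfl
  have hsub : (face L I ⊓ LinearMap.range (D.map (Rat.cast : ℚ → ℝ)).mulVecLin) ≤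
      (LinearMap.ker Ψ).map Gm.mulVecLin := by
    rintro x ⟨hx1, y, rfl⟩
    rw [hDG, Matrix.mulVecLin_mul] at hx1 ⊢
    refine ⟨_, ?_, rfl⟩
    rw [SetLike.mem_coe, LinearMap.mem_ker]
    funext i
    rw [hΨa]
    exact hx1 i.1 i.2
  have h1 : finrank ℝ (face L I ⊓ LinearMap.range (D.map (Rat.cast : ℚ → ℝ)).mulVecLin :
      Submodule ℝ (ι → ℝ)) ≤ finrank ℝ (LinearMap.ker Ψ) :=
    (Submodule.finrank_mono hsub).trans (Submodule.finrank_map_le _ _)
  have h2 := LinearMap.finrank_range_add_finrank_ker Ψ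
  rw [Module.finrank_fintype_fun_eq_card, Fintype.card_fin] at h2
  set m := finrank ℝ (LinearMap.range Ψ) with hm
  have e : Basis (Fin m) ℝ (LinearMap.range Ψ) := Module.finBasis ℝ _
  classical
  have h3 := ss_exponent L c hc hmin I D.rank hpos G hG m
    (fun a l => e.repr ⟨Ψ (Pi.single l 1), ⟨_, rfl⟩⟩ a)
    (fun i a => if hi : i ∉ I then (e a : {i // i ∉ I} → ℝ) ⟨i, hi⟩ else 0) (by
      intro i hi l
      have h4 := congrArg (fun w : LinearMap.range Ψ => (w : {i // i ∉ I} → ℝ) ⟨i, hi⟩)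
        (e.sum_repr ⟨Ψ (Pi.single l 1), ⟨_, rfl⟩⟩)
      simp only [AddSubmonoidClass.coe_finsetSum, Submodule.coe_smul, Finset.sum_apply,
        Pi.smul_apply, smul_eq_mul] at h4
      have h5 : Ψ (Pi.single l 1) ⟨i, hi⟩ = L.mulVec (fun j => (G l j : ℝ)) i := by
        rw [hΨa, Matrix.mulVec_single_one]
        rfl
      rw [h5] at h4
      rw [← h4]
      refine Finset.sum_congr rfl (fun a _ => ?_)
      rw [dif_pos hi, mul_comm])
  have h4 := Finset.card_add_card_compl I
  have h5 : D.rank * I.card + D.rank * Iᶜ.card = D.rank * Fintype.card ι := by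
    rw [← Nat.mul_add, h4]
  have h6 : m * Fintype.card ι + finrank ℝ (LinearMap.ker Ψ) * Fintype.card ι =
      D.rank * Fintype.card ι := by rw [← Nat.add_mul, h2]
  have h7 : Fintype.card ι * finrank ℝ (LinearMap.ker Ψ) ≤ I.card * D.rank := by
    rw [mul_comm (Fintype.card ι), mul_comm I.card]
    omega
  exact (Nat.mul_le_mul_left _ h1).trans h7

omit [DecidableEq ι] in
/-- Generalised inverses over the rationals. -/
theorem exists_ginv [DecidableEq ι] (C : Matrix ι ι ℚ) : ∃ X : Matrix ι ι ℚ, C * X * C = C := by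
  set f := Matrix.toLin' C with hf
  obtain ⟨g, hg⟩ := LinearMap.exists_rightInverse_of_surjective f.rangeRestrict
    f.range_rangeRestrict
  obtain ⟨g', hg'⟩ := LinearMap.exists_extend g
  refine ⟨LinearMap.toMatrix' g', ?_⟩
  apply Matrix.toLin'.injective
  rw [Matrix.toLin'_mul, Matrix.toLin'_mul, Matrix.toLin'_toMatrix']
  refine LinearMap.ext (fun x => ?_)
  simp only [LinearMap.comp_apply]
  rw [← hf]
  have h1 : g' (f x) = g ⟨f x, ⟨x, rfl⟩⟩ := by
    have := LinearMap.congr_fun hg' ⟨f x, ⟨x, rfl⟩⟩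
    exact this
  rw [h1]
  have h2 := LinearMap.congr_fun hg ⟨f x, ⟨x, rfl⟩⟩
  exact congrArg Subtype.val h2

/-- Rational matrices preserving a face of dimension prime to `n` are zero or invertible. -/
theorem semi (L : Matrix ι ι ℝ) (hL : L.det ≠ 0) (c : ℝ) (hc : 0 < c)
    (hmin : ∀ z : ι → ℤ, z ≠ 0 → c ≤ |∏ i, L.mulVec (fun j => (z j : ℝ)) i|) (I : Finset ι)
    (hco : I.card.Coprime (Fintype.card ι)) (C : Matrix ι ι ℚ)
    (hC : ∀ x ∈ face L I, (C.map (Rat.cast : ℚ → ℝ)).mulVec x ∈ face L I) :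
    C = 0 ∨ C.rank = Fintype.card ι := by
  obtain ⟨X, hX⟩ := exists_ginv C
  set Y : Matrix ι ι ℚ := 1 - X * C with hY
  have hCY : C * Y = 0 := by
    rw [hY, Matrix.mul_sub, Matrix.mul_one, ← Matrix.mul_assoc, hX, sub_self]
  have hrank : Y.rank + C.rank = Fintype.card ι := by
    have h1 := LinearMap.finrank_range_add_finrank_ker C.mulVecLin
    rw [Module.finrank_fintype_fun_eq_card] at h1
    have h2 : LinearMap.range Y.mulVecLin = LinearMap.ker C.mulVecLin := by
      apply le_antisymm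
      · rintro _ ⟨x, rfl⟩
        rw [LinearMap.mem_ker, Matrix.mulVecLin_apply, Matrix.mulVecLin_apply,
          Matrix.mulVec_mulVec, hCY, Matrix.zero_mulVec]
      · intro x hx
        rw [LinearMap.mem_ker, Matrix.mulVecLin_apply] at hx
        refine ⟨x, ?_⟩
        rw [Matrix.mulVecLin_apply, hY, Matrix.sub_mulVec, Matrix.one_mulVec,
          ← Matrix.mulVec_mulVec, hx, Matrix.mulVec_zero, sub_zero]
    have h3 : Y.rank = finrank ℚ (LinearMap.ker C.mulVecLin) := by
      rw [Matrix.rank, h2]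
    rw [h3, add_comm]
    exact h1
  have hs1 := ss_rank L c hc hmin I C
  have hs2 := ss_rank L c hc hmin I Y
  set s1 := finrank ℝ (face L I ⊓ LinearMap.range
      (C.map (Rat.cast : ℚ → ℝ)).mulVecLin : Submodule ℝ (ι → ℝ)) with hs1d
  set s2 := finrank ℝ (face L I ⊓ LinearMap.range
      (Y.map (Rat.cast : ℚ → ℝ)).mulVecLin : Submodule ℝ (ι → ℝ)) with hs2d
  have hsum : I.card ≤ s1 + s2 := by
    let T : face L I →ₗ[ℝ] face L I :=
      (C.map (Rat.cast : ℚ → ℝ)).mulVecLin.restrict (fun x hx => hC x hx)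
    have h1 := LinearMap.finrank_range_add_finrank_ker T
    have h2 : finrank ℝ (LinearMap.range T) ≤ s1 := by
      have h3 : (LinearMap.range T).map (face L I).subtype ≤
          face L I ⊓ LinearMap.range (C.map (Rat.cast : ℚ → ℝ)).mulVecLin := by
        rintro _ ⟨_, ⟨x, rfl⟩, rfl⟩
        exact ⟨(T x).2, ⟨x.1, rfl⟩⟩
      have h4 := Submodule.finrank_mono h3
      rwa [Submodule.finrank_map_subtype_eq] at h4
    have h3 : finrank ℝ (LinearMap.ker T) ≤ s2 := by
      have h4 : (LinearMap.ker T).map (face L I).subtype ≤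
          face L I ⊓ LinearMap.range (Y.map (Rat.cast : ℚ → ℝ)).mulVecLin := by
        rintro _ ⟨x, hx, rfl⟩
        refine ⟨x.2, x.1, ?_⟩
        have h5 : (C.map (Rat.cast : ℚ → ℝ)).mulVec x.1 = 0 := by
          have h6 := congrArg Subtype.val (LinearMap.mem_ker.mp hx)
          exact h6
        have h6 : Y.map (Rat.cast : ℚ → ℝ) =
            1 - X.map (Rat.cast : ℚ → ℝ) * C.map (Rat.cast : ℚ → ℝ) := by
          ext i j
          rw [hY, Matrix.map_apply, Matrix.sub_apply, Matrix.sub_apply, Matrix.mul_apply,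
            Matrix.mul_apply, Rat.cast_sub, Rat.cast_sum]
          congr 1
          · rw [Matrix.one_apply, Matrix.one_apply]
            split_ifs <;> simp
          · refine Finset.sum_congr rfl (fun k _ => ?_)
            rw [Rat.cast_mul, Matrix.map_apply, Matrix.map_apply]
        rw [Matrix.mulVecLin_apply, h6, Matrix.sub_mulVec, Matrix.one_mulVec,
          ← Matrix.mulVec_mulVec, h5, Matrix.mulVec_zero, sub_zero]
        rfl
      have h5 := Submodule.finrank_mono h4
      rwa [Submodule.finrank_map_subtype_eq] at h5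
    have h4 := face_finrank L hL I
    omega
  have h1 : Fintype.card ι * s1 = I.card * C.rank := by
    have h2 : Fintype.card ι * I.card ≤ Fintype.card ι * (s1 + s2) := Nat.mul_le_mul_left _ hsum
    have h3 : I.card * Y.rank + I.card * C.rank = Fintype.card ι * I.card := by
      rw [← Nat.mul_add, hrank, mul_comm]
    rw [Nat.mul_add] at h2
    omega
  have h2 : Fintype.card ι ∣ C.rank := by
    have h3 : Fintype.card ι ∣ I.card * C.rank := ⟨s1, h1.symm⟩
    exact hco.symm.dvd_of_dvd_mul_left h3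
  rcases Nat.eq_zero_or_pos C.rank with h3 | h3
  · left
    obtain ⟨G, h, hGh, -⟩ := int_factor C
    ext i j
    rw [hGh]
    have : IsEmpty (Fin C.rank) := by rw [h3]; infer_instance
    rw [Finset.univ_eq_empty, Finset.sum_empty]
    rfl
  · right
    exact le_antisymm (Matrix.rank_le_card_width C) (Nat.le_of_dvd h3 h2)

end Pool.Agent.H83.Sail
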