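import Mathlib
import Pool.Agent.H83.Sail.Semi

namespace Pool.Agent.H83.Sail

open Module Filter Topology Polynomial

variable {ι : Type*} [Fintype ι] [DecidableEq ι]

/-- The rational matrices preserving a face form an algebra. -/
def pres (L : Matrix ι ι ℝ) (I : Finset ι) : Subalgebra ℚ (Matrix ι ι ℚ) where
  carrier := {C | ∀ x ∈ face L I, (C.map (Rat.cast : ℚ → ℝ)).mulVec x ∈ face L I}
  mul_mem' := by
    intro C D hC hD x hx
    have h1 : (C * D).map (Rat.cast : ℚ → ℝ) =
        C.map (Rat.cast : ℚ → ℝ) * D.map (Rat.cast : ℚ → ℝ) :=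
      Matrix.map_mul (f := Rat.castHom ℝ)
    rw [h1, ← Matrix.mulVec_mulVec]
    exact hC _ (hD x hx)
  add_mem' := by
    intro C D hC hD x hx
    have h1 : (C + D).map (Rat.cast : ℚ → ℝ) =
        C.map (Rat.cast : ℚ → ℝ) + D.map (Rat.cast : ℚ → ℝ) :=
      Matrix.map_add _ (fun a b => Rat.cast_add a b) _ _
    rw [h1, Matrix.add_mulVec]
    exact (face L I).add_mem (hC x hx) (hD x hx)
  algebraMap_mem' := by
    intro q x hx
    have h1 : (algebraMap ℚ (Matrix ι ι ℚ) q).map (Rat.cast : ℚ → ℝ) =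
        (q : ℝ) • (1 : Matrix ι ι ℝ) := by
      ext i j
      rw [Matrix.map_apply, Matrix.algebraMap_matrix_apply, Matrix.smul_apply, Matrix.one_apply]
      split_ifs <;> simp
    rw [h1, Matrix.smul_mulVec, Matrix.one_mulVec]
    exact (face L I).smul_mem _ hx

theorem rank_full_inj (C D : Matrix ι ι ℚ) (hC : C.rank = Fintype.card ι) (h : C * D = 0) :
    D = 0 := by
  have h1 := LinearMap.finrank_range_add_finrank_ker C.mulVecLin
  rw [Module.finrank_fintype_fun_eq_card] at h1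
  have h2 : finrank ℚ (LinearMap.ker C.mulVecLin) = 0 := by
    have h3 : finrank ℚ (LinearMap.range C.mulVecLin) = Fintype.card ι := hC
    omega
  have h3 : LinearMap.ker C.mulVecLin = ⊥ := Submodule.finrank_eq_zero.mp h2
  ext i j
  have h4 : D.mulVec (Pi.single j 1) ∈ LinearMap.ker C.mulVecLin := by
    rw [LinearMap.mem_ker, Matrix.mulVecLin_apply, Matrix.mulVec_mulVec, h, Matrix.zero_mulVec]
  rw [h3, Submodule.mem_bot, Matrix.mulVec_single_one] at h4
  exact congrFun h4 i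

/-- Degree of an irreducible minimal polynomial divides the size of the matrix. -/
theorem minpoly_degree_dvd (B : Matrix ι ι ℚ) (hB : Irreducible (minpoly ℚ B)) :
    (minpoly ℚ B).natDegree ∣ Fintype.card ι := by
  have hfact : Fact (Irreducible (minpoly ℚ B)) := ⟨hB⟩
  have hp0 : minpoly ℚ B ≠ 0 := hB.ne_zero
  have hker : ∀ a ∈ (Ideal.span {minpoly ℚ B} : Ideal ℚ[X]),
      (aeval B : ℚ[X] →ₐ[ℚ] _) a = 0 := by
    intro a ha
    rw [Ideal.mem_span_singleton] at ha
    obtain ⟨q, rfl⟩ := ha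
    rw [map_mul, minpoly.aeval, zero_mul]
  let f : AdjoinRoot (minpoly ℚ B) →ₐ[ℚ] Matrix ι ι ℚ :=
    Ideal.Quotient.liftₐ _ (aeval B : ℚ[X] →ₐ[ℚ] _) hker
  let g : AdjoinRoot (minpoly ℚ B) →ₐ[ℚ] Module.End ℚ (ι → ℚ) :=
    (Matrix.toLinAlgEquiv' : Matrix ι ι ℚ ≃ₐ[ℚ] _).toAlgHom.comp f
  let _ : Module (AdjoinRoot (minpoly ℚ B)) (ι → ℚ) := Module.compHom (ι → ℚ) g.toRingHom
  have htower : IsScalarTower ℚ (AdjoinRoot (minpoly ℚ B)) (ι → ℚ) := by
    refine ⟨fun q x v => ?_⟩
    change g (q • x) v = q • (g x v)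
    rw [map_smul]
    rfl
  have h1 := Module.finrank_mul_finrank ℚ (AdjoinRoot (minpoly ℚ B)) (ι → ℚ)
  rw [Module.finrank_fintype_fun_eq_card] at h1
  have h2 : finrank ℚ (AdjoinRoot (minpoly ℚ B)) = (minpoly ℚ B).natDegree := by
    rw [(AdjoinRoot.powerBasis hp0).finrank, AdjoinRoot.powerBasis_dim]
  rw [h2] at h1
  exact ⟨_, h1.symm⟩

/-- A rational matrix preserving a face of dimension prime to `n` generates a field. -/
theorem minpoly_irred [Nonempty ι] (L : Matrix ι ι ℝ) (hL : L.det ≠ 0) (c : ℝ) (hc : 0 < c)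
    (hmin : ∀ z : ι → ℤ, z ≠ 0 → c ≤ |∏ i, L.mulVec (fun j => (z j : ℝ)) i|) (I : Finset ι)
    (hco : I.card.Coprime (Fintype.card ι)) (B : Matrix ι ι ℚ) (hB : B ∈ pres L I) :
    Irreducible (minpoly ℚ B) := by
  have hint : IsIntegral ℚ B := Matrix.isIntegral B
  have hp0 : minpoly ℚ B ≠ 0 := minpoly.ne_zero hint
  have hpu : ¬ IsUnit (minpoly ℚ B) := minpoly.not_isUnit ℚ B
  obtain ⟨g, hg, q, hq⟩ := WfDvdMonoid.exists_irreducible_factor hpu hp0
  have hgB : aeval B g ∈ pres L I := by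
    have h1 : aeval B g ∈ Algebra.adjoin ℚ {B} := Polynomial.aeval_mem_adjoin_singleton ℚ B
    exact Algebra.adjoin_le (Set.singleton_subset_iff.mpr hB) h1
  rcases semi L hL c hc hmin I hco (aeval B g) hgB with h | h
  · have h1 : minpoly ℚ B ∣ g := minpoly.dvd ℚ B h
    exact (associated_of_dvd_dvd h1 ⟨q, hq⟩).irreducible_iff.mpr hg
  · exfalso
    have h1 : aeval B g * aeval B q = 0 := by rw [← map_mul, ← hq, minpoly.aeval]
    have h2 : aeval B q = 0 := rank_full_inj _ _ h h1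
    have hq0 : q ≠ 0 := by
      rintro rfl
      rw [mul_zero] at hq
      exact hp0 hq
    have h3 := minpoly.degree_le_of_ne_zero ℚ B hq0 h2
    rw [hq, degree_mul] at h3
    have h4 : 0 < degree g := degree_pos_of_irreducible hg
    rw [degree_eq_natDegree hq0, degree_eq_natDegree hg.ne_zero] at h3
    rw [degree_eq_natDegree hg.ne_zero] at h4
    have h5 : g.natDegree + q.natDegree ≤ q.natDegree := by exact_mod_cast h3
    have h6 : 0 < g.natDegree := by exact_mod_cast h4
    omega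

/-- Irreducibility of the characteristic polynomial from weaker hypotheses. -/
theorem charpoly_irred_of [Nonempty ι] (L : Matrix ι ι ℝ) (hL : L.det ≠ 0) (c : ℝ) (hc : 0 < c)
    (hmin : ∀ z : ι → ℤ, z ≠ 0 → c ≤ |∏ i, L.mulVec (fun j => (z j : ℝ)) i|) (I : Finset ι)
    (hco : I.card.Coprime (Fintype.card ι)) (B : Matrix ι ι ℚ) (hB : B ∈ pres L I)
    (hcase : (minpoly ℚ B).natDegree = Fintype.card ι ∨
      ((Fintype.card ι).Prime ∧ ∀ q : ℚ, B ≠ q • (1 : Matrix ι ι ℚ))) :
    Irreducible B.charpoly := by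
  have hint : IsIntegral ℚ B := Matrix.isIntegral B
  have hirr := minpoly_irred L hL c hc hmin I hco B hB
  have hdeg : (minpoly ℚ B).natDegree = Fintype.card ι := by
    rcases hcase with h | ⟨hp, hq⟩
    · exact h
    rcases (Nat.dvd_prime hp).mp (minpoly_degree_dvd B hirr) with h | h
    · exfalso
      have h1 := (minpoly.monic hint).eq_X_add_C h
      have h2 := minpoly.aeval ℚ B
      rw [h1, map_add, aeval_X, aeval_C] at h2
      apply hq (-(minpoly ℚ B).coeff 0)
      rw [neg_smul, ← Algebra.algebraMap_eq_smul_one]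
      exact eq_neg_of_add_eq_zero_left h2
    · exact h
  have h1 := Polynomial.eq_of_monic_of_dvd_of_natDegree_le (minpoly.monic hint)
    (Matrix.charpoly_monic B) (Matrix.minpoly_dvd_charpoly B)
    (by rw [hdeg, Matrix.charpoly_natDegree_eq_dim])
  rw [h1]
  exact hirr

end Pool.Agent.H83.Sail
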