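import Mathlib
import Pool.Agent.H83.Sail.Mat
import Pool.Agent.H83.Sail.Min

namespace Pool.Agent.H83.Sail

open NumberField NumberField.InfinitePlace NumberField.ComplexEmbedding
open Module Filter Topology Polynomial

variable {K : Type*} [Field K] [NumberField K] {ι : Type*} [Fintype ι]

/-- A rational linear map that agrees with a combination of embeddings on a basis. -/
theorem emb_ext (b : Basis ι ℚ K) (g : K →ₗ[ℚ] ℂ) (c : (K →+* ℂ) → ℂ)
    (h : ∀ j, ∑ ψ, c ψ * ψ (b j) = g (b j)) (y : K) : ∑ ψ, c ψ * ψ y = g y := by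
  rw [← b.sum_repr y, map_sum]
  simp_rw [map_sum, Finset.mul_sum]
  rw [Finset.sum_comm]
  refine Finset.sum_congr rfl (fun j _ => ?_)
  rw [map_smul, ← h j, Finset.smul_sum]
  refine Finset.sum_congr rfl (fun ψ _ => ?_)
  rw [Algebra.smul_def, map_mul, eq_ratCast, map_ratCast, Algebra.smul_def, eq_ratCast]
  ring

open scoped IntermediateField in
/-- If the rational matrices preserving the face commute with a generator, then elements whose
conjugates separate the face from its complement are primitive. -/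
theorem primitive_of_comm [DecidableEq ι] (b : Basis ι ℚ K)
    (f : K →ₐ[ℚ] Matrix ι ι ℚ)
    (hf : ∀ x j, x * b j = ∑ i, f x i j • b i) (L : Matrix ι ι ℝ)
    (P : ι → (K →+* ℂ) → ℂ) (hP : ∀ i j, ∑ φ, P i φ * φ (b j) = (L i j : ℂ)) (β : K)
    (hβ : ℚ⟮β⟯ = ⊤) (I : Finset ι) (Φ : Finset (K →+* ℂ))
    (hmemΦ : ∀ φ, φ ∈ Φ ↔ ∀ i, i ∉ I → P i φ = 0)
    (hvan : ∀ φ, φ ∉ Φ → ∀ x ∈ face L I, ∑ j, φ (b j) * (x j : ℂ) = 0)
    (hcomm : ∀ C ∈ pres L I, C * f β = f β * C) (x : K)
    (hx : ∀ φ ∈ Φ, ∀ ψ, ψ ∉ Φ → φ x ≠ ψ x) : ℚ⟮x⟯ = ⊤ := by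
  classical
  set F := ℚ⟮x⟯ with hF
  obtain ⟨g, hg⟩ := LinearMap.exists_leftInverse_of_injective (Algebra.linearMap F K)
    (LinearMap.ker_eq_bot.mpr (algebraMap F K).injective)
  set θ : K →ₗ[F] K := (Algebra.linearMap F K) ∘ₗ g with hθ
  have hθ1 : θ 1 = 1 := by
    have h1 := LinearMap.congr_fun hg 1
    rw [LinearMap.comp_apply, LinearMap.id_apply, Algebra.linearMap_apply, map_one] at h1
    rw [hθ, LinearMap.comp_apply, h1, Algebra.linearMap_apply, map_one]
  have hθF : ∀ y, θ y ∈ F := by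
    intro y
    rw [hθ, LinearMap.comp_apply, Algebra.linearMap_apply]
    exact (g y).2
  have hθx : ∀ y, θ (x * y) = x * θ y := by
    intro y
    have h1 : x * y = (IntermediateField.AdjoinSimple.gen ℚ x : F) • y := by
      rw [Algebra.smul_def, IntermediateField.AdjoinSimple.algebraMap_gen]
    rw [h1, map_smul, Algebra.smul_def, IntermediateField.AdjoinSimple.algebraMap_gen]
  set θq : K →ₗ[ℚ] K := θ.restrictScalars ℚ with hθq
  have hθqa : ∀ y, θq y = θ y := fun y => rfl
  set D : Matrix ι ι ℚ := LinearMap.toMatrix b b θq with hD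
  have hDb : ∀ k, θ (b k) = ∑ j, D j k • b j := by
    intro k
    rw [← hθqa, ← b.sum_repr (θq (b k))]
    refine Finset.sum_congr rfl (fun j _ => ?_)
    rw [hD, LinearMap.toMatrix_apply]
  -- the matrix of the projection preserves the face
  have hDp : D ∈ pres L I := by
    intro y hy i hi
    apply Complex.ofReal_injective
    rw [Complex.ofReal_zero, Matrix.mulVec, dotProduct, Complex.ofReal_sum]
    have h1 : ∀ j, (((L i j * ((D.map (Rat.cast : ℚ → ℝ)).mulVec y) j : ℝ)) : ℂ) =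
        ∑ φ, P i φ * φ (b j) * ∑ k, ((D j k : ℚ) : ℂ) * (y k : ℂ) := by
      intro j
      rw [Complex.ofReal_mul, ← hP, Finset.sum_mul, Matrix.mulVec, dotProduct,
        Complex.ofReal_sum]
      refine Finset.sum_congr rfl (fun φ _ => ?_)
      congr 1
      refine Finset.sum_congr rfl (fun k _ => ?_)
      rw [Complex.ofReal_mul, Matrix.map_apply, Complex.ofReal_ratCast]
    simp_rw [h1]
    rw [Finset.sum_comm]
    refine Finset.sum_eq_zero (fun φ _ => ?_)
    by_cases hφ : P i φ = 0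
    · simp [hφ]
    have hφΦ : φ ∉ Φ := fun h => hφ ((hmemΦ φ).mp h i hi)
    have h2 : ∑ j, P i φ * φ (b j) * ∑ k, ((D j k : ℚ) : ℂ) * (y k : ℂ) =
        P i φ * ∑ k, φ (θ (b k)) * (y k : ℂ) := by
      simp_rw [Finset.mul_sum]
      rw [Finset.sum_comm]
      refine Finset.sum_congr rfl (fun k _ => ?_)
      rw [hDb k, map_sum, Finset.sum_mul, Finset.mul_sum]
      refine Finset.sum_congr rfl (fun j _ => ?_)
      rw [Algebra.smul_def, map_mul, eq_ratCast, map_ratCast]
      ring
    rw [h2]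
    -- expand the composite embedding
    obtain ⟨c, hc⟩ := emb_exists b (fun k => φ (θ (b k)))
    have hcall : ∀ z, ∑ ψ, c ψ * ψ z = φ (θ z) :=
      emb_ext b (φ.toRatAlgHom.toLinearMap ∘ₗ θq) c hc
    have hsupp : ∀ ψ, c ψ ≠ 0 → ψ ∉ Φ := by
      intro ψ hψ hψΦ
      have h3 : (fun ψ : K →+* ℂ => c ψ * (ψ x - φ x)) = 0 := by
        refine emb_indep b _ (fun k => ?_)
        have h4 : ∀ ψ : K →+* ℂ, c ψ * (ψ x - φ x) * ψ (b k) =
            c ψ * ψ (x * b k) - φ x * (c ψ * ψ (b k)) := by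
          intro ψ
          rw [map_mul]
          ring
        simp_rw [h4]
        rw [Finset.sum_sub_distrib, ← Finset.mul_sum, hcall, hcall, hθx, map_mul, sub_self]
      have h4 := congrFun h3 ψ
      simp only [Pi.zero_apply] at h4
      rcases mul_eq_zero.mp h4 with h5 | h5
      · exact hψ h5
      · exact hx ψ hψΦ φ hφΦ (sub_eq_zero.mp h5)
    have h3 : ∑ k, φ (θ (b k)) * (y k : ℂ) = 0 := by
      simp_rw [← hc, Finset.sum_mul]
      rw [Finset.sum_comm]
      refine Finset.sum_eq_zero (fun ψ _ => ?_)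
      by_cases hψ : c ψ = 0
      · simp [hψ]
      · simp_rw [mul_assoc]
        rw [← Finset.mul_sum, hvan ψ (hsupp ψ hψ) y hy, mul_zero]
    rw [h3, mul_zero]
  -- commutation forces the generator into the subfield
  have h1 := hcomm D hDp
  have hfβ : f β = LinearMap.toMatrix b b (LinearMap.mulLeft ℚ β) := by
    ext i j
    rw [LinearMap.toMatrix_apply, LinearMap.mulLeft_apply, hf β j, map_sum, Finset.sum_apply']
    simp [Finsupp.single_apply]
  rw [hfβ, hD, ← LinearMap.toMatrix_mul, ← LinearMap.toMatrix_mul] at h1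
  have h2 := (LinearMap.toMatrix b b).injective h1
  have h3 := LinearMap.congr_fun h2 1
  have h4 : θ β = β := by
    have h5 : θq (β * 1) = β * θq 1 := h3
    rw [mul_one, hθqa, hθqa, hθ1, mul_one] at h5
    exact h5
  have h5 : β ∈ F := by rw [← h4]; exact hθF β
  rw [eq_top_iff, ← hβ, IntermediateField.adjoin_simple_le_iff]
  exact h5

end Pool.Agent.H83.Sail
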