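import Mathlib
import Pool.Agent.H83.Sail.Comm

namespace Pool.Agent.H83.Sail

open NumberField NumberField.InfinitePlace NumberField.ComplexEmbedding
open Module Filter Topology Polynomial

section fin

variable {K : Type*} [Field K] [NumberField K] {ι : Type*} [Fintype ι] [DecidableEq ι]

/-- Nonvanishing generalised diagonal of the coefficient matrix. -/
theorem coeff_match (b : Basis ι ℚ K) (L : Matrix ι ι ℝ) (hL : L.det ≠ 0)
    (P : ι → (K →+* ℂ) → ℂ) (hP : ∀ i j, ∑ φ, P i φ * φ (b j) = (L i j : ℂ)) :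
    ∃ π : ι ≃ (K →+* ℂ), ∀ i, P i (π i) ≠ 0 := by
  have hcard : Fintype.card ι = Fintype.card (K →+* ℂ) := by
    rw [NumberField.Embeddings.card K ℂ, Module.finrank_eq_card_basis b]
  obtain ρ := Fintype.equivOfCardEq hcard
  refine exists_match ρ P (fun h0 => ?_)
  have h1 : L.map (algebraMap ℝ ℂ) =
      (Matrix.of fun i j => P i (ρ j)) * (Matrix.of fun j k => ρ j (b k)) := by
    ext i k
    rw [Matrix.map_apply, Matrix.mul_apply]
    simp only [Matrix.of_apply]
    rw [Equiv.sum_comp ρ (fun φ => P i φ * φ (b k)), hP]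
    rfl
  have h2 := congrArg Matrix.det h1
  rw [Matrix.det_mul, h0, zero_mul] at h2
  have h3 : (algebraMap ℝ ℂ) L.det = (L.map (algebraMap ℝ ℂ)).det := RingHom.map_det _ _
  rw [← h3] at h2
  exact hL ((map_eq_zero _).mp h2)

omit [DecidableEq ι] in
/-- The matrix of a unit of the multiplier ring is integral. -/
theorem unit_integral (b : Basis ι ℚ K) (f : K → Matrix ι ι ℚ)
    (hf : ∀ x j, x * b j = ∑ i, f x i j • b i) (u : (𝓞 K)ˣ) (hu : u ∈ Stab b) :
    ∃ A : Matrix ι ι ℤ, f (u : K) = A.map (Int.cast : ℤ → ℚ) := by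
  have h1 : ∀ j, ∃ v : ι → ℤ, ∑ i, v i • b i = (u : K) * b j := fun j =>
    lat_exists b (hu.1 _ (Submodule.subset_span ⟨j, rfl⟩))
  choose v hv using h1
  refine ⟨Matrix.of fun i j => v j i, ?_⟩
  ext i j
  rw [Matrix.map_apply, Matrix.of_apply]
  have h2 : ∑ i, ((f (u : K) i j) - (v j i : ℚ)) • b i = 0 := by
    simp_rw [sub_smul]
    rw [Finset.sum_sub_distrib, ← hf, ← hv j, sub_eq_zero]
    refine Finset.sum_congr rfl (fun i _ => ?_)
    rw [Int.cast_smul_eq_zsmul]
  have h3 := Fintype.linearIndependent_iff.mp b.linearIndependent _ h2 i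
  linarith

open scoped IntermediateField in
/-- The characteristic polynomial of the matrix of a primitive element is irreducible. -/
theorem charpoly_irred (b : Basis ι ℚ K) (f : K →ₐ[ℚ] Matrix ι ι ℚ) (x : K) (hx : ℚ⟮x⟯ = ⊤)
    [Nonempty ι] : Irreducible (f x).charpoly := by
  have hint : IsIntegral ℚ x := Algebra.IsIntegral.isIntegral x
  have h1 : aeval x (f x).charpoly = 0 := by
    have h2 : f (aeval x (f x).charpoly) = 0 := by
      rw [← Polynomial.aeval_algHom_apply, Matrix.aeval_self_charpoly]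
    have h3 : Function.Injective f := f.toRingHom.injective
    exact h3 (by rw [h2, map_zero])
  have h2 : minpoly ℚ x ∣ (f x).charpoly := minpoly.dvd ℚ x h1
  have h3 : (minpoly ℚ x).natDegree = (f x).charpoly.natDegree := by
    rw [Matrix.charpoly_natDegree_eq_dim, (Field.primitive_element_iff_minpoly_natDegree_eq ℚ x).mp hx,
      Module.finrank_eq_card_basis b]
  have h4 := Polynomial.eq_of_monic_of_dvd_of_natDegree_le (minpoly.monic hint)
    (Matrix.charpoly_monic (f x)) h2 h3.ge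
  rw [h4]
  exact minpoly.irreducible hint

open scoped IntermediateField in
/-- Last step: the integral matrix of the unit, and the eigenforms of every multiplication. -/
theorem finish (b : Basis ι ℚ K) (f : K →ₐ[ℚ] Matrix ι ι ℚ)
    (hf : ∀ x j, x * b j = ∑ i, f x i j • b i) (L : Matrix ι ι ℝ) (hL : L.det ≠ 0)
    (P : ι → (K →+* ℂ) → ℂ) (hP : ∀ i j, ∑ φ, P i φ * φ (b j) = (L i j : ℂ)) [Nonempty ι]
    (hreal : ∀ φ : K →+* ℂ, conjugate φ = φ) (π : ι ≃ (K →+* ℂ))
    (hP2 : ∀ i φ, P i φ ≠ 0 → φ = π i) (u : (𝓞 K)ˣ) (hu : u ∈ Stab b)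
    (huprim : ℚ⟮(u : K)⟯ = ⊤) (hupos : ∀ φ : K →+* ℂ, 0 < (φ (u : K)).re) (β : K) :
    ∃ (A : Matrix ι ι ℤ) (μ : ι → ℝ), A.det = 1 ∧
      Irreducible (A.charpoly.map (Int.castRingHom ℚ)) ∧ (∀ i, 0 < μ i) ∧
      L * A.map (Int.cast : ℤ → ℝ) = Matrix.diagonal μ * L ∧
      L * (f β).map (Rat.cast : ℚ → ℝ) = Matrix.diagonal (fun i => ((π i) β).re) * L := by
  have hrow : ∀ x : K, L * (f x).map (Rat.cast : ℚ → ℝ) =
      Matrix.diagonal (fun i => ((π i) x).re) * L := by
    intro x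
    ext i k
    have h1 := row_mul b f hf L P hP x i k
    rw [Matrix.diagonal_mul]
    apply Complex.ofReal_injective
    rw [h1, Complex.ofReal_mul, ← hP, Finset.mul_sum]
    refine Finset.sum_congr rfl (fun φ _ => ?_)
    by_cases h : P i φ = 0
    · rw [h]; ring
    · rw [hP2 i φ h, real_val hreal]; ring
  obtain ⟨A, hA⟩ := unit_integral b f hf u hu
  have hAR : (f (u : K)).map (Rat.cast : ℚ → ℝ) = A.map (Int.cast : ℤ → ℝ) := by
    rw [hA]
    ext i j
    simp only [Matrix.map_apply, Rat.cast_intCast]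
  set μ : ι → ℝ := fun i => ((π i) (u : K)).re with hμ
  have hLA : L * A.map (Int.cast : ℤ → ℝ) = Matrix.diagonal μ * L := by
    rw [← hAR]
    exact hrow u
  have hdetR : (A.map (Int.cast : ℤ → ℝ)).det = ∏ i, μ i := by
    have h1 := congrArg Matrix.det hLA
    rw [Matrix.det_mul, Matrix.det_mul, Matrix.det_diagonal, mul_comm] at h1
    exact mul_right_cancel₀ hL h1
  have hprod : ∏ i, μ i = 1 := by
    have h1 := prod_emb_unit u
    rw [← Equiv.prod_comp π] at h1
    rw [← h1]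
    refine Finset.prod_congr rfl (fun i _ => ?_)
    rw [← real_val hreal (π i) (u : K), Complex.norm_real, Real.norm_eq_abs,
      abs_of_pos (hupos _)]
  refine ⟨A, μ, ?_, ?_, fun i => hupos _, hLA, hrow β⟩
  · have h1 : ((A.det : ℤ) : ℝ) = 1 := by
      rw [← hprod, ← hdetR]
      exact (Int.castRingHom ℝ).map_det A
    exact_mod_cast h1
  · rw [← Matrix.charpoly_map]
    have h1 := charpoly_irred b f (u : K) huprim
    rw [hA] at h1
    exact h1

end fin

open scoped IntermediateField in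
/-- The main theorem in matrix form. -/
theorem main_gen {ι : Type*} [Fintype ι] [DecidableEq ι] (hn : 3 ≤ Fintype.card ι)
    (L : Matrix ι ι ℝ) (hL : L.det ≠ 0) (c : ℝ) (hc : 0 < c)
    (hmin : ∀ z : ι → ℤ, z ≠ 0 → c ≤ |∏ i, L.mulVec (fun j => (z j : ℝ)) i|)
    (B : Matrix ι ι ℚ) (hB : Irreducible B.charpoly) (I : Finset ι) (hI0 : I.Nonempty)
    (hI1 : I ≠ Finset.univ) (hE : B ∈ pres L I)
    (hcase : I.card.Coprime (Fintype.card ι) ∨ ∀ C ∈ pres L I, C * B = B * C) :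
    ∃ (A : Matrix ι ι ℤ) (μ ν : ι → ℝ), A.det = 1 ∧
      Irreducible (A.charpoly.map (Int.castRingHom ℚ)) ∧ (∀ i, 0 < μ i) ∧
      L * A.map (Int.cast : ℤ → ℝ) = Matrix.diagonal μ * L ∧
      L * B.map (Rat.cast : ℚ → ℝ) = Matrix.diagonal ν * L := by
  classical
  have hne : Nonempty ι := Fintype.card_pos_iff.mp (by omega)
  obtain ⟨K, _, _, f, b, β, hfβ, hβ, hf⟩ := exists_field B hB
  have hPex := fun i => emb_exists b (fun j => (L i j : ℂ))
  choose P hP using hPex
  obtain ⟨π, hπ⟩ := coeff_match b L hL P hP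
  have hcardK : Fintype.card (K →+* ℂ) = Fintype.card ι := (Fintype.card_congr π).symm
  have hI1 : I.card < Fintype.card ι :=
    lt_of_le_of_ne (Finset.card_le_univ I) (fun h => hI1 (Finset.card_eq_iff_eq_univ I |>.mp h))
  -- the embeddings on which the face forms vanish
  set Φ : Finset (K →+* ℂ) := Finset.univ.filter (fun φ => ∀ i, i ∉ I → P i φ = 0) with hΦ
  have hmemΦ : ∀ φ, φ ∈ Φ ↔ ∀ i, i ∉ I → P i φ = 0 := fun φ => by
    rw [hΦ, Finset.mem_filter]
    exact ⟨fun h => h.2, fun h => ⟨Finset.mem_univ _, h⟩⟩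
  have hspan : ∀ φ, φ ∉ Φ → (Pi.single φ 1 : (K →+* ℂ) → ℂ) ∈
      Submodule.span ℂ (Set.range (fun k : {k // k ∈ Iᶜ} => P k.1)) := by
    intro φ hφ
    rw [hmemΦ] at hφ
    push Not at hφ
    refine face_span b f hf L hL P hP β (fun φ ψ h => inj_of_primitive hβ φ ψ h) I ?_ φ hφ
    rw [hfβ]
    exact hE
  have hΦcard : Φᶜ.card ≤ Iᶜ.card := by
    have h1 := coord_count (fun k : {k // k ∈ Iᶜ} => P k.1) Φᶜ
      (fun φ hφ => hspan φ (Finset.mem_compl.mp hφ))
    rwa [Fintype.card_coe] at h1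
  have hsub : Iᶜ.map π.toEmbedding ⊆ Φᶜ := by
    intro φ hφ
    obtain ⟨i, hi, rfl⟩ := Finset.mem_map.mp hφ
    rw [Finset.mem_compl] at hi ⊢
    intro h
    exact hπ i ((hmemΦ _).mp h i hi)
  have heq : Iᶜ.map π.toEmbedding = Φᶜ :=
    Finset.eq_of_subset_of_card_le hsub (by rw [Finset.card_map]; exact hΦcard)
  have hπI : ∀ i, π i ∈ Φ ↔ i ∈ I := by
    intro i
    have h1 : π i ∈ Φᶜ ↔ i ∈ Iᶜ := by
      rw [← heq]
      exact Finset.mem_map' π.toEmbedding
    rw [Finset.mem_compl, Finset.mem_compl] at h1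
    exact not_iff_not.mp h1
  have hcard : Φ.card = I.card := by
    have h1 := congrArg Finset.card heq
    rw [Finset.card_map, Finset.card_compl, Finset.card_compl, hcardK] at h1
    have h2 := Finset.card_le_univ Φ
    rw [hcardK] at h2
    omega
  have hΦc : ∀ φ, conjugate φ ∈ Φ ↔ φ ∈ Φ := by
    intro φ
    rw [hmemΦ, hmemΦ]
    refine forall_congr' (fun i => forall_congr' (fun _ => ?_))
    rw [conj_coeff b (P i) (L i) (hP i) φ, map_eq_zero]
  have hN : ∀ α ∈ Lat b, α ≠ 0 → c ≤ ∏ i, ‖∑ φ, P i φ * φ α‖ := by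
    intro α hα hα0
    obtain ⟨v, rfl⟩ := lat_exists b hα
    have hv : v ≠ 0 := by
      rintro rfl
      apply hα0
      simp
    refine (hmin v hv).trans (le_of_eq ?_)
    rw [Finset.abs_prod]
    refine Finset.prod_congr rfl (fun i _ => ?_)
    rw [row_int b L P hP, Complex.norm_real, Real.norm_eq_abs]
  have hR : ∀ i, ∀ α ∈ Lat b, (∑ φ, P i φ * φ α).im = 0 := by
    intro i α hα
    obtain ⟨v, rfl⟩ := lat_exists b hα
    rw [row_int b L P hP, Complex.ofReal_im]
  have hprim : ∀ x : K, (∀ φ ∈ Φ, ∀ ψ, ψ ∉ Φ → φ x ≠ ψ x) → ℚ⟮x⟯ = ⊤ := by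
    intro x hx
    rcases hcase with hco | hcomm
    · refine primitive_of_coprime Φ ?_ hx
      rw [hcard, Module.finrank_eq_card_basis b]
      exact hco
    · exact primitive_of_comm b f hf L P hP β hβ I Φ hmemΦ
        (fun φ hφ x hx => face_vanish b L P hP I φ (hspan φ hφ) x hx)
        (by rw [hfβ]; exact hcomm) x hx
  obtain ⟨hreal, hP1, u, hu, huprim, hupos⟩ := core_one b P c hc hN hR π hπ I Φ hΦc hcard hI0
    hI1 hπI (fun i hi φ hφ => (hmemΦ φ).mp hφ i hi) hprim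
  have hP2 : ∀ i φ, P i φ ≠ 0 → φ = π i :=
    core_two b hn P c hc hN hR π hπ I Φ hπI hreal hP1
  obtain ⟨A, μ, hdet, hirr, hμ, hLA, hLB⟩ := finish b f hf L hL P hP hreal π hP2 u hu huprim
    hupos β
  rw [hfβ] at hLB
  exact ⟨A, μ, _, hdet, hirr, hμ, hLA, hLB⟩

end Pool.Agent.H83.Sail
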