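import Mathlib
import Pool.Agent.H83.Sail.FinNorm
import Pool.Agent.H83.Sail.Main

namespace Pool.Agent.H83.Sail

open Module Polynomial

variable {ι : Type*} [Fintype ι] [DecidableEq ι]

theorem aeval_diag (L : Matrix ι ι ℝ) (B : Matrix ι ι ℚ) (μ : ι → ℝ)
    (h : L * B.map (Rat.cast : ℚ → ℝ) = Matrix.diagonal μ * L) (p : ℚ[X]) :
    L * (aeval B p).map (Rat.cast : ℚ → ℝ) = Matrix.diagonal (fun i => aeval (μ i) p) * L := by
  have hpow : ∀ m : ℕ, L * (B ^ m).map (Rat.cast : ℚ → ℝ) =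
      Matrix.diagonal (fun i => μ i ^ m) * L := by
    intro m
    induction m with
    | zero =>
      have h1 : ((1 : Matrix ι ι ℚ)).map (Rat.cast : ℚ → ℝ) = 1 :=
        Matrix.map_one _ Rat.cast_zero Rat.cast_one
      simp only [pow_zero, h1, Matrix.mul_one, Matrix.diagonal_one, Matrix.one_mul]
    | succ m ih =>
      have h1 : (B ^ (m + 1)).map (Rat.cast : ℚ → ℝ) =
          (B ^ m).map (Rat.cast : ℚ → ℝ) * B.map (Rat.cast : ℚ → ℝ) := by
        rw [pow_succ]
        exact Matrix.map_mul (f := Rat.castHom ℝ)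
      rw [h1, ← Matrix.mul_assoc, ih, Matrix.mul_assoc, h, ← Matrix.mul_assoc,
        Matrix.diagonal_mul_diagonal]
      simp only [pow_succ]
  induction p using Polynomial.induction_on' with
  | add p q hp hq =>
    have h1 : (aeval B p + aeval B q).map (Rat.cast : ℚ → ℝ) =
        (aeval B p).map (Rat.cast : ℚ → ℝ) + (aeval B q).map (Rat.cast : ℚ → ℝ) := by
      ext i j
      simp only [Matrix.map_apply, Matrix.add_apply, Rat.cast_add]
    rw [map_add, h1, Matrix.mul_add, hp, hq, ← Matrix.add_mul, Matrix.diagonal_add]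
    simp only [map_add]
  | monomial m a =>
    rw [aeval_monomial, Algebra.algebraMap_eq_smul_one, smul_mul_assoc, one_mul]
    have h1 : (a • B ^ m).map (Rat.cast : ℚ → ℝ) = (a : ℝ) • (B ^ m).map (Rat.cast : ℚ → ℝ) := by
      ext i j
      simp only [Matrix.map_apply, Matrix.smul_apply, smul_eq_mul, Rat.cast_mul]
    rw [h1, Matrix.mul_smul, hpow]
    ext i j
    rw [Matrix.smul_apply, Matrix.diagonal_mul, Matrix.diagonal_mul, aeval_monomial, smul_eq_mul,
      eq_ratCast]
    ring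

/-- A rational matrix with distinct eigenvalues has a minimal polynomial of full degree. -/
theorem deg_of_inj (L : Matrix ι ι ℝ) (hL : L.det ≠ 0) (B : Matrix ι ι ℚ) (μ : ι → ℝ)
    (hμ : Function.Injective μ)
    (h : L * B.map (Rat.cast : ℚ → ℝ) = Matrix.diagonal μ * L) :
    (minpoly ℚ B).natDegree = Fintype.card ι := by
  have hunit : IsUnit L.det := isUnit_iff_ne_zero.mpr hL
  have hint : IsIntegral ℚ B := Matrix.isIntegral B
  refine le_antisymm ?_ ?_
  · have h1 := Polynomial.natDegree_le_of_dvd (Matrix.minpoly_dvd_charpoly B)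
      (Matrix.charpoly_monic B).ne_zero
    rwa [Matrix.charpoly_natDegree_eq_dim] at h1
  · have h0 : ∀ i, aeval (μ i) (minpoly ℚ B) = 0 := by
      intro i
      have h1 := aeval_diag L B μ h (minpoly ℚ B)
      rw [minpoly.aeval, Matrix.map_zero _ Rat.cast_zero, Matrix.mul_zero] at h1
      have h2 : Matrix.diagonal (fun i => aeval (μ i) (minpoly ℚ B)) = 0 := by
        have h3 := congrArg (fun M => M * L⁻¹) h1.symm
        beta_reduce at h3
        rwa [Matrix.mul_assoc, Matrix.mul_nonsing_inv L hunit, Matrix.mul_one,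
          Matrix.zero_mul] at h3
      have h3 := congrFun (congrFun h2 i) i
      rwa [Matrix.diagonal_apply_eq, Matrix.zero_apply] at h3
    have hne : (minpoly ℚ B).map (algebraMap ℚ ℝ) ≠ 0 :=
      (Polynomial.map_ne_zero_iff (algebraMap ℚ ℝ).injective).mpr (minpoly.ne_zero hint)
    have hsub : (Finset.univ.image μ).val ⊆ ((minpoly ℚ B).map (algebraMap ℚ ℝ)).roots := by
      intro x hx
      rw [Finset.mem_val, Finset.mem_image] at hx
      obtain ⟨i, -, rfl⟩ := hx
      rw [Polynomial.mem_roots hne, Polynomial.IsRoot, Polynomial.eval_map]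
      exact h0 i
    have h1 := Polynomial.card_le_degree_of_subset_roots hsub
    rwa [Finset.card_image_of_injective _ hμ, Finset.card_univ, Polynomial.natDegree_map] at h1

/-- Bounded type and finitely many norms on the vertices of the sail. -/
theorem fin_main (hn : 3 ≤ Fintype.card ι) (L : Matrix ι ι ℝ) (hL : L.det ≠ 0) (c : ℝ)
    (hc : 0 < c) (hmin : ∀ z : ι → ℤ, z ≠ 0 → c ≤ |∏ i, L.mulVec (fun j => (z j : ℝ)) i|)
    (s : ℕ → ι → ℝ) (hs0 : ∀ k i, 0 < s k i) (hs1 : ∀ k, ∏ i, s k i = 1)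
    (hsd : ∀ i j, i ≠ j → Filter.Tendsto (fun k => |Real.log (s k i / s k j)|)
      Filter.atTop Filter.atTop)
    (hfin : ∀ K : ℝ, {x : ℝ | ∃ v : ι → ℤ,
      (fun j => (v j : ℝ)) ∈ (convexHull ℝ (pts L)).extremePoints ℝ ∧
      (∃ k : ℕ, ∀ i, L.mulVec (fun j => (v j : ℝ)) i ≤ K * s k i) ∧
      x = ∏ i, L.mulVec (fun j => (v j : ℝ)) i}.Finite) :
    ∃ (A : Matrix ι ι ℤ) (μ : ι → ℝ), A.det = 1 ∧
      Irreducible (A.charpoly.map (Int.castRingHom ℚ)) ∧ (∀ i, 0 < μ i) ∧
      L * A.map (Int.cast : ℤ → ℝ) = Matrix.diagonal μ * L := by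
  have hne : Nonempty ι := Fintype.card_pos_iff.mp (by omega)
  obtain ⟨B, ν, hν, hLB⟩ := fin_norm L hL c hc hmin s hs0 hs1 hsd hfin
  obtain ⟨i0⟩ := hne
  have hne : Nonempty ι := ⟨i0⟩
  have hBp : B ∈ pres L {i0} := by
    intro x hx i hi
    rw [Matrix.mulVec_mulVec, hLB, ← Matrix.mulVec_mulVec, Matrix.mulVec_diagonal, hx i hi,
      mul_zero]
  have hco : ({i0} : Finset ι).card.Coprime (Fintype.card ι) := by
    rw [Finset.card_singleton]
    exact Nat.coprime_one_left _
  have hirr := charpoly_irred_of L hL c hc hmin {i0} hco B hBp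
    (Or.inl (deg_of_inj L hL B ν hν hLB))
  obtain ⟨A, μ, -, hdet, hAirr, hμ, hLA, -⟩ := main_gen hn L hL c hc hmin B hirr {i0}
    (Finset.singleton_nonempty _) (fun h => by
      have h1 := congrArg Finset.card h
      rw [Finset.card_singleton, Finset.card_univ] at h1
      omega) hBp (Or.inl hco)
  exact ⟨A, μ, hdet, hAirr, hμ, hLA⟩

end Pool.Agent.H83.Sail
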