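import Mathlib
import Pool.Agent.H83.Sail.Main
import Pool.Agent.H83.Sail.FinNorm

namespace Pool.Agent.H83.Sail

open NumberField NumberField.InfinitePlace NumberField.ComplexEmbedding
open Module Filter Topology
open scoped IntermediateField

variable {K : Type*} [Field K] [NumberField K] {ι : Type*} [Fintype ι]

/-- Units of the multiplier ring near every point of the trace zero hyperplane, in a totally real
field. -/
theorem exists_stab_near (b : Basis ι ℚ K) (hreal : ∀ φ : K →+* ℂ, conjugate φ = φ) :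
    ∃ C : ℝ, 0 ≤ C ∧ ∀ t : (K →+* ℂ) → ℝ, ∑ φ, t φ = 0 → ∃ u ∈ Stab b, ∀ φ : K →+* ℂ,
      |Real.log ‖φ (u : K)‖ - t φ| ≤ C := by
  classical
  obtain ⟨C, hC⟩ := exists_unit_near K
  obtain ⟨m, hm0, hm⟩ := exists_pow_mem_stab b
  have hm0' : (0 : ℝ) < m := by exact_mod_cast hm0
  refine ⟨m * |C|, by positivity, fun t ht => ?_⟩
  obtain ⟨u0, hu0⟩ := hC (fun w => t w.embedding / m) (by
    have h1 : ∑ w : InfinitePlace K, (mult w : ℝ) * (t w.embedding / m) =
        (∑ w : InfinitePlace K, (mult w : ℝ) * t w.embedding) / m := by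
      rw [Finset.sum_div]
      exact Finset.sum_congr rfl (fun w _ => by ring)
    rw [h1, ← sum_emb_eq t (fun φ => by rw [hreal φ]), ht, zero_div])
  refine ⟨u0 ^ m, hm u0, fun φ => ?_⟩
  have h1 := hu0 (InfinitePlace.mk φ)
  have h2 : (InfinitePlace.mk φ).embedding = φ := by
    rcases embedding_mk_eq φ with h | h
    · exact h
    · rw [h, hreal]
  rw [h2, InfinitePlace.apply] at h1
  rw [Units.coe_pow, map_pow, norm_pow, Real.log_pow]
  have h4 : (m : ℝ) * Real.log ‖φ (u0 : K)‖ - t φ =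
      m * (Real.log ‖φ (u0 : K)‖ - t φ / m) := by
    field_simp
  rw [h4, abs_mul, abs_of_pos hm0']
  exact mul_le_mul_of_nonneg_left (h1.trans (le_abs_self C)) hm0'.le

/-- Every sequence in a finite type is constant along a subsequence. -/
theorem pigeon_seq {α : Type*} [Finite α] (f : ℕ → α) :
    ∃ (a : α) (ψ : ℕ → ℕ), StrictMono ψ ∧ ∀ k, f (ψ k) = a := by
  obtain ⟨a, ha⟩ := Finite.exists_infinite_fiber f
  have h1 : (f ⁻¹' {a}).Infinite := Set.infinite_coe_iff.mp ha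
  refine ⟨a, Nat.nth (fun k => k ∈ f ⁻¹' {a}), Nat.nth_strictMono h1, fun k => ?_⟩
  exact Nat.nth_mem_of_infinite h1 k

/-- Forms that are eigenforms of a rational matrix with irreducible characteristic polynomial are
multiples of the embeddings of a totally real field. -/
theorem field_of_eigen [DecidableEq ι] [Nonempty ι] (Y : Matrix ι ι ℝ) (hY : Y.det ≠ 0)
    (A : Matrix ι ι ℚ) (hA : Irreducible A.charpoly) (μ : ι → ℝ)
    (hYA : Y * A.map (Rat.cast : ℚ → ℝ) = Matrix.diagonal μ * Y) :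
    ∃ (K : Type) (_ : Field K) (_ : NumberField K) (b : Basis ι ℚ K) (π : ι ≃ (K →+* ℂ))
      (q : ι → ℝ), (∀ φ : K →+* ℂ, conjugate φ = φ) ∧ (∀ i, q i ≠ 0) ∧
      ∀ i j, (Y i j : ℂ) = (q i : ℂ) * π i (b j) := by
  classical
  obtain ⟨K, hK1, hK2, f, b, β, hfβ, hβ, hf⟩ := exists_field A hA
  have hPex := fun i => emb_exists b (fun j => (Y i j : ℂ))
  choose P hP using hPex
  obtain ⟨π, hπ⟩ := coeff_match b Y hY P hP
  have hinj : ∀ φ ψ : K →+* ℂ, φ β = ψ β → φ = ψ := fun φ ψ h => inj_of_primitive hβ φ ψ h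
  have hsupp : ∀ i φ, P i φ ≠ 0 → φ β = (μ i : ℂ) := by
    intro i φ hφ
    have h1 : (fun φ : K →+* ℂ => P i φ * (φ β - (μ i : ℂ))) = 0 := by
      refine emb_indep b _ (fun k => ?_)
      have h2 := row_mul b f hf Y P hP β i k
      rw [hfβ, hYA, Matrix.diagonal_mul, Complex.ofReal_mul, ← hP i k, Finset.mul_sum] at h2
      have h3 : ∀ φ : K →+* ℂ, P i φ * (φ β - (μ i : ℂ)) * φ (b k) =
          P i φ * φ β * φ (b k) - (μ i : ℂ) * (P i φ * φ (b k)) := fun φ => by ring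
      simp_rw [h3]
      rw [Finset.sum_sub_distrib, ← h2, sub_self]
    have h4 := congrFun h1 φ
    rw [Pi.zero_apply] at h4
    rcases mul_eq_zero.mp h4 with h | h
    · exact absurd h hφ
    · exact sub_eq_zero.mp h
  have hπμ : ∀ i, π i β = (μ i : ℂ) := fun i => hsupp i (π i) (hπ i)
  have hP2 : ∀ i φ, P i φ ≠ 0 → φ = π i := fun i φ h =>
    hinj _ _ ((hsupp i φ h).trans (hπμ i).symm)
  have hreal : ∀ φ : K →+* ℂ, conjugate φ = φ := by
    intro φ
    obtain ⟨i, rfl⟩ := π.surjective φ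
    refine hinj _ _ ?_
    rw [conjugate_coe_eq, hπμ, Complex.conj_ofReal]
  have hPreal : ∀ i, (((P i (π i)).re : ℝ) : ℂ) = P i (π i) := fun i =>
    coeff_real b hreal (P i) (fun j => by rw [hP, Complex.ofReal_im]) (π i)
  have hq0 : ∀ i, (P i (π i)).re ≠ 0 := by
    intro i h
    refine hπ i ?_
    rw [← hPreal i, h, Complex.ofReal_zero]
  have hYq : ∀ i j, (Y i j : ℂ) = (((P i (π i)).re : ℝ) : ℂ) * π i (b j) := by
    intro i j
    rw [hPreal i, ← hP i j]
    refine Finset.sum_eq_single (π i) (fun φ _ hφ => ?_) (fun h => absurd (Finset.mem_univ _) h)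
    by_cases h : P i φ = 0
    · rw [h, zero_mul]
    · exact absurd (hP2 i φ h) hφ
  exact ⟨K, hK1, hK2, b, π, fun i => (P i (π i)).re, hreal, hq0, hYq⟩

theorem stab_norm_prod (u : (𝓞 K)ˣ) (π : ι ≃ (K →+* ℂ)) :
    ∏ m, ‖π m (u : K)‖ = 1 := by
  rw [← prod_emb_unit u]
  exact Fintype.prod_equiv π (fun m => ‖π m (u : K)‖) (fun φ => ‖φ (u : K)‖) (fun m => rfl)

/-- A unit stretching one root direction and no other one. -/
theorem unit_pick [DecidableEq ι] (b : Basis ι ℚ K) (hreal : ∀ φ : K →+* ℂ, conjugate φ = φ)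
    (π : ι ≃ (K →+* ℂ)) (i j : ι) (hij : i ≠ j) : ∃ C : ℝ, 0 ≤ C ∧ ∀ f : ℝ, 0 ≤ f →
      ∃ u ∈ Stab b, (Real.exp (f - C) ≤ ‖π j (u : K)‖ / ‖π i (u : K)‖ ∧
        ‖π j (u : K)‖ / ‖π i (u : K)‖ ≤ Real.exp (f + C)) ∧
        ∀ m l, (m, l) ≠ (i, j) → ‖π l (u : K)‖ / ‖π m (u : K)‖ ≤ Real.exp (f / 2 + C) := by
  classical
  obtain ⟨C, hC0, hC⟩ := exists_stab_near b hreal
  refine ⟨2 * C, by linarith, fun f hf => ?_⟩
  set t : ι → ℝ := fun m => if m = j then f / 2 else if m = i then -(f / 2) else 0 with ht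
  have hsum : ∑ φ : K →+* ℂ, t (π.symm φ) = 0 := by
    rw [← Fintype.sum_equiv π t (fun φ => t (π.symm φ)) (fun m => by rw [Equiv.symm_apply_apply])]
    have h1 : ∀ m, t m = (if m = j then f / 2 else 0) + (if m = i then -(f / 2) else 0) := by
      intro m
      rw [ht]
      simp only
      by_cases h : m = j
      · rw [if_pos h, if_pos h, if_neg (fun h' => hij (h'.symm.trans h)), add_zero]
      · rw [if_neg h, if_neg h, zero_add]
    simp_rw [h1]
    rw [Finset.sum_add_distrib, Finset.sum_ite_eq', Finset.sum_ite_eq',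
      if_pos (Finset.mem_univ _), if_pos (Finset.mem_univ _)]
    ring
  obtain ⟨u, hu, hlog⟩ := hC (fun φ => t (π.symm φ)) hsum
  have hlog' : ∀ m, |Real.log ‖π m (u : K)‖ - t m| ≤ C := by
    intro m
    have h1 := hlog (π m)
    rwa [Equiv.symm_apply_apply] at h1
  have hpos : ∀ m, 0 < ‖π m (u : K)‖ := by
    intro m
    rw [norm_pos_iff, Ne, map_eq_zero]
    exact Units.coe_ne_zero u
  have hratio : ∀ m l, ‖π l (u : K)‖ / ‖π m (u : K)‖ =
      Real.exp (Real.log ‖π l (u : K)‖ - Real.log ‖π m (u : K)‖) := by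
    intro m l
    rw [Real.exp_sub, Real.exp_log (hpos l), Real.exp_log (hpos m)]
  have htj : t j = f / 2 := if_pos rfl
  have hti : t i = -(f / 2) := (if_neg hij).trans (if_pos rfl)
  refine ⟨u, hu, ⟨?_, ?_⟩, fun m l hml => ?_⟩
  · rw [hratio]
    refine Real.exp_le_exp.mpr ?_
    have h1 := abs_le.mp (hlog' j)
    have h2 := abs_le.mp (hlog' i)
    rw [htj] at h1
    rw [hti] at h2
    linarith [h1.1, h2.2]
  · rw [hratio]
    refine Real.exp_le_exp.mpr ?_
    have h1 := abs_le.mp (hlog' j)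
    have h2 := abs_le.mp (hlog' i)
    rw [htj] at h1
    rw [hti] at h2
    linarith [h1.2, h2.1]
  · rw [hratio]
    refine Real.exp_le_exp.mpr ?_
    have h1 := abs_le.mp (hlog' l)
    have h2 := abs_le.mp (hlog' m)
    have h3 : t l - t m ≤ f / 2 := by
      rw [ht]
      simp only
      by_cases hl : l = j
      · have hm : m ≠ i := fun h => hml (by rw [h, hl])
        rw [if_pos hl]
        split_ifs <;> linarith
      · rw [if_neg hl]
        split_ifs <;> linarith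
    linarith [h1.2, h2.1]

/-- The norm bound after the action of a unit. -/
theorem transform [DecidableEq ι] (b : Basis ι ℚ K) (hreal : ∀ φ : K →+* ℂ, conjugate φ = φ)
    (π : ι ≃ (K →+* ℂ)) (q : ι → ℝ)
    (Y : Matrix ι ι ℝ) (hY : ∀ i j, (Y i j : ℂ) = (q i : ℂ) * π i (b j)) (c : ℝ)
    (M : Matrix ι ι ℝ) (hM0 : ∀ m, M m m ≠ 0) (hM : ∀ m, |M m m| ≤ 3 / 2)
    (hmin : ∀ z : ι → ℤ, z ≠ 0 → c ≤ |∏ i, (M * Y).mulVec (fun j => (z j : ℝ)) i|)
    (u : (𝓞 K)ˣ) (hu : u ∈ Stab b) (α : K) (hα : α ∈ Lat b) (hα0 : α ≠ 0) :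
    c ≤ (3 / 2) ^ Fintype.card ι * ∏ m, ‖∑ l, ((M m l / M m m *
      ((π l (u : K)).re / (π m (u : K)).re) : ℝ) : ℂ) * ((q l : ℂ) * π l α)‖ := by
  have hre : ∀ m, (((π m (u : K)).re : ℝ) : ℂ) = π m (u : K) := fun m =>
    real_val hreal (π m) (u : K)
  have hu0 : ∀ m, π m (u : K) ≠ 0 := by
    intro m
    rw [Ne, map_eq_zero]
    exact Units.coe_ne_zero u
  have hmem : (u : K) * α ∈ Lat b := hu.1 α hα
  obtain ⟨z, hz⟩ := lat_exists b hmem
  have hz0 : z ≠ 0 := by
    rintro rfl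
    have h1 : (u : K) * α = 0 := by rw [← hz]; simp
    rcases mul_eq_zero.mp h1 with h | h
    · exact Units.coe_ne_zero u h
    · exact hα0 h
  have hYz : ∀ l, ((Y.mulVec (fun j => (z j : ℝ)) l : ℝ) : ℂ) =
      (q l : ℂ) * (π l (u : K) * π l α) := by
    intro l
    rw [← map_mul, ← hz, Matrix.mulVec, dotProduct, Complex.ofReal_sum, map_sum, Finset.mul_sum]
    refine Finset.sum_congr rfl (fun j _ => ?_)
    rw [Complex.ofReal_mul, hY, zsmul_eq_mul, map_mul, map_intCast, Complex.ofReal_intCast]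
    ring
  have hrow : ∀ m, (((M * Y).mulVec (fun j => (z j : ℝ)) m : ℝ) : ℂ) =
      (M m m : ℂ) * π m (u : K) * ∑ l, ((M m l / M m m *
      ((π l (u : K)).re / (π m (u : K)).re) : ℝ) : ℂ) * ((q l : ℂ) * π l α) := by
    intro m
    rw [← Matrix.mulVec_mulVec, Matrix.mulVec, dotProduct, Complex.ofReal_sum, Finset.mul_sum]
    refine Finset.sum_congr rfl (fun l _ => ?_)
    rw [Complex.ofReal_mul, hYz, Complex.ofReal_mul, Complex.ofReal_div, Complex.ofReal_div,
      hre, hre]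
    have h1 : ((M m m : ℝ) : ℂ) ≠ 0 := Complex.ofReal_ne_zero.mpr (hM0 m)
    have h2 := hu0 m
    field_simp
  have h1 := hmin z hz0
  rw [Finset.abs_prod] at h1
  refine h1.trans ?_
  have h2 : ∀ m, |(M * Y).mulVec (fun j => (z j : ℝ)) m| = |M m m| * ‖π m (u : K)‖ *
      ‖∑ l, ((M m l / M m m * ((π l (u : K)).re / (π m (u : K)).re) : ℝ) : ℂ) *
        ((q l : ℂ) * π l α)‖ := by
    intro m
    rw [← Real.norm_eq_abs, ← Complex.norm_real, hrow, norm_mul, norm_mul, Complex.norm_real,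
      Real.norm_eq_abs]
  simp_rw [h2]
  rw [Finset.prod_mul_distrib, Finset.prod_mul_distrib, stab_norm_prod, mul_one]
  refine mul_le_mul_of_nonneg_right ?_ (Finset.prod_nonneg (fun _ _ => norm_nonneg _))
  calc ∏ m, |M m m| ≤ ∏ _m : ι, (3 / 2 : ℝ) :=
        Finset.prod_le_prod (fun _ _ => abs_nonneg _) (fun m _ => hM m)
    _ = (3 / 2) ^ Fintype.card ι := by rw [Finset.prod_const, Finset.card_univ]

/-- The two-term form cannot be bounded away from zero. -/
theorem two_terms_pi [DecidableEq ι] (hn : 3 ≤ Fintype.card ι) (b : Basis ι ℚ K)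
    (hreal : ∀ φ : K →+* ℂ, conjugate φ = φ)
    (π : ι ≃ (K →+* ℂ)) (q : ι → ℝ) (hq0 : ∀ i, q i ≠ 0) (i j : ι) (hij : i ≠ j) (g : ℝ)
    (hg : g ≠ 0) (c : ℝ) (hc : 0 < c)
    (hN : ∀ α ∈ Lat b, α ≠ 0 → c ≤ ∏ m, ‖∑ l, ((if m = l then (1 : ℝ) else
      if m = i ∧ l = j then g else 0 : ℝ) : ℂ) * ((q l : ℂ) * π l α)‖) : False := by
  classical
  obtain ⟨k, hki, hkj⟩ : ∃ k : ι, k ≠ i ∧ k ≠ j := by
    have h1 : ({i, j} : Finset ι).card < (Finset.univ : Finset ι).card := by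
      rw [Finset.card_pair hij, Finset.card_univ]
      omega
    obtain ⟨k, -, hk⟩ := Finset.exists_mem_notMem_of_card_lt_card h1
    rw [Finset.mem_insert, Finset.mem_singleton] at hk
    push Not at hk
    exact ⟨k, hk.1, hk.2⟩
  refine two_terms b hreal (π i) (π j) (π k) (fun h => hki (π.injective h))
    (fun h => hkj (π.injective h)) (fun h => hij (π.injective h).symm) (q i) (g * q j) (hq0 i)
    (mul_ne_zero hg (hq0 j)) (fun φ => |q (π.symm φ)|) (fun φ => abs_nonneg _) c hc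
    (fun α hα hα0 => ?_)
  refine (hN α hα hα0).trans (le_of_eq ?_)
  rw [← Finset.mul_prod_erase _ _ (Finset.mem_univ i)]
  congr 1
  · congr 1
    have h1 : ∀ l, ((if i = l then (1 : ℝ) else if i = i ∧ l = j then g else 0 : ℝ) : ℂ) *
        ((q l : ℂ) * π l α) = (if l = i then (q l : ℂ) * π l α else 0) +
          (if l = j then (g : ℂ) * ((q l : ℂ) * π l α) else 0) := by
      intro l
      by_cases hl : l = i
      · rw [if_pos hl.symm, if_pos hl, if_neg (fun h => hij (hl.symm.trans h)),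
          Complex.ofReal_one, one_mul, add_zero]
      · rw [if_neg (fun h => hl h.symm), if_neg hl, zero_add]
        by_cases hl' : l = j
        · rw [if_pos ⟨rfl, hl'⟩, if_pos hl']
        · rw [if_neg (fun h => hl' h.2), if_neg hl', Complex.ofReal_zero, zero_mul]
    rw [Finset.sum_congr rfl (fun l _ => h1 l), Finset.sum_add_distrib, Finset.sum_ite_eq',
      Finset.sum_ite_eq', if_pos (Finset.mem_univ _), if_pos (Finset.mem_univ _),
      Complex.ofReal_mul, mul_assoc]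
  · refine Finset.prod_bij (fun m _ => π m) (fun m hm => ?_) (fun m _ m' _ h => π.injective h)
      (fun φ hφ => ⟨π.symm φ, ?_, by rw [Equiv.apply_symm_apply]⟩) (fun m hm => ?_)
    · exact Finset.mem_erase.mpr ⟨fun h => (Finset.mem_erase.mp hm).1 (π.injective h),
        Finset.mem_univ _⟩
    · refine Finset.mem_erase.mpr ⟨fun h => (Finset.mem_erase.mp hφ).1 ?_, Finset.mem_univ _⟩
      rw [← h, Equiv.apply_symm_apply]
    · have hmi : m ≠ i := (Finset.mem_erase.mp hm).1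
      have h1 : ∀ l, ((if m = l then (1 : ℝ) else if m = i ∧ l = j then g else 0 : ℝ) : ℂ) *
          ((q l : ℂ) * π l α) = (if l = m then (q l : ℂ) * π l α else 0) := by
        intro l
        by_cases hl : l = m
        · rw [if_pos hl.symm, if_pos hl, Complex.ofReal_one, one_mul]
        · rw [if_neg (fun h => hl h.symm), if_neg hl, if_neg (fun h => hmi h.1),
            Complex.ofReal_zero, zero_mul]
      rw [Finset.sum_congr rfl (fun l _ => h1 l), Finset.sum_ite_eq',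
        if_pos (Finset.mem_univ _), norm_mul, Complex.norm_real,
        Real.norm_eq_abs, Equiv.symm_apply_apply]

/-- Normalised forms near a compact orbit, all of them off the orbit, contradict the norm bound. -/
theorem isolation_aux [DecidableEq ι] (hn : 3 ≤ Fintype.card ι) (b : Basis ι ℚ K)
    (hreal : ∀ φ : K →+* ℂ, conjugate φ = φ)
    (π : ι ≃ (K →+* ℂ)) (q : ι → ℝ) (hq0 : ∀ i, q i ≠ 0)
    (Y : Matrix ι ι ℝ) (hY : ∀ i j, (Y i j : ℂ) = (q i : ℂ) * π i (b j)) (c : ℝ) (hc : 0 < c)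
    (M : ℕ → Matrix ι ι ℝ) (hMt : ∀ m l, Tendsto (fun k => M k m l) atTop
      (𝓝 ((1 : Matrix ι ι ℝ) m l)))
    (hM1 : ∀ k m, 1 / 2 ≤ M k m m ∧ M k m m ≤ 3 / 2)
    (hM2 : ∀ k m l, m ≠ l → |M k m l| ≤ 1 / 2)
    (i j : ι) (hij : i ≠ j) (hne : ∀ k, M k i j ≠ 0)
    (hmax : ∀ k m l, m ≠ l → |M k m l / M k m m| ≤ |M k i j / M k i i|)
    (hmin : ∀ k, ∀ z : ι → ℤ, z ≠ 0 → c ≤ |∏ i, (M k * Y).mulVec (fun j => (z j : ℝ)) i|) :
    False := by
  classical
  have hM0 : ∀ k m, 0 < M k m m := fun k m => by linarith [(hM1 k m).1]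
  set F : ℕ → ℝ := fun k => |M k i j / M k i i| with hF
  have hFpos : ∀ k, 0 < F k := fun k => abs_pos.mpr (div_ne_zero (hne k) (hM0 k i).ne')
  have hF1 : ∀ k, F k ≤ 1 := by
    intro k
    rw [hF]
    simp only
    rw [abs_div, abs_of_pos (hM0 k i), div_le_one (hM0 k i)]
    exact (hM2 k i j hij).trans (hM1 k i).1
  set f : ℕ → ℝ := fun k => -Real.log (F k) with hf
  have hf0 : ∀ k, 0 ≤ f k := by
    intro k
    rw [hf]
    simp only
    have := Real.log_nonpos (hFpos k).le (hF1 k)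
    linarith
  have hFexp : ∀ k, F k = Real.exp (-(f k)) := by
    intro k
    rw [hf]
    simp only
    rw [neg_neg, Real.exp_log (hFpos k)]
  have hFt : Tendsto F atTop (𝓝 0) := by
    have h1 := (hMt i j).div (hMt i i) (by rw [Matrix.one_apply_eq]; exact one_ne_zero)
    rw [Matrix.one_apply_ne hij, zero_div] at h1
    have h2 := h1.abs
    rw [abs_zero] at h2
    exact h2
  obtain ⟨C, hC0, hpick⟩ := unit_pick b hreal π i j hij
  choose u hu hu1 hu2 using fun k => hpick (f k) (hf0 k)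
  have hre : ∀ k m, |(π m (u k : K)).re| = ‖π m (u k : K)‖ := by
    intro k m
    rw [← real_val hreal (π m) (u k : K), Complex.norm_real, Real.norm_eq_abs, Complex.ofReal_re]
  have hupos : ∀ k m, 0 < ‖π m (u k : K)‖ := by
    intro k m
    rw [norm_pos_iff, Ne, map_eq_zero]
    exact Units.coe_ne_zero (u k)
  set x : ℕ → ι → ι → ℝ := fun k m l => M k m l / M k m m *
      ((π l (u k : K)).re / (π m (u k : K)).re) with hx
  have hxabs : ∀ k m l, |x k m l| = |M k m l / M k m m| *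
      (‖π l (u k : K)‖ / ‖π m (u k : K)‖) := by
    intro k m l
    rw [hx]
    simp only
    rw [abs_mul, abs_div ((π l (u k : K)).re), hre, hre]
  have hxlow : ∀ k, Real.exp (-C) ≤ |x k i j| := by
    intro k
    rw [hxabs]
    have h1 : Real.exp (-C) = F k * Real.exp (f k - C) := by
      rw [hFexp, ← Real.exp_add]
      congr 1
      ring
    rw [h1]
    exact mul_le_mul_of_nonneg_left (hu1 k).1 (hFpos k).le
  have hxup : ∀ k, |x k i j| ≤ Real.exp C := by
    intro k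
    rw [hxabs]
    have h1 : Real.exp C = F k * Real.exp (f k + C) := by
      rw [hFexp, ← Real.exp_add]
      congr 1
      ring
    rw [h1]
    exact mul_le_mul_of_nonneg_left (hu1 k).2 (hFpos k).le
  have hxdiag : ∀ k m, x k m m = 1 := by
    intro k m
    rw [hx]
    simp only
    have h1 : (π m (u k : K)).re ≠ 0 := by
      rw [← abs_pos, hre]
      exact hupos k m
    rw [div_self (hM0 k m).ne', div_self h1, one_mul]
  have hxoff : ∀ m l, m ≠ l → ¬ (m = i ∧ l = j) → Tendsto (fun k => x k m l) atTop (𝓝 0) := by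
    intro m l hml hne'
    have h1 : ∀ k, |x k m l| ≤ Real.exp C * Real.sqrt (F k) := by
      intro k
      rw [hxabs]
      have h2 : |M k m l / M k m m| * (‖π l (u k : K)‖ / ‖π m (u k : K)‖) ≤
          F k * Real.exp (f k / 2 + C) := by
        refine mul_le_mul (hmax k m l hml) (hu2 k m l (fun h => hne' ?_))
          (div_pos (hupos k l) (hupos k m)).le (hFpos k).le
        exact Prod.mk.injEq _ _ _ _ ▸ h
      refine h2.trans (le_of_eq ?_)
      have h3 : Real.sqrt (F k) = Real.exp (-(f k) / 2) := by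
        rw [hFexp, Real.exp_half]
      rw [h3, hFexp, ← Real.exp_add, ← Real.exp_add]
      congr 1
      ring
    have h2 : Tendsto (fun k => Real.exp C * Real.sqrt (F k)) atTop (𝓝 0) := by
      have h3 := (hFt.sqrt).const_mul (Real.exp C)
      rw [Real.sqrt_zero, mul_zero] at h3
      exact h3
    exact squeeze_zero_norm (fun k => by rw [Real.norm_eq_abs]; exact h1 k) h2
  set U : Ultrafilter ℕ := hyperfilter ℕ with hU
  have hUle : (U : Filter ℕ) ≤ atTop := by
    rw [hU, ← Nat.cofinite_eq_atTop]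
    exact hyperfilter_le_cofinite
  obtain ⟨g, -, hgt⟩ := ultra_lim U (fun k => x k i j) (-Real.exp C) (Real.exp C)
    (fun k => abs_le.mp (hxup k))
  have hg : g ≠ 0 := by
    have h1 : Real.exp (-C) ≤ |g| := ge_of_tendsto' hgt.abs hxlow
    exact abs_pos.mp ((Real.exp_pos _).trans_le h1)
  have hxt : ∀ m l, Tendsto (fun k => x k m l) (U : Filter ℕ)
      (𝓝 (if m = l then (1 : ℝ) else if m = i ∧ l = j then g else 0)) := by
    intro m l
    by_cases h1 : m = l
    · rw [if_pos h1]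
      subst h1
      refine tendsto_const_nhds.congr (fun k => (hxdiag k m).symm)
    · rw [if_neg h1]
      by_cases h2 : m = i ∧ l = j
      · rw [if_pos h2, h2.1, h2.2]
        exact hgt
      · rw [if_neg h2]
        exact (hxoff m l h1 h2).mono_left hUle
  have h32 : (0 : ℝ) < (3 / 2) ^ Fintype.card ι := by positivity
  refine two_terms_pi hn b hreal π q hq0 i j hij g hg (c / (3 / 2) ^ Fintype.card ι)
    (div_pos hc h32) (fun α hα hα0 => ?_)
  have hineq : ∀ k, c / (3 / 2) ^ Fintype.card ι ≤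
      ∏ m, ‖∑ l, ((x k m l : ℝ) : ℂ) * ((q l : ℂ) * π l α)‖ := by
    intro k
    rw [div_le_iff₀ h32, mul_comm]
    exact transform b hreal π q Y hY c (M k) (fun m => (hM0 k m).ne')
      (fun m => by rw [abs_of_pos (hM0 k m)]; exact (hM1 k m).2) (hmin k) (u k) (hu k) α hα hα0
  have hlim : Tendsto (fun k => ∏ m, ‖∑ l, ((x k m l : ℝ) : ℂ) * ((q l : ℂ) * π l α)‖)
      (U : Filter ℕ) (𝓝 (∏ m, ‖∑ l, ((if m = l then (1 : ℝ) else
        if m = i ∧ l = j then g else 0 : ℝ) : ℂ) * ((q l : ℂ) * π l α)‖)) := by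
    refine tendsto_finsetProd _ (fun m _ => Tendsto.norm (tendsto_finsetSum _ (fun l _ => ?_)))
    exact ((Complex.continuous_ofReal.tendsto _).comp (hxt m l)).mul_const _
  exact ge_of_tendsto' hlim hineq

/-- Isolation of compact orbits among the forms bounded away from zero. -/
theorem isolation [DecidableEq ι] (hn : 3 ≤ Fintype.card ι) (Y : Matrix ι ι ℝ)
    (hYdet : Y.det ≠ 0) (A : Matrix ι ι ℚ) (hA : Irreducible A.charpoly) (μ : ι → ℝ)
    (hYA : Y * A.map (Rat.cast : ℚ → ℝ) = Matrix.diagonal μ * Y) (c : ℝ) (hc : 0 < c)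
    (L : ℕ → Matrix ι ι ℝ) (hL : Tendsto L atTop (𝓝 Y))
    (hmin : ∀ k, ∀ z : ι → ℤ, z ≠ 0 → c ≤ |∏ i, (L k).mulVec (fun j => (z j : ℝ)) i|) :
    ∀ᶠ k in atTop, ∃ D : ι → ℝ, L k = Matrix.diagonal D * Y := by
  classical
  have hne : Nonempty ι := Fintype.card_pos_iff.mp (by omega)
  obtain ⟨K, hK1, hK2, b, π, q, hreal, hq0, hY⟩ := field_of_eigen Y hYdet A hA μ hYA
  by_contra hcon
  rw [Filter.not_eventually] at hcon
  have hunit : IsUnit Y.det := isUnit_iff_ne_zero.mpr hYdet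
  have hEt : Tendsto (fun k => L k * Y⁻¹ - 1) atTop (𝓝 0) := sub_one_tendsto L Y hL hunit
  have hclose : ∀ᶠ k in atTop, ∀ i j, |(L k * Y⁻¹ - 1) i j| ≤ 1 / 2 := by
    refine eventually_all.mpr (fun i => eventually_all.mpr (fun j => ?_))
    have h1 := mat_tendsto' (fun k => L k * Y⁻¹ - 1) 0 hEt i j
    rw [Matrix.zero_apply] at h1
    have h2 := (Metric.tendsto_nhds.mp h1) (1 / 2) (by norm_num)
    filter_upwards [h2] with k hk
    rw [Real.dist_eq, sub_zero] at hk
    exact hk.le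
  obtain ⟨ψ1, hψ1, hbad⟩ := Filter.extraction_of_frequently_atTop (hcon.and_eventually hclose)
  have hMY : ∀ k, L (ψ1 k) * Y⁻¹ * Y = L (ψ1 k) := fun k => by
    rw [Matrix.mul_assoc, Matrix.nonsing_inv_mul Y hunit, Matrix.mul_one]
  have hMd : ∀ k m, 1 / 2 ≤ (L (ψ1 k) * Y⁻¹) m m ∧ (L (ψ1 k) * Y⁻¹) m m ≤ 3 / 2 := by
    intro k m
    have h1 := (hbad k).2 m m
    rw [Matrix.sub_apply, Matrix.one_apply_eq] at h1
    have h2 := abs_le.mp h1
    constructor <;> linarith [h2.1, h2.2]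
  have hMo : ∀ k m l, m ≠ l → |(L (ψ1 k) * Y⁻¹) m l| ≤ 1 / 2 := by
    intro k m l hml
    have h1 := (hbad k).2 m l
    rwa [Matrix.sub_apply, Matrix.one_apply_ne hml, sub_zero] at h1
  have hMt : ∀ m l, Tendsto (fun k => (L (ψ1 k) * Y⁻¹) m l) atTop
      (𝓝 ((1 : Matrix ι ι ℝ) m l)) := by
    intro m l
    have h1 := mat_tendsto' (fun k => L k * Y⁻¹ - 1) 0 hEt m l
    have h2 := (h1.comp hψ1.tendsto_atTop).add_const ((1 : Matrix ι ι ℝ) m l)
    rw [Matrix.zero_apply, zero_add] at h2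
    refine h2.congr (fun k => ?_)
    rw [Function.comp_apply, Matrix.sub_apply, sub_add_cancel]
  have hmax : ∀ k, ∃ p : ι × ι, p.1 ≠ p.2 ∧ (L (ψ1 k) * Y⁻¹) p.1 p.2 ≠ 0 ∧ ∀ m l, m ≠ l →
      |(L (ψ1 k) * Y⁻¹) m l / (L (ψ1 k) * Y⁻¹) m m| ≤
        |(L (ψ1 k) * Y⁻¹) p.1 p.2 / (L (ψ1 k) * Y⁻¹) p.1 p.1| := by
    intro k
    obtain ⟨m0, l0, hml0, hne0⟩ : ∃ m l, m ≠ l ∧ (L (ψ1 k) * Y⁻¹) m l ≠ 0 := by
      by_contra hno
      push Not at hno
      refine (hbad k).1 ⟨fun m => (L (ψ1 k) * Y⁻¹) m m, ?_⟩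
      have h1 : (L (ψ1 k) * Y⁻¹) = Matrix.diagonal (fun m => (L (ψ1 k) * Y⁻¹) m m) := by
        ext m l
        by_cases h : m = l
        · subst h
          rw [Matrix.diagonal_apply_eq]
        · rw [Matrix.diagonal_apply_ne _ h, hno m l h]
      rw [← h1, hMY]
    obtain ⟨p, hp, hpmax⟩ := Finset.exists_max_image
      (Finset.univ.filter (fun p : ι × ι => p.1 ≠ p.2))
      (fun p => |(L (ψ1 k) * Y⁻¹) p.1 p.2 / (L (ψ1 k) * Y⁻¹) p.1 p.1|)
      ⟨(m0, l0), Finset.mem_filter.mpr ⟨Finset.mem_univ _, hml0⟩⟩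
    refine ⟨p, (Finset.mem_filter.mp hp).2, fun h0 => ?_, fun m l hml =>
      hpmax (m, l) (Finset.mem_filter.mpr ⟨Finset.mem_univ _, hml⟩)⟩
    have h1 := hpmax (m0, l0) (Finset.mem_filter.mpr ⟨Finset.mem_univ _, hml0⟩)
    simp only at h1
    rw [h0, zero_div, abs_zero] at h1
    have h2 : 0 < |(L (ψ1 k) * Y⁻¹) m0 l0 / (L (ψ1 k) * Y⁻¹) m0 m0| :=
      abs_pos.mpr (div_ne_zero hne0 (by linarith [(hMd k m0).1]))
    linarith
  choose p hp1 hp2 hp3 using hmax
  obtain ⟨⟨i, j⟩, ψ2, hψ2, hpc⟩ := pigeon_seq p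
  refine isolation_aux hn b hreal π q hq0 Y hY c hc (fun k => L (ψ1 (ψ2 k)) * Y⁻¹)
    (fun m l => (hMt m l).comp hψ2.tendsto_atTop) (fun k m => hMd (ψ2 k) m)
    (fun k m l h => hMo (ψ2 k) m l h) i j ?_ (fun k => ?_) (fun k m l h => ?_) (fun k z hz => ?_)
  · have h1 := hp1 (ψ2 0)
    rw [hpc] at h1
    exact h1
  · have h1 := hp2 (ψ2 k)
    rw [hpc] at h1
    exact h1
  · have h1 := hp3 (ψ2 k) m l h
    rw [hpc] at h1
    exact h1
  · rw [hMY]
    exact hmin _ z hz

end Pool.Agent.H83.Sail
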