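import Mathlib
import Pool.Agent.H83.Sail.Frame

namespace Pool.Agent.H83.Sail

open Module

variable {ι : Type*} [Fintype ι] [DecidableEq ι]

/-- One step of the reduction: an integer frame of index larger than one can be improved. -/
theorem reduce_step (W : Matrix ι ι ℤ) (h0 : W.det ≠ 0) (h1 : ¬ IsUnit W.det) :
    ∃ (k : ι) (z r : ι → ℤ), W.det • z = W.mulVec r ∧ (∀ j, |r j| ≤ |W.det|) ∧
      (W.updateCol k z).det ≠ 0 ∧ (W.updateCol k z).det.natAbs < W.det.natAbs := by
  set D := W.det with hD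
  set q : ι → ι → ℤ := fun j k => W.adjugate k j / D with hq
  set r : ι → ι → ℤ := fun j k => W.adjugate k j % D with hr
  set z : ι → ι → ℤ := fun j => (Pi.single j 1 : ι → ℤ) - W.mulVec (q j) with hz
  have hDz : ∀ j, D • z j = W.mulVec (r j) := by
    intro j
    have h2 : (fun k => W.adjugate k j) = D • q j + r j := by
      funext k
      rw [Pi.add_apply, Pi.smul_apply, smul_eq_mul]
      exact (Int.mul_ediv_add_emod (W.adjugate k j) D).symm
    have h3 : W.mulVec (fun k => W.adjugate k j) = D • (Pi.single j 1 : ι → ℤ) := by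
      have h4 : (fun k => W.adjugate k j) = W.adjugate.mulVec (Pi.single j 1) := by
        rw [Matrix.mulVec_single_one]
        rfl
      rw [h4, Matrix.mulVec_mulVec, Matrix.mul_adjugate, Matrix.smul_mulVec, Matrix.one_mulVec]
    rw [h2, Matrix.mulVec_add, Matrix.mulVec_smul] at h3
    rw [hz]
    simp only
    rw [smul_sub, ← h3, add_sub_cancel_left]
  obtain ⟨j, k, hjk⟩ : ∃ j k, r j k ≠ 0 := by
    by_contra hno
    push Not at hno
    apply h1
    have h2 : ∀ j, z j = 0 := by
      intro j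
      have h3 := hDz j
      have h4 : r j = 0 := funext (fun k => hno j k)
      rw [h4, Matrix.mulVec_zero] at h3
      exact (smul_eq_zero.mp h3).resolve_left h0
    have h3 : W * Matrix.of (fun k j => q j k) = 1 := by
      ext i j
      have h4 := congrFun (h2 j) i
      rw [hz] at h4
      simp only at h4
      rw [Pi.sub_apply, Pi.zero_apply, sub_eq_zero, Pi.single_apply] at h4
      rw [Matrix.mul_apply, Matrix.one_apply, h4]
      rfl
    have h4 := congrArg Matrix.det h3
    rw [Matrix.det_mul, Matrix.det_one] at h4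
    exact IsUnit.of_mul_eq_one _ h4
  have hr0 : 0 ≤ r j k := Int.emod_nonneg _ h0
  have hr1 : r j k < |D| := Int.emod_lt_abs _ h0
  have hdet : (W.updateCol k (z j)).det = r j k := by
    have h2 : D * (W.updateCol k (z j)).det = D * r j k := by
      rw [← Matrix.det_updateCol_smul, hDz, ← Matrix.cramer_apply,
        Matrix.cramer_eq_adjugate_mulVec, Matrix.mulVec_mulVec, Matrix.adjugate_mul,
        Matrix.smul_mulVec, Matrix.one_mulVec, Pi.smul_apply, smul_eq_mul]
    exact mul_left_cancel₀ h0 h2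
  refine ⟨k, z j, r j, hDz j, fun l => ?_, by rw [hdet]; exact hjk, ?_⟩
  · rw [abs_of_nonneg (Int.emod_nonneg _ h0)]
    exact (Int.emod_lt_abs _ h0).le
  · rw [hdet]
    rw [← Int.natCast_natAbs] at hr1
    omega

theorem reduce_basis [Nonempty ι] (m : ℕ) : ∀ (W : Matrix ι ι ℤ), W.det ≠ 0 →
    W.det.natAbs ≤ m → ∀ (L : Matrix ι ι ℝ) (s : ι → ℝ), (∀ i, 0 ≤ s i) →
    (∀ i j, |(L * W.map (Int.cast : ℤ → ℝ)) i j| ≤ s i) →
    ∃ U : Matrix ι ι ℤ, IsUnit U.det ∧
      ∀ i j, |(L * U.map (Int.cast : ℤ → ℝ)) i j| ≤ (Fintype.card ι : ℝ) ^ m * s i := by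
  have hn1 : (1 : ℝ) ≤ (Fintype.card ι : ℝ) := by exact_mod_cast Fintype.card_pos
  induction m with
  | zero =>
    intro W h0 hm
    exact absurd (Int.natAbs_eq_zero.mp (Nat.le_zero.mp hm)) h0
  | succ m ih =>
    intro W h0 hm L s hs hW
    by_cases h1 : IsUnit W.det
    · refine ⟨W, h1, fun i j => (hW i j).trans ?_⟩
      exact le_mul_of_one_le_left (hs i) (one_le_pow₀ hn1)
    · obtain ⟨k, z, r, hz, hr, hne, hlt⟩ := reduce_step W h0 h1
      obtain ⟨U, hU, hUle⟩ := ih (W.updateCol k z) hne (by omega) L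
        (fun i => (Fintype.card ι : ℝ) * s i) (fun i => mul_nonneg (by linarith) (hs i)) (by
        intro i j
        by_cases hjk : j = k
        · subst hjk
          have h2 : (L * (W.updateCol j z).map (Int.cast : ℤ → ℝ)) i j =
              L.mulVec (fun l => (z l : ℝ)) i := by
            rw [Matrix.mul_apply, Matrix.mulVec, dotProduct]
            refine Finset.sum_congr rfl (fun l _ => ?_)
            rw [Matrix.map_apply, Matrix.updateCol_self]
          have hD0 : (0 : ℝ) < |(W.det : ℝ)| := abs_pos.mpr (Int.cast_ne_zero.mpr h0)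
          have h3 : (W.det : ℝ) * L.mulVec (fun l => (z l : ℝ)) i =
              ∑ l, (L * W.map (Int.cast : ℤ → ℝ)) i l * (r l : ℝ) := by
            have h4 : (fun l => ((W.det • z) l : ℝ)) =
                (W.map (Int.cast : ℤ → ℝ)).mulVec (fun l => (r l : ℝ)) := by
              funext l
              rw [hz]
              simp only [Matrix.mulVec, dotProduct, Matrix.map_apply, Int.cast_sum, Int.cast_mul]
            have h5 : (fun l => ((W.det • z) l : ℝ)) = (W.det : ℝ) • (fun l => (z l : ℝ)) := by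
              funext l
              rw [Pi.smul_apply, Pi.smul_apply, smul_eq_mul, smul_eq_mul, Int.cast_mul]
            have h6 : L.mulVec (fun l => ((W.det • z) l : ℝ)) i =
                (L * W.map (Int.cast : ℤ → ℝ)).mulVec (fun l => (r l : ℝ)) i := by
              rw [h4, Matrix.mulVec_mulVec]
            rw [h5, Matrix.mulVec_smul, Pi.smul_apply, smul_eq_mul] at h6
            rw [h6]
            rfl
          rw [h2]
          have h7 : |(W.det : ℝ)| * |L.mulVec (fun l => (z l : ℝ)) i| ≤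
              |(W.det : ℝ)| * ((Fintype.card ι : ℝ) * s i) := by
            rw [← abs_mul, h3]
            refine (Finset.abs_sum_le_sum_abs _ _).trans ?_
            have h8 : ∀ l ∈ Finset.univ, |(L * W.map (Int.cast : ℤ → ℝ)) i l * (r l : ℝ)| ≤
                s i * |(W.det : ℝ)| := by
              intro l _
              rw [abs_mul]
              refine mul_le_mul (hW i l) ?_ (abs_nonneg _) (hs i)
              have := hr l
              exact_mod_cast this
            refine (Finset.sum_le_sum h8).trans (le_of_eq ?_)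
            rw [Finset.sum_const, Finset.card_univ, nsmul_eq_mul]
            ring
          exact le_of_mul_le_mul_left h7 hD0
        · have h2 : (L * (W.updateCol k z).map (Int.cast : ℤ → ℝ)) i j =
              (L * W.map (Int.cast : ℤ → ℝ)) i j := by
            rw [Matrix.mul_apply, Matrix.mul_apply]
            refine Finset.sum_congr rfl (fun l _ => ?_)
            rw [Matrix.map_apply, Matrix.updateCol_ne hjk, Matrix.map_apply]
          rw [h2]
          exact (hW i j).trans (le_mul_of_one_le_left (hs i) hn1))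
      refine ⟨U, hU, fun i j => (hUle i j).trans (le_of_eq ?_)⟩
      rw [pow_succ]
      ring

/-- Frames of integer vectors adapted to a box of volume one, with uniform constants. -/
theorem frame_unif [Nonempty ι] (c d : ℝ) (hc : 0 < c) (hd : 0 ≤ d) :
    ∃ R : ℝ, 0 < R ∧ ∀ L : Matrix ι ι ℝ, L.det ≠ 0 → |L.det| ≤ d →
      (∀ z : ι → ℤ, z ≠ 0 → c ≤ |∏ i, L.mulVec (fun j => (z j : ℝ)) i|) →
      ∀ s : ι → ℝ, (∀ i, 0 < s i) → ∏ i, s i = 1 →
      ∃ W : Matrix ι ι ℤ, W.det ≠ 0 ∧
        ∀ i j, |(L * W.map (Int.cast : ℤ → ℝ)) i j| ≤ R * s i := by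
  set n : ℕ := Fintype.card ι with hn
  have hn1 : 1 ≤ n := Fintype.card_pos
  have hn1' : (1 : ℝ) ≤ n := by exact_mod_cast hn1
  set D : ℝ := d + 1 with hD
  have hD0 : 0 < D := by positivity
  set θ : ℝ := min 1 (c / n) with hθ
  have hθ0 : 0 < θ := lt_min one_pos (by positivity)
  have hθ1 : θ ≤ 1 := min_le_left _ _
  have hθn : θ * n ≤ c := by
    have h1 : θ ≤ c / n := min_le_right _ _
    rwa [le_div_iff₀ (by positivity)] at h1
  set Θ : ℝ := D / θ ^ (n - 1) with hΘ
  have hΘ0 : 0 < Θ := by positivity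
  refine ⟨max θ Θ, lt_max_of_lt_left hθ0, fun L hL hLd hmin s hs hs1 => ?_⟩
  have hz : ∀ j, ∃ z : ι → ℤ, c * s j ≤ |L.mulVec (fun k => (z k : ℝ)) j| ∧
      |L.mulVec (fun k => (z k : ℝ)) j| < Θ * s j ∧
      ∀ i, i ≠ j → |L.mulVec (fun k => (z k : ℝ)) i| < θ * s i := by
    intro j
    set ε : ι → ℝ := fun i => Function.update (fun _ => θ) j Θ i * s i with hε
    have hεj : ε j = Θ * s j := by
      rw [hε]
      simp only [Function.update_self]
    have hεi : ∀ i, i ≠ j → ε i = θ * s i := by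
      intro i hi
      rw [hε]
      simp only [Function.update_of_ne hi]
    have hε0 : ∀ i, 0 < ε i := by
      intro i
      by_cases h : i = j
      · rw [h, hεj]; exact mul_pos hΘ0 (hs j)
      · rw [hεi i h]; exact mul_pos hθ0 (hs i)
    have hprod : ∏ i, ε i = D := by
      rw [hε, Finset.prod_mul_distrib, Finset.prod_update_of_mem (Finset.mem_univ j),
        Finset.prod_const, Finset.card_sdiff_of_subset (Finset.subset_univ _),
        Finset.card_singleton, Finset.card_univ, ← hn, hs1, hΘ]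
      field_simp
    obtain ⟨z, hz0, hzlt⟩ := minkowski_box L hL ε hε0 (by rw [hprod, hD]; linarith)
    have hlow := lower_coord L c hmin ε hε0 z hz0 hzlt j
    rw [hprod, hεj] at hlow
    have hup := hzlt j
    rw [hεj] at hup
    refine ⟨z, le_trans ?_ hlow, hup, fun i hi => ?_⟩
    · have h1 : c / D * (Θ * s j) = c / θ ^ (n - 1) * s j := by
        rw [hΘ]
        field_simp
      rw [h1]
      refine mul_le_mul_of_nonneg_right ?_ (hs j).le
      rw [le_div_iff₀ (by positivity)]
      have h2 : θ ^ (n - 1) ≤ 1 := pow_le_one₀ hθ0.le hθ1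
      nlinarith
    · rw [← hεi i hi]
      exact hzlt i
  choose z hz1 hz2 hz3 using hz
  set W : Matrix ι ι ℤ := Matrix.of fun k j => z j k with hW
  have hLW : ∀ i j, (L * W.map (Int.cast : ℤ → ℝ)) i j = L.mulVec (fun k => (z j k : ℝ)) i := by
    intro i j
    rw [Matrix.mul_apply, Matrix.mulVec, dotProduct]
    rfl
  refine ⟨W, ?_, fun i j => ?_⟩
  · intro h0
    set N : Matrix ι ι ℝ := Matrix.diagonal (fun i => (s i)⁻¹) * (L * W.map (Int.cast : ℤ → ℝ))
      with hN
    have hNdet : N.det = 0 := by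
      have h1 : (W.map (Int.cast : ℤ → ℝ)).det = ((W.det : ℤ) : ℝ) :=
        ((Int.castRingHom ℝ).map_det W).symm
      rw [hN, Matrix.det_mul, Matrix.det_mul, h1, h0, Int.cast_zero, mul_zero, mul_zero]
    refine det_ne_zero_of_sum_row_lt_diag (A := N) (fun i => ?_) hNdet
    have hval : ∀ j, ‖N i j‖ = |L.mulVec (fun k => (z j k : ℝ)) i| / s i := by
      intro j
      rw [hN, Matrix.diagonal_mul, hLW, Real.norm_eq_abs, abs_mul, abs_inv, abs_of_pos (hs i),
        inv_mul_eq_div]
    rw [hval]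
    have h1 : ∑ j ∈ Finset.univ.erase i, ‖N i j‖ ≤ ∑ j ∈ Finset.univ.erase i, θ := by
      refine Finset.sum_le_sum (fun j hj => ?_)
      rw [hval, div_le_iff₀ (hs i)]
      exact (hz3 j i (Finset.ne_of_mem_erase hj).symm).le
    rw [Finset.sum_const, Finset.card_erase_of_mem (Finset.mem_univ i), Finset.card_univ,
      nsmul_eq_mul, ← hn, Nat.cast_sub hn1, Nat.cast_one] at h1
    have h2 : c ≤ |L.mulVec (fun k => (z i k : ℝ)) i| / s i := by
      rw [le_div_iff₀ (hs i)]
      exact hz1 i
    have h3 : ((n : ℝ) - 1) * θ < c := by nlinarith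
    linarith
  · rw [hLW]
    by_cases h : i = j
    · subst h
      exact (hz2 i).le.trans (mul_le_mul_of_nonneg_right (le_max_right _ _) (hs i).le)
    · exact (hz3 j i h).le.trans (mul_le_mul_of_nonneg_right (le_max_left _ _) (hs i).le)

/-- The forms with norm bounded below by `c` and determinant between `c` and `d`. -/
def Good (c d : ℝ) : Set (Matrix ι ι ℝ) :=
  {L | c ≤ |L.det| ∧ |L.det| ≤ d ∧
    ∀ z : ι → ℤ, z ≠ 0 → c ≤ |∏ i, L.mulVec (fun j => (z j : ℝ)) i|}

/-- Bases of the integer lattice adapted to a box of volume one. -/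
theorem frame_gl [Nonempty ι] (c d : ℝ) (hc : 0 < c) :
    ∃ R : ℝ, 0 < R ∧ ∀ L : Matrix ι ι ℝ, L ∈ Good c d →
      ∀ s : ι → ℝ, (∀ i, 0 < s i) → ∏ i, s i = 1 →
      ∃ U : Matrix ι ι ℤ, IsUnit U.det ∧
        ∀ i j, |(L * U.map (Int.cast : ℤ → ℝ)) i j| ≤ R * s i := by
  by_cases hd : 0 ≤ d
  swap
  · refine ⟨1, one_pos, fun L hL => ?_⟩
    exact absurd ((abs_nonneg _).trans hL.2.1) hd
  obtain ⟨R, hR, hframe⟩ := frame_unif (ι := ι) c d hc hd
  obtain ⟨m, hm⟩ := exists_nat_ge (((Fintype.card ι).factorial : ℝ) * R ^ Fintype.card ι / c)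
  have hn1 : (0 : ℝ) < (Fintype.card ι : ℝ) := by exact_mod_cast Fintype.card_pos
  refine ⟨(Fintype.card ι : ℝ) ^ m * R, by positivity, fun L hL s hs hs1 => ?_⟩
  have hLdet : L.det ≠ 0 := abs_pos.mp (hc.trans_le hL.1)
  obtain ⟨W, hW0, hW⟩ := hframe L hLdet hL.2.1 hL.2.2 s hs hs1
  have hWle : W.det.natAbs ≤ m := by
    set N : Matrix ι ι ℝ := Matrix.diagonal (fun i => (s i)⁻¹) * (L * W.map (Int.cast : ℤ → ℝ))
      with hN
    have h1 : (W.map (Int.cast : ℤ → ℝ)).det = ((W.det : ℤ) : ℝ) :=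
      ((Int.castRingHom ℝ).map_det W).symm
    have h2 : N.det = L.det * (W.det : ℝ) := by
      rw [hN, Matrix.det_mul, Matrix.det_mul, h1, Matrix.det_diagonal, Finset.prod_inv_distrib,
        hs1, inv_one, one_mul]
    have h3 : ∀ i j, AbsoluteValue.abs (N i j) ≤ R := by
      intro i j
      rw [AbsoluteValue.abs_apply, hN, Matrix.diagonal_mul, abs_mul, abs_inv, abs_of_pos (hs i),
        inv_mul_le_iff₀ (hs i), mul_comm]
      exact hW i j
    have h4 := Matrix.det_le (A := N) (abv := AbsoluteValue.abs) (x := R) h3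
    rw [AbsoluteValue.abs_apply, h2, abs_mul, nsmul_eq_mul] at h4
    have h5 : c * |(W.det : ℝ)| ≤ ((Fintype.card ι).factorial : ℝ) * R ^ Fintype.card ι :=
      (mul_le_mul_of_nonneg_right hL.1 (abs_nonneg _)).trans h4
    have h6 : |(W.det : ℝ)| ≤ m := by
      refine le_trans ?_ hm
      rw [le_div_iff₀ hc, mul_comm]
      exact h5
    have h7 : ((W.det.natAbs : ℕ) : ℝ) = |(W.det : ℝ)| := by
      rw [Nat.cast_natAbs, Int.cast_abs]
    rw [← h7] at h6
    exact_mod_cast h6
  obtain ⟨U, hU, hUle⟩ := reduce_basis m W hW0 hWle L (fun i => R * s i)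
    (fun i => (mul_pos hR (hs i)).le) hW
  exact ⟨U, hU, fun i j => (hUle i j).trans (le_of_eq (by ring))⟩

end Pool.Agent.H83.Sail
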