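import Mathlib
import Pool.Agent.H83.Sail.Gl
import Pool.Agent.H83.Sail.FinNorm

namespace Pool.Agent.H83.Sail

open Module Filter Topology

variable {ι : Type*} [Fintype ι] [DecidableEq ι]

omit [DecidableEq ι] in
/-- The integer point `v` is the only minimum, on the nonzero integer points of the cone, of a
functional that is positive on the cone. -/
def Expo (L : Matrix ι ι ℝ) (v : ι → ℤ) : Prop :=
  (∀ i, 0 < L.mulVec (fun j => (v j : ℝ)) i) ∧ ∃ w : ι → ℝ, (∀ i, 0 < w i) ∧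
    ∀ z : ι → ℤ, z ≠ 0 → z ≠ v → (∀ i, 0 ≤ L.mulVec (fun j => (z j : ℝ)) i) →
      ∑ i, w i * L.mulVec (fun j => (v j : ℝ)) i < ∑ i, w i * L.mulVec (fun j => (z j : ℝ)) i

omit [DecidableEq ι] in
/-- Exposed points are vertices of the sail. -/
theorem Expo.extreme [Nonempty ι] {L : Matrix ι ι ℝ} {v : ι → ℤ} (h : Expo L v) :
    (fun j => (v j : ℝ)) ∈ (convexHull ℝ (pts L)).extremePoints ℝ := by
  obtain ⟨hv, w, hw, hmin⟩ := h
  set x0 : ι → ℝ := fun j => (v j : ℝ) with hx0
  have hv0 : x0 ≠ 0 := by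
    intro h0
    obtain ⟨i0⟩ := (inferInstance : Nonempty ι)
    have h1 := hv i0
    rw [h0, Matrix.mulVec_zero, Pi.zero_apply] at h1
    exact lt_irrefl _ h1
  have hmem : x0 ∈ pts L := ⟨fun i => (hv i).le, hv0, v, rfl⟩
  set l : (ι → ℝ) → ℝ := fun x => ∑ i, w i * L.mulVec x i with hl
  have hlin : ∀ (a b : ℝ) (x y : ι → ℝ), l (a • x + b • y) = a * l x + b * l y := by
    intro a b x y
    rw [hl]
    simp only
    rw [Matrix.mulVec_add, Matrix.mulVec_smul, Matrix.mulVec_smul, Finset.mul_sum, Finset.mul_sum,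
      ← Finset.sum_add_distrib]
    refine Finset.sum_congr rfl (fun i _ => ?_)
    rw [Pi.add_apply, Pi.smul_apply, Pi.smul_apply, smul_eq_mul, smul_eq_mul]
    ring
  set T : Set (ι → ℝ) := {x | x = x0 ∨ l x0 < l x} with hT
  have hTconv : Convex ℝ T := by
    intro x hx y hy a b ha hb hab
    rcases hx with hx | hx
    · rcases hy with hy | hy
      · left
        rw [hx, hy, ← add_smul, hab, one_smul]
      · rcases eq_or_lt_of_le hb with hb0 | hb0
        · left
          rw [← hb0, add_zero] at hab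
          rw [← hb0, hab, one_smul, zero_smul, add_zero, hx]
        · right
          rw [hlin, hx]
          have : l x0 = a * l x0 + b * l x0 := by rw [← add_mul, hab, one_mul]
          nlinarith
    · rcases hy with hy | hy
      · rcases eq_or_lt_of_le ha with ha0 | ha0
        · left
          rw [← ha0, zero_add] at hab
          rw [← ha0, hab, one_smul, zero_smul, zero_add, hy]
        · right
          rw [hlin, hy]
          have : l x0 = a * l x0 + b * l x0 := by rw [← add_mul, hab, one_mul]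
          nlinarith
      · right
        rw [hlin]
        have h1 : l x0 = a * l x0 + b * l x0 := by rw [← add_mul, hab, one_mul]
        rcases eq_or_lt_of_le ha with ha0 | ha0
        · rw [← ha0, zero_add] at hab
          rw [← ha0, hab]
          linarith
        · nlinarith [mul_lt_mul_of_pos_left hx ha0, mul_le_mul_of_nonneg_left hy.le hb]
  have hsub : convexHull ℝ (pts L) ⊆ T := by
    refine convexHull_min ?_ hTconv
    rintro x ⟨hx1, hx2, z, rfl⟩
    by_cases hzv : z = v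
    · left
      rw [hzv]
    · right
      refine hmin z (fun h0 => hx2 ?_) hzv hx1
      rw [h0]
      funext j
      simp
  refine ⟨subset_convexHull ℝ _ hmem, fun x hx y hy hxy => ?_⟩
  obtain ⟨a, b, ha, hb, hab, hxy⟩ := hxy
  have h1 : l x0 = a * l x + b * l y := by rw [← hlin, hxy]
  have h2 : l x0 = a * l x0 + b * l x0 := by rw [← add_mul, hab, one_mul]
  rcases hsub hx with h3 | h3
  · exact h3
  · exfalso
    have h4 : l x0 ≤ l y := by
      rcases hsub hy with h | h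
      · rw [h]
      · exact h.le
    nlinarith [mul_lt_mul_of_pos_left h3 ha, mul_le_mul_of_nonneg_left h4 hb.le]

theorem bound_near {F : Filter ℕ} (A : ℕ → Matrix ι ι ℝ) (L : Matrix ι ι ℝ) (hL : L.det ≠ 0)
    (hA : Tendsto A F (𝓝 L)) :
    ∃ C : ℝ, 0 < C ∧ ∀ᶠ k in F, ∀ (z : ι → ℝ) (j : ι), |z j| ≤ C * ∑ i, |(A k).mulVec z i| := by
  have hunit : IsUnit L.det := isUnit_iff_ne_zero.mpr hL
  set C0 : ℝ := (∑ j, ∑ i, |L⁻¹ j i|) + 1 with hC0
  have hC0' : 0 < C0 := by positivity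
  set n : ℝ := (Fintype.card ι : ℝ) with hn
  have hn0 : 0 ≤ n := Nat.cast_nonneg _
  set η : ℝ := 1 / (2 * C0 * n + 1) with hη
  have hη0 : 0 < η := by positivity
  have hηn : C0 * (n * η) ≤ 1 / 2 := by
    rw [hη, mul_one_div, mul_div_assoc', div_le_iff₀ (by positivity)]
    nlinarith
  have hclose : ∀ᶠ k in F, ∀ i j, |L i j - A k i j| ≤ η := by
    refine eventually_all.mpr (fun i => eventually_all.mpr (fun j => ?_))
    have h2 := (Metric.tendsto_nhds.mp (mat_tendsto' A L hA i j)) η hη0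
    filter_upwards [h2] with k hk
    rw [Real.dist_eq, abs_sub_comm] at hk
    exact hk.le
  refine ⟨2 * C0, by positivity, ?_⟩
  filter_upwards [hclose] with k hk z j
  set Z : ℝ := ∑ j, |z j| with hZ
  have hZ0 : 0 ≤ Z := Finset.sum_nonneg (fun _ _ => abs_nonneg _)
  have h1 : ∀ j, |z j| ≤ (∑ i, |L⁻¹ j i|) * ∑ i, |L.mulVec z i| := by
    intro j
    have h2 : z = L⁻¹.mulVec (L.mulVec z) := by
      rw [Matrix.mulVec_mulVec, Matrix.nonsing_inv_mul L hunit, Matrix.one_mulVec]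
    have h3 := congrFun h2 j
    rw [h3, Matrix.mulVec, dotProduct, Finset.sum_mul]
    refine (Finset.abs_sum_le_sum_abs _ _).trans (Finset.sum_le_sum (fun i _ => ?_))
    rw [abs_mul]
    refine mul_le_mul_of_nonneg_left ?_ (abs_nonneg _)
    exact Finset.single_le_sum (f := fun i => |L.mulVec z i|) (fun _ _ => abs_nonneg _)
      (Finset.mem_univ i)
  have h2 : Z ≤ C0 * ∑ i, |L.mulVec z i| := by
    calc Z ≤ ∑ j, ((∑ i, |L⁻¹ j i|) * ∑ i, |L.mulVec z i|) := Finset.sum_le_sum (fun j _ => h1 j)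
      _ = (∑ j, ∑ i, |L⁻¹ j i|) * ∑ i, |L.mulVec z i| := by rw [Finset.sum_mul]
      _ ≤ C0 * ∑ i, |L.mulVec z i| := by
          refine mul_le_mul_of_nonneg_right ?_ (Finset.sum_nonneg (fun _ _ => abs_nonneg _))
          rw [hC0]
          linarith
  have h3 : ∑ i, |L.mulVec z i| ≤ (∑ i, |(A k).mulVec z i|) + n * η * Z := by
    have h4 : ∀ i, |L.mulVec z i| ≤ |(A k).mulVec z i| + η * Z := by
      intro i
      have h5 : L.mulVec z i = (A k).mulVec z i + ∑ j, (L i j - A k i j) * z j := by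
        rw [Matrix.mulVec, Matrix.mulVec, dotProduct, dotProduct, ← Finset.sum_add_distrib]
        exact Finset.sum_congr rfl (fun j _ => by ring)
      rw [h5]
      refine (abs_add_le _ _).trans (add_le_add le_rfl ?_)
      refine (Finset.abs_sum_le_sum_abs _ _).trans ?_
      rw [hZ, Finset.mul_sum]
      refine Finset.sum_le_sum (fun j _ => ?_)
      rw [abs_mul]
      exact mul_le_mul_of_nonneg_right (hk i j) (abs_nonneg _)
    calc ∑ i, |L.mulVec z i| ≤ ∑ i, (|(A k).mulVec z i| + η * Z) :=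
          Finset.sum_le_sum (fun i _ => h4 i)
      _ = (∑ i, |(A k).mulVec z i|) + n * η * Z := by
          rw [Finset.sum_add_distrib, Finset.sum_const, Finset.card_univ, nsmul_eq_mul, ← hn]
          ring
  have h4 : Z ≤ 2 * C0 * ∑ i, |(A k).mulVec z i| := by
    have h5 : C0 * ∑ i, |L.mulVec z i| ≤ C0 * (∑ i, |(A k).mulVec z i|) + 1 / 2 * Z := by
      calc C0 * ∑ i, |L.mulVec z i| ≤ C0 * ((∑ i, |(A k).mulVec z i|) + n * η * Z) :=
            mul_le_mul_of_nonneg_left h3 hC0'.le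
        _ = C0 * (∑ i, |(A k).mulVec z i|) + C0 * (n * η) * Z := by ring
        _ ≤ C0 * (∑ i, |(A k).mulVec z i|) + 1 / 2 * Z := by
            have := mul_le_mul_of_nonneg_right hηn hZ0
            linarith
    linarith
  refine le_trans ?_ h4
  exact Finset.single_le_sum (f := fun j => |z j|) (fun _ _ => abs_nonneg _) (Finset.mem_univ j)

omit [DecidableEq ι] in
theorem row_tendsto {F : Filter ℕ} (A : ℕ → Matrix ι ι ℝ) (L : Matrix ι ι ℝ)
    (hA : Tendsto A F (𝓝 L)) (z : ι → ℝ) (i : ι) :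
    Tendsto (fun k => (A k).mulVec z i) F (𝓝 (L.mulVec z i)) :=
  tendsto_pi_nhds.mp (mulVec_tendsto A L hA z) i

/-- Exposed points persist under small changes of the forms. -/
theorem expo_open [Nonempty ι] {F : Filter ℕ} (A : ℕ → Matrix ι ι ℝ) (L : Matrix ι ι ℝ)
    (hL : L.det ≠ 0) (hA : Tendsto A F (𝓝 L)) (v : ι → ℤ) (hv : Expo L v) : ∀ᶠ k in F, Expo (A k) v := by
  obtain ⟨hv0, w, hw, hmin⟩ := hv
  obtain ⟨C, hC0, hC⟩ := bound_near A L hL hA
  obtain ⟨i0, -, hi0⟩ := Finset.exists_min_image Finset.univ w Finset.univ_nonempty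
  set B : ℝ := (∑ i, w i * L.mulVec (fun j => (v j : ℝ)) i) + 1 with hB
  have hsumt : ∀ z : ι → ℤ, Tendsto (fun k => ∑ i, w i * (A k).mulVec (fun j => (z j : ℝ)) i) F
      (𝓝 (∑ i, w i * L.mulVec (fun j => (z j : ℝ)) i)) := fun z =>
    tendsto_finsetSum _ (fun i _ => (row_tendsto A L hA _ i).const_mul _)
  have hvB : ∀ᶠ k in F, ∑ i, w i * (A k).mulVec (fun j => (v j : ℝ)) i < B :=
    (hsumt v).eventually_lt_const (by rw [hB]; linarith)
  have hvpos : ∀ᶠ k in F, ∀ i, 0 < (A k).mulVec (fun j => (v j : ℝ)) i :=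
    eventually_all.mpr (fun i => (row_tendsto A L hA _ i).eventually_const_lt (hv0 i))
  set N : ℝ := C * (B / w i0) with hN
  have hS : {z : ι → ℤ | ∀ i, |(1 : Matrix ι ι ℝ).mulVec (fun j => (z j : ℝ)) i| ≤ N}.Finite :=
    finite_box (1 : Matrix ι ι ℝ) (by rw [Matrix.det_one]; exact one_ne_zero) (fun _ => N)
  have hSall : ∀ᶠ k in F, ∀ z ∈ {z : ι → ℤ |
      ∀ i, |(1 : Matrix ι ι ℝ).mulVec (fun j => (z j : ℝ)) i| ≤ N},
      z ≠ 0 → z ≠ v → (∀ i, 0 ≤ (A k).mulVec (fun j => (z j : ℝ)) i) →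
      ∑ i, w i * (A k).mulVec (fun j => (v j : ℝ)) i <
        ∑ i, w i * (A k).mulVec (fun j => (z j : ℝ)) i := by
    refine (eventually_all_finite hS).mpr (fun z _ => ?_)
    by_cases hz0 : z = 0
    · exact Filter.Eventually.of_forall (fun k h => absurd hz0 h)
    by_cases hzv : z = v
    · exact Filter.Eventually.of_forall (fun k _ h => absurd hzv h)
    by_cases hpos : ∀ i, 0 ≤ L.mulVec (fun j => (z j : ℝ)) i
    · filter_upwards [(hsumt v).eventually_lt (hsumt z) (hmin z hz0 hzv hpos)] with k hk _ _ _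
      exact hk
    · push Not at hpos
      obtain ⟨i, hi⟩ := hpos
      filter_upwards [(row_tendsto A L hA (fun j => (z j : ℝ)) i).eventually_lt_const hi]
        with k hk _ _ h
      exact absurd (h i) (not_le.mpr hk)
  filter_upwards [hC, hvB, hvpos, hSall] with k hk1 hk2 hk3 hk4
  refine ⟨hk3, w, hw, fun z hz0 hzv hzpos => ?_⟩
  by_contra hcon
  push Not at hcon
  have h1 : ∑ i, w i * (A k).mulVec (fun j => (z j : ℝ)) i < B := lt_of_le_of_lt hcon hk2
  have h2 : w i0 * ∑ i, |(A k).mulVec (fun j => (z j : ℝ)) i| ≤ B := by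
    refine le_trans ?_ h1.le
    rw [Finset.mul_sum]
    refine Finset.sum_le_sum (fun i _ => ?_)
    rw [abs_of_nonneg (hzpos i)]
    exact mul_le_mul_of_nonneg_right (hi0 i (Finset.mem_univ i)) (hzpos i)
  have h3 : ∑ i, |(A k).mulVec (fun j => (z j : ℝ)) i| ≤ B / w i0 := by
    rw [le_div_iff₀ (hw i0), mul_comm]
    exact h2
  have h4 := hk4 z (by
    intro j
    rw [Matrix.one_mulVec]
    exact (hk1 (fun j => (z j : ℝ)) j).trans (mul_le_mul_of_nonneg_left h3 hC0.le)) hz0 hzv hzpos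
  exact absurd h4 (not_lt.mpr hcon)

omit [DecidableEq ι] in
theorem mulVec_cast (U : Matrix ι ι ℤ) (v : ι → ℤ) :
    (fun j => ((U.mulVec v j : ℤ) : ℝ)) = (U.map (Int.cast : ℤ → ℝ)).mulVec
      (fun j => (v j : ℝ)) := by
  funext j
  simp only [Matrix.mulVec, dotProduct, Matrix.map_apply, Int.cast_sum, Int.cast_mul]

/-- The rows of a scaled form in a new basis. -/
theorem scaled_row (L : Matrix ι ι ℝ) (D : ι → ℝ) (U : Matrix ι ι ℤ) (v : ι → ℤ) (i : ι) :
    (Matrix.diagonal D * (L * U.map (Int.cast : ℤ → ℝ))).mulVec (fun j => (v j : ℝ)) i =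
      D i * L.mulVec (fun j => ((U.mulVec v j : ℤ) : ℝ)) i := by
  rw [← Matrix.mulVec_mulVec, Matrix.mulVec_diagonal, ← Matrix.mulVec_mulVec, mulVec_cast]

/-- Exposed points are transported by changes of basis and scalings. -/
theorem expo_transport (L : Matrix ι ι ℝ) (D : ι → ℝ) (hD : ∀ i, 0 < D i) (U : Matrix ι ι ℤ)
    (hU : IsUnit U.det) (v : ι → ℤ)
    (h : Expo (Matrix.diagonal D * (L * U.map (Int.cast : ℤ → ℝ))) v) : Expo L (U.mulVec v) := by
  obtain ⟨hv, w, hw, hmin⟩ := h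
  refine ⟨fun i => ?_, fun i => w i * D i, fun i => mul_pos (hw i) (hD i), fun z hz0 hzv hz => ?_⟩
  · have h1 := hv i
    rw [scaled_row] at h1
    exact (pos_iff_pos_of_mul_pos h1).mp (hD i)
  · have hz' : U.mulVec (U⁻¹.mulVec z) = z := by
      rw [Matrix.mulVec_mulVec, Matrix.mul_nonsing_inv U hU, Matrix.one_mulVec]
    have h1 := hmin (U⁻¹.mulVec z) (fun h0 => hz0 (by rw [← hz', h0, Matrix.mulVec_zero]))
      (fun h0 => hzv (by rw [← hz', h0])) (fun i => by
        rw [scaled_row, hz']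
        exact mul_nonneg (hD i).le (hz i))
    simp_rw [scaled_row, hz', ← mul_assoc] at h1
    exact h1

/-- Every cone with positive norm minimum has an exposed point. -/
theorem exists_expo [Nonempty ι] (L : Matrix ι ι ℝ) (hL : L.det ≠ 0) (c : ℝ) (hc : 0 < c)
    (hmin : ∀ z : ι → ℤ, z ≠ 0 → c ≤ |∏ i, L.mulVec (fun j => (z j : ℝ)) i|) :
    ∃ v : ι → ℤ, Expo L v := by
  have hunit : IsUnit L.det := isUnit_iff_ne_zero.mpr hL
  set l : (ι → ℤ) → ℝ := fun z => ∑ i, L.mulVec (fun j => (z j : ℝ)) i with hl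
  have hnz : ∀ z : ι → ℤ, z ≠ 0 → ∀ i, L.mulVec (fun j => (z j : ℝ)) i ≠ 0 := by
    intro z hz i h0
    have h1 := hmin z hz
    rw [Finset.prod_eq_zero (Finset.mem_univ i) h0, abs_zero] at h1
    linarith
  -- a point of the cone
  obtain ⟨M, hM⟩ := box_point L hL c hc hmin
  obtain ⟨z0, hz0⟩ := hM (fun _ => max 1 M) (fun _ => lt_of_lt_of_le one_pos (le_max_left _ _))
    (by
      rw [Finset.prod_const, Finset.card_univ]
      exact (le_max_right 1 M).trans (le_self_pow₀ (le_max_left _ _) Fintype.card_pos.ne'))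
  have hz0ne : z0 ≠ 0 := by
    rintro rfl
    obtain ⟨i0⟩ := (inferInstance : Nonempty ι)
    have h1 := (hz0 i0).1
    have h2 : (fun j => (((0 : ι → ℤ) j : ℤ) : ℝ)) = 0 := by
      funext j
      simp
    rw [h2, Matrix.mulVec_zero, Pi.zero_apply] at h1
    exact lt_irrefl _ h1
  set T : Set (ι → ℤ) := {z | z ≠ 0 ∧ (∀ i, 0 ≤ L.mulVec (fun j => (z j : ℝ)) i) ∧
    l z ≤ l z0 + 1} with hT
  have hTfin : T.Finite := by
    refine (finite_box L hL (fun _ => l z0 + 1)).subset ?_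
    rintro z ⟨-, hz2, hz3⟩ i
    rw [abs_of_nonneg (hz2 i)]
    exact (Finset.single_le_sum (f := fun i => L.mulVec (fun j => (z j : ℝ)) i)
      (fun j _ => hz2 j) (Finset.mem_univ i)).trans hz3
  have hz0T : z0 ∈ T := ⟨hz0ne, fun i => (hz0 i).1.le, by linarith⟩
  -- the minimal points, and a longest one among them
  obtain ⟨m, hmT, hm⟩ := hTfin.exists_minimalFor l T ⟨z0, hz0T⟩
  have hmle : ∀ z ∈ T, l m ≤ l z := by
    intro z hz
    rcases le_total (l m) (l z) with h | h
    · exact h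
    · exact hm hz h
  set T' : Set (ι → ℤ) := {z | z ∈ T ∧ l z = l m} with hT'
  have hT'fin : T'.Finite := hTfin.subset (fun z hz => hz.1)
  set E : (ι → ℤ) → ℝ := fun z => ∑ j, (z j : ℝ) ^ 2 with hE
  obtain ⟨v, hvT, hvmax⟩ := hT'fin.exists_maximalFor E T' ⟨m, hmT, rfl⟩
  have hvle : ∀ z ∈ T', E z ≤ E v := by
    intro z hz
    rcases le_total (E z) (E v) with h | h
    · exact h
    · exact hvmax hz h
  obtain ⟨⟨hv0, hvpos, hvz0⟩, hvm⟩ := hvT
  have hvmin : ∀ z ∈ T, l v ≤ l z := fun z hz => by rw [hvm]; exact hmle z hz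
  -- the coefficients of the scalar product with v
  set a : ι → ℝ := fun i => ∑ j, (v j : ℝ) * L⁻¹ j i with ha
  have hdot : ∀ z : ι → ℤ, ∑ j, (v j : ℝ) * (z j : ℝ) =
      ∑ i, a i * L.mulVec (fun j => (z j : ℝ)) i := by
    intro z
    have h2 : (fun j => (z j : ℝ)) = L⁻¹.mulVec (L.mulVec (fun j => (z j : ℝ))) := by
      rw [Matrix.mulVec_mulVec, Matrix.nonsing_inv_mul L hunit, Matrix.one_mulVec]
    have h3 : ∀ j, (z j : ℝ) = ∑ i, L⁻¹ j i * L.mulVec (fun j => (z j : ℝ)) i := fun j =>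
      congrFun h2 j
    calc ∑ j, (v j : ℝ) * (z j : ℝ)
        = ∑ j, ∑ i, (v j : ℝ) * (L⁻¹ j i * L.mulVec (fun j => (z j : ℝ)) i) := by
          refine Finset.sum_congr rfl (fun j _ => ?_)
          rw [← Finset.mul_sum, ← h3 j]
      _ = ∑ i, ∑ j, (v j : ℝ) * (L⁻¹ j i * L.mulVec (fun j => (z j : ℝ)) i) :=
          Finset.sum_comm
      _ = _ := by
          refine Finset.sum_congr rfl (fun i _ => ?_)
          rw [ha]
          simp only
          rw [Finset.sum_mul]
          exact Finset.sum_congr rfl (fun j _ => by ring)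
  set P : ℝ := ∑ i, |a i| with hP
  have hP0 : 0 ≤ P := Finset.sum_nonneg (fun _ _ => abs_nonneg _)
  have haP : ∀ i, |a i| ≤ P := fun i =>
    Finset.single_le_sum (f := fun i => |a i|) (fun _ _ => abs_nonneg _) (Finset.mem_univ i)
  have hlv0 : 0 ≤ l v := Finset.sum_nonneg (fun i _ => hvpos i)
  have hEv0 : 0 ≤ E v := Finset.sum_nonneg (fun _ _ => sq_nonneg _)
  -- a positive gap
  obtain ⟨γ, hγ0, hγ⟩ : ∃ γ : ℝ, 0 < γ ∧ ∀ z ∈ T, z ∉ T' →
      γ * |(∑ j, (v j : ℝ) * (z j : ℝ)) - E v| < l z - l v := by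
    have h1 : ∀ᶠ γ in 𝓝[>] (0 : ℝ), ∀ z ∈ T, z ∉ T' →
        γ * |(∑ j, (v j : ℝ) * (z j : ℝ)) - E v| < l z - l v := by
      refine (eventually_all_finite hTfin).mpr (fun z hz => ?_)
      by_cases hzT : z ∈ T'
      · exact Filter.Eventually.of_forall (fun γ h => absurd hzT h)
      · have h2 : 0 < l z - l v := by
          have h3 := hvmin z hz
          rcases eq_or_lt_of_le h3 with h4 | h4
          · exact absurd ⟨hz, by rw [← h4, hvm]⟩ hzT
          · linarith
        have h3 : Tendsto (fun γ : ℝ => γ * |(∑ j, (v j : ℝ) * (z j : ℝ)) - E v|) (𝓝[>] 0)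
            (𝓝 (0 * |(∑ j, (v j : ℝ) * (z j : ℝ)) - E v|)) :=
          (tendsto_nhdsWithin_of_tendsto_nhds tendsto_id).mul_const _
        rw [zero_mul] at h3
        filter_upwards [h3.eventually_lt_const h2] with γ hγ _
        exact hγ
    obtain ⟨γ, hγ1, hγ2⟩ := (h1.and self_mem_nhdsWithin).exists
    exact ⟨γ, hγ2, hγ1⟩
  set ε : ℝ := min γ (1 / (2 * (P + 1) * (l v + 2))) with hε
  have hε0 : 0 < ε := lt_min hγ0 (by positivity)
  have hεγ : ε ≤ γ := min_le_left _ _
  have hεP : ε * (P * (l v + 1)) ≤ 1 / 2 := by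
    have h1 : ε ≤ 1 / (2 * (P + 1) * (l v + 2)) := min_le_right _ _
    rw [le_div_iff₀ (by positivity)] at h1
    have h2 : P * (l v + 1) ≤ (P + 1) * (l v + 2) := by nlinarith
    nlinarith [mul_le_mul_of_nonneg_left h2 hε0.le]
  have hεP' : ε * P ≤ 1 / 2 := by
    refine le_trans ?_ hεP
    refine mul_le_mul_of_nonneg_left ?_ hε0.le
    nlinarith
  have hval : ∀ z : ι → ℤ, ∑ i, (1 - ε * a i) * L.mulVec (fun j => (z j : ℝ)) i =
      l z - ε * ∑ j, (v j : ℝ) * (z j : ℝ) := by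
    intro z
    rw [hdot, hl, Finset.mul_sum]
    simp only
    rw [← Finset.sum_sub_distrib]
    exact Finset.sum_congr rfl (fun i _ => by ring)
  have hvv : ∑ j, (v j : ℝ) * (v j : ℝ) = E v := by
    rw [hE]
    exact Finset.sum_congr rfl (fun j _ => by ring)
  have hw : ∀ i, 1 / 2 ≤ 1 - ε * a i := by
    intro i
    have h1 : ε * a i ≤ ε * P :=
      mul_le_mul_of_nonneg_left ((le_abs_self _).trans (haP i)) hε0.le
    linarith
  refine ⟨v, fun i => lt_of_le_of_ne (hvpos i) (hnz v hv0 i).symm, fun i => 1 - ε * a i,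
    fun i => by linarith [hw i], fun z hz0' hzv hzpos => ?_⟩
  rw [hval, hval, hvv]
  by_cases hzT : z ∈ T
  · by_cases hzT' : z ∈ T'
    · have h1 : l z = l v := by rw [hzT'.2, hvm]
      have h2 : ∑ j, (v j : ℝ) * (z j : ℝ) < E v := by
        have h3 : E z ≤ E v := hvle z hzT'
        have h4 : 0 < ∑ j, ((v j : ℝ) - (z j : ℝ)) ^ 2 := by
          obtain ⟨j0, hj0⟩ := Function.ne_iff.mp hzv
          refine Finset.sum_pos' (fun j _ => sq_nonneg _) ⟨j0, Finset.mem_univ _, ?_⟩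
          exact sq_pos_iff.mpr (sub_ne_zero.mpr (fun h => hj0 (by exact_mod_cast h.symm)))
        have h5 : ∑ j, ((v j : ℝ) - (z j : ℝ)) ^ 2 =
            E v + E z - 2 * ∑ j, (v j : ℝ) * (z j : ℝ) := by
          rw [hE]
          simp only
          rw [Finset.mul_sum, ← Finset.sum_add_distrib, ← Finset.sum_sub_distrib]
          exact Finset.sum_congr rfl (fun j _ => by ring)
        linarith
      rw [h1]
      nlinarith
    · have h1 := hγ z hzT hzT'
      have h2 : ε * ((∑ j, (v j : ℝ) * (z j : ℝ)) - E v) ≤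
          γ * |(∑ j, (v j : ℝ) * (z j : ℝ)) - E v| :=
        (mul_le_mul_of_nonneg_left (le_abs_self _) hε0.le).trans
          (mul_le_mul_of_nonneg_right hεγ (abs_nonneg _))
      linarith
  · have hlz : l z0 + 1 < l z := by
      by_contra hcon
      push Not at hcon
      exact hzT ⟨hz0', hzpos, hcon⟩
    have hlz' : l v + 1 < l z := by linarith [hvmin z0 hz0T]
    have h1 : ∑ j, (v j : ℝ) * (z j : ℝ) ≤ P * l z := by
      rw [hdot, hl, Finset.mul_sum]
      refine Finset.sum_le_sum (fun i _ => ?_)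
      exact mul_le_mul_of_nonneg_right ((le_abs_self _).trans (haP i)) (hzpos i)
    have h2 : ε * ∑ j, (v j : ℝ) * (z j : ℝ) ≤ ε * (P * l z) :=
      mul_le_mul_of_nonneg_left h1 hε0.le
    have h3 : 0 ≤ ε * E v := mul_nonneg hε0.le hEv0
    nlinarith

end Pool.Agent.H83.Sail
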