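import Mathlib
import Pool.Agent.H83.Sail.Expo

namespace Pool.Agent.H83.Sail

open Module Filter Topology

variable {ι : Type*} [Fintype ι] [DecidableEq ι]

/-- The forms in `Good c d` all of whose exposed points have norm in `V`. -/
def XV (c d : ℝ) (V : Set ℝ) : Set (Matrix ι ι ℝ) :=
  {L | L ∈ Good c d ∧ ∀ v : ι → ℤ, Expo L v → ∏ i, L.mulVec (fun j => (v j : ℝ)) i ∈ V}

omit [DecidableEq ι] in
theorem norm_tendsto {F : Filter ℕ} (A : ℕ → Matrix ι ι ℝ) (L : Matrix ι ι ℝ)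
    (hA : Tendsto A F (𝓝 L)) (z : ι → ℝ) :
    Tendsto (fun k => ∏ i, (A k).mulVec z i) F (𝓝 (∏ i, L.mulVec z i)) :=
  tendsto_finsetProd _ (fun i _ => row_tendsto A L hA z i)

theorem good_limit {F : Filter ℕ} [F.NeBot] (c d : ℝ) (A : ℕ → Matrix ι ι ℝ)
    (hA : ∀ k, A k ∈ Good c d) (L : Matrix ι ι ℝ) (hL : Tendsto A F (𝓝 L)) : L ∈ Good c d := by
  have hdet : Tendsto (fun k => |(A k).det|) F (𝓝 |L.det|) := (det_tendsto A L hL).abs
  refine ⟨ge_of_tendsto' hdet (fun k => (hA k).1), le_of_tendsto' hdet (fun k => (hA k).2.1),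
    fun z hz => ?_⟩
  exact ge_of_tendsto' (norm_tendsto A L hL _).abs (fun k => (hA k).2.2 z hz)

theorem good_transform (c d : ℝ) (L : Matrix ι ι ℝ) (hL : L ∈ Good c d) (D : ι → ℝ)
    (hD : ∏ i, D i = 1) (U : Matrix ι ι ℤ) (hU : IsUnit U.det) :
    Matrix.diagonal D * (L * U.map (Int.cast : ℤ → ℝ)) ∈ Good c d := by
  have hUdet : |(U.map (Int.cast : ℤ → ℝ)).det| = 1 := by
    have h1 : (U.map (Int.cast : ℤ → ℝ)).det = ((U.det : ℤ) : ℝ) :=
      ((Int.castRingHom ℝ).map_det U).symm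
    rw [h1]
    rcases Int.isUnit_iff.mp hU with h | h
    · rw [h]; norm_num
    · rw [h]; norm_num
  have hdet : |(Matrix.diagonal D * (L * U.map (Int.cast : ℤ → ℝ))).det| = |L.det| := by
    rw [Matrix.det_mul, Matrix.det_mul, Matrix.det_diagonal, hD, one_mul, abs_mul, hUdet, mul_one]
  refine ⟨by rw [hdet]; exact hL.1, by rw [hdet]; exact hL.2.1, fun z hz => ?_⟩
  simp_rw [scaled_row]
  rw [Finset.prod_mul_distrib, hD, one_mul]
  refine hL.2.2 _ (fun h0 => hz ?_)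
  have h1 : U⁻¹.mulVec (U.mulVec z) = z := by
    rw [Matrix.mulVec_mulVec, Matrix.nonsing_inv_mul U hU, Matrix.one_mulVec]
  rw [← h1, h0, Matrix.mulVec_zero]

theorem good_det_ne {c d : ℝ} (hc : 0 < c) {L : Matrix ι ι ℝ} (hL : L ∈ Good c d) : L.det ≠ 0 :=
  abs_pos.mp (hc.trans_le hL.1)

omit [Fintype ι] [DecidableEq ι] in
theorem mat_first [Countable ι] : FirstCountableTopology (Matrix ι ι ℝ) := by
  change FirstCountableTopology (ι → ι → ℝ)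
  infer_instance

omit [Fintype ι] [DecidableEq ι] in
theorem mat_subseq [Countable ι] (A : ℕ → Matrix ι ι ℝ) (R : ℝ) (h : ∀ k i j, |A k i j| ≤ R) :
    ∃ (Y : Matrix ι ι ℝ) (ψ : ℕ → ℕ), StrictMono ψ ∧ Tendsto (fun k => A (ψ k)) atTop (𝓝 Y) := by
  have hK : IsCompact (Set.univ.pi (fun _ : ι => Set.univ.pi (fun _ : ι => Set.Icc (-R) R)) :
      Set (ι → ι → ℝ)) := isCompact_univ_pi (fun _ => isCompact_univ_pi (fun _ => isCompact_Icc))
  let x : ℕ → (ι → ι → ℝ) := fun k i j => A k i j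
  obtain ⟨Y, -, ψ, hψ, hlim⟩ := hK.tendsto_subseq (x := x)
    (fun k => Set.mem_univ_pi.mpr (fun i => Set.mem_univ_pi.mpr (fun j => abs_le.mp (h k i j))))
  exact ⟨Y, ψ, hψ, hlim⟩

/-- Limits of windows: the local limit of forms whose exposed points in larger and larger windows
have norms in a closed set. -/
theorem local_limit [Nonempty ι] (c d : ℝ) (hc : 0 < c) (V : Set ℝ) (hV : IsClosed V)
    (A : ℕ → Matrix ι ι ℝ) (hA : ∀ k, A k ∈ Good c d) (s : ℕ → ι → ℝ) (hs : ∀ k i, 0 < s k i)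
    (hs1 : ∀ k, ∏ i, s k i = 1) (T : ℕ → ℝ) (hT : Tendsto T atTop atTop)
    (hAV : ∀ k (v : ι → ℤ), Expo (A k) v →
      (∀ i, (A k).mulVec (fun j => (v j : ℝ)) i ≤ T k * s k i) →
      ∏ i, (A k).mulVec (fun j => (v j : ℝ)) i ∈ V) :
    ∃ (Y : Matrix ι ι ℝ) (ψ : ℕ → ℕ) (U : ℕ → Matrix ι ι ℤ), StrictMono ψ ∧
      (∀ k, IsUnit (U k).det) ∧
      Tendsto (fun k => Matrix.diagonal (fun i => (s (ψ k) i)⁻¹) *
        (A (ψ k) * (U k).map (Int.cast : ℤ → ℝ))) atTop (𝓝 Y) ∧ Y ∈ XV c d V := by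
  obtain ⟨R, hR, hframe⟩ := frame_gl (ι := ι) c d hc
  choose U hU hUle using fun k => hframe (A k) (hA k) (s k) (hs k) (hs1 k)
  have hBle : ∀ k i j, |(Matrix.diagonal (fun i => (s k i)⁻¹) *
      (A k * (U k).map (Int.cast : ℤ → ℝ))) i j| ≤ R := by
    intro k i j
    rw [Matrix.diagonal_mul, abs_mul, abs_inv, abs_of_pos (hs k i), inv_mul_le_iff₀ (hs k i),
      mul_comm]
    exact hUle k i j
  have hprod : ∀ k, ∏ i, (s k i)⁻¹ = 1 := fun k => by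
    rw [Finset.prod_inv_distrib, hs1, inv_one]
  obtain ⟨Y, ψ, hψ, hlim⟩ := mat_subseq _ R hBle
  have hYgood : Y ∈ Good c d :=
    good_limit c d _ (fun k => good_transform c d _ (hA (ψ k)) _ (hprod (ψ k)) _ (hU (ψ k))) Y hlim
  refine ⟨Y, ψ, fun k => U (ψ k), hψ, fun k => hU _, hlim, hYgood, fun v hv => ?_⟩
  refine hV.mem_of_tendsto (norm_tendsto _ Y hlim (fun j => (v j : ℝ))) ?_
  have h1 := expo_open _ Y (good_det_ne hc hYgood) hlim v hv
  have h2 : ∀ᶠ k in atTop, ∀ i, (Matrix.diagonal (fun i => (s (ψ k) i)⁻¹) *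
      (A (ψ k) * (U (ψ k)).map (Int.cast : ℤ → ℝ))).mulVec (fun j => (v j : ℝ)) i ≤ T (ψ k) := by
    refine eventually_all.mpr (fun i => ?_)
    have h3 := (row_tendsto _ Y hlim (fun j => (v j : ℝ)) i).eventually_lt_const
      (lt_add_one (Y.mulVec (fun j => (v j : ℝ)) i))
    have h4 := (hT.comp hψ.tendsto_atTop).eventually_ge_atTop
      (Y.mulVec (fun j => (v j : ℝ)) i + 1)
    filter_upwards [h3, h4] with k hk1 hk2
    exact hk1.le.trans hk2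
  filter_upwards [h1, h2] with k hk1 hk2
  have h3 := expo_transport (A (ψ k)) (fun i => (s (ψ k) i)⁻¹)
    (fun i => inv_pos.mpr (hs (ψ k) i)) (U (ψ k)) (hU (ψ k)) v hk1
  simp_rw [scaled_row] at hk2 ⊢
  rw [Finset.prod_mul_distrib, hprod, one_mul]
  refine hAV (ψ k) _ h3 (fun i => ?_)
  have h4 := hk2 i
  rw [inv_mul_le_iff₀ (hs (ψ k) i), mul_comm] at h4
  exact h4

theorem xv_closed [Nonempty ι] (c d : ℝ) (hc : 0 < c) (V : Set ℝ) (hV : IsClosed V) :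
    IsClosed (XV c d V : Set (Matrix ι ι ℝ)) := by
  have hseq : @IsSeqClosed (ι → ι → ℝ) _ (XV c d V) := by
    intro A L hA hL
    have hL' : Tendsto (A : ℕ → Matrix ι ι ℝ) atTop (𝓝 (L : Matrix ι ι ℝ)) := hL
    have hgood : (L : Matrix ι ι ℝ) ∈ Good c d := good_limit c d A (fun k => (hA k).1) L hL'
    refine ⟨hgood, fun v hv => ?_⟩
    refine hV.mem_of_tendsto (norm_tendsto A L hL' (fun j => (v j : ℝ))) ?_
    filter_upwards [expo_open A L (good_det_ne hc hgood) hL' v hv] with k hk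
    exact (hA k).2 v hk
  exact @IsSeqClosed.isClosed (ι → ι → ℝ) _ _ _ hseq

theorem xv_transform (c d : ℝ) (V : Set ℝ) (L : Matrix ι ι ℝ) (hL : L ∈ XV c d V) (D : ι → ℝ)
    (hD0 : ∀ i, 0 < D i) (hD : ∏ i, D i = 1) (U : Matrix ι ι ℤ) (hU : IsUnit U.det) :
    Matrix.diagonal D * (L * U.map (Int.cast : ℤ → ℝ)) ∈ XV c d V := by
  refine ⟨good_transform c d L hL.1 D hD U hU, fun v hv => ?_⟩
  have h1 := hL.2 _ (expo_transport L D hD0 U hU v hv)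
  simp_rw [scaled_row]
  rw [Finset.prod_mul_distrib, hD, one_mul]
  exact h1

/-- A set of forms closed under scalings of determinant one and changes of basis. -/
def Inv (𝒞 : Set (Matrix ι ι ℝ)) : Prop :=
  ∀ L ∈ 𝒞, ∀ D : ι → ℝ, (∀ i, 0 < D i) → ∏ i, D i = 1 → ∀ U : Matrix ι ι ℤ, IsUnit U.det →
    Matrix.diagonal D * (L * U.map (Int.cast : ℤ → ℝ)) ∈ 𝒞

/-- A minimal closed set of norms. -/
theorem exists_min [Nonempty ι] (c d : ℝ) (hc : 0 < c) (V : Set ℝ) (hV : IsClosed V)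
    (𝒞 : Set (Matrix ι ι ℝ)) (h𝒞 : IsClosed 𝒞) (hinv : Inv 𝒞) (hne : (XV c d V ∩ 𝒞).Nonempty) :
    ∃ V' ⊆ V, IsClosed V' ∧ (XV c d V' ∩ 𝒞).Nonempty ∧
      ∀ V'' ⊆ V', IsClosed V'' → (XV c d V'' ∩ 𝒞).Nonempty → V' ⊆ V'' := by
  obtain ⟨R, hR, hframe⟩ := frame_gl (ι := ι) c d hc
  set S : Set (Set ℝ) := {W | IsClosed W ∧ (XV c d W ∩ 𝒞 : Set (Matrix ι ι ℝ)).Nonempty} with hS
  have hK : IsCompact ({L | ∀ i j, |L i j| ≤ R} : Set (Matrix ι ι ℝ)) := by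
    have h1 : IsCompact (Set.univ.pi (fun _ : ι => Set.univ.pi (fun _ : ι => Set.Icc (-R) R)) :
      Set (ι → ι → ℝ)) := isCompact_univ_pi (fun _ => isCompact_univ_pi (fun _ => isCompact_Icc))
    have h2 : ({L | ∀ i j, |L i j| ≤ R} : Set (Matrix ι ι ℝ)) =
        (Set.univ.pi (fun _ : ι => Set.univ.pi (fun _ : ι => Set.Icc (-R) R)) :
          Set (ι → ι → ℝ)) := by
      ext L
      constructor
      · intro h
        exact Set.mem_univ_pi.mpr (fun i => Set.mem_univ_pi.mpr (fun j => abs_le.mp (h i j)))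
      · intro h i j
        exact abs_le.mpr (Set.mem_univ_pi.mp (Set.mem_univ_pi.mp h i) j)
    rw [h2]
    exact h1
  obtain ⟨m, hmV, hm⟩ := zorn_superset_nonempty S (by
    intro 𝒲 h𝒲 hchain hne𝒲
    have hne' : Nonempty 𝒲 := hne𝒲.to_subtype
    refine ⟨⋂₀ 𝒲, ⟨isClosed_sInter (fun W hW => (h𝒲 hW).1), ?_⟩, fun W hW =>
      Set.sInter_subset_of_mem hW⟩
    have hcl : ∀ W : 𝒲, IsClosed (XV c d W.1 ∩ 𝒞 : Set (Matrix ι ι ℝ)) := fun W =>
      (xv_closed c d hc W.1 (h𝒲 W.2).1).inter h𝒞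
    obtain ⟨L, hL⟩ := IsCompact.nonempty_iInter_of_directed_nonempty_isCompact_isClosed
      (fun W : 𝒲 => ({L | ∀ i j, |L i j| ≤ R} : Set (Matrix ι ι ℝ)) ∩ (XV c d W.1 ∩ 𝒞)) (by
        intro W1 W2
        have hmono : ∀ W W' : 𝒲, W.1 ⊆ W'.1 →
            (({L | ∀ i j, |L i j| ≤ R} : Set (Matrix ι ι ℝ)) ∩ (XV c d W.1 ∩ 𝒞)) ⊆
            (({L | ∀ i j, |L i j| ≤ R} : Set (Matrix ι ι ℝ)) ∩ (XV c d W'.1 ∩ 𝒞)) := by
          rintro W W' hWW' L ⟨h1, h2, h3⟩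
          exact ⟨h1, ⟨h2.1, fun v hv => hWW' (h2.2 v hv)⟩, h3⟩
        rcases hchain.total W1.2 W2.2 with h | h
        · exact ⟨W1, Set.Subset.rfl, hmono _ _ h⟩
        · exact ⟨W2, hmono _ _ h, Set.Subset.rfl⟩) (by
        intro W
        obtain ⟨L, hL1, hL2⟩ := (h𝒲 W.2).2
        obtain ⟨U, hU, hUle⟩ := hframe L hL1.1 (fun _ => 1) (fun _ => one_pos)
          Finset.prod_const_one
        refine ⟨Matrix.diagonal (fun _ => (1 : ℝ)) * (L * U.map (Int.cast : ℤ → ℝ)), ?_,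
          xv_transform c d W.1 L hL1 _ (fun _ => one_pos) Finset.prod_const_one U hU,
          hinv L hL2 _ (fun _ => one_pos) Finset.prod_const_one U hU⟩
        intro i j
        rw [Matrix.diagonal_mul, one_mul]
        have h1 := hUle i j
        rwa [mul_one] at h1) (fun W => hK.inter_right (hcl W))
      (fun W => (hK.inter_right (hcl W)).isClosed)
    refine ⟨L, ⟨?_, ?_⟩, ?_⟩
    · obtain ⟨W, hW⟩ := hne𝒲
      exact (Set.mem_iInter.mp hL ⟨W, hW⟩).2.1.1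
    · intro v hv W hW
      exact (Set.mem_iInter.mp hL ⟨W, hW⟩).2.1.2 v hv
    · obtain ⟨W, hW⟩ := hne𝒲
      exact (Set.mem_iInter.mp hL ⟨W, hW⟩).2.2) V ⟨hV, hne⟩
  refine ⟨m, hmV, hm.prop.1, hm.prop.2, fun V'' hV'' hcl hne'' => ?_⟩
  exact hm.le_of_le ⟨hcl, hne''⟩ hV''

end Pool.Agent.H83.Sail
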