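import Mathlib
import Pool.Agent.H83.Sail.Space
import Pool.Agent.H83.Sail.Isol
import Pool.Agent.H83.Sail.FinMain

namespace Pool.Agent.H83.Sail

open Module Filter Topology

variable {ι : Type*} [Fintype ι] [DecidableEq ι]

/-- All the forms are eigenforms, with positive eigenvalues, of an integer matrix of determinant
one with irreducible characteristic polynomial. -/
def Alg (L : Matrix ι ι ℝ) : Prop :=
  ∃ (A : Matrix ι ι ℤ) (μ : ι → ℝ), A.det = 1 ∧
    Irreducible (A.charpoly.map (Int.castRingHom ℚ)) ∧ (∀ i, 0 < μ i) ∧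
    L * A.map (Int.cast : ℤ → ℝ) = Matrix.diagonal μ * L

theorem eig_main (hn : 3 ≤ Fintype.card ι) (L : Matrix ι ι ℝ) (hL : L.det ≠ 0) (c : ℝ)
    (hc : 0 < c) (hmin : ∀ z : ι → ℤ, z ≠ 0 → c ≤ |∏ i, L.mulVec (fun j => (z j : ℝ)) i|)
    (B : Matrix ι ι ℚ) (ν : ι → ℝ) (hν : Function.Injective ν)
    (hLB : L * B.map (Rat.cast : ℚ → ℝ) = Matrix.diagonal ν * L) : Alg L := by
  have hne : Nonempty ι := Fintype.card_pos_iff.mp (by omega)
  obtain ⟨i0⟩ := hne
  have hne : Nonempty ι := ⟨i0⟩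
  have hBp : B ∈ pres L {i0} := by
    intro x hx i hi
    rw [Matrix.mulVec_mulVec, hLB, ← Matrix.mulVec_mulVec, Matrix.mulVec_diagonal, hx i hi,
      mul_zero]
  have hco : ({i0} : Finset ι).card.Coprime (Fintype.card ι) := by
    rw [Finset.card_singleton]
    exact Nat.coprime_one_left _
  have hirr := charpoly_irred_of L hL c hc hmin {i0} hco B hBp
    (Or.inl (deg_of_inj L hL B ν hν hLB))
  obtain ⟨A, μ, -, hdet, hAirr, hμ, hLA, -⟩ := main_gen hn L hL c hc hmin B hirr {i0}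
    (Finset.singleton_nonempty _) (fun h => by
      have h1 := congrArg Finset.card h
      rw [Finset.card_singleton, Finset.card_univ] at h1
      omega) hBp (Or.inl hco)
  exact ⟨A, μ, hdet, hAirr, hμ, hLA⟩

/-- Vectors with positive coordinates of product one along one generic ray, on `Fin n`. -/
theorem exists_seq_fin (n : ℕ) : ∃ s : ℕ → Fin n → ℝ, (∀ k i, 0 < s k i) ∧ (∀ k, ∏ i, s k i = 1) ∧
    ∀ i j, i ≠ j → Filter.Tendsto (fun k => |Real.log (s k i / s k j)|)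
      Filter.atTop Filter.atTop := by
  have hsum : ∑ i : Fin n, (((i : ℕ) : ℝ) - ((n : ℝ) - 1) / 2) = 0 := by
    rw [Finset.sum_sub_distrib, Fin.sum_univ_eq_sum_range (fun i => ((i : ℕ) : ℝ)),
      Finset.sum_const, Finset.card_univ, Fintype.card_fin, nsmul_eq_mul]
    have h1 : (∑ i ∈ Finset.range n, ((i : ℕ) : ℝ)) * 2 = n * ((n : ℝ) - 1) := by
      rcases Nat.eq_zero_or_pos n with h | h
      · subst h
        simp
      · have h2 := Finset.sum_range_id_mul_two n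
        have h3 : (((∑ i ∈ Finset.range n, i) * 2 : ℕ) : ℝ) = ((n * (n - 1) : ℕ) : ℝ) := by
          rw [h2]
        push_cast [Nat.cast_sub h] at h3
        exact h3
    linarith
  refine ⟨fun k i => Real.exp ((k : ℝ) * (((i : ℕ) : ℝ) - ((n : ℝ) - 1) / 2)),
    fun k i => Real.exp_pos _, fun k => ?_, fun i j hij => ?_⟩
  · rw [← Real.exp_sum, ← Finset.mul_sum, hsum, mul_zero, Real.exp_zero]
  · have h1 : ∀ k : ℕ, |Real.log (Real.exp ((k : ℝ) * (((i : ℕ) : ℝ) - ((n : ℝ) - 1) / 2)) /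
        Real.exp ((k : ℝ) * (((j : ℕ) : ℝ) - ((n : ℝ) - 1) / 2)))| =
        (k : ℝ) * |((i : ℕ) : ℝ) - ((j : ℕ) : ℝ)| := by
      intro k
      rw [← Real.exp_sub, Real.log_exp, ← mul_sub, abs_mul, Nat.abs_cast]
      congr 2
      ring
    simp_rw [h1]
    refine Filter.Tendsto.atTop_mul_const ?_ tendsto_natCast_atTop_atTop
    rw [abs_pos, sub_ne_zero]
    intro h
    exact hij (Fin.ext (by exact_mod_cast h))

omit [DecidableEq ι] in
theorem exists_seq_gen : ∃ s : ℕ → ι → ℝ, (∀ k i, 0 < s k i) ∧ (∀ k, ∏ i, s k i = 1) ∧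
    ∀ i j, i ≠ j → Filter.Tendsto (fun k => |Real.log (s k i / s k j)|)
      Filter.atTop Filter.atTop := by
  obtain ⟨s, hs, hs1, hsd⟩ := exists_seq_fin (Fintype.card ι)
  set e := Fintype.equivFin ι
  refine ⟨fun k i => s k (e i), fun k i => hs k _, fun k => ?_, fun i j hij =>
    hsd _ _ (fun h => hij (e.injective h))⟩
  rw [← hs1 k]
  exact Fintype.prod_equiv e (fun i => s k (e i)) (fun i => s k i) (fun i => rfl)

/-- Points of one norm in all the windows of a fixed size: the sail is algebraic. -/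
theorem syndetic_alg (hn : 3 ≤ Fintype.card ι) (L : Matrix ι ι ℝ) (hL : L.det ≠ 0) (c : ℝ)
    (hc : 0 < c) (hmin : ∀ z : ι → ℤ, z ≠ 0 → c ≤ |∏ i, L.mulVec (fun j => (z j : ℝ)) i|)
    (x T : ℝ) (h : ∀ s : ι → ℝ, (∀ i, 0 < s i) → ∏ i, s i = 1 → ∃ v : ι → ℤ,
      (∀ i, 0 < L.mulVec (fun j => (v j : ℝ)) i) ∧
      (∀ i, L.mulVec (fun j => (v j : ℝ)) i ≤ T * s i) ∧
      ∏ i, L.mulVec (fun j => (v j : ℝ)) i = x) : Alg L := by
  have hne : Nonempty ι := Fintype.card_pos_iff.mp (by omega)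
  obtain ⟨i0⟩ := (inferInstance : Nonempty ι)
  have hT0 : 0 < T := by
    obtain ⟨v, hv1, hv2, -⟩ := h (fun _ => 1) (fun _ => one_pos) Finset.prod_const_one
    have h1 := (hv1 i0).trans_le (hv2 i0)
    rwa [mul_one] at h1
  set κ : ℝ := c / (T + 1) ^ Fintype.card ι * (T + 1) with hκ
  have hκ0 : 0 < κ := by positivity
  have hnear : ∀ s : ι → ℝ, (∀ i, 0 < s i) → ∏ i, s i = 1 → ∃ v : ι → ℤ,
      ∏ i, L.mulVec (fun j => (v j : ℝ)) i = x ∧
      ∀ i, κ * s i ≤ L.mulVec (fun j => (v j : ℝ)) i ∧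
        L.mulVec (fun j => (v j : ℝ)) i ≤ T * s i := by
    intro s hs hs1
    obtain ⟨v, hv1, hv2, hv3⟩ := h s hs hs1
    refine ⟨v, hv3, fun i => ⟨?_, hv2 i⟩⟩
    have hv0 : v ≠ 0 := by
      rintro rfl
      have h1 := hv1 i0
      have h2 : (fun j => (((0 : ι → ℤ) j : ℤ) : ℝ)) = 0 := by
        funext j
        simp
      rw [h2, Matrix.mulVec_zero, Pi.zero_apply] at h1
      exact lt_irrefl _ h1
    have h1 := lower_coord L c hmin (fun i => (T + 1) * s i)
      (fun i => mul_pos (by linarith) (hs i)) v hv0 (fun i => by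
        rw [abs_of_pos (hv1 i)]
        have := hv2 i
        nlinarith [hs i]) i
    rw [Finset.prod_mul_distrib, hs1, mul_one, Finset.prod_const, Finset.card_univ,
      abs_of_pos (hv1 i)] at h1
    rw [hκ, mul_assoc]
    exact h1
  have hκT : κ ≤ T := by
    obtain ⟨v, -, hv⟩ := hnear (fun _ => 1) (fun _ => one_pos) Finset.prod_const_one
    have h1 := hv i0
    rw [mul_one, mul_one] at h1
    exact h1.1.trans h1.2
  obtain ⟨s, hs, hs1, hsd⟩ := exists_seq_gen (ι := ι)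
  obtain ⟨B, ν, hν, hLB⟩ := fin_norm_gen L hL c hc hmin s hs hs1 hsd κ T hκ0 hκT (fun X hX => by
    have hX0 : 0 < X := by linarith
    refine ⟨{x}, Set.finite_singleton x, fun k p q => ?_⟩
    obtain ⟨v, hv1, hv2⟩ := hnear (fun i => s k i * dir X p q i)
      (fun i => mul_pos (hs k i) (dir_pos hX0 p q i))
      (by rw [Finset.prod_mul_distrib, hs1, dir_prod hX0, mul_one])
    exact ⟨v, hv1, hv2⟩)
  exact eig_main hn L hL c hc hmin B ν hν hLB

/-- A nonempty countable closed set of real numbers has an isolated point. -/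
theorem exists_isolated (V : Set ℝ) (hV : IsClosed V) (hc : V.Countable) (hne : V.Nonempty) :
    ∃ x ∈ V, IsClosed (V \ {x}) := by
  by_contra hno
  push Not at hno
  have hperf : Perfect V := by
    refine ⟨hV, fun x hx => ?_⟩
    by_contra hacc
    refine hno x hx ?_
    rw [accPt_iff_nhds] at hacc
    push Not at hacc
    obtain ⟨W, hW, hWx⟩ := hacc
    rw [← isOpen_compl_iff, isOpen_iff_mem_nhds]
    intro y hy
    by_cases hyx : y = x
    · subst hyx
      filter_upwards [hW] with z hz hzV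
      exact hzV.2 (hWx z ⟨hz, hzV.1⟩)
    · have hyV : y ∉ V := fun h => hy ⟨h, hyx⟩
      filter_upwards [hV.isOpen_compl.mem_nhds hyV] with z hz hzV
      exact hz hzV.1
  obtain ⟨f, hf, -, hfi⟩ := hperf.exists_nat_bool_injection hne
  have h1 : (Set.range f).Countable := hc.mono hf
  have h2 : Countable (ℕ → Bool) := by
    have h3 : Countable (Set.range f) := h1.to_subtype
    exact Function.Injective.countable (f := Set.rangeFactorization f)
      (Set.rangeFactorization_injective.mpr hfi)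
  obtain ⟨g, hg⟩ := exists_surjective_nat (ℕ → Bool)
  obtain ⟨m, hm⟩ := hg (fun k => !(g k k))
  have h3 := congrFun hm m
  cases h4 : g m m <;> simp [h4] at h3

/-- Countable closed set of norms: an algebraic form in every closed invariant set. -/
theorem xv_alg (hn : 3 ≤ Fintype.card ι) (c d : ℝ) (hc : 0 < c) (V : Set ℝ) (hV : IsClosed V)
    (hVc : V.Countable) (𝒞 : Set (Matrix ι ι ℝ)) (h𝒞 : IsClosed 𝒞) (hinv : Inv 𝒞)
    (hne : (XV c d V ∩ 𝒞).Nonempty) : ∃ L ∈ XV c d V ∩ 𝒞, Alg L := by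
  have hι : Nonempty ι := Fintype.card_pos_iff.mp (by omega)
  obtain ⟨V', hV'V, hV', ⟨L, hL, hL𝒞⟩, hmin⟩ := exists_min c d hc V hV 𝒞 h𝒞 hinv hne
  obtain ⟨v0, hv0⟩ := exists_expo L (good_det_ne hc hL.1) c hc hL.1.2.2
  obtain ⟨x, hx, hxcl⟩ := exists_isolated V' hV' (hVc.mono hV'V) ⟨_, hL.2 v0 hv0⟩
  have hempty : ¬ (XV c d (V' \ {x}) ∩ 𝒞 : Set (Matrix ι ι ℝ)).Nonempty := by
    intro h
    exact (hmin _ Set.sdiff_subset hxcl h hx).2 rfl
  -- windows of a fixed size contain an exposed point of norm x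
  obtain ⟨T, hT⟩ : ∃ T : ℕ, ∀ s : ι → ℝ, (∀ i, 0 < s i) → ∏ i, s i = 1 → ∃ v : ι → ℤ,
      Expo L v ∧ (∀ i, L.mulVec (fun j => (v j : ℝ)) i ≤ T * s i) ∧
      ∏ i, L.mulVec (fun j => (v j : ℝ)) i = x := by
    by_contra hcon
    push Not at hcon
    choose s hs hs1 hsv using hcon
    obtain ⟨Y, ψ, U, -, hU, hlim, hY⟩ := local_limit c d hc (V' \ {x}) hxcl (fun _ => L)
      (fun _ => hL.1) s hs hs1 (fun k => (k : ℝ)) tendsto_natCast_atTop_atTop
      (fun k v hv hvT => ⟨hL.2 v hv, fun h => hsv k v hv hvT h⟩)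
    refine hempty ⟨Y, hY, ?_⟩
    have hcl : @IsClosed (ι → ι → ℝ) _ 𝒞 := h𝒞
    refine hcl.mem_of_tendsto hlim (Filter.Eventually.of_forall (fun k => ?_))
    exact hinv L hL𝒞 _ (fun i => inv_pos.mpr (hs (ψ k) i))
      (by rw [Finset.prod_inv_distrib, hs1, inv_one]) (U k) (hU k)
  refine ⟨L, ⟨⟨hL.1, fun v hv => hV'V (hL.2 v hv)⟩, hL𝒞⟩,
    syndetic_alg hn L (good_det_ne hc hL.1) c hc hL.1.2.2 x T (fun s hs hs1 => ?_)⟩
  obtain ⟨v, hv1, hv2, hv3⟩ := hT s hs hs1
  exact ⟨v, hv1.1, hv2, hv3⟩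

theorem alg_transfer (L Z : Matrix ι ι ℝ) (D E : ι → ℝ) (hD : ∀ i, D i ≠ 0)
    (U : Matrix ι ι ℤ) (hU : IsUnit U.det)
    (h : Matrix.diagonal D * (L * U.map (Int.cast : ℤ → ℝ)) = Matrix.diagonal E * Z)
    (hZ : Alg Z) : Alg L := by
  obtain ⟨A, μ, hdet, hirr, hμ, hZA⟩ := hZ
  obtain ⟨W, hW⟩ := (Matrix.isUnit_iff_isUnit_det U).mpr hU
  have hmap : ∀ P Q : Matrix ι ι ℤ, (P * Q).map (Int.cast : ℤ → ℝ) =
      P.map (Int.cast : ℤ → ℝ) * Q.map (Int.cast : ℤ → ℝ) := fun P Q =>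
    Matrix.map_mul (f := Int.castRingHom ℝ)
  have hone : (W.val).map (Int.cast : ℤ → ℝ) * (W⁻¹.val).map (Int.cast : ℤ → ℝ) = 1 := by
    rw [← hmap, Units.mul_inv]
    exact Matrix.map_one _ Int.cast_zero Int.cast_one
  rw [← hW] at h
  refine ⟨W.val * A * W⁻¹.val, μ, ?_, ?_, hμ, ?_⟩
  · rw [Matrix.det_mul, Matrix.det_mul, hdet, mul_one, ← Matrix.det_mul, Units.mul_inv,
      Matrix.det_one]
  · rw [Matrix.coe_units_inv, Matrix.charpoly_units_conj]
    exact hirr
  · have h1 : Matrix.diagonal D * (L * (W.val * A * W⁻¹.val).map (Int.cast : ℤ → ℝ)) =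
        Matrix.diagonal D * (Matrix.diagonal μ * L) := by
      calc Matrix.diagonal D * (L * (W.val * A * W⁻¹.val).map (Int.cast : ℤ → ℝ))
          = (Matrix.diagonal D * (L * W.val.map (Int.cast : ℤ → ℝ))) *
              A.map (Int.cast : ℤ → ℝ) * W⁻¹.val.map (Int.cast : ℤ → ℝ) := by
            rw [hmap, hmap]
            simp only [Matrix.mul_assoc]
        _ = Matrix.diagonal μ * (Matrix.diagonal E * Z) * W⁻¹.val.map (Int.cast : ℤ → ℝ) := by
            rw [h, Matrix.mul_assoc (Matrix.diagonal E), hZA, ← Matrix.mul_assoc,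
              ← Matrix.mul_assoc, Matrix.diagonal_mul_diagonal, Matrix.diagonal_mul_diagonal]
            congr 3
            funext i
            exact mul_comm _ _
        _ = Matrix.diagonal μ * (Matrix.diagonal D * L) := by
            rw [← h, ← Matrix.mul_assoc (Matrix.diagonal D), Matrix.mul_assoc,
              Matrix.mul_assoc (Matrix.diagonal D * L), hone, Matrix.mul_one]
        _ = Matrix.diagonal D * (Matrix.diagonal μ * L) := by
            rw [← Matrix.mul_assoc, ← Matrix.mul_assoc, Matrix.diagonal_mul_diagonal,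
              Matrix.diagonal_mul_diagonal]
            congr 2
            funext i
            exact mul_comm _ _
    have h2 : Matrix.diagonal (fun i => (D i)⁻¹) * Matrix.diagonal D = 1 := by
      rw [Matrix.diagonal_mul_diagonal]
      have h3 : (fun i => (D i)⁻¹ * D i) = fun _ => (1 : ℝ) := funext (fun i =>
        inv_mul_cancel₀ (hD i))
      rw [h3, Matrix.diagonal_one]
    have h3 := congrArg (fun M => Matrix.diagonal (fun i => (D i)⁻¹) * M) h1
    beta_reduce at h3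
    rwa [← Matrix.mul_assoc, h2, Matrix.one_mul, ← Matrix.mul_assoc, h2, Matrix.one_mul] at h3

/-- The orbit of a form under scalings of determinant one and changes of basis. -/
def Orb (Y : Matrix ι ι ℝ) : Set (Matrix ι ι ℝ) :=
  {Z | ∃ D : ι → ℝ, (∀ i, 0 < D i) ∧ ∏ i, D i = 1 ∧ ∃ U : Matrix ι ι ℤ, IsUnit U.det ∧
    Z = Matrix.diagonal D * (Y * U.map (Int.cast : ℤ → ℝ))}

theorem orb_closure_inv (Y : Matrix ι ι ℝ) : Inv (closure (Orb Y)) := by
  intro L hL D hD0 hD U hU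
  have hcont : Continuous (fun L : Matrix ι ι ℝ =>
      Matrix.diagonal D * (L * U.map (Int.cast : ℤ → ℝ))) :=
    Continuous.matrix_mul continuous_const (Continuous.matrix_mul continuous_id continuous_const)
  refine map_mem_closure (f := fun L : Matrix ι ι ℝ =>
      Matrix.diagonal D * (L * U.map (Int.cast : ℤ → ℝ))) hcont hL ?_
  rintro Z ⟨D', hD'0, hD', U', hU', rfl⟩
  refine ⟨fun i => D i * D' i, fun i => mul_pos (hD0 i) (hD'0 i), ?_, U' * U, ?_, ?_⟩
  · rw [Finset.prod_mul_distrib, hD, hD', one_mul]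
  · rw [Matrix.det_mul]
    exact hU'.mul hU
  · have h1 : (U' * U).map (Int.cast : ℤ → ℝ) =
        U'.map (Int.cast : ℤ → ℝ) * U.map (Int.cast : ℤ → ℝ) :=
      Matrix.map_mul (f := Int.castRingHom ℝ)
    rw [h1, ← Matrix.diagonal_mul_diagonal]
    simp only [Matrix.mul_assoc]

theorem alg_isolation (hn : 3 ≤ Fintype.card ι) (c d : ℝ) (hc : 0 < c) (Y : Matrix ι ι ℝ)
    (hYdet : Y.det ≠ 0) (hY : Alg Y) (L : ℕ → Matrix ι ι ℝ) (hL : Tendsto L atTop (𝓝 Y))
    (hgood : ∀ k, L k ∈ Good c d) : ∀ᶠ k in atTop, ∃ D : ι → ℝ, L k = Matrix.diagonal D * Y := by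
  obtain ⟨A, μ, -, hirr, -, hYA⟩ := hY
  refine isolation hn Y hYdet (A.map (Int.cast : ℤ → ℚ)) ?_ μ ?_ c hc L hL
    (fun k => (hgood k).2.2)
  · have h1 : (A.map (Int.cast : ℤ → ℚ)).charpoly = A.charpoly.map (Int.castRingHom ℚ) :=
      Matrix.charpoly_map A (Int.castRingHom ℚ)
    rw [h1]
    exact hirr
  · rw [Matrix.map_map]
    have h1 : ((Rat.cast : ℚ → ℝ) ∘ (Int.cast : ℤ → ℚ)) = (Int.cast : ℤ → ℝ) := by
      funext z
      simp
    rw [h1]
    exact hYA

/-- Countable closed set of norms: all the forms are algebraic. -/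
theorem xv_all_alg (hn : 3 ≤ Fintype.card ι) (c d : ℝ) (hc : 0 < c) (V : Set ℝ)
    (hV : IsClosed V) (hVc : V.Countable) (Y : Matrix ι ι ℝ) (hY : Y ∈ XV c d V) : Alg Y := by
  have hYmem : Y ∈ closure (Orb Y) := by
    refine subset_closure ⟨fun _ => 1, fun _ => one_pos, Finset.prod_const_one, 1, ?_, ?_⟩
    · rw [Matrix.det_one]
      exact isUnit_one
    · rw [Matrix.diagonal_one, Matrix.one_mul, Matrix.map_one _ Int.cast_zero Int.cast_one,
        Matrix.mul_one]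
  obtain ⟨Z, ⟨hZ, hZcl⟩, hZalg⟩ := xv_alg hn c d hc V hV hVc (closure (Orb Y)) isClosed_closure
    (orb_closure_inv Y) ⟨Y, hY, hYmem⟩
  have hZcl' : Z ∈ @closure (ι → ι → ℝ) _ (Orb Y) := hZcl
  obtain ⟨A, hA, hAlim⟩ := (@mem_closure_iff_seq_limit (ι → ι → ℝ) _ _ _ _).mp hZcl'
  choose D hD0 hD U hU hAeq using hA
  have hgood : ∀ k, (A k : Matrix ι ι ℝ) ∈ Good c d := by
    intro k
    rw [hAeq k]
    exact good_transform c d Y hY.1 (D k) (hD k) (U k) (hU k)
  obtain ⟨k, E, hE⟩ := (alg_isolation hn c d hc Z (good_det_ne hc hZ.1) hZalg A hAlim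
    hgood).exists
  rw [hAeq k] at hE
  exact alg_transfer Y Z (D k) E (fun i => (hD0 k i).ne') (U k) (hU k) hE hZalg

/-- One large window of exposed points with norms in a countable closed set forces all the forms
to be algebraic. -/
theorem patch (hn : 3 ≤ Fintype.card ι) (c d : ℝ) (hc : 0 < c) (V : Set ℝ)
    (hV : IsClosed V) (hVc : V.Countable) : ∃ T : ℕ, ∀ L : Matrix ι ι ℝ, L ∈ Good c d →
      ∀ s : ι → ℝ, (∀ i, 0 < s i) → ∏ i, s i = 1 →
      (∀ v : ι → ℤ, Expo L v → (∀ i, L.mulVec (fun j => (v j : ℝ)) i ≤ T * s i) →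
        ∏ i, L.mulVec (fun j => (v j : ℝ)) i ∈ V) → Alg L := by
  have hι : Nonempty ι := Fintype.card_pos_iff.mp (by omega)
  by_contra hcon
  push Not at hcon
  choose L hL s hs hs1 hLV hLalg using hcon
  obtain ⟨Y, ψ, U, -, hU, hlim, hY⟩ := local_limit c d hc V hV L hL s hs hs1 (fun k => (k : ℝ))
    tendsto_natCast_atTop_atTop hLV
  have hYalg := xv_all_alg hn c d hc V hV hVc Y hY
  obtain ⟨k, E, hE⟩ := (alg_isolation hn c d hc Y (good_det_ne hc hY.1) hYalg _ hlim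
    (fun k => good_transform c d _ (hL (ψ k)) _
      (by rw [Finset.prod_inv_distrib, hs1, inv_one]) (U k) (hU k))).exists
  exact hLalg (ψ k) (alg_transfer (L (ψ k)) Y _ E
    (fun i => (inv_pos.mpr (hs (ψ k) i)).ne') (U k) (hU k) hE hYalg)

end Pool.Agent.H83.Sail
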