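import Mathlib
import Pool.Agent.H83.Sail.Frame

/-!
# Minimisers of positive functionals on the integer points of a cone
-/

namespace Pool.Agent.H83.Sail

open Module Filter Topology

variable {ι : Type*} [Fintype ι] [DecidableEq ι]

/-- The value of the functional with coefficients `w`. -/
def val (L : Matrix ι ι ℝ) (w : ι → ℝ) (x : ι → ℤ) : ℝ :=
  ∑ i, w i * L.mulVec (fun j => (x j : ℝ)) i

/-- Nonzero integer points of the cone. -/
def InC (L : Matrix ι ι ℝ) (x : ι → ℤ) : Prop :=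
  x ≠ 0 ∧ ∀ i, 0 ≤ L.mulVec (fun j => (x j : ℝ)) i

/-- `x` minimises the functional on the nonzero integer points of the cone. -/
def IsMin (L : Matrix ι ι ℝ) (w : ι → ℝ) (x : ι → ℤ) : Prop :=
  InC L x ∧ ∀ y, InC L y → val L w x ≤ val L w y

/-- Two integer points minimise a common positive functional. -/
def AdjW (L : Matrix ι ι ℝ) (x y : ι → ℤ) : Prop :=
  ∃ w : ι → ℝ, (∀ i, 0 < w i) ∧ IsMin L w x ∧ IsMin L w y

omit [DecidableEq ι] in
theorem AdjW.symm {L : Matrix ι ι ℝ} {x y : ι → ℤ} (h : AdjW L x y) : AdjW L y x := by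
  obtain ⟨w, hw, hx, hy⟩ := h
  exact ⟨w, hw, hy, hx⟩

omit [DecidableEq ι] in
theorem AdjW.left {L : Matrix ι ι ℝ} {x y : ι → ℤ} (h : AdjW L x y) : AdjW L x x := by
  obtain ⟨w, hw, hx, -⟩ := h
  exact ⟨w, hw, hx, hx⟩

omit [DecidableEq ι] in
theorem InC.pos {L : Matrix ι ι ℝ} {c : ℝ} (hc : 0 < c)
    (hmin : ∀ z : ι → ℤ, z ≠ 0 → c ≤ |∏ i, L.mulVec (fun j => (z j : ℝ)) i|) {x : ι → ℤ}
    (hx : InC L x) (i : ι) : 0 < L.mulVec (fun j => (x j : ℝ)) i := by
  refine lt_of_le_of_ne (hx.2 i) (fun h0 => ?_)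
  have h1 := hmin x hx.1
  rw [Finset.prod_eq_zero (Finset.mem_univ i) h0.symm, abs_zero] at h1
  linarith

omit [DecidableEq ι] in
theorem val_term_le {L : Matrix ι ι ℝ} {w : ι → ℝ} (hw : ∀ i, 0 < w i) {x : ι → ℤ}
    (hx : InC L x) (i : ι) : w i * L.mulVec (fun j => (x j : ℝ)) i ≤ val L w x :=
  Finset.single_le_sum (f := fun i => w i * L.mulVec (fun j => (x j : ℝ)) i)
    (fun j _ => mul_nonneg (hw j).le (hx.2 j)) (Finset.mem_univ i)

/-- Points of the cone in every window. -/
theorem window [Nonempty ι] (L : Matrix ι ι ℝ) (hL : L.det ≠ 0) (c : ℝ) (hc : 0 < c)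
    (hmin : ∀ z : ι → ℤ, z ≠ 0 → c ≤ |∏ i, L.mulVec (fun j => (z j : ℝ)) i|) :
    ∃ R : ℝ, 0 < R ∧ ∀ s : ι → ℝ, (∀ i, 0 < s i) → ∏ i, s i = 1 →
      ∃ y, InC L y ∧ ∀ i, L.mulVec (fun j => (y j : ℝ)) i ≤ R * s i := by
  obtain ⟨κ, R, hκ, hR, h⟩ := near_vertex L hL c hc hmin
  refine ⟨R, hR, fun s hs hs1 => ?_⟩
  obtain ⟨v, -, hv⟩ := h s hs hs1
  refine ⟨v, ⟨?_, fun i => (mul_pos hκ (hs i)).le.trans (hv i).1⟩, fun i => (hv i).2⟩
  rintro rfl
  obtain ⟨i0⟩ := (inferInstance : Nonempty ι)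
  have h1 := (mul_pos hκ (hs i0)).trans_le (hv i0).1
  have h2 : (fun j => (((0 : ι → ℤ) j : ℤ) : ℝ)) = 0 := by
    funext j
    simp
  rw [h2, Matrix.mulVec_zero, Pi.zero_apply] at h1
  exact lt_irrefl _ h1

/-- Sublevel sets are finite, uniformly for functionals bounded below. -/
theorem finite_level (L : Matrix ι ι ℝ) (hL : L.det ≠ 0) (ω : ι → ℝ) (hω : ∀ i, 0 < ω i)
    (B : ℝ) : {x : ι → ℤ | InC L x ∧ ∃ w : ι → ℝ, (∀ i, ω i ≤ w i) ∧ val L w x ≤ B}.Finite := by
  refine (finite_box L hL (fun i => B / ω i)).subset ?_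
  rintro x ⟨hx, w, hw, hB⟩ i
  rw [abs_of_nonneg (hx.2 i), le_div_iff₀ (hω i), mul_comm]
  refine le_trans ?_ hB
  refine le_trans ?_ (val_term_le (fun i => (hω i).trans_le (hw i)) hx i)
  exact mul_le_mul_of_nonneg_right (hw i) (hx.2 i)

theorem exists_isMin [Nonempty ι] (L : Matrix ι ι ℝ) (hL : L.det ≠ 0) (c : ℝ) (hc : 0 < c)
    (hmin : ∀ z : ι → ℤ, z ≠ 0 → c ≤ |∏ i, L.mulVec (fun j => (z j : ℝ)) i|)
    (w : ι → ℝ) (hw : ∀ i, 0 < w i) : ∃ x, IsMin L w x := by
  obtain ⟨R, hR, hwin⟩ := window L hL c hc hmin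
  obtain ⟨y, hy, -⟩ := hwin (fun _ => 1) (fun _ => one_pos) Finset.prod_const_one
  have hfin : {x : ι → ℤ | InC L x ∧ val L w x ≤ val L w y}.Finite :=
    (finite_level L hL w hw (val L w y)).subset (fun x hx => ⟨hx.1, w, fun _ => le_rfl, hx.2⟩)
  obtain ⟨x, ⟨hx, hxy⟩, hxmin⟩ := hfin.exists_minimalFor (val L w) _ ⟨y, hy, le_rfl⟩
  refine ⟨x, hx, fun z hz => ?_⟩
  rcases le_total (val L w z) (val L w y) with h | h
  · rcases le_total (val L w x) (val L w z) with h' | h'
    · exact h'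
    · exact hxmin ⟨hz, h⟩ h'
  · exact hxy.trans h

/-- A point has only finitely many neighbours. -/
theorem nbr_finite [Nonempty ι] (L : Matrix ι ι ℝ) (hL : L.det ≠ 0) (c : ℝ) (hc : 0 < c)
    (hmin : ∀ z : ι → ℤ, z ≠ 0 → c ≤ |∏ i, L.mulVec (fun j => (z j : ℝ)) i|) (x : ι → ℤ) :
    {u | AdjW L x u}.Finite := by
  by_cases hx : InC L x
  swap
  · refine Set.finite_empty.subset ?_
    rintro u ⟨w, -, hxw, -⟩
    exact absurd hxw.1 hx
  obtain ⟨R, hR, hwin⟩ := window L hL c hc hmin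
  have hxpos := fun i => hx.pos hc hmin i
  set τ : ℝ := 1 / (2 * R) with hτ
  have hτ0 : 0 < τ := by positivity
  set p : ι → ℝ := fun i => ∏ j ∈ Finset.univ.erase i, (τ * L.mulVec (fun j => (x j : ℝ)) j)
    with hp
  have hp0 : ∀ i, 0 < p i := fun i => Finset.prod_pos (fun j _ => mul_pos hτ0 (hxpos j))
  refine (finite_box L hL (fun i => 2 * R * (p i)⁻¹)).subset ?_
  rintro u ⟨w, hw, hxw, huw⟩ i
  rw [abs_of_nonneg (huw.1.2 i)]
  set s : ι → ℝ := Function.update (fun j => τ * L.mulVec (fun j => (x j : ℝ)) j) i (p i)⁻¹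
    with hs
  have hsi : s i = (p i)⁻¹ := Function.update_self _ _ _
  have hsj : ∀ j, j ≠ i → s j = τ * L.mulVec (fun j => (x j : ℝ)) j := fun j hj =>
    Function.update_of_ne hj _ _
  have hs0 : ∀ j, 0 < s j := by
    intro j
    by_cases h : j = i
    · rw [h, hsi]
      exact inv_pos.mpr (hp0 i)
    · rw [hsj j h]
      exact mul_pos hτ0 (hxpos j)
  have hs1 : ∏ j, s j = 1 := by
    rw [← Finset.mul_prod_erase _ _ (Finset.mem_univ i), hsi,
      Finset.prod_congr rfl (fun j hj => hsj j (Finset.ne_of_mem_erase hj))]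
    exact inv_mul_cancel₀ (hp0 i).ne'
  obtain ⟨y, hy, hys⟩ := hwin s hs0 hs1
  have h1 : val L w x ≤ R * ∑ j, w j * s j := by
    refine (hxw.2 y hy).trans ?_
    rw [val, Finset.mul_sum]
    refine Finset.sum_le_sum (fun j _ => ?_)
    calc w j * L.mulVec (fun j => (y j : ℝ)) j ≤ w j * (R * s j) :=
          mul_le_mul_of_nonneg_left (hys j) (hw j).le
      _ = R * (w j * s j) := by ring
  have h2 : ∑ j, w j * s j ≤ w i * (p i)⁻¹ + τ * val L w x := by
    rw [← Finset.add_sum_erase _ _ (Finset.mem_univ i), hsi]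
    refine add_le_add le_rfl ?_
    rw [val, Finset.mul_sum]
    calc ∑ j ∈ Finset.univ.erase i, w j * s j
        = ∑ j ∈ Finset.univ.erase i, τ * (w j * L.mulVec (fun j => (x j : ℝ)) j) := by
          refine Finset.sum_congr rfl (fun j hj => ?_)
          rw [hsj j (Finset.ne_of_mem_erase hj)]
          ring
      _ ≤ ∑ j, τ * (w j * L.mulVec (fun j => (x j : ℝ)) j) :=
          Finset.sum_le_sum_of_subset_of_nonneg (Finset.erase_subset _ _)
            (fun j _ _ => mul_nonneg hτ0.le (mul_nonneg (hw j).le (hx.2 j)))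
  have h3 : val L w x ≤ 2 * R * (w i * (p i)⁻¹) := by
    have h4 : R * ∑ j, w j * s j ≤ R * (w i * (p i)⁻¹ + τ * val L w x) :=
      mul_le_mul_of_nonneg_left h2 hR.le
    have h5 : R * (τ * val L w x) = val L w x / 2 := by
      rw [hτ]
      field_simp
    have h6 : val L w x ≤ R * (w i * (p i)⁻¹) + val L w x / 2 := by
      calc val L w x ≤ R * (w i * (p i)⁻¹ + τ * val L w x) := h1.trans h4
        _ = R * (w i * (p i)⁻¹) + R * (τ * val L w x) := by ring
        _ = _ := by rw [h5]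
    linarith
  have h4 : w i * L.mulVec (fun j => (u j : ℝ)) i ≤ w i * (2 * R * (p i)⁻¹) := by
    calc w i * L.mulVec (fun j => (u j : ℝ)) i ≤ val L w u := val_term_le hw huw.1 i
      _ ≤ val L w x := huw.2 x hx
      _ ≤ 2 * R * (w i * (p i)⁻¹) := h3
      _ = w i * (2 * R * (p i)⁻¹) := by ring
  exact le_of_mul_le_mul_left h4 (hw i)

omit [DecidableEq ι] in
theorem val_line (L : Matrix ι ι ℝ) (w μ : ι → ℝ) (t : ℝ) (x : ι → ℤ) :
    val L (fun i => w i + t * μ i) x = val L w x + t * val L μ x := by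
  rw [val, val, val, Finset.mul_sum, ← Finset.sum_add_distrib]
  exact Finset.sum_congr rfl (fun i _ => by ring)

omit [DecidableEq ι] in
theorem isMin_closed (L : Matrix ι ι ℝ) (w μ : ι → ℝ) (x : ι → ℤ) :
    IsClosed {t : ℝ | IsMin L (fun i => w i + t * μ i) x} := by
  by_cases hx : InC L x
  · have h1 : {t : ℝ | IsMin L (fun i => w i + t * μ i) x} =
        ⋂ y : {y // InC L y}, {t : ℝ | val L w x + t * val L μ x ≤
          val L w y.1 + t * val L μ y.1} := by
      ext t
      rw [Set.mem_iInter]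
      constructor
      · rintro h ⟨y, hy⟩
        have h2 := h.2 y hy
        rw [val_line, val_line] at h2
        exact h2
      · intro h
        refine ⟨hx, fun y hy => ?_⟩
        rw [val_line, val_line]
        exact h ⟨y, hy⟩
    rw [h1]
    refine isClosed_iInter (fun y => isClosed_le ?_ ?_)
    · exact continuous_const.add (continuous_id.mul continuous_const)
    · exact continuous_const.add (continuous_id.mul continuous_const)
  · have h1 : {t : ℝ | IsMin L (fun i => w i + t * μ i) x} = ∅ := by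
      ext t
      simp only [Set.mem_ofPred_eq, Set.mem_empty_iff_false, iff_false]
      exact fun h => hx h.1
    rw [h1]
    exact isClosed_empty

/-- The graph of common minimisers is connected. -/
theorem connected [Nonempty ι] (L : Matrix ι ι ℝ) (hL : L.det ≠ 0) (c : ℝ) (hc : 0 < c)
    (hmin : ∀ z : ι → ℤ, z ≠ 0 → c ≤ |∏ i, L.mulVec (fun j => (z j : ℝ)) i|) (x y : ι → ℤ)
    (hx : AdjW L x x) (hy : AdjW L y y) : Relation.ReflTransGen (AdjW L) x y := by
  classical
  obtain ⟨w0, hw0, hxw, -⟩ := hx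
  obtain ⟨w1, hw1, hyw, -⟩ := hy
  by_contra hxy
  set μ : ι → ℝ := fun i => w1 i - w0 i with hμ
  set ω : ι → ℝ := fun i => min (w0 i) (w1 i) with hω
  have hω0 : ∀ i, 0 < ω i := fun i => lt_min (hw0 i) (hw1 i)
  have hωt : ∀ t ∈ Set.Icc (0 : ℝ) 1, ∀ i, ω i ≤ w0 i + t * μ i := by
    intro t ht i
    have h1 : w0 i + t * μ i = (1 - t) * w0 i + t * w1 i := by
      rw [hμ]
      ring
    rw [h1]
    have h2 : ω i ≤ w0 i := min_le_left _ _
    have h3 : ω i ≤ w1 i := min_le_right _ _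
    nlinarith [mul_le_mul_of_nonneg_left h2 (sub_nonneg.mpr ht.2),
      mul_le_mul_of_nonneg_left h3 ht.1]
  have hpos : ∀ t ∈ Set.Icc (0 : ℝ) 1, ∀ i, 0 < w0 i + t * μ i := fun t ht i =>
    (hω0 i).trans_le (hωt t ht i)
  set B : ℝ := max (val L w0 x) (val L w1 x) with hB
  have hcand : {z : ι → ℤ | ∃ t ∈ Set.Icc (0 : ℝ) 1,
      IsMin L (fun i => w0 i + t * μ i) z}.Finite := by
    refine (finite_level L hL ω hω0 B).subset ?_
    rintro z ⟨t, ht, hz⟩
    refine ⟨hz.1, _, hωt t ht, (hz.2 x hxw.1).trans ?_⟩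
    rw [val_line]
    have h1 : val L μ x = val L w1 x - val L w0 x := by
      rw [val, val, val, ← Finset.sum_sub_distrib]
      exact Finset.sum_congr rfl (fun i _ => by rw [hμ]; ring)
    rw [h1]
    have h2 : val L w0 x ≤ B := le_max_left _ _
    have h3 : val L w1 x ≤ B := le_max_right _ _
    have h4 : val L w0 x + t * (val L w1 x - val L w0 x) =
        (1 - t) * val L w0 x + t * val L w1 x := by ring
    rw [h4]
    nlinarith [mul_le_mul_of_nonneg_left h2 (sub_nonneg.mpr ht.2),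
      mul_le_mul_of_nonneg_left h3 ht.1]
  have hclosed : ∀ P : (ι → ℤ) → Prop, IsClosed {t : ℝ | ∃ z ∈ {z : ι → ℤ |
      ∃ t ∈ Set.Icc (0 : ℝ) 1, IsMin L (fun i => w0 i + t * μ i) z},
      P z ∧ IsMin L (fun i => w0 i + t * μ i) z} := by
    intro P
    have h1 : {t : ℝ | ∃ z ∈ {z : ι → ℤ |
        ∃ t ∈ Set.Icc (0 : ℝ) 1, IsMin L (fun i => w0 i + t * μ i) z},
        P z ∧ IsMin L (fun i => w0 i + t * μ i) z} =
        ⋃ z ∈ {z : ι → ℤ | z ∈ {z : ι → ℤ |
          ∃ t ∈ Set.Icc (0 : ℝ) 1, IsMin L (fun i => w0 i + t * μ i) z} ∧ P z},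
          {t : ℝ | IsMin L (fun i => w0 i + t * μ i) z} := by
      ext t
      simp only [Set.mem_ofPred_eq, Set.mem_iUnion]
      constructor
      · rintro ⟨z, hz1, hz2, hz3⟩
        exact ⟨z, ⟨hz1, hz2⟩, hz3⟩
      · rintro ⟨z, ⟨hz1, hz2⟩, hz3⟩
        exact ⟨z, hz1, hz2, hz3⟩
    rw [h1]
    exact (hcand.subset (fun z hz => hz.1)).isClosed_biUnion (fun z _ => isMin_closed L w0 μ z)
  obtain ⟨t, ht, ⟨z1, -, hz1, hz1'⟩, z2, -, hz2, hz2'⟩ :=
    isPreconnected_closed_iff.mp isPreconnected_Icc _ _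
      (hclosed (fun z => Relation.ReflTransGen (AdjW L) x z))
      (hclosed (fun z => ¬ Relation.ReflTransGen (AdjW L) x z)) (by
        intro t ht
        obtain ⟨z, hz⟩ := exists_isMin L hL c hc hmin (fun i => w0 i + t * μ i) (hpos t ht)
        by_cases h : Relation.ReflTransGen (AdjW L) x z
        · exact Or.inl ⟨z, ⟨t, ht, hz⟩, h, hz⟩
        · exact Or.inr ⟨z, ⟨t, ht, hz⟩, h, hz⟩)
      ⟨0, ⟨le_rfl, zero_le_one⟩, x, ⟨0, ⟨le_rfl, zero_le_one⟩, by simpa using hxw⟩,
        Relation.ReflTransGen.refl, by simpa using hxw⟩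
      ⟨1, ⟨zero_le_one, le_rfl⟩, y, ⟨1, ⟨zero_le_one, le_rfl⟩, by simpa [hμ] using hyw⟩,
        hxy, by simpa [hμ] using hyw⟩
  exact hz2 (hz1.tail ⟨_, hpos t ht, hz1', hz2'⟩)

/-- A point stays a minimiser in the directions orthogonal to all its neighbours. -/
theorem isMin_stay (L : Matrix ι ι ℝ) (hL : L.det ≠ 0) (x : ι → ℤ) (w μ : ι → ℝ)
    (hw : ∀ i, 0 < w i) (hxw : IsMin L w x) (hμ : ∀ u, AdjW L x u → val L μ u = 0) (T : ℝ)
    (hT : 0 ≤ T) (hTw : ∀ i, 0 < w i + T * μ i) : IsMin L (fun i => w i + T * μ i) x := by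
  have hμx : val L μ x = 0 := hμ x ⟨w, hw, hxw, hxw⟩
  have hpos : ∀ t, 0 ≤ t → t ≤ T → ∀ i, min (w i) (w i + T * μ i) ≤ w i + t * μ i := by
    intro t ht0 htT i
    rcases le_total 0 (μ i) with h | h
    · exact (min_le_left _ _).trans (by nlinarith)
    · exact (min_le_right _ _).trans (by nlinarith)
  have hmin0 : ∀ i, 0 < min (w i) (w i + T * μ i) := fun i => lt_min (hw i) (hTw i)
  by_contra hcon
  obtain ⟨y0, hy0, hy0lt⟩ : ∃ y, InC L y ∧
      val L (fun i => w i + T * μ i) y < val L (fun i => w i + T * μ i) x := by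
    by_contra hno
    push Not at hno
    exact hcon ⟨hxw.1, hno⟩
  rw [val_line, val_line, hμx, mul_zero, add_zero] at hy0lt
  set S : Set (ι → ℤ) := {y | InC L y ∧ ∃ t : ℝ, 0 ≤ t ∧ t ≤ T ∧
    val L w y + t * val L μ y < val L w x} with hS
  have hSfin : S.Finite := by
    refine (finite_level L hL _ hmin0 (val L w x)).subset ?_
    rintro y ⟨hy, t, ht0, htT, hlt⟩
    refine ⟨hy, _, hpos t ht0 htT, ?_⟩
    rw [val_line]
    exact hlt.le
  have hb : ∀ y ∈ S, val L μ y < 0 := by
    rintro y ⟨hy, t, ht0, htT, hlt⟩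
    have h1 := hxw.2 y hy
    by_contra h
    push Not at h
    nlinarith
  obtain ⟨y, hyS, hymin⟩ := hSfin.exists_minimalFor
    (fun y => (val L w y - val L w x) / (-val L μ y)) S ⟨y0, hy0, T, hT, le_rfl, hy0lt⟩
  set τ : ℝ := (val L w y - val L w x) / (-val L μ y) with hτ
  have hby := hb y hyS
  have hτeq : val L w y + τ * val L μ y = val L w x := by
    rw [hτ, div_mul_eq_mul_div, neg_eq_neg_one_mul, mul_comm (-1 : ℝ)]
    have h1 : val L μ y ≠ 0 := hby.ne
    field_simp
    ring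
  have hτ0 : 0 ≤ τ := div_nonneg (by linarith [hxw.2 y hyS.1]) (by linarith)
  have hτT : τ ≤ T := by
    obtain ⟨-, t, ht0, htT, hlt⟩ := hyS
    by_contra h
    push Not at h
    nlinarith
  have hxτ : IsMin L (fun i => w i + τ * μ i) x := by
    refine ⟨hxw.1, fun z hz => ?_⟩
    rw [val_line, val_line, hμx, mul_zero, add_zero]
    by_contra h
    push Not at h
    have hzS : z ∈ S := ⟨hz, τ, hτ0, hτT, h⟩
    have hbz := hb z hzS
    have h1 : (val L w z - val L w x) / (-val L μ z) < τ := by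
      rw [div_lt_iff₀ (by linarith)]
      linarith
    have h2 : (val L w y - val L w x) / (-val L μ y) ≤
        (val L w z - val L w x) / (-val L μ z) := by
      rcases le_total ((val L w y - val L w x) / (-val L μ y))
        ((val L w z - val L w x) / (-val L μ z)) with h | h
      · exact h
      · exact hymin hzS h
    linarith
  have hyτ : IsMin L (fun i => w i + τ * μ i) y := by
    refine ⟨hyS.1, fun z hz => ?_⟩
    have h1 := hxτ.2 z hz
    rw [val_line, val_line, hμx, mul_zero, add_zero] at h1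
    rw [val_line, val_line, hτeq]
    exact h1
  have h3 := hμ y ⟨_, fun i => (hmin0 i).trans_le (hpos τ hτ0 hτT i), hxτ, hyτ⟩
  linarith

/-- The neighbours of a point span the space. -/
theorem nbr_span [Nonempty ι] (L : Matrix ι ι ℝ) (hL : L.det ≠ 0) (c : ℝ) (hc : 0 < c)
    (hmin : ∀ z : ι → ℤ, z ≠ 0 → c ≤ |∏ i, L.mulVec (fun j => (z j : ℝ)) i|) (x : ι → ℤ)
    (hx : AdjW L x x) (μ : ι → ℝ) (hμ : ∀ u, AdjW L x u → val L μ u = 0) : μ = 0 := by
  classical
  obtain ⟨w, hw, hxw, -⟩ := hx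
  -- one coordinate cannot be negative
  have key : ∀ μ : ι → ℝ, (∀ u, AdjW L x u → val L μ u = 0) → ∀ i, 0 ≤ μ i := by
    intro μ hμ
    by_contra hneg
    push Not at hneg
    obtain ⟨i1, hi1⟩ := hneg
    obtain ⟨i0, hi0mem, hi0⟩ := Finset.exists_min_image
      (Finset.univ.filter (fun i => μ i < 0)) (fun i => w i / (-μ i))
      ⟨i1, Finset.mem_filter.mpr ⟨Finset.mem_univ _, hi1⟩⟩
    have hμ0 : μ i0 < 0 := (Finset.mem_filter.mp hi0mem).2
    set T : ℝ := w i0 / (-μ i0) with hT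
    have hT0 : 0 < T := div_pos (hw i0) (by linarith)
    have hTle : ∀ i, μ i < 0 → T * (-μ i) ≤ w i := by
      intro i hi
      have h1 := hi0 i (Finset.mem_filter.mpr ⟨Finset.mem_univ _, hi⟩)
      rwa [le_div_iff₀ (by linarith)] at h1
    have hwT : ∀ i, 0 ≤ w i + T * μ i := by
      intro i
      rcases lt_or_ge (μ i) 0 with h | h
      · have := hTle i h
        linarith
      · exact (add_pos_of_pos_of_nonneg (hw i) (mul_nonneg hT0.le h)).le
    have hwT0 : w i0 + T * μ i0 = 0 := by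
      rw [hT, div_mul_eq_mul_div, mul_comm (w i0), mul_div_assoc]
      have h1 : μ i0 * (w i0 / -μ i0) = -w i0 := by
        have := hμ0.ne
        field_simp
      rw [h1]
      ring
    have hμx : val L μ x = 0 := hμ x ⟨w, hw, hxw, hxw⟩
    -- minimality up to the boundary
    have hbd : ∀ y, InC L y → val L w x ≤ val L w y + T * val L μ y := by
      intro y hy
      by_contra h
      push Not at h
      have h1 := hxw.2 y hy
      have hby : val L μ y < 0 := by
        by_contra h2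
        push Not at h2
        nlinarith
      -- a parameter slightly smaller than T
      set δ : ℝ := (val L w x - (val L w y + T * val L μ y)) / (-val L μ y) / 2 with hδ
      have hδ0 : 0 < δ := by
        rw [hδ]
        exact div_pos (div_pos (by linarith) (by linarith)) (by norm_num)
      have hδeq : 2 * δ * (-val L μ y) = val L w x - (val L w y + T * val L μ y) := by
        rw [hδ]
        have := hby.ne
        field_simp
      have hδT : δ < T := by
        by_contra h2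
        push Not at h2
        nlinarith
      have h3 := (isMin_stay L hL x w μ hw hxw hμ (T - δ) (by linarith) (fun i => by
        rcases lt_or_ge (μ i) 0 with h4 | h4
        · have := hTle i h4
          nlinarith
        · exact add_pos_of_pos_of_nonneg (hw i) (mul_nonneg (by linarith) h4))).2 y hy
      rw [val_line, val_line, hμx, mul_zero, add_zero] at h3
      nlinarith
    -- points with small values
    obtain ⟨R, hR, hwin⟩ := window L hL c hc hmin
    have hvx : 0 < val L w x := by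
      refine lt_of_lt_of_le (mul_pos (hw i0) (hxw.1.pos hc hmin i0)) (val_term_le hw hxw.1 i0)
    set W : ℝ := ∑ i, (w i + T * μ i) with hW
    have hW0 : 0 ≤ W := Finset.sum_nonneg (fun i _ => hwT i)
    set δ : ℝ := val L w x / (2 * (R * W + 1)) with hδ
    have hδ0 : 0 < δ := by positivity
    set s : ι → ℝ := Function.update (fun _ => δ) i0 ((δ ^ (Fintype.card ι - 1))⁻¹) with hs
    have hs0 : ∀ i, 0 < s i := by
      intro i
      by_cases h : i = i0
      · rw [h, hs, Function.update_self]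
        positivity
      · rw [hs, Function.update_of_ne h]
        exact hδ0
    have hs1 : ∏ i, s i = 1 := by
      rw [hs, Finset.prod_update_of_mem (Finset.mem_univ i0), Finset.prod_const,
        Finset.card_sdiff_of_subset (Finset.subset_univ _), Finset.card_singleton,
        Finset.card_univ]
      exact inv_mul_cancel₀ (by positivity)
    obtain ⟨y, hy, hys⟩ := hwin s hs0 hs1
    have h1 := hbd y hy
    rw [← val_line] at h1
    have h2 : ∑ i, (w i + T * μ i) * L.mulVec (fun j => (y j : ℝ)) i ≤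
        ∑ i, (w i + T * μ i) * (R * δ) := by
      refine Finset.sum_le_sum (fun i _ => ?_)
      by_cases h : i = i0
      · rw [h, hwT0, zero_mul, zero_mul]
      · refine mul_le_mul_of_nonneg_left ?_ (hwT i)
        have h3 := hys i
        rw [hs, Function.update_of_ne h] at h3
        exact h3
    rw [← Finset.sum_mul, ← hW] at h2
    have h3 : W * (R * δ) < val L w x := by
      rw [hδ]
      have h4 : W * (R * (val L w x / (2 * (R * W + 1)))) =
          val L w x * (R * W / (2 * (R * W + 1))) := by ring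
      rw [h4]
      have h5 : R * W / (2 * (R * W + 1)) < 1 := by
        rw [div_lt_one (by positivity)]
        nlinarith [mul_nonneg hR.le hW0]
      exact mul_lt_of_lt_one_right hvx h5
    have h6 : val L (fun i => w i + T * μ i) y ≤ W * (R * δ) := h2
    linarith
  have h1 := key μ hμ
  have h2 := key (fun i => -μ i) (fun u hu => by
    have h3 := hμ u hu
    rw [val] at h3 ⊢
    have h4 : ∑ i, -μ i * L.mulVec (fun j => (u j : ℝ)) i =
        -∑ i, μ i * L.mulVec (fun j => (u j : ℝ)) i := by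
      rw [← Finset.sum_neg_distrib]
      exact Finset.sum_congr rfl (fun i _ => by ring)
    rw [h4, h3, neg_zero])
  funext i
  have h3 := h1 i
  have h4 := h2 i
  simp only [Pi.zero_apply]
  linarith

end Pool.Agent.H83.Sail
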