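import Mathlib
import Pool.Agent.H83.Sail.Mini

/-!
# Common minimisers and segments on the sail
-/

namespace Pool.Agent.H83.Sail

open Module Filter Topology

variable {ι : Type*} [Fintype ι] [DecidableEq ι]

/-- The segment joining two integer points lies on the boundary of the hull. -/
def AdjS (L : Matrix ι ι ℝ) (x y : ι → ℤ) : Prop :=
  segment ℝ (fun j => (x j : ℝ)) (fun j => (y j : ℝ)) ⊆ frontier (convexHull ℝ (pts L))

omit [DecidableEq ι] in
theorem inC_pts {L : Matrix ι ι ℝ} {x : ι → ℤ} (hx : InC L x) :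
    (fun j => (x j : ℝ)) ∈ pts L := by
  refine ⟨hx.2, fun h0 => hx.1 ?_, x, rfl⟩
  funext j
  have h1 := congrFun h0 j
  simpa using h1

omit [DecidableEq ι] in
theorem pts_inC {L : Matrix ι ι ℝ} {p : ι → ℝ} (hp : p ∈ pts L) :
    ∃ x : ι → ℤ, InC L x ∧ p = fun j => (x j : ℝ) := by
  obtain ⟨h1, h2, z, rfl⟩ := hp
  refine ⟨z, ⟨fun h0 => h2 ?_, h1⟩, rfl⟩
  rw [h0]
  funext j
  simp

/-- The functional with coefficients `w` as a linear map. -/
noncomputable def lf (L : Matrix ι ι ℝ) (w : ι → ℝ) : (ι → ℝ) →ₗ[ℝ] ℝ :=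
  ∑ i, w i • (LinearMap.proj i ∘ₗ Matrix.toLin' L)

theorem lf_apply (L : Matrix ι ι ℝ) (w : ι → ℝ) (p : ι → ℝ) :
    lf L w p = ∑ i, w i * L.mulVec p i := by
  rw [lf]
  simp [Matrix.toLin'_apply]

theorem lf_val (L : Matrix ι ι ℝ) (w : ι → ℝ) (x : ι → ℤ) :
    lf L w (fun j => (x j : ℝ)) = val L w x := lf_apply L w _

theorem hull_ge (L : Matrix ι ι ℝ) (w : ι → ℝ) (m : ℝ)
    (h : ∀ x, InC L x → m ≤ val L w x) : convexHull ℝ (pts L) ⊆ {p | m ≤ lf L w p} := by
  refine convexHull_min ?_ (convex_halfSpace_ge (lf L w).isLinear m)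
  intro p hp
  obtain ⟨x, hx, rfl⟩ := pts_inC hp
  exact (h x hx).trans (lf_val L w x).ge

theorem adjS_of_adjW [Nonempty ι] (L : Matrix ι ι ℝ) (hL : L.det ≠ 0) (x y : ι → ℤ)
    (h : AdjW L x y) : AdjS L x y := by
  obtain ⟨w, hw, hx, hy⟩ := h
  have hunit : IsUnit L.det := isUnit_iff_ne_zero.mpr hL
  have hxy : val L w x = val L w y := le_antisymm (hx.2 y hy.1) (hy.2 x hx.1)
  have hK := hull_ge L w (val L w x) hx.2
  intro z hz
  have hzK : z ∈ convexHull ℝ (pts L) :=
    segment_subset_convexHull (inC_pts hx.1) (inC_pts hy.1) hz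
  have hzval : lf L w z = val L w x := by
    obtain ⟨a, b, ha, hb, hab, rfl⟩ := hz
    rw [map_add, map_smul, map_smul, lf_val, lf_val, ← hxy, ← add_smul, hab, one_smul]
  refine ⟨subset_closure hzK, fun hzi => ?_⟩
  obtain ⟨i0⟩ := (inferInstance : Nonempty ι)
  set u : ι → ℝ := L⁻¹.mulVec (Pi.single i0 1) with hu
  have hlu : lf L w u = w i0 := by
    rw [lf_apply, hu]
    simp_rw [Matrix.mulVec_mulVec, Matrix.mul_nonsing_inv L hunit, Matrix.one_mulVec]
    rw [Finset.sum_eq_single i0 (fun j _ hj => by rw [Pi.single_eq_of_ne hj, mul_zero])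
      (fun h => absurd (Finset.mem_univ _) h), Pi.single_eq_same, mul_one]
  have hcont : Continuous (fun t : ℝ => z - t • u) :=
    continuous_const.sub (continuous_id.smul continuous_const)
  have hev : ∀ᶠ t in 𝓝 (0 : ℝ), z - t • u ∈ interior (convexHull ℝ (pts L)) := by
    refine hcont.continuousAt.eventually_mem (isOpen_interior.mem_nhds ?_)
    rw [zero_smul, sub_zero]
    exact hzi
  have hev' : ∀ᶠ t in 𝓝[>] (0 : ℝ), z - t • u ∈ interior (convexHull ℝ (pts L)) :=
    hev.filter_mono nhdsWithin_le_nhds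
  obtain ⟨t, ht1, ht2⟩ := (hev'.and self_mem_nhdsWithin).exists
  have h1 := hK (interior_subset ht1)
  rw [Set.mem_ofPred_eq, map_sub, map_smul, hlu, hzval, smul_eq_mul] at h1
  have h2 : 0 < t * w i0 := mul_pos ht2 (hw i0)
  linarith

/-- The hull has interior points. -/
theorem hull_interior [Nonempty ι] (L : Matrix ι ι ℝ) (hL : L.det ≠ 0) (c : ℝ) (hc : 0 < c)
    (hmin : ∀ z : ι → ℤ, z ≠ 0 → c ≤ |∏ i, L.mulVec (fun j => (z j : ℝ)) i|) :
    (interior (convexHull ℝ (pts L))).Nonempty := by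
  rw [interior_convexHull_nonempty_iff_affineSpan_eq_top]
  obtain ⟨R, hR, hwin⟩ := window L hL c hc hmin
  obtain ⟨p, hp, -⟩ := hwin (fun _ => 1) (fun _ => one_pos) Finset.prod_const_one
  have hppos := fun i => hp.pos hc hmin i
  have hpp : (fun j => (p j : ℝ)) ∈ affineSpan ℝ (pts L) :=
    subset_affineSpan ℝ _ (inC_pts hp)
  have hdir : (affineSpan ℝ (pts L)).direction = ⊤ := by
    rw [eq_top_iff]
    intro v _
    have hbasis : ∀ j : ι, (Pi.single j 1 : ι → ℝ) ∈ (affineSpan ℝ (pts L)).direction := by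
      intro j
      -- a large multiple of p plus the unit vector
      obtain ⟨N, hN⟩ : ∃ N : ℕ, ∀ i, |L i j| < N * L.mulVec (fun j => (p j : ℝ)) i := by
        have h1 : ∀ i, ∀ᶠ N : ℕ in atTop, |L i j| < N * L.mulVec (fun j => (p j : ℝ)) i :=
          fun i => (tendsto_natCast_atTop_atTop.atTop_mul_const (hppos i)).eventually_gt_atTop _
        exact (eventually_all.mpr h1).exists
      have hN0 : 0 < N := by
        obtain ⟨i0⟩ := (inferInstance : Nonempty ι)
        rcases Nat.eq_zero_or_pos N with h | h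
        · have h1 := hN i0
          rw [h, Nat.cast_zero, zero_mul] at h1
          exact absurd h1 (not_lt.mpr (abs_nonneg _))
        · exact h
      set q1 : ι → ℤ := fun k => (N : ℤ) * p k with hq1
      set q2 : ι → ℤ := fun k => (N : ℤ) * p k + (if k = j then 1 else 0) with hq2
      have hr1 : (fun k => (q1 k : ℝ)) = (N : ℝ) • (fun k => (p k : ℝ)) := by
        funext k
        rw [hq1, Pi.smul_apply, smul_eq_mul]
        push_cast
        rfl
      have hr2 : (fun k => (q2 k : ℝ)) = (N : ℝ) • (fun k => (p k : ℝ)) + Pi.single j 1 := by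
        funext k
        rw [hq2, Pi.add_apply, Pi.smul_apply, smul_eq_mul, Pi.single_apply]
        push_cast
        rfl
      have hv1 : ∀ i, L.mulVec (fun k => (q1 k : ℝ)) i =
          N * L.mulVec (fun j => (p j : ℝ)) i := by
        intro i
        rw [hr1, Matrix.mulVec_smul, Pi.smul_apply, smul_eq_mul]
      have hv2 : ∀ i, L.mulVec (fun k => (q2 k : ℝ)) i =
          N * L.mulVec (fun j => (p j : ℝ)) i + L i j := by
        intro i
        rw [hr2, Matrix.mulVec_add, Matrix.mulVec_smul, Matrix.mulVec_single_one, Pi.add_apply,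
          Pi.smul_apply, smul_eq_mul]
        rfl
      have hN0' : (0 : ℝ) < N := by exact_mod_cast hN0
      have hne : ∀ q : ι → ℤ, (∀ i, 0 < L.mulVec (fun k => (q k : ℝ)) i) → InC L q := by
        intro q hq
        refine ⟨?_, fun i => (hq i).le⟩
        rintro rfl
        obtain ⟨i0⟩ := (inferInstance : Nonempty ι)
        have h1 := hq i0
        have h2 : (fun j => (((0 : ι → ℤ) j : ℤ) : ℝ)) = 0 := by
          funext j
          simp
        rw [h2, Matrix.mulVec_zero, Pi.zero_apply] at h1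
        exact lt_irrefl _ h1
      have hm1 : (fun k => (q1 k : ℝ)) ∈ affineSpan ℝ (pts L) :=
        subset_affineSpan ℝ _ (inC_pts (hne q1 (fun i => by
          rw [hv1]
          exact mul_pos hN0' (hppos i))))
      have hm2 : (fun k => (q2 k : ℝ)) ∈ affineSpan ℝ (pts L) :=
        subset_affineSpan ℝ _ (inC_pts (hne q2 (fun i => by
          rw [hv2]
          have h1 := hN i
          have h2 := neg_abs_le (L i j)
          linarith)))
      have h3 := AffineSubspace.vsub_mem_direction hm2 hm1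
      rw [hr1, hr2, vsub_eq_sub, add_sub_cancel_left] at h3
      exact h3
    have h1 : v = ∑ j, v j • (Pi.single j 1 : ι → ℝ) := by
      funext k
      rw [Finset.sum_apply]
      simp [Pi.single_apply]
    rw [h1]
    exact Submodule.sum_mem _ (fun j _ => Submodule.smul_mem _ _ (hbasis j))
  exact (AffineSubspace.direction_eq_top_iff_of_nonempty ⟨_, hpp⟩).mp hdir

theorem val_single (L : Matrix ι ι ℝ) (i : ι) (x : ι → ℤ) :
    val L (Pi.single i 1) x = L.mulVec (fun j => (x j : ℝ)) i := by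
  rw [val, Finset.sum_eq_single i (fun j _ hj => by rw [Pi.single_eq_of_ne hj, zero_mul])
    (fun h => absurd (Finset.mem_univ _) h), Pi.single_eq_same, one_mul]

omit [DecidableEq ι] in
theorem AdjW.inC {L : Matrix ι ι ℝ} {x y : ι → ℤ} (h : AdjW L x y) : InC L x := by
  obtain ⟨w, -, hx, -⟩ := h
  exact hx.1

/-- Nodes of the sail near every unimodular vector. -/
theorem near_node [Nonempty ι] (L : Matrix ι ι ℝ) (hL : L.det ≠ 0) (c : ℝ) (hc : 0 < c)
    (hmin : ∀ z : ι → ℤ, z ≠ 0 → c ≤ |∏ i, L.mulVec (fun j => (z j : ℝ)) i|) :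
    ∃ κ R : ℝ, 0 < κ ∧ 0 < R ∧ ∀ s : ι → ℝ, (∀ i, 0 < s i) → ∏ i, s i = 1 →
      ∃ v : ι → ℤ, AdjW L v v ∧ ∀ i, κ * s i ≤ L.mulVec (fun j => (v j : ℝ)) i ∧
        L.mulVec (fun j => (v j : ℝ)) i ≤ R * s i := by
  obtain ⟨R0, hR0, hwin⟩ := window L hL c hc hmin
  set n : ℕ := Fintype.card ι with hn
  have hn1 : 0 < n := Fintype.card_pos
  have hn1' : (0 : ℝ) < n := by exact_mod_cast hn1
  set R : ℝ := n * R0 with hR
  have hRpos : 0 < R := mul_pos hn1' hR0
  refine ⟨c / (R + 1) ^ n * (R + 1), R, by positivity, hRpos, fun s hs hs1 => ?_⟩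
  obtain ⟨v, hv⟩ := exists_isMin L hL c hc hmin (fun i => (s i)⁻¹) (fun i => inv_pos.mpr (hs i))
  obtain ⟨y, hy, hys⟩ := hwin s hs hs1
  have hyval : val L (fun i => (s i)⁻¹) y ≤ R := by
    rw [val, hR]
    have h1 : ∀ i ∈ Finset.univ, (s i)⁻¹ * L.mulVec (fun j => (y j : ℝ)) i ≤ R0 := by
      intro i _
      rw [inv_mul_le_iff₀ (hs i), mul_comm]
      exact hys i
    have h2 := Finset.sum_le_card_nsmul Finset.univ _ R0 h1
    rw [Finset.card_univ, nsmul_eq_mul] at h2
    exact h2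
  have hup : ∀ i, L.mulVec (fun j => (v j : ℝ)) i ≤ R * s i := by
    intro i
    have h1 := val_term_le (w := fun i => (s i)⁻¹) (fun i => inv_pos.mpr (hs i)) hv.1 i
    have h2 := (h1.trans (hv.2 y hy)).trans hyval
    rw [inv_mul_le_iff₀ (hs i), mul_comm] at h2
    exact h2
  refine ⟨v, ⟨_, fun i => inv_pos.mpr (hs i), hv, hv⟩, fun i => ⟨?_, hup i⟩⟩
  have h1 := lower_coord L c hmin (fun i => (R + 1) * s i)
    (fun i => mul_pos (by linarith) (hs i)) v hv.1.1 (fun i => by
      rw [abs_of_nonneg (hv.1.2 i)]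
      have := hup i
      nlinarith [hs i]) i
  rw [Finset.prod_mul_distrib, hs1, mul_one, Finset.prod_const, Finset.card_univ,
    abs_of_nonneg (hv.1.2 i)] at h1
  rw [mul_assoc]
  exact h1

/-- A functional bounded below on the nodes has nonnegative coefficients, and they are positive
as soon as the lower bound is positive. -/
theorem coeff_pos [Nonempty ι] (h2 : 2 ≤ Fintype.card ι) (L : Matrix ι ι ℝ) (hL : L.det ≠ 0)
    (c : ℝ) (hc : 0 < c)
    (hmin : ∀ z : ι → ℤ, z ≠ 0 → c ≤ |∏ i, L.mulVec (fun j => (z j : ℝ)) i|) (w : ι → ℝ)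
    (V : ℝ) (hV : ∀ u, AdjW L u u → V ≤ val L w u) (i0 : ι) :
    0 ≤ w i0 ∧ (0 < V → 0 < w i0) := by
  obtain ⟨κ, R, hκ, hR, hwin⟩ := near_node L hL c hc hmin
  set n := Fintype.card ι with hn
  -- windows stretched along the coordinate `i0`
  have hw : ∀ t : ℝ, 1 ≤ t → ∃ u, AdjW L u u ∧ κ * t ≤ L.mulVec (fun j => (u j : ℝ)) i0 ∧
      ∀ i, i ≠ i0 → L.mulVec (fun j => (u j : ℝ)) i ≤ R * t⁻¹ := by
    intro t ht
    have ht0 : 0 < t := by linarith
    set s : ι → ℝ := Function.update (fun _ => t⁻¹) i0 (t ^ (n - 1)) with hs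
    have hs0 : ∀ i, 0 < s i := by
      intro i
      rcases eq_or_ne i i0 with rfl | hi
      · rw [hs, Function.update_self]
        positivity
      · rw [hs, Function.update_of_ne hi]
        positivity
    have hs1 : ∏ i, s i = 1 := by
      rw [← Finset.mul_prod_erase Finset.univ s (Finset.mem_univ i0)]
      have h3 : ∏ i ∈ Finset.univ.erase i0, s i = (t⁻¹) ^ (n - 1) := by
        rw [Finset.prod_congr rfl (g := fun _ => t⁻¹) (fun i hi => by
          rw [hs, Function.update_of_ne (Finset.ne_of_mem_erase hi)]), Finset.prod_const,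
          Finset.card_erase_of_mem (Finset.mem_univ i0), Finset.card_univ]
      rw [h3, hs, Function.update_self, ← mul_pow, mul_inv_cancel₀ ht0.ne', one_pow]
    obtain ⟨v, hvn, hv⟩ := hwin s hs0 hs1
    have hvi := (hv i0).1
    rw [hs, Function.update_self] at hvi
    have hpow : t ≤ t ^ (n - 1) := le_self_pow₀ ht (by omega)
    have hvi' : κ * t ≤ L.mulVec (fun j => (v j : ℝ)) i0 :=
      (mul_le_mul_of_nonneg_left hpow hκ.le).trans hvi
    refine ⟨v, hvn, hvi', fun i hi => ?_⟩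
    have h3 := (hv i).2
    rw [hs, Function.update_of_ne hi] at h3
    exact h3
  set A : ℝ := ∑ i ∈ Finset.univ.erase i0, |w i| * R with hA
  have hA0 : 0 ≤ A := Finset.sum_nonneg (fun i _ => mul_nonneg (abs_nonneg _) hR.le)
  have hsum : ∀ t : ℝ, 1 ≤ t → ∀ u, InC L u →
      (∀ i, i ≠ i0 → L.mulVec (fun j => (u j : ℝ)) i ≤ R * t⁻¹) →
      val L w u ≤ w i0 * L.mulVec (fun j => (u j : ℝ)) i0 + A * t⁻¹ := by
    intro t ht u hu hui
    have ht0 : 0 < t := by linarith
    rw [val, ← Finset.add_sum_erase Finset.univ _ (Finset.mem_univ i0), hA, Finset.sum_mul]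
    refine add_le_add le_rfl (Finset.sum_le_sum (fun i hi => ?_))
    have h3 := hui i (Finset.ne_of_mem_erase hi)
    have h4 : w i * L.mulVec (fun j => (u j : ℝ)) i ≤
        |w i| * L.mulVec (fun j => (u j : ℝ)) i :=
      mul_le_mul_of_nonneg_right (le_abs_self _) (hu.2 i)
    have h5 : |w i| * L.mulVec (fun j => (u j : ℝ)) i ≤ |w i| * (R * t⁻¹) :=
      mul_le_mul_of_nonneg_left h3 (abs_nonneg _)
    calc w i * L.mulVec (fun j => (u j : ℝ)) i ≤ |w i| * (R * t⁻¹) := h4.trans h5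
      _ = |w i| * R * t⁻¹ := by ring
  have hnn : 0 ≤ w i0 := by
    by_contra hneg
    push Not at hneg
    have hq : 0 < κ * (-w i0) := mul_pos hκ (by linarith)
    obtain ⟨t, ht1, ht2⟩ : ∃ t : ℝ, 1 ≤ t ∧ (A - V) / (κ * (-w i0)) < t :=
      ⟨max 1 ((A - V) / (κ * (-w i0)) + 1), le_max_left _ _,
        lt_of_lt_of_le (lt_add_one _) (le_max_right _ _)⟩
    obtain ⟨u, hu, hu0, hui⟩ := hw t ht1
    have h3 := hsum t ht1 u hu.inC hui
    have h4 := hV u hu
    rw [div_lt_iff₀ hq] at ht2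
    have h5 : w i0 * L.mulVec (fun j => (u j : ℝ)) i0 ≤ w i0 * (κ * t) :=
      mul_le_mul_of_nonpos_left hu0 hneg.le
    have h6 : A * t⁻¹ ≤ A := mul_le_of_le_one_right hA0 (inv_le_one_of_one_le₀ ht1)
    nlinarith
  refine ⟨hnn, fun hV0 => lt_of_le_of_ne hnn (fun h0 => ?_)⟩
  obtain ⟨t, ht1, ht2⟩ : ∃ t : ℝ, 1 ≤ t ∧ A / V < t :=
    ⟨max 1 (A / V + 1), le_max_left _ _, lt_of_lt_of_le (lt_add_one _) (le_max_right _ _)⟩
  obtain ⟨u, hu, hu0, hui⟩ := hw t ht1
  have ht0 : 0 < t := by linarith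
  have h3 := hsum t ht1 u hu.inC hui
  rw [← h0, zero_mul, zero_add] at h3
  have h4 := hV u hu
  rw [div_lt_iff₀ hV0] at ht2
  have h5 : A * t⁻¹ < V := by
    rw [mul_inv_lt_iff₀ ht0]
    linarith
  linarith

theorem adjW_of_adjS [Nonempty ι] (h2 : 2 ≤ Fintype.card ι) (L : Matrix ι ι ℝ)
    (hL : L.det ≠ 0) (c : ℝ) (hc : 0 < c)
    (hmin : ∀ z : ι → ℤ, z ≠ 0 → c ≤ |∏ i, L.mulVec (fun j => (z j : ℝ)) i|) (x y : ι → ℤ)
    (h : AdjS L x y) : AdjW L x y := by
  have hunit : IsUnit L.det := isUnit_iff_ne_zero.mpr hL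
  set K := convexHull ℝ (pts L) with hK
  have hKconv : Convex ℝ K := convex_convexHull ℝ _
  have hint : (interior K).Nonempty := hull_interior L hL c hc hmin
  have hcl : closure (interior K) = closure K :=
    hKconv.closure_interior_eq_closure_of_nonempty_interior hint
  have hclge : ∀ (w : ι → ℝ) (m : ℝ), (∀ u, InC L u → m ≤ val L w u) →
      ∀ p ∈ closure K, m ≤ lf L w p := by
    intro w m hw p hp
    have hclosed : IsClosed {p : ι → ℝ | m ≤ lf L w p} :=
      isClosed_le continuous_const (LinearMap.continuous_of_finiteDimensional (lf L w))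
    exact closure_minimal (hull_ge L w m hw) hclosed hp
  have hInC : ∀ u : ι → ℤ, (fun j => (u j : ℝ)) ∈ closure K → InC L u := by
    intro u hu
    obtain ⟨p, hp⟩ := exists_isMin L hL c hc hmin (fun _ => 1) (fun _ => one_pos)
    have hpos : 0 < val L (fun _ => 1) p := by
      rw [val]
      exact Finset.sum_pos (fun i _ => mul_pos one_pos (hp.1.pos hc hmin i))
        Finset.univ_nonempty
    refine ⟨?_, fun i => ?_⟩
    · rintro rfl
      have h1 := hclge _ _ hp.2 _ hu
      rw [lf_val] at h1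
      have h3 : val L (fun _ => 1) (0 : ι → ℤ) = 0 := by
        rw [val]
        refine Finset.sum_eq_zero (fun i _ => ?_)
        have h4 : (fun j => (((0 : ι → ℤ) j : ℤ) : ℝ)) = 0 := by
          funext j
          simp
        rw [h4, Matrix.mulVec_zero, Pi.zero_apply, mul_zero]
      linarith
    · have h1 := hclge (Pi.single i 1) 0 (fun v hv => by
        rw [val_single]
        exact hv.2 i) _ hu
      rwa [lf_val, val_single] at h1
  have hxK : (fun j => (x j : ℝ)) ∈ closure K := (h (left_mem_segment ℝ _ _)).1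
  have hyK : (fun j => (y j : ℝ)) ∈ closure K := (h (right_mem_segment ℝ _ _)).1
  have hx := hInC x hxK
  have hy := hInC y hyK
  set z : ι → ℝ := (1 / 2 : ℝ) • (fun j => (x j : ℝ)) + (1 / 2 : ℝ) • (fun j => (y j : ℝ))
    with hz
  have hzseg : z ∈ segment ℝ (fun j => (x j : ℝ)) (fun j => (y j : ℝ)) :=
    ⟨1 / 2, 1 / 2, by norm_num, by norm_num, by norm_num, rfl⟩
  have hzi : z ∉ interior K := (h hzseg).2
  obtain ⟨f, hf⟩ := geometric_hahn_banach_open_point hKconv.interior isOpen_interior hzi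
  have hfcl : ∀ a ∈ closure K, f a ≤ f z := by
    intro a ha
    rw [← hcl] at ha
    have hclosed : IsClosed {a : ι → ℝ | f a ≤ f z} := isClosed_le f.continuous continuous_const
    exact closure_minimal (fun b hb => (hf b hb).le) hclosed ha
  have hfz : f z = 1 / 2 * f (fun j => (x j : ℝ)) + 1 / 2 * f (fun j => (y j : ℝ)) := by
    rw [hz, map_add, map_smul, map_smul, smul_eq_mul, smul_eq_mul]
  have hfx := hfcl _ hxK
  have hfy := hfcl _ hyK
  have hfx' : f (fun j => (x j : ℝ)) = f z := by linarith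
  have hfy' : f (fun j => (y j : ℝ)) = f z := by linarith
  set w : ι → ℝ := fun i => -f (L⁻¹.mulVec (Pi.single i 1)) with hw
  have hfw : ∀ p : ι → ℝ, lf L w p = -f p := by
    intro p
    have h3 : p = ∑ i, L.mulVec p i • L⁻¹.mulVec (Pi.single i 1) := by
      have h4 : L⁻¹.mulVec (L.mulVec p) = p := by
        rw [Matrix.mulVec_mulVec, Matrix.nonsing_inv_mul L hunit, Matrix.one_mulVec]
      have h5 : L.mulVec p = ∑ i, L.mulVec p i • (Pi.single i 1 : ι → ℝ) := by
        funext k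
        rw [Finset.sum_apply]
        simp [Pi.single_apply]
      conv_lhs => rw [← h4, h5]
      rw [Matrix.mulVec_sum]
      exact Finset.sum_congr rfl (fun i _ => Matrix.mulVec_smul _ _ _)
    rw [lf_apply]
    conv_rhs => rw [h3]
    rw [map_sum, ← Finset.sum_neg_distrib]
    refine Finset.sum_congr rfl (fun i _ => ?_)
    rw [map_smul, smul_eq_mul, hw]
    ring
  have hmins : ∀ u v : ι → ℤ, InC L v → f (fun j => (u j : ℝ)) = f z →
      val L w u ≤ val L w v := by
    intro u v hv hu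
    rw [← lf_val, ← lf_val, hfw, hfw, hu]
    have h3 := hfcl _ (subset_closure (subset_convexHull ℝ _ (inC_pts hv)))
    linarith
  have hxmin : IsMin L w x := ⟨hx, fun v hv => hmins x v hv hfx'⟩
  have hymin : IsMin L w y := ⟨hy, fun v hv => hmins y v hv hfy'⟩
  have hVn : ∀ u, AdjW L u u → val L w x ≤ val L w u := fun u hu => hxmin.2 u hu.inC
  have hnn : ∀ i, 0 ≤ w i := fun i => (coeff_pos h2 L hL c hc hmin w _ hVn i).1
  have hxval : 0 < val L w x := by
    have h3 : ∃ i, w i ≠ 0 := by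
      by_contra hall
      push Not at hall
      obtain ⟨a, ha⟩ := hint
      have h4 := hf a ha
      have h5 : ∀ p, f p = 0 := by
        intro p
        have h6 := hfw p
        rw [lf_apply, Finset.sum_eq_zero (fun i _ => by rw [hall i, zero_mul])] at h6
        linarith
      rw [h5, h5] at h4
      exact lt_irrefl _ h4
    obtain ⟨i, hi⟩ := h3
    have h4 : 0 < w i := lt_of_le_of_ne (hnn i) (Ne.symm hi)
    rw [val]
    exact Finset.sum_pos' (fun j _ => mul_nonneg (hnn j) (hx.2 j))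
      ⟨i, Finset.mem_univ i, mul_pos h4 (hx.pos hc hmin i)⟩
  exact ⟨w, fun i => (coeff_pos h2 L hL c hc hmin w _ hVn i).2 hxval, hxmin, hymin⟩

/-- Two integer points are joined on the sail exactly when they minimise a common positive
functional. -/
theorem adjS_iff [Nonempty ι] (h2 : 2 ≤ Fintype.card ι) (L : Matrix ι ι ℝ)
    (hL : L.det ≠ 0) (c : ℝ) (hc : 0 < c)
    (hmin : ∀ z : ι → ℤ, z ≠ 0 → c ≤ |∏ i, L.mulVec (fun j => (z j : ℝ)) i|) (x y : ι → ℤ) :
    AdjS L x y ↔ AdjW L x y :=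
  ⟨adjW_of_adjS h2 L hL c hc hmin x y, adjS_of_adjW L hL x y⟩

end Pool.Agent.H83.Sail
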