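import Mathlib
import Pool.Agent.H83.Sail.Local
import Pool.Agent.H83.Sail.Supp
import Pool.Agent.H83.Sail.Mink
import Pool.Agent.H83.Sail.Patch

/-!
# Few classes of patches: the sail is algebraic
-/

namespace Pool.Agent.H83.Sail

open Filter Topology

variable {ι : Type*} [Fintype ι] [DecidableEq ι]

/-- Invertible integer matrices act on integer vectors. -/
instance act : MulAction (Matrix ι ι ℤ)ˣ (ι → ℤ) where
  smul g x := (g : Matrix ι ι ℤ).mulVec x
  one_smul x := Matrix.one_mulVec x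
  mul_smul g h x := (Matrix.mulVec_mulVec x (g : Matrix ι ι ℤ) (h : Matrix ι ι ℤ)).symm

theorem act_def (g : (Matrix ι ι ℤ)ˣ) (x : ι → ℤ) : g • x = (g : Matrix ι ι ℤ).mulVec x := rfl

/-- Integer matrices vanishing on the neighbours of a node are zero. -/
theorem mat_eq_zero [Nonempty ι] (L : Matrix ι ι ℝ) (hL : L.det ≠ 0) (c : ℝ) (hc : 0 < c)
    (hmin : ∀ z : ι → ℤ, z ≠ 0 → c ≤ |∏ i, L.mulVec (fun j => (z j : ℝ)) i|) (x : ι → ℤ)
    (hx : AdjW L x x) (M : Matrix ι ι ℤ) (hM : ∀ u, AdjW L x u → M.mulVec u = 0) : M = 0 := by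
  have hunit : IsUnit L.det := isUnit_iff_ne_zero.mpr hL
  ext i j
  set r : ι → ℝ := fun j => (M i j : ℝ) with hr
  set μ : ι → ℝ := Matrix.vecMul r L⁻¹ with hμ
  have hμr : Matrix.vecMul μ L = r := by
    rw [hμ, Matrix.vecMul_vecMul, Matrix.nonsing_inv_mul L hunit, Matrix.vecMul_one]
  have h0 : μ = 0 := by
    refine nbr_span L hL c hc hmin x hx μ (fun u hu => ?_)
    have h1 : val L μ u = dotProduct μ (L.mulVec (fun j => (u j : ℝ))) := rfl
    rw [h1, Matrix.dotProduct_mulVec, hμr]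
    have h2 := congrFun (hM u hu) i
    have h3 : (((M.mulVec u) i : ℤ) : ℝ) = 0 := by
      rw [h2]
      simp
    rw [← h3, hr]
    simp only [Matrix.mulVec, dotProduct]
    push_cast
    rfl
  have h1 : r j = 0 := by
    rw [← hμr, h0, Matrix.zero_vecMul, Pi.zero_apply]
  have h2 : ((M i j : ℤ) : ℝ) = 0 := h1
  simpa using h2

/-- The stabiliser of a node is finite. -/
theorem stab_finite [Nonempty ι] (L : Matrix ι ι ℝ) (hL : L.det ≠ 0) (c : ℝ) (hc : 0 < c)
    (hmin : ∀ z : ι → ℤ, z ≠ 0 → c ≤ |∏ i, L.mulVec (fun j => (z j : ℝ)) i|) (x : ι → ℤ)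
    (hx : AdjW L x x) : Finite (Local.Stab (Matrix ι ι ℤ)ˣ (AdjW L) 1 x) := by
  have hfin := nbr_finite L hL c hc hmin x
  have hfin' : Finite {u | AdjW L x u} := hfin.to_subtype
  set φ : Local.Stab (Matrix ι ι ℤ)ˣ (AdjW L) 1 x → ({u | AdjW L x u} → {u | AdjW L x u}) :=
    fun g u => ⟨g.1 • u.1, by
      have h1 := (g.2.2.1 u.1).mp u.2
      have h2 : g.1 • x = x := g.2.1
      rw [h2] at h1
      exact h1⟩ with hφ
  refine Finite.of_injective φ (fun g h hgh => ?_)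
  have h1 : ((g.1 : Matrix ι ι ℤ) - (h.1 : Matrix ι ι ℤ)) = 0 := by
    refine mat_eq_zero L hL c hc hmin x hx _ (fun u hu => ?_)
    have h2 := congrArg Subtype.val (congrFun hgh ⟨u, hu⟩)
    have h3 : (g.1 : Matrix ι ι ℤ).mulVec u = (h.1 : Matrix ι ι ℤ).mulVec u := h2
    rw [Matrix.sub_mulVec, h3, sub_self]
  apply Subtype.ext
  apply Units.ext
  exact sub_eq_zero.mp h1

/-- A nonnegative matrix with a nonnegative right and left inverse has one nonzero entry in each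
row. -/
theorem monomial (G H : Matrix ι ι ℝ) (hG : ∀ i j, 0 ≤ G i j) (hH : ∀ i j, 0 ≤ H i j)
    (hGH : G * H = 1) (hHG : H * G = 1) (i : ι) :
    ∃ j, 0 < G i j ∧ ∀ k, k ≠ j → G i k = 0 := by
  have hex : ∃ j, G i j ≠ 0 := by
    by_contra h
    push Not at h
    have h1 := congrFun (congrFun hGH i) i
    rw [Matrix.mul_apply, Matrix.one_apply_eq, Finset.sum_eq_zero (fun k _ => by
      rw [h k, zero_mul])] at h1
    exact zero_ne_one h1
  obtain ⟨j, hj⟩ := hex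
  have hj0 : 0 < G i j := lt_of_le_of_ne (hG i j) (Ne.symm hj)
  have hz : ∀ a b c, a ≠ c → G a b * H b c = 0 := by
    intro a b c hac
    have h1 := congrFun (congrFun hGH a) c
    rw [Matrix.mul_apply, Matrix.one_apply_ne hac] at h1
    exact (Finset.sum_eq_zero_iff_of_nonneg (fun k _ => mul_nonneg (hG a k) (hH k c))).mp h1 b
      (Finset.mem_univ b)
  have hz' : ∀ a b c, a ≠ c → H a b * G b c = 0 := by
    intro a b c hac
    have h1 := congrFun (congrFun hHG a) c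
    rw [Matrix.mul_apply, Matrix.one_apply_ne hac] at h1
    exact (Finset.sum_eq_zero_iff_of_nonneg (fun k _ => mul_nonneg (hH a k) (hG k c))).mp h1 b
      (Finset.mem_univ b)
  refine ⟨j, hj0, fun k hk => ?_⟩
  by_contra hne
  -- the row `j` of the inverse vanishes
  have hrow : ∀ c, H j c = 0 := by
    intro c
    rcases eq_or_ne i c with rfl | hic
    · rcases mul_eq_zero.mp (hz' j i k (Ne.symm hk)) with h1 | h1
      · exact h1
      · exact absurd h1 hne
    · rcases mul_eq_zero.mp (hz i j c hic) with h1 | h1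
      · exact absurd h1 hj
      · exact h1
  have h1 := congrFun (congrFun hHG j) j
  rw [Matrix.mul_apply, Matrix.one_apply_eq, Finset.sum_eq_zero (fun c _ => by
    rw [hrow c, zero_mul])] at h1
  exact zero_ne_one h1

/-- Integer matrices that map the nodes of the sail into the cone are nonnegative in the
coordinates of the forms. -/
theorem conj_nonneg [Nonempty ι] (h2 : 2 ≤ Fintype.card ι) (L : Matrix ι ι ℝ) (hL : L.det ≠ 0)
    (c : ℝ) (hc : 0 < c)
    (hmin : ∀ z : ι → ℤ, z ≠ 0 → c ≤ |∏ i, L.mulVec (fun j => (z j : ℝ)) i|)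
    (g : Matrix ι ι ℤ) (hg : ∀ u, AdjW L u u → InC L (g.mulVec u)) (i j : ι) :
    0 ≤ (L * g.map (Int.cast : ℤ → ℝ) * L⁻¹) i j := by
  have hunit : IsUnit L.det := isUnit_iff_ne_zero.mpr hL
  set G := L * g.map (Int.cast : ℤ → ℝ) * L⁻¹ with hG
  refine (coeff_pos h2 L hL c hc hmin (fun j => G i j) 0 (fun u hu => ?_) j).1
  have h1 : val L (fun j => G i j) u = (G.mulVec (L.mulVec (fun j => (u j : ℝ)))) i := rfl
  have h3 : G.mulVec (L.mulVec (fun j => (u j : ℝ))) =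
      L.mulVec (fun j => ((g.mulVec u) j : ℝ)) := by
    rw [hG, Matrix.mulVec_mulVec, Matrix.mul_assoc, Matrix.nonsing_inv_mul L hunit,
      Matrix.mul_one, ← Matrix.mulVec_mulVec]
    congr 1
    funext k
    simp only [Matrix.mulVec, dotProduct, Matrix.map_apply]
    push_cast
    rfl
  rw [h1, h3]
  exact (hg u hu).2 i

/-- Few classes of large patches: the sail is algebraic. -/
theorem local_main (hn : 3 ≤ Fintype.card ι) (L : Matrix ι ι ℝ) (hL : L.det ≠ 0) (c : ℝ)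
    (hc : 0 < c) (hmin : ∀ z : ι → ℤ, z ≠ 0 → c ≤ |∏ i, L.mulVec (fun j => (z j : ℝ)) i|)
    (R m : ℕ) (hR : m * (1 + 2 * (Fintype.card ι * Fintype.card ι)) < R)
    (hfin : Finite (Local.Q (Matrix ι ι ℤ)ˣ (AdjW L) R))
    (hcard : Nat.card (Local.Q (Matrix ι ι ℤ)ˣ (AdjW L) R) ≤ m) : Alg L := by
  have hne : Nonempty ι := Fintype.card_pos_iff.mp (by omega)
  have h2 : 2 ≤ Fintype.card ι := by omega
  have hunit : IsUnit L.det := isUnit_iff_ne_zero.mpr hL
  obtain ⟨κ, T, hκ, hT, hnear⟩ := near_node L hL c hc hmin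
  have hnode : Nonempty (Local.Node (AdjW L)) := by
    obtain ⟨v, hv, -⟩ := hnear (fun _ => 1) (fun _ => one_pos) Finset.prod_const_one
    exact ⟨⟨v, hv⟩⟩
  have hstab : ∀ x : Local.Node (AdjW L),
      Finite (Local.Stab (Matrix ι ι ℤ)ˣ (AdjW L) 1 x.1) :=
    fun x => stab_finite L hL c hc hmin x.1 x.2
  have hb : ∀ x : Local.Node (AdjW L),
      Nat.log 2 (Nat.card (Local.Stab (Matrix ι ι ℤ)ˣ (AdjW L) 1 x.1)) ≤
        2 * (Fintype.card ι * Fintype.card ι) := by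
    intro x
    have h3 := hstab x
    exact log_card_le _
  obtain ⟨r, hr1, hrR, hst⟩ := Local.exists_stable (Γ := (Matrix ι ι ℤ)ˣ) (Adj := AdjW L)
    (2 * (Fintype.card ι * Fintype.card ι)) R m hR hnode hfin hcard hstab hb
  have hleft : ∀ x y, AdjW L x y → AdjW L x x := fun x y h => h.left
  have hglob : ∀ (x : ι → ℤ) (g : (Matrix ι ι ℤ)ˣ), AdjW L x x →
      Local.PIso (AdjW L) r x g → ∀ y, AdjW L y y → AdjW L (g • y) (g • y) := by
    intro x g hx hg y hy
    have h3 := hst.extend hr1 hleft hg (connected L hL c hc hmin x y hx hy)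
    obtain ⟨r', rfl⟩ : ∃ r', r = r' + 1 := ⟨r - 1, by omega⟩
    exact (h3.1 y).mp hy
  -- nodes near a sequence of directions
  obtain ⟨s, hs, hs1, hsd⟩ := exists_seq_gen (ι := ι)
  choose x hx hxs using fun k => hnear (s k) (hs k) (hs1 k)
  have hfinr : Finite (Local.Q (Matrix ι ι ℤ)ˣ (AdjW L) r) := Local.finite_le hrR.le hfin
  obtain ⟨q, ψ, hψ, hq⟩ := pigeon_seq (fun k =>
    Local.cls (Matrix ι ι ℤ)ˣ (AdjW L) r (⟨x k, hx k⟩ : Local.Node (AdjW L)))
  obtain ⟨t, ht⟩ := Local.cls_surj q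
  have hrel : ∀ k, ∃ g : (Matrix ι ι ℤ)ˣ, g • t.1 = x (ψ k) ∧
      Local.PIso (AdjW L) r t.1 g := by
    intro k
    have h3 : Local.cls (Matrix ι ι ℤ)ˣ (AdjW L) r t = Local.cls (Matrix ι ι ℤ)ˣ (AdjW L) r
        (⟨x (ψ k), hx (ψ k)⟩ : Local.Node (AdjW L)) := by rw [ht, hq k]
    exact Local.cls_eq.mp h3
  choose g hgx hgp using hrel
  set G : ℕ → Matrix ι ι ℝ := fun k =>
    L * ((g k : Matrix ι ι ℤ)).map (Int.cast : ℤ → ℝ) * L⁻¹ with hG
  set H : ℕ → Matrix ι ι ℝ := fun k =>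
    L * ((((g k)⁻¹ : (Matrix ι ι ℤ)ˣ) : Matrix ι ι ℤ)).map (Int.cast : ℤ → ℝ) * L⁻¹ with hH
  have hGnn : ∀ k i j, 0 ≤ G k i j := fun k i j =>
    conj_nonneg h2 L hL c hc hmin _
      (fun u hu => (hglob t.1 (g k) t.2 (hgp k) u hu).inC) i j
  have hHnn : ∀ k i j, 0 ≤ H k i j := fun k i j =>
    conj_nonneg h2 L hL c hc hmin _
      (fun u hu => (hglob (g k • t.1) (g k)⁻¹ (hglob t.1 (g k) t.2 (hgp k) t.1 t.2)
        (hgp k).inv u hu).inC) i j
  have hmap : ∀ P Q : Matrix ι ι ℤ, (P * Q).map (Int.cast : ℤ → ℝ) =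
      P.map (Int.cast : ℤ → ℝ) * Q.map (Int.cast : ℤ → ℝ) := fun P Q =>
    Matrix.map_mul (f := Int.castRingHom ℝ)
  have hcomp : ∀ P Q : Matrix ι ι ℤ, (L * P.map (Int.cast : ℤ → ℝ) * L⁻¹) *
      (L * Q.map (Int.cast : ℤ → ℝ) * L⁻¹) = L * (P * Q).map (Int.cast : ℤ → ℝ) * L⁻¹ := by
    intro P Q
    rw [hmap]
    have h3 : (L * P.map (Int.cast : ℤ → ℝ) * L⁻¹) * (L * Q.map (Int.cast : ℤ → ℝ) * L⁻¹) =
        L * P.map (Int.cast : ℤ → ℝ) * (L⁻¹ * L) * Q.map (Int.cast : ℤ → ℝ) * L⁻¹ := by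
      simp only [Matrix.mul_assoc]
    rw [h3, Matrix.nonsing_inv_mul L hunit, Matrix.mul_one]
    simp only [Matrix.mul_assoc]
  have hone : L * (1 : Matrix ι ι ℤ).map (Int.cast : ℤ → ℝ) * L⁻¹ = 1 := by
    have h3 : (1 : Matrix ι ι ℤ).map (Int.cast : ℤ → ℝ) = 1 := by
      ext i j
      rw [Matrix.map_apply, Matrix.one_apply, Matrix.one_apply]
      split_ifs <;> simp
    rw [h3, Matrix.mul_one, Matrix.mul_nonsing_inv L hunit]
  have hGH : ∀ k, G k * H k = 1 := by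
    intro k
    have h3 := hcomp (g k : Matrix ι ι ℤ) (((g k)⁻¹ : (Matrix ι ι ℤ)ˣ) : Matrix ι ι ℤ)
    rw [Units.mul_inv, hone] at h3
    exact h3
  have hHG : ∀ k, H k * G k = 1 := by
    intro k
    have h3 := hcomp (((g k)⁻¹ : (Matrix ι ι ℤ)ˣ) : Matrix ι ι ℤ) (g k : Matrix ι ι ℤ)
    rw [Units.inv_mul, hone] at h3
    exact h3
  choose σ hσ hσ0 using fun k i => monomial (G k) (H k) (hGnn k) (hHnn k) (hGH k) (hHG k) i
  obtain ⟨τ, φ, hφ, hτ⟩ := pigeon_seq σ
  -- the diagonal coefficients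
  have hGpos : ∀ k i, 0 < G (φ k) i (τ i) := by
    intro k i
    rw [← hτ k]
    exact hσ (φ k) i
  have hGz : ∀ k i j, j ≠ τ i → G (φ k) i j = 0 := by
    intro k i j hj
    refine hσ0 (φ k) i j ?_
    rw [hτ k]
    exact hj
  have hLt : ∀ i, 0 < L.mulVec (fun j => (t.1 j : ℝ)) i :=
    fun i => (AdjW.inC t.2).pos hc hmin i
  have hvalx : ∀ k i, L.mulVec (fun j => (x (ψ (φ k)) j : ℝ)) i =
      G (φ k) i (τ i) * L.mulVec (fun j => (t.1 j : ℝ)) (τ i) := by
    intro k i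
    have h3 : (fun j => (x (ψ (φ k)) j : ℝ)) =
        ((g (φ k) : Matrix ι ι ℤ).map (Int.cast : ℤ → ℝ)).mulVec
          (fun j => (t.1 j : ℝ)) := by
      rw [← hgx (φ k), act_def]
      funext j
      simp only [Matrix.mulVec, dotProduct, Matrix.map_apply]
      push_cast
      rfl
    have h4 : L.mulVec (fun j => (x (ψ (φ k)) j : ℝ)) =
        (G (φ k)).mulVec (L.mulVec (fun j => (t.1 j : ℝ))) := by
      rw [h3, hG, Matrix.mulVec_mulVec, Matrix.mulVec_mulVec, Matrix.mul_assoc (L * _) L⁻¹ L,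
        Matrix.nonsing_inv_mul L hunit, Matrix.mul_one]
    rw [h4]
    exact Finset.sum_eq_single (τ i) (fun j _ hj => mul_eq_zero_of_left (hGz k i j hj) _)
      (fun h => absurd (Finset.mem_univ _) h)
  have hratio : ∀ k l i, G (φ l) i (τ i) / G (φ k) i (τ i) =
      L.mulVec (fun j => (x (ψ (φ l)) j : ℝ)) i / L.mulVec (fun j => (x (ψ (φ k)) j : ℝ)) i := by
    intro k l i
    rw [hvalx, hvalx, mul_div_mul_right _ _ (hLt (τ i)).ne']
  -- a far index
  have hxpos : ∀ k i, 0 < L.mulVec (fun j => (x k j : ℝ)) i :=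
    fun k i => (AdjW.inC (hx k)).pos hc hmin i
  obtain ⟨l, hl⟩ : ∃ l, ∀ i j, i ≠ j → L.mulVec (fun j => (x (ψ (φ l)) j : ℝ)) i /
      L.mulVec (fun j => (x (ψ (φ 0)) j : ℝ)) i ≠ L.mulVec (fun j => (x (ψ (φ l)) j : ℝ)) j /
      L.mulVec (fun j => (x (ψ (φ 0)) j : ℝ)) j := by
    have hev : ∀ i j, ∀ᶠ l in atTop, i ≠ j →
        |Real.log (L.mulVec (fun j => (x (ψ (φ 0)) j : ℝ)) i) -
          Real.log (L.mulVec (fun j => (x (ψ (φ 0)) j : ℝ)) j)| + |Real.log T - Real.log κ| <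
          |Real.log (s (ψ (φ l)) i / s (ψ (φ l)) j)| := by
      intro i j
      by_cases hij : i = j
      · exact Eventually.of_forall (fun l h => absurd hij h)
      · have h3 := ((hsd i j hij).comp (hψ.comp hφ).tendsto_atTop).eventually_gt_atTop
          (|Real.log (L.mulVec (fun j => (x (ψ (φ 0)) j : ℝ)) i) -
          Real.log (L.mulVec (fun j => (x (ψ (φ 0)) j : ℝ)) j)| + |Real.log T - Real.log κ|)
        filter_upwards [h3] with l hl _
        exact hl
    obtain ⟨l, hl⟩ := (eventually_all.mpr (fun i => eventually_all.mpr (hev i))).exists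
    refine ⟨l, fun i j hij heq => ?_⟩
    have h3 := hl i j hij
    have hxi := hxpos (ψ (φ l)) i
    have hxj := hxpos (ψ (φ l)) j
    have hyi := hxpos (ψ (φ 0)) i
    have hyj := hxpos (ψ (φ 0)) j
    have h4 := congrArg Real.log heq
    rw [Real.log_div hxi.ne' hyi.ne', Real.log_div hxj.ne' hyj.ne'] at h4
    rw [Real.log_div (hs _ i).ne' (hs _ j).ne'] at h3
    have hb1 : ∀ i, Real.log (s (ψ (φ l)) i) + Real.log κ ≤
        Real.log (L.mulVec (fun j => (x (ψ (φ l)) j : ℝ)) i) ∧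
        Real.log (L.mulVec (fun j => (x (ψ (φ l)) j : ℝ)) i) ≤
        Real.log (s (ψ (φ l)) i) + Real.log T := by
      intro i
      have h5 := hxs (ψ (φ l)) i
      constructor
      · rw [add_comm, ← Real.log_mul hκ.ne' (hs _ i).ne']
        exact Real.log_le_log (mul_pos hκ (hs _ i)) h5.1
      · rw [add_comm, ← Real.log_mul hT.ne' (hs _ i).ne']
        exact Real.log_le_log (hxpos _ i) h5.2
    have h5 := hb1 i
    have h6 := hb1 j
    have h7 := le_abs_self (Real.log T - Real.log κ)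
    have h8 := le_abs_self (Real.log (L.mulVec (fun j => (x (ψ (φ 0)) j : ℝ)) i) -
          Real.log (L.mulVec (fun j => (x (ψ (φ 0)) j : ℝ)) j))
    have h9 := neg_abs_le (Real.log (L.mulVec (fun j => (x (ψ (φ 0)) j : ℝ)) i) -
          Real.log (L.mulVec (fun j => (x (ψ (φ 0)) j : ℝ)) j))
    have h10 : |Real.log (s (ψ (φ l)) i) - Real.log (s (ψ (φ l)) j)| ≤
        |Real.log (L.mulVec (fun j => (x (ψ (φ 0)) j : ℝ)) i) -
          Real.log (L.mulVec (fun j => (x (ψ (φ 0)) j : ℝ)) j)| +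
          |Real.log T - Real.log κ| := by
      rw [abs_le]
      constructor
      · linarith [h5.1, h5.2, h6.1, h6.2]
      · linarith [h5.1, h5.2, h6.1, h6.2]
    linarith
  -- the eigenmatrix
  set h : (Matrix ι ι ℤ)ˣ := g (φ l) * (g (φ 0))⁻¹ with hh
  set ν : ι → ℝ := fun i => G (φ l) i (τ i) / G (φ 0) i (τ i) with hν
  have hGlH : G (φ l) * H (φ 0) = Matrix.diagonal ν := by
    ext i j
    have h3 : (G (φ l) * H (φ 0)) i j = G (φ l) i (τ i) * H (φ 0) (τ i) j :=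
      Finset.sum_eq_single (τ i) (fun k _ hk => mul_eq_zero_of_left (hGz l i k hk) _)
        (fun h => absurd (Finset.mem_univ _) h)
    have h4 : (G (φ 0) * H (φ 0)) i j = G (φ 0) i (τ i) * H (φ 0) (τ i) j :=
      Finset.sum_eq_single (τ i) (fun k _ hk => mul_eq_zero_of_left (hGz 0 i k hk) _)
        (fun h => absurd (Finset.mem_univ _) h)
    rw [hGH (φ 0)] at h4
    rw [h3, Matrix.diagonal_apply]
    have h5 := hGpos 0 i
    by_cases hij : i = j
    · subst hij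
      rw [Matrix.one_apply_eq] at h4
      rw [if_pos rfl, hν]
      have h6 : H (φ 0) (τ i) i = (G (φ 0) i (τ i))⁻¹ :=
        eq_inv_of_mul_eq_one_right h4.symm
      rw [h6]
      rfl
    · rw [Matrix.one_apply_ne hij] at h4
      rw [if_neg hij]
      rcases mul_eq_zero.mp h4.symm with h6 | h6
      · exact absurd h6 h5.ne'
      · rw [h6, mul_zero]
  have hLh : L * (h : Matrix ι ι ℤ).map (Int.cast : ℤ → ℝ) = Matrix.diagonal ν * L := by
    have h3 := hcomp (g (φ l) : Matrix ι ι ℤ) (((g (φ 0))⁻¹ : (Matrix ι ι ℤ)ˣ) : Matrix ι ι ℤ)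
    have h4 : (G (φ l) * H (φ 0)) * L = L * (h : Matrix ι ι ℤ).map (Int.cast : ℤ → ℝ) := by
      have h5 : G (φ l) * H (φ 0) = L * (h : Matrix ι ι ℤ).map (Int.cast : ℤ → ℝ) * L⁻¹ := by
        rw [hh, Units.val_mul]
        exact h3
      rw [h5, Matrix.mul_assoc, Matrix.nonsing_inv_mul L hunit, Matrix.mul_one]
    rw [← h4, hGlH]
  refine eig_main hn L hL c hc hmin ((h : Matrix ι ι ℤ).map (Int.cast : ℤ → ℚ)) ν ?_ ?_
  · intro i j hij
    by_contra hne'
    refine hl i j hne' ?_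
    rw [← hratio 0 l i, ← hratio 0 l j]
    exact hij
  · rw [Matrix.map_map]
    have h3 : ((Rat.cast : ℚ → ℝ) ∘ (Int.cast : ℤ → ℚ)) = (Int.cast : ℤ → ℝ) := by
      funext z
      simp
    rw [h3]
    exact hLh

end Pool.Agent.H83.Sail
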