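import Mathlib
import Pool.Agent.H83.Sail.MH
import Pool.Agent.H83.Sail.Space

/-!
# Transport of patches
-/

namespace Pool.Agent.H83.Sail

namespace Local

variable {Γ X : Type*} [Group Γ] [MulAction Γ X] {Adj Adj' : X → X → Prop}

theorem PIso.conj (u : Γ) (h : ∀ x y, Adj' x y ↔ Adj (u • x) (u • y)) {r : ℕ} {x : X} {g : Γ}
    (hg : PIso Adj' r x g) : PIso Adj r (u • x) (u * g * u⁻¹) := by
  induction r generalizing x with
  | zero => trivial
  | succ r ih =>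
    have hsm : ∀ w : X, (u * g * u⁻¹) • (u • w) = u • g • w := by
      intro w
      rw [mul_smul, mul_smul, inv_smul_smul]
    refine ⟨fun w => ?_, fun w hw => ?_⟩
    · obtain ⟨w', rfl⟩ : ∃ w', w = u • w' := ⟨u⁻¹ • w, (smul_inv_smul u w).symm⟩
      rw [hsm, hsm, ← h, ← h]
      exact hg.1 w'
    · obtain ⟨w', rfl⟩ : ∃ w', w = u • w' := ⟨u⁻¹ • w, (smul_inv_smul u w).symm⟩
      exact ih (hg.2 w' ((h x w').mpr hw))

theorem Rel.conj (u : Γ) (h : ∀ x y, Adj' x y ↔ Adj (u • x) (u • y)) {r : ℕ} {x y : X} :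
    Rel Γ Adj' r x y ↔ Rel Γ Adj r (u • x) (u • y) := by
  constructor
  · rintro ⟨g, rfl, hg⟩
    exact ⟨u * g * u⁻¹, by rw [mul_smul, mul_smul, inv_smul_smul], hg.conj u h⟩
  · rintro ⟨g, hgx, hg⟩
    have h' : ∀ x y, Adj x y ↔ Adj' (u⁻¹ • x) (u⁻¹ • y) := by
      intro x y
      rw [h, smul_inv_smul, smul_inv_smul]
    have h1 := hg.conj u⁻¹ h'
    rw [inv_smul_smul, inv_inv] at h1
    refine ⟨u⁻¹ * g * u, ?_, h1⟩
    rw [mul_smul, mul_smul, hgx, inv_smul_smul]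

/-- Two relations agree on the patch of radius `r` at `x`. -/
def PEq (Adj Adj' : X → X → Prop) : ℕ → X → Prop
  | 0, _ => True
  | r + 1, x => (∀ w, Adj x w ↔ Adj' x w) ∧ ∀ u, Adj x u → PEq Adj Adj' r u

theorem PEq.transfer {r : ℕ} {x : X} {g : Γ} (h1 : PEq Adj Adj' r x)
    (h2 : PEq Adj Adj' r (g • x)) (hg : PIso Adj' r x g) : PIso Adj r x g := by
  induction r generalizing x with
  | zero => trivial
  | succ r ih =>
    have h3 : ∀ w, Adj x w ↔ Adj (g • x) (g • w) := fun w => by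
      rw [h1.1 w, h2.1 (g • w), hg.1 w]
    exact ⟨h3, fun u hu => ih (h1.2 u hu) (h2.2 (g • u) ((h3 u).mp hu))
      (hg.2 u ((h1.1 u).mp hu))⟩

end Local

open Filter Topology

variable {ι : Type*} [Fintype ι] [DecidableEq ι]

theorem val_scaled (L : Matrix ι ι ℝ) (D : ι → ℝ) (U : Matrix ι ι ℤ) (w : ι → ℝ) (x : ι → ℤ) :
    val (Matrix.diagonal D * (L * U.map (Int.cast : ℤ → ℝ))) w x =
      val L (fun i => w i * D i) (U.mulVec x) := by
  rw [val, val]
  exact Finset.sum_congr rfl (fun i _ => by rw [scaled_row, mul_assoc])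

theorem inC_scaled (L : Matrix ι ι ℝ) (D : ι → ℝ) (hD : ∀ i, 0 < D i) (U : Matrix ι ι ℤ)
    (hU : IsUnit U.det) (x : ι → ℤ) :
    InC (Matrix.diagonal D * (L * U.map (Int.cast : ℤ → ℝ))) x ↔ InC L (U.mulVec x) := by
  have h0 : U.mulVec x = 0 ↔ x = 0 := by
    constructor
    · intro h
      have h1 : U⁻¹.mulVec (U.mulVec x) = x := by
        rw [Matrix.mulVec_mulVec, Matrix.nonsing_inv_mul U hU, Matrix.one_mulVec]
      rw [← h1, h, Matrix.mulVec_zero]
    · rintro rfl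
      exact Matrix.mulVec_zero _
  constructor
  · rintro ⟨h1, h2⟩
    refine ⟨fun h => h1 (h0.mp h), fun i => ?_⟩
    have h3 := h2 i
    rw [scaled_row] at h3
    exact nonneg_of_mul_nonneg_right h3 (hD i)
  · rintro ⟨h1, h2⟩
    refine ⟨fun h => h1 (h0.mpr h), fun i => ?_⟩
    rw [scaled_row]
    exact mul_nonneg (hD i).le (h2 i)

theorem isMin_scaled (L : Matrix ι ι ℝ) (D : ι → ℝ) (hD : ∀ i, 0 < D i) (U : Matrix ι ι ℤ)
    (hU : IsUnit U.det) (w : ι → ℝ) (x : ι → ℤ) :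
    IsMin (Matrix.diagonal D * (L * U.map (Int.cast : ℤ → ℝ))) w x ↔
      IsMin L (fun i => w i * D i) (U.mulVec x) := by
  have hinv : ∀ y : ι → ℤ, U.mulVec (U⁻¹.mulVec y) = y := fun y => by
    rw [Matrix.mulVec_mulVec, Matrix.mul_nonsing_inv U hU, Matrix.one_mulVec]
  constructor
  · rintro ⟨h1, h2⟩
    refine ⟨(inC_scaled L D hD U hU x).mp h1, fun y hy => ?_⟩
    have h3 := h2 (U⁻¹.mulVec y) ((inC_scaled L D hD U hU _).mpr (by rwa [hinv]))
    rwa [val_scaled, val_scaled, hinv] at h3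
  · rintro ⟨h1, h2⟩
    refine ⟨(inC_scaled L D hD U hU x).mpr h1, fun y hy => ?_⟩
    rw [val_scaled, val_scaled]
    exact h2 _ ((inC_scaled L D hD U hU y).mp hy)

theorem adjW_scaled (L : Matrix ι ι ℝ) (D : ι → ℝ) (hD : ∀ i, 0 < D i) (U : Matrix ι ι ℤ)
    (hU : IsUnit U.det) (x y : ι → ℤ) :
    AdjW (Matrix.diagonal D * (L * U.map (Int.cast : ℤ → ℝ))) x y ↔
      AdjW L (U.mulVec x) (U.mulVec y) := by
  constructor
  · rintro ⟨w, hw, hx, hy⟩
    exact ⟨fun i => w i * D i, fun i => mul_pos (hw i) (hD i),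
      (isMin_scaled L D hD U hU w x).mp hx, (isMin_scaled L D hD U hU w y).mp hy⟩
  · rintro ⟨w, hw, hx, hy⟩
    have h1 : (fun i => w i * (D i)⁻¹ * D i) = w := by
      funext i
      rw [mul_assoc, inv_mul_cancel₀ (hD i).ne', mul_one]
    refine ⟨fun i => w i * (D i)⁻¹, fun i => mul_pos (hw i) (inv_pos.mpr (hD i)),
      (isMin_scaled L D hD U hU _ x).mpr ?_, (isMin_scaled L D hD U hU _ y).mpr ?_⟩
    · rw [h1]
      exact hx
    · rw [h1]
      exact hy

end Pool.Agent.H83.Sail
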