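import Mathlib
import Pool.Agent.H83.Sail.Trans

/-!
# Limits of patches
-/

namespace Pool.Agent.H83.Sail

open Filter Topology

variable {ι : Type*} [Fintype ι] [DecidableEq ι]

omit [DecidableEq ι] in
theorem inC_limit (c : ℝ) (hc : 0 < c) (Z : Matrix ι ι ℝ)
    (hmin : ∀ z : ι → ℤ, z ≠ 0 → c ≤ |∏ i, Z.mulVec (fun j => (z j : ℝ)) i|)
    (B : ℕ → Matrix ι ι ℝ) (hB : Tendsto B atTop (𝓝 Z)) (y : ι → ℤ) :
    ∀ᶠ k in atTop, (InC (B k) y ↔ InC Z y) := by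
  by_cases hy0 : y = 0
  · exact Eventually.of_forall (fun k => ⟨fun h => absurd hy0 h.1, fun h => absurd hy0 h.1⟩)
  by_cases hy : InC Z y
  · have h1 : ∀ᶠ k in atTop, ∀ i, 0 < (B k).mulVec (fun j => (y j : ℝ)) i :=
      eventually_all.mpr (fun i =>
        (row_tendsto B Z hB _ i).eventually_const_lt (hy.pos hc hmin i))
    filter_upwards [h1] with k hk
    exact ⟨fun _ => hy, fun _ => ⟨hy0, fun i => (hk i).le⟩⟩
  · obtain ⟨i, hi⟩ : ∃ i, Z.mulVec (fun j => (y j : ℝ)) i < 0 := by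
      by_contra hcon
      push Not at hcon
      exact hy ⟨hy0, hcon⟩
    filter_upwards [(row_tendsto B Z hB _ i).eventually_lt_const hi] with k hk
    exact ⟨fun h => absurd (h.2 i) (not_le.mpr hk), fun h => absurd h hy⟩

omit [DecidableEq ι] in
theorem val_tendsto (Z : Matrix ι ι ℝ) (B : ℕ → Matrix ι ι ℝ) (hB : Tendsto B atTop (𝓝 Z))
    (w : ℕ → ι → ℝ) (ω : ι → ℝ) (hw : Tendsto w atTop (𝓝 ω)) (y : ι → ℤ) :
    Tendsto (fun k => val (B k) (w k) y) atTop (𝓝 (val Z ω y)) :=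
  tendsto_finsetSum _ (fun i _ => (tendsto_pi_nhds.mp hw i).mul (row_tendsto B Z hB _ i))

theorem box_finite (N : ℝ) : {y : ι → ℤ | ∀ j, |(y j : ℝ)| ≤ N}.Finite := by
  refine (finite_box (1 : Matrix ι ι ℝ) (by rw [Matrix.det_one]; exact one_ne_zero)
    (fun _ => N)).subset ?_
  intro y hy j
  rw [Matrix.one_mulVec]
  exact hy j

theorem inv_tendsto (Z : Matrix ι ι ℝ) (hZ : Z.det ≠ 0) (B : ℕ → Matrix ι ι ℝ)
    (hB : Tendsto B atTop (𝓝 Z)) : Tendsto (fun k => (B k)⁻¹) atTop (𝓝 Z⁻¹) := by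
  have h1 : Tendsto (fun k => (B k).det) atTop (𝓝 Z.det) := det_tendsto B Z hB
  have h2 : Continuous (fun M : Matrix ι ι ℝ => M.adjugate) := continuous_id.matrix_adjugate
  have h3 : Tendsto (fun k => (B k).adjugate) atTop (𝓝 Z.adjugate) :=
    (h2.tendsto Z).comp hB
  have h4 := (h1.inv₀ hZ).smul h3
  have h5 : (fun k => (B k)⁻¹) = fun k => (B k).det⁻¹ • (B k).adjugate := by
    funext k
    rw [Matrix.inv_def, Ring.inverse_eq_inv']
  rw [h5, Matrix.inv_def, Ring.inverse_eq_inv']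
  exact h4

theorem isMin_forward [Nonempty ι] (c : ℝ) (hc : 0 < c) (Z : Matrix ι ι ℝ) (hZ : Z.det ≠ 0)
    (hmin : ∀ z : ι → ℤ, z ≠ 0 → c ≤ |∏ i, Z.mulVec (fun j => (z j : ℝ)) i|)
    (B : ℕ → Matrix ι ι ℝ) (hB : Tendsto B atTop (𝓝 Z)) (w : ι → ℝ) (hw : ∀ i, 0 < w i)
    (x : ι → ℤ) (hx : IsMin Z w x) (v : ℕ → ι → ℝ) (hv : Tendsto v atTop (𝓝 w))
    (hval : ∀ᶠ k in atTop, ∀ y, val (B k) (v k) y = val Z w y) :
    ∀ᶠ k in atTop, IsMin (B k) (v k) x := by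
  obtain ⟨C, hC0, hC⟩ := bound_near B Z hZ hB
  set V := val Z w x with hV
  have hV0 : 0 ≤ V := Finset.sum_nonneg (fun i _ => mul_nonneg (hw i).le (hx.1.2 i))
  set S : ℝ := ∑ i, 2 * V / w i with hS
  have hfin := box_finite (ι := ι) (C * S)
  have h1 : ∀ᶠ k in atTop, ∀ y ∈ {y : ι → ℤ | ∀ j, |(y j : ℝ)| ≤ C * S},
      (InC (B k) y ↔ InC Z y) :=
    (eventually_all_finite hfin).mpr (fun y _ => inC_limit c hc Z hmin B hB y)
  have h2 : ∀ᶠ k in atTop, ∀ i, w i / 2 < v k i :=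
    eventually_all.mpr (fun i =>
      (tendsto_pi_nhds.mp hv i).eventually_const_lt (by linarith [hw i]))
  filter_upwards [hC, h1, h2, inC_limit c hc Z hmin B hB x, hval] with k hCk h1k h2k h3k hvk
  refine ⟨h3k.mpr hx.1, fun y hy => ?_⟩
  by_contra hlt
  push Not at hlt
  rw [hvk y, hvk x] at hlt
  have hvpos : ∀ i, 0 < v k i := fun i => lt_trans (by linarith [hw i]) (h2k i)
  have hle : ∀ i, (B k).mulVec (fun j => (y j : ℝ)) i ≤ 2 * V / w i := by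
    intro i
    have h4 := val_term_le hvpos hy i
    rw [hvk y] at h4
    have h5 : w i / 2 * (B k).mulVec (fun j => (y j : ℝ)) i ≤
        v k i * (B k).mulVec (fun j => (y j : ℝ)) i :=
      mul_le_mul_of_nonneg_right (h2k i).le (hy.2 i)
    rw [le_div_iff₀ (hw i)]
    nlinarith
  have hybox : ∀ j, |(y j : ℝ)| ≤ C * S := by
    intro j
    refine (hCk (fun j => (y j : ℝ)) j).trans (mul_le_mul_of_nonneg_left ?_ hC0.le)
    refine Finset.sum_le_sum (fun i _ => ?_)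
    rw [abs_of_nonneg (hy.2 i)]
    exact hle i
  have h6 := hx.2 y ((h1k y hybox).mp hy)
  linarith

theorem adj_forward [Nonempty ι] (c : ℝ) (hc : 0 < c) (Z : Matrix ι ι ℝ) (hZ : Z.det ≠ 0)
    (hmin : ∀ z : ι → ℤ, z ≠ 0 → c ≤ |∏ i, Z.mulVec (fun j => (z j : ℝ)) i|)
    (B : ℕ → Matrix ι ι ℝ) (hB : Tendsto B atTop (𝓝 Z)) (x u : ι → ℤ) (h : AdjW Z x u) :
    ∀ᶠ k in atTop, AdjW (B k) x u := by
  obtain ⟨w, hw, hx, hu⟩ := h
  set f : ι → ℝ := Matrix.vecMul w Z with hf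
  set v : ℕ → ι → ℝ := fun k => Matrix.vecMul f (B k)⁻¹ with hv
  have hunit : IsUnit Z.det := isUnit_iff_ne_zero.mpr hZ
  have hvt : Tendsto v atTop (𝓝 w) := by
    have h1 : w = Matrix.vecMul f Z⁻¹ := by
      rw [hf, Matrix.vecMul_vecMul, Matrix.mul_nonsing_inv Z hunit, Matrix.vecMul_one]
    rw [h1]
    refine tendsto_pi_nhds.mpr (fun i => ?_)
    exact tendsto_finsetSum _ (fun j _ =>
      (mat_tendsto' _ _ (inv_tendsto Z hZ B hB) j i).const_mul _)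
  have hval : ∀ᶠ k in atTop, ∀ y, val (B k) (v k) y = val Z w y := by
    have h1 : ∀ᶠ k in atTop, (B k).det ≠ 0 := (det_tendsto B Z hB).eventually_ne hZ
    filter_upwards [h1] with k hk y
    have hku : IsUnit (B k).det := isUnit_iff_ne_zero.mpr hk
    have e1 : val (B k) (v k) y = dotProduct (v k) ((B k).mulVec (fun j => (y j : ℝ))) := rfl
    have e2 : val Z w y = dotProduct w (Z.mulVec (fun j => (y j : ℝ))) := rfl
    rw [e1, e2, Matrix.dotProduct_mulVec, Matrix.dotProduct_mulVec, hv]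
    simp only
    rw [Matrix.vecMul_vecMul, Matrix.nonsing_inv_mul (B k) hku, Matrix.vecMul_one]
  have hvpos : ∀ᶠ k in atTop, ∀ i, 0 < v k i :=
    eventually_all.mpr (fun i => (tendsto_pi_nhds.mp hvt i).eventually_const_lt (hw i))
  filter_upwards [isMin_forward c hc Z hZ hmin B hB w hw x hx v hvt hval,
    isMin_forward c hc Z hZ hmin B hB w hw u hu v hvt hval, hvpos] with k h1 h2 h3
  exact ⟨v k, h3, h1, h2⟩

theorem adj_backward [Nonempty ι] (hn : 2 ≤ Fintype.card ι) (c : ℝ) (hc : 0 < c)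
    (Z : Matrix ι ι ℝ) (hZ : Z.det ≠ 0)
    (hmin : ∀ z : ι → ℤ, z ≠ 0 → c ≤ |∏ i, Z.mulVec (fun j => (z j : ℝ)) i|)
    (B : ℕ → Matrix ι ι ℝ) (hB : Tendsto B atTop (𝓝 Z))
    (hBmin : ∀ k, ∀ z : ι → ℤ, z ≠ 0 → c ≤ |∏ i, (B k).mulVec (fun j => (z j : ℝ)) i|)
    (x : ι → ℤ) (hx : InC Z x) :
    ∀ᶠ k in atTop, ∀ u, AdjW (B k) x u → AdjW Z x u := by
  by_contra hcon
  rw [Filter.not_eventually] at hcon
  obtain ⟨φ, hφ, hbad⟩ := Filter.extraction_of_frequently_atTop hcon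
  push Not at hbad
  choose u hu hnu using hbad
  choose w hw hxw huw using hu
  have hxpos : ∀ k i, 0 < (B (φ k)).mulVec (fun j => (x j : ℝ)) i :=
    fun k i => (hxw k).1.pos hc (hBmin _) i
  have hZpos : ∀ i, 0 < Z.mulVec (fun j => (x j : ℝ)) i := fun i => hx.pos hc hmin i
  have hN0 : ∀ k, 0 < val (B (φ k)) (w k) x := fun k =>
    Finset.sum_pos (fun i _ => mul_pos (hw k i) (hxpos k i)) Finset.univ_nonempty
  set v : ℕ → ι → ℝ := fun k i => w k i / val (B (φ k)) (w k) x with hv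
  have hv0 : ∀ k i, 0 < v k i := fun k i => div_pos (hw k i) (hN0 k)
  have hvval : ∀ k y, val (B (φ k)) (v k) y =
      val (B (φ k)) (w k) y / val (B (φ k)) (w k) x := by
    intro k y
    rw [val, val, Finset.sum_div]
    exact Finset.sum_congr rfl (fun i _ => by rw [hv]; ring)
  have hvx : ∀ k, val (B (φ k)) (v k) x = 1 := fun k => by
    rw [hvval, div_self (hN0 k).ne']
  have hvu : ∀ k, val (B (φ k)) (v k) (u k) = 1 := fun k => by
    rw [hvval, le_antisymm ((huw k).2 x (hxw k).1) ((hxw k).2 (u k) (huw k).1),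
      div_self (hN0 k).ne']
  have hvy : ∀ k y, InC (B (φ k)) y → 1 ≤ val (B (φ k)) (v k) y := by
    intro k y hy
    rw [hvval, one_le_div (hN0 k)]
    exact (hxw k).2 y hy
  -- a limit of the functionals
  have hBφ : Tendsto (fun k => B (φ k)) atTop (𝓝 Z) := hB.comp hφ.tendsto_atTop
  have hbd : ∀ᶠ k in atTop, v k ∈ Set.univ.pi
      (fun i => Set.Icc (0 : ℝ) (2 / Z.mulVec (fun j => (x j : ℝ)) i)) := by
    have h1 : ∀ᶠ k in atTop, ∀ i, Z.mulVec (fun j => (x j : ℝ)) i / 2 <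
        (B (φ k)).mulVec (fun j => (x j : ℝ)) i :=
      eventually_all.mpr (fun i => (row_tendsto _ Z hBφ _ i).eventually_const_lt
        (by linarith [hZpos i]))
    filter_upwards [h1] with k hk
    rw [Set.mem_univ_pi]
    intro i
    refine ⟨(hv0 k i).le, ?_⟩
    have h2 := val_term_le (hv0 k) (hxw k).1 i
    rw [hvx k] at h2
    rw [le_div_iff₀ (hZpos i)]
    have h3 : v k i * (Z.mulVec (fun j => (x j : ℝ)) i / 2) ≤
        v k i * (B (φ k)).mulVec (fun j => (x j : ℝ)) i :=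
      mul_le_mul_of_nonneg_left (hk i).le (hv0 k i).le
    linarith
  obtain ⟨ω, -, φ1, hφ1, hω⟩ := (isCompact_univ_pi (fun i =>
    isCompact_Icc (a := (0 : ℝ)) (b := 2 / Z.mulVec (fun j => (x j : ℝ)) i))).tendsto_subseq'
    hbd.frequently
  have hB1 : Tendsto (fun k => B (φ (φ1 k))) atTop (𝓝 Z) := hBφ.comp hφ1.tendsto_atTop
  have hω' : Tendsto (fun k => v (φ1 k)) atTop (𝓝 ω) := hω
  have hωx : val Z ω x = 1 := by
    have h1 := val_tendsto Z _ hB1 _ ω hω' x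
    have h2 : (fun k => val (B (φ (φ1 k))) (v (φ1 k)) x) = fun _ => 1 := by
      funext k
      exact hvx _
    rw [h2] at h1
    exact tendsto_nhds_unique h1 tendsto_const_nhds
  have hωy : ∀ y, InC Z y → 1 ≤ val Z ω y := by
    intro y hy
    refine ge_of_tendsto (val_tendsto Z _ hB1 _ ω hω' y) ?_
    filter_upwards [inC_limit c hc Z hmin _ hB1 y] with k hk
    exact hvy _ y (hk.mpr hy)
  have hωpos : ∀ i, 0 < ω i := fun i =>
    (coeff_pos hn Z hZ c hc hmin ω 1 (fun y hy => hωy y hy.inC) i).2 one_pos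
  -- the neighbours are bounded
  obtain ⟨C, hC0, hC⟩ := bound_near _ Z hZ hB1
  set S : ℝ := ∑ i, 2 / ω i with hS
  have hfin := box_finite (ι := ι) (C * S)
  have hev : ∀ᶠ k in atTop, ∀ j, |(u (φ1 k) j : ℝ)| ≤ C * S := by
    have h1 : ∀ᶠ k in atTop, ∀ i, ω i / 2 < v (φ1 k) i :=
      eventually_all.mpr (fun i =>
        (tendsto_pi_nhds.mp hω' i).eventually_const_lt (by linarith [hωpos i]))
    filter_upwards [hC, h1] with k hCk h1k j
    refine (hCk (fun j => (u (φ1 k) j : ℝ)) j).trans (mul_le_mul_of_nonneg_left ?_ hC0.le)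
    refine Finset.sum_le_sum (fun i _ => ?_)
    rw [abs_of_nonneg ((huw (φ1 k)).1.2 i), le_div_iff₀ (hωpos i)]
    have h2 := val_term_le (hv0 (φ1 k)) (huw (φ1 k)).1 i
    rw [hvu] at h2
    have h3 : ω i / 2 * (B (φ (φ1 k))).mulVec (fun j => (u (φ1 k) j : ℝ)) i ≤
        v (φ1 k) i * (B (φ (φ1 k))).mulVec (fun j => (u (φ1 k) j : ℝ)) i :=
      mul_le_mul_of_nonneg_right (h1k i).le ((huw (φ1 k)).1.2 i)
    linarith
  obtain ⟨N, hN⟩ := eventually_atTop.mp hev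
  have hfin' : Finite {y : ι → ℤ | ∀ j, |(y j : ℝ)| ≤ C * S} := hfin.to_subtype
  obtain ⟨⟨u0, hu0⟩, ψ, hψ, hψu⟩ := pigeon_seq (fun k =>
    (⟨u (φ1 (k + N)), hN (k + N) (Nat.le_add_left _ _)⟩ :
      {y : ι → ℤ | ∀ j, |(y j : ℝ)| ≤ C * S}))
  have hψu' : ∀ k, u (φ1 (ψ k + N)) = u0 := fun k => congrArg Subtype.val (hψu k)
  have hψt : Tendsto (fun k => ψ k + N) atTop atTop :=
    tendsto_atTop_mono (fun k => Nat.le_add_right _ _) hψ.tendsto_atTop
  have hB2 : Tendsto (fun k => B (φ (φ1 (ψ k + N)))) atTop (𝓝 Z) := hB1.comp hψt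
  have hω2 : Tendsto (fun k => v (φ1 (ψ k + N))) atTop (𝓝 ω) := hω'.comp hψt
  have hu0C : InC Z u0 := by
    obtain ⟨k, hk⟩ := (inC_limit c hc Z hmin _ hB2 u0).exists
    refine hk.mp ?_
    rw [← hψu' k]
    exact (huw _).1
  have hu0v : val Z ω u0 = 1 := by
    have h1 := val_tendsto Z _ hB2 _ ω hω2 u0
    have h2 : (fun k => val (B (φ (φ1 (ψ k + N)))) (v (φ1 (ψ k + N))) u0) = fun _ => 1 := by
      funext k
      rw [← hψu' k]
      exact hvu _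
    rw [h2] at h1
    exact tendsto_nhds_unique h1 tendsto_const_nhds
  refine hnu (φ1 (ψ 0 + N)) ?_
  rw [hψu' 0]
  exact ⟨ω, hωpos, ⟨hx, fun y hy => by rw [hωx]; exact hωy y hy⟩,
    ⟨hu0C, fun y hy => by rw [hu0v]; exact hωy y hy⟩⟩

/-- The neighbours of a node are the same for close forms. -/
theorem adj_limit [Nonempty ι] (hn : 2 ≤ Fintype.card ι) (c : ℝ) (hc : 0 < c)
    (Z : Matrix ι ι ℝ) (hZ : Z.det ≠ 0)
    (hmin : ∀ z : ι → ℤ, z ≠ 0 → c ≤ |∏ i, Z.mulVec (fun j => (z j : ℝ)) i|)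
    (B : ℕ → Matrix ι ι ℝ) (hB : Tendsto B atTop (𝓝 Z))
    (hBmin : ∀ k, ∀ z : ι → ℤ, z ≠ 0 → c ≤ |∏ i, (B k).mulVec (fun j => (z j : ℝ)) i|)
    (x : ι → ℤ) (hx : InC Z x) :
    ∀ᶠ k in atTop, ∀ u, AdjW Z x u ↔ AdjW (B k) x u := by
  have h1 : ∀ᶠ k in atTop, ∀ u ∈ {u | AdjW Z x u}, AdjW (B k) x u :=
    (eventually_all_finite (nbr_finite Z hZ c hc hmin x)).mpr
      (fun u hu => adj_forward c hc Z hZ hmin B hB x u hu)
  filter_upwards [h1, adj_backward hn c hc Z hZ hmin B hB hBmin x hx] with k h2 h3 u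
  exact ⟨fun h => h2 u h, h3 u⟩

/-- The patches of a node are the same for close forms. -/
theorem patch_limit [Nonempty ι] (hn : 2 ≤ Fintype.card ι) (c : ℝ) (hc : 0 < c)
    (Z : Matrix ι ι ℝ) (hZ : Z.det ≠ 0)
    (hmin : ∀ z : ι → ℤ, z ≠ 0 → c ≤ |∏ i, Z.mulVec (fun j => (z j : ℝ)) i|)
    (B : ℕ → Matrix ι ι ℝ) (hB : Tendsto B atTop (𝓝 Z))
    (hBmin : ∀ k, ∀ z : ι → ℤ, z ≠ 0 → c ≤ |∏ i, (B k).mulVec (fun j => (z j : ℝ)) i|)
    (r : ℕ) : ∀ x : ι → ℤ, AdjW Z x x → ∀ᶠ k in atTop, Local.PEq (AdjW Z) (AdjW (B k)) r x := by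
  induction r with
  | zero => exact fun x _ => Eventually.of_forall (fun k => trivial)
  | succ r ih =>
    intro x hx
    have h1 : ∀ᶠ k in atTop, ∀ u ∈ {u | AdjW Z x u}, Local.PEq (AdjW Z) (AdjW (B k)) r u :=
      (eventually_all_finite (nbr_finite Z hZ c hc hmin x)).mpr
        (fun u hu => ih u (AdjW.symm hu).left)
    filter_upwards [h1, adj_limit hn c hc Z hZ hmin B hB hBmin x hx.inC] with k h2 h3
    exact ⟨h3, fun u hu => h2 u hu⟩

end Pool.Agent.H83.Sail
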