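import Mathlib
import Pool.Agent.H83.Sail.Lim

/-!
# Few classes of patches in one large window
-/

namespace Pool.Agent.H83.Sail

open Filter Topology

variable {ι : Type*} [Fintype ι] [DecidableEq ι]

/-- The patches of radius `R` of the nodes in a window fall into at most `m` classes. -/
def Few (L : Matrix ι ι ℝ) (R m : ℕ) (T : ℝ) (s : ι → ℝ) : Prop :=
  ∃ F : Finset (ι → ℤ), F.card ≤ m ∧ ∀ x, AdjW L x x →
    (∀ i, L.mulVec (fun j => (x j : ℝ)) i ≤ T * s i) →
    ∃ y ∈ F, Local.Rel (Matrix ι ι ℤ)ˣ (AdjW L) R y x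

theorem card_le_of_no_inj {α : Type*} (m : ℕ)
    (h : ¬ ∃ f : Fin (m + 1) → α, Function.Injective f) : Finite α ∧ Nat.card α ≤ m := by
  have hfin : Finite α := by
    by_contra hinf
    rw [not_finite_iff_infinite] at hinf
    exact h ⟨fun i => Infinite.natEmbedding α i, fun i j hij =>
      Fin.ext ((Infinite.natEmbedding α).injective hij)⟩
  refine ⟨hfin, ?_⟩
  by_contra hcard
  push Not at hcard
  have e := Finite.equivFin α
  exact h ⟨fun i => e.symm (Fin.castLE hcard i), fun i j hij =>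
    Fin.castLE_injective hcard (e.symm.injective hij)⟩

theorem window_gen (hn : 3 ≤ Fintype.card ι) (c d : ℝ) (hc : 0 < c) (R m : ℕ)
    (hmain : ∀ Z : Matrix ι ι ℝ, Z ∈ Good c d → Finite (Local.Q (Matrix ι ι ℤ)ˣ (AdjW Z) R) →
      Nat.card (Local.Q (Matrix ι ι ℤ)ˣ (AdjW Z) R) ≤ m → Alg Z) :
    ∃ T : ℕ, ∀ L : Matrix ι ι ℝ, L ∈ Good c d → ∀ s : ι → ℝ, (∀ i, 0 < s i) →
      ∏ i, s i = 1 → Few L R m T s → Alg L := by
  have hne : Nonempty ι := Fintype.card_pos_iff.mp (by omega)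
  have h2 : 2 ≤ Fintype.card ι := by omega
  by_contra hcon
  push Not at hcon
  choose A hA s hs hs1 hfew hna using hcon
  obtain ⟨Z, ψ, U, hψ, hU, hlim, hZ⟩ := local_limit c d hc Set.univ isClosed_univ A hA s hs hs1
    (fun k => (k : ℝ)) tendsto_natCast_atTop_atTop (fun _ _ _ _ => trivial)
  have hZgood := hZ.1
  have hZdet := good_det_ne hc hZgood
  set B : ℕ → Matrix ι ι ℝ := fun k => Matrix.diagonal (fun i => (s (ψ k) i)⁻¹) *
      (A (ψ k) * (U k).map (Int.cast : ℤ → ℝ)) with hB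
  have hBgood : ∀ k, B k ∈ Good c d := fun k =>
    good_transform c d _ (hA (ψ k)) _ (by rw [Finset.prod_inv_distrib, hs1, inv_one]) _ (hU k)
  have hclaim : ¬ ∃ f : Fin (m + 1) → Local.Q (Matrix ι ι ℤ)ˣ (AdjW Z) R,
      Function.Injective f := by
    rintro ⟨f, hf⟩
    choose x hx using fun i => Local.cls_surj (f i)
    have hev : ∀ᶠ k in atTop, ∀ i : Fin (m + 1),
        Local.PEq (AdjW Z) (AdjW (B k)) R (x i).1 ∧ AdjW (B k) (x i).1 (x i).1 ∧
        ∀ j, (B k).mulVec (fun l => ((x i).1 l : ℝ)) j ≤ (ψ k : ℝ) := by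
      refine eventually_all.mpr (fun i => ?_)
      have h3 := patch_limit h2 c hc Z hZdet hZgood.2.2 B hlim (fun k => (hBgood k).2.2) R
        (x i).1 (x i).2
      have h4 := adj_forward c hc Z hZdet hZgood.2.2 B hlim (x i).1 (x i).1 (x i).2
      have h5 : ∀ᶠ k in atTop, ∀ j, (B k).mulVec (fun l => ((x i).1 l : ℝ)) j ≤ (ψ k : ℝ) := by
        refine eventually_all.mpr (fun j => ?_)
        have h6 := (row_tendsto B Z hlim (fun l => ((x i).1 l : ℝ)) j).eventually_lt_const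
          (lt_add_one _)
        have h7 : Tendsto (fun k => ((ψ k : ℕ) : ℝ)) atTop atTop :=
          tendsto_natCast_atTop_atTop.comp hψ.tendsto_atTop
        filter_upwards [h6, h7.eventually_ge_atTop
          (Z.mulVec (fun l => ((x i).1 l : ℝ)) j + 1)] with k h8 h9
        linarith
      filter_upwards [h3, h4, h5] with k h6 h7 h8
      exact ⟨h6, h7, h8⟩
    obtain ⟨k, hk⟩ := hev.exists
    obtain ⟨F, hF, hFx⟩ := hfew (ψ k)
    obtain ⟨W, hW⟩ := (Matrix.isUnit_iff_isUnit_det (U k)).mpr (hU k)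
    have hDpos : ∀ i, 0 < (s (ψ k) i)⁻¹ := fun i => inv_pos.mpr (hs _ i)
    have hconj : ∀ a b, AdjW (B k) a b ↔ AdjW (A (ψ k)) (W • a) (W • b) := by
      intro a b
      rw [act_def, act_def, hW]
      exact adjW_scaled (A (ψ k)) _ hDpos (U k) (hU k) a b
    have hz : ∀ i : Fin (m + 1), ∃ y ∈ F,
        Local.Rel (Matrix ι ι ℤ)ˣ (AdjW (A (ψ k))) R y (W • (x i).1) := by
      intro i
      refine hFx _ ((hconj _ _).mp (hk i).2.1) (fun j => ?_)
      have h3 := (hk i).2.2 j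
      rw [hB] at h3
      simp only at h3
      rw [scaled_row, inv_mul_le_iff₀ (hs _ j), mul_comm] at h3
      rw [act_def, hW]
      exact h3
    choose z hzF hzrel using hz
    obtain ⟨i, -, j, -, hij, hzij⟩ := Finset.exists_ne_map_eq_of_card_lt_of_maps_to
      (s := (Finset.univ : Finset (Fin (m + 1)))) (t := F)
      (by rw [Finset.card_univ, Fintype.card_fin]; omega) (fun i _ => hzF i)
    have h3 : Local.Rel (Matrix ι ι ℤ)ˣ (AdjW (A (ψ k))) R (W • (x i).1) (W • (x j).1) := by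
      refine (hzrel i).symm.trans ?_
      rw [hzij]
      exact hzrel j
    obtain ⟨g, hg, hgp⟩ := (Local.Rel.conj W hconj).mpr h3
    refine hij (hf ?_)
    rw [← hx i, ← hx j, Local.cls_eq]
    refine ⟨g, hg, (hk i).1.transfer ?_ hgp⟩
    rw [hg]
    exact (hk j).1
  obtain ⟨hfinQ, hcardQ⟩ := card_le_of_no_inj m hclaim
  have hZalg := hmain Z hZgood hfinQ hcardQ
  obtain ⟨k, E, hE⟩ := (alg_isolation hn c d hc Z hZdet hZalg B hlim hBgood).exists
  exact hna (ψ k) (alg_transfer (A (ψ k)) Z _ E (fun i => (inv_pos.mpr (hs _ i)).ne') (U k)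
    (hU k) hE hZalg)

theorem window_main (hn : 3 ≤ Fintype.card ι) (c d : ℝ) (hc : 0 < c) (R m : ℕ)
    (hR : m * (1 + 2 * (Fintype.card ι * Fintype.card ι)) < R) :
    ∃ T : ℕ, ∀ L : Matrix ι ι ℝ, L ∈ Good c d → ∀ s : ι → ℝ, (∀ i, 0 < s i) →
      ∏ i, s i = 1 → Few L R m T s → Alg L := by
  have hne : Nonempty ι := Fintype.card_pos_iff.mp (by omega)
  exact window_gen hn c d hc R m (fun Z hZ hfin hcard =>
    local_main hn Z (good_det_ne hc hZ) c hc hZ.2.2 R m hR hfin hcard)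

end Pool.Agent.H83.Sail
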