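import Mathlib
import Pool.Agent.H83.Sail.Win

/-!
# Algebraic sails have finitely many classes of patches of all radii
-/

namespace Pool.Agent.H83.Sail

open Module Filter Topology NumberField

variable {ι : Type*} [Fintype ι]

/-- Multiplication by a unit of the stabiliser as an invertible integer matrix. -/
theorem unit_matrix [DecidableEq ι] {K : Type*} [Field K] [NumberField K] (b : Basis ι ℚ K)
    (u : (𝓞 K)ˣ) (hu : u ∈ Stab b) :
    ∃ g : (Matrix ι ι ℤ)ˣ, ∀ j, (u : K) * b j = ∑ i, (g : Matrix ι ι ℤ) i j • b i := by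
  obtain ⟨h1, h2⟩ := (mem_stab_iff b u).mp hu
  have hb : ∀ j, b j ∈ Lat b := fun j => Submodule.subset_span ⟨j, rfl⟩
  have e1 : ∀ j, ∃ v : ι → ℤ, ∑ i, v i • b i = (u : K) * b j :=
    fun j => lat_exists b (h1 _ (hb j))
  have e2 : ∀ j, ∃ v : ι → ℤ, ∑ i, v i • b i = ((u⁻¹ : (𝓞 K)ˣ) : K) * b j :=
    fun j => lat_exists b (h2 _ (hb j))
  choose G hG using e1
  choose H hH using e2
  have hind : ∀ v w : ι → ℤ, ∑ i, v i • b i = ∑ i, w i • b i → v = w := by
    intro v w hvw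
    have h3 : ∑ i, (((v i - w i : ℤ) : ℚ)) • b i = 0 := by
      have h4 : ∀ i, (((v i - w i : ℤ) : ℚ)) • b i = v i • b i - w i • b i := by
        intro i
        rw [Int.cast_smul_eq_zsmul, sub_smul]
      simp_rw [h4]
      rw [Finset.sum_sub_distrib, hvw, sub_self]
    funext i
    have h5 := (Fintype.linearIndependent_iff.mp b.linearIndependent) _ h3 i
    have h6 : v i - w i = 0 := by exact_mod_cast h5
    exact sub_eq_zero.mp h6
  have hprod : ∀ (P Q : ι → ι → ℤ) (a a' : K) (haa : a * a' = 1)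
      (_ : ∀ j, ∑ i, P j i • b i = a * b j) (_ : ∀ j, ∑ i, Q j i • b i = a' * b j),
      (Matrix.of (fun i j => P j i)) * (Matrix.of (fun i j => Q j i)) =
        (1 : Matrix ι ι ℤ) := by
    intro P Q a a' haa hP hQ
    have h3 : ∀ j, (fun i => ((Matrix.of (fun i j => P j i)) *
        (Matrix.of (fun i j => Q j i)) : Matrix ι ι ℤ) i j) =
        fun i => (1 : Matrix ι ι ℤ) i j := by
      intro j
      refine hind _ _ ?_
      have h4 : ∑ i, (((Matrix.of (fun i j => P j i)) *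
          (Matrix.of (fun i j => Q j i)) : Matrix ι ι ℤ) i j) • b i = b j := by
        have h5 : ∀ i, (((Matrix.of (fun i j => P j i)) *
          (Matrix.of (fun i j => Q j i)) : Matrix ι ι ℤ) i j) • b i =
          ∑ k, Q j k • (P k i • b i) := by
          intro i
          rw [Matrix.mul_apply, Finset.sum_smul]
          refine Finset.sum_congr rfl (fun k _ => ?_)
          rw [Matrix.of_apply, Matrix.of_apply, smul_smul, mul_comm]
        simp_rw [h5]
        rw [Finset.sum_comm]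
        have h6 : ∀ k, ∑ i, Q j k • (P k i • b i) = a * (Q j k • b k) := by
          intro k
          rw [← Finset.smul_sum, hP k, mul_smul_comm]
        simp_rw [h6]
        rw [← Finset.mul_sum, hQ j, ← mul_assoc, haa, one_mul]
      rw [h4]
      have h7 : ∀ i, ((1 : Matrix ι ι ℤ) i j) • b i = if i = j then b i else 0 := by
        intro i
        rw [Matrix.one_apply]
        split_ifs <;> simp
      simp_rw [h7]
      rw [Finset.sum_ite_eq' Finset.univ j]
      simp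
    ext i j
    exact congrFun (h3 j) i
  have hu1 : (u : K) * ((u⁻¹ : (𝓞 K)ˣ) : K) = 1 := by
    have h3 : ((u * u⁻¹ : (𝓞 K)ˣ) : 𝓞 K) = 1 := by rw [mul_inv_cancel, Units.val_one]
    have h4 := congrArg (algebraMap (𝓞 K) K) h3
    rw [Units.val_mul, map_mul, map_one] at h4
    exact h4
  have hu2 : ((u⁻¹ : (𝓞 K)ˣ) : K) * (u : K) = 1 := by rw [mul_comm, hu1]
  refine ⟨⟨Matrix.of (fun i j => G j i), Matrix.of (fun i j => H j i),
    hprod G H _ _ hu1 hG hH, hprod H G _ _ hu2 hH hG⟩, fun j => ?_⟩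
  rw [← hG j]
  rfl

theorem eigen_of_mul [DecidableEq ι] {K : Type*} [Field K] [NumberField K] (b : Basis ι ℚ K)
    (L : Matrix ι ι ℝ) (π : ι → (K →+* ℂ)) (q : ι → ℝ)
    (hY : ∀ i j, (L i j : ℂ) = (q i : ℂ) * π i (b j)) (x : K) (g : Matrix ι ι ℤ)
    (hg : ∀ j, x * b j = ∑ i, g i j • b i) (ν : ι → ℝ) (hν : ∀ i, (ν i : ℂ) = π i x) :
    L * g.map (Int.cast : ℤ → ℝ) = Matrix.diagonal ν * L := by
  ext i j
  apply Complex.ofReal_injective
  rw [Matrix.diagonal_mul, Complex.ofReal_mul, hν i, hY i j, Matrix.mul_apply,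
    Complex.ofReal_sum]
  have h1 : ∀ k, (((L i k * (g.map (Int.cast : ℤ → ℝ)) k j : ℝ)) : ℂ) =
      (q i : ℂ) * π i (g k j • b k) := by
    intro k
    rw [Complex.ofReal_mul, hY i k, Matrix.map_apply, Complex.ofReal_intCast, map_zsmul,
      zsmul_eq_mul]
    ring
  simp_rw [h1]
  rw [← Finset.mul_sum, ← map_sum, ← hg j, map_mul]
  ring

/-- The norms of the nodes are bounded. -/
theorem node_norm [DecidableEq ι] [Nonempty ι] (L : Matrix ι ι ℝ) (hL : L.det ≠ 0) (c : ℝ)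
    (hc : 0 < c)
    (hmin : ∀ z : ι → ℤ, z ≠ 0 → c ≤ |∏ i, L.mulVec (fun j => (z j : ℝ)) i|) :
    ∃ N : ℝ, 0 < N ∧ ∀ x, AdjW L x x → ∏ i, L.mulVec (fun j => (x j : ℝ)) i ≤ N := by
  obtain ⟨R, hR, hwin⟩ := window L hL c hc hmin
  set n : ℕ := Fintype.card ι with hn
  have hn0 : 0 < n := Fintype.card_pos
  have hn0' : (0 : ℝ) < n := by exact_mod_cast hn0
  refine ⟨(n * R) ^ n, by positivity, fun x hx => ?_⟩
  obtain ⟨w, hw, hxw, -⟩ := hx
  set P : ℝ := ∏ i, w i with hP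
  have hP0 : 0 < P := Finset.prod_pos (fun i _ => hw i)
  obtain ⟨l, hl0, hl⟩ : ∃ l : ℝ, 0 < l ∧ l ^ n = P :=
    ⟨P ^ ((n : ℝ)⁻¹), Real.rpow_pos_of_pos hP0 _, Real.rpow_inv_natCast_pow hP0.le hn0.ne'⟩
  obtain ⟨y, hy, hys⟩ := hwin (fun i => l / w i) (fun i => div_pos hl0 (hw i)) (by
    rw [Finset.prod_div_distrib, Finset.prod_const, Finset.card_univ, hl, div_self hP0.ne'])
  have hyval : val L w y ≤ n * R * l := by
    rw [val]
    have h1 : ∀ i ∈ Finset.univ, w i * L.mulVec (fun j => (y j : ℝ)) i ≤ R * l := by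
      intro i _
      have h2 := mul_le_mul_of_nonneg_left (hys i) (hw i).le
      have h3 : w i * (R * (l / w i)) = R * l := by
        have := (hw i).ne'
        field_simp
      rwa [h3] at h2
    have h2 := Finset.sum_le_card_nsmul Finset.univ _ (R * l) h1
    rw [Finset.card_univ, nsmul_eq_mul, ← mul_assoc] at h2
    exact h2
  have hval := (hxw.2 y hy).trans hyval
  have h1 : ∏ i, (w i * L.mulVec (fun j => (x j : ℝ)) i) ≤ ∏ _i : ι, (n * R * l) :=
    Finset.prod_le_prod (fun i _ => mul_nonneg (hw i).le (hxw.1.2 i))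
      (fun i _ => (val_term_le hw hxw.1 i).trans hval)
  rw [Finset.prod_mul_distrib, Finset.prod_const, Finset.card_univ, mul_pow, hl, ← hP,
    mul_comm P] at h1
  exact le_of_mul_le_mul_right h1 hP0

theorem piso_of_global {Γ X : Type*} [Group Γ] [MulAction Γ X] {Adj : X → X → Prop} (g : Γ)
    (h : ∀ x y, Adj x y ↔ Adj (g • x) (g • y)) (r : ℕ) : ∀ x, Local.PIso Adj r x g := by
  induction r with
  | zero => exact fun x => trivial
  | succ r ih => exact fun x => ⟨fun w => h x w, fun u _ => ih u⟩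

/-- Algebraic sails: finitely many classes of patches, uniformly in the radius. -/
theorem alg_few [DecidableEq ι] (L : Matrix ι ι ℝ) (hL : L.det ≠ 0) (c : ℝ)
    (hc : 0 < c) (hmin : ∀ z : ι → ℤ, z ≠ 0 → c ≤ |∏ i, L.mulVec (fun j => (z j : ℝ)) i|)
    [Nonempty ι] (hA : Alg L) : ∃ F : Finset (ι → ℤ), ∀ x, AdjW L x x →
      ∃ y ∈ F, ∀ R, Local.Rel (Matrix ι ι ℤ)ˣ (AdjW L) R y x := by
  obtain ⟨A, μ, -, hirr, -, hLA⟩ := hA
  have hirr' : Irreducible (A.map (Int.cast : ℤ → ℚ)).charpoly := by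
    have h1 : (A.map (Int.cast : ℤ → ℚ)).charpoly = A.charpoly.map (Int.castRingHom ℚ) :=
      Matrix.charpoly_map A (Int.castRingHom ℚ)
    rw [h1]
    exact hirr
  have hLA' : L * (A.map (Int.cast : ℤ → ℚ)).map (Rat.cast : ℚ → ℝ) =
      Matrix.diagonal μ * L := by
    rw [Matrix.map_map]
    have h1 : ((Rat.cast : ℚ → ℝ) ∘ (Int.cast : ℤ → ℚ)) = (Int.cast : ℤ → ℝ) := by
      funext z
      simp
    rw [h1]
    exact hLA
  obtain ⟨K, hK1, hK2, b, π, q, hreal, hq0, hY⟩ := field_of_eigen L hL _ hirr' μ hLA'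
  obtain ⟨C, hC0, hC⟩ := exists_stab_near b hreal
  obtain ⟨N, hN0, hN⟩ := node_norm L hL c hc hmin
  set n : ℕ := Fintype.card ι with hn
  have hn0 : 0 < n := Fintype.card_pos
  have hn0' : (0 : ℝ) < n := by exact_mod_cast hn0
  set M : ℝ := Real.exp (|Real.log N| + 2 * C) with hM
  have hfin := finite_box L hL (fun _ => M)
  refine ⟨hfin.toFinset, fun x hx => ?_⟩
  have hxpos : ∀ i, 0 < L.mulVec (fun j => (x j : ℝ)) i := fun i => hx.inC.pos hc hmin i
  set ℓ : ι → ℝ := fun i => Real.log (L.mulVec (fun j => (x j : ℝ)) i) with hℓ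
  set a : ℝ := (∑ i, ℓ i) / n with ha
  have hsumle : ∑ i, ℓ i ≤ |Real.log N| := by
    have h1 : ∑ i, ℓ i = Real.log (∏ i, L.mulVec (fun j => (x j : ℝ)) i) :=
      (Real.log_prod (fun i _ => (hxpos i).ne')).symm
    rw [h1]
    exact (Real.log_le_log (Finset.prod_pos (fun i _ => hxpos i)) (hN x hx)).trans
      (le_abs_self _)
  have hale : a ≤ |Real.log N| := by
    rw [ha, div_le_iff₀ hn0']
    have h1 : (1 : ℝ) ≤ n := by exact_mod_cast hn0
    nlinarith [abs_nonneg (Real.log N)]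
  obtain ⟨u, hu, huC⟩ := hC (fun φ => (ℓ (π.symm φ) - a) / 2) (by
    rw [← Finset.sum_div]
    have h1 : ∑ φ : K →+* ℂ, (ℓ (π.symm φ) - a) = ∑ i, (ℓ i - a) :=
      Fintype.sum_equiv π.symm _ _ (fun φ => rfl)
    rw [h1, Finset.sum_sub_distrib, Finset.sum_const, Finset.card_univ, nsmul_eq_mul, ha]
    have h2 : (Fintype.card ι : ℝ) * ((∑ i, ℓ i) / n) = ∑ i, ℓ i := by
      rw [← hn]
      field_simp
    rw [h2, sub_self, zero_div])
  obtain ⟨g, hg⟩ := unit_matrix b (u ^ 2) ((Stab b).pow_mem hu 2)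
  have hre : ∀ i, (((π i (u : K)).re : ℝ) : ℂ) = π i (u : K) := fun i =>
    Complex.conj_eq_iff_re.mp (RingHom.congr_fun (hreal (π i)) (u : K))
  set ν : ι → ℝ := fun i => (π i (u : K)).re ^ 2 with hν
  have hν' : ∀ i, (ν i : ℂ) = π i ((u ^ 2 : (𝓞 K)ˣ) : K) := by
    intro i
    rw [hν]
    simp only
    rw [Complex.ofReal_pow, hre, Units.val_pow_eq_pow_val, map_pow, map_pow]
  have hune : ∀ i, (π i (u : K)).re ≠ 0 := by
    intro i h0
    have h1 := hre i
    rw [h0, Complex.ofReal_zero] at h1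
    have h2 : (u : K) ≠ 0 := by
      have h3 : ((u : 𝓞 K)) ≠ 0 := u.ne_zero
      exact fun h4 => h3 (NumberField.RingOfIntegers.coe_eq_zero_iff.mp h4)
    exact h2 ((map_eq_zero (π i)).mp h1.symm)
  have hν0 : ∀ i, 0 < ν i := fun i => by
    have := hune i
    positivity
  have hLg : L * (g : Matrix ι ι ℤ).map (Int.cast : ℤ → ℝ) = Matrix.diagonal ν * L :=
    eigen_of_mul b L π q hY _ _ hg ν hν'
  have hdet : IsUnit (g : Matrix ι ι ℤ).det := (Matrix.isUnit_iff_isUnit_det _).mp g.isUnit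
  have hself : Matrix.diagonal (fun i => (ν i)⁻¹) *
      (L * (g : Matrix ι ι ℤ).map (Int.cast : ℤ → ℝ)) = L := by
    rw [hLg, ← Matrix.mul_assoc, Matrix.diagonal_mul_diagonal]
    have h1 : (fun i => (ν i)⁻¹ * ν i) = fun _ => (1 : ℝ) := by
      funext i
      exact inv_mul_cancel₀ (hν0 i).ne'
    rw [h1, Matrix.diagonal_one, Matrix.one_mul]
  have hglob : ∀ y z, AdjW L y z ↔ AdjW L (g • y) (g • z) := by
    intro y z
    have h1 := adjW_scaled L (fun i => (ν i)⁻¹) (fun i => inv_pos.mpr (hν0 i)) _ hdet y z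
    rw [hself] at h1
    exact h1
  refine ⟨g⁻¹ • x, ?_, fun R => ⟨g, smul_inv_smul g x, piso_of_global g hglob R _⟩⟩
  rw [Set.Finite.mem_toFinset]
  intro i
  have h1 : L.mulVec (fun j => (x j : ℝ)) i =
      ν i * L.mulVec (fun j => (((g⁻¹ • x) j : ℤ) : ℝ)) i := by
    have h2 : (fun j => (x j : ℝ)) = ((g : Matrix ι ι ℤ).map (Int.cast : ℤ → ℝ)).mulVec
        (fun j => (((g⁻¹ • x) j : ℤ) : ℝ)) := by
      rw [← mulVec_cast, ← act_def, smul_inv_smul]
    conv_lhs => rw [h2]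
    rw [Matrix.mulVec_mulVec, hLg, ← Matrix.mulVec_mulVec, Matrix.mulVec_diagonal]
  have h2 : L.mulVec (fun j => (((g⁻¹ • x) j : ℤ) : ℝ)) i =
      L.mulVec (fun j => (x j : ℝ)) i / ν i := by
    rw [h1, mul_comm, mul_div_assoc, div_self (hν0 i).ne', mul_one]
  have h3 : 0 < L.mulVec (fun j => (((g⁻¹ • x) j : ℤ) : ℝ)) i := by
    rw [h2]
    exact div_pos (hxpos i) (hν0 i)
  rw [abs_of_pos h3, hM, ← Real.log_le_iff_le_exp h3, h2, Real.log_div (hxpos i).ne' (hν0 i).ne']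
  have h4 := huC (π i)
  simp only [Equiv.symm_apply_apply] at h4
  have h5 : Real.log (ν i) = 2 * Real.log ‖π i (u : K)‖ := by
    rw [hν]
    simp only
    rw [Real.log_pow, ← hre i, Complex.norm_real, Real.norm_eq_abs, Real.log_abs]
    push_cast
    simp
  have h6 := (abs_le.mp h4).1
  have h7 : Real.log (L.mulVec (fun j => (x j : ℝ)) i) = ℓ i := rfl
  rw [h7, h5]
  linarith

end Pool.Agent.H83.Sail
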