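import Mathlib
import Pool.Agent.H83.Sail.Conv

/-!
# Finitely many classes of patches of every radius
-/

namespace Pool.Agent.H83.Sail

open Filter Topology

theorem Local.PIso.of_two {Γ X : Type*} [Group Γ] [MulAction Γ X]
    {AdjZ Adj1 Adj2 Adj : X → X → Prop} (u v : Γ)
    (h1 : ∀ x y, Adj1 x y ↔ Adj (u • x) (u • y)) (h2 : ∀ x y, Adj2 x y ↔ Adj (v • x) (v • y))
    (r : ℕ) : ∀ x : X, Local.PEq AdjZ Adj1 r x → Local.PEq AdjZ Adj2 r x →
      Local.PIso Adj r (u • x) (v * u⁻¹) := by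
  induction r with
  | zero => exact fun x _ _ => trivial
  | succ r ih =>
    intro x hp1 hp2
    have hsm : ∀ w : X, (v * u⁻¹) • (u • w) = v • w := fun w => by
      rw [mul_smul, inv_smul_smul]
    refine ⟨fun w => ?_, fun w hw => ?_⟩
    · obtain ⟨w', rfl⟩ : ∃ w', w = u • w' := ⟨u⁻¹ • w, (smul_inv_smul u w).symm⟩
      rw [hsm, hsm, ← h1, ← h2, ← hp1.1 w', ← hp2.1 w']
    · obtain ⟨w', rfl⟩ : ∃ w', w = u • w' := ⟨u⁻¹ • w, (smul_inv_smul u w).symm⟩
      have h3 : AdjZ x w' := (hp1.1 w').mpr ((h1 x w').mpr hw)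
      exact ih w' (hp1.2 w' h3) (hp2.2 w' h3)

variable {ι : Type*} [Fintype ι] [DecidableEq ι]

theorem finite_classes [Nonempty ι] (hn : 2 ≤ Fintype.card ι) (c d : ℝ) (hc : 0 < c)
    (L : Matrix ι ι ℝ) (hL : L ∈ Good c d) (R : ℕ) :
    Finite (Local.Q (Matrix ι ι ℤ)ˣ (AdjW L) R) := by
  by_contra hinf
  rw [not_finite_iff_infinite] at hinf
  obtain ⟨f, hfinj⟩ : ∃ f : ℕ → Local.Q (Matrix ι ι ℤ)ˣ (AdjW L) R, Function.Injective f :=
    ⟨_, (Infinite.natEmbedding (Local.Q (Matrix ι ι ℤ)ˣ (AdjW L) R)).injective⟩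
  have hdet := good_det_ne hc hL
  have hmin := hL.2.2
  choose x hx using fun k => Local.cls_surj (f k)
  obtain ⟨N, hN0, hN⟩ := node_norm L hdet c hc hmin
  have hxpos : ∀ k i, 0 < L.mulVec (fun j => ((x k).1 j : ℝ)) i :=
    fun k i => (AdjW.inC (x k).2).pos hc hmin i
  set n : ℕ := Fintype.card ι with hnn
  have hn0 : n ≠ 0 := by omega
  have hroot : ∀ k, ∃ l : ℝ, 0 < l ∧ l ^ n = ∏ i, L.mulVec (fun j => ((x k).1 j : ℝ)) i :=
    fun k => ⟨_, Real.rpow_pos_of_pos (Finset.prod_pos (fun i _ => hxpos k i)) _,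
      Real.rpow_inv_natCast_pow (Finset.prod_pos (fun i _ => hxpos k i)).le hn0⟩
  choose l hl0 hl using hroot
  have hlle : ∀ k, l k ≤ max 1 N := by
    intro k
    rcases le_total (l k) 1 with h | h
    · exact h.trans (le_max_left _ _)
    · refine le_trans ?_ (le_max_right _ _)
      refine (le_self_pow₀ h hn0).trans ?_
      rw [hl k]
      exact hN _ (x k).2
  set s : ℕ → ι → ℝ := fun k i => L.mulVec (fun j => ((x k).1 j : ℝ)) i / l k with hs
  have hs0 : ∀ k i, 0 < s k i := fun k i => div_pos (hxpos k i) (hl0 k)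
  have hs1 : ∀ k, ∏ i, s k i = 1 := fun k => by
    rw [hs]
    simp only
    rw [Finset.prod_div_distrib, Finset.prod_const, Finset.card_univ, ← hl k, hnn,
      div_self (pow_ne_zero _ (hl0 k).ne')]
  obtain ⟨Z, ψ, U, hψ, hU, hlim, hZ⟩ := local_limit c d hc Set.univ isClosed_univ
    (fun _ => L) (fun _ => hL) s hs0 hs1
    (fun k => (k : ℝ)) tendsto_natCast_atTop_atTop (fun _ _ _ _ => trivial)
  have hZgood := hZ.1
  have hZdet := good_det_ne hc hZgood
  set B : ℕ → Matrix ι ι ℝ := fun k => Matrix.diagonal (fun i => (s (ψ k) i)⁻¹) *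
      (L * (U k).map (Int.cast : ℤ → ℝ)) with hB
  have hBgood : ∀ k, B k ∈ Good c d := fun k =>
    good_transform c d _ hL _ (by rw [Finset.prod_inv_distrib, hs1, inv_one]) _ (hU k)
  choose W hW using fun k => (Matrix.isUnit_iff_isUnit_det (U k)).mpr (hU k)
  have hconj : ∀ k a b, AdjW (B k) a b ↔ AdjW L (W k • a) (W k • b) := by
    intro k a b
    rw [act_def, act_def, hW]
    exact adjW_scaled L _ (fun i => inv_pos.mpr (hs0 _ i)) (U k) (hU k) a b
  set y : ℕ → ι → ℤ := fun k => (W k)⁻¹ • (x (ψ k)).1 with hy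
  have hWy : ∀ k, W k • y k = (x (ψ k)).1 := fun k => smul_inv_smul _ _
  have hynode : ∀ k, AdjW (B k) (y k) (y k) := fun k => by
    rw [hconj, hWy]
    exact (x (ψ k)).2
  have hyval : ∀ k i, (B k).mulVec (fun j => (y k j : ℝ)) i = l (ψ k) := by
    intro k i
    have h1 := hWy k
    rw [act_def, hW] at h1
    rw [hB]
    simp only
    rw [scaled_row, h1, hs]
    simp only
    rw [inv_div, div_mul_cancel₀ _ (hxpos _ i).ne']
  obtain ⟨C, hC0, hC⟩ := bound_near B Z hZdet hlim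
  set S : ℝ := ∑ _i : ι, max 1 N with hS
  have hfin := box_finite (ι := ι) (C * S)
  have hev : ∀ᶠ k in atTop, ∀ j, |(y k j : ℝ)| ≤ C * S := by
    filter_upwards [hC] with k hCk j
    refine (hCk (fun j => (y k j : ℝ)) j).trans (mul_le_mul_of_nonneg_left ?_ hC0.le)
    refine Finset.sum_le_sum (fun i _ => ?_)
    rw [hyval, abs_of_pos (hl0 _)]
    exact hlle _
  obtain ⟨M, hM⟩ := eventually_atTop.mp hev
  have hfin' : Finite {y : ι → ℤ | ∀ j, |(y j : ℝ)| ≤ C * S} := hfin.to_subtype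
  obtain ⟨⟨y0, hy0⟩, φ, hφ, hφy⟩ := pigeon_seq (fun k =>
    (⟨y (k + M), hM (k + M) (Nat.le_add_left _ _)⟩ : {y : ι → ℤ | ∀ j, |(y j : ℝ)| ≤ C * S}))
  have hφy' : ∀ k, y (φ k + M) = y0 := fun k => congrArg Subtype.val (hφy k)
  have hφt : Tendsto (fun k => φ k + M) atTop atTop :=
    tendsto_atTop_mono (fun k => Nat.le_add_right _ _) hφ.tendsto_atTop
  have hB2 : Tendsto (fun k => B (φ k + M)) atTop (𝓝 Z) := hlim.comp hφt
  have hnode2 : ∀ k, AdjW (B (φ k + M)) y0 y0 := fun k => by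
    have h1 := hynode (φ k + M)
    rwa [hφy'] at h1
  have hy0C : InC Z y0 := by
    obtain ⟨k, hk⟩ := (inC_limit c hc Z hZgood.2.2 _ hB2 y0).exists
    exact hk.mp (hnode2 k).inC
  have hy0Z : AdjW Z y0 y0 := by
    obtain ⟨k, hk⟩ := (adj_backward hn c hc Z hZdet hZgood.2.2 _ hB2
      (fun k => (hBgood _).2.2) y0 hy0C).exists
    exact hk y0 (hnode2 k)
  obtain ⟨k0, hk0⟩ := eventually_atTop.mp (patch_limit hn c hc Z hZdet hZgood.2.2 _ hB2
    (fun k => (hBgood _).2.2) R y0 hy0Z)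
  have h1 := hk0 k0 le_rfl
  have h2 := hk0 (k0 + 1) (Nat.le_succ _)
  have h3 := Local.PIso.of_two (Adj := AdjW L) (W (φ k0 + M)) (W (φ (k0 + 1) + M))
    (hconj _) (hconj _) R y0 h1 h2
  have h4 : W (φ k0 + M) • y0 = (x (ψ (φ k0 + M))).1 := by
    have h5 := hWy (φ k0 + M)
    rwa [hφy'] at h5
  have h5 : W (φ (k0 + 1) + M) • y0 = (x (ψ (φ (k0 + 1) + M))).1 := by
    have h6 := hWy (φ (k0 + 1) + M)
    rwa [hφy'] at h6
  have h6 : f (ψ (φ k0 + M)) = f (ψ (φ (k0 + 1) + M)) := by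
    rw [← hx, ← hx, Local.cls_eq]
    refine ⟨W (φ (k0 + 1) + M) * (W (φ k0 + M))⁻¹, ?_, ?_⟩
    · rw [← h4, ← h5, mul_smul, inv_smul_smul]
    · rw [← h4]
      exact h3
  have h7 := hψ.injective (hfinj h6)
  have h8 := hφ (Nat.lt_succ_self k0)
  have h9 : Nat.succ k0 = k0 + 1 := rfl
  rw [h9] at h8
  omega

end Pool.Agent.H83.Sail
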