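import Mathlib
import Pool.Agent.H83.Sail.Fincl

/-!
# Integer matrices that are almost diagonal in the coordinates of the forms
-/

namespace Pool.Agent.H83.Sail

variable {ι : Type*} [Fintype ι] [DecidableEq ι]

/-- An integer matrix in the coordinates given by `P`. -/
noncomputable def cj (P : Matrix ι ι ℝ) (X : Matrix ι ι ℤ) : Matrix ι ι ℝ :=
  P * X.map (Int.cast : ℤ → ℝ) * P⁻¹

/-- Forms with norm minimum at least `c` and a bounded basis. -/
structure Adapted (c R₁ : ℝ) (P : Matrix ι ι ℝ) : Prop where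
  det : P.det ≠ 0
  min : ∀ z : ι → ℤ, z ≠ 0 → c ≤ |∏ i, P.mulVec (fun j => (z j : ℝ)) i|
  basis : ∃ U : Matrix ι ι ℤ, IsUnit U.det ∧
    ∀ i j, |(P * U.map (Int.cast : ℤ → ℝ)) i j| ≤ R₁

omit [DecidableEq ι] in
theorem map_cast_mul (X Y : Matrix ι ι ℤ) : (X * Y).map (Int.cast : ℤ → ℝ) =
    X.map (Int.cast : ℤ → ℝ) * Y.map (Int.cast : ℤ → ℝ) :=
  Matrix.map_mul (f := Int.castRingHom ℝ)

/-- The passage to the coordinates given by `P` as a ring homomorphism. -/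
noncomputable def cjHom (P : Matrix ι ι ℝ) (hP : P.det ≠ 0) : Matrix ι ι ℤ →+* Matrix ι ι ℝ where
  toFun := cj P
  map_one' := by
    have hunit : IsUnit P.det := isUnit_iff_ne_zero.mpr hP
    rw [cj, Matrix.map_one _ Int.cast_zero Int.cast_one, Matrix.mul_one,
      Matrix.mul_nonsing_inv P hunit]
  map_mul' X Y := by
    have hunit : IsUnit P.det := isUnit_iff_ne_zero.mpr hP
    rw [cj, cj, cj, map_cast_mul]
    have h3 : (P * X.map (Int.cast : ℤ → ℝ) * P⁻¹) * (P * Y.map (Int.cast : ℤ → ℝ) * P⁻¹) =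
        P * X.map (Int.cast : ℤ → ℝ) * (P⁻¹ * P) * Y.map (Int.cast : ℤ → ℝ) * P⁻¹ := by
      simp only [Matrix.mul_assoc]
    rw [h3, Matrix.nonsing_inv_mul P hunit, Matrix.mul_one]
    simp only [Matrix.mul_assoc]
  map_zero' := by
    rw [cj, Matrix.map_zero _ Int.cast_zero, Matrix.mul_zero, Matrix.zero_mul]
  map_add' X Y := by
    have h1 : (X + Y).map (Int.cast : ℤ → ℝ) =
        X.map (Int.cast : ℤ → ℝ) + Y.map (Int.cast : ℤ → ℝ) := by
      ext i j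
      simp
    rw [cj, cj, cj, h1, Matrix.mul_add, Matrix.add_mul]

theorem cjHom_apply (P : Matrix ι ι ℝ) (hP : P.det ≠ 0) (X : Matrix ι ι ℤ) :
    cjHom P hP X = cj P X := rfl

theorem cj_mul (P : Matrix ι ι ℝ) (hP : P.det ≠ 0) (X Y : Matrix ι ι ℤ) :
    cj P (X * Y) = cj P X * cj P Y := map_mul (cjHom P hP) X Y

theorem cj_one (P : Matrix ι ι ℝ) (hP : P.det ≠ 0) : cj P (1 : Matrix ι ι ℤ) = 1 :=
  map_one (cjHom P hP)

theorem cj_sub (P : Matrix ι ι ℝ) (hP : P.det ≠ 0) (X Y : Matrix ι ι ℤ) :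
    cj P (X - Y) = cj P X - cj P Y := map_sub (cjHom P hP) X Y

theorem cj_det (P : Matrix ι ι ℝ) (hP : P.det ≠ 0) (X : Matrix ι ι ℤ) :
    (cj P X).det = ((X.det : ℤ) : ℝ) := by
  have hunit : IsUnit P.det := isUnit_iff_ne_zero.mpr hP
  have h1 : (X.map (Int.cast : ℤ → ℝ)).det = ((X.det : ℤ) : ℝ) :=
    ((Int.castRingHom ℝ).map_det X).symm
  rw [cj, Matrix.det_mul, Matrix.det_mul, h1, mul_comm P.det, mul_assoc, ← Matrix.det_mul,
    Matrix.mul_nonsing_inv P hunit, Matrix.det_one, mul_one]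

/-- `P w = (cj P X) (P z)` for `w = X z`. -/
theorem cj_mulVec (P : Matrix ι ι ℝ) (hP : P.det ≠ 0) (X : Matrix ι ι ℤ) (z : ι → ℤ) :
    (cj P X).mulVec (P.mulVec (fun j => (z j : ℝ))) =
      P.mulVec (fun j => ((X.mulVec z j : ℤ) : ℝ)) := by
  have hunit : IsUnit P.det := isUnit_iff_ne_zero.mpr hP
  rw [cj, Matrix.mulVec_mulVec, Matrix.mul_assoc, Matrix.nonsing_inv_mul P hunit,
    Matrix.mul_one, ← Matrix.mulVec_mulVec, mulVec_cast]

/-- A nonzero integer matrix has a column with norm at least `c`. -/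
theorem nz_col {c R₁ : ℝ} {P : Matrix ι ι ℝ} (h : Adapted c R₁ P) (X : Matrix ι ι ℤ)
    (hX : X ≠ 0) : ∃ m : ι → ℝ, (∀ k, |m k| ≤ R₁) ∧ c ≤ |∏ i, ∑ k, cj P X i k * m k| := by
  obtain ⟨U, hU, hUR⟩ := h.basis
  have hunit : IsUnit P.det := isUnit_iff_ne_zero.mpr h.det
  have hXU : X * U ≠ 0 := by
    intro h0
    apply hX
    have h1 : X * U * U⁻¹ = X := by
      rw [Matrix.mul_assoc, Matrix.mul_nonsing_inv U hU, Matrix.mul_one]
    rw [← h1, h0, Matrix.zero_mul]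
  obtain ⟨j, hj⟩ : ∃ j, (X * U).mulVec (Pi.single j 1) ≠ 0 := by
    by_contra hcon
    push Not at hcon
    apply hXU
    ext i j
    have h1 := congrFun (hcon j) i
    rw [Matrix.mulVec_single_one] at h1
    exact h1
  refine ⟨fun k => (P * U.map (Int.cast : ℤ → ℝ)) k j, fun k => hUR k j, ?_⟩
  have h1 := h.min _ hj
  have h2 : P.mulVec (fun k => (((X * U).mulVec (Pi.single j 1) k : ℤ) : ℝ)) =
      fun i => ∑ k, cj P X i k * (P * U.map (Int.cast : ℤ → ℝ)) k j := by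
    rw [← Matrix.mulVec_mulVec, ← cj_mulVec P h.det]
    funext i
    have h3 : P.mulVec (fun k => ((U.mulVec (Pi.single j 1) k : ℤ) : ℝ)) =
        fun k => (P * U.map (Int.cast : ℤ → ℝ)) k j := by
      rw [mulVec_cast, Matrix.mulVec_mulVec]
      funext k
      have h4 : (fun l => ((((Pi.single j 1 : ι → ℤ) l : ℤ)) : ℝ)) = Pi.single j 1 := by
        funext l
        rw [Pi.single_apply, Pi.single_apply]
        split_ifs <;> simp
      rw [h4, Matrix.mulVec_single_one]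
      rfl
    rw [h3]
    rfl
  rw [h2] at h1
  exact h1

/-- Small integer matrices vanish. -/
theorem small_zero [Nonempty ι] {c R₁ : ℝ} (_hR₁ : 0 ≤ R₁) {P : Matrix ι ι ℝ}
    (h : Adapted c R₁ P) (X : Matrix ι ι ℤ) (δ : ℝ) (hδ : ∀ i j, |cj P X i j| ≤ δ)
    (hc : (Fintype.card ι * δ * R₁) ^ Fintype.card ι < c) : X = 0 := by
  by_contra hX
  obtain ⟨m, hm, hcm⟩ := nz_col h X hX
  obtain ⟨i0⟩ := (inferInstance : Nonempty ι)
  have hδ0 : 0 ≤ δ := (abs_nonneg _).trans (hδ i0 i0)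
  have h1 : ∀ i, |∑ k, cj P X i k * m k| ≤ Fintype.card ι * δ * R₁ := by
    intro i
    refine (Finset.abs_sum_le_sum_abs _ _).trans ?_
    have h2 : ∀ k ∈ Finset.univ, |cj P X i k * m k| ≤ δ * R₁ := fun k _ => by
      rw [abs_mul]
      exact mul_le_mul (hδ i k) (hm k) (abs_nonneg _) hδ0
    have h3 := Finset.sum_le_card_nsmul Finset.univ _ _ h2
    rw [Finset.card_univ, nsmul_eq_mul, ← mul_assoc] at h3
    exact h3
  rw [Finset.abs_prod] at hcm
  have h2 : ∏ i, |∑ k, cj P X i k * m k| ≤ ∏ _i : ι, (Fintype.card ι * δ * R₁) :=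
    Finset.prod_le_prod (fun i _ => abs_nonneg _) (fun i _ => h1 i)
  rw [Finset.prod_const, Finset.card_univ] at h2
  linarith

/-- Almost diagonal nonzero integer matrices have large diagonal entries. -/
theorem diag_large {c R₁ : ℝ} (hR₁ : 0 < R₁) {P : Matrix ι ι ℝ}
    (h : Adapted c R₁ P) (X : Matrix ι ι ℤ) (hX : X ≠ 0) (δ Λ : ℝ) (hδ0 : 0 ≤ δ)
    (hδ : ∀ i j, i ≠ j → |cj P X i j| ≤ δ) (hΛ : ∀ i, |cj P X i i| ≤ Λ)
    (hδΛ : Fintype.card ι * δ ≤ Λ) (i : ι) :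
    c / (R₁ * (2 * Λ * R₁) ^ (Fintype.card ι - 1)) - Fintype.card ι * δ ≤ |cj P X i i| := by
  obtain ⟨m, hm, hcm⟩ := nz_col h X hX
  have hn0 : (0 : ℝ) ≤ Fintype.card ι := Nat.cast_nonneg _
  have h1 : ∀ i, |∑ k, cj P X i k * m k| ≤ (|cj P X i i| + Fintype.card ι * δ) * R₁ := by
    intro i
    refine (Finset.abs_sum_le_sum_abs _ _).trans ?_
    rw [← Finset.add_sum_erase Finset.univ _ (Finset.mem_univ i), add_mul]
    refine add_le_add ?_ ?_
    · rw [abs_mul]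
      exact mul_le_mul_of_nonneg_left (hm i) (abs_nonneg _)
    · have h2 : ∀ k ∈ Finset.univ.erase i, |cj P X i k * m k| ≤ δ * R₁ := fun k hk => by
        rw [abs_mul]
        exact mul_le_mul (hδ i k (Finset.ne_of_mem_erase hk).symm) (hm k) (abs_nonneg _) hδ0
      have h3 := Finset.sum_le_card_nsmul (Finset.univ.erase i) _ _ h2
      refine h3.trans ?_
      rw [nsmul_eq_mul, mul_assoc]
      refine mul_le_mul_of_nonneg_right ?_ (mul_nonneg hδ0 hR₁.le)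
      have h4 : (Finset.univ.erase i).card ≤ Fintype.card ι := Finset.card_le_univ _
      exact_mod_cast h4
  have hΛ0 : 0 ≤ Λ := (abs_nonneg _).trans (hΛ i)
  have h2 : ∀ k, |∑ l, cj P X k l * m l| ≤ 2 * Λ * R₁ := by
    intro k
    refine (h1 k).trans (mul_le_mul_of_nonneg_right ?_ hR₁.le)
    linarith [hΛ k]
  rw [Finset.abs_prod, ← Finset.mul_prod_erase _ _ (Finset.mem_univ i)] at hcm
  have h3 : ∏ k ∈ Finset.univ.erase i, |∑ l, cj P X k l * m l| ≤
      (2 * Λ * R₁) ^ (Fintype.card ι - 1) := by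
    have h4 : ∏ k ∈ Finset.univ.erase i, |∑ l, cj P X k l * m l| ≤
        ∏ _k ∈ Finset.univ.erase i, (2 * Λ * R₁) :=
      Finset.prod_le_prod (fun k _ => abs_nonneg _) (fun k _ => h2 k)
    rwa [Finset.prod_const, Finset.card_erase_of_mem (Finset.mem_univ i),
      Finset.card_univ] at h4
  have hpow0 : 0 ≤ (2 * Λ * R₁) ^ (Fintype.card ι - 1) := by positivity
  have h4 : c ≤ (|cj P X i i| + Fintype.card ι * δ) * R₁ *
      (2 * Λ * R₁) ^ (Fintype.card ι - 1) := by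
    refine hcm.trans ?_
    exact mul_le_mul (h1 i) h3 (Finset.prod_nonneg (fun k _ => abs_nonneg _))
      (mul_nonneg (add_nonneg (abs_nonneg _) (mul_nonneg hn0 hδ0)) hR₁.le)
  rcases hpow0.eq_or_lt with h5 | h5
  · rw [← h5, mul_zero, div_zero]
    have := abs_nonneg (cj P X i i)
    have := mul_nonneg hn0 hδ0
    linarith
  · rw [sub_le_iff_le_add, div_le_iff₀ (mul_pos hR₁ h5)]
    linarith

/-- Almost diagonal integer matrices are zero or invertible. -/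
theorem zero_or_det {c R₁ : ℝ} (hc : 0 < c) (hR₁ : 0 < R₁) {P : Matrix ι ι ℝ}
    (h : Adapted c R₁ P) (X : Matrix ι ι ℤ) (δ Λ : ℝ) (hδ0 : 0 ≤ δ) (hΛ0 : 0 < Λ)
    (hδ : ∀ i j, i ≠ j → |cj P X i j| ≤ δ) (hΛ : ∀ i, |cj P X i i| ≤ Λ)
    (hδΛ : Fintype.card ι * δ ≤ Λ)
    (hsm : 3 * (Fintype.card ι * δ) ≤ c / (R₁ * (2 * Λ * R₁) ^ (Fintype.card ι - 1))) :
    X = 0 ∨ X.det ≠ 0 := by
  by_cases hX : X = 0
  · exact Or.inl hX
  refine Or.inr (fun hdet => ?_)
  have h1 : (cj P X).det = 0 := by rw [cj_det P h.det, hdet, Int.cast_zero]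
  refine det_ne_zero_of_sum_row_lt_diag (A := cj P X) (fun k => ?_) h1
  have h2 := diag_large hR₁ h X hX δ Λ hδ0 hδ hΛ hδΛ k
  have h3 : ∑ j ∈ Finset.univ.erase k, ‖cj P X k j‖ ≤ Fintype.card ι * δ := by
    have h4 : ∀ j ∈ Finset.univ.erase k, ‖cj P X k j‖ ≤ δ := fun j hj => by
      rw [Real.norm_eq_abs]
      exact hδ k j (Finset.ne_of_mem_erase hj).symm
    refine (Finset.sum_le_card_nsmul _ _ _ h4).trans ?_
    rw [nsmul_eq_mul]
    refine mul_le_mul_of_nonneg_right ?_ hδ0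
    have h5 : (Finset.univ.erase k).card ≤ Fintype.card ι := Finset.card_le_univ _
    exact_mod_cast h5
  have hpos : 0 < c / (R₁ * (2 * Λ * R₁) ^ (Fintype.card ι - 1)) := by positivity
  rw [Real.norm_eq_abs]
  linarith

end Pool.Agent.H83.Sail
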