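import Mathlib

/-!
# Polynomials in almost diagonal matrices
-/

namespace Pool.Agent.H83.Sail

open Polynomial

variable {ι : Type*} [Fintype ι] [DecidableEq ι]

theorem aeval_near [Nonempty ι] (G : Matrix ι ι ℂ) (δ Λ : ℝ) (hδ : 0 ≤ δ)
    (hn : Fintype.card ι * δ ≤ 1) (hΛ : 1 ≤ Λ) (hoff : ∀ i j, i ≠ j → ‖G i j‖ ≤ δ)
    (hd : ∀ i, ‖G i i‖ ≤ Λ) (k : ℕ) : ∀ p : ℂ[X], p.Monic → p.natDegree = k →
      (∀ z, p.IsRoot z → ‖z‖ ≤ Λ) →
      (∀ z : ℂ, ‖z‖ ≤ Λ → ‖p.eval z‖ ≤ (2 * Λ) ^ k) ∧
      (∀ i, ‖(aeval G p) i i - p.eval (G i i)‖ ≤ (6 * Λ) ^ k * δ) ∧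
      (∀ i j, i ≠ j → ‖(aeval G p) i j‖ ≤ (6 * Λ) ^ k * δ) := by
  induction k with
  | zero =>
    intro p hp hk _
    have h1 : p = 1 := hp.natDegree_eq_zero.mp hk
    subst h1
    refine ⟨fun z _ => by simp, fun i => ?_, fun i j hij => ?_⟩
    · rw [map_one, Matrix.one_apply_eq, eval_one, sub_self, norm_zero]
      positivity
    · rw [map_one, Matrix.one_apply_ne hij, norm_zero]
      positivity
  | succ k ih =>
    intro p hp hk hroot
    have hdeg : p.degree ≠ 0 := by
      intro h0
      have h1 := natDegree_eq_of_degree_eq_some h0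
      rw [hk] at h1
      exact Nat.succ_ne_zero k h1
    obtain ⟨l, hl⟩ := IsAlgClosed.exists_root p hdeg
    obtain ⟨q, hq⟩ := dvd_iff_isRoot.mpr hl
    have hqm : q.Monic := by
      have h1 : (X - C l).Monic := monic_X_sub_C l
      exact Monic.of_mul_monic_left h1 (hq ▸ hp)
    have hqk : q.natDegree = k := by
      have h1 : p.natDegree = (X - C l).natDegree + q.natDegree := by
        rw [hq, (monic_X_sub_C l).natDegree_mul hqm]
      rw [hk, natDegree_X_sub_C] at h1
      omega
    have hqroot : ∀ z, q.IsRoot z → ‖z‖ ≤ Λ := by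
      intro z hz
      refine hroot z ?_
      rw [hq, IsRoot, eval_mul, hz.eq_zero, mul_zero]
    obtain ⟨ih1, ih2, ih3⟩ := ih q hqm hqk hqroot
    have hlΛ : ‖l‖ ≤ Λ := hroot l hl
    have heval : ∀ z, p.eval z = (z - l) * q.eval z := fun z => by
      rw [hq, eval_mul, eval_sub, eval_X, eval_C]
    have haev : aeval G p = (G - l • (1 : Matrix ι ι ℂ)) * aeval G q := by
      rw [hq, map_mul, map_sub, aeval_X, aeval_C, Algebra.algebraMap_eq_smul_one]
    have hentry : ∀ i j, (aeval G p) i j =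
        (G i i - l) * (aeval G q) i j + ∑ m ∈ Finset.univ.erase i, G i m * (aeval G q) m j := by
      intro i j
      rw [haev, Matrix.mul_apply, ← Finset.add_sum_erase Finset.univ _ (Finset.mem_univ i)]
      congr 1
      · rw [Matrix.sub_apply, Matrix.smul_apply, Matrix.one_apply_eq, smul_eq_mul, mul_one]
      · refine Finset.sum_congr rfl (fun m hm => ?_)
        rw [Matrix.sub_apply, Matrix.smul_apply,
          Matrix.one_apply_ne (Finset.ne_of_mem_erase hm).symm, smul_zero, sub_zero]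
    have h6 : (0 : ℝ) ≤ (6 * Λ) ^ k := by positivity
    have hsub : ∀ z : ℂ, ‖z‖ ≤ Λ → ‖z - l‖ ≤ 2 * Λ := fun z hz =>
      (norm_sub_le z l).trans (by linarith)
    have hδ1 : δ ≤ 1 := by
      have h1 : (1 : ℝ) ≤ Fintype.card ι := by exact_mod_cast Fintype.card_pos
      nlinarith
    refine ⟨fun z hz => ?_, fun i => ?_, fun i j hij => ?_⟩
    · rw [heval, norm_mul, pow_succ, mul_comm]
      exact mul_le_mul (ih1 z hz) (hsub z hz) (norm_nonneg _) (by positivity)
    · rw [hentry i i, heval]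
      have h1 : (G i i - l) * (aeval G q) i i + ∑ m ∈ Finset.univ.erase i,
          G i m * (aeval G q) m i - (G i i - l) * q.eval (G i i) =
          (G i i - l) * ((aeval G q) i i - q.eval (G i i)) + ∑ m ∈ Finset.univ.erase i,
          G i m * (aeval G q) m i := by ring
      rw [h1]
      refine (norm_add_le _ _).trans ?_
      have h2 : ‖(G i i - l) * ((aeval G q) i i - q.eval (G i i))‖ ≤
          2 * Λ * ((6 * Λ) ^ k * δ) := by
        rw [norm_mul]
        exact mul_le_mul (hsub _ (hd i)) (ih2 i) (norm_nonneg _) (by positivity)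
      have h3 : ‖∑ m ∈ Finset.univ.erase i, G i m * (aeval G q) m i‖ ≤ (6 * Λ) ^ k * δ := by
        refine (norm_sum_le _ _).trans ?_
        have h4 : ∀ m ∈ Finset.univ.erase i, ‖G i m * (aeval G q) m i‖ ≤
            δ * ((6 * Λ) ^ k * δ) := fun m hm => by
          rw [norm_mul]
          exact mul_le_mul (hoff i m (Finset.ne_of_mem_erase hm).symm)
            (ih3 m i (Finset.ne_of_mem_erase hm)) (norm_nonneg _) hδ
        refine (Finset.sum_le_card_nsmul _ _ _ h4).trans ?_
        rw [nsmul_eq_mul]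
        have h5 : ((Finset.univ.erase i).card : ℝ) ≤ Fintype.card ι := by
          exact_mod_cast Finset.card_le_univ _
        calc ((Finset.univ.erase i).card : ℝ) * (δ * ((6 * Λ) ^ k * δ)) ≤
            Fintype.card ι * (δ * ((6 * Λ) ^ k * δ)) :=
              mul_le_mul_of_nonneg_right h5 (by positivity)
          _ = (Fintype.card ι * δ) * ((6 * Λ) ^ k * δ) := by ring
          _ ≤ 1 * ((6 * Λ) ^ k * δ) := mul_le_mul_of_nonneg_right hn (by positivity)
          _ = (6 * Λ) ^ k * δ := one_mul _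
      have h7 : (6 * Λ) ^ (k + 1) * δ = 6 * Λ * ((6 * Λ) ^ k * δ) := by ring
      have h8 : 0 ≤ (6 * Λ) ^ k * δ := by positivity
      rw [h7]
      nlinarith
    · rw [hentry i j]
      refine (norm_add_le _ _).trans ?_
      have h2 : ‖(G i i - l) * (aeval G q) i j‖ ≤ 2 * Λ * ((6 * Λ) ^ k * δ) := by
        rw [norm_mul]
        exact mul_le_mul (hsub _ (hd i)) (ih3 i j hij) (norm_nonneg _) (by positivity)
      have hq6 : ∀ m, ‖(aeval G q) m j‖ ≤ 2 * (6 * Λ) ^ k := by
        intro m
        rcases eq_or_ne m j with rfl | hmj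
        · have h3 := norm_add_le ((aeval G q) m m - q.eval (G m m)) (q.eval (G m m))
          rw [sub_add_cancel] at h3
          have h4 := ih1 (G m m) (hd m)
          have h5 : (2 * Λ) ^ k ≤ (6 * Λ) ^ k :=
            pow_le_pow_left₀ (by positivity) (by linarith) k
          have h7 : (6 * Λ) ^ k * δ ≤ (6 * Λ) ^ k := mul_le_of_le_one_right h6 hδ1
          linarith [ih2 m]
        · have h7 : (6 * Λ) ^ k * δ ≤ (6 * Λ) ^ k := mul_le_of_le_one_right h6 hδ1
          linarith [ih3 m j hmj]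
      have h3 : ‖∑ m ∈ Finset.univ.erase i, G i m * (aeval G q) m j‖ ≤
          3 * ((6 * Λ) ^ k * δ) := by
        have hjm : j ∈ Finset.univ.erase i := Finset.mem_erase.mpr ⟨hij.symm, Finset.mem_univ j⟩
        rw [← Finset.add_sum_erase _ _ hjm]
        refine (norm_add_le _ _).trans ?_
        have h4 : ‖G i j * (aeval G q) j j‖ ≤ δ * (2 * (6 * Λ) ^ k) := by
          rw [norm_mul]
          exact mul_le_mul (hoff i j hij) (hq6 j) (norm_nonneg _) hδ
        have h5 : ‖∑ m ∈ (Finset.univ.erase i).erase j, G i m * (aeval G q) m j‖ ≤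
            (6 * Λ) ^ k * δ := by
          refine (norm_sum_le _ _).trans ?_
          have h4 : ∀ m ∈ (Finset.univ.erase i).erase j, ‖G i m * (aeval G q) m j‖ ≤
              δ * ((6 * Λ) ^ k * δ) := fun m hm => by
            rw [norm_mul]
            have hm1 := Finset.mem_erase.mp hm
            exact mul_le_mul (hoff i m (Finset.ne_of_mem_erase hm1.2).symm)
              (ih3 m j hm1.1) (norm_nonneg _) hδ
          refine (Finset.sum_le_card_nsmul _ _ _ h4).trans ?_
          rw [nsmul_eq_mul]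
          have h5 : (((Finset.univ.erase i).erase j).card : ℝ) ≤ Fintype.card ι := by
            exact_mod_cast Finset.card_le_univ _
          calc (((Finset.univ.erase i).erase j).card : ℝ) * (δ * ((6 * Λ) ^ k * δ)) ≤
              Fintype.card ι * (δ * ((6 * Λ) ^ k * δ)) :=
                mul_le_mul_of_nonneg_right h5 (by positivity)
            _ = (Fintype.card ι * δ) * ((6 * Λ) ^ k * δ) := by ring
            _ ≤ 1 * ((6 * Λ) ^ k * δ) := mul_le_mul_of_nonneg_right hn (by positivity)
            _ = (6 * Λ) ^ k * δ := one_mul _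
        have h7 : δ * (2 * (6 * Λ) ^ k) = 2 * ((6 * Λ) ^ k * δ) := by ring
        linarith
      have h7 : (6 * Λ) ^ (k + 1) * δ = 6 * Λ * ((6 * Λ) ^ k * δ) := by ring
      have h8 : 0 ≤ (6 * Λ) ^ k * δ := by positivity
      rw [h7]
      nlinarith

end Pool.Agent.H83.Sail
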