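import Mathlib
import Pool.Agent.H83.Sail.Adm
import Pool.Agent.H83.Sail.Npoly

/-!
# Almost diagonal integer matrices have irreducible minimal polynomials
-/

namespace Pool.Agent.H83.Sail

open Polynomial

/-- A property that holds as soon as `C Γ ^ k δ ≤ 1` for suitable constants `C`, `k`. -/
def Sm (F : ℝ → ℝ → Prop) : Prop :=
  ∃ (C : ℝ) (k : ℕ), 0 < C ∧ ∀ Γ δ : ℝ, 1 ≤ Γ → 0 ≤ δ → C * Γ ^ k * δ ≤ 1 → F Γ δ

theorem Sm.mono {F G : ℝ → ℝ → Prop} (h : ∀ Γ δ : ℝ, 1 ≤ Γ → 0 ≤ δ → F Γ δ → G Γ δ)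
    (hF : Sm F) : Sm G := by
  obtain ⟨C, k, hC, hF⟩ := hF
  exact ⟨C, k, hC, fun Γ δ h1 h2 h3 => h Γ δ h1 h2 (hF Γ δ h1 h2 h3)⟩

theorem Sm.and {F G : ℝ → ℝ → Prop} (hF : Sm F) (hG : Sm G) : Sm (fun Γ δ => F Γ δ ∧ G Γ δ) := by
  obtain ⟨C, k, hC, hF⟩ := hF
  obtain ⟨D, l, hD, hG⟩ := hG
  refine ⟨C + D, k + l, by positivity, fun Γ δ h1 h2 h3 => ⟨hF Γ δ h1 h2 ?_, hG Γ δ h1 h2 ?_⟩⟩
  · refine le_trans ?_ h3
    refine mul_le_mul_of_nonneg_right ?_ h2
    exact mul_le_mul (by linarith) (pow_le_pow_right₀ h1 (by omega)) (by positivity)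
      (by positivity)
  · refine le_trans ?_ h3
    refine mul_le_mul_of_nonneg_right ?_ h2
    exact mul_le_mul (by linarith) (pow_le_pow_right₀ h1 (by omega)) (by positivity)
      (by positivity)

theorem Sm.base (a b : ℝ) (hb : 0 < b) (k : ℕ) : Sm (fun Γ δ => a * Γ ^ k * δ ≤ b) := by
  refine ⟨(|a| + 1) / b, k, by positivity, fun Γ δ h1 h2 h3 => ?_⟩
  have h4 : (|a| + 1) / b * Γ ^ k * δ = (|a| + 1) * (Γ ^ k * δ) / b := by ring
  rw [h4, div_le_one hb] at h3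
  refine le_trans ?_ h3
  rw [mul_assoc]
  refine mul_le_mul_of_nonneg_right ?_ (by positivity)
  have := le_abs_self a
  linarith

variable {ι : Type*} [Fintype ι] [DecidableEq ι]

theorem cj_charpoly (P : Matrix ι ι ℝ) (hP : P.det ≠ 0) (h : Matrix ι ι ℤ) :
    (cj P h).charpoly = h.charpoly.map (Int.castRingHom ℝ) := by
  have hunit : IsUnit P.det := isUnit_iff_ne_zero.mpr hP
  obtain ⟨U, hU⟩ := (Matrix.isUnit_iff_isUnit_det P).mpr hunit
  have h1 := Matrix.charpoly_units_conj U (h.map (Int.cast : ℤ → ℝ))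
  have h2 : (h.map (Int.cast : ℤ → ℝ)).charpoly = h.charpoly.map (Int.castRingHom ℝ) :=
    Matrix.charpoly_map h (Int.castRingHom ℝ)
  rw [← h2, ← h1, cj, hU]

/-- The complex matrix. -/
noncomputable def cx (G : Matrix ι ι ℝ) : Matrix ι ι ℂ := G.map (Complex.ofRealHom)

/-- Complex roots of the characteristic polynomial are bounded. -/
theorem root_bound (P : Matrix ι ι ℝ) (hP : P.det ≠ 0) (h : Matrix ι ι ℤ) (δ Γ : ℝ)
    (hδ : 0 ≤ δ) (hn : Fintype.card ι * δ ≤ 1) (hoff : ∀ i j, i ≠ j → |cj P h i j| ≤ δ)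
    (hd : ∀ i, |cj P h i i| ≤ Γ) (z : ℂ) (hz : (h.charpoly.map (Int.castRingHom ℂ)).IsRoot z) :
    ‖z‖ ≤ Γ + 1 := by
  have h1 : (cx (cj P h)).charpoly = h.charpoly.map (Int.castRingHom ℂ) := by
    have h2 : (cx (cj P h)).charpoly = (cj P h).charpoly.map Complex.ofRealHom :=
      Matrix.charpoly_map _ _
    rw [h2, cj_charpoly P hP, Polynomial.map_map]
    congr 1
  rw [← h1] at hz
  have h2 : Module.End.HasEigenvalue (Matrix.toLin' (cx (cj P h))) z := by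
    rw [Module.End.hasEigenvalue_iff_isRoot_charpoly, Matrix.charpoly_toLin']
    exact hz
  obtain ⟨k, hk⟩ := eigenvalue_mem_ball h2
  rw [Metric.mem_closedBall, dist_eq_norm] at hk
  have h3 : ∑ j ∈ Finset.univ.erase k, ‖cx (cj P h) k j‖ ≤ 1 := by
    have h4 : ∀ j ∈ Finset.univ.erase k, ‖cx (cj P h) k j‖ ≤ δ := fun j hj => by
      have h5 : cx (cj P h) k j = ((cj P h k j : ℝ) : ℂ) := rfl
      rw [h5, Complex.norm_real, Real.norm_eq_abs]
      exact hoff k j (Finset.ne_of_mem_erase hj).symm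
    refine ((Finset.sum_le_card_nsmul _ _ _ h4).trans ?_).trans hn
    rw [nsmul_eq_mul]
    refine mul_le_mul_of_nonneg_right ?_ hδ
    exact_mod_cast Finset.card_le_univ _
  have h4 : ‖cx (cj P h) k k‖ ≤ Γ := by
    have h5 : cx (cj P h) k k = ((cj P h k k : ℝ) : ℂ) := rfl
    rw [h5, Complex.norm_real, Real.norm_eq_abs]
    exact hd k
  have h5 := norm_add_le (z - cx (cj P h) k k) (cx (cj P h) k k)
  rw [sub_add_cancel] at h5
  linarith

theorem cx_aeval (P : Matrix ι ι ℝ) (hP : P.det ≠ 0) (h : Matrix ι ι ℤ) (f : ℤ[X]) :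
    aeval (cx (cj P h)) (f.map (Int.castRingHom ℂ)) = cx (cj P (aeval h f)) := by
  set φ : Matrix ι ι ℤ →+* Matrix ι ι ℂ :=
    (Complex.ofRealHom.mapMatrix).comp (cjHom P hP) with hφ
  have h1 : ∀ X, φ X = cx (cj P X) := fun X => rfl
  rw [← h1, ← h1, aeval_def, aeval_def, eval₂_map, hom_eval₂]
  congr 1
  exact RingHom.ext_int _ _

/-- Integer polynomials in an almost diagonal integer matrix. -/
theorem near_int [Nonempty ι] (P : Matrix ι ι ℝ) (hP : P.det ≠ 0) (h : Matrix ι ι ℤ) (δ Γ : ℝ)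
    (hδ : 0 ≤ δ) (hn : Fintype.card ι * δ ≤ 1) (hΓ : 1 ≤ Γ)
    (hoff : ∀ i j, i ≠ j → |cj P h i j| ≤ δ)
    (hd : ∀ i, |cj P h i i| ≤ Γ) (f : ℤ[X]) (hf : f.Monic)
    (hroot : ∀ z : ℂ, (f.map (Int.castRingHom ℂ)).IsRoot z → ‖z‖ ≤ Γ + 1) :
    (∀ z : ℂ, ‖z‖ ≤ Γ + 1 → ‖(f.map (Int.castRingHom ℂ)).eval z‖ ≤
      (2 * (Γ + 1)) ^ f.natDegree) ∧
    (∀ i, ‖((cj P (aeval h f) i i : ℝ) : ℂ) - (f.map (Int.castRingHom ℂ)).eval
      ((cj P h i i : ℝ) : ℂ)‖ ≤ (6 * (Γ + 1)) ^ f.natDegree * δ) ∧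
    (∀ i j, i ≠ j → |cj P (aeval h f) i j| ≤ (6 * (Γ + 1)) ^ f.natDegree * δ) := by
  have hdeg : (f.map (Int.castRingHom ℂ)).natDegree = f.natDegree := hf.natDegree_map _
  obtain ⟨h1, h2, h3⟩ := aeval_near (cx (cj P h)) δ (Γ + 1) hδ hn (by linarith)
    (fun i j hij => by
      have h5 : cx (cj P h) i j = ((cj P h i j : ℝ) : ℂ) := rfl
      rw [h5, Complex.norm_real, Real.norm_eq_abs]
      exact hoff i j hij)
    (fun i => by
      have h5 : cx (cj P h) i i = ((cj P h i i : ℝ) : ℂ) := rfl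
      rw [h5, Complex.norm_real, Real.norm_eq_abs]
      linarith [hd i]) f.natDegree (f.map (Int.castRingHom ℂ)) (hf.map _) hdeg hroot
  rw [cx_aeval P hP] at h2 h3
  refine ⟨h1, fun i => h2 i, fun i j hij => ?_⟩
  have h4 := h3 i j hij
  have h5 : cx (cj P (aeval h f)) i j = ((cj P (aeval h f) i j : ℝ) : ℂ) := rfl
  rw [h5, Complex.norm_real, Real.norm_eq_abs] at h4
  exact h4

theorem rat_map_aeval (h : Matrix ι ι ℤ) (f : ℤ[X]) :
    aeval (h.map (Int.cast : ℤ → ℚ)) (f.map (Int.castRingHom ℚ)) =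
      (aeval h f).map (Int.cast : ℤ → ℚ) := by
  set φ : Matrix ι ι ℤ →+* Matrix ι ι ℚ := (Int.castRingHom ℚ).mapMatrix with hφ
  have h1 : ∀ X : Matrix ι ι ℤ, φ X = X.map (Int.cast : ℤ → ℚ) := fun X => rfl
  rw [← h1, ← h1, aeval_def, aeval_def, eval₂_map, hom_eval₂]
  congr 1
  exact RingHom.ext_int _ _

/-- Factors of the characteristic polynomial give zero or an invertible matrix. -/
theorem fac [Nonempty ι] (c R₁ : ℝ) (hc : 0 < c) (hR₁ : 0 < R₁) :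
    Sm (fun Γ δ => ∀ P : Matrix ι ι ℝ, Adapted c R₁ P → ∀ h : Matrix ι ι ℤ,
      (∀ i j, i ≠ j → |cj P h i j| ≤ δ) → (∀ i, |cj P h i i| ≤ Γ) → ∀ f : ℤ[X], f.Monic →
      f ∣ h.charpoly → aeval h f = 0 ∨ (aeval h f).det ≠ 0) := by
  set n : ℕ := Fintype.card ι with hn
  have hn1 : 1 ≤ n := Fintype.card_pos
  have hn1' : (1 : ℝ) ≤ n := by exact_mod_cast hn1
  have hS1 : Sm (fun Γ δ => (n : ℝ) * Γ ^ 0 * δ ≤ 1) := Sm.base _ _ one_pos 0
  have hS2 : Sm (fun Γ δ => (n * 12 ^ n : ℝ) * Γ ^ n * δ ≤ 1) := Sm.base _ _ one_pos n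
  have hS3 : Sm (fun Γ δ => (3 * (n * 12 ^ n) * (R₁ * (2 * 5 ^ n * R₁) ^ (n - 1)) : ℝ) *
      Γ ^ (n + n * (n - 1)) * δ ≤ c) := Sm.base _ _ hc _
  refine ((hS1.and hS2).and hS3).mono (fun Γ δ hΓ hδ hS => ?_)
  obtain ⟨⟨hS1, hS2⟩, hS3⟩ := hS
  intro P hP h hoff hd f hf hdvd
  rw [pow_zero, mul_one] at hS1
  have hΓ0 : 0 < Γ := by linarith
  have hfdeg : f.natDegree ≤ n := by
    have h1 := natDegree_le_of_dvd hdvd (Matrix.charpoly_monic h).ne_zero
    rwa [Matrix.charpoly_natDegree_eq_dim] at h1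
  have hroot : ∀ z : ℂ, (f.map (Int.castRingHom ℂ)).IsRoot z → ‖z‖ ≤ Γ + 1 := by
    intro z hz
    refine root_bound P hP.det h δ Γ hδ hS1 hoff hd z ?_
    exact hz.dvd (Polynomial.map_dvd (Int.castRingHom ℂ) hdvd)
  obtain ⟨h1, h2, h3⟩ := near_int P hP.det h δ Γ hδ hS1 hΓ hoff hd f hf hroot
  have h12 : (6 * (Γ + 1)) ^ f.natDegree ≤ (12 * Γ) ^ n :=
    (pow_le_pow_left₀ (by positivity) (by linarith) _).trans
      (pow_le_pow_right₀ (by linarith) hfdeg)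
  have hδ' : (6 * (Γ + 1)) ^ f.natDegree * δ ≤ (12 * Γ) ^ n * δ :=
    mul_le_mul_of_nonneg_right h12 hδ
  have hδ1 : n * ((12 * Γ) ^ n * δ) ≤ 1 := by
    have h4 : n * ((12 * Γ) ^ n * δ) = (n * 12 ^ n : ℝ) * Γ ^ n * δ := by
      rw [mul_pow]
      ring
    rw [h4]
    exact hS2
  have hδ2 : (12 * Γ) ^ n * δ ≤ 1 := by
    have h4 : 0 ≤ (12 * Γ) ^ n * δ := by positivity
    nlinarith
  have h4 : (2 * (Γ + 1)) ^ f.natDegree ≤ (4 * Γ) ^ n :=
    (pow_le_pow_left₀ (by positivity) (by linarith) _).trans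
      (pow_le_pow_right₀ (by linarith) hfdeg)
  have h5 : (4 * Γ) ^ n + 1 ≤ (5 * Γ) ^ n := by
    obtain ⟨l, hl⟩ : ∃ l, n = l + 1 := ⟨n - 1, by omega⟩
    rw [hl, pow_succ, pow_succ]
    have h6 : (4 * Γ) ^ l ≤ (5 * Γ) ^ l := pow_le_pow_left₀ (by positivity) (by linarith) _
    have h7 : (1 : ℝ) ≤ (5 * Γ) ^ l := one_le_pow₀ (by linarith)
    nlinarith
  refine zero_or_det hc hR₁ hP (aeval h f) ((12 * Γ) ^ n * δ) ((5 * Γ) ^ n) (by positivity)
    (by positivity) (fun i j hij => (h3 i j hij).trans hδ') (fun i => ?_) ?_ ?_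
  · have h6 := h2 i
    have h7 : ‖((cj P h i i : ℝ) : ℂ)‖ ≤ Γ + 1 := by
      rw [Complex.norm_real, Real.norm_eq_abs]
      linarith [hd i]
    have h8 := h1 _ h7
    have h9 := norm_add_le (((cj P (aeval h f) i i : ℝ) : ℂ) -
      (f.map (Int.castRingHom ℂ)).eval ((cj P h i i : ℝ) : ℂ))
      ((f.map (Int.castRingHom ℂ)).eval ((cj P h i i : ℝ) : ℂ))
    rw [sub_add_cancel, Complex.norm_real, Real.norm_eq_abs] at h9
    linarith
  · rw [← hn]
    have h6 : (1 : ℝ) ≤ (5 * Γ) ^ n := one_le_pow₀ (by linarith)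
    linarith
  · rw [← hn, le_div_iff₀ (by positivity)]
    refine le_trans (le_of_eq ?_) hS3
    have h6 : (2 * (5 * Γ) ^ n * R₁) ^ (n - 1) =
        (2 * 5 ^ n * R₁) ^ (n - 1) * (Γ ^ n) ^ (n - 1) := by
      rw [mul_pow 5 Γ n, ← mul_pow]
      ring
    rw [h6, mul_pow 12 Γ n, pow_add, pow_mul]
    ring

/-- The minimal polynomial of an almost diagonal integer matrix is irreducible. -/
theorem minpoly_irr [Nonempty ι] (c R₁ : ℝ) (hc : 0 < c) (hR₁ : 0 < R₁) :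
    Sm (fun Γ δ => ∀ P : Matrix ι ι ℝ, Adapted c R₁ P → ∀ h : Matrix ι ι ℤ,
      (∀ i j, i ≠ j → |cj P h i j| ≤ δ) → (∀ i, |cj P h i i| ≤ Γ) →
      Irreducible (minpoly ℚ (h.map (Int.cast : ℤ → ℚ)))) := by
  refine (fac (ι := ι) c R₁ hc hR₁).mono (fun Γ δ hΓ hδ hfac => ?_)
  intro P hP h hoff hd
  set B := h.map (Int.cast : ℤ → ℚ) with hB
  have hint : IsIntegral ℚ B := Matrix.isIntegral B
  have hp0 : minpoly ℚ B ≠ 0 := minpoly.ne_zero hint
  have hpu : ¬ IsUnit (minpoly ℚ B) := minpoly.not_isUnit ℚ B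
  obtain ⟨g, hg, q, hq⟩ := WfDvdMonoid.exists_irreducible_factor hpu hp0
  have hchar : B.charpoly = h.charpoly.map (Int.castRingHom ℚ) :=
    Matrix.charpoly_map h (Int.castRingHom ℚ)
  have hgc : g ∣ h.charpoly.map (algebraMap ℤ ℚ) := by
    have h1 : minpoly ℚ B ∣ B.charpoly := Matrix.minpoly_dvd_charpoly B
    have h2 : g ∣ B.charpoly := (Dvd.intro q hq.symm).trans h1
    rw [hchar] at h2
    exact h2
  obtain ⟨g', hg'⟩ := IsIntegrallyClosed.eq_map_mul_C_of_dvd ℚ (Matrix.charpoly_monic h) hgc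
  have hlead : g.leadingCoeff ≠ 0 := leadingCoeff_ne_zero.mpr hg.ne_zero
  have hg'm : g'.Monic := by
    refine monic_of_injective (f := algebraMap ℤ ℚ) (RingHom.injective_int _) ?_
    have h1 := congrArg leadingCoeff hg'
    rw [leadingCoeff_mul, leadingCoeff_C] at h1
    exact mul_right_cancel₀ hlead (h1.trans (one_mul _).symm)
  have hg'd : g' ∣ h.charpoly := by
    have h1 : g'.map (algebraMap ℤ ℚ) ∣ h.charpoly.map (algebraMap ℤ ℚ) :=
      (Dvd.intro _ hg').trans hgc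
    exact (Polynomial.map_dvd_map (algebraMap ℤ ℚ) (RingHom.injective_int _) hg'm).mp h1
  have haev : aeval B g = (aeval h g').map (Int.cast : ℤ → ℚ) * algebraMap ℚ _ g.leadingCoeff := by
    rw [← rat_map_aeval h g', ← hB]
    conv_lhs => rw [← hg']
    rw [map_mul, aeval_C]
    rfl
  have hfin : aeval B g = 0 := by
    rcases hfac P hP h hoff hd g' hg'm hg'd with h1 | h1
    · rw [haev, h1]
      have h2 : (0 : Matrix ι ι ℤ).map (Int.cast : ℤ → ℚ) = 0 :=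
        Matrix.map_zero _ Int.cast_zero
      rw [h2, zero_mul]
    · exfalso
      have h2 : IsUnit (aeval B g) := by
        rw [haev]
        refine IsUnit.mul ?_ ?_
        · rw [Matrix.isUnit_iff_isUnit_det]
          have h3 : ((aeval h g').map (Int.cast : ℤ → ℚ)).det = (((aeval h g').det : ℤ) : ℚ) :=
            ((Int.castRingHom ℚ).map_det _).symm
          rw [h3]
          exact isUnit_iff_ne_zero.mpr (Int.cast_ne_zero.mpr h1)
        · exact (isUnit_iff_ne_zero.mpr hlead).map _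
      have h3 : aeval B g * aeval B q = 0 := by
        rw [← map_mul, ← hq, minpoly.aeval]
      have h4 : aeval B q = 0 := (h2.mul_right_eq_zero).mp h3
      have h5 : minpoly ℚ B ∣ q := minpoly.dvd ℚ B h4
      have h6 : q ≠ 0 := by
        rintro rfl
        rw [mul_zero] at hq
        exact hp0 hq
      have h7 := natDegree_le_of_dvd h5 h6
      have h8 : (minpoly ℚ B).natDegree = g.natDegree + q.natDegree := by
        conv_lhs => rw [hq]
        exact natDegree_mul hg.ne_zero h6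
      have h9 := hg.natDegree_pos
      omega
  have h1 : minpoly ℚ B ∣ g := minpoly.dvd ℚ B hfin
  have h2 : g ∣ minpoly ℚ B := Dvd.intro q hq.symm
  exact (associated_of_dvd_dvd h1 h2).symm.irreducible hg

end Pool.Agent.H83.Sail
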