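import Mathlib
import Pool.Agent.H83.Sail.Irr

/-!
# The diagonal entries of an almost diagonal integer matrix are separated
-/

namespace Pool.Agent.H83.Sail

open Polynomial

theorem prod_close {κ : Type*} (s : Finset κ) (a b : κ → ℝ) (Λ η : ℝ) (hΛ : 1 ≤ Λ) (hη : 0 ≤ η)
    (ha : ∀ i ∈ s, |a i| ≤ Λ) (hb : ∀ i ∈ s, |b i| ≤ Λ) (hab : ∀ i ∈ s, |a i - b i| ≤ η) :
    |∏ i ∈ s, a i - ∏ i ∈ s, b i| ≤ s.card * Λ ^ s.card * η := by
  classical
  induction s using Finset.induction_on with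
  | empty => simp
  | insert i s hi ih =>
    have ih' := ih (fun j hj => ha j (Finset.mem_insert_of_mem hj))
      (fun j hj => hb j (Finset.mem_insert_of_mem hj))
      (fun j hj => hab j (Finset.mem_insert_of_mem hj))
    rw [Finset.prod_insert hi, Finset.prod_insert hi, Finset.card_insert_of_notMem hi]
    have h1 : a i * ∏ j ∈ s, a j - b i * ∏ j ∈ s, b j =
        (a i - b i) * ∏ j ∈ s, a j + b i * (∏ j ∈ s, a j - ∏ j ∈ s, b j) := by ring
    have h2 : |∏ j ∈ s, a j| ≤ Λ ^ s.card := by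
      rw [Finset.abs_prod]
      refine (Finset.prod_le_prod (fun j _ => abs_nonneg _)
        (fun j hj => ha j (Finset.mem_insert_of_mem hj))).trans ?_
      rw [Finset.prod_const]
    rw [h1]
    refine (abs_add_le _ _).trans ?_
    rw [abs_mul, abs_mul]
    have h3 : |a i - b i| * |∏ j ∈ s, a j| ≤ η * Λ ^ s.card :=
      mul_le_mul (hab i (Finset.mem_insert_self i s)) h2 (abs_nonneg _) hη
    have h4 : |b i| * |∏ j ∈ s, a j - ∏ j ∈ s, b j| ≤ Λ * (s.card * Λ ^ s.card * η) :=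
      mul_le_mul (hb i (Finset.mem_insert_self i s)) ih' (abs_nonneg _) (by linarith)
    have h5 : η * Λ ^ s.card ≤ Λ * (η * Λ ^ s.card) :=
      le_mul_of_one_le_left (by positivity) hΛ
    push_cast
    rw [pow_succ]
    nlinarith

theorem det_close {n : ℕ} (A B : Matrix (Fin n) (Fin n) ℝ) (Λ η : ℝ) (hΛ : 1 ≤ Λ) (hη : 0 ≤ η)
    (ha : ∀ i j, |A i j| ≤ Λ) (hb : ∀ i j, |B i j| ≤ Λ) (hab : ∀ i j, |A i j - B i j| ≤ η) :
    |A.det - B.det| ≤ n.factorial * (n * Λ ^ n * η) := by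
  rw [Matrix.det_apply', Matrix.det_apply', ← Finset.sum_sub_distrib]
  refine (Finset.abs_sum_le_sum_abs _ _).trans ?_
  have h1 : ∀ σ ∈ (Finset.univ : Finset (Equiv.Perm (Fin n))),
      |((Equiv.Perm.sign σ : ℤ) : ℝ) * ∏ i, A (σ i) i - ((Equiv.Perm.sign σ : ℤ) : ℝ) *
        ∏ i, B (σ i) i| ≤ n * Λ ^ n * η := by
    intro σ _
    rw [← mul_sub, abs_mul]
    have h2 : |((Equiv.Perm.sign σ : ℤ) : ℝ)| = 1 := by
      rcases Int.units_eq_one_or (Equiv.Perm.sign σ) with h | h <;> rw [h] <;> simp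
    rw [h2, one_mul]
    have h3 := prod_close Finset.univ (fun i => A (σ i) i) (fun i => B (σ i) i) Λ η hΛ hη
      (fun i _ => ha _ _) (fun i _ => hb _ _) (fun i _ => hab _ _)
    rw [Finset.card_univ, Fintype.card_fin] at h3
    exact h3
  refine (Finset.sum_le_card_nsmul _ _ _ h1).trans ?_
  rw [Finset.card_univ, Fintype.card_perm, Fintype.card_fin, nsmul_eq_mul]

theorem pow_close (a b Γ : ℝ) (hΓ : 1 ≤ Γ) (ha : |a| ≤ Γ) (hb : |b| ≤ Γ) (k : ℕ) :
    |a ^ k - b ^ k| ≤ k * Γ ^ k * |a - b| := by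
  have h1 := prod_close (Finset.range k) (fun _ => a) (fun _ => b) Γ |a - b| hΓ (abs_nonneg _)
    (fun _ _ => ha) (fun _ _ => hb) (fun _ _ => le_rfl)
  rw [Finset.prod_const, Finset.prod_const, Finset.card_range] at h1
  exact h1

variable {ι : Type*} [Fintype ι] [DecidableEq ι]

/-- The trace form of a matrix with irreducible minimal polynomial of full degree is
nondegenerate. -/
theorem trace_form_ne [Nonempty ι] (h : Matrix ι ι ℤ)
    (hirr : Irreducible (minpoly ℚ (h.map (Int.cast : ℤ → ℚ))))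
    (hdeg : (minpoly ℚ (h.map (Int.cast : ℤ → ℚ))).natDegree = Fintype.card ι) :
    (Matrix.of (fun a b : Fin (Fintype.card ι) => (h ^ ((a : ℕ) + (b : ℕ))).trace)).det ≠ 0 := by
  set n := Fintype.card ι with hn
  set B := h.map (Int.cast : ℤ → ℚ) with hB
  set S : Matrix (Fin n) (Fin n) ℤ :=
    Matrix.of (fun a b : Fin n => (h ^ ((a : ℕ) + (b : ℕ))).trace) with hS
  intro h0
  have hSq : (S.map (Int.cast : ℤ → ℚ)).det = 0 := by
    have h1 : (S.map (Int.cast : ℤ → ℚ)).det = ((S.det : ℤ) : ℚ) :=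
      ((Int.castRingHom ℚ).map_det S).symm
    rw [h1, h0, Int.cast_zero]
  obtain ⟨q, hq0, hq⟩ := Matrix.exists_mulVec_eq_zero_iff.mpr hSq
  have htr : ∀ k : ℕ, (B ^ k).trace = (((h ^ k).trace : ℤ) : ℚ) := by
    intro k
    have h1 : B ^ k = (h ^ k).map (Int.cast : ℤ → ℚ) :=
      (map_pow (Int.castRingHom ℚ).mapMatrix h k).symm
    rw [h1]
    simp [Matrix.trace]
  set X : Matrix ι ι ℚ := ∑ b : Fin n, q b • B ^ (b : ℕ) with hX
  have hXQ : X = aeval B (∑ b : Fin n, C (q b) * Polynomial.X ^ (b : ℕ)) := by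
    rw [hX, map_sum]
    refine Finset.sum_congr rfl (fun b _ => ?_)
    rw [map_mul, aeval_C, map_pow, aeval_X, Algebra.algebraMap_eq_smul_one, smul_mul_assoc,
      one_mul]
  set Q : ℚ[X] := ∑ b : Fin n, C (q b) * Polynomial.X ^ (b : ℕ) with hQ
  have hcoef : ∀ a : Fin n, Q.coeff a = q a := by
    intro a
    rw [hQ, finsetSum_coeff, Finset.sum_eq_single a]
    · rw [coeff_C_mul, coeff_X_pow, if_pos rfl, mul_one]
    · intro b _ hba
      rw [coeff_C_mul, coeff_X_pow, if_neg (fun h => hba (Fin.ext h.symm)), mul_zero]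
    · exact fun h => absurd (Finset.mem_univ _) h
  have hQ0 : Q ≠ 0 := by
    intro h1
    apply hq0
    funext a
    rw [← hcoef a, h1, coeff_zero, Pi.zero_apply]
  have hn0 : 0 < n := Fintype.card_pos
  have hQdeg : Q.natDegree < n := by
    have h1 : Q ∈ degreeLT ℚ n := Submodule.sum_mem _ (fun b _ => mem_degreeLT.mpr
      ((degree_C_mul_X_pow_le _ _).trans_lt (by exact_mod_cast b.2)))
    exact (natDegree_lt_iff_degree_lt hQ0).mpr (mem_degreeLT.mp h1)
  have hT0 : ∀ a : Fin n, (B ^ (a : ℕ) * X).trace = 0 := by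
    intro a
    have h1 := congrFun hq a
    have h2 : (B ^ (a : ℕ) * X).trace = ∑ b : Fin n, (S.map (Int.cast : ℤ → ℚ)) a b * q b := by
      rw [hX, Finset.mul_sum, Matrix.trace_sum]
      refine Finset.sum_congr rfl (fun b _ => ?_)
      rw [mul_smul_comm, Matrix.trace_smul, ← pow_add, htr, Matrix.map_apply, hS,
        Matrix.of_apply, smul_eq_mul, mul_comm]
    rw [h2]
    exact h1
  have hT : ∀ p : ℚ[X], p.natDegree < n → (aeval B p * X).trace = 0 := by
    intro p hp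
    rw [p.as_sum_range' n hp, map_sum, Finset.sum_mul, Matrix.trace_sum]
    refine Finset.sum_eq_zero (fun a ha => ?_)
    rw [← C_mul_X_pow_eq_monomial, map_mul, aeval_C, map_pow, aeval_X,
      Algebra.algebraMap_eq_smul_one, smul_mul_assoc, one_mul, smul_mul_assoc,
      Matrix.trace_smul, hT0 ⟨a, Finset.mem_range.mp ha⟩, smul_zero]
  have hcop : IsCoprime Q (minpoly ℚ B) := by
    refine ((hirr.coprime_iff_not_dvd).mpr (fun hdvd => ?_)).symm
    have h1 := natDegree_le_of_dvd hdvd hQ0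
    rw [hdeg] at h1
    omega
  obtain ⟨u, v, huv⟩ := hcop
  have h1 : aeval B u * X = 1 := by
    have h2 := congrArg (aeval B) huv
    rw [map_add, map_mul, map_mul, minpoly.aeval, mul_zero, add_zero, map_one, ← hXQ] at h2
    exact h2
  have hmonic : (minpoly ℚ B).Monic := minpoly.monic (Matrix.isIntegral B)
  have h2 : aeval B (u %ₘ minpoly ℚ B) = aeval B u := by
    conv_rhs => rw [← modByMonic_add_div u (minpoly ℚ B)]
    rw [map_add, map_mul, minpoly.aeval, zero_mul, add_zero]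
  have h3 : (u %ₘ minpoly ℚ B).natDegree < n := by
    rw [← hdeg]
    exact natDegree_modByMonic_lt u hmonic (fun h4 => by
      have h5 := hirr.natDegree_pos
      rw [h4, natDegree_one] at h5
      exact lt_irrefl _ h5)
  have h4 := hT _ h3
  rw [h2, h1, Matrix.trace_one] at h4
  have h5 : (Fintype.card ι : ℚ) ≠ 0 := by exact_mod_cast Fintype.card_pos.ne'
  exact h5 h4

/-- Separation of the diagonal entries. -/
theorem sep [Nonempty ι] : ∃ (D : ℝ) (l : ℕ), 0 < D ∧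
    Sm (fun Γ δ => ∀ P : Matrix ι ι ℝ, P.det ≠ 0 → ∀ h : Matrix ι ι ℤ,
      (∀ i j, i ≠ j → |cj P h i j| ≤ δ) → (∀ i, |cj P h i i| ≤ Γ) →
      Irreducible (minpoly ℚ (h.map (Int.cast : ℤ → ℚ))) →
      (minpoly ℚ (h.map (Int.cast : ℤ → ℚ))).natDegree = Fintype.card ι →
      ∀ i j, i ≠ j → 1 ≤ D * Γ ^ l * |cj P h i i - cj P h j j|) := by
  set n : ℕ := Fintype.card ι with hn
  have hn1 : 1 ≤ n := Fintype.card_pos
  have hn1' : (1 : ℝ) ≤ n := by exact_mod_cast hn1
  have hf0 : (0 : ℝ) < n.factorial := by exact_mod_cast Nat.factorial_pos n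
  refine ⟨2 * (n.factorial * (n * n)), n * n + n, by positivity, ?_⟩
  have hS1 : Sm (fun Γ δ => (n : ℝ) * Γ ^ 0 * δ ≤ 1) := Sm.base _ _ one_pos 0
  have hS2 : Sm (fun Γ δ => (n * 12 ^ (2 * n) : ℝ) * Γ ^ (2 * n) * δ ≤ 1) :=
    Sm.base _ _ one_pos _
  have hS3 : Sm (fun Γ δ => (n.factorial * (n * (2 * n) ^ n * (n * 12 ^ (2 * n))) : ℝ) *
      Γ ^ (2 * n * n + 2 * n) * δ ≤ 1 / 2) := Sm.base _ _ (by norm_num) _
  refine ((hS1.and hS2).and hS3).mono (fun Γ δ hΓ hδ hS => ?_)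
  obtain ⟨⟨hS1, hS2⟩, hS3⟩ := hS
  intro P hP h hoff hd hirr hdeg i0 j0 hij
  rw [pow_zero, mul_one] at hS1
  have hΓ0 : 0 < Γ := by linarith
  -- the powers
  have hpow : ∀ k, k ≤ 2 * n → ∀ i, |cj P (h ^ k) i i - (cj P h i i) ^ k| ≤
      (12 * Γ) ^ (2 * n) * δ := by
    intro k hk i
    have hroot : ∀ z : ℂ, ((Polynomial.X ^ k : ℤ[X]).map (Int.castRingHom ℂ)).IsRoot z →
        ‖z‖ ≤ Γ + 1 := by
      intro z hz
      rw [IsRoot, Polynomial.map_pow, map_X, eval_pow, eval_X] at hz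
      have h1 : z = 0 := eq_zero_of_pow_eq_zero hz
      rw [h1, norm_zero]
      linarith
    obtain ⟨-, h2, -⟩ := near_int P hP h δ Γ hδ hS1 hΓ hoff hd (Polynomial.X ^ k)
      (monic_X_pow k) hroot
    have h3 := h2 i
    rw [map_pow, aeval_X, Polynomial.map_pow, map_X, eval_pow, eval_X, natDegree_X_pow,
      ← Complex.ofReal_pow, ← Complex.ofReal_sub, Complex.norm_real, Real.norm_eq_abs] at h3
    refine h3.trans (mul_le_mul_of_nonneg_right ?_ hδ)
    exact (pow_le_pow_left₀ (by positivity) (by linarith) _).trans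
      (pow_le_pow_right₀ (by linarith) hk)
  -- the trace form and its diagonal model
  set S : Matrix (Fin n) (Fin n) ℤ :=
    Matrix.of (fun a b : Fin n => (h ^ ((a : ℕ) + (b : ℕ))).trace) with hS
  have e : Fin n ≃ ι := (Fintype.equivFin ι).symm
  set V : Matrix (Fin n) (Fin n) ℝ :=
    Matrix.of (fun a b : Fin n => (cj P h (e a) (e a)) ^ (b : ℕ)) with hV
  have hVV : ∀ a b : Fin n, (V.transpose * V) a b = ∑ i, (cj P h i i) ^ ((a : ℕ) + (b : ℕ)) := by
    intro a b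
    rw [Matrix.mul_apply, ← e.sum_comp]
    exact Finset.sum_congr rfl (fun i _ => (pow_add _ _ _).symm)
  have htr : ∀ k : ℕ, (((h ^ k).trace : ℤ) : ℝ) = ∑ i, cj P (h ^ k) i i := by
    intro k
    have hunit : IsUnit P.det := isUnit_iff_ne_zero.mpr hP
    have h1 : ∑ i, cj P (h ^ k) i i = (cj P (h ^ k)).trace := rfl
    rw [h1, cj, Matrix.trace_mul_cycle, Matrix.nonsing_inv_mul P hunit, Matrix.one_mul]
    simp [Matrix.trace]
  have hpe : ∀ k, k ≤ 2 * n → ∀ i, |(cj P h i i) ^ k| ≤ Γ ^ (2 * n) := by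
    intro k hk i
    rw [abs_pow]
    exact (pow_le_pow_left₀ (abs_nonneg _) (hd i) k).trans (pow_le_pow_right₀ hΓ hk)
  have hab : ∀ a b : Fin n, (a : ℕ) + (b : ℕ) ≤ 2 * n := fun a b => by omega
  have hη0 : 0 ≤ (12 * Γ) ^ (2 * n) * δ := by positivity
  have hη : n * ((12 * Γ) ^ (2 * n) * δ) ≤ 1 := by
    have h1 : n * ((12 * Γ) ^ (2 * n) * δ) = (n * 12 ^ (2 * n) : ℝ) * Γ ^ (2 * n) * δ := by
      rw [mul_pow]
      ring
    rw [h1]
    exact hS2
  have hdiff : ∀ a b : Fin n, |(S.map (Int.cast : ℤ → ℝ)) a b - (V.transpose * V) a b| ≤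
      n * ((12 * Γ) ^ (2 * n) * δ) := by
    intro a b
    rw [hVV, Matrix.map_apply, hS, Matrix.of_apply, htr, ← Finset.sum_sub_distrib]
    refine (Finset.abs_sum_le_sum_abs _ _).trans ?_
    refine (Finset.sum_le_card_nsmul _ _ _ (fun i _ => hpow _ (hab a b) i)).trans ?_
    rw [Finset.card_univ, nsmul_eq_mul, ← hn]
  have hΓn : (1 : ℝ) ≤ Γ ^ (2 * n) := one_le_pow₀ hΓ
  have hVVb : ∀ a b : Fin n, |(V.transpose * V) a b| ≤ 2 * n * Γ ^ (2 * n) := by
    intro a b
    rw [hVV]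
    refine (Finset.abs_sum_le_sum_abs _ _).trans ?_
    refine (Finset.sum_le_card_nsmul _ _ _ (fun i _ => hpe _ (hab a b) i)).trans ?_
    rw [Finset.card_univ, nsmul_eq_mul, ← hn]
    nlinarith
  have hSb : ∀ a b : Fin n, |(S.map (Int.cast : ℤ → ℝ)) a b| ≤ 2 * n * Γ ^ (2 * n) := by
    intro a b
    have h1 := hdiff a b
    have h2 : |(V.transpose * V) a b| ≤ n * Γ ^ (2 * n) := by
      rw [hVV]
      refine (Finset.abs_sum_le_sum_abs _ _).trans ?_
      refine (Finset.sum_le_card_nsmul _ _ _ (fun i _ => hpe _ (hab a b) i)).trans ?_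
      rw [Finset.card_univ, nsmul_eq_mul, ← hn]
    have h3 := abs_sub_abs_le_abs_sub ((S.map (Int.cast : ℤ → ℝ)) a b) ((V.transpose * V) a b)
    have h4 : 1 ≤ n * Γ ^ (2 * n) := by nlinarith
    linarith
  have hΛ1 : 1 ≤ 2 * n * Γ ^ (2 * n) := by nlinarith
  have hdc := det_close (S.map (Int.cast : ℤ → ℝ)) (V.transpose * V) (2 * n * Γ ^ (2 * n))
    (n * ((12 * Γ) ^ (2 * n) * δ)) hΛ1 (by positivity) hSb hVVb hdiff
  have hsmall : n.factorial * (n * (2 * n * Γ ^ (2 * n)) ^ n * (n * ((12 * Γ) ^ (2 * n) * δ))) ≤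
      1 / 2 := by
    refine le_trans (le_of_eq ?_) hS3
    rw [mul_pow (2 * (n : ℝ)) (Γ ^ (2 * n)) n, ← pow_mul, mul_pow 12 Γ (2 * n), pow_add]
    ring
  have hSdet : (1 : ℝ) ≤ |(S.map (Int.cast : ℤ → ℝ)).det| := by
    have h1 : (S.map (Int.cast : ℤ → ℝ)).det = ((S.det : ℤ) : ℝ) :=
      ((Int.castRingHom ℝ).map_det S).symm
    rw [h1, ← Int.cast_abs]
    have h2 := trace_form_ne h hirr hdeg
    have h3 : 1 ≤ |S.det| := Int.one_le_abs h2
    exact_mod_cast h3
  have hVdet : 1 / 2 ≤ |V.det| := by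
    by_contra hcon
    push Not at hcon
    have h1 : (V.transpose * V).det = V.det ^ 2 := by
      rw [Matrix.det_mul, Matrix.det_transpose, sq]
    have h2 := abs_sub_abs_le_abs_sub (S.map (Int.cast : ℤ → ℝ)).det (V.transpose * V).det
    rw [h1, abs_pow] at h2
    rw [h1] at hdc
    have h3 := abs_nonneg V.det
    nlinarith
  -- replace one row by another
  set a0 := e.symm i0 with ha0
  set b0 := e.symm j0 with hb0
  have hab0 : a0 ≠ b0 := fun h1 => hij (e.symm.injective h1)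
  set W : Matrix (Fin n) (Fin n) ℝ := V.updateRow a0 (V b0) with hW
  have hWdet : W.det = 0 := by
    refine Matrix.det_zero_of_row_eq hab0 ?_
    rw [hW, Matrix.updateRow_self, Matrix.updateRow_ne hab0.symm]
  have hx : ∀ a b, |V a b - W a b| ≤ n * Γ ^ n * |cj P h i0 i0 - cj P h j0 j0| := by
    intro a b
    rcases eq_or_ne a a0 with rfl | ha
    · rw [hW, Matrix.updateRow_self, hV, Matrix.of_apply, Matrix.of_apply, ha0, hb0,
        Equiv.apply_symm_apply, Equiv.apply_symm_apply]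
      refine (pow_close _ _ Γ hΓ (hd _) (hd _) b).trans ?_
      refine mul_le_mul_of_nonneg_right ?_ (abs_nonneg _)
      refine mul_le_mul ?_ (pow_le_pow_right₀ hΓ (by omega)) (by positivity) (by positivity)
      exact_mod_cast b.2.le
    · rw [hW, Matrix.updateRow_ne ha, sub_self, abs_zero]
      positivity
  have hVb : ∀ a b, |V a b| ≤ Γ ^ n := by
    intro a b
    rw [hV, Matrix.of_apply, abs_pow]
    exact (pow_le_pow_left₀ (abs_nonneg _) (hd _) _).trans (pow_le_pow_right₀ hΓ (by omega))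
  have hWb : ∀ a b, |W a b| ≤ Γ ^ n := by
    intro a b
    rcases eq_or_ne a a0 with rfl | ha
    · rw [hW, Matrix.updateRow_self]
      exact hVb _ _
    · rw [hW, Matrix.updateRow_ne ha]
      exact hVb _ _
  have h1 := det_close V W (Γ ^ n) (n * Γ ^ n * |cj P h i0 i0 - cj P h j0 j0|)
    (one_le_pow₀ hΓ) (by positivity) hVb hWb hx
  rw [hWdet, sub_zero] at h1
  have h2 := hVdet.trans h1
  have h3 : 2 * (n.factorial * (n * n)) * Γ ^ (n * n + n) * |cj P h i0 i0 - cj P h j0 j0| =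
      2 * (n.factorial * (n * (Γ ^ n) ^ n * (n * Γ ^ n * |cj P h i0 i0 - cj P h j0 j0|))) := by
    rw [pow_add, pow_mul]
    ring
  rw [h3]
  linarith

end Pool.Agent.H83.Sail
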