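import Mathlib
import Pool.Agent.H83.Sail.Sep

/-!
# The minimal polynomial has full degree when the diagonal entries are spread
-/

namespace Pool.Agent.H83.Sail

open Polynomial

theorem prod_sub_ge (x : ℂ) (r : ℝ) (hr : 0 ≤ r) (s : Multiset ℂ) (h : ∀ z ∈ s, r ≤ ‖x - z‖) :
    r ^ s.card ≤ ‖(s.map (x - ·)).prod‖ := by
  induction s using Multiset.induction_on with
  | empty => simp
  | cons z s ih =>
    rw [Multiset.map_cons, Multiset.prod_cons, norm_mul, Multiset.card_cons, pow_succ, mul_comm]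
    exact mul_le_mul (h z (Multiset.mem_cons_self z s))
      (ih (fun w hw => h w (Multiset.mem_cons_of_mem hw))) (by positivity) (norm_nonneg _)

theorem near_root (f : ℂ[X]) (hf : f.Monic) (hm : 0 < f.natDegree) (x : ℂ) (ε : ℝ)
    (hx : ‖f.eval x‖ ≤ ε) : ∃ z ∈ f.roots.toFinset, ‖x - z‖ ^ f.natDegree ≤ ε := by
  have hcard : f.roots.card = f.natDegree := IsAlgClosed.card_roots_eq_natDegree
  have hne : f.roots.toFinset.Nonempty := by
    rw [Multiset.toFinset_nonempty]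
    intro h0
    rw [h0, Multiset.card_zero] at hcard
    omega
  obtain ⟨z, hz, hmin⟩ := Finset.exists_min_image f.roots.toFinset (fun z => ‖x - z‖) hne
  refine ⟨z, hz, le_trans ?_ hx⟩
  have h1 := prod_sub_ge x ‖x - z‖ (norm_nonneg _) f.roots
    (fun w hw => hmin w (Multiset.mem_toFinset.mpr hw))
  rw [hcard] at h1
  rw [(IsAlgClosed.splits f).eval_eq_prod_roots_of_monic hf]
  exact h1

variable {ι : Type*} [Fintype ι] [DecidableEq ι]

theorem deg_full [Nonempty ι] (D : ℝ) (hD : 1 ≤ D) (l : ℕ) :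
    Sm (fun Γ δ => ∀ P : Matrix ι ι ℝ, P.det ≠ 0 → ∀ h : Matrix ι ι ℤ,
      (∀ i j, i ≠ j → |cj P h i j| ≤ δ) → (∀ i, |cj P h i i| ≤ Γ) →
      Irreducible (minpoly ℚ (h.map (Int.cast : ℤ → ℚ))) →
      (∀ a : ι → Fin (Fintype.card ι / (Fintype.card ι).minFac), ∃ i j, a i = a j ∧
        1 ≤ D * Γ ^ l * |cj P h i i - cj P h j j|) →
      (minpoly ℚ (h.map (Int.cast : ℤ → ℚ))).natDegree = Fintype.card ι) := by
  set n : ℕ := Fintype.card ι with hn
  have hn1 : 1 ≤ n := Fintype.card_pos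
  have hS1 : Sm (fun Γ δ => (n : ℝ) * Γ ^ 0 * δ ≤ 1) := Sm.base _ _ one_pos 0
  have hS2 : Sm (fun Γ δ => (12 ^ n * (2 * D) ^ n : ℝ) * Γ ^ (n + l * n) * δ ≤ 1 / 2) :=
    Sm.base _ _ (by norm_num) _
  refine (hS1.and hS2).mono (fun Γ δ hΓ hδ hS => ?_)
  obtain ⟨hS1, hS2⟩ := hS
  intro P hP h hoff hd hirr hspread
  rw [pow_zero, mul_one] at hS1
  have hΓ0 : 0 < Γ := by linarith
  set B := h.map (Int.cast : ℤ → ℚ) with hB
  by_contra hne
  have hm : (minpoly ℚ B).natDegree ∣ n := minpoly_degree_dvd B hirr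
  set m := (minpoly ℚ B).natDegree with hmdef
  have hm0 : 0 < m := hirr.natDegree_pos
  have hmle : m ≤ n / n.minFac := by
    obtain ⟨k, hk⟩ := hm
    have hk1 : k ≠ 1 := by
      rintro rfl
      rw [mul_one] at hk
      exact hne hk.symm
    have hk0 : k ≠ 0 := by
      rintro rfl
      rw [mul_zero] at hk
      omega
    have h1 : n.minFac ≤ k := by
      refine Nat.minFac_le_of_dvd (by omega) ?_
      rw [hk]
      exact Dvd.intro_left m rfl
    have h2 : n.minFac ≠ 0 := (Nat.minFac_pos n).ne'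
    rw [Nat.le_div_iff_mul_le (Nat.minFac_pos n)]
    calc m * n.minFac ≤ m * k := Nat.mul_le_mul_left m h1
      _ = n := hk.symm
  -- the integral minimal polynomial
  have hchar : B.charpoly = h.charpoly.map (Int.castRingHom ℚ) :=
    Matrix.charpoly_map h (Int.castRingHom ℚ)
  have hgc : minpoly ℚ B ∣ h.charpoly.map (algebraMap ℤ ℚ) := by
    have h1 : minpoly ℚ B ∣ B.charpoly := Matrix.minpoly_dvd_charpoly B
    rw [hchar] at h1
    exact h1
  have hmon : (minpoly ℚ B).Monic := minpoly.monic (Matrix.isIntegral B)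
  obtain ⟨f, hf⟩ := IsIntegrallyClosed.eq_map_mul_C_of_dvd ℚ (Matrix.charpoly_monic h) hgc
  rw [hmon.leadingCoeff, C_1, mul_one] at hf
  have hfm : f.Monic := by
    refine monic_of_injective (f := algebraMap ℤ ℚ) (RingHom.injective_int _) ?_
    rw [hf]
    exact hmon
  have hfdeg : f.natDegree = m := by
    rw [hmdef, ← hf]
    exact (hfm.natDegree_map _).symm
  have hfd : f ∣ h.charpoly := by
    rw [← hf] at hgc
    exact (Polynomial.map_dvd_map (algebraMap ℤ ℚ) (RingHom.injective_int _) hfm).mp hgc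
  have hf0 : aeval h f = 0 := by
    have h1 : (aeval h f).map (Int.cast : ℤ → ℚ) = 0 := by
      rw [← rat_map_aeval h f, ← hB]
      have h2 : f.map (Int.castRingHom ℚ) = minpoly ℚ B := hf
      rw [h2, minpoly.aeval]
    ext i j
    have h2 := congrFun (congrFun h1 i) j
    rw [Matrix.map_apply] at h2
    have h3 : (((aeval h f) i j : ℤ) : ℚ) = 0 := h2
    exact_mod_cast h3
  have hroot : ∀ z : ℂ, (f.map (Int.castRingHom ℂ)).IsRoot z → ‖z‖ ≤ Γ + 1 := by
    intro z hz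
    refine root_bound P hP h δ Γ hδ hS1 hoff hd z ?_
    exact hz.dvd (Polynomial.map_dvd (Int.castRingHom ℂ) hfd)
  obtain ⟨-, h2, -⟩ := near_int P hP h δ Γ hδ hS1 hΓ hoff hd f hfm hroot
  rw [hf0, hfdeg] at h2
  set F := f.map (Int.castRingHom ℂ) with hF
  have hFm : F.Monic := hfm.map _
  have hFdeg : F.natDegree = m := by rw [hF, hfm.natDegree_map, hfdeg]
  have hmn : m ≤ n := hmle.trans (Nat.div_le_self _ _)
  have hε : (6 * (Γ + 1)) ^ m * δ ≤ (12 * Γ) ^ n * δ :=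
    mul_le_mul_of_nonneg_right ((pow_le_pow_left₀ (by positivity) (by linarith) _).trans
      (pow_le_pow_right₀ (by linarith) hmn)) hδ
  have hcj0 : ∀ i, cj P (0 : Matrix ι ι ℤ) i i = 0 := by
    intro i
    have h3 : cj P (0 : Matrix ι ι ℤ) = 0 := map_zero (cjHom P hP)
    rw [h3, Matrix.zero_apply]
  have hev : ∀ i, ‖F.eval ((cj P h i i : ℝ) : ℂ)‖ ≤ (12 * Γ) ^ n * δ := by
    intro i
    have h3 := h2 i
    rw [hcj0, Complex.ofReal_zero, zero_sub, norm_neg] at h3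
    exact h3.trans hε
  choose z hz hzε using fun i => near_root F hFm (by omega) ((cj P h i i : ℝ) : ℂ) _ (hev i)
  have hcard : F.roots.toFinset.card ≤ n / n.minFac := by
    refine (Multiset.toFinset_card_le _).trans ?_
    rw [IsAlgClosed.card_roots_eq_natDegree, hFdeg]
    exact hmle
  obtain ⟨i, j, hij, hθ⟩ := hspread (fun i => Fin.castLE hcard
    (F.roots.toFinset.equivFin ⟨z i, hz i⟩))
  have hzij : z i = z j := by
    have h3 := Fin.castLE_injective hcard hij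
    have h4 := F.roots.toFinset.equivFin.injective h3
    exact congrArg Subtype.val h4
  rw [hFdeg] at hzε
  have h3 : |cj P h i i - cj P h j j| ≤ ‖((cj P h i i : ℝ) : ℂ) - z i‖ +
      ‖((cj P h j j : ℝ) : ℂ) - z j‖ := by
    have h4 : ((cj P h i i - cj P h j j : ℝ) : ℂ) = (((cj P h i i : ℝ) : ℂ) - z i) -
        (((cj P h j j : ℝ) : ℂ) - z j) := by
      rw [hzij]
      push_cast
      ring
    rw [← Real.norm_eq_abs, ← Complex.norm_real, h4]
    exact norm_sub_le _ _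
  obtain ⟨k, hk⟩ : ∃ k, |cj P h i i - cj P h j j| / 2 ≤ ‖((cj P h k k : ℝ) : ℂ) - z k‖ := by
    rcases le_total (‖((cj P h i i : ℝ) : ℂ) - z i‖) (‖((cj P h j j : ℝ) : ℂ) - z j‖) with h4 | h4
    · exact ⟨j, by linarith⟩
    · exact ⟨i, by linarith⟩
  have h4 : (|cj P h i i - cj P h j j| / 2) ^ m ≤ (12 * Γ) ^ n * δ :=
    (pow_le_pow_left₀ (by positivity) hk m).trans (hzε k)
  have hA : 1 ≤ 2 * D * Γ ^ l := by
    have : 1 ≤ Γ ^ l := one_le_pow₀ hΓ
    nlinarith
  have h5 : 1 ≤ (2 * D * Γ ^ l) * (|cj P h i i - cj P h j j| / 2) := by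
    have : (2 * D * Γ ^ l) * (|cj P h i i - cj P h j j| / 2) =
        D * Γ ^ l * |cj P h i i - cj P h j j| := by ring
    rw [this]
    exact hθ
  have h6 : 1 ≤ (2 * D * Γ ^ l) ^ m * (|cj P h i i - cj P h j j| / 2) ^ m := by
    rw [← mul_pow]
    exact one_le_pow₀ h5
  have h7 : (2 * D * Γ ^ l) ^ m * (|cj P h i i - cj P h j j| / 2) ^ m ≤
      (2 * D * Γ ^ l) ^ n * ((12 * Γ) ^ n * δ) :=
    mul_le_mul (pow_le_pow_right₀ hA hmn) h4 (by positivity) (by positivity)
  have h8 : (2 * D * Γ ^ l) ^ n * ((12 * Γ) ^ n * δ) =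
      (12 ^ n * (2 * D) ^ n : ℝ) * Γ ^ (n + l * n) * δ := by
    rw [mul_pow (2 * D) (Γ ^ l) n, mul_pow 12 Γ n, ← pow_mul, pow_add]
    ring
  rw [h8] at h7
  linarith

end Pool.Agent.H83.Sail
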