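import Mathlib
import Pool.Agent.H83.Sail.Degr

/-!
# Matrices commuting with a matrix of irreducible minimal polynomial of full degree
-/

namespace Pool.Agent.H83.Sail

open Polynomial

variable {ι : Type*} [Fintype ι] [DecidableEq ι]

theorem poly_of_comm [Nonempty ι] (B : Matrix ι ι ℚ) (hirr : Irreducible (minpoly ℚ B))
    (hdeg : (minpoly ℚ B).natDegree = Fintype.card ι) (X : Matrix ι ι ℚ) (hX : X * B = B * X) :
    ∃ p : ℚ[X], X = aeval B p := by
  obtain ⟨i0⟩ := (inferInstance : Nonempty ι)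
  set v : ι → ℚ := Pi.single i0 1 with hv
  have hv0 : v ≠ 0 := by
    intro h
    have h1 := congrFun h i0
    rw [hv, Pi.single_eq_same, Pi.zero_apply] at h1
    exact one_ne_zero h1
  have hli : LinearIndependent ℚ (fun k : Fin (Fintype.card ι) => (B ^ (k : ℕ)).mulVec v) := by
    rw [Fintype.linearIndependent_iff]
    intro q hq
    set Q : ℚ[X] := ∑ b : Fin (Fintype.card ι), C (q b) * Polynomial.X ^ (b : ℕ) with hQ
    have hcoef : ∀ a : Fin (Fintype.card ι), Q.coeff a = q a := by
      intro a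
      rw [hQ, finsetSum_coeff, Finset.sum_eq_single a]
      · rw [coeff_C_mul, coeff_X_pow, if_pos rfl, mul_one]
      · intro b _ hba
        rw [coeff_C_mul, coeff_X_pow, if_neg (fun h => hba (Fin.ext h.symm)), mul_zero]
      · exact fun h => absurd (Finset.mem_univ _) h
    have hQv : (aeval B Q).mulVec v = 0 := by
      rw [← hq, hQ, map_sum, Matrix.sum_mulVec]
      refine Finset.sum_congr rfl (fun b _ => ?_)
      rw [map_mul, aeval_C, map_pow, aeval_X, Algebra.algebraMap_eq_smul_one, smul_mul_assoc,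
        one_mul, Matrix.smul_mulVec]
    have hQ0 : Q = 0 := by
      by_contra hQ0
      have hQdeg : Q.natDegree < Fintype.card ι := by
        have h1 : Q ∈ degreeLT ℚ (Fintype.card ι) := Submodule.sum_mem _
          (fun b _ => mem_degreeLT.mpr
            ((degree_C_mul_X_pow_le _ _).trans_lt (by exact_mod_cast b.2)))
        exact (natDegree_lt_iff_degree_lt hQ0).mpr (mem_degreeLT.mp h1)
      have hcop : IsCoprime Q (minpoly ℚ B) := by
        refine ((hirr.coprime_iff_not_dvd).mpr (fun hdvd => ?_)).symm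
        have h1 := natDegree_le_of_dvd hdvd hQ0
        rw [hdeg] at h1
        omega
      obtain ⟨u, w, huw⟩ := hcop
      have h1 : aeval B u * aeval B Q = 1 := by
        have h2 := congrArg (aeval B) huw
        rw [map_add, map_mul, map_mul, minpoly.aeval, mul_zero, add_zero, map_one] at h2
        exact h2
      apply hv0
      have h2 : (aeval B u * aeval B Q).mulVec v = (1 : Matrix ι ι ℚ).mulVec v := by rw [h1]
      rw [← Matrix.mulVec_mulVec, hQv, Matrix.mulVec_zero, Matrix.one_mulVec] at h2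
      exact h2.symm
    intro a
    rw [← hcoef a, hQ0, coeff_zero]
  have hspan : ⊤ ≤ Submodule.span ℚ
      (Set.range (fun k : Fin (Fintype.card ι) => (B ^ (k : ℕ)).mulVec v)) := by
    have h1 := hli.span_eq_top_of_card_eq_finrank (by
      rw [Fintype.card_fin, Module.finrank_fintype_fun_eq_card])
    rw [h1]
  have hall : ∀ w : ι → ℚ, ∃ p : ℚ[X], (aeval B p).mulVec v = w := by
    intro w
    have h1 := hspan (Submodule.mem_top (x := w))
    obtain ⟨q, hq⟩ := (Submodule.mem_span_range_iff_exists_fun ℚ).mp h1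
    refine ⟨∑ b : Fin (Fintype.card ι), C (q b) * Polynomial.X ^ (b : ℕ), ?_⟩
    rw [← hq, map_sum, Matrix.sum_mulVec]
    refine Finset.sum_congr rfl (fun b _ => ?_)
    rw [map_mul, aeval_C, map_pow, aeval_X, Algebra.algebraMap_eq_smul_one, smul_mul_assoc,
      one_mul, Matrix.smul_mulVec]
  obtain ⟨p, hp⟩ := hall (X.mulVec v)
  have hcomm : ∀ r : ℚ[X], X * aeval B r = aeval B r * X := by
    intro r
    have h1 : Commute X B := hX
    induction r using Polynomial.induction_on' with
    | add p q hp hq => rw [map_add, mul_add, add_mul, hp, hq]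
    | monomial k a =>
      rw [← C_mul_X_pow_eq_monomial, map_mul, aeval_C, map_pow, aeval_X,
        Algebra.algebraMap_eq_smul_one, smul_mul_assoc, one_mul, mul_smul_comm, smul_mul_assoc,
        (h1.pow_right k).eq]
  refine ⟨p, ?_⟩
  have h3 : ∀ w : ι → ℚ, X.mulVec w = (aeval B p).mulVec w := by
    intro w
    obtain ⟨r, rfl⟩ := hall w
    rw [Matrix.mulVec_mulVec, hcomm, ← Matrix.mulVec_mulVec, ← hp, Matrix.mulVec_mulVec,
      Matrix.mulVec_mulVec, ← map_mul, ← map_mul, mul_comm]
  ext i j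
  have h4 := congrFun (h3 (Pi.single j 1)) i
  rw [Matrix.mulVec_single_one, Matrix.mulVec_single_one] at h4
  exact h4

/-- Integer matrices commuting with such a matrix commute. -/
theorem comm_of_irr [Nonempty ι] (h : Matrix ι ι ℤ)
    (hirr : Irreducible (minpoly ℚ (h.map (Int.cast : ℤ → ℚ))))
    (hdeg : (minpoly ℚ (h.map (Int.cast : ℤ → ℚ))).natDegree = Fintype.card ι)
    (X Y : Matrix ι ι ℤ) (hX : X * h = h * X) (hY : Y * h = h * Y) : X * Y = Y * X := by
  set φ : Matrix ι ι ℤ →+* Matrix ι ι ℚ := (Int.castRingHom ℚ).mapMatrix with hφ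
  have h1 : ∀ X : Matrix ι ι ℤ, φ X = X.map (Int.cast : ℤ → ℚ) := fun X => rfl
  have hinj : Function.Injective φ := by
    intro A B hAB
    ext i j
    have h2 := congrFun (congrFun hAB i) j
    have h3 : ((A i j : ℤ) : ℚ) = ((B i j : ℤ) : ℚ) := h2
    exact_mod_cast h3
  obtain ⟨p, hp⟩ := poly_of_comm (h.map (Int.cast : ℤ → ℚ)) hirr hdeg (φ X) (by
    rw [← h1 h, ← map_mul, ← map_mul, hX])
  obtain ⟨q, hq⟩ := poly_of_comm (h.map (Int.cast : ℤ → ℚ)) hirr hdeg (φ Y) (by
    rw [← h1 h, ← map_mul, ← map_mul, hY])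
  apply hinj
  rw [map_mul, map_mul, hp, hq, ← map_mul, ← map_mul, mul_comm]

end Pool.Agent.H83.Sail
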