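import Mathlib

namespace Pool.Agent.H83.Sail

open Filter Topology

/-- Positive upper Banach density: intervals of unbounded lengths `N` containing at least `δ N`
elements of the set, for some `δ > 0`. -/
def PosDens (S : Set ℕ) : Prop :=
  ∃ δ : ℝ, 0 < δ ∧ ∀ N₀ : ℕ, ∃ N : ℕ, N₀ ≤ N ∧ ∃ a : ℕ,
    δ * N ≤ ((S ∩ Set.Ico a (a + N)).ncard : ℝ)

theorem fin_inter (S : Set ℕ) (a b : ℕ) : (S ∩ Set.Ico a b).Finite :=
  (Set.finite_Ico a b).subset Set.inter_subset_right

theorem PosDens.mono {S T : Set ℕ} (h : S ⊆ T) (hS : PosDens S) : PosDens T := by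
  obtain ⟨δ, hδ, H⟩ := hS
  refine ⟨δ, hδ, fun N₀ => ?_⟩
  obtain ⟨N, hN, a, ha⟩ := H N₀
  refine ⟨N, hN, a, ha.trans ?_⟩
  have h1 := Set.ncard_le_ncard (Set.inter_subset_inter_left (Set.Ico a (a + N)) h)
    (fin_inter T a (a + N))
  exact_mod_cast h1

/-- Partition regularity. -/
theorem PosDens.split {ι : Type*} [Fintype ι] {S : Set ℕ} (T : ι → Set ℕ)
    (h : ∀ k ∈ S, ∃ i, k ∈ T i) (hS : PosDens S) : ∃ i, PosDens (T i) := by
  classical
  obtain ⟨δ, hδ, H⟩ := hS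
  have hne : Nonempty ι := by
    obtain ⟨N, hN, a, ha⟩ := H 1
    have h1 : 0 < ((S ∩ Set.Ico a (a + N)).ncard : ℝ) := by
      refine lt_of_lt_of_le ?_ ha
      have : (1 : ℝ) ≤ N := by exact_mod_cast hN
      positivity
    have h2 : 0 < (S ∩ Set.Ico a (a + N)).ncard := by exact_mod_cast h1
    obtain ⟨k, hk⟩ := (Set.ncard_pos (fin_inter S a (a + N))).mp h2
    obtain ⟨i, -⟩ := h k hk.1
    exact ⟨i⟩
  have hm : (0 : ℝ) < Fintype.card ι := by exact_mod_cast Fintype.card_pos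
  by_contra hcon
  have hcon' : ∀ i, ∃ N₀ : ℕ, ∀ N, N₀ ≤ N → ∀ a : ℕ,
      ((T i ∩ Set.Ico a (a + N)).ncard : ℝ) < δ / Fintype.card ι * N := by
    intro i
    by_contra hi
    push Not at hi
    exact hcon ⟨i, δ / Fintype.card ι, by positivity, fun N₀ => by
      obtain ⟨N, h1, a, h2⟩ := hi N₀
      exact ⟨N, h1, a, h2⟩⟩
  choose N₀ hN₀ using hcon'
  obtain ⟨N, hN, a, ha⟩ := H (∑ i, N₀ i)
  have h1 : S ∩ Set.Ico a (a + N) ⊆ ⋃ i, T i ∩ Set.Ico a (a + N) := by
    rintro k ⟨hk, hk'⟩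
    obtain ⟨i, hi⟩ := h k hk
    exact Set.mem_iUnion.mpr ⟨i, hi, hk'⟩
  have h2 : (S ∩ Set.Ico a (a + N)).ncard ≤ ∑ i, (T i ∩ Set.Ico a (a + N)).ncard := by
    refine (Set.ncard_le_ncard h1 (Set.finite_iUnion (fun i => fin_inter _ _ _))).trans ?_
    have h5 := Finset.set_ncard_biUnion_le Finset.univ (fun i => T i ∩ Set.Ico a (a + N))
    simpa using h5
  have h3 : ((S ∩ Set.Ico a (a + N)).ncard : ℝ) < δ * N := by
    calc ((S ∩ Set.Ico a (a + N)).ncard : ℝ)
        ≤ ∑ i, ((T i ∩ Set.Ico a (a + N)).ncard : ℝ) := by exact_mod_cast h2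
      _ < ∑ _i : ι, δ / Fintype.card ι * N := by
          refine Finset.sum_lt_sum_of_nonempty Finset.univ_nonempty (fun i _ => ?_)
          exact hN₀ i N ((Finset.single_le_sum (f := N₀) (fun _ _ => Nat.zero_le _)
            (Finset.mem_univ i)).trans hN) a
      _ = δ * N := by
          rw [Finset.sum_const, Finset.card_univ, nsmul_eq_mul]
          field_simp
  linarith

/-- A set of positive density is unbounded. -/
theorem PosDens.unbounded {S : Set ℕ} (hS : PosDens S) (K : ℕ) : ∃ k ∈ S, K ≤ k := by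
  obtain ⟨δ, hδ, H⟩ := hS
  by_contra hcon
  push Not at hcon
  obtain ⟨N₀, hN₀⟩ := exists_nat_gt (K / δ)
  obtain ⟨N, hN, a, ha⟩ := H N₀
  have h1 : S ∩ Set.Ico a (a + N) ⊆ Set.Ico 0 K := fun k hk =>
    ⟨Nat.zero_le _, hcon k hk.1⟩
  have h2 := Set.ncard_le_ncard h1 (Set.finite_Ico 0 K)
  have h3 : (Set.Ico 0 K).ncard = K := by
    rw [← Finset.coe_Ico, Set.ncard_coe_finset, Nat.card_Ico, Nat.sub_zero]
  rw [h3] at h2
  have h4 : ((S ∩ Set.Ico a (a + N)).ncard : ℝ) ≤ K := by exact_mod_cast h2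
  have h5 : (N₀ : ℝ) ≤ N := by exact_mod_cast hN
  have h6 : (K : ℝ) < δ * N := by
    rw [div_lt_iff₀ hδ] at hN₀
    nlinarith
  linarith

/-- The elements with no later element within distance `H` are sparse. -/
theorem sparse (S : Set ℕ) (H : ℕ) (hH : 0 < H) (a N : ℕ) :
    ({k ∈ S | ∀ m, 1 ≤ m → m < H → k + m ∉ S} ∩ Set.Ico a (a + N)).ncard ≤ N / H + 2 := by
  set T : Set ℕ := {k ∈ S | ∀ m, 1 ≤ m → m < H → k + m ∉ S} with hT
  have hinj : Set.InjOn (fun k => k / H) (T ∩ Set.Ico a (a + N)) := by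
    have key : ∀ x ∈ T, ∀ y ∈ T, x < y → x / H ≠ y / H := by
      intro x hx y hy hxy heq
      have h1 : y - x < H := by
        have h2 := Nat.div_add_mod x H
        have h3 := Nat.div_add_mod y H
        have h4 := Nat.mod_lt y hH
        rw [heq] at h2
        omega
      have h2 := hx.2 (y - x) (by omega) h1
      rw [Nat.add_sub_cancel' hxy.le] at h2
      exact h2 hy.1
    intro x hx y hy heq
    rcases lt_trichotomy x y with h | h | h
    · exact absurd heq (key x hx.1 y hy.1 h)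
    · exact h
    · exact absurd heq.symm (key y hy.1 x hx.1 h)
  rw [← hinj.ncard_image]
  have h1 : (fun k => k / H) '' (T ∩ Set.Ico a (a + N)) ⊆
      Set.Ico (a / H) (a / H + N / H + 2) := by
    rintro _ ⟨k, ⟨-, hk1, hk2⟩, rfl⟩
    refine ⟨Nat.div_le_div_right hk1, ?_⟩
    have h2 : k / H ≤ (a + N) / H := Nat.div_le_div_right hk2.le
    have h3 : (a + N) / H < a / H + N / H + 2 := by
      have h4 := Nat.div_add_mod a H
      have h5 := Nat.div_add_mod N H
      have h6 := Nat.mod_lt a hH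
      have h7 := Nat.mod_lt N hH
      rw [Nat.div_lt_iff_lt_mul hH]
      nlinarith
    exact lt_of_le_of_lt h2 h3
  refine (Set.ncard_le_ncard h1 (Set.finite_Ico _ _)).trans (le_of_eq ?_)
  rw [← Finset.coe_Ico, Set.ncard_coe_finset, Nat.card_Ico, add_assoc, Nat.add_sub_cancel_left]

/-- Some shift of the set meets it in a set of positive density. -/
theorem PosDens.shift {S : Set ℕ} (hS : PosDens S) :
    ∃ m : ℕ, 1 ≤ m ∧ PosDens {k | k ∈ S ∧ k + m ∈ S} := by
  obtain ⟨δ, hδ, hD⟩ := hS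
  obtain ⟨H, hH⟩ := exists_nat_gt (4 / δ)
  have hH0 : 0 < H := by
    have : (0 : ℝ) < H := lt_trans (by positivity) hH
    exact_mod_cast this
  have hH' : 4 < δ * H := by
    rw [div_lt_iff₀ hδ] at hH
    linarith
  set S' : Set ℕ := {k ∈ S | ∃ m, 1 ≤ m ∧ m < H ∧ k + m ∈ S} with hS'
  have hS'd : PosDens S' := by
    refine ⟨δ / 4, by positivity, fun N₀ => ?_⟩
    obtain ⟨N₁, hN₁⟩ := exists_nat_gt (4 / δ)
    obtain ⟨N, hN, a, ha⟩ := hD (N₀ + N₁)
    refine ⟨N, by omega, a, ?_⟩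
    have h1 : S ∩ Set.Ico a (a + N) ⊆ (S' ∩ Set.Ico a (a + N)) ∪
        ({k ∈ S | ∀ m, 1 ≤ m → m < H → k + m ∉ S} ∩ Set.Ico a (a + N)) := by
      rintro k ⟨hk, hk'⟩
      by_cases h : ∃ m, 1 ≤ m ∧ m < H ∧ k + m ∈ S
      · exact Or.inl ⟨⟨hk, h⟩, hk'⟩
      · push Not at h
        exact Or.inr ⟨⟨hk, h⟩, hk'⟩
    have h2 : (S ∩ Set.Ico a (a + N)).ncard ≤ (S' ∩ Set.Ico a (a + N)).ncard + (N / H + 2) := by
      refine (Set.ncard_le_ncard h1 ((fin_inter _ _ _).union (fin_inter _ _ _))).trans ?_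
      refine (Set.ncard_union_le _ _).trans ?_
      exact Nat.add_le_add_left (sparse S H hH0 a N) _
    have h3 : ((S ∩ Set.Ico a (a + N)).ncard : ℝ) ≤
        ((S' ∩ Set.Ico a (a + N)).ncard : ℝ) + ((N : ℝ) / H + 2) := by
      have h4 : ((N / H : ℕ) : ℝ) ≤ (N : ℝ) / H := Nat.cast_div_le
      have h5 : ((S ∩ Set.Ico a (a + N)).ncard : ℝ) ≤
        ((S' ∩ Set.Ico a (a + N)).ncard : ℝ) + (((N / H : ℕ) : ℝ) + 2) := by exact_mod_cast h2
      linarith
    have hHr : (0 : ℝ) < H := by exact_mod_cast hH0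
    have h4 : (N : ℝ) / H ≤ δ / 4 * N := by
      rw [div_le_iff₀ hHr]
      have : (0 : ℝ) ≤ N := Nat.cast_nonneg _
      nlinarith
    have h5 : (4 : ℝ) < δ * N := by
      have h6 : (N₁ : ℝ) ≤ N := by
        have : N₁ ≤ N := by omega
        exact_mod_cast this
      rw [div_lt_iff₀ hδ] at hN₁
      nlinarith
    linarith
  obtain ⟨m, hm⟩ := PosDens.split (ι := Fin H)
    (fun m => {k | 1 ≤ (m : ℕ) ∧ k ∈ S ∧ k + (m : ℕ) ∈ S})
    (fun k hk => by
      obtain ⟨h1, m, h2, h3, h4⟩ := hk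
      exact ⟨⟨m, h3⟩, h2, h1, h4⟩) hS'd
  obtain ⟨k, hk, -⟩ := hm.unbounded 0
  exact ⟨m, hk.1, hm.mono (fun k hk => hk.2)⟩

/-- An exponential sum with unimodular, multiplicatively independent frequencies does not tend to
zero along a set of positive density. -/
theorem expsum {J : Type*} [DecidableEq J] (z : J → ℂ) (T : Finset J) :
    T.Nonempty → (∀ φ ∈ T, ‖z φ‖ = 1) →
    (∀ φ ∈ T, ∀ ψ ∈ T, φ ≠ ψ → ∀ m : ℕ, 1 ≤ m → z φ ^ m ≠ z ψ ^ m) →
    ∀ (c : J → ℂ), (∀ φ ∈ T, c φ ≠ 0) → ∀ S : Set ℕ, PosDens S →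
    ¬ Tendsto (fun k : ℕ => ∑ φ ∈ T, c φ * z φ ^ k) (atTop ⊓ 𝓟 S) (𝓝 0) := by
  induction T using Finset.induction_on with
  | empty => intro h; exact absurd h Finset.not_nonempty_empty
  | insert ψ T hψ ih =>
    intro _ hz1 hz c hc S hS hlim
    rcases T.eq_empty_or_nonempty with rfl | hT
    · rw [Metric.tendsto_nhds] at hlim
      have hcψ := hc ψ (Finset.mem_insert_self _ _)
      have h1 := hlim ‖c ψ‖ (norm_pos_iff.mpr hcψ)
      rw [eventually_inf_principal, eventually_atTop] at h1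
      obtain ⟨K, hK⟩ := h1
      obtain ⟨k, hk, hk'⟩ := hS.unbounded K
      have h2 := hK k hk' hk
      rw [insert_empty_eq, Finset.sum_singleton, dist_zero_right, norm_mul, norm_pow,
        hz1 ψ (Finset.mem_insert_self _ _), one_pow, mul_one] at h2
      exact lt_irrefl _ h2
    · obtain ⟨m, hm, hSm⟩ := hS.shift
      refine ih hT (fun φ hφ => hz1 φ (Finset.mem_insert_of_mem hφ))
        (fun φ hφ χ hχ => hz φ (Finset.mem_insert_of_mem hφ) χ (Finset.mem_insert_of_mem hχ))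
        (fun φ => c φ * (z φ ^ m - z ψ ^ m)) (fun φ hφ => ?_)
        {k | k ∈ S ∧ k + m ∈ S} hSm ?_
      · refine mul_ne_zero (hc φ (Finset.mem_insert_of_mem hφ)) (sub_ne_zero.mpr ?_)
        refine hz φ (Finset.mem_insert_of_mem hφ) ψ (Finset.mem_insert_self _ _) ?_ m hm
        rintro rfl
        exact hψ hφ
      · have hle : (atTop ⊓ 𝓟 {k | k ∈ S ∧ k + m ∈ S} : Filter ℕ) ≤ atTop ⊓ 𝓟 S :=
          inf_le_inf_left _ (principal_mono.mpr (fun k hk => hk.1))
        have h1 := hlim.mono_left hle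
        have hsh : Tendsto (fun k : ℕ => k + m) (atTop ⊓ 𝓟 {k | k ∈ S ∧ k + m ∈ S})
            (atTop ⊓ 𝓟 S) := by
          refine tendsto_inf.mpr ⟨(tendsto_add_atTop_nat m).mono_left inf_le_left, ?_⟩
          rw [tendsto_principal]
          exact eventually_inf_principal.mpr (Eventually.of_forall (fun k hk => hk.2))
        have h2 := hlim.comp hsh
        have h3 := h2.sub (h1.const_mul (z ψ ^ m))
        rw [mul_zero, sub_zero] at h3
        refine h3.congr (fun k => ?_)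
        simp only [Function.comp]
        rw [Finset.sum_insert hψ, Finset.sum_insert hψ, mul_add, Finset.mul_sum]
        have h4 : ∀ φ, c φ * (z φ ^ m - z ψ ^ m) * z φ ^ k =
            c φ * z φ ^ (k + m) - z ψ ^ m * (c φ * z φ ^ k) := by
          intro φ
          rw [pow_add]
          ring
        simp_rw [h4]
        rw [Finset.sum_sub_distrib, pow_add]
        ring

end Pool.Agent.H83.Sail
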