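import Mathlib

/-!
# Almost nonnegative matrices with almost nonnegative inverse are almost monomial
-/

namespace Pool.Agent.H83.Sail

variable {ι : Type*} [Fintype ι] [DecidableEq ι]

theorem half [Nonempty ι] (G : Matrix ι ι ℝ) (κ T ε ρ : ℝ) (hκ : 0 < κ) (hκT : κ ≤ T)
    (h1 : ∀ i0, ∃ x : ι → ℝ, (∀ k, 0 ≤ x k) ∧ κ * Real.exp ρ ≤ x i0 ∧
      (∀ k, k ≠ i0 → x k ≤ T) ∧ ∀ j, 0 ≤ G.mulVec x j)
    (a : ι → ℝ) (ha : ∀ i, κ * Real.exp (-ε) ≤ a i) (ha' : ∀ i, a i ≤ T * Real.exp ε)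
    (hb : ∀ i, G.mulVec a i ≤ T * Real.exp ε)
    (hsm : 4 * (Fintype.card ι : ℝ) ^ 2 * (T / κ) ^ 2 * Real.exp (2 * ε - ρ) ≤ 1) :
    (∀ i j, |G i j| ≤ 2 * (T / κ) * Real.exp (2 * ε)) ∧
    (∀ i j, -(2 * Fintype.card ι * (T / κ) ^ 2 * Real.exp (2 * ε - ρ)) ≤ G i j) := by
  set n : ℝ := (Fintype.card ι : ℝ) with hn
  have hn1 : 1 ≤ n := by
    rw [hn]
    exact_mod_cast Fintype.card_pos
  have hT : 0 < T := hκ.trans_le hκT
  obtain ⟨⟨p, q⟩, -, hpq⟩ := Finset.exists_max_image (Finset.univ : Finset (ι × ι))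
    (fun x => |G x.1 x.2|) Finset.univ_nonempty
  set g : ℝ := |G p q| with hg
  have hg0 : 0 ≤ g := abs_nonneg _
  have hgmax : ∀ i j, |G i j| ≤ g := fun i j => hpq (i, j) (Finset.mem_univ _)
  have heρ : 0 < Real.exp ρ := Real.exp_pos ρ
  set ν : ℝ := n * g * (T / κ) * Real.exp (-ρ) with hν
  have hν0 : 0 ≤ ν := by positivity
  have hneg : ∀ j i0, -ν ≤ G j i0 := by
    intro j i0
    rcases le_total 0 (G j i0) with h | h
    · linarith
    · obtain ⟨x, hx0, hxi, hxk, hGx⟩ := h1 i0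
      have h2 := hGx j
      have h3 : G.mulVec x j = G j i0 * x i0 + ∑ k ∈ Finset.univ.erase i0, G j k * x k := by
        rw [Matrix.mulVec, dotProduct, ← Finset.add_sum_erase Finset.univ _ (Finset.mem_univ i0)]
      have h4 : ∑ k ∈ Finset.univ.erase i0, G j k * x k ≤ n * (g * T) := by
        have h5 : ∀ k ∈ Finset.univ.erase i0, G j k * x k ≤ g * T := fun k hk => by
          refine (mul_le_mul_of_nonneg_right (le_abs_self _) (hx0 k)).trans ?_
          exact mul_le_mul (hgmax j k) (hxk k (Finset.ne_of_mem_erase hk)) (hx0 k) hg0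
        refine (Finset.sum_le_card_nsmul _ _ _ h5).trans ?_
        rw [nsmul_eq_mul, hn]
        refine mul_le_mul_of_nonneg_right ?_ (by positivity)
        exact_mod_cast Finset.card_le_univ _
      have h5 : G j i0 * x i0 ≤ G j i0 * (κ * Real.exp ρ) :=
        mul_le_mul_of_nonpos_left hxi h
      have h6 : -(G j i0) * (κ * Real.exp ρ) ≤ n * (g * T) := by
        rw [h3] at h2
        linarith
      have h7 : -(G j i0) ≤ n * (g * T) / (κ * Real.exp ρ) := by
        rw [le_div_iff₀ (by positivity)]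
        exact h6
      have h8 : n * (g * T) / (κ * Real.exp ρ) = ν := by
        rw [hν, Real.exp_neg]
        field_simp
      linarith
  have ha0 : ∀ i, 0 < a i := fun i => lt_of_lt_of_le (by positivity) (ha i)
  have hup : g * (κ * Real.exp (-ε)) ≤ T * Real.exp ε * (1 + 2 * n * ν) := by
    have h2 : |G p q| * a q ≤ ∑ k, (G p k + 2 * ν) * a k := by
      have h3 : ∀ k, |G p k| * a k ≤ (G p k + 2 * ν) * a k := by
        intro k
        refine mul_le_mul_of_nonneg_right ?_ (ha0 k).le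
        have h4 := hneg p k
        rcases le_total 0 (G p k) with h | h
        · rw [abs_of_nonneg h]
          linarith
        · rw [abs_of_nonpos h]
          linarith
      refine le_trans ?_ (Finset.sum_le_sum (fun k _ => h3 k))
      exact Finset.single_le_sum (f := fun k => |G p k| * a k)
        (fun k _ => mul_nonneg (abs_nonneg _) (ha0 k).le) (Finset.mem_univ q)
    have h3 : ∑ k, (G p k + 2 * ν) * a k = G.mulVec a p + 2 * ν * ∑ k, a k := by
      rw [Matrix.mulVec, dotProduct, Finset.mul_sum, ← Finset.sum_add_distrib]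
      exact Finset.sum_congr rfl (fun k _ => by ring)
    have h4 : ∑ k, a k ≤ n * (T * Real.exp ε) := by
      refine (Finset.sum_le_card_nsmul _ _ _ (fun k _ => ha' k)).trans ?_
      rw [Finset.card_univ, nsmul_eq_mul]
    have h5 : g * (κ * Real.exp (-ε)) ≤ |G p q| * a q :=
      mul_le_mul_of_nonneg_left (ha q) hg0
    have h6 : 2 * ν * ∑ k, a k ≤ 2 * ν * (n * (T * Real.exp ε)) :=
      mul_le_mul_of_nonneg_left h4 (by positivity)
    rw [h3] at h2
    have h7 := hb p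
    have h8 : T * Real.exp ε * (1 + 2 * n * ν) =
        T * Real.exp ε + 2 * ν * (n * (T * Real.exp ε)) := by ring
    rw [h8]
    linarith
  have hexp2 : Real.exp (2 * ε) = Real.exp ε * Real.exp ε := by
    rw [← Real.exp_add]
    ring_nf
  have hg1 : g ≤ (T / κ) * Real.exp (2 * ε) * (1 + 2 * n * ν) := by
    have h2 : g = g * (κ * Real.exp (-ε)) * (Real.exp ε / κ) := by
      rw [Real.exp_neg]
      field_simp
    rw [h2]
    refine (mul_le_mul_of_nonneg_right hup (by positivity)).trans (le_of_eq ?_)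
    rw [hexp2]
    field_simp
  have hsm' : (T / κ) * Real.exp (2 * ε) * (2 * n * ν) ≤ g / 2 := by
    have h2 : (T / κ) * Real.exp (2 * ε) * (2 * n * ν) =
        g / 2 * (4 * n ^ 2 * (T / κ) ^ 2 * Real.exp (2 * ε - ρ)) := by
      rw [hν, Real.exp_sub, Real.exp_neg]
      ring
    rw [h2]
    exact mul_le_of_le_one_right (by positivity) hsm
  have hg2 : g ≤ 2 * (T / κ) * Real.exp (2 * ε) := by
    have h2 : (T / κ) * Real.exp (2 * ε) * (1 + 2 * n * ν) =
        (T / κ) * Real.exp (2 * ε) + (T / κ) * Real.exp (2 * ε) * (2 * n * ν) := by ring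
    rw [h2] at hg1
    linarith
  refine ⟨fun i j => (hgmax i j).trans hg2, fun i j => ?_⟩
  refine le_trans ?_ (hneg i j)
  rw [neg_le_neg_iff]
  have h2 : 2 * n * (T / κ) ^ 2 * Real.exp (2 * ε - ρ) =
      n * (2 * (T / κ) * Real.exp (2 * ε)) * (T / κ) * Real.exp (-ρ) := by
    rw [Real.exp_sub, Real.exp_neg]
    ring
  rw [h2, hν]
  gcongr

theorem mul_lower {x y η Γ : ℝ} (hη : 0 ≤ η) (hΓ : 0 ≤ Γ) (hx : -η ≤ x) (hy : -η ≤ y)
    (hx' : |x| ≤ Γ) (hy' : |y| ≤ Γ) : -(η * Γ) ≤ x * y := by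
  obtain ⟨hx1, hx2⟩ := abs_le.mp hx'
  obtain ⟨hy1, hy2⟩ := abs_le.mp hy'
  rcases le_total 0 x with h | h <;> rcases le_total 0 y with h' | h'
  · have := mul_nonneg h h'
    have := mul_nonneg hη hΓ
    linarith
  · nlinarith
  · nlinarith
  · have := mul_nonneg_of_nonpos_of_nonpos h h'
    have := mul_nonneg hη hΓ
    linarith

/-- Off-diagonal terms of a product equal to one are small. -/
theorem term_small (G H : Matrix ι ι ℝ) (η Γ : ℝ) (hη : 0 ≤ η) (hΓ : 0 ≤ Γ)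
    (hG : ∀ i j, |G i j| ≤ Γ) (hH : ∀ i j, |H i j| ≤ Γ) (hG' : ∀ i j, -η ≤ G i j)
    (hH' : ∀ i j, -η ≤ H i j) (hGH : G * H = 1) (i j k : ι) (hik : i ≠ k) :
    |G i j * H j k| ≤ Fintype.card ι * (η * Γ) := by
  have hcard : (1 : ℝ) ≤ Fintype.card ι := by
    have : 0 < Fintype.card ι := Fintype.card_pos_iff.mpr ⟨i⟩
    exact_mod_cast this
  have hηΓ : 0 ≤ η * Γ := mul_nonneg hη hΓ
  have h1 := congrFun (congrFun hGH i) k
  rw [Matrix.mul_apply, Matrix.one_apply_ne hik,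
    ← Finset.add_sum_erase Finset.univ _ (Finset.mem_univ j)] at h1
  have hlow : ∀ l, -(η * Γ) ≤ G i l * H l k := fun l =>
    mul_lower hη hΓ (hG' i l) (hH' l k) (hG i l) (hH l k)
  have h2 : -(Fintype.card ι * (η * Γ)) ≤ ∑ l ∈ Finset.univ.erase j, G i l * H l k := by
    have h3 : ∑ _l ∈ Finset.univ.erase j, -(η * Γ) ≤
        ∑ l ∈ Finset.univ.erase j, G i l * H l k :=
      Finset.sum_le_sum (fun l _ => hlow l)
    refine le_trans ?_ h3
    rw [Finset.sum_const, nsmul_eq_mul, mul_neg, neg_le_neg_iff]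
    refine mul_le_mul_of_nonneg_right ?_ hηΓ
    exact_mod_cast Finset.card_le_univ _
  rw [abs_le]
  constructor
  · refine le_trans ?_ (hlow j)
    rw [neg_le_neg_iff]
    exact le_mul_of_one_le_left hηΓ hcard
  · linarith

theorem monomial_near [Nonempty ι] (G H : Matrix ι ι ℝ) (η Γ : ℝ) (hη : 0 ≤ η) (hΓ : 1 ≤ Γ)
    (hG : ∀ i j, |G i j| ≤ Γ) (hH : ∀ i j, |H i j| ≤ Γ) (hG' : ∀ i j, -η ≤ G i j)
    (hH' : ∀ i j, -η ≤ H i j) (hGH : G * H = 1) (hHG : H * G = 1)
    (hsm : 2 * Fintype.card ι * η * Γ ≤ 1) (i : ι) :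
    ∃ j, 1 / (Fintype.card ι * Γ) ≤ G i j ∧ 1 / (Fintype.card ι * Γ) ≤ H j i ∧
      ∀ l, l ≠ j → |G i l| ≤ Fintype.card ι ^ 2 * η * Γ ^ 2 := by
  set n : ℝ := (Fintype.card ι : ℝ) with hn
  have hn1 : 1 ≤ n := by
    rw [hn]
    exact_mod_cast Fintype.card_pos
  have hΓ0 : 0 < Γ := by linarith
  have hn0 : 0 < n := by linarith
  obtain ⟨j, hj⟩ : ∃ j, 1 / n ≤ G i j * H j i := by
    by_contra hcon
    push Not at hcon
    have h1 := congrFun (congrFun hGH i) i
    rw [Matrix.mul_apply, Matrix.one_apply_eq] at h1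
    have h2 : ∑ j, G i j * H j i < ∑ _j : ι, 1 / n :=
      Finset.sum_lt_sum_of_nonempty Finset.univ_nonempty (fun j _ => hcon j)
    rw [h1, Finset.sum_const, Finset.card_univ, nsmul_eq_mul, ← hn,
      mul_one_div_cancel hn0.ne'] at h2
    exact lt_irrefl _ h2
  have hηsm : n * (η * η) ≤ 1 / 2 := by
    have h1 : η ≤ Γ := by
      have h2 : η ≤ 2 * n * η * Γ := by
        have h3 : 1 ≤ 2 * n * Γ := by nlinarith
        nlinarith
      linarith
    nlinarith
  have hpos : 0 < G i j ∧ 0 < H j i := by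
    rcases lt_or_ge 0 (G i j) with h | h
    · refine ⟨h, ?_⟩
      by_contra hcon
      push Not at hcon
      have h1 := mul_nonpos_of_nonneg_of_nonpos h.le hcon
      have h2 : 0 < 1 / n := by positivity
      linarith
    · exfalso
      rcases lt_or_ge (H j i) 0 with h' | h'
      · have h1 := hG' i j
        have h2 := hH' j i
        have h3 : G i j * H j i ≤ η * η := by nlinarith
        have h4 : 1 / n * n ≤ η * η * n := mul_le_mul_of_nonneg_right (hj.trans h3) hn0.le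
        rw [one_div_mul_cancel hn0.ne'] at h4
        linarith
      · have h1 := mul_nonpos_of_nonpos_of_nonneg h h'
        have h2 : 0 < 1 / n := by positivity
        linarith
  have hGub : G i j ≤ Γ := (le_abs_self _).trans (hG i j)
  have hHub : H j i ≤ Γ := (le_abs_self _).trans (hH j i)
  have hG1 : 1 / (n * Γ) ≤ G i j := by
    rw [div_le_iff₀ (by positivity)]
    have h1 : 1 ≤ G i j * H j i * n := by
      rw [div_le_iff₀ hn0] at hj
      exact hj
    have h2 : G i j * H j i ≤ G i j * Γ := mul_le_mul_of_nonneg_left hHub hpos.1.le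
    nlinarith
  have hH1 : 1 / (n * Γ) ≤ H j i := by
    rw [div_le_iff₀ (by positivity)]
    have h1 : 1 ≤ G i j * H j i * n := by
      rw [div_le_iff₀ hn0] at hj
      exact hj
    have h2 : G i j * H j i ≤ Γ * H j i := mul_le_mul_of_nonneg_right hGub hpos.2.le
    nlinarith
  refine ⟨j, hG1, hH1, fun l hl => ?_⟩
  have h1 := term_small H G η Γ hη hΓ0.le hH hG hH' hG' hHG j i l (Ne.symm hl)
  rw [abs_mul, abs_of_pos hpos.2, ← hn] at h1
  have h2 : 1 / (n * Γ) * |G i l| ≤ n * (η * Γ) :=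
    (mul_le_mul_of_nonneg_right hH1 (abs_nonneg _)).trans h1
  rw [div_mul_eq_mul_div, one_mul, div_le_iff₀ (by positivity)] at h2
  calc |G i l| ≤ n * (η * Γ) * (n * Γ) := h2
    _ = n ^ 2 * η * Γ ^ 2 := by ring

/-- The composition of almost monomial matrices of inverse patterns is almost diagonal. -/
theorem pattern_one [Nonempty ι] (G₁ H₂ : Matrix ι ι ℝ) (σ : ι → ι) (η Γ : ℝ) (hη : 0 ≤ η)
    (hΓ : 1 ≤ Γ) (hH2 : ∀ i j, |H₂ i j| ≤ Γ)
    (h1 : ∀ i, 1 / (Fintype.card ι * Γ) ≤ G₁ i (σ i))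
    (h1' : ∀ i l, l ≠ σ i → |G₁ i l| ≤ Fintype.card ι ^ 2 * η * Γ ^ 2)
    (h2 : ∀ i, 1 / (Fintype.card ι * Γ) ≤ H₂ (σ i) i)
    (hsm : 2 * (Fintype.card ι : ℝ) ^ 5 * η * Γ ^ 5 < 1) (i : ι) :
    Fintype.card ι ^ 2 * η * Γ ^ 2 < |(G₁ * H₂) i i| := by
  set n : ℝ := (Fintype.card ι : ℝ) with hn
  have hn1 : 1 ≤ n := by
    rw [hn]
    exact_mod_cast Fintype.card_pos
  have hΓ0 : 0 < Γ := by linarith
  have hn0 : 0 < n := by linarith
  refine lt_of_lt_of_le ?_ (le_abs_self _)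
  rw [Matrix.mul_apply, ← Finset.add_sum_erase Finset.univ _ (Finset.mem_univ (σ i))]
  have h3 : 1 / (n * Γ) * (1 / (n * Γ)) ≤ G₁ i (σ i) * H₂ (σ i) i :=
    mul_le_mul (h1 i) (h2 i) (by positivity) ((by positivity : (0 : ℝ) ≤ 1 / (n * Γ)).trans
      (h1 i))
  have h4 : |∑ l ∈ Finset.univ.erase (σ i), G₁ i l * H₂ l i| ≤ n * (n ^ 2 * η * Γ ^ 2 * Γ) := by
    refine (Finset.abs_sum_le_sum_abs _ _).trans ?_
    have h5 : ∀ l ∈ Finset.univ.erase (σ i), |G₁ i l * H₂ l i| ≤ n ^ 2 * η * Γ ^ 2 * Γ :=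
      fun l hl => by
        rw [abs_mul]
        exact mul_le_mul (h1' i l (Finset.ne_of_mem_erase hl)) (hH2 l i) (abs_nonneg _)
          (by positivity)
    refine (Finset.sum_le_card_nsmul _ _ _ h5).trans ?_
    rw [nsmul_eq_mul, hn]
    refine mul_le_mul_of_nonneg_right ?_ (by positivity)
    exact_mod_cast Finset.card_le_univ _
  have h5 := (abs_le.mp h4).1
  have h6 : n ^ 2 * η * Γ ^ 2 + n * (n ^ 2 * η * Γ ^ 2 * Γ) < 1 / (n * Γ) * (1 / (n * Γ)) := by
    rw [← mul_div_mul_comm, one_mul, lt_div_iff₀ (by positivity)]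
    refine lt_of_le_of_lt ?_ hsm
    have e1 : (n ^ 2 * η * Γ ^ 2 + n * (n ^ 2 * η * Γ ^ 2 * Γ)) * (n * Γ * (n * Γ)) =
        n ^ 4 * η * Γ ^ 4 + n ^ 5 * η * Γ ^ 5 := by ring
    rw [e1]
    have e2 : n ^ 4 * η * Γ ^ 4 ≤ n ^ 5 * η * Γ ^ 5 := by
      have e3 : n ^ 4 ≤ n ^ 5 := pow_le_pow_right₀ hn1 (by norm_num)
      have e4 : Γ ^ 4 ≤ Γ ^ 5 := pow_le_pow_right₀ hΓ (by norm_num)
      gcongr
    linarith
  linarith

end Pool.Agent.H83.Sail
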