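import Mathlib
import Pool.Agent.H83.Sail.Fincl

/-!
# Uniform estimates for the graph of nodes
-/

namespace Pool.Agent.H83.Sail

open Filter Topology

namespace Local

variable {Γ X : Type*} [Group Γ] [MulAction Γ X] {Adj Adj' : X → X → Prop}

/-- Paths of a given number of steps. -/
def Reach (Adj : X → X → Prop) : ℕ → X → X → Prop
  | 0, x, y => x = y
  | k + 1, x, y => ∃ u, Adj x u ∧ Reach Adj k u y

theorem PIso.reach {r k : ℕ} {x y : X} {g : Γ} (hg : PIso Adj (k + r) x g)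
    (h : Reach Adj k x y) : PIso Adj r y g := by
  induction k generalizing x with
  | zero =>
    have h1 : x = y := h
    rw [← h1]
    have h2 : 0 + r = r := Nat.zero_add r
    rwa [h2] at hg
  | succ k ih =>
    obtain ⟨u, hu, huy⟩ := h
    have h2 : k + 1 + r = (k + r) + 1 := by omega
    rw [h2] at hg
    exact ih (hg.2 u hu) huy

theorem Reach.trans {k l : ℕ} {x y z : X} (h : Reach Adj k x y) (h' : Reach Adj l y z) :
    Reach Adj (k + l) x z := by
  induction k generalizing x with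
  | zero =>
    have h1 : x = y := h
    rw [h1, Nat.zero_add]
    exact h'
  | succ k ih =>
    obtain ⟨u, hu, huy⟩ := h
    have h2 : k + 1 + l = (k + l) + 1 := by omega
    rw [h2]
    exact ⟨u, hu, ih huy⟩

theorem Reach.pad {k l : ℕ} (hkl : k ≤ l) {x y : X} (hx : Adj x x) (h : Reach Adj k x y) :
    Reach Adj l x y := by
  induction l, hkl using Nat.le_induction with
  | base => exact h
  | succ l _ ih => exact ⟨x, hx, ih⟩

theorem reach_of_rtg {x y : X} (h : Relation.ReflTransGen Adj x y) : ∃ k, Reach Adj k x y := by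
  induction h using Relation.ReflTransGen.head_induction_on with
  | refl => exact ⟨0, rfl⟩
  | head h1 _ ih =>
    obtain ⟨k, hk⟩ := ih
    exact ⟨k + 1, _, h1, hk⟩

theorem Reach.conj (u : Γ) (h : ∀ x y, Adj' x y ↔ Adj (u • x) (u • y)) {k : ℕ} {x y : X}
    (hr : Reach Adj' k x y) : Reach Adj k (u • x) (u • y) := by
  induction k generalizing x with
  | zero =>
    have h1 : x = y := hr
    rw [h1]
    rfl
  | succ k ih =>
    obtain ⟨w, hw, hwy⟩ := hr
    exact ⟨u • w, (h x w).mp hw, ih hwy⟩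

end Local

variable {ι : Type*} [Fintype ι] [DecidableEq ι]

theorem reach_forward [Nonempty ι] (c : ℝ) (hc : 0 < c) (Z : Matrix ι ι ℝ) (hZ : Z.det ≠ 0)
    (hmin : ∀ z : ι → ℤ, z ≠ 0 → c ≤ |∏ i, Z.mulVec (fun j => (z j : ℝ)) i|)
    (B : ℕ → Matrix ι ι ℝ) (hB : Tendsto B atTop (𝓝 Z)) (l : ℕ) : ∀ x y : ι → ℤ,
    Local.Reach (AdjW Z) l x y → ∀ᶠ k in atTop, Local.Reach (AdjW (B k)) l x y := by
  induction l with
  | zero => exact fun x y h => Eventually.of_forall (fun k => h)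
  | succ l ih =>
    rintro x y ⟨u, hu, huy⟩
    filter_upwards [adj_forward c hc Z hZ hmin B hB x u hu, ih u y huy] with k h1 h2
    exact ⟨u, h1, h2⟩

theorem node_of_limit [Nonempty ι] (hn : 2 ≤ Fintype.card ι) (c : ℝ) (hc : 0 < c)
    (Z : Matrix ι ι ℝ) (hZ : Z.det ≠ 0)
    (hmin : ∀ z : ι → ℤ, z ≠ 0 → c ≤ |∏ i, Z.mulVec (fun j => (z j : ℝ)) i|)
    (B : ℕ → Matrix ι ι ℝ) (hB : Tendsto B atTop (𝓝 Z))
    (hBmin : ∀ k, ∀ z : ι → ℤ, z ≠ 0 → c ≤ |∏ i, (B k).mulVec (fun j => (z j : ℝ)) i|)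
    (x : ι → ℤ) (hx : ∀ k, AdjW (B k) x x) : AdjW Z x x := by
  have h1 : InC Z x := by
    obtain ⟨k, hk⟩ := (inC_limit c hc Z hmin B hB x).exists
    exact hk.mp (hx k).inC
  obtain ⟨k, hk⟩ := (adj_backward hn c hc Z hZ hmin B hB hBmin x h1).exists
  exact hk x (hx k)

/-- Nodes near every unimodular vector, uniformly. -/
theorem near_unif [Nonempty ι] (c d : ℝ) (hc : 0 < c) :
    ∃ κ T : ℝ, 0 < κ ∧ κ ≤ T ∧ ∀ L : Matrix ι ι ℝ, L ∈ Good c d → ∀ s : ι → ℝ,
      (∀ i, 0 < s i) → ∏ i, s i = 1 → ∃ v : ι → ℤ, AdjW L v v ∧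
        ∀ i, κ * s i ≤ L.mulVec (fun j => (v j : ℝ)) i ∧
          L.mulVec (fun j => (v j : ℝ)) i ≤ T * s i := by
  have hex : ∃ T : ℕ, ∀ L : Matrix ι ι ℝ, L ∈ Good c d → ∀ s : ι → ℝ,
      (∀ i, 0 < s i) → ∏ i, s i = 1 → ∃ v : ι → ℤ, AdjW L v v ∧
        ∀ i, L.mulVec (fun j => (v j : ℝ)) i ≤ T * s i := by
    by_contra hcon
    push Not at hcon
    choose A hA s hs hs1 hbad using hcon
    obtain ⟨Z, ψ, U, hψ, hU, hlim, hZ⟩ := local_limit c d hc Set.univ isClosed_univ A hA s hs hs1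
      (fun k => (k : ℝ)) tendsto_natCast_atTop_atTop (fun _ _ _ _ => trivial)
    have hZgood := hZ.1
    have hZdet := good_det_ne hc hZgood
    set B : ℕ → Matrix ι ι ℝ := fun k => Matrix.diagonal (fun i => (s (ψ k) i)⁻¹) *
      (A (ψ k) * (U k).map (Int.cast : ℤ → ℝ)) with hB
    obtain ⟨κ, T, hκ, hT, hnear⟩ := near_node Z hZdet c hc hZgood.2.2
    obtain ⟨v, hv, -⟩ := hnear (fun _ => 1) (fun _ => one_pos) Finset.prod_const_one
    have h1 := adj_forward c hc Z hZdet hZgood.2.2 B hlim v v hv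
    have h2 : ∀ᶠ k in atTop, ∀ j, (B k).mulVec (fun l => (v l : ℝ)) j ≤ (ψ k : ℝ) := by
      refine eventually_all.mpr (fun j => ?_)
      have h6 := (row_tendsto B Z hlim (fun l => (v l : ℝ)) j).eventually_lt_const
        (lt_add_one _)
      have h7 : Tendsto (fun k => ((ψ k : ℕ) : ℝ)) atTop atTop :=
        tendsto_natCast_atTop_atTop.comp hψ.tendsto_atTop
      filter_upwards [h6, h7.eventually_ge_atTop
        (Z.mulVec (fun l => (v l : ℝ)) j + 1)] with k h8 h9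
      linarith
    obtain ⟨k, hk1, hk2⟩ := (h1.and h2).exists
    have hDpos : ∀ i, 0 < (s (ψ k) i)⁻¹ := fun i => inv_pos.mpr (hs _ i)
    obtain ⟨i, hi⟩ := hbad (ψ k) ((U k).mulVec v)
      ((adjW_scaled (A (ψ k)) _ hDpos (U k) (hU k) v v).mp hk1)
    have h3 := hk2 i
    rw [hB] at h3
    simp only at h3
    rw [scaled_row, inv_mul_le_iff₀ (hs _ i), mul_comm] at h3
    exact absurd h3 (not_le.mpr hi)
  obtain ⟨T, hT⟩ := hex
  obtain ⟨i0⟩ := (inferInstance : Nonempty ι)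
  have hT1 : (0 : ℝ) < (T : ℝ) + 1 := by positivity
  set κ : ℝ := min (c / ((T : ℝ) + 1) ^ Fintype.card ι * ((T : ℝ) + 1)) ((T : ℝ) + 1) with hκ
  refine ⟨κ, (T : ℝ) + 1, lt_min (by positivity) hT1, min_le_right _ _,
    fun L hL s hs hs1 => ?_⟩
  obtain ⟨v, hv, hvT⟩ := hT L hL s hs hs1
  have hvT' : ∀ i, L.mulVec (fun j => (v j : ℝ)) i ≤ ((T : ℝ) + 1) * s i := fun i => by
    have := hvT i
    nlinarith [hs i]
  refine ⟨v, hv, fun i => ⟨?_, hvT' i⟩⟩
  have hpos := fun i => hv.inC.pos hc hL.2.2 i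
  have h1 := lower_coord L c hL.2.2 (fun i => ((T : ℝ) + 1) * s i)
    (fun i => mul_pos hT1 (hs i)) v hv.inC.1 (fun i => by
      rw [abs_of_pos (hpos i)]
      have := hvT i
      nlinarith [hs i]) i
  rw [Finset.prod_mul_distrib, hs1, mul_one, Finset.prod_const, Finset.card_univ,
    abs_of_pos (hpos i), ← mul_assoc] at h1
  exact (mul_le_mul_of_nonneg_right (min_le_left _ _) (hs i).le).trans h1

/-- Nodes of one window are joined by short paths, uniformly. -/
theorem reach_unif [Nonempty ι] (hn : 2 ≤ Fintype.card ι) (c d : ℝ) (hc : 0 < c) (T : ℝ) :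
    ∃ K : ℕ, ∀ L : Matrix ι ι ℝ, L ∈ Good c d → ∀ s : ι → ℝ, (∀ i, 0 < s i) → ∏ i, s i = 1 →
      ∀ x y : ι → ℤ, AdjW L x x → AdjW L y y →
        (∀ i, L.mulVec (fun j => (x j : ℝ)) i ≤ T * s i) →
        (∀ i, L.mulVec (fun j => (y j : ℝ)) i ≤ T * s i) → Local.Reach (AdjW L) K x y := by
  by_contra hcon
  push Not at hcon
  choose A hA s hs hs1 x y hx hy hxT hyT hbad using hcon
  obtain ⟨Z, ψ, U, hψ, hU, hlim, hZ⟩ := local_limit c d hc Set.univ isClosed_univ A hA s hs hs1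
    (fun k => (k : ℝ)) tendsto_natCast_atTop_atTop (fun _ _ _ _ => trivial)
  have hZgood := hZ.1
  have hZdet := good_det_ne hc hZgood
  set B : ℕ → Matrix ι ι ℝ := fun k => Matrix.diagonal (fun i => (s (ψ k) i)⁻¹) *
      (A (ψ k) * (U k).map (Int.cast : ℤ → ℝ)) with hB
  have hBgood : ∀ k, B k ∈ Good c d := fun k =>
    good_transform c d _ (hA (ψ k)) _ (by rw [Finset.prod_inv_distrib, hs1, inv_one]) _ (hU k)
  choose W hW using fun k => (Matrix.isUnit_iff_isUnit_det (U k)).mpr (hU k)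
  have hconj : ∀ k a b, AdjW (B k) a b ↔ AdjW (A (ψ k)) (W k • a) (W k • b) := by
    intro k a b
    rw [act_def, act_def, hW]
    exact adjW_scaled (A (ψ k)) _ (fun i => inv_pos.mpr (hs _ i)) (U k) (hU k) a b
  set x' : ℕ → ι → ℤ := fun k => (W k)⁻¹ • x (ψ k) with hx'
  set y' : ℕ → ι → ℤ := fun k => (W k)⁻¹ • y (ψ k) with hy'
  have hWx : ∀ k, W k • x' k = x (ψ k) := fun k => smul_inv_smul _ _
  have hWy : ∀ k, W k • y' k = y (ψ k) := fun k => smul_inv_smul _ _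
  have hxn : ∀ k, AdjW (B k) (x' k) (x' k) := fun k => by
    rw [hconj, hWx]
    exact hx (ψ k)
  have hyn : ∀ k, AdjW (B k) (y' k) (y' k) := fun k => by
    rw [hconj, hWy]
    exact hy (ψ k)
  have hval : ∀ k (z z' : ι → ℤ), W k • z = z' →
      (∀ i, (A (ψ k)).mulVec (fun j => (z' j : ℝ)) i ≤ T * s (ψ k) i) →
      ∀ i, (B k).mulVec (fun j => (z j : ℝ)) i ≤ T := by
    intro k z z' hz hz' i
    rw [act_def, hW] at hz
    rw [hB]
    simp only
    rw [scaled_row, hz, inv_mul_le_iff₀ (hs _ i), mul_comm]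
    exact hz' i
  obtain ⟨C, hC0, hC⟩ := bound_near B Z hZdet hlim
  set S : ℝ := ∑ _i : ι, T with hS
  have hfin := box_finite (ι := ι) (C * S)
  have hbox : ∀ k, (∀ (z : ι → ℝ) (j : ι), |z j| ≤ C * ∑ i, |(B k).mulVec z i|) →
      ∀ z : ι → ℤ, AdjW (B k) z z → (∀ i, (B k).mulVec (fun j => (z j : ℝ)) i ≤ T) →
      ∀ j, |(z j : ℝ)| ≤ C * S := by
    intro k hCk z hz hzT j
    refine (hCk (fun j => (z j : ℝ)) j).trans (mul_le_mul_of_nonneg_left ?_ hC0.le)
    refine Finset.sum_le_sum (fun i _ => ?_)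
    rw [abs_of_nonneg (hz.inC.2 i)]
    exact hzT i
  obtain ⟨M, hM⟩ := eventually_atTop.mp hC
  have hfin' : Finite {y : ι → ℤ | ∀ j, |(y j : ℝ)| ≤ C * S} := hfin.to_subtype
  obtain ⟨⟨⟨x0, hx0⟩, ⟨y0, hy0⟩⟩, φ, hφ, hφxy⟩ := pigeon_seq (fun k =>
    ((⟨x' (k + M), hbox _ (hM _ (Nat.le_add_left _ _)) _ (hxn _)
      (hval _ _ _ (hWx _) (hxT _))⟩, ⟨y' (k + M), hbox _ (hM _ (Nat.le_add_left _ _)) _ (hyn _)
      (hval _ _ _ (hWy _) (hyT _))⟩) :
      {y : ι → ℤ | ∀ j, |(y j : ℝ)| ≤ C * S} × {y : ι → ℤ | ∀ j, |(y j : ℝ)| ≤ C * S}))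
  have hφx : ∀ k, x' (φ k + M) = x0 := fun k =>
    congrArg (fun p => (p.1 : {y : ι → ℤ | ∀ j, |(y j : ℝ)| ≤ C * S}).1) (hφxy k)
  have hφy : ∀ k, y' (φ k + M) = y0 := fun k =>
    congrArg (fun p => (p.2 : {y : ι → ℤ | ∀ j, |(y j : ℝ)| ≤ C * S}).1) (hφxy k)
  have hφt : Tendsto (fun k => φ k + M) atTop atTop :=
    tendsto_atTop_mono (fun k => Nat.le_add_right _ _) hφ.tendsto_atTop
  have hB2 : Tendsto (fun k => B (φ k + M)) atTop (𝓝 Z) := hlim.comp hφt
  have hx0Z : AdjW Z x0 x0 := node_of_limit hn c hc Z hZdet hZgood.2.2 _ hB2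
    (fun k => (hBgood _).2.2) x0 (fun k => by
      have h1 := hxn (φ k + M)
      rwa [hφx] at h1)
  have hy0Z : AdjW Z y0 y0 := node_of_limit hn c hc Z hZdet hZgood.2.2 _ hB2
    (fun k => (hBgood _).2.2) y0 (fun k => by
      have h1 := hyn (φ k + M)
      rwa [hφy] at h1)
  obtain ⟨l, hl⟩ := Local.reach_of_rtg (connected Z hZdet c hc hZgood.2.2 x0 y0 hx0Z hy0Z)
  have h1 := reach_forward c hc Z hZdet hZgood.2.2 _ hB2 l x0 y0 hl
  have h2 : ∀ᶠ k in atTop, l ≤ ψ (φ k + M) :=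
    (hψ.tendsto_atTop.comp hφt).eventually_ge_atTop l
  obtain ⟨k, hk1, hk2⟩ := (h1.and h2).exists
  refine hbad (ψ (φ k + M)) ?_
  have h3 := Local.Reach.conj (W (φ k + M)) (hconj _) hk1
  rw [← hφx k, ← hφy k, hWx, hWy] at h3
  exact h3.pad hk2 (hx _)

omit [DecidableEq ι] in
/-- Exponentials of vectors with sum zero. -/
theorem exp_prod (t : ι → ℝ) (ht : ∑ i, t i = 0) : ∏ i, Real.exp (t i) = 1 := by
  rw [← Real.exp_sum, ht, Real.exp_zero]

/-- Nodes near two directions are joined by a path of length proportional to the distance. -/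
theorem chain_unif [Nonempty ι] (hn : 2 ≤ Fintype.card ι) (c d : ℝ) (hc : 0 < c) (κ T : ℝ)
    (hκ : 0 < κ) (hκT : κ ≤ T)
    (hnear : ∀ L : Matrix ι ι ℝ, L ∈ Good c d → ∀ s : ι → ℝ,
      (∀ i, 0 < s i) → ∏ i, s i = 1 → ∃ v : ι → ℤ, AdjW L v v ∧
        ∀ i, κ * s i ≤ L.mulVec (fun j => (v j : ℝ)) i ∧
          L.mulVec (fun j => (v j : ℝ)) i ≤ T * s i) :
    ∃ K : ℕ, ∀ L : Matrix ι ι ℝ, L ∈ Good c d → ∀ N : ℕ, ∀ t t' : ι → ℝ, ∑ i, t i = 0 →
      ∑ i, t' i = 0 → (∀ i, |t i - t' i| ≤ N) → ∀ x y : ι → ℤ, AdjW L x x → AdjW L y y →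
        (∀ i, L.mulVec (fun j => (x j : ℝ)) i ≤ T * Real.exp (t i)) →
        (∀ i, L.mulVec (fun j => (y j : ℝ)) i ≤ T * Real.exp (t' i)) →
        Local.Reach (AdjW L) (K * (N + 1)) x y := by
  obtain ⟨K, hK⟩ := reach_unif (ι := ι) hn c d hc (T * Real.exp 1)
  have hT : 0 < T := hκ.trans_le hκT
  have he1 : (1 : ℝ) ≤ Real.exp 1 := by
    have := Real.add_one_le_exp (1 : ℝ)
    linarith
  refine ⟨K, fun L hL N => ?_⟩
  induction N with
  | zero =>
    intro t t' ht ht' htt x y hx hy hxt hyt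
    have hteq : ∀ i, t i = t' i := fun i => by
      have h1 := htt i
      rw [Nat.cast_zero] at h1
      have h2 := abs_nonpos_iff.mp h1
      linarith
    rw [Nat.zero_add, mul_one]
    refine hK L hL (fun i => Real.exp (t i)) (fun i => Real.exp_pos _) (exp_prod t ht) x y hx hy
      (fun i => (hxt i).trans ?_) (fun i => (hyt i).trans ?_)
    · refine mul_le_mul_of_nonneg_right ?_ (Real.exp_pos _).le
      exact le_mul_of_one_le_right hT.le he1
    · rw [hteq i]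
      refine mul_le_mul_of_nonneg_right ?_ (Real.exp_pos _).le
      exact le_mul_of_one_le_right hT.le he1
  | succ N ih =>
    intro t t' ht ht' htt x y hx hy hxt hyt
    -- an intermediate direction at distance at most one from the first
    set u : ι → ℝ := fun i => t i + (t' i - t i) / (N + 1) with hu
    have hN0 : (0 : ℝ) < (N : ℝ) + 1 := by positivity
    have hus : ∑ i, u i = 0 := by
      rw [hu]
      simp only
      rw [Finset.sum_add_distrib, ← Finset.sum_div, Finset.sum_sub_distrib, ht, ht']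
      simp
    have hut : ∀ i, |t i - u i| ≤ 1 := by
      intro i
      have h1 : t i - u i = (t i - t' i) / (N + 1) := by
        rw [hu]
        ring
      rw [h1, abs_div, abs_of_pos hN0, div_le_one hN0]
      have h2 := htt i
      push_cast at h2
      exact h2
    have hut' : ∀ i, |u i - t' i| ≤ N := by
      intro i
      have h1 : u i - t' i = (t i - t' i) * (N / (N + 1)) := by
        rw [hu]
        field_simp
        ring
      rw [h1, abs_mul, abs_of_nonneg (div_nonneg (Nat.cast_nonneg N) hN0.le)]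
      have h2 := htt i
      push_cast at h2
      rw [← mul_div_assoc, div_le_iff₀ hN0]
      have h3 : (0 : ℝ) ≤ N := Nat.cast_nonneg N
      nlinarith
    obtain ⟨v, hv, hvu⟩ := hnear L hL (fun i => Real.exp (u i)) (fun i => Real.exp_pos _)
      (exp_prod u hus)
    have h1 := ih u t' hus ht' hut' v y hv hy (fun i => (hvu i).2) hyt
    have h2 : Local.Reach (AdjW L) K x v := by
      refine hK L hL (fun i => Real.exp (t i)) (fun i => Real.exp_pos _) (exp_prod t ht) x v hx hv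
        (fun i => (hxt i).trans ?_) (fun i => (hvu i).2.trans ?_)
      · refine mul_le_mul_of_nonneg_right ?_ (Real.exp_pos _).le
        exact le_mul_of_one_le_right hT.le he1
      · rw [mul_assoc, ← Real.exp_add]
        refine mul_le_mul_of_nonneg_left (Real.exp_le_exp.mpr ?_) hT.le
        have h3 := (abs_le.mp (hut i)).1
        linarith
    have h3 := h2.trans h1
    have h4 : K + K * (N + 1) = K * (N + 1 + 1) := by ring
    rwa [h4] at h3

end Pool.Agent.H83.Sail
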