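import Mathlib
import Pool.Agent.H83.Sail.Unif
import Pool.Agent.H83.Sail.Mono
import Pool.Agent.H83.Sail.Adm

/-!
# Local periods of a sail with few classes of patches
-/

namespace Pool.Agent.H83.Sail

open Filter Topology

variable {ι : Type*} [Fintype ι] [DecidableEq ι]

/-- The forms in the window centred at `exp t`. -/
noncomputable def wd (L : Matrix ι ι ℝ) (t : ι → ℝ) : Matrix ι ι ℝ :=
  Matrix.diagonal (fun i => Real.exp (-(t i))) * L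

theorem wd_mulVec (L : Matrix ι ι ℝ) (t : ι → ℝ) (x : ι → ℝ) (i : ι) :
    (wd L t).mulVec x i = Real.exp (-(t i)) * L.mulVec x i := by
  rw [wd, ← Matrix.mulVec_mulVec, Matrix.mulVec_diagonal]

theorem wd_det (L : Matrix ι ι ℝ) (hL : L.det ≠ 0) (t : ι → ℝ) : (wd L t).det ≠ 0 := by
  rw [wd, Matrix.det_mul, Matrix.det_diagonal]
  exact mul_ne_zero (Finset.prod_pos (fun i _ => Real.exp_pos _)).ne' hL

/-- `v` is a node near the direction `u`. -/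
def NearN (κ T : ℝ) (L : Matrix ι ι ℝ) (u : ι → ℝ) (v : ι → ℤ) : Prop :=
  AdjW L v v ∧ ∀ i, κ * Real.exp (u i) ≤ L.mulVec (fun j => (v j : ℝ)) i ∧
    L.mulVec (fun j => (v j : ℝ)) i ≤ T * Real.exp (u i)

/-- The data of the uniform estimates. -/
structure Unif (c d κ T : ℝ) (K : ℕ) (ι : Type*) [Fintype ι] [DecidableEq ι] : Prop where
  κ0 : 0 < κ
  κT : κ ≤ T
  near : ∀ L : Matrix ι ι ℝ, L ∈ Good c d → ∀ u : ι → ℝ, ∑ i, u i = 0 → ∃ v, NearN κ T L u v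
  chain : ∀ L : Matrix ι ι ℝ, L ∈ Good c d → ∀ N : ℕ, ∀ t t' : ι → ℝ, ∑ i, t i = 0 →
      ∑ i, t' i = 0 → (∀ i, |t i - t' i| ≤ N) → ∀ x y : ι → ℤ, NearN κ T L t x →
        NearN κ T L t' y → Local.Reach (AdjW L) (K * (N + 1)) x y

theorem exists_unif [Nonempty ι] (hn : 2 ≤ Fintype.card ι) (c d : ℝ) (hc : 0 < c) :
    ∃ (κ T : ℝ) (K : ℕ), Unif c d κ T K ι := by
  obtain ⟨κ, T, hκ, hκT, hnear⟩ := near_unif (ι := ι) c d hc
  obtain ⟨K, hK⟩ := chain_unif hn c d hc κ T hκ hκT hnear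
  refine ⟨κ, T, K, hκ, hκT, fun L hL u hu => ?_, fun L hL N t t' ht ht' htt x y hx hy =>
    hK L hL N t t' ht ht' htt x y hx.1 hy.1 (fun i => (hx.2 i).2) (fun i => (hy.2 i).2)⟩
  exact hnear L hL (fun i => Real.exp (u i)) (fun i => Real.exp_pos _) (exp_prod u hu)

/-- Estimates for a matrix that maps a large patch into the cone. -/
theorem iso_half [Nonempty ι] (hn : 2 ≤ Fintype.card ι) {c d κ T : ℝ} {K : ℕ} (hc : 0 < c)
    (hU : Unif c d κ T K ι) (L : Matrix ι ι ℝ) (hL : L ∈ Good c d) (t v v' : ι → ℝ)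
    (ht : ∑ i, t i = 0) (hv : ∑ i, v i = 0) (ε ρ : ℝ) (hρ : 0 ≤ ρ)
    (hvε : ∀ i, |v i| ≤ ε) (hvε' : ∀ i, |v' i| ≤ ε) (N R : ℕ) (hN : ρ + ε ≤ N)
    (hR : K * (N + 1) + 1 ≤ R) (y : ι → ℤ) (g : (Matrix ι ι ℤ)ˣ)
    (hy : NearN κ T L (fun i => t i + v i) y) (hgy : NearN κ T L (fun i => t i + v' i) (g • y))
    (hg : Local.PIso (AdjW L) R y g)
    (hsm : 4 * (Fintype.card ι : ℝ) ^ 2 * (T / κ) ^ 2 * Real.exp (2 * ε - ρ) ≤ 1) :
    (∀ i j, |cj (wd L t) g i j| ≤ 2 * (T / κ) * Real.exp (2 * ε)) ∧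
    (∀ i j, -(2 * Fintype.card ι * (T / κ) ^ 2 * Real.exp (2 * ε - ρ)) ≤
      cj (wd L t) g i j) := by
  have hdet := good_det_ne hc hL
  have hκ := hU.κ0
  have hT : 0 < T := hκ.trans_le hU.κT
  have hwdet := wd_det L hdet t
  have hact : ∀ x : ι → ℤ, (cj (wd L t) g).mulVec ((wd L t).mulVec (fun j => (x j : ℝ))) =
      (wd L t).mulVec (fun j => (((g • x) j : ℤ) : ℝ)) := fun x => cj_mulVec _ hwdet _ x
  have hratio : ∀ (u : ι → ℝ) (x : ι → ℤ), NearN κ T L (fun i => t i + u i) x → ∀ i,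
      κ * Real.exp (u i) ≤ (wd L t).mulVec (fun j => (x j : ℝ)) i ∧
      (wd L t).mulVec (fun j => (x j : ℝ)) i ≤ T * Real.exp (u i) := by
    intro u x hx i
    rw [wd_mulVec]
    have h1 := hx.2 i
    have h2 : ∀ A : ℝ, Real.exp (-(t i)) * (A * Real.exp (t i + u i)) = A * Real.exp (u i) := by
      intro A
      rw [Real.exp_add, Real.exp_neg]
      have := (Real.exp_pos (t i)).ne'
      field_simp
    constructor
    · rw [← h2 κ]
      exact mul_le_mul_of_nonneg_left h1.1 (Real.exp_pos _).le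
    · rw [← h2 T]
      exact mul_le_mul_of_nonneg_left h1.2 (Real.exp_pos _).le
  have hn1 : (1 : ℝ) ≤ (Fintype.card ι : ℝ) - 1 := by
    have : (2 : ℝ) ≤ Fintype.card ι := by exact_mod_cast hn
    linarith
  refine half (cj (wd L t) g) κ T ε ρ hκ hU.κT (fun i0 => ?_)
    ((wd L t).mulVec (fun j => (y j : ℝ))) (fun i => ?_) (fun i => ?_) (fun i => ?_) hsm
  · -- a node in the direction of the coordinate `i0`
    set u : ι → ℝ := fun i => if i = i0 then ρ else -(ρ / ((Fintype.card ι : ℝ) - 1)) with hu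
    have hus : ∑ i, u i = 0 := by
      rw [← Finset.add_sum_erase Finset.univ u (Finset.mem_univ i0)]
      have h1 : ∑ i ∈ Finset.univ.erase i0, u i =
          ∑ _i ∈ Finset.univ.erase i0, -(ρ / ((Fintype.card ι : ℝ) - 1)) :=
        Finset.sum_congr rfl (fun i hi => if_neg (Finset.ne_of_mem_erase hi))
      rw [h1, Finset.sum_const, Finset.card_erase_of_mem (Finset.mem_univ i0), Finset.card_univ,
        nsmul_eq_mul, Nat.cast_sub (by omega), Nat.cast_one, mul_neg, mul_div_cancel₀ _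
        (by linarith : (Fintype.card ι : ℝ) - 1 ≠ 0)]
      have h2 : u i0 = ρ := if_pos rfl
      rw [h2, add_neg_cancel]
    have huρ : ∀ i, |u i| ≤ ρ := by
      intro i
      by_cases hi : i = i0
      · have h2 : u i = ρ := if_pos hi
        rw [h2, abs_of_nonneg hρ]
      · have h2 : u i = -(ρ / ((Fintype.card ι : ℝ) - 1)) := if_neg hi
        rw [h2, abs_neg, abs_of_nonneg (div_nonneg hρ (by linarith))]
        exact div_le_self hρ hn1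
    obtain ⟨x, hx⟩ := hU.near L hL (fun i => t i + u i) (by
      rw [Finset.sum_add_distrib, ht, hus, add_zero])
    have hreach : Local.Reach (AdjW L) (K * (N + 1)) y x := by
      refine hU.chain L hL N _ _ (by rw [Finset.sum_add_distrib, ht, hv, add_zero])
        (by rw [Finset.sum_add_distrib, ht, hus, add_zero]) (fun i => ?_) y x hy hx
      have h1 : t i + v i - (t i + u i) = v i - u i := by ring
      rw [h1]
      have h2 := abs_sub (v i) (u i)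
      linarith [hvε i, huρ i]
    have hgx : AdjW L (g • x) (g • x) := by
      obtain ⟨r', hr'⟩ : ∃ r', R = K * (N + 1) + (r' + 1) := ⟨R - (K * (N + 1) + 1), by omega⟩
      rw [hr'] at hg
      exact ((hg.reach hreach).1 x).mp hx.1
    refine ⟨(wd L t).mulVec (fun j => (x j : ℝ)), fun k => ?_, ?_, fun k hk => ?_, fun j => ?_⟩
    · exact (by positivity : (0 : ℝ) ≤ κ * Real.exp (u k)).trans (hratio u x hx k).1
    · have h1 := (hratio u x hx i0).1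
      have h2 : u i0 = ρ := if_pos rfl
      rwa [h2] at h1
    · refine (hratio u x hx k).2.trans ?_
      have h2 : u k = -(ρ / ((Fintype.card ι : ℝ) - 1)) := if_neg hk
      rw [h2]
      refine mul_le_of_le_one_right hT.le (Real.exp_le_one_iff.mpr ?_)
      rw [neg_nonpos]
      exact div_nonneg hρ (by linarith)
    · rw [hact, wd_mulVec]
      exact mul_nonneg (Real.exp_pos _).le (hgx.inC.2 j)
  · refine le_trans ?_ (hratio v y hy i).1
    exact mul_le_mul_of_nonneg_left (Real.exp_le_exp.mpr (neg_le_of_abs_le (hvε i))) hκ.le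
  · refine (hratio v y hy i).2.trans ?_
    exact mul_le_mul_of_nonneg_left (Real.exp_le_exp.mpr (le_of_abs_le (hvε i))) hT.le
  · rw [hact]
    refine (hratio v' (g • y) hgy i).2.trans ?_
    exact mul_le_mul_of_nonneg_left (Real.exp_le_exp.mpr (le_of_abs_le (hvε' i))) hT.le

/-- Isomorphisms of large patches are almost monomial. -/
theorem iso_mono [Nonempty ι] (hn : 2 ≤ Fintype.card ι) {c d κ T : ℝ} {K : ℕ} (hc : 0 < c)
    (hU : Unif c d κ T K ι) (L : Matrix ι ι ℝ) (hL : L ∈ Good c d) (t v v' : ι → ℝ)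
    (ht : ∑ i, t i = 0) (hv : ∑ i, v i = 0) (hv' : ∑ i, v' i = 0) (ε ρ : ℝ) (hρ : 0 ≤ ρ)
    (hvε : ∀ i, |v i| ≤ ε) (hvε' : ∀ i, |v' i| ≤ ε) (N R : ℕ) (hN : ρ + ε ≤ N)
    (hR : K * (N + 1) + 1 ≤ R) (y : ι → ℤ) (g : (Matrix ι ι ℤ)ˣ)
    (hy : NearN κ T L (fun i => t i + v i) y) (hgy : NearN κ T L (fun i => t i + v' i) (g • y))
    (hg : Local.PIso (AdjW L) R y g) (Γ η : ℝ) (hΓ : Γ = 2 * (T / κ) * Real.exp (2 * ε))
    (hη : η = 2 * Fintype.card ι * (T / κ) ^ 2 * Real.exp (2 * ε - ρ))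
    (hsm1 : 2 * Fintype.card ι * η ≤ 1) (hsm2 : 2 * Fintype.card ι * η * Γ ≤ 1) :
    (∀ i j, |cj (wd L t) g i j| ≤ Γ) ∧
    (∀ i j, |cj (wd L t) (g⁻¹ : (Matrix ι ι ℤ)ˣ) i j| ≤ Γ) ∧
    ∀ i, ∃ j, 1 / (Fintype.card ι * Γ) ≤ cj (wd L t) g i j ∧
      1 / (Fintype.card ι * Γ) ≤ cj (wd L t) (g⁻¹ : (Matrix ι ι ℤ)ˣ) j i ∧
      ∀ l, l ≠ j → |cj (wd L t) g i l| ≤ Fintype.card ι ^ 2 * η * Γ ^ 2 := by
  have hdet := good_det_ne hc hL
  have hwdet := wd_det L hdet t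
  have hQ1 : 1 ≤ T / κ := by
    rw [one_le_div hU.κ0]
    exact hU.κT
  have hε0 : 0 ≤ ε := by
    obtain ⟨i0⟩ := (inferInstance : Nonempty ι)
    exact (abs_nonneg _).trans (hvε i0)
  have hΓ1 : 1 ≤ Γ := by
    rw [hΓ]
    have h1 : 1 ≤ Real.exp (2 * ε) := Real.one_le_exp (by linarith)
    nlinarith
  have hη0 : 0 ≤ η := by
    rw [hη]
    positivity
  have hsm : 4 * (Fintype.card ι : ℝ) ^ 2 * (T / κ) ^ 2 * Real.exp (2 * ε - ρ) ≤ 1 := by
    refine le_trans (le_of_eq ?_) hsm1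
    rw [hη]
    ring
  obtain ⟨h1, h2⟩ := iso_half hn hc hU L hL t v v' ht hv ε ρ hρ hvε hvε' N R hN hR y g hy hgy
    hg hsm
  have hinv := hg.inv
  have hy' : NearN κ T L (fun i => t i + v i) (g⁻¹ • g • y) := by
    rw [inv_smul_smul]
    exact hy
  obtain ⟨h3, h4⟩ := iso_half hn hc hU L hL t v' v ht hv' ε ρ hρ hvε' hvε N R hN hR (g • y) g⁻¹
    hgy hy' hinv hsm
  rw [← hΓ] at h1 h3
  rw [← hη] at h2 h4
  refine ⟨h1, h3, fun i => ?_⟩
  refine monomial_near (cj (wd L t) g) (cj (wd L t) (g⁻¹ : (Matrix ι ι ℤ)ˣ)) η Γ hη0 hΓ1 h1 h3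
    h2 h4 ?_ ?_ hsm2 i
  · rw [← cj_mul _ hwdet, Units.mul_inv, cj_one _ hwdet]
  · rw [← cj_mul _ hwdet, Units.inv_mul, cj_one _ hwdet]

/-- Few classes of patches give a local period at every place. -/
theorem local_period [Nonempty ι] (hn : 2 ≤ Fintype.card ι) {c d κ T : ℝ} {K : ℕ} (hc : 0 < c)
    (hU : Unif c d κ T K ι) (L : Matrix ι ι ℝ) (hL : L ∈ Good c d) (t : ι → ℝ)
    (ht : ∑ i, t i = 0) (ε ρ : ℝ) (hε : 0 ≤ ε) (hρ : 0 ≤ ρ) (N R m : ℕ) (hN : ρ + ε ≤ N)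
    (hR : K * (N + 1) + 1 ≤ R) (hfin : Finite (Local.Q (Matrix ι ι ℤ)ˣ (AdjW L) R))
    (hcard : Nat.card (Local.Q (Matrix ι ι ℤ)ˣ (AdjW L) R) ≤ m) (𝒱 : Finset (ι → ℝ))
    (h𝒱 : ∀ v ∈ 𝒱, ∑ i, v i = 0 ∧ ∀ i, |v i| ≤ ε)
    (hm : m * Fintype.card ι ^ Fintype.card ι < 𝒱.card) (Γ η : ℝ)
    (hΓ : Γ = 2 * (T / κ) * Real.exp (2 * ε))
    (hη : η = 2 * Fintype.card ι * (T / κ) ^ 2 * Real.exp (2 * ε - ρ))
    (hsm1 : 2 * Fintype.card ι * η ≤ 1) (hsm2 : 2 * Fintype.card ι * η * Γ ≤ 1)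
    (hsm3 : 2 * (Fintype.card ι : ℝ) ^ 5 * η * Γ ^ 5 < 1) :
    ∃ v ∈ 𝒱, ∃ v' ∈ 𝒱, v ≠ v' ∧ ∃ (y : ι → ℤ) (h : (Matrix ι ι ℤ)ˣ),
      NearN κ T L (fun i => t i + v i) y ∧ NearN κ T L (fun i => t i + v' i) (h • y) ∧
      (∀ i j, i ≠ j → |cj (wd L t) h i j| ≤ Fintype.card ι ^ 2 * η * Γ ^ 2) ∧
      (∀ i, |cj (wd L t) h i i| ≤ Γ) ∧ ∀ i, 1 / (Fintype.card ι * Γ) ≤ cj (wd L t) h i i := by
  classical
  have hdet := good_det_ne hc hL
  have hwdet := wd_det L hdet t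
  have hfint : Fintype (Local.Q (Matrix ι ι ℤ)ˣ (AdjW L) R) := Fintype.ofFinite _
  have hex : ∀ v : {v // v ∈ 𝒱}, ∃ y, NearN κ T L (fun i => t i + v.1 i) y := fun v =>
    hU.near L hL _ (by rw [Finset.sum_add_distrib, ht, (h𝒱 v.1 v.2).1, add_zero])
  choose y hy using hex
  set f : {v // v ∈ 𝒱} → Local.Q (Matrix ι ι ℤ)ˣ (AdjW L) R := fun v =>
    Local.cls (Matrix ι ι ℤ)ˣ (AdjW L) R (⟨y v, (hy v).1⟩ : Local.Node (AdjW L)) with hf
  obtain ⟨q, -, hq⟩ := Finset.exists_lt_card_fiber_of_mul_lt_card_of_maps_to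
    (s := (Finset.univ : Finset {v // v ∈ 𝒱}))
    (t := (Finset.univ : Finset (Local.Q (Matrix ι ι ℤ)ˣ (AdjW L) R))) (f := f)
    (n := Fintype.card ι ^ Fintype.card ι) (fun _ _ => Finset.mem_univ _) (by
      rw [Finset.card_univ, Finset.card_univ, Fintype.card_coe]
      refine lt_of_le_of_lt (Nat.mul_le_mul_right _ ?_) hm
      rw [Nat.card_eq_fintype_card] at hcard
      exact hcard)
  set F := Finset.univ.filter (fun v => f v = q) with hF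
  have hFne : F.Nonempty := by
    rw [← Finset.card_pos]
    omega
  obtain ⟨v0, hv0⟩ := hFne
  have hfF : ∀ v ∈ F, f v = q := fun v hv => (Finset.mem_filter.mp hv).2
  have hrel : ∀ v : {v // v ∈ F}, ∃ g : (Matrix ι ι ℤ)ˣ, g • y v0 = y v.1 ∧
      Local.PIso (AdjW L) R (y v0) g := by
    intro v
    have h1 : f v0 = f v.1 := by rw [hfF v0 hv0, hfF v.1 v.2]
    exact Local.cls_eq.mp h1
  choose g hgy hgp using hrel
  have hmono := fun v : {v // v ∈ F} => iso_mono hn hc hU L hL t v0.1 v.1.1 ht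
    (h𝒱 v0.1 v0.2).1 (h𝒱 v.1.1 v.1.2).1 ε ρ hρ (h𝒱 v0.1 v0.2).2 (h𝒱 v.1.1 v.1.2).2 N R hN hR
    (y v0) (g v) (hy v0) (by rw [hgy v]; exact hy v.1) (hgp v) Γ η hΓ hη hsm1 hsm2
  choose σ hσ using fun v : {v // v ∈ F} => (hmono v).2.2
  obtain ⟨v, -, v', -, hvv', hσσ⟩ := Finset.exists_ne_map_eq_of_card_lt_of_maps_to
    (s := (Finset.univ : Finset {v // v ∈ F})) (t := (Finset.univ : Finset (ι → ι))) (f := σ)
    (by
      rw [Finset.card_univ, Finset.card_univ, Fintype.card_fun, Fintype.card_coe]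
      exact hq) (fun _ _ => Finset.mem_univ _)
  have hvne : v.1.1 ≠ v'.1.1 := fun h1 => hvv' (Subtype.ext (Subtype.ext h1))
  have hQ1 : 1 ≤ T / κ := by
    rw [one_le_div hU.κ0]
    exact hU.κT
  have hΓ1 : 1 ≤ Γ := by
    rw [hΓ]
    have h1 : 1 ≤ Real.exp (2 * ε) := Real.one_le_exp (by linarith)
    nlinarith
  have hη0 : 0 ≤ η := by
    rw [hη]
    positivity
  have hΓ0 : 0 < Γ := by linarith
  have hnpos : (0 : ℝ) < Fintype.card ι := by exact_mod_cast Fintype.card_pos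
  set h : (Matrix ι ι ℤ)ˣ := g v' * (g v)⁻¹ with hh
  have hhy : h • y v.1 = y v'.1 := by
    rw [hh, mul_smul, ← hgy v, inv_smul_smul, hgy v']
  have hhp : Local.PIso (AdjW L) R (y v.1) h := by
    have h1 := (hgp v).inv
    rw [hgy v] at h1
    have h2 : (g v)⁻¹ • y v.1 = y v0 := by rw [← hgy v, inv_smul_smul]
    refine h1.comp ?_
    rw [h2]
    exact hgp v'
  obtain ⟨h1, h2, h3⟩ := iso_mono hn hc hU L hL t v.1.1 v'.1.1 ht
    (h𝒱 v.1.1 v.1.2).1 (h𝒱 v'.1.1 v'.1.2).1 ε ρ hρ (h𝒱 v.1.1 v.1.2).2 (h𝒱 v'.1.1 v'.1.2).2 N R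
    hN hR (y v.1) h (hy v.1) (by rw [hhy]; exact hy v'.1) hhp Γ η hΓ hη hsm1 hsm2
  have hprod : cj (wd L t) h = cj (wd L t) (g v') * cj (wd L t) ((g v)⁻¹ : (Matrix ι ι ℤ)ˣ) := by
    rw [hh, Units.val_mul, cj_mul _ hwdet]
  have hdiag : ∀ i, Fintype.card ι ^ 2 * η * Γ ^ 2 < |cj (wd L t) h i i| := by
    intro i
    rw [hprod]
    refine pattern_one (cj (wd L t) (g v')) (cj (wd L t) ((g v)⁻¹ : (Matrix ι ι ℤ)ˣ)) (σ v') η Γ
      hη0 hΓ1 (hmono v).2.1 (fun i => (hσ v' i).1) (fun i l hl => (hσ v' i).2.2 l hl)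
      (fun i => ?_) hsm3 i
    rw [← hσσ]
    exact (hσ v i).2.1
  have hself : ∀ i, ∀ j, (1 / (Fintype.card ι * Γ) ≤ cj (wd L t) h i j ∧
      1 / (Fintype.card ι * Γ) ≤ cj (wd L t) (h⁻¹ : (Matrix ι ι ℤ)ˣ) j i ∧
      ∀ l, l ≠ j → |cj (wd L t) h i l| ≤ Fintype.card ι ^ 2 * η * Γ ^ 2) → j = i := by
    intro i j hj
    by_contra hne
    exact absurd (hj.2.2 i (Ne.symm hne)) (not_le.mpr (hdiag i))
  refine ⟨v.1.1, v.1.2, v'.1.1, v'.1.2, hvne, y v.1, h, hy v.1, by rw [hhy]; exact hy v'.1,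
    fun i j hij => ?_, fun i => h1 i i, fun i => ?_⟩
  · obtain ⟨j', hj'⟩ := h3 i
    have h4 := hself i j' hj'
    rw [h4] at hj'
    exact hj'.2.2 j hij.symm
  · obtain ⟨j', hj'⟩ := h3 i
    have h4 := hself i j' hj'
    rw [h4] at hj'
    exact hj'.1

end Pool.Agent.H83.Sail
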