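import Mathlib
import Pool.Agent.H83.Sail.Cent
import Pool.Agent.H83.Sail.Locp

/-!
# Local periods at all places: the sail is algebraic
-/

namespace Pool.Agent.H83.Sail

open Filter Topology

variable {ι : Type*} [Fintype ι] [DecidableEq ι]

theorem cj_wd (L : Matrix ι ι ℝ) (hL : L.det ≠ 0) (t : ι → ℝ) (X : Matrix ι ι ℤ) (i j : ι) :
    cj (wd L t) X i j = Real.exp (-(t i)) * cj L X i j * Real.exp (t j) := by
  have hunit : IsUnit L.det := isUnit_iff_ne_zero.mpr hL
  have hinv : (wd L t)⁻¹ = L⁻¹ * Matrix.diagonal (fun i => Real.exp (t i)) := by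
    refine Matrix.inv_eq_right_inv ?_
    rw [wd, Matrix.mul_assoc, ← Matrix.mul_assoc L, Matrix.mul_nonsing_inv L hunit,
      Matrix.one_mul, Matrix.diagonal_mul_diagonal]
    have h1 : (fun i => Real.exp (-(t i)) * Real.exp (t i)) = fun _ => (1 : ℝ) := by
      funext i
      rw [← Real.exp_add, neg_add_cancel, Real.exp_zero]
    rw [h1, Matrix.diagonal_one]
  have h2 : cj (wd L t) X = Matrix.diagonal (fun i => Real.exp (-(t i))) * cj L X *
      Matrix.diagonal (fun i => Real.exp (t i)) := by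
    rw [cj, cj, hinv, wd]
    simp only [Matrix.mul_assoc]
  rw [h2, Matrix.mul_diagonal, Matrix.diagonal_mul]

theorem adapted_wd [Nonempty ι] (c d : ℝ) (hc : 0 < c) : ∃ R₁ : ℝ, 0 < R₁ ∧
    ∀ L : Matrix ι ι ℝ, L ∈ Good c d → ∀ t : ι → ℝ, ∑ i, t i = 0 → Adapted c R₁ (wd L t) := by
  obtain ⟨R₁, hR₁, hframe⟩ := frame_gl (ι := ι) c d hc
  refine ⟨R₁, hR₁, fun L hL t ht => ⟨wd_det L (good_det_ne hc hL) t, fun z hz => ?_, ?_⟩⟩
  · have h1 : ∏ i, (wd L t).mulVec (fun j => (z j : ℝ)) i =
        ∏ i, L.mulVec (fun j => (z j : ℝ)) i := by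
      simp_rw [wd_mulVec]
      rw [Finset.prod_mul_distrib, exp_prod _ (by rw [Finset.sum_neg_distrib, ht, neg_zero]),
        one_mul]
    rw [h1]
    exact hL.2.2 z hz
  · obtain ⟨U, hU, hUR⟩ := hframe L hL (fun i => Real.exp (t i)) (fun i => Real.exp_pos _)
      (exp_prod t ht)
    refine ⟨U, hU, fun i j => ?_⟩
    rw [wd, Matrix.mul_assoc, Matrix.diagonal_mul, abs_mul, abs_of_pos (Real.exp_pos _),
      Real.exp_neg, inv_mul_le_iff₀ (Real.exp_pos _), mul_comm]
    exact hUR i j

/-- An almost diagonal integer matrix with irreducible minimal polynomial of full degree. -/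
structure LPer (L : Matrix ι ι ℝ) (t : ι → ℝ) (Γ δ : ℝ) (h : Matrix ι ι ℤ) : Prop where
  off : ∀ i j, i ≠ j → |cj (wd L t) h i j| ≤ δ
  diag : ∀ i, |cj (wd L t) h i i| ≤ Γ
  irr : Irreducible (minpoly ℚ (h.map (Int.cast : ℤ → ℚ)))
  deg : (minpoly ℚ (h.map (Int.cast : ℤ → ℚ))).natDegree = Fintype.card ι

/-- Local periods at near places commute. -/
theorem lper_comm [Nonempty ι] (c d : ℝ) (hc : 0 < c) :
    Sm (fun Γ δ => ∀ L : Matrix ι ι ℝ, L ∈ Good c d → ∀ t t' : ι → ℝ, ∑ i, t i = 0 →
      ∑ i, t' i = 0 → (∀ i, |t i - t' i| ≤ 1) → ∀ h h' : Matrix ι ι ℤ, LPer L t Γ δ h →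
      LPer L t' Γ δ h' → h * h' = h' * h) := by
  obtain ⟨R₁, hR₁, hadp⟩ := adapted_wd (ι := ι) c d hc
  set n : ℝ := (Fintype.card ι : ℝ) with hn
  have hn1 : 1 ≤ n := by
    rw [hn]
    exact_mod_cast Fintype.card_pos
  have hS1 : Sm (fun Γ δ => (Real.exp 2 : ℝ) * Γ ^ 0 * δ ≤ 1) := Sm.base _ _ one_pos 0
  have hS2 : Sm (fun Γ δ => (2 * n ^ 2 * Real.exp 2 * R₁ : ℝ) * Γ ^ 1 * δ ≤ min 1 c / 2) :=
    Sm.base _ _ (by positivity) _
  refine (hS1.and hS2).mono (fun Γ δ hΓ hδ hS => ?_)
  obtain ⟨hS1, hS2⟩ := hS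
  intro L hL t t' ht ht' htt h h' hh hh'
  rw [pow_zero, mul_one] at hS1
  rw [pow_one] at hS2
  have hdet := good_det_ne hc hL
  have hwdet := wd_det L hdet t
  have hΓ0 : 0 < Γ := by linarith
  have he2 : 1 ≤ Real.exp 2 := Real.one_le_exp (by norm_num)
  -- the second matrix in the first window
  have htrans : ∀ i j, cj (wd L t) h' i j =
      Real.exp ((t' i - t i) + (t j - t' j)) * cj (wd L t') h' i j := by
    intro i j
    have h1 : Real.exp ((t' i - t i) + (t j - t' j)) =
        Real.exp (-(t i)) * Real.exp (t' i) * (Real.exp (t j) * Real.exp (-(t' j))) := by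
      rw [← Real.exp_add, ← Real.exp_add, ← Real.exp_add]
      congr 1
      ring
    rw [cj_wd L hdet, cj_wd L hdet, h1]
    have h2 : Real.exp (t' i) * Real.exp (-(t' i)) = 1 := by
      rw [← Real.exp_add, add_neg_cancel, Real.exp_zero]
    have h3 : Real.exp (-(t' j)) * Real.exp (t' j) = 1 := by
      rw [← Real.exp_add, neg_add_cancel, Real.exp_zero]
    calc Real.exp (-(t i)) * cj L h' i j * Real.exp (t j) =
        Real.exp (-(t i)) * cj L h' i j * Real.exp (t j) *
          (Real.exp (t' i) * Real.exp (-(t' i))) * (Real.exp (-(t' j)) * Real.exp (t' j)) := by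
          rw [h2, h3, mul_one, mul_one]
      _ = _ := by ring
  have hoff' : ∀ i j, i ≠ j → |cj (wd L t) h' i j| ≤ Real.exp 2 * δ := by
    intro i j hij
    rw [htrans, abs_mul, abs_of_pos (Real.exp_pos _)]
    refine mul_le_mul (Real.exp_le_exp.mpr ?_) (hh'.off i j hij) (abs_nonneg _)
      (Real.exp_pos _).le
    have h1 := (abs_le.mp (htt i)).1
    have h2 := (abs_le.mp (htt j)).2
    linarith
  have hdiag' : ∀ i, |cj (wd L t) h' i i| ≤ Γ := by
    intro i
    rw [htrans]
    have h1 : (t' i - t i) + (t i - t' i) = 0 := by ring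
    rw [h1, Real.exp_zero, one_mul]
    exact hh'.diag i
  have hδe : δ ≤ Real.exp 2 * δ := le_mul_of_one_le_left hδ he2
  have hδΓ : Real.exp 2 * δ ≤ Γ := hS1.trans hΓ
  have hG : ∀ i j, |cj (wd L t) h i j| ≤ Γ := by
    intro i j
    by_cases hij : i = j
    · rw [← hij]
      exact hh.diag i
    · exact (hh.off i j hij).trans (hδe.trans hδΓ)
  have hG' : ∀ i j, |cj (wd L t) h' i j| ≤ Γ := by
    intro i j
    by_cases hij : i = j
    · rw [← hij]
      exact hdiag' i
    · exact (hoff' i j hij).trans hδΓ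
  have hoffe : ∀ i j, i ≠ j → |cj (wd L t) h i j| ≤ Real.exp 2 * δ :=
    fun i j hij => (hh.off i j hij).trans hδe
  have hent : ∀ i j, |cj (wd L t) (h * h' - h' * h) i j| ≤ n * (2 * (Γ * (Real.exp 2 * δ))) := by
    intro i j
    rw [cj_sub _ hwdet, cj_mul _ hwdet, cj_mul _ hwdet, Matrix.sub_apply, Matrix.mul_apply,
      Matrix.mul_apply, ← Finset.sum_sub_distrib]
    refine (Finset.abs_sum_le_sum_abs _ _).trans ?_
    have h1 : ∀ k ∈ Finset.univ, |cj (wd L t) h i k * cj (wd L t) h' k j -
        cj (wd L t) h' i k * cj (wd L t) h k j| ≤ 2 * (Γ * (Real.exp 2 * δ)) := by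
      intro k _
      by_cases hik : i = k
      · by_cases hkj : k = j
        · rw [← hkj, ← hik]
          have h2 : cj (wd L t) h i i * cj (wd L t) h' i i -
              cj (wd L t) h' i i * cj (wd L t) h i i = 0 := by ring
          rw [h2, abs_zero]
          positivity
        · refine (abs_sub _ _).trans ?_
          rw [abs_mul, abs_mul]
          have h2 : |cj (wd L t) h i k| * |cj (wd L t) h' k j| ≤ Γ * (Real.exp 2 * δ) :=
            mul_le_mul (hG i k) (hoff' k j hkj) (abs_nonneg _) hΓ0.le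
          have h3 : |cj (wd L t) h' i k| * |cj (wd L t) h k j| ≤ Γ * (Real.exp 2 * δ) :=
            mul_le_mul (hG' i k) (hoffe k j hkj) (abs_nonneg _) hΓ0.le
          linarith
      · refine (abs_sub _ _).trans ?_
        rw [abs_mul, abs_mul]
        have h2 : |cj (wd L t) h i k| * |cj (wd L t) h' k j| ≤ (Real.exp 2 * δ) * Γ :=
          mul_le_mul (hoffe i k hik) (hG' k j) (abs_nonneg _) (by positivity)
        have h3 : |cj (wd L t) h' i k| * |cj (wd L t) h k j| ≤ (Real.exp 2 * δ) * Γ :=
          mul_le_mul (hoff' i k hik) (hG k j) (abs_nonneg _) (by positivity)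
        linarith
    refine (Finset.sum_le_card_nsmul _ _ _ h1).trans ?_
    rw [Finset.card_univ, nsmul_eq_mul]
  have hzero : h * h' - h' * h = 0 := by
    refine small_zero hR₁.le (hadp L hL t ht) _ _ hent ?_
    rw [← hn]
    have h1 : n * (n * (2 * (Γ * (Real.exp 2 * δ)))) * R₁ =
        2 * n ^ 2 * Real.exp 2 * R₁ * Γ * δ := by ring
    rw [h1]
    have h2 : 0 ≤ 2 * n ^ 2 * Real.exp 2 * R₁ * Γ * δ := by positivity
    have h3 : min 1 c / 2 < 1 := by
      have := min_le_left 1 c
      linarith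
    have h4 : min 1 c / 2 < c := by
      have := min_le_right 1 c
      linarith
    have hcard : Fintype.card ι ≠ 0 := Fintype.card_ne_zero
    calc (2 * n ^ 2 * Real.exp 2 * R₁ * Γ * δ) ^ Fintype.card ι ≤
        2 * n ^ 2 * Real.exp 2 * R₁ * Γ * δ := pow_le_of_le_one h2 (by linarith) hcard
      _ < c := by linarith
  exact sub_eq_zero.mp hzero

/-- Local periods at all places: the forms are algebraic. -/
theorem lper_alg (hn3 : 3 ≤ Fintype.card ι) (c d : ℝ) (hc : 0 < c) :
    Sm (fun Γ δ => ∀ L : Matrix ι ι ℝ, L ∈ Good c d →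
      (∀ t : ι → ℝ, ∑ i, t i = 0 → ∃ h, LPer L t Γ δ h) → Alg L) := by
  have hne : Nonempty ι := Fintype.card_pos_iff.mp (by omega)
  obtain ⟨D, l, hD, hsep⟩ := sep (ι := ι)
  set n : ℝ := (Fintype.card ι : ℝ) with hn
  have hn1 : 1 ≤ n := by
    rw [hn]
    exact_mod_cast Fintype.card_pos
  have hS1 : Sm (fun Γ δ => (2 * n * D : ℝ) * Γ ^ l * δ ≤ 1 / 2) :=
    Sm.base _ _ (by norm_num) _
  refine ((hS1.and hsep).and (lper_comm (ι := ι) c d hc)).mono (fun Γ δ hΓ hδ hS => ?_)
  obtain ⟨⟨hS1, hsep⟩, hcomm⟩ := hS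
  intro L hL hper
  have hdet := good_det_ne hc hL
  have hunit : IsUnit L.det := isUnit_iff_ne_zero.mpr hdet
  have hΓ0 : 0 < Γ := by linarith
  have h00 : ∑ _i : ι, (0 : ℝ) = 0 := Finset.sum_const_zero
  obtain ⟨B, hB⟩ := hper (fun _ => 0) h00
  -- `B` commutes with all the local periods
  have hall : ∀ N : ℕ, ∀ t : ι → ℝ, ∑ i, t i = 0 → (∀ i, |t i| ≤ N) → ∀ h, LPer L t Γ δ h →
      B * h = h * B := by
    intro N
    induction N with
    | zero =>
      intro t ht htN h hh
      refine hcomm L hL (fun _ => 0) t h00 ht (fun i => ?_) B h hB hh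
      have h1 := htN i
      rw [Nat.cast_zero] at h1
      rw [zero_sub, abs_neg]
      linarith
    | succ N ih =>
      intro t ht htN h hh
      have hN0 : (0 : ℝ) < (N : ℝ) + 1 := by positivity
      set u : ι → ℝ := fun i => t i * (N / (N + 1)) with hu
      have hus : ∑ i, u i = 0 := by
        rw [hu]
        simp only
        rw [← Finset.sum_mul, ht, zero_mul]
      have huN : ∀ i, |u i| ≤ N := by
        intro i
        rw [hu]
        simp only
        rw [abs_mul, abs_of_nonneg (div_nonneg (Nat.cast_nonneg N) hN0.le), ← mul_div_assoc,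
          div_le_iff₀ hN0]
        have h1 := htN i
        push_cast at h1
        have h3 : (0 : ℝ) ≤ N := Nat.cast_nonneg N
        nlinarith
      have hut : ∀ i, |u i - t i| ≤ 1 := by
        intro i
        have h1 : u i - t i = -(t i / (N + 1)) := by
          rw [hu]
          field_simp
          ring
        rw [h1, abs_neg, abs_div, abs_of_pos hN0, div_le_one hN0]
        have h1 := htN i
        push_cast at h1
        exact h1
      obtain ⟨g, hg⟩ := hper u hus
      have h1 := ih u hus huN g hg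
      have h2 := hcomm L hL u t hus ht hut g h hg hh
      exact comm_of_irr g hg.irr hg.deg B h h1 h2.symm
  -- the entries of `B`
  obtain ⟨i1, -, hi1⟩ := Finset.exists_max_image (Finset.univ : Finset ι)
    (fun i => |cj L B i i|) Finset.univ_nonempty
  have hBd : ∀ t : ι → ℝ, ∀ i, cj (wd L t) B i i = cj L B i i := by
    intro t i
    rw [cj_wd L hdet, mul_right_comm, ← Real.exp_add, neg_add_cancel, Real.exp_zero, one_mul]
  have hbound : ∀ t : ι → ℝ, ∑ i, t i = 0 → ∀ a b, |cj (wd L t) B a b| ≤ |cj L B i1 i1| := by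
    intro t ht a b
    obtain ⟨h, hh⟩ := hper t ht
    obtain ⟨N, hN⟩ : ∃ N : ℕ, ∀ i, |t i| ≤ N := by
      obtain ⟨N, hN⟩ := exists_nat_ge (∑ i, |t i|)
      exact ⟨N, fun i => (Finset.single_le_sum (f := fun i => |t i|)
        (fun j _ => abs_nonneg _) (Finset.mem_univ i)).trans hN⟩
    have hcm := hall N t ht hN h hh
    have hwdet := wd_det L hdet t
    obtain ⟨⟨p, q⟩, -, hpq⟩ := Finset.exists_max_image (Finset.univ : Finset (ι × ι))
      (fun x => |cj (wd L t) B x.1 x.2|) Finset.univ_nonempty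
    have hmax : ∀ i j, |cj (wd L t) B i j| ≤ |cj (wd L t) B p q| :=
      fun i j => hpq (i, j) (Finset.mem_univ _)
    refine (hmax a b).trans ?_
    by_cases hpq' : p = q
    · rw [← hpq', hBd]
      exact hi1 p (Finset.mem_univ p)
    · have h1 : cj (wd L t) B * cj (wd L t) h = cj (wd L t) h * cj (wd L t) B := by
        rw [← cj_mul _ hwdet, ← cj_mul _ hwdet, hcm]
      have h2 := congrFun (congrFun h1 p) q
      rw [Matrix.mul_apply, Matrix.mul_apply,
        ← Finset.add_sum_erase Finset.univ _ (Finset.mem_univ q),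
        ← Finset.add_sum_erase Finset.univ
          (fun k => cj (wd L t) h p k * cj (wd L t) B k q) (Finset.mem_univ p)] at h2
      have h3 : cj (wd L t) B p q * (cj (wd L t) h q q - cj (wd L t) h p p) =
          ∑ k ∈ Finset.univ.erase p, cj (wd L t) h p k * cj (wd L t) B k q -
          ∑ k ∈ Finset.univ.erase q, cj (wd L t) B p k * cj (wd L t) h k q := by
        linarith
      have h4 : |∑ k ∈ Finset.univ.erase p, cj (wd L t) h p k * cj (wd L t) B k q| ≤
          n * (δ * |cj (wd L t) B p q|) := by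
        refine (Finset.abs_sum_le_sum_abs _ _).trans ?_
        have h5 : ∀ k ∈ Finset.univ.erase p, |cj (wd L t) h p k * cj (wd L t) B k q| ≤
            δ * |cj (wd L t) B p q| := fun k hk => by
          rw [abs_mul]
          exact mul_le_mul (hh.off p k (Finset.ne_of_mem_erase hk).symm) (hmax k q)
            (abs_nonneg _) hδ
        refine (Finset.sum_le_card_nsmul _ _ _ h5).trans ?_
        rw [nsmul_eq_mul, hn]
        refine mul_le_mul_of_nonneg_right ?_ (by positivity)
        exact_mod_cast Finset.card_le_univ _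
      have h4' : |∑ k ∈ Finset.univ.erase q, cj (wd L t) B p k * cj (wd L t) h k q| ≤
          n * (δ * |cj (wd L t) B p q|) := by
        refine (Finset.abs_sum_le_sum_abs _ _).trans ?_
        have h5 : ∀ k ∈ Finset.univ.erase q, |cj (wd L t) B p k * cj (wd L t) h k q| ≤
            δ * |cj (wd L t) B p q| := fun k hk => by
          rw [abs_mul, mul_comm]
          exact mul_le_mul (hh.off k q (Finset.ne_of_mem_erase hk)) (hmax p k)
            (abs_nonneg _) hδ
        refine (Finset.sum_le_card_nsmul _ _ _ h5).trans ?_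
        rw [nsmul_eq_mul, hn]
        refine mul_le_mul_of_nonneg_right ?_ (by positivity)
        exact_mod_cast Finset.card_le_univ _
      have h5 : |cj (wd L t) B p q| * |cj (wd L t) h q q - cj (wd L t) h p p| ≤
          2 * n * δ * |cj (wd L t) B p q| := by
        rw [← abs_mul, h3]
        refine (abs_sub _ _).trans ?_
        linarith
      have h6 := hsep (wd L t) hwdet h hh.off hh.diag hh.irr hh.deg q p (Ne.symm hpq')
      have h7 : |cj (wd L t) B p q| ≤ |cj (wd L t) B p q| / 2 := by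
        calc |cj (wd L t) B p q| = |cj (wd L t) B p q| * 1 := (mul_one _).symm
          _ ≤ |cj (wd L t) B p q| * (D * Γ ^ l * |cj (wd L t) h q q - cj (wd L t) h p p|) :=
            mul_le_mul_of_nonneg_left h6 (abs_nonneg _)
          _ = D * Γ ^ l * (|cj (wd L t) B p q| * |cj (wd L t) h q q - cj (wd L t) h p p|) := by
            ring
          _ ≤ D * Γ ^ l * (2 * n * δ * |cj (wd L t) B p q|) :=
            mul_le_mul_of_nonneg_left h5 (by positivity)
          _ = (2 * n * D * Γ ^ l * δ) * |cj (wd L t) B p q| := by ring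
          _ ≤ (1 / 2) * |cj (wd L t) B p q| := mul_le_mul_of_nonneg_right hS1 (abs_nonneg _)
          _ = |cj (wd L t) B p q| / 2 := by ring
      have h8 := abs_nonneg (cj (wd L t) B p q)
      have h9 := abs_nonneg (cj L B i1 i1)
      linarith
  have hoff0 : ∀ a b, a ≠ b → cj L B a b = 0 := by
    intro a b hab
    by_contra hne0
    have hpos : 0 < |cj L B a b| := abs_pos.mpr hne0
    have h1 : ∀ s : ℝ, |cj L B a b| * Real.exp (2 * s) ≤ |cj L B i1 i1| := by
      intro s
      set t : ι → ℝ := fun i => (if i = b then s else 0) - (if i = a then s else 0) with ht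
      have hts : ∑ i, t i = 0 := by
        rw [ht]
        simp only
        rw [Finset.sum_sub_distrib, Finset.sum_ite_eq' Finset.univ b,
          Finset.sum_ite_eq' Finset.univ a]
        simp
      have h2 := hbound t hts a b
      have hta : t a = -s := by simp [ht, hab]
      have htb : t b = s := by simp [ht, hab.symm]
      rw [cj_wd L hdet, hta, htb, neg_neg, abs_mul, abs_mul, abs_of_pos (Real.exp_pos s)] at h2
      have h3 : Real.exp (2 * s) = Real.exp s * Real.exp s := by
        rw [← Real.exp_add]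
        ring_nf
      rw [h3]
      linarith
    have h2 := h1 (|cj L B i1 i1| / |cj L B a b|)
    have h3 := Real.add_one_le_exp (2 * (|cj L B i1 i1| / |cj L B a b|))
    have h4 : |cj L B a b| * (2 * (|cj L B i1 i1| / |cj L B a b|) + 1) ≤ |cj L B i1 i1| :=
      (mul_le_mul_of_nonneg_left h3 hpos.le).trans h2
    have h5 : |cj L B a b| * (2 * (|cj L B i1 i1| / |cj L B a b|) + 1) =
        2 * |cj L B i1 i1| + |cj L B a b| := by
      field_simp
    rw [h5] at h4
    have h6 := abs_nonneg (cj L B i1 i1)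
    linarith
  have hdiagB : cj L B = Matrix.diagonal (fun i => cj L B i i) := by
    ext i j
    by_cases hij : i = j
    · rw [← hij, Matrix.diagonal_apply_eq]
    · rw [Matrix.diagonal_apply_ne _ hij, hoff0 i j hij]
  refine eig_main hn3 L hdet c hc hL.2.2 (B.map (Int.cast : ℤ → ℚ)) (fun i => cj L B i i) ?_ ?_
  · intro i j hij
    by_contra hne'
    have h1 := hsep (wd L (fun _ => 0)) (wd_det L hdet _) B hB.off hB.diag hB.irr hB.deg i j hne'
    rw [hBd, hBd] at h1
    simp only at hij
    rw [hij, sub_self, abs_zero, mul_zero] at h1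
    linarith
  · rw [Matrix.map_map]
    have h3 : ((Rat.cast : ℚ → ℝ) ∘ (Int.cast : ℤ → ℚ)) = (Int.cast : ℤ → ℝ) := by
      funext z
      simp
    rw [h3, ← hdiagB, cj, Matrix.mul_assoc, Matrix.nonsing_inv_mul L hunit, Matrix.mul_one]

end Pool.Agent.H83.Sail
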