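import Mathlib
import Pool.Agent.H83.Sail.Lper

/-!
# Few classes of patches with respect to a spread set of directions: the sail is algebraic
-/

namespace Pool.Agent.H83.Sail

open Filter Topology

variable {ι : Type*} [Fintype ι] [DecidableEq ι]

/-- The coordinates of `w` take more than `n / p` values, in a quantitative form. -/
def Spread (B₀ : ℝ) (w : ι → ℝ) : Prop :=
  ∀ a : ι → Fin (Fintype.card ι / (Fintype.card ι).minFac), ∃ i j, a i = a j ∧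
    B₀ ≤ w i - w j

/-- Few classes of patches give local periods. -/
theorem lper_exists (hn3 : 3 ≤ Fintype.card ι) (c d κ T : ℝ) (K : ℕ) (hc : 0 < c)
    (hU : Unif c d κ T K ι) (B₀ : ℝ) (hB₀ : 6 * (T / κ) ^ 2 ≤ Real.exp B₀) :
    Sm (fun Γ δ => ∀ L : Matrix ι ι ℝ, L ∈ Good c d → ∀ t : ι → ℝ, ∑ i, t i = 0 →
      ∀ ε ρ η : ℝ, 0 ≤ ε → 0 ≤ ρ → ∀ N R m : ℕ, ρ + ε ≤ N → K * (N + 1) + 1 ≤ R →
      Finite (Local.Q (Matrix ι ι ℤ)ˣ (AdjW L) R) →
      Nat.card (Local.Q (Matrix ι ι ℤ)ˣ (AdjW L) R) ≤ m → ∀ 𝒱 : Finset (ι → ℝ),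
      (∀ v ∈ 𝒱, ∑ i, v i = 0 ∧ ∀ i, |v i| ≤ ε) →
      (∀ v ∈ 𝒱, ∀ v' ∈ 𝒱, v ≠ v' → Spread B₀ (v' - v)) →
      m * Fintype.card ι ^ Fintype.card ι < 𝒱.card →
      Γ = 2 * (T / κ) * Real.exp (2 * ε) →
      η = 2 * Fintype.card ι * (T / κ) ^ 2 * Real.exp (2 * ε - ρ) →
      δ = Fintype.card ι ^ 2 * η * Γ ^ 2 → ∃ h, LPer L t Γ δ h) := by
  have hne : Nonempty ι := Fintype.card_pos_iff.mp (by omega)
  have h2 : 2 ≤ Fintype.card ι := by omega
  obtain ⟨R₁, hR₁, hadp⟩ := adapted_wd (ι := ι) c d hc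
  set n : ℝ := (Fintype.card ι : ℝ) with hn
  have hn1 : 1 ≤ n := by
    rw [hn]
    exact_mod_cast Fintype.card_pos
  have hn0 : 0 < n := by linarith
  have hS1 : Sm (fun Γ δ => (2 * n : ℝ) * Γ ^ 1 * δ ≤ 1) := Sm.base _ _ one_pos _
  have hS2 : Sm (fun Γ δ => (2 * n ^ 5 : ℝ) * Γ ^ 5 * δ ≤ 1 / 2) :=
    Sm.base _ _ (by norm_num) _
  refine (((hS1.and hS2).and (minpoly_irr (ι := ι) c R₁ hc hR₁)).and
    (deg_full (ι := ι) n hn1 1)).mono (fun Γ δ hΓ hδ hS => ?_)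
  obtain ⟨⟨⟨hS1, hS2⟩, hirr⟩, hdegf⟩ := hS
  intro L hL t ht ε ρ η hε hρ N R m hN hR hfin hcard 𝒱 h𝒱 h𝒱s hm hΓe hηe hδe
  rw [pow_one] at hS1
  have hdet := good_det_ne hc hL
  have hwdet := wd_det L hdet t
  have hκ := hU.κ0
  have hT : 0 < T := hκ.trans_le hU.κT
  have hΓ0 : 0 < Γ := by linarith
  have hη0 : 0 ≤ η := by
    rw [hηe]
    positivity
  have hηδ : η ≤ δ := by
    rw [hδe]
    have h1 : 1 ≤ n ^ 2 * Γ ^ 2 := by
      have := one_le_pow₀ (n := 2) hn1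
      have := one_le_pow₀ (n := 2) hΓ
      nlinarith
    calc η = η * 1 := (mul_one _).symm
      _ ≤ η * (n ^ 2 * Γ ^ 2) := mul_le_mul_of_nonneg_left h1 hη0
      _ = n ^ 2 * η * Γ ^ 2 := by ring
  have hsm2 : 2 * n * η * Γ ≤ 1 := by
    calc 2 * n * η * Γ ≤ 2 * n * δ * Γ := by gcongr
      _ = 2 * n * Γ * δ := by ring
      _ ≤ 1 := hS1
  have hsm1 : 2 * n * η ≤ 1 := by
    calc 2 * n * η ≤ 2 * n * η * Γ := le_mul_of_one_le_right (by positivity) hΓ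
      _ ≤ 1 := hsm2
  have hsm3 : 2 * n ^ 5 * η * Γ ^ 5 < 1 := by
    calc 2 * n ^ 5 * η * Γ ^ 5 ≤ 2 * n ^ 5 * δ * Γ ^ 5 := by gcongr
      _ = 2 * n ^ 5 * Γ ^ 5 * δ := by ring
      _ ≤ 1 / 2 := hS2
      _ < 1 := by norm_num
  obtain ⟨v, hv, v', hv', hvv', y, h, hy, hhy, hoff, hdiag, hlow⟩ := local_period h2 hc hU L hL t
    ht ε ρ hε hρ N R m hN hR hfin hcard 𝒱 h𝒱 hm Γ η hΓe hηe hsm1 hsm2 hsm3
  rw [← hn] at hoff hlow
  rw [← hδe] at hoff
  have hirr' := hirr (wd L t) (hadp L hL t ht) h hoff hdiag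
  refine ⟨h, hoff, hdiag, hirr', hdegf (wd L t) hwdet h hoff hdiag hirr' (fun a => ?_)⟩
  obtain ⟨i, j, hij, hw⟩ := h𝒱s v hv v' hv' hvv' a
  refine ⟨i, j, hij, ?_⟩
  -- the diagonal entries follow the displacement
  have hratio : ∀ (u : ι → ℝ) (x : ι → ℤ), NearN κ T L (fun i => t i + u i) x → ∀ i,
      κ * Real.exp (u i) ≤ (wd L t).mulVec (fun j => (x j : ℝ)) i ∧
      (wd L t).mulVec (fun j => (x j : ℝ)) i ≤ T * Real.exp (u i) := by
    intro u x hx i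
    rw [wd_mulVec]
    have h1 := hx.2 i
    have h2 : ∀ A : ℝ, Real.exp (-(t i)) * (A * Real.exp (t i + u i)) = A * Real.exp (u i) := by
      intro A
      rw [Real.exp_add, Real.exp_neg]
      have := (Real.exp_pos (t i)).ne'
      field_simp
    constructor
    · rw [← h2 κ]
      exact mul_le_mul_of_nonneg_left h1.1 (Real.exp_pos _).le
    · rw [← h2 T]
      exact mul_le_mul_of_nonneg_left h1.2 (Real.exp_pos _).le
  set a' : ι → ℝ := (wd L t).mulVec (fun j => (y j : ℝ)) with ha'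
  set b' : ι → ℝ := (wd L t).mulVec (fun j => (((h • y) j : ℤ) : ℝ)) with hb'
  have hab : (cj (wd L t) h).mulVec a' = b' := cj_mulVec _ hwdet _ y
  have ha1 := hratio v y hy
  have hb1 := hratio v' (h • y) hhy
  have ha0 : ∀ k, 0 < a' k := fun k => lt_of_lt_of_le (by positivity) (ha1 k).1
  have hclose : ∀ k, |b' k - cj (wd L t) h k k * a' k| ≤ b' k / 2 := by
    intro k
    have h3 : b' k - cj (wd L t) h k k * a' k =
        ∑ l ∈ Finset.univ.erase k, cj (wd L t) h k l * a' l := by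
      rw [← hab, Matrix.mulVec, dotProduct, ← Finset.add_sum_erase Finset.univ _
        (Finset.mem_univ k), add_sub_cancel_left]
    have h4 : |∑ l ∈ Finset.univ.erase k, cj (wd L t) h k l * a' l| ≤
        n * (δ * (T * Real.exp ε)) := by
      refine (Finset.abs_sum_le_sum_abs _ _).trans ?_
      have h5 : ∀ l ∈ Finset.univ.erase k, |cj (wd L t) h k l * a' l| ≤
          δ * (T * Real.exp ε) := fun l hl => by
        rw [abs_mul, abs_of_pos (ha0 l)]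
        refine mul_le_mul (hoff k l (Finset.ne_of_mem_erase hl).symm) ?_ (ha0 l).le hδ
        refine (ha1 l).2.trans ?_
        exact mul_le_mul_of_nonneg_left
          (Real.exp_le_exp.mpr (le_of_abs_le ((h𝒱 v hv).2 l))) hT.le
      refine (Finset.sum_le_card_nsmul _ _ _ h5).trans ?_
      rw [nsmul_eq_mul, hn]
      refine mul_le_mul_of_nonneg_right ?_ (by positivity)
      exact_mod_cast Finset.card_le_univ _
    rw [h3]
    refine h4.trans ?_
    have h5 : κ * Real.exp (-ε) ≤ b' k := by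
      refine le_trans ?_ (hb1 k).1
      exact mul_le_mul_of_nonneg_left
        (Real.exp_le_exp.mpr (neg_le_of_abs_le ((h𝒱 v' hv').2 k))) hκ.le
    have h6 : n * (δ * (T * Real.exp ε)) ≤ κ * Real.exp (-ε) / 2 := by
      have h7 : n * (δ * (T * Real.exp ε)) = (n * Γ * δ) * (κ * Real.exp (-ε) / 2) := by
        have h8 : Real.exp (2 * ε) = Real.exp ε * Real.exp ε := by
          rw [← Real.exp_add]
          ring_nf
        rw [hΓe, h8, Real.exp_neg]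
        field_simp
      rw [h7]
      refine mul_le_of_le_one_left (by positivity) ?_
      have h8 : 0 ≤ n * Γ * δ := by positivity
      linarith
    linarith
  have hGlow : ∀ k, Real.exp (v' k - v k) / (2 * (T / κ)) ≤ cj (wd L t) h k k := by
    intro k
    have h3 := (abs_le.mp (hclose k)).2
    have h4 : b' k / 2 ≤ cj (wd L t) h k k * a' k := by linarith
    have h5 : κ * Real.exp (v' k) / 2 ≤ cj (wd L t) h k k * (T * Real.exp (v k)) := by
      have h6 : 0 ≤ cj (wd L t) h k k := (by positivity : (0 : ℝ) ≤ 1 / (n * Γ)).trans (hlow k)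
      have h7 := mul_le_mul_of_nonneg_left (ha1 k).2 h6
      have h8 := (hb1 k).1
      linarith
    rw [div_le_iff₀ (by positivity), Real.exp_sub]
    have h9 := Real.exp_pos (v k)
    rw [div_le_iff₀ h9]
    have h10 : cj (wd L t) h k k * (2 * (T / κ)) * Real.exp (v k) =
        (cj (wd L t) h k k * (T * Real.exp (v k))) * (2 / κ) := by
      field_simp
    rw [h10]
    have h11 : Real.exp (v' k) = (κ * Real.exp (v' k) / 2) * (2 / κ) := by
      field_simp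
    rw [h11]
    exact mul_le_mul_of_nonneg_right h5 (by positivity)
  have hGup : ∀ k, cj (wd L t) h k k ≤ 3 / 2 * (T / κ) * Real.exp (v' k - v k) := by
    intro k
    have h3 := (abs_le.mp (hclose k)).1
    have h4 : cj (wd L t) h k k * a' k ≤ 3 / 2 * b' k := by linarith
    have h6 : 0 ≤ cj (wd L t) h k k := (by positivity : (0 : ℝ) ≤ 1 / (n * Γ)).trans (hlow k)
    have h5 : cj (wd L t) h k k * (κ * Real.exp (v k)) ≤ 3 / 2 * (T * Real.exp (v' k)) := by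
      have h7 := mul_le_mul_of_nonneg_left (ha1 k).1 h6
      have h8 := (hb1 k).2
      linarith
    have h9 := Real.exp_pos (v k)
    have h10 : cj (wd L t) h k k = cj (wd L t) h k k * (κ * Real.exp (v k)) *
        (1 / (κ * Real.exp (v k))) := by
      field_simp
    rw [h10]
    refine (mul_le_mul_of_nonneg_right h5 (by positivity)).trans (le_of_eq ?_)
    rw [Real.exp_sub]
    field_simp
  have hw' : B₀ ≤ (v' i - v i) - (v' j - v j) := hw
  have h3 : 2 * cj (wd L t) h j j ≤ cj (wd L t) h i i := by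
    refine le_trans ?_ (hGlow i)
    rw [le_div_iff₀ (by positivity)]
    have h4 : Real.exp B₀ * Real.exp (v' j - v j) ≤ Real.exp (v' i - v i) := by
      rw [← Real.exp_add]
      exact Real.exp_le_exp.mpr (by linarith)
    have h5 : 6 * (T / κ) ^ 2 * Real.exp (v' j - v j) ≤ Real.exp (v' i - v i) :=
      (mul_le_mul_of_nonneg_right hB₀ (Real.exp_pos _).le).trans h4
    refine le_trans ?_ h5
    have h6 := mul_le_mul_of_nonneg_right (hGup j) (by positivity : (0 : ℝ) ≤ 4 * (T / κ))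
    calc 2 * cj (wd L t) h j j * (2 * (T / κ)) = cj (wd L t) h j j * (4 * (T / κ)) := by ring
      _ ≤ 3 / 2 * (T / κ) * Real.exp (v' j - v j) * (4 * (T / κ)) := h6
      _ = 6 * (T / κ) ^ 2 * Real.exp (v' j - v j) := by ring
  have h4 : 1 / (n * Γ) ≤ |cj (wd L t) h i i - cj (wd L t) h j j| := by
    refine le_trans ?_ (le_abs_self _)
    linarith [hlow j]
  rw [div_le_iff₀ (by positivity)] at h4
  rw [pow_one]
  linarith

/-- Growth: the smallness conditions hold for windows proportional to the radius. -/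
theorem growth (C Q : ℝ) (k K n : ℕ) (hC : 0 < C) (hQ : 1 ≤ Q) (hn : 1 ≤ n) :
    ∃ (ε₀ : ℝ) (R₀ : ℕ), 0 < ε₀ ∧ ∀ R : ℕ, R₀ ≤ R → ∃ (ρ : ℝ) (N : ℕ), 0 ≤ ρ ∧
      ρ + ε₀ * R ≤ N ∧ K * (N + 1) + 1 ≤ R ∧
      C * (2 * Q * Real.exp (2 * (ε₀ * R))) ^ k * ((n : ℝ) ^ 2 *
        (2 * n * Q ^ 2 * Real.exp (2 * (ε₀ * R) - ρ)) *
        (2 * Q * Real.exp (2 * (ε₀ * R))) ^ 2) ≤ 1 := by
  set α : ℝ := 1 / (4 * ((K : ℝ) + 1)) with hα
  have hK0 : (0 : ℝ) ≤ K := Nat.cast_nonneg K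
  have hk0 : (0 : ℝ) ≤ k := Nat.cast_nonneg k
  have hα0 : 0 < α := by positivity
  set ε₀ : ℝ := α / (4 * (k : ℝ) + 12) with hε₀
  have hε0 : 0 < ε₀ := by positivity
  have hεα : (2 * (k : ℝ) + 6) * ε₀ = α / 2 := by
    rw [hε₀]
    field_simp
    ring
  have hεle : ε₀ ≤ α := by
    rw [hε₀]
    exact div_le_self hα0.le (by linarith)
  set C' : ℝ := C * (2 * Q) ^ k * ((n : ℝ) ^ 2 * (2 * n * Q ^ 2) * (2 * Q) ^ 2) with hC'
  have hn' : (1 : ℝ) ≤ n := by exact_mod_cast hn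
  have hC'0 : 0 < C' := by positivity
  obtain ⟨R₁, hR₁⟩ := exists_nat_ge (2 * C' / α)
  refine ⟨ε₀, max R₁ (4 * K + 2), hε0, fun R hR => ?_⟩
  have hR1 : 2 * C' / α ≤ R := hR₁.trans (by exact_mod_cast (le_max_left _ _).trans hR)
  have hR2 : 4 * (K : ℝ) + 2 ≤ R := by exact_mod_cast (le_max_right _ _).trans hR
  have hR0 : (0 : ℝ) ≤ R := Nat.cast_nonneg R
  refine ⟨α * R, ⌈α * R + ε₀ * R⌉₊, by positivity, Nat.le_ceil _, ?_, ?_⟩
  · have h1 : ((⌈α * R + ε₀ * R⌉₊ : ℕ) : ℝ) < α * R + ε₀ * R + 1 :=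
      Nat.ceil_lt_add_one (by positivity)
    have h2 : α * R + ε₀ * R ≤ 2 * α * R := by nlinarith
    have h3 : (K : ℝ) * (2 * α * R) ≤ R / 2 := by
      have h4 : (K : ℝ) * (2 * α * R) = (K / (K + 1)) * (R / 2) := by
        rw [hα]
        field_simp
        ring
      rw [h4]
      refine mul_le_of_le_one_left (by positivity) ?_
      rw [div_le_one (by positivity)]
      linarith
    have h4 : ((K * (⌈α * R + ε₀ * R⌉₊ + 1) + 1 : ℕ) : ℝ) ≤ R := by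
      push_cast
      have h5 : (K : ℝ) * (((⌈α * R + ε₀ * R⌉₊ : ℕ) : ℝ) + 1) ≤ K * (2 * α * R + 2) :=
        mul_le_mul_of_nonneg_left (by linarith) hK0
      have h6 : (K : ℝ) * (2 * α * R + 2) = K * (2 * α * R) + 2 * K := by ring
      linarith
    exact_mod_cast h4
  · have h1 : C * (2 * Q * Real.exp (2 * (ε₀ * R))) ^ k * ((n : ℝ) ^ 2 *
        (2 * n * Q ^ 2 * Real.exp (2 * (ε₀ * R) - α * R)) *
        (2 * Q * Real.exp (2 * (ε₀ * R))) ^ 2) = C' * Real.exp (-(α * R / 2)) := by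
      have h2 : Real.exp (-(α * R / 2)) = Real.exp (2 * (ε₀ * R)) ^ k *
          (Real.exp (2 * (ε₀ * R) - α * R) * Real.exp (2 * (ε₀ * R)) ^ 2) := by
        rw [← Real.exp_nat_mul, ← Real.exp_nat_mul, ← Real.exp_add, ← Real.exp_add]
        congr 1
        have h3 : (k : ℝ) * (2 * (ε₀ * R)) + (2 * (ε₀ * R) - α * R + ((2 : ℕ) : ℝ) *
            (2 * (ε₀ * R))) = ((2 * (k : ℝ) + 6) * ε₀) * R - α * R := by
          push_cast
          ring
        rw [h3, hεα]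
        ring
      rw [h2, hC', mul_pow (2 * Q) _ k, mul_pow (2 * Q) _ 2]
      ring
    rw [h1, Real.exp_neg, ← div_eq_mul_inv, div_le_one (Real.exp_pos _)]
    have h2 := Real.add_one_le_exp (α * R / 2)
    have h3 : C' ≤ α * R / 2 := by
      rw [div_le_iff₀ hα0] at hR1
      linarith
    linarith

/-- Few classes of patches with respect to a spread set of directions. -/
theorem poly_core (hn3 : 3 ≤ Fintype.card ι) (c d : ℝ) (hc : 0 < c) :
    ∃ (ε₀ B₀ : ℝ) (R₀ : ℕ), 0 < ε₀ ∧ 0 < B₀ ∧ ∀ R : ℕ, R₀ ≤ R → ∀ m : ℕ, ∀ 𝒱 : Finset (ι → ℝ),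
      (∀ v ∈ 𝒱, ∑ i, v i = 0 ∧ ∀ i, |v i| ≤ ε₀ * R) →
      (∀ v ∈ 𝒱, ∀ v' ∈ 𝒱, v ≠ v' → Spread B₀ (v' - v)) →
      m * Fintype.card ι ^ Fintype.card ι < 𝒱.card → ∀ L : Matrix ι ι ℝ, L ∈ Good c d →
      Finite (Local.Q (Matrix ι ι ℤ)ˣ (AdjW L) R) →
      Nat.card (Local.Q (Matrix ι ι ℤ)ˣ (AdjW L) R) ≤ m → Alg L := by
  have hne : Nonempty ι := Fintype.card_pos_iff.mp (by omega)
  obtain ⟨κ, T, K, hU⟩ := exists_unif (ι := ι) (by omega) c d hc
  have hκ := hU.κ0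
  have hT : 0 < T := hκ.trans_le hU.κT
  have hQ : 1 ≤ T / κ := by
    rw [one_le_div hκ]
    exact hU.κT
  set B₀ : ℝ := 6 * (T / κ) ^ 2 with hB₀
  have hB₀0 : 0 < B₀ := by positivity
  have hB₀e : 6 * (T / κ) ^ 2 ≤ Real.exp B₀ := by
    have h1 := Real.add_one_le_exp B₀
    linarith
  obtain ⟨C, k, hC, hCk⟩ := (lper_exists hn3 c d κ T K hc hU B₀ hB₀e).and
    (lper_alg hn3 c d hc)
  obtain ⟨ε₀, R₀, hε₀, hgrow⟩ := growth C (T / κ) k K (Fintype.card ι) hC hQ (by omega)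
  refine ⟨ε₀, B₀, R₀, hε₀, hB₀0, fun R hR m 𝒱 h𝒱 h𝒱s hm L hL hfin hcard => ?_⟩
  obtain ⟨ρ, N, hρ, hN, hKN, hsm⟩ := hgrow R hR
  set ε : ℝ := ε₀ * R with hε
  have hε0 : 0 ≤ ε := by positivity
  set Γ : ℝ := 2 * (T / κ) * Real.exp (2 * ε) with hΓ
  set η : ℝ := 2 * Fintype.card ι * (T / κ) ^ 2 * Real.exp (2 * ε - ρ) with hη
  set δ : ℝ := Fintype.card ι ^ 2 * η * Γ ^ 2 with hδ
  have hΓ1 : 1 ≤ Γ := by
    have h1 : 1 ≤ Real.exp (2 * ε) := Real.one_le_exp (by linarith)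
    rw [hΓ]
    nlinarith
  have hδ0 : 0 ≤ δ := by positivity
  obtain ⟨h1, h2⟩ := hCk Γ δ hΓ1 hδ0 hsm
  exact h2 L hL (fun t ht => h1 L hL t ht ε ρ η hε0 hρ N R m hN hKN hfin hcard 𝒱 h𝒱 h𝒱s hm
    hΓ hη hδ)

end Pool.Agent.H83.Sail
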