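import Mathlib
import Pool.Agent.H83.Sail.Pcore

/-!
# Spread sets of directions
-/

namespace Pool.Agent.H83.Sail

open Module

/-- Subspaces in general position. -/
theorem gen_pos {E : Type*} [AddCommGroup E] [Module ℚ E] [FiniteDimensional ℚ E] {κ : Type*}
    [Finite κ] [Nonempty κ] (W : κ → Submodule ℚ E) (q : ℕ) (hW : ∀ a, finrank ℚ (W a) ≤ q) :
    ∀ j, j + q ≤ finrank ℚ E → ∃ V : Submodule ℚ E, finrank ℚ V = j ∧ ∀ a, V ⊓ W a = ⊥ := by
  intro j
  induction j with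
  | zero => exact fun _ => ⟨⊥, finrank_bot ℚ E, fun a => bot_inf_eq _⟩
  | succ j ih =>
    intro hj
    obtain ⟨V, hV, hVW⟩ := ih (by omega)
    have hproper : ∀ a, V ⊔ W a ≠ ⊤ := by
      intro a htop
      have h1 := Submodule.finrank_add_le_finrank_add_finrank V (W a)
      rw [htop, finrank_top, hV] at h1
      have := hW a
      omega
    have hne : (⋃ a, ((V ⊔ W a : Submodule ℚ E) : Set E)) ≠ Set.univ := by
      intro h
      obtain ⟨a, ha⟩ := Subspace.exists_eq_top_of_iUnion_eq_univ h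
      exact hproper a ha
    obtain ⟨v, hv⟩ := (Set.ne_univ_iff_exists_notMem _).mp hne
    rw [Set.mem_iUnion] at hv
    push Not at hv
    obtain ⟨a0⟩ := (inferInstance : Nonempty κ)
    have hvV : v ∉ V := fun h => hv a0 (Submodule.mem_sup_left h)
    have hv0 : v ≠ 0 := fun h => hvV (h ▸ V.zero_mem)
    refine ⟨V ⊔ Submodule.span ℚ {v}, ?_, fun a => ?_⟩
    · have h1 := Submodule.finrank_sup_add_finrank_inf_eq V (Submodule.span ℚ {v})
      have h2 : V ⊓ Submodule.span ℚ {v} = ⊥ :=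
        disjoint_iff.mp ((Submodule.disjoint_span_singleton' hv0).mpr hvV)
      rw [h2, finrank_bot, hV, finrank_span_singleton hv0] at h1
      omega
    · rw [eq_bot_iff]
      rintro w ⟨hw1, hw2⟩
      obtain ⟨u, hu, z, hz, rfl⟩ := Submodule.mem_sup.mp hw1
      obtain ⟨r, rfl⟩ := Submodule.mem_span_singleton.mp hz
      rcases eq_or_ne r 0 with hr | hr
      · rw [hr, zero_smul, add_zero] at hw2 ⊢
        have h1 : u ∈ V ⊓ W a := ⟨hu, hw2⟩
        rw [hVW a] at h1
        exact h1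
      · exfalso
        refine hv a ?_
        have h1 : v = r⁻¹ • (u + r • v) - r⁻¹ • u := by
          rw [smul_add, smul_smul, inv_mul_cancel₀ hr, one_smul, add_sub_cancel_left]
        rw [h1]
        exact Submodule.sub_mem _ (Submodule.smul_mem _ _ (Submodule.mem_sup_right hw2))
          (Submodule.smul_mem _ _ (Submodule.mem_sup_left hu))

/-- A basis of a subspace of known dimension. -/
noncomputable def subBasis {E : Type*} [AddCommGroup E] [Module ℚ E] [FiniteDimensional ℚ E]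
    (V : Submodule ℚ E) {k : ℕ} (hV : finrank ℚ V = k) : Basis (Fin k) ℚ V :=
  finBasisOfFinrankEq ℚ V hV

variable {ι : Type*} [Fintype ι] [DecidableEq ι]

/-- The sum of the values along a map. -/
noncomputable def sumf (κ : Type*) (a : ι → κ) : (κ → ℚ) →ₗ[ℚ] ℚ :=
  ∑ i, LinearMap.proj (a i)

omit [DecidableEq ι] in
theorem sumf_apply {κ : Type*} (a : ι → κ) (u : κ → ℚ) : sumf κ a u = ∑ i, u (a i) := by
  rw [sumf, LinearMap.sum_apply]
  rfl

omit [DecidableEq ι] in
theorem finrank_ker_sumf [Nonempty ι] {κ : Type*} [Fintype κ] (a : ι → κ) :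
    finrank ℚ (LinearMap.ker (sumf κ a)) + 1 = Fintype.card κ := by
  have hne : sumf κ a ≠ 0 := by
    intro h
    have h1 := congrArg (fun f => f (fun _ => (1 : ℚ))) h
    simp only [sumf_apply, LinearMap.zero_apply, Finset.sum_const, Finset.card_univ,
      nsmul_eq_mul, mul_one] at h1
    have h2 : (Fintype.card ι : ℚ) ≠ 0 := by exact_mod_cast Fintype.card_pos.ne'
    exact h2 h1
  have h1 := Module.Dual.finrank_ker_add_one_of_ne_zero (f := sumf κ a) hne
  rw [finrank_fintype_fun_eq_card] at h1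
  exact h1

/-- Clearing denominators. -/
theorem clear_den {k : ℕ} {κ : Type*} [Fintype κ] (g : Fin k → κ → ℚ) :
    ∃ (D : ℕ) (f : Fin k → κ → ℤ), D ≠ 0 ∧ ∀ a i, (f a i : ℚ) = (D : ℚ) * g a i := by
  have hD0 : (∏ p : Fin k × κ, (g p.1 p.2).den) ≠ 0 :=
    Finset.prod_ne_zero_iff.mpr (fun p _ => Rat.den_nz _)
  have hint : ∀ a i, ∃ z : ℤ,
      (z : ℚ) = ((∏ p : Fin k × κ, (g p.1 p.2).den : ℕ) : ℚ) * g a i := by
    intro a i
    obtain ⟨e, he⟩ : (g a i).den ∣ ∏ p : Fin k × κ, (g p.1 p.2).den :=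
      Finset.dvd_prod_of_mem (fun p : Fin k × κ => (g p.1 p.2).den) (Finset.mem_univ (a, i))
    refine ⟨(g a i).num * e, ?_⟩
    have h1 := Rat.mul_den_eq_num (g a i)
    rw [he]
    push_cast
    rw [← h1]
    ring
  choose f hf using hint
  exact ⟨_, f, hD0, hf⟩

/-- Integer relations between basis vectors. -/
theorem lin_zero {E : Type*} [AddCommGroup E] [Module ℚ E] {k : ℕ} (b : Basis (Fin k) ℚ E)
    (x : Fin k → ℤ) (h : ∑ k, ((x k : ℤ) : ℚ) • b k = 0) (k : Fin k) : x k = 0 := by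
  have h1 := (Fintype.linearIndependent_iff.mp b.linearIndependent) (fun k => ((x k : ℤ) : ℚ))
    h k
  have h2 : ((x k : ℤ) : ℚ) = 0 := h1
  exact_mod_cast h2

omit [DecidableEq ι] in
/-- Integer vectors in general position with respect to the patterns. -/
theorem exists_vectors (hn : 2 ≤ Fintype.card ι) (m₀ : ℕ) (hm₀ : 1 ≤ m₀)
    (hm₀n : m₀ ≤ Fintype.card ι) : ∃ f : Fin (Fintype.card ι - m₀) → ι → ℤ,
      (∀ k, ∑ i, f k i = 0) ∧ ∀ x : Fin (Fintype.card ι - m₀) → ℤ, x ≠ 0 →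
      ∀ a : ι → Fin m₀, ∃ i j, a i = a j ∧ ∑ k, x k * f k i ≠ ∑ k, x k * f k j := by
  classical
  have hne : Nonempty ι := Fintype.card_pos_iff.mp (by omega)
  have hFin : Nonempty (Fin m₀) := ⟨⟨0, hm₀⟩⟩
  set H : Submodule ℚ (ι → ℚ) := LinearMap.ker (sumf ι (id : ι → ι)) with hH
  have hHrank : finrank ℚ H + 1 = Fintype.card ι := finrank_ker_sumf (id : ι → ι)
  have hHsum : ∀ u ∈ H, ∑ i, u i = 0 := by
    intro u hu
    rw [hH, LinearMap.mem_ker, sumf_apply] at hu
    exact hu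
  -- vectors that are constant on the fibres
  set W : (ι → Fin m₀) → Submodule ℚ H := fun a => Submodule.comap H.subtype
    (LinearMap.range (LinearMap.funLeft ℚ ℚ a)) with hW
  have hWrank : ∀ a, finrank ℚ (W a) ≤ m₀ - 1 := by
    intro a
    have h1 := finrank_ker_sumf (κ := Fin m₀) a
    rw [Fintype.card_fin] at h1
    set Kr := LinearMap.ker (sumf (Fin m₀) a) with hKr
    have h2 : (W a).map H.subtype ≤ Kr.map (LinearMap.funLeft ℚ ℚ a) := by
      rintro _ ⟨⟨v, hv⟩, hvW, rfl⟩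
      obtain ⟨u, hu⟩ := LinearMap.mem_range.mp hvW
      refine ⟨u, ?_, hu⟩
      rw [SetLike.mem_coe, hKr, LinearMap.mem_ker, sumf_apply]
      rw [hH, LinearMap.mem_ker, sumf_apply] at hv
      have h3 : ∀ i, u (a i) = v i := fun i => congrFun hu i
      simp_rw [h3]
      exact hv
    have h3 : finrank ℚ ((W a).map H.subtype) = finrank ℚ (W a) :=
      Submodule.finrank_map_subtype_eq H (W a)
    have h4 := Submodule.finrank_mono h2
    have h5 : finrank ℚ (Kr.map (LinearMap.funLeft ℚ ℚ a)) ≤ finrank ℚ Kr :=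
      Submodule.finrank_map_le _ _
    omega
  obtain ⟨V, hV, hVW⟩ := gen_pos W (m₀ - 1) hWrank (Fintype.card ι - m₀) (by omega)
  set b := subBasis V hV with hb
  -- clear denominators
  obtain ⟨D, f, hD0, hf⟩ := clear_den (fun k i => ((b k : H) : ι → ℚ) i)
  refine ⟨f, fun k => ?_, fun x hx a => ?_⟩
  · have h1 : ((∑ i, f k i : ℤ) : ℚ) = 0 := by
      push_cast
      simp_rw [hf k]
      rw [← Finset.mul_sum]
      have h2 : ∑ i, ((b k : H) : ι → ℚ) i = 0 := hHsum _ (b k : H).2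
      rw [h2, mul_zero]
    exact_mod_cast h1
  · by_contra hcon
    push Not at hcon
    set w : V := ∑ k, ((x k : ℤ) : ℚ) • b k with hw
    have hwcoord : ∀ i, (D : ℚ) * ((w : H) : ι → ℚ) i = ((∑ k, x k * f k i : ℤ) : ℚ) := by
      intro i
      have h1 : ((w : H) : ι → ℚ) i = ∑ k, ((x k : ℤ) : ℚ) * ((b k : H) : ι → ℚ) i := by
        rw [hw]
        simp
      rw [h1, Finset.mul_sum]
      push_cast
      refine Finset.sum_congr rfl (fun k _ => ?_)
      rw [hf]
      ring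
    have hDq : (D : ℚ) ≠ 0 := by exact_mod_cast hD0
    have hconst : ∀ i j, a i = a j → ((w : H) : ι → ℚ) i = ((w : H) : ι → ℚ) j := by
      intro i j hij
      have h1 := hcon i j hij
      have h2 : (D : ℚ) * ((w : H) : ι → ℚ) i = (D : ℚ) * ((w : H) : ι → ℚ) j := by
        rw [hwcoord, hwcoord, h1]
      exact mul_left_cancel₀ hDq h2
    have hwW : (w : H) ∈ W a := by
      rw [hW]
      simp only [Submodule.mem_comap, Submodule.coe_subtype, LinearMap.mem_range]
      refine ⟨fun r => if h : ∃ i, a i = r then ((w : H) : ι → ℚ) h.choose else 0, ?_⟩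
      funext i
      rw [LinearMap.funLeft_apply]
      have hex : ∃ j, a j = a i := ⟨i, rfl⟩
      rw [dif_pos hex]
      exact hconst _ _ hex.choose_spec
    have hw0 : (w : H) ∈ V ⊓ W a := ⟨w.2, hwW⟩
    rw [hVW a, Submodule.mem_bot] at hw0
    have hw0' : w = 0 := Subtype.ext hw0
    apply hx
    funext k
    have h1 := lin_zero (E := V) b x hw0' k
    rw [Pi.zero_apply]
    exact h1

omit [DecidableEq ι] in
/-- Large spread sets of directions. -/
theorem exists_grid (hn : 2 ≤ Fintype.card ι) (B₀ : ℝ) (hB₀ : 0 < B₀) :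
    ∃ κ : ℝ, 0 < κ ∧ ∀ E : ℝ, 0 ≤ E → ∃ 𝒱 : Finset (ι → ℝ),
      (∀ v ∈ 𝒱, ∑ i, v i = 0 ∧ ∀ i, |v i| ≤ E) ∧
      (∀ v ∈ 𝒱, ∀ v' ∈ 𝒱, v ≠ v' → Spread B₀ (v' - v)) ∧ 0 < 𝒱.card ∧
      (κ * E) ^ (Fintype.card ι - Fintype.card ι / (Fintype.card ι).minFac) ≤ 𝒱.card := by
  classical
  set n := Fintype.card ι with hnn
  have hmin2 : 1 ≤ n.minFac := Nat.minFac_pos n
  have hm₀ : 1 ≤ n / n.minFac :=
    Nat.one_le_div_iff hmin2 |>.mpr (Nat.minFac_le (by omega))
  have hm₀n : n / n.minFac ≤ n := Nat.div_le_self _ _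
  obtain ⟨e, he⟩ : ∃ e, e = n - n / n.minFac := ⟨_, rfl⟩
  obtain ⟨f, hf0, hf⟩ : ∃ f : Fin e → ι → ℤ, (∀ k, ∑ i, f k i = 0) ∧
      ∀ x : Fin e → ℤ, x ≠ 0 → ∀ a : ι → Fin (n / n.minFac),
        ∃ i j, a i = a j ∧ ∑ k, x k * f k i ≠ ∑ k, x k * f k j := by
    subst he
    exact exists_vectors (ι := ι) hn (n / n.minFac) hm₀ hm₀n
  rw [← he]
  set F : ℝ := 1 + ∑ k, ∑ i, |(f k i : ℝ)| with hF
  have hF1 : 1 ≤ F := by
    rw [hF]
    have : 0 ≤ ∑ k, ∑ i, |(f k i : ℝ)| :=
      Finset.sum_nonneg (fun k _ => Finset.sum_nonneg (fun i _ => abs_nonneg _))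
    linarith
  have hF0 : 0 < F := by linarith
  refine ⟨1 / (B₀ * F), by positivity, fun E hE => ?_⟩
  set M : ℕ := ⌊E / (B₀ * F)⌋₊ with hM
  have hMle : (M : ℝ) ≤ E / (B₀ * F) := Nat.floor_le (by positivity)
  -- the vectors
  set v : (Fin e → Fin (M + 1)) → ι → ℝ := fun x i =>
    B₀ * ∑ k, (((x k : ℕ) : ℤ) : ℝ) * (f k i : ℝ) with hv
  have hdiff : ∀ x x' : Fin e → Fin (M + 1), ∀ i, (v x' - v x) i =
      B₀ * ((∑ k, (((x' k : ℕ) : ℤ) - ((x k : ℕ) : ℤ)) * f k i : ℤ) : ℝ) := by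
    intro x x' i
    rw [Pi.sub_apply, hv]
    simp only
    push_cast
    rw [← mul_sub, ← Finset.sum_sub_distrib]
    congr 1
    exact Finset.sum_congr rfl (fun k _ => by ring)
  have hspread : ∀ x x', x ≠ x' → Spread B₀ (v x' - v x) := by
    intro x x' hxx a
    have hne : (fun k => ((x' k : ℕ) : ℤ) - ((x k : ℕ) : ℤ)) ≠ 0 := by
      intro h
      apply hxx
      funext k
      have h1 := congrFun h k
      simp only [Pi.zero_apply] at h1
      apply Fin.ext
      omega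
    obtain ⟨i, j, hij, hne'⟩ := hf _ hne a
    have hcase : ∀ p q : ι, (∑ k, (((x' k : ℕ) : ℤ) - ((x k : ℕ) : ℤ)) * f k q) <
        ∑ k, (((x' k : ℕ) : ℤ) - ((x k : ℕ) : ℤ)) * f k p →
        B₀ ≤ (v x' - v x) p - (v x' - v x) q := by
      intro p q hlt
      rw [hdiff, hdiff, ← mul_sub]
      refine le_mul_of_one_le_right hB₀.le ?_
      have h1 : (1 : ℤ) ≤ (∑ k, (((x' k : ℕ) : ℤ) - ((x k : ℕ) : ℤ)) * f k p) -
          ∑ k, (((x' k : ℕ) : ℤ) - ((x k : ℕ) : ℤ)) * f k q := by omega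
      exact_mod_cast h1
    rcases lt_or_gt_of_ne hne' with h | h
    · exact ⟨j, i, hij.symm, hcase j i h⟩
    · exact ⟨i, j, hij, hcase i j h⟩
  have hinj : Function.Injective v := by
    intro x x' hxx
    by_contra hne
    have h1 := hspread x x' hne (fun _ => ⟨0, hm₀⟩)
    obtain ⟨i, j, -, hB⟩ := h1
    rw [hxx, sub_self, Pi.zero_apply, Pi.zero_apply, sub_zero] at hB
    linarith
  refine ⟨Finset.univ.image v, fun w hw => ?_, fun w hw w' hw' hww => ?_, ?_, ?_⟩
  · obtain ⟨x, -, rfl⟩ := Finset.mem_image.mp hw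
    refine ⟨?_, fun i => ?_⟩
    · rw [hv]
      simp only
      rw [← Finset.mul_sum, Finset.sum_comm]
      have h1 : ∀ k, ∑ i, (((x k : ℕ) : ℤ) : ℝ) * (f k i : ℝ) = 0 := by
        intro k
        rw [← Finset.mul_sum]
        have h2 : ∑ i, (f k i : ℝ) = ((∑ i, f k i : ℤ) : ℝ) := by push_cast; rfl
        rw [h2, hf0, Int.cast_zero, mul_zero]
      simp_rw [h1]
      rw [Finset.sum_const_zero, mul_zero]
    · rw [hv]
      simp only
      rw [abs_mul, abs_of_pos hB₀]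
      have h1 : |∑ k, (((x k : ℕ) : ℤ) : ℝ) * (f k i : ℝ)| ≤ M * F := by
        refine (Finset.abs_sum_le_sum_abs _ _).trans ?_
        have h2 : ∀ k ∈ Finset.univ, |(((x k : ℕ) : ℤ) : ℝ) * (f k i : ℝ)| ≤
            M * ∑ i, |(f k i : ℝ)| := by
          intro k _
          rw [abs_mul]
          have h3 : |(((x k : ℕ) : ℤ) : ℝ)| ≤ M := by
            rw [Int.cast_natCast, abs_of_nonneg (Nat.cast_nonneg _)]
            exact_mod_cast Nat.lt_succ_iff.mp (x k).2
          exact mul_le_mul h3 (Finset.single_le_sum (f := fun i => |(f k i : ℝ)|)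
            (fun j _ => abs_nonneg _) (Finset.mem_univ i)) (abs_nonneg _) (Nat.cast_nonneg M)
        refine (Finset.sum_le_sum h2).trans ?_
        rw [← Finset.mul_sum]
        refine mul_le_mul_of_nonneg_left ?_ (Nat.cast_nonneg M)
        rw [hF]
        linarith
      calc B₀ * |∑ k, (((x k : ℕ) : ℤ) : ℝ) * (f k i : ℝ)| ≤ B₀ * (M * F) :=
            mul_le_mul_of_nonneg_left h1 hB₀.le
        _ = M * (B₀ * F) := by ring
        _ ≤ E := (le_div_iff₀ (by positivity)).mp hMle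
  · obtain ⟨x, -, rfl⟩ := Finset.mem_image.mp hw
    obtain ⟨x', -, rfl⟩ := Finset.mem_image.mp hw'
    exact hspread x x' (fun h => hww (by rw [h]))
  · rw [Finset.card_image_of_injective _ hinj, Finset.card_univ]
    exact Fintype.card_pos
  · rw [Finset.card_image_of_injective _ hinj, Finset.card_univ, Fintype.card_fun,
      Fintype.card_fin, Fintype.card_fin]
    push_cast
    have h1 : 1 / (B₀ * F) * E ≤ (M : ℝ) + 1 := by
      rw [one_div_mul_eq_div]
      exact (Nat.lt_floor_add_one _).le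
    exact pow_le_pow_left₀ (by positivity) h1 _

end Pool.Agent.H83.Sail
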