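import Mathlib
import Pool.Agent.H83.Sail.Main
import Pool.Agent.H83.Sail.Dens

namespace Pool.Agent.H83.Sail

open NumberField NumberField.InfinitePlace NumberField.ComplexEmbedding
open Module Filter Topology

variable {K : Type*} [Field K] [NumberField K] {ι : Type*} [Fintype ι]

open scoped Classical in
open scoped IntermediateField in
/-- An orbit with bounded norms along a set of positive density: every row is dominated by its
diagonal entry. -/
theorem orbit_dom (P : ι → (K →+* ℂ) → ℂ) (π : ι ≃ (K →+* ℂ))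
    (hπ : ∀ i, P i (π i) ≠ 0) (β : K) (hβ0 : β ≠ 0) (hnorm : 1 ≤ ∏ φ : K →+* ℂ, ‖φ β‖) (x0 : K)
    (hx0 : x0 ≠ 0) (M : ℝ) (hM : PosDens {k : ℕ | ∏ i, ‖∑ φ, P i φ * φ (β ^ k * x0)‖ ≤ M})
    (hprim : ∀ m : ℕ, 0 < m → ℚ⟮β ^ m⟯ = ⊤) (i : ι) (φ : K →+* ℂ) (hP : P i φ ≠ 0) :
    ‖φ β‖ ≤ ‖π i β‖ := by
  have hpos : ∀ φ : K →+* ℂ, 0 < ‖φ β‖ :=
    fun φ => norm_pos_iff.mpr (fun h => hβ0 ((map_eq_zero φ).mp h))
  set l : (K →+* ℂ) → ℝ := fun φ => Real.log ‖φ β‖ with hl
  have hmax : ∀ i, ∃ ψ, P i ψ ≠ 0 ∧ ∀ φ, P i φ ≠ 0 → l φ ≤ l ψ := by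
    intro i
    obtain ⟨ψ, hψ, h⟩ := Finset.exists_max_image (Finset.univ.filter (fun φ => P i φ ≠ 0)) l
      ⟨π i, Finset.mem_filter.mpr ⟨Finset.mem_univ _, hπ i⟩⟩
    exact ⟨ψ, (Finset.mem_filter.mp hψ).2, fun φ hφ =>
      h φ (Finset.mem_filter.mpr ⟨Finset.mem_univ _, hφ⟩)⟩
  choose χ hχ0 hχ using hmax
  set e : ι → ℝ := fun i => l (χ i) with he
  have hsum1 : 0 ≤ ∑ φ, l φ := by
    rw [hl, ← Real.log_prod (fun φ _ => (hpos φ).ne')]
    exact Real.log_nonneg hnorm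
  have hsum2 : ∑ i, e i ≤ 0 := by
    by_contra hcon
    push Not at hcon
    have hne : Nonempty ι := ⟨i⟩
    have hn : 0 < Fintype.card ι := Fintype.card_pos
    set σ : ℝ := ∑ i, e i with hσ
    set g : ι → ℕ → ℝ := fun i k => ‖∑ φ, P i φ * φ (β ^ k * x0)‖ *
      Real.exp (-((k : ℝ) * e i)) with hg
    have hg0 : ∀ i k, 0 ≤ g i k := fun i k => mul_nonneg (norm_nonneg _) (Real.exp_pos _).le
    have hsplit : ∀ k ∈ {k : ℕ | ∏ i, ‖∑ φ, P i φ * φ (β ^ k * x0)‖ ≤ M},
        ∃ i, k ∈ {k : ℕ | g i k ^ Fintype.card ι ≤ M * Real.exp (-((k : ℝ) * σ))} := by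
      intro k hk
      have hk' : ∏ i, ‖∑ φ, P i φ * φ (β ^ k * x0)‖ ≤ M := hk
      obtain ⟨j, -, hj⟩ := Finset.exists_min_image Finset.univ (fun i => g i k)
        Finset.univ_nonempty
      refine ⟨j, ?_⟩
      have h1 : g j k ^ Fintype.card ι ≤ ∏ i, g i k := by
        rw [← Finset.card_univ, ← Finset.prod_const]
        exact Finset.prod_le_prod (fun _ _ => hg0 j k) (fun i _ => hj i (Finset.mem_univ i))
      have h2 : ∏ i, g i k = (∏ i, ‖∑ φ, P i φ * φ (β ^ k * x0)‖) *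
          Real.exp (-((k : ℝ) * σ)) := by
        rw [hg, Finset.prod_mul_distrib, ← Real.exp_sum, Finset.sum_neg_distrib,
          ← Finset.mul_sum]
      rw [h2] at h1
      exact h1.trans (mul_le_mul_of_nonneg_right hk' (Real.exp_pos _).le)
    obtain ⟨j, hj⟩ := hM.split _ hsplit
    set S : Set ℕ := {k : ℕ | g j k ^ Fintype.card ι ≤ M * Real.exp (-((k : ℝ) * σ))} with hS
    set F : Filter ℕ := atTop ⊓ 𝓟 S with hF
    have hexp : Tendsto (fun k : ℕ => M * Real.exp (-((k : ℝ) * σ))) F (𝓝 0) := by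
      have h4 : Tendsto (fun k : ℕ => -((k : ℝ) * σ)) atTop atBot :=
        tendsto_neg_atTop_atBot.comp
          ((tendsto_natCast_atTop_atTop (R := ℝ)).atTop_mul_const hcon)
      have h5 := (Real.tendsto_exp_atBot.comp h4).const_mul M
      rw [mul_zero] at h5
      exact h5.mono_left inf_le_left
    have hgn : Tendsto (fun k => g j k ^ Fintype.card ι) F (𝓝 0) := by
      refine tendsto_of_tendsto_of_tendsto_of_le_of_le' tendsto_const_nhds hexp ?_ ?_
      · exact Eventually.of_forall (fun k => pow_nonneg (hg0 j k) _)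
      · exact eventually_inf_principal.mpr (Eventually.of_forall (fun k hk => hk))
    have hgl : Tendsto (g j) F (𝓝 0) := by
      have h1 := hgn.rpow_const (p := ((Fintype.card ι : ℝ)⁻¹)) (Or.inr (by positivity))
      rw [Real.zero_rpow (by positivity)] at h1
      refine h1.congr (fun k => ?_)
      exact Real.pow_rpow_inv_natCast (hg0 j k) hn.ne'
    set z : (K →+* ℂ) → ℂ := fun φ => φ β * ((Real.exp (-(e j)) : ℝ) : ℂ) with hz
    set T : Finset (K →+* ℂ) := Finset.univ.filter (fun φ => P j φ ≠ 0 ∧ l φ = e j) with hT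
    have hznorm : ∀ φ, ‖z φ‖ = Real.exp (l φ - e j) := by
      intro φ
      rw [hz]
      beta_reduce
      rw [norm_mul, Complex.norm_real, Real.norm_eq_abs, abs_of_pos (Real.exp_pos _),
        sub_eq_add_neg, Real.exp_add, hl, Real.exp_log (hpos φ)]
    have hterm : ∀ k : ℕ, (∑ φ, P j φ * φ (β ^ k * x0)) *
        ((Real.exp (-((k : ℝ) * e j)) : ℝ) : ℂ) = ∑ φ, P j φ * φ x0 * z φ ^ k := by
      intro k
      rw [Finset.sum_mul]
      refine Finset.sum_congr rfl (fun φ _ => ?_)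
      have h1 : Real.exp (-((k : ℝ) * e j)) = Real.exp (-(e j)) ^ k := by
        rw [← Real.exp_nat_mul, mul_neg]
      rw [h1, hz, map_mul, map_pow, Complex.ofReal_pow, mul_pow]
      ring
    have hfull : Tendsto (fun k : ℕ => ∑ φ, P j φ * φ x0 * z φ ^ k) F (𝓝 0) := by
      rw [tendsto_zero_iff_norm_tendsto_zero]
      refine hgl.congr (fun k => ?_)
      rw [← hterm, norm_mul, Complex.norm_real, Real.norm_eq_abs, abs_of_pos (Real.exp_pos _)]
    have hrest : Tendsto (fun k : ℕ => ∑ φ ∈ Tᶜ, P j φ * φ x0 * z φ ^ k) F (𝓝 0) := by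
      have h1 : Tendsto (fun k : ℕ => ∑ φ ∈ Tᶜ, P j φ * φ x0 * z φ ^ k) atTop
          (𝓝 (∑ φ ∈ Tᶜ, P j φ * φ x0 * 0)) := by
        refine tendsto_finsetSum _ (fun φ hφ => ?_)
        rw [hT, Finset.mem_compl, Finset.mem_filter] at hφ
        push Not at hφ
        by_cases hp : P j φ = 0
        · rw [hp]
          simp
        · have h2 : l φ < e j := lt_of_le_of_ne (hχ j φ hp) (hφ (Finset.mem_univ _) hp)
          refine Tendsto.const_mul _ (tendsto_pow_atTop_nhds_zero_of_norm_lt_one ?_)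
          rw [hznorm, Real.exp_lt_one_iff]
          linarith
      simp only [mul_zero, Finset.sum_const_zero] at h1
      exact h1.mono_left inf_le_left
    have hmain : Tendsto (fun k : ℕ => ∑ φ ∈ T, P j φ * φ x0 * z φ ^ k) F (𝓝 0) := by
      have h1 := hfull.sub hrest
      rw [sub_zero] at h1
      refine h1.congr (fun k => ?_)
      rw [← Finset.sum_add_sum_compl T, add_sub_cancel_right]
    refine expsum z T ?_ ?_ ?_ (fun φ => P j φ * φ x0) ?_ S hj hmain
    · exact ⟨χ j, Finset.mem_filter.mpr ⟨Finset.mem_univ _, hχ0 j, rfl⟩⟩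
    · intro φ hφ
      rw [hznorm, (Finset.mem_filter.mp hφ).2.2, sub_self, Real.exp_zero]
    · intro φ _ ψ _ hne m hm heq
      apply hne
      refine inj_of_primitive (hprim m hm) φ ψ ?_
      rw [hz] at heq
      beta_reduce at heq
      rw [mul_pow, mul_pow] at heq
      have h1 : (((Real.exp (-(e j)) : ℝ) : ℂ)) ^ m ≠ 0 :=
        pow_ne_zero _ (Complex.ofReal_ne_zero.mpr (Real.exp_pos _).ne')
      rw [map_pow, map_pow]
      exact mul_right_cancel₀ h1 heq
    · intro φ hφ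
      exact mul_ne_zero (Finset.mem_filter.mp hφ).2.1 (fun h => hx0 ((map_eq_zero φ).mp h))
  have hge : ∀ i, l (π i) ≤ e i := fun i => hχ i (π i) (hπ i)
  have hsumπ : ∑ i, l (π i) = ∑ φ, l φ := Equiv.sum_comp π l
  have heq : ∀ i ∈ Finset.univ, l (π i) = e i := by
    rw [← Finset.sum_eq_sum_iff_of_le (fun i _ => hge i)]
    refine le_antisymm (Finset.sum_le_sum (fun i _ => hge i)) ?_
    linarith
  have h1 : l φ ≤ l (π i) := by
    rw [heq i (Finset.mem_univ _)]
    exact hχ i φ hP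
  exact (Real.log_le_log_iff (hpos φ) (hpos _)).mp h1

end Pool.Agent.H83.Sail
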