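import Mathlib
import Pool.Agent.H83.Sail.Recur

namespace Pool.Agent.H83.Sail

open NumberField NumberField.InfinitePlace NumberField.ComplexEmbedding
open Module Filter Topology Polynomial

section cp

variable {K : Type*} [Field K] [NumberField K] {ι : Type*} [Fintype ι] [DecidableEq ι]

/-- The complex characteristic polynomial of a multiplication. -/
theorem charpoly_prod (b : Basis ι ℚ K) (f : K → Matrix ι ι ℚ)
    (hf : ∀ x j, x * b j = ∑ i, f x i j • b i) (x : K) :
    (f x).charpoly.map (algebraMap ℚ ℂ) = ∏ φ : K →+* ℂ, (X - C (φ x)) := by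
  have hcard : Fintype.card ι = Fintype.card (K →+* ℂ) := by
    rw [NumberField.Embeddings.card K ℂ, Module.finrank_eq_card_basis b]
  obtain ρ := Fintype.equivOfCardEq hcard
  set V : Matrix ι ι ℂ := Matrix.of fun i j => ρ i (b j) with hV
  have hdet : V.det ≠ 0 := by
    intro h0
    obtain ⟨w, hw0, hw⟩ := Matrix.exists_vecMul_eq_zero_iff.mpr h0
    apply hw0
    have h1 : (fun φ => w (ρ.symm φ)) = 0 := by
      refine emb_indep b _ (fun j => ?_)
      have h2 := congrFun hw j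
      rw [Matrix.vecMul, dotProduct, Pi.zero_apply] at h2
      rw [← h2, ← Equiv.sum_comp ρ]
      refine Finset.sum_congr rfl (fun i _ => ?_)
      rw [Equiv.symm_apply_apply, hV, Matrix.of_apply]
    funext i
    have h2 := congrFun h1 (ρ i)
    simpa using h2
  have hunit : IsUnit V.det := isUnit_iff_ne_zero.mpr hdet
  have hmul : V * (f x).map (algebraMap ℚ ℂ) = Matrix.diagonal (fun i => ρ i x) * V := by
    ext i k
    rw [Matrix.diagonal_mul, Matrix.mul_apply, hV]
    simp only [Matrix.of_apply, Matrix.map_apply]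
    rw [← map_mul, hf, map_sum]
    refine Finset.sum_congr rfl (fun j _ => ?_)
    rw [Algebra.smul_def, map_mul, mul_comm]
    congr 1
    rw [eq_ratCast, eq_ratCast, map_ratCast]
  obtain ⟨U, hU⟩ := (Matrix.isUnit_iff_isUnit_det V).mpr hunit
  have h3 := Matrix.charpoly_units_conj U ((f x).map (algebraMap ℚ ℂ))
  have h4 : ((f x).map (algebraMap ℚ ℂ)).charpoly =
      (Matrix.diagonal (fun i => ρ i x)).charpoly := by
    rw [← h3]
    congr 1
    rw [hU, hmul, Matrix.mul_assoc, Matrix.mul_nonsing_inv V hunit, Matrix.mul_one]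
  rw [← Matrix.charpoly_map, h4, Matrix.charpoly_diagonal]
  exact Equiv.prod_comp ρ (fun φ => X - C (φ x))

/-- Powers of the matrix act on the integer vectors as the powers of the element. -/
theorem pow_act (b : Basis ι ℚ K) (f : K →ₐ[ℚ] Matrix ι ι ℚ)
    (hf : ∀ x j, x * b j = ∑ i, f x i j • b i) (B : Matrix ι ι ℤ) (β : K)
    (hβ : f β = B.map (Int.cast : ℤ → ℚ)) (v : ι → ℤ) (k : ℕ) :
    β ^ k * ∑ j, v j • b j = ∑ j, ((B ^ k).mulVec v) j • b j := by
  have h1 : f (β ^ k) = (B ^ k).map (Int.cast : ℤ → ℚ) := by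
    rw [map_pow, hβ]
    exact (Matrix.map_pow B (Int.castRingHom ℚ) k).symm
  rw [Finset.mul_sum]
  have h2 : ∀ j, β ^ k * (v j • b j) = ∑ i, (v j * (B ^ k) i j) • b i := by
    intro j
    rw [mul_smul_comm, hf, h1, Finset.smul_sum]
    refine Finset.sum_congr rfl (fun i _ => ?_)
    rw [Matrix.map_apply, mul_smul, Int.cast_smul_eq_zsmul]
  simp_rw [h2]
  rw [Finset.sum_comm]
  refine Finset.sum_congr rfl (fun i _ => ?_)
  rw [← Finset.sum_smul, Matrix.mulVec, dotProduct]
  congr 1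
  exact Finset.sum_congr rfl (fun j _ => mul_comm _ _)

end cp

open scoped IntermediateField in
/-- The orbit theorem in matrix form. -/
theorem orbit_gen {ι : Type*} [Fintype ι] [DecidableEq ι] (hn : 3 ≤ Fintype.card ι)
    (L : Matrix ι ι ℝ) (hL : L.det ≠ 0) (c : ℝ) (hc : 0 < c)
    (hmin : ∀ z : ι → ℤ, z ≠ 0 → c ≤ |∏ i, L.mulVec (fun j => (z j : ℝ)) i|)
    (B : Matrix ι ι ℤ) (hB : Irreducible (B.charpoly.map (Int.castRingHom ℚ))) (r : ℝ)
    (hr : (((B.charpoly.map (Int.castRingHom ℂ)).roots.filter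
      (fun z => r ≤ ‖z‖)).card).Coprime (Fintype.card ι))
    (v : ι → ℤ) (hv : v ≠ 0) (M : ℝ)
    (hM : PosDens {k : ℕ | |∏ i, L.mulVec (fun j => (((B ^ k).mulVec v j : ℤ) : ℝ)) i| ≤ M}) :
    ∃ (A : Matrix ι ι ℤ) (μ ν : ι → ℝ), A.det = 1 ∧
      Irreducible (A.charpoly.map (Int.castRingHom ℚ)) ∧ (∀ i, 0 < μ i) ∧
      L * A.map (Int.cast : ℤ → ℝ) = Matrix.diagonal μ * L ∧
      L * B.map (Int.cast : ℤ → ℝ) = Matrix.diagonal ν * L := by
  classical
  have hne : Nonempty ι := Fintype.card_pos_iff.mp (by omega)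
  set Bq : Matrix ι ι ℚ := B.map (Int.cast : ℤ → ℚ) with hBq
  have hBqc : Bq.charpoly = B.charpoly.map (Int.castRingHom ℚ) :=
    Matrix.charpoly_map B (Int.castRingHom ℚ)
  obtain ⟨K, _, _, f, b, β, hfβ, hβ, hf⟩ := exists_field Bq (by rw [hBqc]; exact hB)
  have hPex := fun i => emb_exists b (fun j => (L i j : ℂ))
  choose P hP using hPex
  obtain ⟨π, hπ⟩ := coeff_match b L hL P hP
  have hcardK : Fintype.card (K →+* ℂ) = Fintype.card ι := (Fintype.card_congr π).symm
  have hfin : finrank ℚ K = Fintype.card ι := Module.finrank_eq_card_basis b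
  -- the element is not zero and its norm is at least one
  have hβ0 : β ≠ 0 := by
    rintro rfl
    have h1 : (ℚ⟮(0 : K)⟯ : IntermediateField ℚ K) = ⊥ := by
      rw [IntermediateField.adjoin_zero]
    rw [h1] at hβ
    have h2 : finrank ℚ K = 1 := by
      rw [← IntermediateField.finrank_top', ← hβ, IntermediateField.finrank_bot]
    omega
  have hcp := charpoly_prod b f hf β
  rw [hfβ, hBqc, Polynomial.map_map] at hcp
  have hcomp : (algebraMap ℚ ℂ).comp (Int.castRingHom ℚ) = Int.castRingHom ℂ :=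
    RingHom.ext_int _ _
  rw [hcomp] at hcp
  have hnorm : 1 ≤ ∏ φ : K →+* ℂ, ‖φ β‖ := by
    have h1 : ‖(B.charpoly.map (Int.castRingHom ℂ)).eval 0‖ = ∏ φ : K →+* ℂ, ‖φ β‖ := by
      rw [hcp, Polynomial.eval_prod, norm_prod]
      refine Finset.prod_congr rfl (fun φ _ => ?_)
      rw [eval_sub, eval_X, eval_C, zero_sub, norm_neg]
    have h2 : (B.charpoly.map (Int.castRingHom ℂ)).eval 0 = ((B.charpoly.eval 0 : ℤ) : ℂ) := by
      rw [Polynomial.eval_map, Polynomial.eval₂_at_zero, Polynomial.coeff_zero_eq_eval_zero]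
      rfl
    rw [← h1, h2, Complex.norm_intCast]
    have h3 : B.charpoly.eval 0 ≠ 0 := by
      intro h0
      rw [h2, h0] at h1
      simp only [Int.cast_zero, norm_zero] at h1
      obtain ⟨φ, -, hφ⟩ := Finset.prod_eq_zero_iff.mp h1.symm
      exact hβ0 ((map_eq_zero φ).mp (norm_eq_zero.mp hφ))
    have h4 : (1 : ℤ) ≤ |B.charpoly.eval 0| := Int.one_le_abs h3
    exact_mod_cast h4
  -- the set of the large conjugates
  set Φ : Finset (K →+* ℂ) := Finset.univ.filter (fun φ => r ≤ ‖φ β‖) with hΦ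
  have hmemΦ : ∀ φ, φ ∈ Φ ↔ r ≤ ‖φ β‖ := fun φ => by
    rw [hΦ, Finset.mem_filter]
    exact ⟨fun h => h.2, fun h => ⟨Finset.mem_univ _, h⟩⟩
  have hcount : ((B.charpoly.map (Int.castRingHom ℂ)).roots.filter
      (fun z => r ≤ ‖z‖)).card = Φ.card := by
    have h1 : (∏ φ : K →+* ℂ, (X - C (φ β)) : ℂ[X]) =
        (((Finset.univ : Finset (K →+* ℂ)).val.map (fun φ => φ β)).map
          (fun a => (X - C a : ℂ[X]))).prod := by
      rw [Multiset.map_map]
      rfl
    rw [hcp, h1, Polynomial.roots_multiset_prod_X_sub_C, Multiset.filter_map, Multiset.card_map]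
    rfl
  rw [hcount] at hr
  have hsep : ∀ m : ℕ, 0 < m → ∀ φ ∈ Φ, ∀ ψ, ψ ∉ Φ → φ (β ^ m) ≠ ψ (β ^ m) := by
    intro m hm φ hφ ψ hψ heq
    rw [hmemΦ] at hφ hψ
    have h1 : ‖ψ β‖ < ‖φ β‖ := lt_of_lt_of_le (not_le.mp hψ) hφ
    have h2 := pow_lt_pow_left₀ h1 (norm_nonneg _) hm.ne'
    rw [← norm_pow, ← norm_pow, ← map_pow, ← map_pow, heq] at h2
    exact lt_irrefl _ h2
  have hco : Φ.card.Coprime (finrank ℚ K) := by rw [hfin]; exact hr
  have hdom := orbit_dom P π hπ β hβ0 hnorm (∑ j, v j • b j) ?_ M ?_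
    (fun m hm => primitive_of_coprime Φ hco (hsep m hm))
  · set I : Finset ι := Finset.univ.filter (fun i => π i ∈ Φ) with hI
    have hπI : ∀ i, π i ∈ Φ ↔ i ∈ I := by
      intro i
      rw [hI]
      simp only [Finset.mem_filter, Finset.mem_univ, true_and]
    have hcard : Φ.card = I.card := by
      have h1 : I.map π.toEmbedding = Φ := by
        ext φ
        rw [Finset.mem_map_equiv, ← hπI, Equiv.apply_symm_apply]
      rw [← h1, Finset.card_map]
    have hI0 : I.Nonempty := by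
      rw [← Finset.card_pos, ← hcard]
      rcases Nat.eq_zero_or_pos Φ.card with h | h
      · rw [h, Nat.coprime_zero_left] at hr
        omega
      · exact h
    have hI1 : I.card < Fintype.card ι := by
      refine lt_of_le_of_ne (Finset.card_le_univ I) (fun h => ?_)
      rw [hcard, h, Nat.coprime_self] at hr
      omega
    have hΦc : ∀ φ, conjugate φ ∈ Φ ↔ φ ∈ Φ := by
      intro φ
      rw [hmemΦ, hmemΦ]
      have h1 : ‖(conjugate φ) β‖ = ‖φ β‖ := by
        rw [conjugate_coe_eq]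
        exact Complex.norm_conj _
      rw [h1]
    have hN : ∀ α ∈ Lat b, α ≠ 0 → c ≤ ∏ i, ‖∑ φ, P i φ * φ α‖ := by
      intro α hα hα0
      obtain ⟨w, rfl⟩ := lat_exists b hα
      have hw : w ≠ 0 := by
        rintro rfl
        apply hα0
        simp
      refine (hmin w hw).trans (le_of_eq ?_)
      rw [Finset.abs_prod]
      refine Finset.prod_congr rfl (fun i _ => ?_)
      rw [row_int b L P hP, Complex.norm_real, Real.norm_eq_abs]
    have hR : ∀ i, ∀ α ∈ Lat b, (∑ φ, P i φ * φ α).im = 0 := by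
      intro i α hα
      obtain ⟨w, rfl⟩ := lat_exists b hα
      rw [row_int b L P hP, Complex.ofReal_im]
    have hz : ∀ i, i ∉ I → ∀ φ ∈ Φ, P i φ = 0 := by
      intro i hi φ hφ
      by_contra h
      have h1 := hdom i φ h
      rw [← hπI, hmemΦ] at hi
      rw [hmemΦ] at hφ
      exact hi (hφ.trans h1)
    obtain ⟨hreal, hP1, u, hu, huprim, hupos⟩ := core_one b P c hc hN hR π hπ I Φ hΦc hcard hI0
      hI1 hπI hz (fun x hx => primitive_of_coprime Φ hco hx)
    have hP2 : ∀ i φ, P i φ ≠ 0 → φ = π i :=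
      core_two b hn P c hc hN hR π hπ I Φ hπI hreal hP1
    obtain ⟨A, μ, hdet, hirr, hμ, hLA, hLB⟩ := finish b f hf L hL P hP hreal π hP2 u hu huprim
      hupos β
    rw [hfβ] at hLB
    have hBB : Bq.map (Rat.cast : ℚ → ℝ) = B.map (Int.cast : ℤ → ℝ) := by
      rw [hBq]
      ext i j
      simp only [Matrix.map_apply, Rat.cast_intCast]
    rw [hBB] at hLB
    exact ⟨A, μ, _, hdet, hirr, hμ, hLA, hLB⟩
  · intro h0
    apply hv
    have h1 : ∑ j, ((v j : ℤ) : ℚ) • b j = 0 := by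
      rw [← h0]
      exact Finset.sum_congr rfl (fun j _ => Int.cast_smul_eq_zsmul _ _ _)
    funext j
    have h2 := Fintype.linearIndependent_iff.mp b.linearIndependent _ h1 j
    exact_mod_cast h2
  · refine hM.mono ?_
    intro k hk
    have hk' : |∏ i, L.mulVec (fun j => (((B ^ k).mulVec v j : ℤ) : ℝ)) i| ≤ M := hk
    have h1 : ∏ i, ‖∑ φ, P i φ * φ (β ^ k * ∑ j, v j • b j)‖ =
        |∏ i, L.mulVec (fun j => (((B ^ k).mulVec v j : ℤ) : ℝ)) i| := by
      rw [Finset.abs_prod]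
      refine Finset.prod_congr rfl (fun i _ => ?_)
      rw [pow_act b f hf B β hfβ v k, row_int b L P hP, Complex.norm_real, Real.norm_eq_abs]
    rw [← h1] at hk'
    exact hk'

end Pool.Agent.H83.Sail
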