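import Mathlib
import Pool.Agent.H83.Sail.Main

namespace Pool.Agent.H83.Sail

open NumberField NumberField.InfinitePlace NumberField.ComplexEmbedding
open Module Filter Topology

variable {K : Type*} [Field K] [NumberField K] {ι : Type*} [Fintype ι]

omit [Fintype ι] in
/-- Elements whose conjugates are real and constant on the support of every row. -/
def goodField (Q : ι → (K →+* ℂ) → ℂ) : IntermediateField ℚ K where
  carrier := {x | ∀ i, ∃ r : ℝ, ∀ φ : K →+* ℂ, Q i φ ≠ 0 → φ x = r}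
  mul_mem' := by
    intro x y hx hy i
    obtain ⟨r, hr⟩ := hx i
    obtain ⟨s, hs⟩ := hy i
    exact ⟨r * s, fun φ h => by rw [map_mul, hr φ h, hs φ h, Complex.ofReal_mul]⟩
  add_mem' := by
    intro x y hx hy i
    obtain ⟨r, hr⟩ := hx i
    obtain ⟨s, hs⟩ := hy i
    exact ⟨r + s, fun φ h => by rw [map_add, hr φ h, hs φ h, Complex.ofReal_add]⟩
  algebraMap_mem' := by
    intro q i
    exact ⟨q, fun φ _ => by rw [eq_ratCast, map_ratCast, Complex.ofReal_ratCast]⟩
  inv_mem' := by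
    intro x hx i
    obtain ⟨r, hr⟩ := hx i
    exact ⟨r⁻¹, fun φ h => by rw [map_inv₀, hr φ h, Complex.ofReal_inv]⟩

/-- Two embeddings agree on the subfield. -/
def same (F : IntermediateField ℚ K) (φ ψ : K →+* ℂ) : Prop := ∀ x ∈ F, φ x = ψ x

theorem same_comp (F : IntermediateField ℚ K) (φ ψ : K →+* ℂ) :
    same F φ ψ ↔ φ.comp (algebraMap F K) = ψ.comp (algebraMap F K) := by
  constructor
  · intro h
    ext x
    exact h x x.2
  · intro h x hx
    exact RingHom.congr_fun h ⟨x, hx⟩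

open scoped Classical in
theorem same_card (F : IntermediateField ℚ K) (ψ : K →+* ℂ) :
    (Finset.univ.filter (fun φ : K →+* ℂ => same F φ ψ)).card = finrank F K := by
  rw [← fibre_card F (ψ.comp (algebraMap F K))]
  congr 1
  ext φ
  simp only [Finset.mem_filter, Finset.mem_univ, true_and, same_comp]

open scoped IntermediateField in
theorem same_adjoin (x : K) (φ ψ : K →+* ℂ) : same ℚ⟮x⟯ φ ψ ↔ φ x = ψ x := by
  constructor
  · intro h
    exact h x (IntermediateField.mem_adjoin_simple_self ℚ x)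
  · intro h y hy
    induction hy using IntermediateField.adjoin_induction with
    | mem y hy =>
      rw [Set.mem_singleton_iff] at hy
      rw [hy, h]
    | algebraMap q => rw [eq_ratCast, map_ratCast, map_ratCast]
    | add y z _ _ h1 h2 => rw [map_add, map_add, h1, h2]
    | inv y _ h1 => rw [map_inv₀, map_inv₀, h1]
    | mul y z _ _ h1 h2 => rw [map_mul, map_mul, h1, h2]

omit [NumberField K] in
/-- Along a ray two embeddings of different level take different values. -/
theorem ray_ne (d : (K →+* ℂ) → ℝ) (u : ℕ → (𝓞 K)ˣ) (T : ℕ → ℕ) (hT : Tendsto T atTop atTop)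
    (hu : ∀ φ : K →+* ℂ, Tendsto (fun k => φ (u k : K) *
      ((Real.exp (-((T k : ℝ) * d φ)) : ℝ) : ℂ)) atTop (𝓝 1)) (φ ψ : K →+* ℂ)
    (hd : d φ < d ψ) : ∀ᶠ k in atTop, φ (u k : K) ≠ ψ (u k : K) := by
  have h1 := ((hu φ).norm.eventually_lt_const
    (by rw [norm_one]; norm_num : ‖(1 : ℂ)‖ < 2))
  have h2 := ((hu ψ).norm.eventually_const_lt
    (by rw [norm_one]; norm_num : (1 / 2 : ℝ) < ‖(1 : ℂ)‖))
  have h3 : ∀ᶠ k in atTop, 3 ≤ (T k : ℝ) * (d ψ - d φ) := by
    have h4 : Tendsto (fun k => (T k : ℝ) * (d ψ - d φ)) atTop atTop :=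
      (tendsto_natCast_atTop_atTop.comp hT).atTop_mul_const (by linarith)
    exact h4.eventually_ge_atTop 3
  filter_upwards [h1, h2, h3] with k h1 h2 h3 heq
  rw [norm_mul, Complex.norm_real, Real.norm_eq_abs, abs_of_pos (Real.exp_pos _)] at h1 h2
  rw [heq] at h1
  have h4 : Real.exp (-((T k : ℝ) * d φ)) =
      Real.exp (-((T k : ℝ) * d ψ)) * Real.exp ((T k : ℝ) * (d ψ - d φ)) := by
    rw [← Real.exp_add]
    congr 1
    ring
  rw [h4, ← mul_assoc] at h1
  have h5 := Real.add_one_le_exp ((T k : ℝ) * (d ψ - d φ))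
  nlinarith

open scoped Classical in
open scoped IntermediateField in
/-- Face of dimension different from half the degree: all the forms are eigenforms of a unit whose
conjugates separate the face from its complement. -/
theorem part_main [Nonempty ι] (b : Basis ι ℚ K) (P : ι → (K →+* ℂ) → ℂ) (c : ℝ) (hc : 0 < c)
    (hN : ∀ α ∈ Lat b, α ≠ 0 → c ≤ ∏ i, ‖∑ φ, P i φ * φ α‖)
    (hR : ∀ i, ∀ α ∈ Lat b, (∑ φ, P i φ * φ α).im = 0)
    (π : ι ≃ (K →+* ℂ)) (hπ : ∀ i, P i (π i) ≠ 0)
    (I : Finset ι) (Φ : Finset (K →+* ℂ)) (hΦc : ∀ φ, conjugate φ ∈ Φ ↔ φ ∈ Φ)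
    (hcard : Φ.card = I.card) (hI0 : I.Nonempty) (hI1 : I.card < Fintype.card ι)
    (hI2 : 2 * I.card ≠ Fintype.card ι)
    (hπI : ∀ i, π i ∈ Φ ↔ i ∈ I)
    (hz : ∀ i, i ∉ I → ∀ φ ∈ Φ, P i φ = 0) :
    ∃ u ∈ Stab b, (∀ φ ∈ Φ, ∀ ψ, ψ ∉ Φ → φ (u : K) ≠ ψ (u : K)) ∧
      (∀ φ : K →+* ℂ, 0 < (φ (u : K)).re) ∧ (∀ φ : K →+* ℂ, (φ (u : K)).im = 0) ∧
      ∀ i φ, P i φ ≠ 0 → φ (u : K) = π i (u : K) := by
  have hn : Fintype.card (K →+* ℂ) = Fintype.card ι := (Fintype.card_congr π).symm
  have hΦ0 : Φ.Nonempty := by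
    rw [← Finset.card_pos, hcard]; exact Finset.card_pos.mpr hI0
  have hk1 : (1 : ℝ) ≤ (Φ.card : ℝ) := by
    have := Finset.card_pos.mpr hΦ0
    exact_mod_cast this
  have hk2 : (Φ.card : ℝ) + 1 ≤ ((Fintype.card (K →+* ℂ) : ℕ) : ℝ) := by
    rw [hn, hcard]
    exact_mod_cast hI1
  set d : (K →+* ℂ) → ℝ := fun φ => if φ ∈ Φ then
    ((Fintype.card (K →+* ℂ) : ℕ) : ℝ) - (Φ.card : ℝ) else -(Φ.card : ℝ) with hd
  have hsum : ∑ φ, d φ = 0 := two_level_sum Φ
  have hconj : ∀ φ, d (conjugate φ) = d φ := by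
    intro φ
    simp only [hd, hΦc]
  set e : ι → ℝ := fun i => d (π i) with he
  have hesum : ∑ i, e i = 0 := by
    rw [← hsum]
    exact Equiv.sum_comp π d
  have hdin : ∀ φ ∈ Φ, d φ = ((Fintype.card (K →+* ℂ) : ℕ) : ℝ) - (Φ.card : ℝ) := by
    intro φ h; rw [hd]; simp [h]
  have hdout : ∀ φ, φ ∉ Φ → d φ = -(Φ.card : ℝ) := by
    intro φ h; rw [hd]; simp [h]
  have hle : ∀ i φ, P i φ ≠ 0 → d φ ≤ e i := by
    intro i φ hP
    by_cases hi : i ∈ I
    · rw [he]
      simp only
      rw [hdin _ ((hπI i).mpr hi)]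
      by_cases hφ : φ ∈ Φ
      · rw [hdin _ hφ]
      · rw [hdout _ hφ]; linarith
    · have hφ : φ ∉ Φ := fun h => hP (hz i hi φ h)
      rw [he]
      simp only
      rw [hdout _ (fun h => hi ((hπI i).mp h)), hdout _ hφ]
  obtain ⟨hQN, hQR⟩ := limit_forms b P d hconj hsum e hesum hle c hN hR
  obtain ⟨u, T, hus, hT, hu⟩ := exists_ray b d hconj hsum
  set Q : ι → (K →+* ℂ) → ℂ := fun i φ => if d φ = e i then P i φ else 0 with hQ
  have hblock := block b d Q e hesum
    (fun i φ h => by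
      by_contra h1
      exact h (if_neg h1)) c hc hQN hQR u T hus hu
  have hsep := ray_separates Φ d
    (fun φ h => by rw [hdin φ h]; linarith) (fun φ h => by rw [hdout φ h]; linarith) u T hT hu
  have hpos : ∀ᶠ k in atTop, ∀ φ : K →+* ℂ, 0 < (φ (u k : K) *
      ((Real.exp (-((T k : ℝ) * d φ)) : ℝ) : ℂ)).re := by
    rw [eventually_all]
    intro φ
    have h1 := (Complex.continuous_re.tendsto _).comp (hu φ)
    rw [Complex.one_re] at h1
    exact h1.eventually_const_lt (by norm_num)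
  obtain ⟨k, hkF, hksep, hk3⟩ := (hblock.and (hsep.and hpos)).exists
  have hQπ : ∀ i, Q i (π i) ≠ 0 := by
    intro i
    rw [hQ]
    simp only
    rw [if_pos rfl]
    exact hπ i
  -- the field of the elements that are real and constant on the supports
  set F : IntermediateField ℚ K := goodField Q with hF
  have hukF : (u k : K) ∈ F := hkF
  have hreal : ∀ φ : K →+* ℂ, ∀ x ∈ F, ((φ x).re : ℂ) = φ x := by
    intro φ x hx
    obtain ⟨i, rfl⟩ := π.surjective φ
    obtain ⟨r, hr⟩ := hx i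
    rw [hr _ (hQπ i), Complex.ofReal_re]
  have hsupp : ∀ i φ, Q i φ ≠ 0 → same F φ (π i) := by
    intro i φ h x hx
    obtain ⟨r, hr⟩ := hx i
    rw [hr φ h, hr _ (hQπ i)]
  have hrefl : ∀ φ, same F φ φ := fun φ x _ => rfl
  have hsymm : ∀ φ ψ, same F φ ψ → same F ψ φ := fun φ ψ h x hx => (h x hx).symm
  have htrans : ∀ φ ψ χ, same F φ ψ → same F ψ χ → same F φ χ :=
    fun φ ψ χ h1 h2 x hx => (h1 x hx).trans (h2 x hx)
  have hsameΦ : ∀ φ ψ, same F φ ψ → (φ ∈ Φ ↔ ψ ∈ Φ) := by
    intro φ ψ h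
    constructor
    · intro h1
      by_contra h2
      exact hksep φ h1 ψ h2 (h _ hukF)
    · intro h1
      by_contra h2
      exact hksep ψ h1 φ h2 (h _ hukF).symm
  have hoff : ∀ i φ, P i φ ≠ 0 → ¬ same F φ (π i) → i ∈ I ∧ φ ∉ Φ := by
    intro i φ hP hφ
    have h1 : d φ ≠ e i := by
      intro h1
      refine hφ (hsupp i φ ?_)
      rw [hQ]
      simp only
      rw [if_pos h1]
      exact hP
    have hi : i ∈ I := by
      by_contra hi
      have hφ : φ ∉ Φ := fun h => hP (hz i hi φ h)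
      apply h1
      rw [he]
      simp only
      rw [hdout _ (fun h => hi ((hπI i).mp h)), hdout _ hφ]
    refine ⟨hi, fun hφ2 => h1 ?_⟩
    rw [he]
    simp only
    rw [hdin _ ((hπI i).mpr hi), hdin _ hφ2]
  -- all the supports lie in one class
  have hmain : ∀ i φ, P i φ ≠ 0 → same F φ (π i) := by
    intro i0 ψ hP
    by_contra hne
    obtain ⟨hi0, hψ⟩ := hoff i0 ψ hP hne
    set φ0 := π i0 with hφ0
    have hφ0Φ : φ0 ∈ Φ := (hπI i0).mpr hi0
    obtain ⟨θ, hθ0, hθ1⟩ : ∃ θ, ¬ same F θ φ0 ∧ ¬ same F θ ψ := by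
      by_contra hcon
      push Not at hcon
      have h1 : Φ = Finset.univ.filter (fun φ => same F φ φ0) := by
        ext φ
        rw [Finset.mem_filter]
        constructor
        · intro h
          refine ⟨Finset.mem_univ _, ?_⟩
          by_contra h2
          exact hψ ((hsameΦ _ _ (hcon φ h2)).mp h)
        · intro h
          exact (hsameΦ _ _ h.2).mpr hφ0Φ
      have h2 : Φᶜ = Finset.univ.filter (fun φ => same F φ ψ) := by
        ext φ
        rw [Finset.mem_filter, Finset.mem_compl]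
        constructor
        · intro h
          refine ⟨Finset.mem_univ _, ?_⟩
          by_cases h2 : same F φ φ0
          · exact absurd ((hsameΦ _ _ h2).mpr hφ0Φ) h
          · exact hcon φ h2
        · intro h h3
          exact hψ ((hsameΦ _ _ h.2).mp h3)
      have h3 := congrArg Finset.card h1
      have h4 := congrArg Finset.card h2
      rw [same_card] at h3 h4
      rw [Finset.card_compl, hn, hcard] at h4
      rw [hcard] at h3
      omega
    set σ : ℝ := if θ ∈ Φ then 2 else -2 with hσ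
    set lev : (K →+* ℂ) → ℝ := fun φ => if same F φ φ0 ∨ same F φ ψ then 0 else
      if same F φ θ then σ else if φ ∈ Φ then 1 else -1 with hlev
    set x : ℝ := -(∑ φ, lev φ) / ((Fintype.card (K →+* ℂ) : ℕ) : ℝ) with hx
    set d' : (K →+* ℂ) → ℝ := fun φ => x + lev φ with hd'
    have hn0 : (0 : ℝ) < ((Fintype.card (K →+* ℂ) : ℕ) : ℝ) := by linarith
    have hsum' : ∑ φ, d' φ = 0 := by
      rw [hd', Finset.sum_add_distrib, Finset.sum_const, Finset.card_univ, nsmul_eq_mul, hx]
      field_simp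
      ring
    have hcongr : ∀ φ χ, same F φ χ → lev φ = lev χ := by
      intro φ χ h
      have h1 : same F φ φ0 ↔ same F χ φ0 :=
        ⟨fun h2 => htrans _ _ _ (hsymm _ _ h) h2, fun h2 => htrans _ _ _ h h2⟩
      have h2 : same F φ ψ ↔ same F χ ψ :=
        ⟨fun h2 => htrans _ _ _ (hsymm _ _ h) h2, fun h2 => htrans _ _ _ h h2⟩
      have h3 : same F φ θ ↔ same F χ θ :=
        ⟨fun h2 => htrans _ _ _ (hsymm _ _ h) h2, fun h2 => htrans _ _ _ h h2⟩
      have h4 := hsameΦ φ χ h
      rw [hlev]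
      simp only [h1, h2, h3, h4]
    have hlevin : ∀ φ ∈ Φ, 0 ≤ lev φ := by
      intro φ hφ
      rw [hlev]
      simp only
      split_ifs with h1 h2
      · exact le_rfl
      · have h3 : θ ∈ Φ := (hsameΦ _ _ h2).mp hφ
        rw [hσ, if_pos h3]
        norm_num
      · exact zero_le_one
    have hlevout : ∀ φ, φ ∉ Φ → lev φ ≤ 0 := by
      intro φ hφ
      rw [hlev]
      simp only
      split_ifs with h1 h2
      · exact le_rfl
      · have h3 : θ ∉ Φ := fun h => hφ ((hsameΦ _ _ h2).mpr h)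
        rw [hσ, if_neg h3]
        norm_num
      · norm_num
    have hlev0 : lev φ0 = 0 := by
      rw [hlev]
      simp only
      rw [if_pos (Or.inl (hrefl φ0))]
    have hlevψ : lev ψ = 0 := by
      rw [hlev]
      simp only
      rw [if_pos (Or.inr (hrefl ψ))]
    have hlevθ : lev θ = σ := by
      rw [hlev]
      simp only
      rw [if_neg (not_or.mpr ⟨hθ0, hθ1⟩), if_pos (hrefl θ)]
    have huniq : ∀ φ, ¬ same F φ θ → d' φ ≠ d' θ := by
      intro φ hφ heq
      have h1 : lev φ = lev θ := by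
        rw [hd'] at heq
        simp only at heq
        linarith
      have h2 : σ = 2 ∨ σ = -2 := by
        rw [hσ]
        split_ifs
        · exact Or.inl rfl
        · exact Or.inr rfl
      rw [hlevθ] at h1
      have h3 : lev φ = 0 ∨ lev φ = 1 ∨ lev φ = -1 := by
        rw [hlev]
        simp only
        split_ifs
        · exact Or.inl rfl
        · exact Or.inr (Or.inl rfl)
        · exact Or.inr (Or.inr rfl)
      rcases h2 with h2 | h2 <;> rcases h3 with h3 | h3 | h3 <;> rw [h2, h3] at h1 <;> norm_num at h1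
    have hconj' : ∀ φ, d' (conjugate φ) = d' φ := by
      intro φ
      rw [hd']
      simp only
      rw [hcongr (conjugate φ) φ]
      intro y hy
      rw [conjugate_coe_eq, ← hreal φ y hy, Complex.conj_ofReal]
    set e' : ι → ℝ := fun i => d' (π i) with he'
    have hesum' : ∑ i, e' i = 0 := by
      rw [← hsum']
      exact Equiv.sum_comp π d'
    have hle' : ∀ i φ, P i φ ≠ 0 → d' φ ≤ e' i := by
      intro i φ hPi
      by_cases h : same F φ (π i)
      · rw [he', hd']
        simp only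
        rw [hcongr _ _ h]
      · obtain ⟨hi, hφ⟩ := hoff i φ hPi h
        have h1 := hlevout φ hφ
        have h2 := hlevin (π i) ((hπI i).mpr hi)
        rw [he', hd']
        simp only
        linarith
    obtain ⟨hQN', hQR'⟩ := limit_forms b P d' hconj' hsum' e' hesum' hle' c hN hR
    obtain ⟨v, T', hvs, hT', hv⟩ := exists_ray b d' hconj' hsum'
    have hblock' := block b d' (fun i φ => if d' φ = e' i then P i φ else 0) e' hesum'
      (fun i φ h => by
        by_contra h1
        exact h (if_neg h1)) c hc hQN' hQR' v T' hvs hv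
    have hsep' : ∀ᶠ m in atTop, ∀ φ, ¬ same F φ θ → φ (v m : K) ≠ θ (v m : K) := by
      rw [eventually_all]
      intro φ
      by_cases h : same F φ θ
      · exact Eventually.of_forall (fun m h' => absurd h h')
      · rcases lt_or_gt_of_ne (huniq φ h) with h1 | h1
        · filter_upwards [ray_ne d' v T' hT' hv φ θ h1] with m hm _ using hm
        · filter_upwards [ray_ne d' v T' hT' hv θ φ h1] with m hm _ using hm.symm
    obtain ⟨m, hm1, hm2⟩ := (hblock'.and hsep').exists
    have hvF : (v m : K) ∈ F := by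
      intro i
      obtain ⟨r, hr⟩ := hm1 i
      refine ⟨r, fun φ hφ => hr φ ?_⟩
      have h1 : d' φ = e' i := by
        rw [he', hd']
        simp only
        rw [hcongr _ _ (hsupp i φ hφ)]
      rw [if_pos h1]
      rw [hQ] at hφ
      simp only at hφ
      intro h2
      rw [h2] at hφ
      simp at hφ
    have hval : ψ (v m : K) = φ0 (v m : K) := by
      obtain ⟨r, hr⟩ := hm1 i0
      rw [hr ψ, hr φ0]
      · rw [if_pos rfl]
        exact hπ i0
      · have h1 : d' ψ = e' i0 := by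
          rw [he', hd']
          simp only
          rw [hlevψ, ← hφ0, hlev0]
        rw [if_pos h1]
        exact hP
    -- counting
    have h1 : Finset.univ.filter (fun φ : K →+* ℂ => same ℚ⟮(v m : K)⟯ φ θ) ⊆
        Finset.univ.filter (fun φ : K →+* ℂ => same F φ θ) := by
      intro φ hφ
      rw [Finset.mem_filter] at hφ ⊢
      refine ⟨Finset.mem_univ _, ?_⟩
      by_contra h2
      exact hm2 φ h2 ((same_adjoin _ _ _).mp hφ.2)
    have h2 := Finset.card_le_card h1
    rw [same_card, same_card] at h2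
    have h3 : Finset.univ.filter (fun φ : K →+* ℂ => same F φ φ0) ⊆
        Finset.univ.filter (fun φ : K →+* ℂ => same ℚ⟮(v m : K)⟯ φ φ0) := by
      intro φ hφ
      rw [Finset.mem_filter] at hφ ⊢
      exact ⟨Finset.mem_univ _, (same_adjoin _ _ _).mpr (hφ.2 _ hvF)⟩
    have h4 := Finset.eq_of_subset_of_card_le h3 (by rw [same_card, same_card]; exact h2)
    have h5 : ψ ∈ Finset.univ.filter (fun φ : K →+* ℂ => same ℚ⟮(v m : K)⟯ φ φ0) := by
      rw [Finset.mem_filter]
      exact ⟨Finset.mem_univ _, (same_adjoin _ _ _).mpr hval⟩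
    rw [← h4, Finset.mem_filter] at h5
    exact hne h5.2
  refine ⟨u k, hus k, hksep, ?_, ?_, fun i φ hP => hmain i φ hP _ hukF⟩
  · intro φ
    have h1 := hk3 φ
    rw [mul_comm, Complex.re_ofReal_mul] at h1
    exact (mul_pos_iff_of_pos_left (Real.exp_pos _)).mp h1
  · intro φ
    rw [← hreal φ _ hukF, Complex.ofReal_im]

open scoped Classical in
open scoped IntermediateField in
/-- The degree over the subfield divides the number of elements of a separated set. -/
theorem fibre_dvd (Φ : Finset (K →+* ℂ)) {x : K}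
    (hx : ∀ φ ∈ Φ, ∀ ψ, ψ ∉ Φ → φ x ≠ ψ x) : finrank ℚ⟮x⟯ K ∣ Φ.card := by
  set F := ℚ⟮x⟯ with hF
  have h3 : Φ.card = ∑ ψ : F →+* ℂ, (Φ.filter (fun φ => φ.comp (algebraMap F K) = ψ)).card :=
    Finset.card_eq_sum_card_fiberwise (fun _ _ => Finset.mem_univ _)
  rw [h3]
  refine Finset.dvd_sum (fun ψ _ => ?_)
  by_cases h4 : ∃ φ0 ∈ Φ, φ0.comp (algebraMap F K) = ψ
  · obtain ⟨φ0, hφ0, hψ⟩ := h4
    have h5 : Φ.filter (fun φ => φ.comp (algebraMap F K) = ψ) =
        Finset.univ.filter (fun φ : K →+* ℂ => φ.comp (algebraMap F K) = ψ) := by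
      ext φ
      simp only [Finset.mem_filter, Finset.mem_univ, true_and, and_iff_right_iff_imp]
      intro h6
      by_contra h7
      refine hx φ0 hφ0 φ h7 ?_
      have h8 : φ0.comp (algebraMap F K) = φ.comp (algebraMap F K) := by rw [hψ, h6]
      have h9 := RingHom.congr_fun h8 (IntermediateField.AdjoinSimple.gen ℚ x)
      simpa using h9
    rw [h5, fibre_card]
  · have h5 : Φ.filter (fun φ => φ.comp (algebraMap F K) = ψ) = ∅ := by
      rw [Finset.filter_eq_empty_iff]
      intro φ hφ h6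
      exact h4 ⟨φ, hφ, h6⟩
    rw [h5]
    simp

open Polynomial in
open scoped IntermediateField in
/-- The theorem on faces of any dimension other than half the degree, in matrix form. -/
theorem part_gen {ι : Type*} [Fintype ι] [DecidableEq ι]
    (L : Matrix ι ι ℝ) (hL : L.det ≠ 0) (c : ℝ) (hc : 0 < c)
    (hmin : ∀ z : ι → ℤ, z ≠ 0 → c ≤ |∏ i, L.mulVec (fun j => (z j : ℝ)) i|)
    (B : Matrix ι ι ℚ) (hB : Irreducible B.charpoly) (I : Finset ι) (hI0 : I.Nonempty)
    (hI1 : I ≠ Finset.univ) (hI2 : 2 * I.card ≠ Fintype.card ι) (hE : B ∈ pres L I) :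
    ∃ (A : Matrix ι ι ℤ) (μ : ι → ℝ) (k : ℕ), A.det = 1 ∧ (∀ i, 0 < μ i) ∧
      L * A.map (Int.cast : ℤ → ℝ) = Matrix.diagonal μ * L ∧
      A.map (Int.cast : ℤ → ℚ) * B = B * A.map (Int.cast : ℤ → ℚ) ∧
      Irreducible (minpoly ℚ (A.map (Int.cast : ℤ → ℚ))) ∧
      (minpoly ℚ (A.map (Int.cast : ℤ → ℚ))).natDegree * k = Fintype.card ι ∧
      k ∣ I.card := by
  classical
  have hne : Nonempty ι := ⟨hI0.choose⟩
  obtain ⟨K, _, _, f, b, β, hfβ, hβ, hf⟩ := exists_field B hB
  have hPex := fun i => emb_exists b (fun j => (L i j : ℂ))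
  choose P hP using hPex
  obtain ⟨π, hπ⟩ := coeff_match b L hL P hP
  have hcardK : Fintype.card (K →+* ℂ) = Fintype.card ι := (Fintype.card_congr π).symm
  have hI1 : I.card < Fintype.card ι :=
    lt_of_le_of_ne (Finset.card_le_univ I) (fun h => hI1 (Finset.card_eq_iff_eq_univ I |>.mp h))
  -- the embeddings on which the face forms vanish
  set Φ : Finset (K →+* ℂ) := Finset.univ.filter (fun φ => ∀ i, i ∉ I → P i φ = 0) with hΦ
  have hmemΦ : ∀ φ, φ ∈ Φ ↔ ∀ i, i ∉ I → P i φ = 0 := fun φ => by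
    rw [hΦ, Finset.mem_filter]
    exact ⟨fun h => h.2, fun h => ⟨Finset.mem_univ _, h⟩⟩
  have hspan : ∀ φ, φ ∉ Φ → (Pi.single φ 1 : (K →+* ℂ) → ℂ) ∈
      Submodule.span ℂ (Set.range (fun k : {k // k ∈ Iᶜ} => P k.1)) := by
    intro φ hφ
    rw [hmemΦ] at hφ
    push Not at hφ
    refine face_span b f hf L hL P hP β (fun φ ψ h => inj_of_primitive hβ φ ψ h) I ?_ φ hφ
    rw [hfβ]
    exact hE
  have hΦcard : Φᶜ.card ≤ Iᶜ.card := by
    have h1 := coord_count (fun k : {k // k ∈ Iᶜ} => P k.1) Φᶜ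
      (fun φ hφ => hspan φ (Finset.mem_compl.mp hφ))
    rwa [Fintype.card_coe] at h1
  have hsub : Iᶜ.map π.toEmbedding ⊆ Φᶜ := by
    intro φ hφ
    obtain ⟨i, hi, rfl⟩ := Finset.mem_map.mp hφ
    rw [Finset.mem_compl] at hi ⊢
    intro h
    exact hπ i ((hmemΦ _).mp h i hi)
  have heq : Iᶜ.map π.toEmbedding = Φᶜ :=
    Finset.eq_of_subset_of_card_le hsub (by rw [Finset.card_map]; exact hΦcard)
  have hπI : ∀ i, π i ∈ Φ ↔ i ∈ I := by
    intro i
    have h1 : π i ∈ Φᶜ ↔ i ∈ Iᶜ := by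
      rw [← heq]
      exact Finset.mem_map' π.toEmbedding
    rw [Finset.mem_compl, Finset.mem_compl] at h1
    exact not_iff_not.mp h1
  have hcard : Φ.card = I.card := by
    have h1 := congrArg Finset.card heq
    rw [Finset.card_map, Finset.card_compl, Finset.card_compl, hcardK] at h1
    have h2 := Finset.card_le_univ Φ
    rw [hcardK] at h2
    omega
  have hΦc : ∀ φ, conjugate φ ∈ Φ ↔ φ ∈ Φ := by
    intro φ
    rw [hmemΦ, hmemΦ]
    refine forall_congr' (fun i => forall_congr' (fun _ => ?_))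
    rw [conj_coeff b (P i) (L i) (hP i) φ, map_eq_zero]
  have hN : ∀ α ∈ Lat b, α ≠ 0 → c ≤ ∏ i, ‖∑ φ, P i φ * φ α‖ := by
    intro α hα hα0
    obtain ⟨v, rfl⟩ := lat_exists b hα
    have hv : v ≠ 0 := by
      rintro rfl
      apply hα0
      simp
    refine (hmin v hv).trans (le_of_eq ?_)
    rw [Finset.abs_prod]
    refine Finset.prod_congr rfl (fun i _ => ?_)
    rw [row_int b L P hP, Complex.norm_real, Real.norm_eq_abs]
  have hR : ∀ i, ∀ α ∈ Lat b, (∑ φ, P i φ * φ α).im = 0 := by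
    intro i α hα
    obtain ⟨v, rfl⟩ := lat_exists b hα
    rw [row_int b L P hP, Complex.ofReal_im]
  obtain ⟨u, hu, hsep, hupos, huim, huP⟩ := part_main b P c hc hN hR π hπ I Φ hΦc hcard hI0
    hI1 hI2 hπI (fun i hi φ hφ => (hmemΦ φ).mp hφ i hi)
  obtain ⟨A, hA⟩ := unit_integral b f hf u hu
  have hAR : (f (u : K)).map (Rat.cast : ℚ → ℝ) = A.map (Int.cast : ℤ → ℝ) := by
    rw [hA]
    ext i j
    simp only [Matrix.map_apply, Rat.cast_intCast]
  set μ : ι → ℝ := fun i => ((π i) (u : K)).re with hμ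
  have hval : ∀ φ : K →+* ℂ, (((φ (u : K)).re : ℝ) : ℂ) = φ (u : K) := by
    intro φ
    refine Complex.ext ?_ ?_
    · rw [Complex.ofReal_re]
    · rw [Complex.ofReal_im, huim]
  have hLA : L * A.map (Int.cast : ℤ → ℝ) = Matrix.diagonal μ * L := by
    rw [← hAR]
    ext i k
    have h1 := row_mul b f hf L P hP (u : K) i k
    rw [Matrix.diagonal_mul]
    apply Complex.ofReal_injective
    rw [h1, Complex.ofReal_mul, ← hP, Finset.mul_sum]
    refine Finset.sum_congr rfl (fun φ _ => ?_)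
    by_cases h : P i φ = 0
    · rw [h]; ring
    · rw [huP i φ h, hμ]
      simp only
      rw [hval]
      ring
  have hprod : ∏ i, μ i = 1 := by
    have h1 := prod_emb_unit u
    rw [← Equiv.prod_comp π] at h1
    rw [← h1]
    refine Finset.prod_congr rfl (fun i _ => ?_)
    rw [← hval (π i), Complex.norm_real, Real.norm_eq_abs, abs_of_pos (hupos _)]
  have hdetR : (A.map (Int.cast : ℤ → ℝ)).det = ∏ i, μ i := by
    have h1 := congrArg Matrix.det hLA
    rw [Matrix.det_mul, Matrix.det_mul, Matrix.det_diagonal, mul_comm] at h1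
    exact mul_right_cancel₀ hL h1
  have hinj : Function.Injective f := f.toRingHom.injective
  have hmp : minpoly ℚ (A.map (Int.cast : ℤ → ℚ)) = minpoly ℚ (u : K) := by
    rw [← hA]
    exact minpoly.algHom_eq f hinj (u : K)
  have hint : IsIntegral ℚ (u : K) := Algebra.IsIntegral.isIntegral _
  refine ⟨A, μ, finrank ℚ⟮(u : K)⟯ K, ?_, fun i => hupos _, hLA, ?_, ?_, ?_, ?_⟩
  · have h1 : ((A.det : ℤ) : ℝ) = 1 := by
      rw [← hprod, ← hdetR]
      exact (Int.castRingHom ℝ).map_det A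
    exact_mod_cast h1
  · rw [← hA, ← hfβ, ← map_mul, ← map_mul, mul_comm]
  · rw [hmp]
    exact minpoly.irreducible hint
  · rw [hmp, ← IntermediateField.adjoin.finrank hint, Module.finrank_mul_finrank,
      Module.finrank_eq_card_basis b]
  · rw [← hcard]
    exact fibre_dvd Φ hsep

end Pool.Agent.H83.Sail
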