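import Mathlib
import Pool.Agent.H83.Sail.Grid
import Pool.Agent.H83.Sail.Win

/-!
# Polynomially many classes of patches
-/

namespace Pool.Agent.H83.Sail

variable {ι : Type*} [Fintype ι] [DecidableEq ι]

/-- Sails with few classes of patches of one radius are algebraically periodic. -/
theorem poly_main (hn3 : 3 ≤ Fintype.card ι) (c d : ℝ) (hc : 0 < c) :
    ∃ ε : ℝ, 0 < ε ∧ ∀ R m : ℕ,
      (m : ℝ) ≤ (ε * R) ^ (Fintype.card ι - Fintype.card ι / (Fintype.card ι).minFac) →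
      ∀ L : Matrix ι ι ℝ, L ∈ Good c d →
      Finite (Local.Q (Matrix ι ι ℤ)ˣ (AdjW L) R) →
      Nat.card (Local.Q (Matrix ι ι ℤ)ˣ (AdjW L) R) ≤ m → Alg L := by
  have hne : Nonempty ι := Fintype.card_pos_iff.mp (by omega)
  obtain ⟨ε₀, B₀, R₀, hε₀, hB₀, hcore⟩ := poly_core (ι := ι) hn3 c d hc
  obtain ⟨κ, hκ, hgrid⟩ := exists_grid (ι := ι) (by omega) B₀ hB₀
  obtain ⟨κ', T', K', hU⟩ := exists_unif (ι := ι) (by omega) c d hc
  obtain ⟨n, hn⟩ : ∃ n, n = Fintype.card ι := ⟨_, rfl⟩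
  rw [← hn] at hn3 hcore hgrid ⊢
  obtain ⟨e, he⟩ : ∃ e, e = n - n / n.minFac := ⟨_, rfl⟩
  rw [← he] at hgrid ⊢
  have he1 : 1 ≤ e := by
    have h1 : 2 ≤ n.minFac := (Nat.minFac_prime (by omega)).two_le
    have h2 : n / n.minFac ≤ n / 2 := Nat.div_le_div_left h1 (by norm_num)
    omega
  set N : ℝ := (n : ℝ) ^ n with hN
  have hn1 : (1 : ℝ) ≤ n := by exact_mod_cast (by omega : 1 ≤ n)
  have hN1 : 1 ≤ N := one_le_pow₀ hn1
  set ε : ℝ := min (κ * ε₀ / (2 * N)) (1 / ((R₀ : ℝ) + 1)) with hε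
  have hε0 : 0 < ε := lt_min (by positivity) (by positivity)
  refine ⟨ε, hε0, fun R m hm L hL hfin hcard => ?_⟩
  rcases Nat.eq_zero_or_pos m with hm0 | hm0
  · exfalso
    rw [hm0] at hcard
    have hempty : IsEmpty (Local.Q (Matrix ι ι ℤ)ˣ (AdjW L) R) :=
      Finite.card_eq_zero_iff.mp (Nat.le_zero.mp hcard)
    obtain ⟨x, hx, -⟩ := hU.near L hL 0 (by simp)
    exact hempty.false (Local.cls (Matrix ι ι ℤ)ˣ (AdjW L) R ⟨x, hx⟩)
  · have hm1 : (1 : ℝ) ≤ m := by exact_mod_cast hm0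
    have hεR0 : 0 ≤ ε * R := by positivity
    have hεR : 1 ≤ ε * R := by
      have h1 : 1 ≤ (ε * R) ^ e := hm1.trans hm
      exact (one_le_pow_iff_of_nonneg hεR0 (by omega)).mp h1
    have hR0 : (R₀ : ℝ) + 1 ≤ R := by
      have h1 : ε * R ≤ 1 / ((R₀ : ℝ) + 1) * R :=
        mul_le_mul_of_nonneg_right (min_le_right _ _) (Nat.cast_nonneg R)
      have h2 := hεR.trans h1
      rw [one_div_mul_eq_div, one_le_div (by positivity)] at h2
      exact h2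
    have hRR : R₀ ≤ R := by exact_mod_cast (by linarith : (R₀ : ℝ) ≤ R)
    have hRpos : (0 : ℝ) < R := by
      have : (0 : ℝ) ≤ R₀ := Nat.cast_nonneg _
      linarith
    obtain ⟨𝒱, h𝒱, h𝒱s, -, h𝒱c⟩ := hgrid (ε₀ * R) (by positivity)
    refine hcore R hRR m 𝒱 h𝒱 h𝒱s ?_ L hL hfin hcard
    have h1 : ε * R ≤ κ * (ε₀ * R) / (2 * N) := by
      have h2 : ε * R ≤ κ * ε₀ / (2 * N) * R :=
        mul_le_mul_of_nonneg_right (min_le_left _ _) (Nat.cast_nonneg R)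
      refine h2.trans (le_of_eq ?_)
      ring
    have h3 : (ε * R) ^ e ≤ (κ * (ε₀ * R)) ^ e / (2 * N) := by
      refine (pow_le_pow_left₀ hεR0 h1 e).trans ?_
      rw [div_pow]
      refine div_le_div_of_nonneg_left (by positivity) (by positivity) ?_
      exact le_self_pow₀ (by linarith) (by omega)
    have h4 : (m : ℝ) * N < 𝒱.card := by
      have h5 : (m : ℝ) * N ≤ (κ * (ε₀ * R)) ^ e / (2 * N) * N :=
        mul_le_mul_of_nonneg_right (hm.trans h3) (by linarith)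
      have h6 : (κ * (ε₀ * R)) ^ e / (2 * N) * N = (κ * (ε₀ * R)) ^ e / 2 := by
        field_simp
      have h7 : 0 < (κ * (ε₀ * R)) ^ e := by positivity
      linarith
    have h5 : ((m * n ^ n : ℕ) : ℝ) < (𝒱.card : ℝ) := by
      push_cast
      exact h4
    exact_mod_cast h5

/-- The window version. -/
theorem poly_window (hn3 : 3 ≤ Fintype.card ι) (c d : ℝ) (hc : 0 < c) :
    ∃ ε : ℝ, 0 < ε ∧ ∀ R m : ℕ,
      (m : ℝ) ≤ (ε * R) ^ (Fintype.card ι - Fintype.card ι / (Fintype.card ι).minFac) →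
      ∃ T : ℕ, ∀ L : Matrix ι ι ℝ, L ∈ Good c d → ∀ s : ι → ℝ, (∀ i, 0 < s i) →
        ∏ i, s i = 1 → Few L R m T s → Alg L := by
  obtain ⟨ε, hε, h⟩ := poly_main (ι := ι) hn3 c d hc
  exact ⟨ε, hε, fun R m hm => window_gen hn3 c d hc R m (h R m hm)⟩

end Pool.Agent.H83.Sail
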