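import Mathlib
import Pool.Agent.H83.Sail.Main

namespace Pool.Agent.H83.Sail

open NumberField NumberField.InfinitePlace NumberField.ComplexEmbedding
open Module Filter Topology

variable {K : Type*} [Field K] [NumberField K] {ι : Type*} [Fintype ι]

/-- The field norm as a product over the embeddings. -/
theorem norm_emb (x : K) : ∏ φ : K →+* ℂ, ‖φ x‖ = |((Algebra.norm ℚ x : ℚ) : ℝ)| := by
  have h1 := Algebra.norm_eq_prod_embeddings ℚ ℂ x
  have h2 : ∏ σ : K →ₐ[ℚ] ℂ, σ x = ∏ φ : K →+* ℂ, φ x := by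
    rw [← Equiv.prod_comp (RingHom.equivRatAlgHom (R := K) (S := ℂ))]
    exact Finset.prod_congr rfl (fun φ _ => rfl)
  rw [← norm_prod, ← h2, ← h1, eq_ratCast, ← Complex.ofReal_ratCast, Complex.norm_real,
    Real.norm_eq_abs]

/-- The norms of the nonzero lattice points are bounded away from zero. -/
theorem lat_norm (b : Basis ι ℚ K) : ∃ c' : ℝ, 0 < c' ∧
    ∀ x ∈ Lat b, x ≠ 0 → c' ≤ ∏ φ : K →+* ℂ, ‖φ x‖ := by
  classical
  obtain ⟨y, hy0, hy⟩ := exists_integral_multiples ℤ ℚ (L := K) (Finset.univ.image b)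
  have hyR : (0 : ℝ) < |(y : ℝ)| := abs_pos.mpr (Int.cast_ne_zero.mpr hy0)
  set n : ℕ := finrank ℚ K with hn
  refine ⟨(|(y : ℝ)| ^ n)⁻¹, by positivity, fun x hx hx0 => ?_⟩
  obtain ⟨v, rfl⟩ := lat_exists b hx
  set x : K := ∑ j, v j • b j with hxdef
  have hint : IsIntegral ℤ (y • x) := by
    rw [hxdef, Finset.smul_sum]
    refine IsIntegral.sum _ (fun j _ => ?_)
    rw [smul_comm]
    exact (hy (b j) (Finset.mem_image.mpr ⟨j, Finset.mem_univ _, rfl⟩)).smul (v j)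
  have h1 : IsIntegral ℤ (Algebra.norm ℚ (y • x)) := Algebra.isIntegral_norm ℚ hint
  obtain ⟨k, hk⟩ := IsIntegrallyClosed.isIntegral_iff.mp h1
  have h2 : (y • x) = algebraMap ℚ K (y : ℚ) * x := by
    rw [zsmul_eq_mul]
    simp
  have h3 : Algebra.norm ℚ (y • x) = (y : ℚ) ^ n * Algebra.norm ℚ x := by
    rw [h2, map_mul, Algebra.norm_algebraMap]
  have hx1 : Algebra.norm ℚ x ≠ 0 := Algebra.norm_ne_zero_iff.mpr hx0
  have hk0 : k ≠ 0 := by
    rintro rfl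
    rw [map_zero, h3] at hk
    rcases mul_eq_zero.mp hk.symm with h | h
    · have h' : (y : ℚ) = 0 := eq_zero_of_pow_eq_zero h
      exact hy0 (by exact_mod_cast h')
    · exact hx1 h
  rw [norm_emb]
  have h4 : (1 : ℝ) ≤ |(k : ℝ)| := by
    have h5 : (1 : ℤ) ≤ |k| := Int.one_le_abs hk0
    exact_mod_cast h5
  have h5 : (k : ℝ) = (y : ℝ) ^ n * ((Algebra.norm ℚ x : ℚ) : ℝ) := by
    have h6 : ((k : ℤ) : ℚ) = (y : ℚ) ^ n * Algebra.norm ℚ x := by
      rw [← h3, ← hk]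
      simp
    exact_mod_cast congrArg (fun q : ℚ => (q : ℝ)) h6
  rw [h5, abs_mul, abs_pow] at h4
  rw [inv_le_iff_one_le_mul₀ (by positivity)]
  linarith

/-- Lattice points with bounded norms and separated conjugates: the coefficient matrix has a
column with a single nonzero entry. -/
theorem sep_dom [Nonempty ι] (b : Basis ι ℚ K) (P : ι → (K →+* ℂ) → ℂ) (π : ι ≃ (K →+* ℂ))
    (hπ : ∀ i, P i (π i) ≠ 0) (M : ℝ)
    (hsep : ∀ R : ℝ, ∃ x ∈ Lat b, x ≠ 0 ∧ ∏ i, ‖∑ φ, P i φ * φ x‖ ≤ M ∧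
      ∀ φ ψ : K →+* ℂ, φ ≠ ψ → R * ‖φ x‖ < ‖ψ x‖ ∨ R * ‖ψ x‖ < ‖φ x‖) :
    ∃ θ : K →+* ℂ, conjugate θ = θ ∧ ∀ i, π i ≠ θ → P i θ = 0 := by
  classical
  obtain ⟨c', hc', hlat⟩ := lat_norm b
  choose x hxL hx0 hxM hxs using fun m : ℕ => hsep (m : ℝ)
  have hpos : ∀ (φ : K →+* ℂ) (m : ℕ), 0 < ‖φ (x m)‖ :=
    fun φ m => norm_pos_iff.mpr (fun h => hx0 m ((map_eq_zero φ).mp h))
  set U : Ultrafilter ℕ := hyperfilter ℕ with hU
  have hUle : (U : Filter ℕ) ≤ atTop := by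
    rw [hU, ← Nat.cofinite_eq_atTop]
    exact hyperfilter_le_cofinite
  have hge1 : ∀ᶠ m : ℕ in (U : Filter ℕ), 1 ≤ m := hUle (eventually_ge_atTop 1)
  have hsel : ∀ T : Finset (K →+* ℂ), T.Nonempty → ∃ χ ∈ T, ∀ᶠ m in (U : Filter ℕ),
      ∀ φ ∈ T, ‖φ (x m)‖ ≤ ‖χ (x m)‖ := by
    intro T hT
    have h0 : (⋃ χ ∈ (T : Set (K →+* ℂ)), {m : ℕ | ∀ φ ∈ T, ‖φ (x m)‖ ≤ ‖χ (x m)‖}) =
        Set.univ := by
      rw [Set.eq_univ_iff_forall]
      intro m
      obtain ⟨χ, hχ, h⟩ := Finset.exists_max_image T (fun φ => ‖φ (x m)‖) hT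
      exact Set.mem_biUnion hχ h
    have h1 : (⋃ χ ∈ (T : Set (K →+* ℂ)), {m : ℕ | ∀ φ ∈ T, ‖φ (x m)‖ ≤ ‖χ (x m)‖}) ∈ U := by
      rw [h0]
      exact Filter.univ_mem
    rw [Ultrafilter.finite_biUnion_mem_iff T.finite_toSet] at h1
    obtain ⟨χ, hχ, h⟩ := h1
    exact ⟨χ, hχ, h⟩
  have hratio : ∀ φ χ : K →+* ℂ, φ ≠ χ → (∀ᶠ m in (U : Filter ℕ), ‖φ (x m)‖ ≤ ‖χ (x m)‖) →
      ∀ᶠ m : ℕ in (U : Filter ℕ), (m : ℝ) * ‖φ (x m)‖ < ‖χ (x m)‖ := by
    intro φ χ hne h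
    filter_upwards [h, hge1] with m hm hm1
    rcases hxs m φ χ hne with h1 | h1
    · exact h1
    · exfalso
      have h2 : (1 : ℝ) ≤ m := by exact_mod_cast hm1
      nlinarith [hpos χ m]
  obtain ⟨θ, -, hθ⟩ := hsel Finset.univ Finset.univ_nonempty
  have hT : ∀ i, (Finset.univ.filter (fun φ => P i φ ≠ 0)).Nonempty := fun i =>
    ⟨π i, Finset.mem_filter.mpr ⟨Finset.mem_univ _, hπ i⟩⟩
  choose χ hχT hχ using fun i => hsel _ (hT i)
  have hχ0 : ∀ i, P i (χ i) ≠ 0 := fun i => (Finset.mem_filter.mp (hχT i)).2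
  have hχm : ∀ i φ, P i φ ≠ 0 → ∀ᶠ m in (U : Filter ℕ), ‖φ (x m)‖ ≤ ‖χ i (x m)‖ := by
    intro i φ hφ
    filter_upwards [hχ i] with m hm
    exact hm φ (Finset.mem_filter.mpr ⟨Finset.mem_univ _, hφ⟩)
  have hinv : Tendsto (fun m : ℕ => ((m : ℝ))⁻¹) (U : Filter ℕ) (𝓝 0) :=
    (tendsto_inv_atTop_nhds_zero_nat (𝕜 := ℝ)).mono_left hUle
  -- the rows are asymptotically their largest terms
  have hrow : ∀ i, Tendsto (fun m => ‖∑ φ, P i φ * φ (x m)‖ / ‖χ i (x m)‖) (U : Filter ℕ)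
      (𝓝 ‖P i (χ i)‖) := by
    intro i
    have h1 : Tendsto (fun m => ∑ φ, P i φ * (φ (x m) / χ i (x m))) (U : Filter ℕ)
        (𝓝 (∑ φ, if φ = χ i then P i (χ i) else 0)) := by
      refine tendsto_finsetSum _ (fun φ _ => ?_)
      by_cases hφ : φ = χ i
      · rw [if_pos hφ, hφ]
        refine tendsto_const_nhds.congr (fun m => ?_)
        rw [div_self (norm_pos_iff.mp (hpos (χ i) m)), mul_one]
      · rw [if_neg hφ]
        by_cases hp : P i φ = 0
        · rw [hp]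
          simp
        · have h2 := hratio φ (χ i) hφ (hχm i φ hp)
          have h3 : Tendsto (fun m => φ (x m) / χ i (x m)) (U : Filter ℕ) (𝓝 0) := by
            refine squeeze_zero_norm' ?_ hinv
            filter_upwards [h2, hge1] with m hm hm1
            have h4 : (0 : ℝ) < m := by exact_mod_cast hm1
            rw [norm_div, div_le_iff₀ (hpos _ _), inv_mul_eq_div, le_div_iff₀ h4, mul_comm]
            exact hm.le
          simpa using h3.const_mul (P i φ)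
    rw [Finset.sum_ite_eq' Finset.univ, if_pos (Finset.mem_univ _)] at h1
    refine h1.norm.congr (fun m => ?_)
    rw [← norm_div, Finset.sum_div]
    congr 1
    exact Finset.sum_congr rfl (fun φ _ => (mul_div_assoc _ _ _).symm)
  have hprod : Tendsto (fun m => (∏ i, ‖∑ φ, P i φ * φ (x m)‖) / ∏ i, ‖χ i (x m)‖)
      (U : Filter ℕ) (𝓝 (∏ i, ‖P i (χ i)‖)) := by
    refine (tendsto_finsetProd _ (fun i _ => hrow i)).congr (fun m => ?_)
    rw [Finset.prod_div_distrib]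
  have hδ : 0 < ∏ i, ‖P i (χ i)‖ := Finset.prod_pos (fun i _ => norm_pos_iff.mpr (hχ0 i))
  set δ : ℝ := ∏ i, ‖P i (χ i)‖ with hδdef
  have hub : ∀ᶠ m in (U : Filter ℕ), δ / 2 * ∏ i, ‖χ i (x m)‖ ≤ M := by
    filter_upwards [hprod.eventually (lt_mem_nhds (half_lt_self hδ))] with m hm
    rw [lt_div_iff₀ (Finset.prod_pos (fun i _ => hpos _ _))] at hm
    exact hm.le.trans (hxM m)
  have hχπ : ∀ i, χ i = π i := by
    intro i0
    by_contra hne
    have hle : ∀ᶠ m in (U : Filter ℕ), ∀ i, ‖π i (x m)‖ ≤ ‖χ i (x m)‖ :=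
      eventually_all.mpr (fun i => hχm i (π i) (hπ i))
    have hr := hratio (π i0) (χ i0) (fun h => hne h.symm) (hχm i0 (π i0) (hπ i0))
    have hfin : ∀ᶠ m : ℕ in (U : Filter ℕ), (m : ℝ) * (δ / 2 * c') ≤ M := by
      filter_upwards [hle, hr, hub] with m h1 h2 h3
      have h4 : c' ≤ ∏ i, ‖π i (x m)‖ := by
        rw [Equiv.prod_comp π (fun φ => ‖φ (x m)‖)]
        exact hlat _ (hxL m) (hx0 m)
      have h5 : (m : ℝ) * ∏ i, ‖π i (x m)‖ ≤ ∏ i, ‖χ i (x m)‖ := by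
        rw [← Finset.mul_prod_erase _ _ (Finset.mem_univ i0),
          ← Finset.mul_prod_erase _ (fun i => ‖χ i (x m)‖) (Finset.mem_univ i0), ← mul_assoc]
        refine mul_le_mul h2.le (Finset.prod_le_prod (fun _ _ => norm_nonneg _)
          (fun i _ => h1 i)) (Finset.prod_nonneg (fun _ _ => norm_nonneg _)) (norm_nonneg _)
      have h6 : (m : ℝ) * c' ≤ (m : ℝ) * ∏ i, ‖π i (x m)‖ :=
        mul_le_mul_of_nonneg_left h4 (Nat.cast_nonneg _)
      calc (m : ℝ) * (δ / 2 * c') = δ / 2 * ((m : ℝ) * c') := by ring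
        _ ≤ δ / 2 * ∏ i, ‖χ i (x m)‖ := by
            refine mul_le_mul_of_nonneg_left (h6.trans h5) (by positivity)
        _ ≤ M := h3
    have hbig : ∀ᶠ m : ℕ in (U : Filter ℕ), M < (m : ℝ) * (δ / 2 * c') := by
      refine hUle ?_
      have h1 : Tendsto (fun m : ℕ => (m : ℝ) * (δ / 2 * c')) atTop atTop :=
        (tendsto_natCast_atTop_atTop (R := ℝ)).atTop_mul_const (by positivity)
      exact h1.eventually_gt_atTop M
    obtain ⟨m, h1, h2⟩ := (hfin.and hbig).exists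
    linarith
  refine ⟨θ, ?_, ?_⟩
  · by_contra hne
    have h1 := hratio (conjugate θ) θ hne (by
      filter_upwards [hθ] with m hm
      exact hm _ (Finset.mem_univ _))
    obtain ⟨m, h2, h3⟩ := (h1.and hge1).exists
    rw [conjugate_coe_eq, Complex.norm_conj] at h2
    have h4 : (1 : ℝ) ≤ m := by exact_mod_cast h3
    nlinarith [hpos θ m]
  · intro i hi
    by_contra hp
    have h1 := hχm i θ hp
    rw [hχπ i] at h1
    have h2 := hratio (π i) θ hi (by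
      filter_upwards [hθ] with m hm
      exact hm _ (Finset.mem_univ _))
    obtain ⟨m, ⟨h3, h4⟩, h5⟩ := ((h1.and h2).and hge1).exists
    have h6 : (1 : ℝ) ≤ m := by exact_mod_cast h5
    nlinarith [hpos θ m, hpos (π i) m]

/-- The theorem on separated points in matrix form. -/
theorem sep_gen [DecidableEq ι] (hn : 3 ≤ Fintype.card ι) (b : Basis ι ℚ K)
    (L : Matrix ι ι ℝ) (hL : L.det ≠ 0) (c : ℝ) (hc : 0 < c)
    (hmin : ∀ z : ι → ℤ, z ≠ 0 → c ≤ |∏ i, L.mulVec (fun j => (z j : ℝ)) i|) (M : ℝ)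
    (hsep : ∀ R : ℝ, ∃ v : ι → ℤ, v ≠ 0 ∧ |∏ i, L.mulVec (fun j => (v j : ℝ)) i| ≤ M ∧
      ∀ φ ψ : K →+* ℂ, φ ≠ ψ → R * ‖φ (∑ j, v j • b j)‖ < ‖ψ (∑ j, v j • b j)‖ ∨
        R * ‖ψ (∑ j, v j • b j)‖ < ‖φ (∑ j, v j • b j)‖) :
    ∃ (A : Matrix ι ι ℤ) (μ : ι → ℝ) (π : ι ≃ (K →+* ℂ)) (q : ι → ℂ), A.det = 1 ∧
      Irreducible (A.charpoly.map (Int.castRingHom ℚ)) ∧ (∀ i, 0 < μ i) ∧
      L * A.map (Int.cast : ℤ → ℝ) = Matrix.diagonal μ * L ∧
      (∀ φ : K →+* ℂ, conjugate φ = φ) ∧ ∀ i j, (L i j : ℂ) = q i * π i (b j) := by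
  classical
  have hne : Nonempty ι := Fintype.card_pos_iff.mp (by omega)
  have hPex := fun i => emb_exists b (fun j => (L i j : ℂ))
  choose P hP using hPex
  obtain ⟨π, hπ⟩ := coeff_match b L hL P hP
  have hN : ∀ α ∈ Lat b, α ≠ 0 → c ≤ ∏ i, ‖∑ φ, P i φ * φ α‖ := by
    intro α hα hα0
    obtain ⟨w, rfl⟩ := lat_exists b hα
    have hw : w ≠ 0 := by
      rintro rfl
      apply hα0
      simp
    refine (hmin w hw).trans (le_of_eq ?_)
    rw [Finset.abs_prod]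
    refine Finset.prod_congr rfl (fun i _ => ?_)
    rw [row_int b L P hP, Complex.norm_real, Real.norm_eq_abs]
  have hR : ∀ i, ∀ α ∈ Lat b, (∑ φ, P i φ * φ α).im = 0 := by
    intro i α hα
    obtain ⟨w, rfl⟩ := lat_exists b hα
    rw [row_int b L P hP, Complex.ofReal_im]
  obtain ⟨θ, hθ, hz⟩ := sep_dom b P π hπ M (by
    intro R
    obtain ⟨v, hv, hvM, hvs⟩ := hsep R
    refine ⟨∑ j, v j • b j, lat_int b v, ?_, ?_, hvs⟩
    · intro h0
      apply hv
      have h1 : ∑ j, ((v j : ℤ) : ℚ) • b j = 0 := by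
        rw [← h0]
        exact Finset.sum_congr rfl (fun j _ => Int.cast_smul_eq_zsmul _ _ _)
      funext j
      have h2 := Fintype.linearIndependent_iff.mp b.linearIndependent _ h1 j
      exact_mod_cast h2
    · refine le_trans (le_of_eq ?_) hvM
      rw [Finset.abs_prod]
      refine Finset.prod_congr rfl (fun i _ => ?_)
      rw [row_int b L P hP, Complex.norm_real, Real.norm_eq_abs])
  have hcardΦ : ({θ} : Finset (K →+* ℂ)).card = ({π.symm θ} : Finset ι).card := by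
    rw [Finset.card_singleton, Finset.card_singleton]
  have hπI : ∀ i, π i ∈ ({θ} : Finset (K →+* ℂ)) ↔ i ∈ ({π.symm θ} : Finset ι) := by
    intro i
    rw [Finset.mem_singleton, Finset.mem_singleton, Equiv.eq_symm_apply]
  have hΦc : ∀ φ, conjugate φ ∈ ({θ} : Finset (K →+* ℂ)) ↔ φ ∈ ({θ} : Finset (K →+* ℂ)) := by
    intro φ
    rw [Finset.mem_singleton, Finset.mem_singleton]
    constructor
    · intro h
      rw [← hθ, ← h]
      exact (star_star φ).symm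
    · rintro rfl
      exact hθ
  obtain ⟨hreal, hP1, u, hu, huprim, hupos⟩ := core_one b P c hc hN hR π hπ {π.symm θ} {θ} hΦc
    hcardΦ (Finset.singleton_nonempty _) (by rw [Finset.card_singleton]; omega) hπI
    (by
      intro i hi φ hφ
      rw [Finset.mem_singleton] at hφ
      subst hφ
      refine hz i (fun h => hi ?_)
      rw [← hπI, h]
      exact Finset.mem_singleton_self _)
    (fun x hx => primitive_of_coprime {θ} (by
      rw [Finset.card_singleton]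
      exact Nat.coprime_one_left _) hx)
  have hP2 : ∀ i φ, P i φ ≠ 0 → φ = π i :=
    core_two b hn P c hc hN hR π hπ {π.symm θ} {θ} hπI hreal hP1
  obtain ⟨A, μ, hdet, hirr, hμ, hLA, -⟩ := finish b (Algebra.leftMulMatrix b)
    (fun x j => by
      rw [← b.sum_repr (x * b j)]
      refine Finset.sum_congr rfl (fun i _ => ?_)
      rw [Algebra.leftMulMatrix_eq_repr_mul]) L hL P hP hreal π hP2 u hu huprim hupos 1
  refine ⟨A, μ, π, fun i => P i (π i), hdet, hirr, hμ, hLA, hreal, fun i j => ?_⟩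
  rw [← hP, Finset.sum_eq_single (π i)]
  · intro φ _ hφ
    by_contra h
    exact hφ (hP2 i φ (fun h0 => h (by rw [h0, zero_mul])))
  · intro h
    exact absurd (Finset.mem_univ _) h

end Pool.Agent.H83.Sail
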