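import Mathlib
import Pool.Agent.H83.Sail.Patch

namespace Pool.Agent.H83.Sail

open Module Filter Topology

variable {ι : Type*} [Fintype ι] [DecidableEq ι]

/-- The forms in `Good c d` that have in every window of size `K` an integer point of the open
cone with norm in `V`. -/
def XK (c d K : ℝ) (V : Set ℝ) : Set (Matrix ι ι ℝ) :=
  {L | L ∈ Good c d ∧ ∀ t : ι → ℝ, (∀ i, 0 < t i) → ∏ i, t i = 1 → ∃ v : ι → ℤ,
    (∀ i, 0 < L.mulVec (fun j => (v j : ℝ)) i ∧ L.mulVec (fun j => (v j : ℝ)) i ≤ K * t i) ∧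
    ∏ i, L.mulVec (fun j => (v j : ℝ)) i ∈ V}

omit [DecidableEq ι] in
theorem ne_zero_of_pos [Nonempty ι] (L : Matrix ι ι ℝ) (v : ι → ℤ)
    (hv : ∀ i, 0 < L.mulVec (fun j => (v j : ℝ)) i) : v ≠ 0 := by
  rintro rfl
  obtain ⟨i0⟩ := (inferInstance : Nonempty ι)
  have h1 := hv i0
  have h2 : (fun j => (((0 : ι → ℤ) j : ℤ) : ℝ)) = 0 := by
    funext j
    simp
  rw [h2, Matrix.mulVec_zero, Pi.zero_apply] at h1
  exact lt_irrefl _ h1

theorem xk_limit [Nonempty ι] (c d K : ℝ) (hc : 0 < c) (V : Set ℝ) (hV : IsClosed V)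
    (B : ℕ → Matrix ι ι ℝ) (Y : Matrix ι ι ℝ) (hlim : Tendsto B atTop (𝓝 Y))
    (hY : Y ∈ Good c d) (hB : ∀ t : ι → ℝ, (∀ i, 0 < t i) → ∏ i, t i = 1 → ∀ᶠ k in atTop,
      ∃ v : ι → ℤ, (∀ i, 0 < (B k).mulVec (fun j => (v j : ℝ)) i ∧
        (B k).mulVec (fun j => (v j : ℝ)) i ≤ K * t i) ∧
        ∏ i, (B k).mulVec (fun j => (v j : ℝ)) i ∈ V) : Y ∈ XK c d K V := by
  refine ⟨hY, fun t ht ht1 => ?_⟩
  obtain ⟨C, hC0, hC⟩ := bound_near B Y (good_det_ne hc hY) hlim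
  set N : ℝ := C * ∑ i, K * t i with hN
  have hS : {z : ι → ℤ | ∀ i, |(1 : Matrix ι ι ℝ).mulVec (fun j => (z j : ℝ)) i| ≤ N}.Finite :=
    finite_box (1 : Matrix ι ι ℝ) (by rw [Matrix.det_one]; exact one_ne_zero) (fun _ => N)
  have hex : ∀ᶠ k in atTop, ∃ v ∈ {z : ι → ℤ |
      ∀ i, |(1 : Matrix ι ι ℝ).mulVec (fun j => (z j : ℝ)) i| ≤ N},
      (∀ i, 0 < (B k).mulVec (fun j => (v j : ℝ)) i ∧
        (B k).mulVec (fun j => (v j : ℝ)) i ≤ K * t i) ∧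
        ∏ i, (B k).mulVec (fun j => (v j : ℝ)) i ∈ V := by
    filter_upwards [hC, hB t ht ht1] with k hk1 ⟨v, hv1, hv2⟩
    refine ⟨v, fun j => ?_, hv1, hv2⟩
    rw [Matrix.one_mulVec]
    refine (hk1 (fun j => (v j : ℝ)) j).trans (mul_le_mul_of_nonneg_left ?_ hC0.le)
    refine Finset.sum_le_sum (fun i _ => ?_)
    rw [abs_of_pos (hv1 i).1]
    exact (hv1 i).2
  obtain ⟨v, hv⟩ : ∃ v : ι → ℤ, ∃ᶠ k in atTop,
      (∀ i, 0 < (B k).mulVec (fun j => (v j : ℝ)) i ∧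
        (B k).mulVec (fun j => (v j : ℝ)) i ≤ K * t i) ∧
        ∏ i, (B k).mulVec (fun j => (v j : ℝ)) i ∈ V := by
    by_contra hcon
    push Not at hcon
    have h1 : ∀ᶠ k in atTop, ∀ v ∈ {z : ι → ℤ |
        ∀ i, |(1 : Matrix ι ι ℝ).mulVec (fun j => (z j : ℝ)) i| ≤ N},
        ¬ ((∀ i, 0 < (B k).mulVec (fun j => (v j : ℝ)) i ∧
        (B k).mulVec (fun j => (v j : ℝ)) i ≤ K * t i) ∧
        ∏ i, (B k).mulVec (fun j => (v j : ℝ)) i ∈ V) := by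
      refine (eventually_all_finite hS).mpr (fun v _ => ?_)
      filter_upwards [hcon v] with k hk h
      exact hk h.1 h.2
    obtain ⟨k, hk1, v, hv, hk2⟩ := (h1.and hex).exists
    exact hk1 v hv hk2
  obtain ⟨k0, hk0, -⟩ := hv.exists
  have hv0 : v ≠ 0 := ne_zero_of_pos (B k0) v (fun i => (hk0 i).1)
  refine ⟨v, fun i => ?_, ?_⟩
  · have h1 : Y.mulVec (fun j => (v j : ℝ)) i ∈ Set.Icc 0 (K * t i) :=
      isClosed_Icc.mem_of_frequently_of_tendsto (hv.mono (fun k hk =>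
        ⟨(hk.1 i).1.le, (hk.1 i).2⟩)) (row_tendsto B Y hlim (fun j => (v j : ℝ)) i)
    refine ⟨lt_of_le_of_ne h1.1 (fun h0 => ?_), h1.2⟩
    have h2 := hY.2.2 v hv0
    rw [Finset.prod_eq_zero (Finset.mem_univ i) h0.symm, abs_zero] at h2
    linarith
  · exact hV.mem_of_frequently_of_tendsto (hv.mono (fun k hk => hk.2))
      (norm_tendsto B Y hlim (fun j => (v j : ℝ)))

theorem xk_closed [Nonempty ι] (c d K : ℝ) (hc : 0 < c) (V : Set ℝ) (hV : IsClosed V) :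
    IsClosed (XK c d K V : Set (Matrix ι ι ℝ)) := by
  have hseq : @IsSeqClosed (ι → ι → ℝ) _ (XK c d K V) := by
    intro A L hA hL
    have hL' : Tendsto (A : ℕ → Matrix ι ι ℝ) atTop (𝓝 (L : Matrix ι ι ℝ)) := hL
    have hgood : (L : Matrix ι ι ℝ) ∈ Good c d := good_limit c d A (fun k => (hA k).1) L hL'
    exact xk_limit c d K hc V hV A L hL' hgood (fun t ht ht1 =>
      Filter.Eventually.of_forall (fun k => (hA k).2 t ht ht1))
  exact @IsSeqClosed.isClosed (ι → ι → ℝ) _ _ _ hseq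

theorem mulVec_inv_cancel (U : Matrix ι ι ℤ) (hU : IsUnit U.det) (v : ι → ℤ) :
    U.mulVec (U⁻¹.mulVec v) = v := by
  rw [Matrix.mulVec_mulVec, Matrix.mul_nonsing_inv U hU, Matrix.one_mulVec]

theorem xk_transform (c d K : ℝ) (V : Set ℝ) : Inv (XK c d K V : Set (Matrix ι ι ℝ)) := by
  intro L hL D hD0 hD U hU
  refine ⟨good_transform c d L hL.1 D hD U hU, fun t ht ht1 => ?_⟩
  obtain ⟨v, hv1, hv2⟩ := hL.2 (fun i => t i * (D i)⁻¹)
    (fun i => mul_pos (ht i) (inv_pos.mpr (hD0 i)))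
    (by rw [Finset.prod_mul_distrib, ht1, Finset.prod_inv_distrib, hD, inv_one, one_mul])
  refine ⟨U⁻¹.mulVec v, fun i => ?_, ?_⟩
  · rw [scaled_row, mulVec_inv_cancel U hU]
    refine ⟨mul_pos (hD0 i) (hv1 i).1, ?_⟩
    have h1 := mul_le_mul_of_nonneg_left (hv1 i).2 (hD0 i).le
    have h2 : D i * (K * (t i * (D i)⁻¹)) = K * t i := by
      have := (hD0 i).ne'
      field_simp
    rwa [h2] at h1
  · simp_rw [scaled_row, mulVec_inv_cancel U hU]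
    rw [Finset.prod_mul_distrib, hD, one_mul]
    exact hv2

/-- Limits of windows. -/
theorem local_limit_K [Nonempty ι] (c d K : ℝ) (hc : 0 < c) (V : Set ℝ) (hV : IsClosed V)
    (A : ℕ → Matrix ι ι ℝ) (hA : ∀ k, A k ∈ Good c d) (s : ℕ → ι → ℝ) (hs : ∀ k i, 0 < s k i)
    (hs1 : ∀ k, ∏ i, s k i = 1) (T : ℕ → ℝ) (hT : Tendsto T atTop atTop)
    (hAV : ∀ k (t : ι → ℝ), (∀ i, 0 < t i) → ∏ i, t i = 1 → (∀ i, t i ≤ T k * s k i) →
      ∃ v : ι → ℤ, (∀ i, 0 < (A k).mulVec (fun j => (v j : ℝ)) i ∧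
        (A k).mulVec (fun j => (v j : ℝ)) i ≤ K * t i) ∧
        ∏ i, (A k).mulVec (fun j => (v j : ℝ)) i ∈ V) :
    ∃ (Y : Matrix ι ι ℝ) (ψ : ℕ → ℕ) (U : ℕ → Matrix ι ι ℤ), StrictMono ψ ∧
      (∀ k, IsUnit (U k).det) ∧
      Tendsto (fun k => Matrix.diagonal (fun i => (s (ψ k) i)⁻¹) *
        (A (ψ k) * (U k).map (Int.cast : ℤ → ℝ))) atTop (𝓝 Y) ∧ Y ∈ XK c d K V := by
  obtain ⟨R, hR, hframe⟩ := frame_gl (ι := ι) c d hc
  choose U hU hUle using fun k => hframe (A k) (hA k) (s k) (hs k) (hs1 k)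
  have hBle : ∀ k i j, |(Matrix.diagonal (fun i => (s k i)⁻¹) *
      (A k * (U k).map (Int.cast : ℤ → ℝ))) i j| ≤ R := by
    intro k i j
    rw [Matrix.diagonal_mul, abs_mul, abs_inv, abs_of_pos (hs k i), inv_mul_le_iff₀ (hs k i),
      mul_comm]
    exact hUle k i j
  have hprod : ∀ k, ∏ i, (s k i)⁻¹ = 1 := fun k => by
    rw [Finset.prod_inv_distrib, hs1, inv_one]
  obtain ⟨Y, ψ, hψ, hlim⟩ := mat_subseq _ R hBle
  have hYgood : Y ∈ Good c d :=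
    good_limit c d _ (fun k => good_transform c d _ (hA (ψ k)) _ (hprod (ψ k)) _ (hU (ψ k))) Y hlim
  refine ⟨Y, ψ, fun k => U (ψ k), hψ, fun k => hU _, hlim,
    xk_limit c d K hc V hV _ Y hlim hYgood (fun t ht ht1 => ?_)⟩
  have h1 : ∀ᶠ k in atTop, ∀ i, t i ≤ T (ψ k) :=
    eventually_all.mpr (fun i => (hT.comp hψ.tendsto_atTop).eventually_ge_atTop (t i))
  filter_upwards [h1] with k hk
  obtain ⟨v, hv1, hv2⟩ := hAV (ψ k) (fun i => t i * s (ψ k) i)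
    (fun i => mul_pos (ht i) (hs _ i)) (by rw [Finset.prod_mul_distrib, ht1, hs1, one_mul])
    (fun i => mul_le_mul_of_nonneg_right (hk i) (hs _ i).le)
  refine ⟨(U (ψ k))⁻¹.mulVec v, fun i => ?_, ?_⟩
  · rw [scaled_row, mulVec_inv_cancel _ (hU _)]
    refine ⟨mul_pos (inv_pos.mpr (hs _ i)) (hv1 i).1, ?_⟩
    rw [inv_mul_le_iff₀ (hs _ i)]
    calc (A (ψ k)).mulVec (fun j => (v j : ℝ)) i ≤ K * (t i * s (ψ k) i) := (hv1 i).2
      _ = s (ψ k) i * (K * t i) := by ring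
  · simp_rw [scaled_row, mulVec_inv_cancel _ (hU _)]
    rw [Finset.prod_mul_distrib, hprod, one_mul]
    exact hv2

/-- The condition passes to the intersection of a chain of sets of norms. -/
theorem xk_chain [Nonempty ι] (c d K : ℝ) (hc : 0 < c) (𝒲 : Set (Set ℝ))
    (hchain : IsChain (· ⊆ ·) 𝒲) (hne : 𝒲.Nonempty) (L : Matrix ι ι ℝ)
    (hL : ∀ W ∈ 𝒲, L ∈ XK c d K W) : L ∈ XK c d K (⋂₀ 𝒲) := by
  obtain ⟨W0, hW0⟩ := hne
  refine ⟨(hL W0 hW0).1, fun t ht ht1 => ?_⟩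
  have hdet := good_det_ne hc (hL W0 hW0).1
  set S : Set (ι → ℤ) := {z | ∀ i, |L.mulVec (fun j => (z j : ℝ)) i| ≤ K * t i} with hS
  have hSfin : S.Finite := finite_box L hdet (fun i => K * t i)
  by_contra hcon
  push Not at hcon
  have hbad : ∀ v ∈ S, (∀ i, 0 < L.mulVec (fun j => (v j : ℝ)) i ∧
      L.mulVec (fun j => (v j : ℝ)) i ≤ K * t i) →
      ∃ W ∈ 𝒲, ∏ i, L.mulVec (fun j => (v j : ℝ)) i ∉ W := by
    intro v _ hv
    have h1 := hcon v hv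
    rw [Set.mem_sInter] at h1
    push Not at h1
    exact h1
  have hex : ∃ W ∈ 𝒲, ∀ v ∈ S, (∀ i, 0 < L.mulVec (fun j => (v j : ℝ)) i ∧
      L.mulVec (fun j => (v j : ℝ)) i ≤ K * t i) →
      ∏ i, L.mulVec (fun j => (v j : ℝ)) i ∉ W := by
    refine Set.Finite.induction_on_subset S hSfin ⟨W0, hW0, fun v hv => absurd hv (by simp)⟩ ?_
    intro a S' haS hS'S ha ih
    obtain ⟨W1, hW1, hW1v⟩ := ih
    by_cases hav : ∀ i, 0 < L.mulVec (fun j => (a j : ℝ)) i ∧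
        L.mulVec (fun j => (a j : ℝ)) i ≤ K * t i
    · obtain ⟨W2, hW2, hW2a⟩ := hbad a haS hav
      rcases hchain.total hW1 hW2 with h | h
      · refine ⟨W1, hW1, fun v hv hvv => ?_⟩
        rcases Set.mem_insert_iff.mp hv with rfl | hv
        · exact fun h' => hW2a (h h')
        · exact hW1v v hv hvv
      · refine ⟨W2, hW2, fun v hv hvv => ?_⟩
        rcases Set.mem_insert_iff.mp hv with rfl | hv
        · exact hW2a
        · exact fun h' => hW1v v hv hvv (h h')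
    · refine ⟨W1, hW1, fun v hv hvv => ?_⟩
      rcases Set.mem_insert_iff.mp hv with rfl | hv
      · exact absurd hvv hav
      · exact hW1v v hv hvv
  obtain ⟨W, hW, hWv⟩ := hex
  obtain ⟨v, hv1, hv2⟩ := (hL W hW).2 t ht ht1
  refine hWv v (fun i => ?_) hv1 hv2
  rw [abs_of_pos (hv1 i).1]
  exact (hv1 i).2

/-- A minimal closed set of norms. -/
theorem exists_min_K [Nonempty ι] (c d K : ℝ) (hc : 0 < c) (V : Set ℝ) (hV : IsClosed V)
    (𝒞 : Set (Matrix ι ι ℝ)) (h𝒞 : IsClosed 𝒞) (hinv : Inv 𝒞)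
    (hne : (XK c d K V ∩ 𝒞).Nonempty) :
    ∃ V' ⊆ V, IsClosed V' ∧ (XK c d K V' ∩ 𝒞).Nonempty ∧
      ∀ V'' ⊆ V', IsClosed V'' → (XK c d K V'' ∩ 𝒞).Nonempty → V' ⊆ V'' := by
  obtain ⟨R, hR, hframe⟩ := frame_gl (ι := ι) c d hc
  set S : Set (Set ℝ) := {W | IsClosed W ∧ (XK c d K W ∩ 𝒞 : Set (Matrix ι ι ℝ)).Nonempty}
    with hS
  have hK : IsCompact ({L | ∀ i j, |L i j| ≤ R} : Set (Matrix ι ι ℝ)) := by
    have h1 : IsCompact (Set.univ.pi (fun _ : ι => Set.univ.pi (fun _ : ι => Set.Icc (-R) R)) :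
      Set (ι → ι → ℝ)) := isCompact_univ_pi (fun _ => isCompact_univ_pi (fun _ => isCompact_Icc))
    have h2 : ({L | ∀ i j, |L i j| ≤ R} : Set (Matrix ι ι ℝ)) =
        (Set.univ.pi (fun _ : ι => Set.univ.pi (fun _ : ι => Set.Icc (-R) R)) :
          Set (ι → ι → ℝ)) := by
      ext L
      constructor
      · intro h
        exact Set.mem_univ_pi.mpr (fun i => Set.mem_univ_pi.mpr (fun j => abs_le.mp (h i j)))
      · intro h i j
        exact abs_le.mpr (Set.mem_univ_pi.mp (Set.mem_univ_pi.mp h i) j)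
    rw [h2]
    exact h1
  obtain ⟨m, hmV, hm⟩ := zorn_superset_nonempty S (by
    intro 𝒲 h𝒲 hchain hne𝒲
    have hne' : Nonempty 𝒲 := hne𝒲.to_subtype
    refine ⟨⋂₀ 𝒲, ⟨isClosed_sInter (fun W hW => (h𝒲 hW).1), ?_⟩, fun W hW =>
      Set.sInter_subset_of_mem hW⟩
    have hcl : ∀ W : 𝒲, IsClosed (XK c d K W.1 ∩ 𝒞 : Set (Matrix ι ι ℝ)) := fun W =>
      (xk_closed c d K hc W.1 (h𝒲 W.2).1).inter h𝒞
    obtain ⟨L, hL⟩ := IsCompact.nonempty_iInter_of_directed_nonempty_isCompact_isClosed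
      (fun W : 𝒲 => ({L | ∀ i j, |L i j| ≤ R} : Set (Matrix ι ι ℝ)) ∩ (XK c d K W.1 ∩ 𝒞)) (by
        intro W1 W2
        have hmono : ∀ W W' : 𝒲, W.1 ⊆ W'.1 →
            (({L | ∀ i j, |L i j| ≤ R} : Set (Matrix ι ι ℝ)) ∩ (XK c d K W.1 ∩ 𝒞)) ⊆
            (({L | ∀ i j, |L i j| ≤ R} : Set (Matrix ι ι ℝ)) ∩ (XK c d K W'.1 ∩ 𝒞)) := by
          rintro W W' hWW' L ⟨h1, h2, h3⟩
          refine ⟨h1, ⟨h2.1, fun t ht ht1 => ?_⟩, h3⟩
          obtain ⟨v, hv1, hv2⟩ := h2.2 t ht ht1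
          exact ⟨v, hv1, hWW' hv2⟩
        rcases hchain.total W1.2 W2.2 with h | h
        · exact ⟨W1, Set.Subset.rfl, hmono _ _ h⟩
        · exact ⟨W2, hmono _ _ h, Set.Subset.rfl⟩) (by
        intro W
        obtain ⟨L, hL1, hL2⟩ := (h𝒲 W.2).2
        obtain ⟨U, hU, hUle⟩ := hframe L hL1.1 (fun _ => 1) (fun _ => one_pos)
          Finset.prod_const_one
        refine ⟨Matrix.diagonal (fun _ => (1 : ℝ)) * (L * U.map (Int.cast : ℤ → ℝ)), ?_,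
          xk_transform c d K W.1 L hL1 _ (fun _ => one_pos) Finset.prod_const_one U hU,
          hinv L hL2 _ (fun _ => one_pos) Finset.prod_const_one U hU⟩
        intro i j
        rw [Matrix.diagonal_mul, one_mul]
        have h1 := hUle i j
        rwa [mul_one] at h1) (fun W => hK.inter_right (hcl W))
      (fun W => (hK.inter_right (hcl W)).isClosed)
    refine ⟨L, xk_chain c d K hc 𝒲 hchain hne𝒲 L (fun W hW =>
      (Set.mem_iInter.mp hL ⟨W, hW⟩).2.1), ?_⟩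
    obtain ⟨W, hW⟩ := hne𝒲
    exact (Set.mem_iInter.mp hL ⟨W, hW⟩).2.2) V ⟨hV, hne⟩
  refine ⟨m, hmV, hm.prop.1, hm.prop.2, fun V'' hV'' hcl hne'' => ?_⟩
  exact hm.le_of_le ⟨hcl, hne''⟩ hV''

/-- Countable closed set of norms: an algebraic form in every closed invariant set. -/
theorem xk_alg (hn : 3 ≤ Fintype.card ι) (c d K : ℝ) (hc : 0 < c) (V : Set ℝ) (hV : IsClosed V)
    (hVc : V.Countable) (𝒞 : Set (Matrix ι ι ℝ)) (h𝒞 : IsClosed 𝒞) (hinv : Inv 𝒞)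
    (hne : (XK c d K V ∩ 𝒞).Nonempty) : ∃ L ∈ Good c d ∩ 𝒞, Alg L := by
  have hι : Nonempty ι := Fintype.card_pos_iff.mp (by omega)
  obtain ⟨V', hV'V, hV', ⟨L, hL, hL𝒞⟩, hmin⟩ := exists_min_K c d K hc V hV 𝒞 h𝒞 hinv hne
  obtain ⟨v0, hv01, hv0⟩ := hL.2 (fun _ => 1) (fun _ => one_pos) Finset.prod_const_one
  obtain ⟨x, hx, hxcl⟩ := exists_isolated V' hV' (hVc.mono hV'V) ⟨_, hv0⟩
  have hempty : ¬ (XK c d K (V' \ {x}) ∩ 𝒞 : Set (Matrix ι ι ℝ)).Nonempty := by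
    intro h
    exact (hmin _ Set.sdiff_subset hxcl h hx).2 rfl
  have hK0 : 0 < K := by
    obtain ⟨i0⟩ := hι
    have h1 := (hv01 i0).1.trans_le (hv01 i0).2
    rwa [mul_one] at h1
  obtain ⟨T, hT⟩ : ∃ T : ℕ, ∀ s : ι → ℝ, (∀ i, 0 < s i) → ∏ i, s i = 1 → ∃ v : ι → ℤ,
      (∀ i, 0 < L.mulVec (fun j => (v j : ℝ)) i) ∧
      (∀ i, L.mulVec (fun j => (v j : ℝ)) i ≤ K * T * s i) ∧
      ∏ i, L.mulVec (fun j => (v j : ℝ)) i = x := by
    by_contra hcon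
    push Not at hcon
    choose s hs hs1 hsv using hcon
    obtain ⟨Y, ψ, U, -, hU, hlim, hY⟩ := local_limit_K c d K hc (V' \ {x}) hxcl (fun _ => L)
      (fun _ => hL.1) s hs hs1 (fun k => (k : ℝ)) tendsto_natCast_atTop_atTop
      (fun k t ht ht1 htT => by
        obtain ⟨v, hv1, hv2⟩ := hL.2 t ht ht1
        refine ⟨v, hv1, hv2, fun h => hsv k v (fun i => (hv1 i).1) (fun i => ?_) h⟩
        refine (hv1 i).2.trans ?_
        rw [mul_assoc]
        exact mul_le_mul_of_nonneg_left (htT i) hK0.le)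
    refine hempty ⟨Y, hY, ?_⟩
    have hcl : @IsClosed (ι → ι → ℝ) _ 𝒞 := h𝒞
    refine hcl.mem_of_tendsto hlim (Filter.Eventually.of_forall (fun k => ?_))
    exact hinv L hL𝒞 _ (fun i => inv_pos.mpr (hs (ψ k) i))
      (by rw [Finset.prod_inv_distrib, hs1, inv_one]) (U k) (hU k)
  exact ⟨L, ⟨hL.1, hL𝒞⟩,
    syndetic_alg hn L (good_det_ne hc hL.1) c hc hL.1.2.2 x (K * T) (fun s hs hs1 => hT s hs hs1)⟩

/-- Countable closed set of norms: all the forms are algebraic. -/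
theorem xk_all_alg (hn : 3 ≤ Fintype.card ι) (c d K : ℝ) (hc : 0 < c) (V : Set ℝ)
    (hV : IsClosed V) (hVc : V.Countable) (Y : Matrix ι ι ℝ) (hY : Y ∈ XK c d K V) : Alg Y := by
  have hYmem : Y ∈ closure (Orb Y) := by
    refine subset_closure ⟨fun _ => 1, fun _ => one_pos, Finset.prod_const_one, 1, ?_, ?_⟩
    · rw [Matrix.det_one]
      exact isUnit_one
    · rw [Matrix.diagonal_one, Matrix.one_mul, Matrix.map_one _ Int.cast_zero Int.cast_one,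
        Matrix.mul_one]
  obtain ⟨Z, ⟨hZ, hZcl⟩, hZalg⟩ := xk_alg hn c d K hc V hV hVc (closure (Orb Y)) isClosed_closure
    (orb_closure_inv Y) ⟨Y, hY, hYmem⟩
  have hZcl' : Z ∈ @closure (ι → ι → ℝ) _ (Orb Y) := hZcl
  obtain ⟨A, hA, hAlim⟩ := (@mem_closure_iff_seq_limit (ι → ι → ℝ) _ _ _ _).mp hZcl'
  choose D hD0 hD U hU hAeq using hA
  have hgood : ∀ k, (A k : Matrix ι ι ℝ) ∈ Good c d := by
    intro k
    rw [hAeq k]
    exact good_transform c d Y hY.1 (D k) (hD k) (U k) (hU k)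
  obtain ⟨k, E, hE⟩ := (alg_isolation hn c d hc Z (good_det_ne hc hZ) hZalg A hAlim
    hgood).exists
  rw [hAeq k] at hE
  exact alg_transfer Y Z (D k) E (fun i => (hD0 k i).ne') (U k) (hU k) hE hZalg

/-- One large window, every subwindow of size `K` of which contains an integer point with norm in
a countable closed set, forces all the forms to be algebraic. -/
theorem patch_K (hn : 3 ≤ Fintype.card ι) (c d K : ℝ) (hc : 0 < c) (V : Set ℝ)
    (hV : IsClosed V) (hVc : V.Countable) : ∃ T : ℕ, ∀ L : Matrix ι ι ℝ, L ∈ Good c d →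
      ∀ s : ι → ℝ, (∀ i, 0 < s i) → ∏ i, s i = 1 →
      (∀ t : ι → ℝ, (∀ i, 0 < t i) → ∏ i, t i = 1 → (∀ i, t i ≤ T * s i) →
        ∃ v : ι → ℤ, (∀ i, 0 < L.mulVec (fun j => (v j : ℝ)) i ∧
          L.mulVec (fun j => (v j : ℝ)) i ≤ K * t i) ∧
          ∏ i, L.mulVec (fun j => (v j : ℝ)) i ∈ V) → Alg L := by
  have hι : Nonempty ι := Fintype.card_pos_iff.mp (by omega)
  by_contra hcon
  push Not at hcon
  choose L hL s hs hs1 hLV hLalg using hcon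
  obtain ⟨Y, ψ, U, -, hU, hlim, hY⟩ := local_limit_K c d K hc V hV L hL s hs hs1
    (fun k => (k : ℝ)) tendsto_natCast_atTop_atTop hLV
  have hYalg := xk_all_alg hn c d K hc V hV hVc Y hY
  obtain ⟨k, E, hE⟩ := (alg_isolation hn c d hc Y (good_det_ne hc hY.1) hYalg _ hlim
    (fun k => good_transform c d _ (hL (ψ k)) _
      (by rw [Finset.prod_inv_distrib, hs1, inv_one]) (U k) (hU k))).exists
  exact hLalg (ψ k) (alg_transfer (L (ψ k)) Y _ E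
    (fun i => (inv_pos.mpr (hs (ψ k) i)).ne') (U k) (hU k) hE hYalg)

end Pool.Agent.H83.Sail
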